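import Mathlib

/-!
Definitions used in the statement on nondegenerate rational curves in homogeneous spaces.
-/

open scoped LinearAlgebra.Projectivization Matrix

namespace Kol68

variable {M N : ℕ}

/-- The value at `g` of a polynomial in the matrix entries. -/
noncomputable def evalAt (g : GL (Fin N) ℂ) (p : MvPolynomial (Fin N × Fin N) ℂ) : ℂ :=
  MvPolynomial.eval (fun ij => (g : Matrix (Fin N) (Fin N) ℂ) ij.1 ij.2) p

/-- Zariski-closed subsets of `GL_N(ℂ)`. -/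
def GLClosed (A : Set (GL (Fin N) ℂ)) : Prop :=
  ∃ S : Set (MvPolynomial (Fin N × Fin N) ℂ), A = {g | ∀ p ∈ S, evalAt g p = 0}

/-- Zariski-connected subsets of `GL_N(ℂ)`. -/
def GLConnected (A : Set (GL (Fin N) ℂ)) : Prop :=
  ∀ B C : Set (GL (Fin N) ℂ), GLClosed B → GLClosed C → A ⊆ B ∪ C → A ∩ B ∩ C = ∅ →
    A ⊆ B ∨ A ⊆ C

theorem mulVec_ne_zero (g : GL (Fin N) ℂ) {w : Fin N → ℂ} (hw : w ≠ 0) :
    (g : Matrix (Fin N) (Fin N) ℂ) *ᵥ w ≠ 0 := fun h => hw <| by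
  have := congrArg (fun y => ((g⁻¹ : GL (Fin N) ℂ) : Matrix (Fin N) (Fin N) ℂ) *ᵥ y) h
  simpa [Matrix.mulVec_mulVec] using this

/-- The action of `GL_N(ℂ)` on projective space. -/
noncomputable def act (g : GL (Fin N) ℂ) (x : ℙ ℂ (Fin N → ℂ)) : ℙ ℂ (Fin N → ℂ) :=
  Projectivization.mk ℂ ((g : Matrix (Fin N) (Fin N) ℂ) *ᵥ x.rep) (mulVec_ne_zero g x.rep_nonzero)

/-- The orbit `G · x₀`. -/
def orbit (G : Subgroup (GL (Fin N) ℂ)) (x₀ : ℙ ℂ (Fin N → ℂ)) : Set (ℙ ℂ (Fin N → ℂ)) :=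
  {x | ∃ g ∈ G, x = act g x₀}

/-- Zariski-closed subsets of projective space. -/
def PClosed (Z : Set (ℙ ℂ (Fin N → ℂ))) : Prop :=
  ∃ S : Set (MvPolynomial (Fin N) ℂ), (∀ p ∈ S, ∃ n : ℕ, p.IsHomogeneous n) ∧
    Z = {x | ∀ p ∈ S, MvPolynomial.eval x.rep p = 0}

/-- Projective subvarieties: nonempty, Zariski-closed and irreducible. -/
def Subvariety (Z : Set (ℙ ℂ (Fin N → ℂ))) : Prop :=
  PClosed Z ∧ Z.Nonempty ∧
    ∀ A B : Set (ℙ ℂ (Fin N → ℂ)), PClosed A → PClosed B → Z ⊆ A ∪ B → Z ⊆ A ∨ Z ⊆ B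

/-- `φ` is a morphism of varieties on `A`: near each point of `A` it is given by forms of one
degree that do not all vanish. -/
def RegularOn (A : Set (ℙ ℂ (Fin M → ℂ))) (φ : ℙ ℂ (Fin M → ℂ) → ℙ ℂ (Fin N → ℂ)) : Prop :=
  ∀ x ∈ A, ∃ (e : ℕ) (F : Fin N → MvPolynomial (Fin M) ℂ), (∀ i, (F i).IsHomogeneous e) ∧
    (fun i => MvPolynomial.eval x.rep (F i)) ≠ 0 ∧
    ∀ y ∈ A, ∀ h : (fun i => MvPolynomial.eval y.rep (F i)) ≠ 0,
      φ y = Projectivization.mk ℂ (fun i => MvPolynomial.eval y.rep (F i)) h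

/-- A projective subvariety isomorphic to the projective line. -/
def SmoothRationalCurve (C : Set (ℙ ℂ (Fin N → ℂ))) : Prop :=
  Subvariety C ∧
    ∃ (φ : ℙ ℂ (Fin 2 → ℂ) → ℙ ℂ (Fin N → ℂ)) (ψ : ℙ ℂ (Fin N → ℂ) → ℙ ℂ (Fin 2 → ℂ)),
      RegularOn Set.univ φ ∧ RegularOn C ψ ∧ (∀ p, φ p ∈ C) ∧ (∀ p, ψ (φ p) = p) ∧
        ∀ c ∈ C, φ (ψ c) = c

/-- `Z` lies in one fibre `g K · x₀` of `G/H → G/K` for some closed subgroup `K` with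
`H ≤ K < G`, where `H` is the stabiliser of `x₀` in `G`. -/
def Degenerate (G : Subgroup (GL (Fin N) ℂ)) (x₀ : ℙ ℂ (Fin N → ℂ))
    (Z : Set (ℙ ℂ (Fin N → ℂ))) : Prop :=
  ∃ K : Subgroup (GL (Fin N) ℂ), GLClosed (K : Set (GL (Fin N) ℂ)) ∧
    (∀ g ∈ G, act g x₀ = x₀ → g ∈ K) ∧ K < G ∧
    ∃ g ∈ G, ∀ z ∈ Z, ∃ k ∈ K, z = act (g * k) x₀

end Kol68
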