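import Mathlib

open scoped TensorProduct

namespace Kol68

namespace FieldsAux

/-- A copy of the dual numbers, without the inherited algebra structures. -/
def Dn (L : Type) [Field L] : Type := TrivSqZeroExt L L

noncomputable instance (L : Type) [Field L] : CommRing (Dn L) :=
  inferInstanceAs (CommRing (TrivSqZeroExt L L))

open scoped IntermediateField.algebraAdjoinAdjoin in
theorem smooth_adjoin {k L ι : Type} [Field k] [Field L] [Algebra k L] [CharZero k] {v : ι → L}
    (hv : IsTranscendenceBasis k v) :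
    Algebra.FormallySmooth (Algebra.adjoin k (Set.range v)) L := by
  have h1 : Algebra.FormallySmooth (Algebra.adjoin k (Set.range v))
      (IntermediateField.adjoin k (Set.range v)) := .of_isLocalization (nonZeroDivisors _)
  have h2 : Algebra.IsAlgebraic (IntermediateField.adjoin k (Set.range v)) L :=
    hv.isAlgebraic_field
  have h3 : CharZero (IntermediateField.adjoin k (Set.range v)) :=
    algebraRat.charZero _
  have h4 : Algebra.IsSeparable (IntermediateField.adjoin k (Set.range v)) L := inferInstance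
  have h5 : Algebra.FormallyEtale (IntermediateField.adjoin k (Set.range v)) L :=
    Algebra.FormallyEtale.of_isSeparable _ L
  exact .comp _ (IntermediateField.adjoin k (Set.range v)) _

theorem exists_der {k L : Type} [Field k] [Field L] [Algebra k L] [CharZero k] (y : L)
    (hy : Transcendental k y) : ∃ D : Derivation k L L, D y = 1 := by
  classical
  have hind : AlgebraicIndependent k ((↑) : ({y} : Set L) → L) := by
    rw [algebraicIndependent_unique_type_iff]
    exact hy
  obtain ⟨t, hyt, ht⟩ := exists_isTranscendenceBasis_superset (R := k) (s := ({y} : Set L)) hind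
  have hsm := smooth_adjoin ht
  set R0 := Algebra.adjoin k (Set.range ((↑) : t → L)) with hR0
  let φ0 : MvPolynomial t k →ₐ[k] TrivSqZeroExt L L :=
    MvPolynomial.aeval fun b : t =>
      TrivSqZeroExt.inl (b : L) + TrivSqZeroExt.inr (if (b : L) = y then (1 : L) else 0)
  let φ : R0 →ₐ[k] TrivSqZeroExt L L := φ0.comp ht.1.aevalEquiv.symm.toAlgHom
  have hφ0 : ∀ q : MvPolynomial t k,
      (φ0 q).fst = MvPolynomial.aeval ((↑) : t → L) q := by
    intro q
    have : (TrivSqZeroExt.fstHom k L L).comp φ0 = MvPolynomial.aeval ((↑) : t → L) := by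
      ext b
      simp only [φ0, AlgHom.comp_apply, MvPolynomial.aeval_X, TrivSqZeroExt.fstHom_apply,
        TrivSqZeroExt.fst_add, TrivSqZeroExt.fst_inl, TrivSqZeroExt.fst_inr, add_zero]
    exact congrArg (fun f : MvPolynomial t k →ₐ[k] L => f q) this
  have hφ : ∀ r : R0, (φ r).fst = algebraMap R0 L r := by
    intro r
    obtain ⟨q, rfl⟩ := ht.1.aevalEquiv.surjective r
    have : φ (ht.1.aevalEquiv q) = φ0 q := by simp [φ]
    rw [this, hφ0]
    exact (ht.1.algebraMap_aevalEquiv q).symm
  let φ' : R0 →+* Dn L := φ.toRingHom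
  let : Algebra R0 (Dn L) := φ'.toAlgebra
  let g : Dn L →ₐ[R0] L :=
    { toRingHom := (TrivSqZeroExt.fstHom k L L).toRingHom
      commutes' := fun r => hφ r }
  have hg : Function.Surjective g := fun x => ⟨TrivSqZeroExt.inl x, rfl⟩
  have hnil : IsNilpotent (RingHom.ker (g : Dn L →+* L)) := by
    refine ⟨2, ?_⟩
    rw [pow_two, Ideal.zero_eq_bot, eq_bot_iff, Ideal.mul_le]
    intro a ha b hb
    have ha' : TrivSqZeroExt.fst (a : TrivSqZeroExt L L) = 0 := ha
    have hb' : TrivSqZeroExt.fst (b : TrivSqZeroExt L L) = 0 := hb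
    have key : ∀ a b : TrivSqZeroExt L L, a.fst = 0 → b.fst = 0 → a * b = 0 := by
      intro a b ha hb
      ext
      · simp [ha]
      · simp [ha, hb]
    exact key a b ha' hb'
  let ψ0 : L →ₐ[R0] Dn L := Algebra.FormallySmooth.liftOfSurjective (AlgHom.id R0 L) g hg hnil
  obtain ⟨ψ, hψ, hψR⟩ : ∃ ψ : L →+* TrivSqZeroExt L L, (∀ x : L, (ψ x).fst = x) ∧
      ∀ r : R0, ψ (algebraMap R0 L r) = φ r :=
    ⟨ψ0.toRingHom, fun x =>
      Algebra.FormallySmooth.liftOfSurjective_apply (AlgHom.id R0 L) g hg hnil x,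
      fun r => ψ0.commutes r⟩
  have hψk : ∀ c : k, ψ (algebraMap k L c) = TrivSqZeroExt.inl (algebraMap k L c) := by
    intro c
    have h1 : algebraMap k L c = algebraMap R0 L (algebraMap k R0 c) := rfl
    rw [h1, hψR, φ.commutes]
    rfl
  have hmul : ∀ a b : L, (ψ (a * b)).snd = a * (ψ b).snd + b * (ψ a).snd := by
    intro a b
    rw [map_mul, TrivSqZeroExt.snd_mul, hψ, hψ]
    simp [mul_comm]
  let d : L →ₗ[k] L :=
    { toFun := fun x => (ψ x).snd
      map_add' := fun a b => by rw [map_add, TrivSqZeroExt.snd_add]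
      map_smul' := fun c a => by
        rw [Algebra.smul_def, hmul, hψk]
        simp [Algebra.smul_def] }
  refine ⟨Derivation.mk' d (fun a b => by simpa [d] using hmul a b), ?_⟩
  have hyt' : y ∈ t := hyt rfl
  have h1 : y = algebraMap R0 L (ht.1.aevalEquiv (MvPolynomial.X ⟨y, hyt'⟩)) := by
    rw [ht.1.algebraMap_aevalEquiv]
    simp
  change (ψ y).snd = 1
  rw [h1, hψR]
  simp [φ, φ0]

theorem exists_der_cx (C : Set ℂ) (hC : C.Countable) :
    ∃ (s : ℂ) (D : Derivation ℚ ℂ ℂ), D s = 1 ∧ ∀ c ∈ C, D c = 0 := by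
  let k := IntermediateField.adjoin ℚ C
  have hk : Cardinal.mk k ≤ Cardinal.aleph0 := by
    refine (IntermediateField.cardinalMk_adjoin_le ℚ C).trans ?_
    simp only [sup_le_iff, le_refl, and_true]
    exact ⟨by simp, hC.le_aleph0⟩
  have hT : ∃ s : ℂ, Transcendental k s := by
    by_contra hno
    push Not at hno
    have halg : Algebra.IsAlgebraic k ℂ := ⟨fun s => by
      have := hno s
      unfold Transcendental at this
      exact not_not.mp this⟩
    have h1 := Algebra.IsAlgebraic.cardinalMk_le_max k ℂ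
    have h2 : Cardinal.mk ℂ ≤ Cardinal.aleph0 := h1.trans (max_le hk le_rfl)
    rw [Cardinal.mk_complex] at h2
    exact absurd h2 (not_le.mpr Cardinal.aleph0_lt_continuum)
  obtain ⟨s, hs⟩ := hT
  have : CharZero k := algebraRat.charZero _
  obtain ⟨D, hD⟩ := exists_der s hs
  refine ⟨s, D.restrictScalars ℚ, hD, fun c hc => ?_⟩
  have hck : c ∈ k := IntermediateField.subset_adjoin ℚ C hc
  exact D.map_algebraMap (⟨c, hck⟩ : k)

open Polynomial in
theorem not_nil {F L : Type} [Field F] [Field L] [Algebra F L] [CharZero F]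
    (y : L) (hy : y ∉ (algebraMap F L).range) :
    ¬ IsNilpotent (y ⊗ₜ[F] (1 : L) - (1 : L) ⊗ₜ[F] y) := by
  classical
  rintro ⟨n, hn⟩
  let b := Module.Basis.ofVectorSpace F L
  let q : L[X] := (C y - X) ^ n
  let qi : Module.Basis.ofVectorSpaceIndex F L → F[X] := fun i =>
    ∑ j ∈ q.support, monomial j (b.coord i (q.coeff j))
  have hqi : ∀ i j, (qi i).coeff j = b.coord i (q.coeff j) := by
    intro i j
    simp only [qi, finsetSum_coeff, coeff_monomial]
    rw [Finset.sum_ite_eq']
    split_ifs with h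
    · rfl
    · rw [notMem_support_iff.mp h, map_zero]
  have hq : aeval ((1 : L) ⊗ₜ[F] y : L ⊗[F] L) q = 0 := by
    simp only [q, map_pow, map_sub, aeval_C, aeval_X]
    exact hn
  have hroot : ∀ i, aeval y (qi i) = 0 := by
    intro i
    let T : L ⊗[F] L →ₗ[F] L := (TensorProduct.lid F L).toLinearMap ∘ₗ
      TensorProduct.map (b.coord i) LinearMap.id
    have hT : ∀ a c : L, T (a ⊗ₜ[F] c) = b.coord i a • c := by
      intro a c
      simp [T]
    have h1 := congrArg T hq
    rw [map_zero, aeval_eq_sum_range, map_sum] at h1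
    rw [← h1, aeval_eq_sum_range' (n := q.natDegree + 1)]
    · refine Finset.sum_congr rfl fun j _ => ?_
      rw [hqi, Algebra.TensorProduct.tmul_pow, one_pow, TensorProduct.smul_tmul', smul_eq_mul,
        mul_one, hT]
    · rw [Nat.lt_succ_iff, natDegree_le_iff_coeff_eq_zero]
      intro j hj
      rw [hqi, coeff_eq_zero_of_natDegree_lt hj, map_zero]
  have hq0 : q ≠ 0 := by
    apply pow_ne_zero
    rw [← neg_sub]
    exact neg_ne_zero.mpr (X_sub_C_ne_zero y)
  let S : Finset (Module.Basis.ofVectorSpaceIndex F L) :=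
    q.support.biUnion fun j => (b.repr (q.coeff j)).support
  have hdec : q = ∑ i ∈ S, C (b i) * (qi i).map (algebraMap F L) := by
    ext j
    simp only [finsetSum_coeff, coeff_C_mul, coeff_map, hqi]
    by_cases hj : j ∈ q.support
    · conv_lhs => rw [← b.linearCombination_repr (q.coeff j)]
      rw [Finsupp.linearCombination_apply, Finsupp.sum_of_support_subset _
        (s := S) (fun i hi => Finset.mem_biUnion.mpr ⟨j, hj, hi⟩) _ (by simp)]
      refine Finset.sum_congr rfl fun i _ => ?_
      rw [Algebra.smul_def, mul_comm]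
      rfl
    · rw [notMem_support_iff.mp hj]
      simp
  by_cases halg : IsIntegral F y
  · have hdvd : (minpoly F y).map (algebraMap F L) ∣ q := by
      rw [hdec]
      refine Finset.dvd_sum fun i _ => Dvd.dvd.mul_left ?_ _
      exact Polynomial.map_dvd _ (minpoly.dvd F y (hroot i))
    have hsep : ((minpoly F y).map (algebraMap F L)).Separable :=
      ((minpoly.irreducible halg).separable).map
    have hsq := hsep.squarefree
    have h1 : (minpoly F y).map (algebraMap F L) ∣ (C y - X) :=
      hsq.isRadical n _ hdvd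
    have hne : (C y - X : L[X]) ≠ 0 := by
      rw [← neg_sub]
      exact neg_ne_zero.mpr (X_sub_C_ne_zero y)
    have h2 := natDegree_le_of_dvd h1 hne
    have h3 : (C y - X : L[X]).natDegree = 1 := by
      rw [← neg_sub, natDegree_neg, natDegree_X_sub_C]
    rw [natDegree_map, h3] at h2
    have h4 := minpoly.natDegree_pos halg
    exact hy (minpoly.natDegree_eq_one_iff.mp (le_antisymm h2 h4))
  · have htr : Transcendental F y := fun h => halg h.isIntegral
    apply hq0
    rw [hdec]
    refine Finset.sum_eq_zero fun i _ => ?_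
    have : qi i = 0 := by
      by_contra h
      exact htr ⟨qi i, h, hroot i⟩
    rw [this]
    simp

theorem gordan_finset {V : Type*} [AddCommGroup V] [Module ℚ V] {ι : Type} (p : ι → V)
    (s : Finset ι) : ∀ W : Submodule ℚ V,
    (∀ n : ι → ℚ, (∀ i, 0 ≤ n i) → ∑ i ∈ s, n i • p i ∈ W → ∀ i ∈ s, n i = 0) →
    ∃ θ : V →ₗ[ℚ] ℚ, (∀ i ∈ s, 0 < θ (p i)) ∧ ∀ w ∈ W, θ w = 0 := by
  classical
  induction s using Finset.induction_on with
  | empty => exact fun W _ => ⟨0, by simp, by simp⟩
  | insert a s ha ih =>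
    intro W h
    have key : ∀ (n : ι → ℚ) (c : ℚ), (∀ i, 0 ≤ n i) → 0 ≤ c →
        c • p a + ∑ i ∈ s, n i • p i ∈ W → c = 0 ∧ ∀ i ∈ s, n i = 0 := by
      intro n c hn hc hW
      have h1 := h (Function.update n a c) (fun i => by
        by_cases hi : i = a
        · subst hi; simpa using hc
        · rw [Function.update_of_ne hi]; exact hn i) (by
        rw [Finset.sum_insert ha, Function.update_self]
        convert hW using 2
        refine Finset.sum_congr rfl fun i hi => ?_
        rw [Function.update_of_ne (ne_of_mem_of_not_mem hi ha)])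
      refine ⟨by simpa using h1 a (Finset.mem_insert_self a s), fun i hi => ?_⟩
      have h2 := h1 i (Finset.mem_insert_of_mem hi)
      rwa [Function.update_of_ne (ne_of_mem_of_not_mem hi ha)] at h2
    obtain ⟨θ₁, hθ₁, hW₁⟩ := ih W fun n hn hW => (key n 0 hn le_rfl (by simpa using hW)).2
    by_cases hpos : 0 < θ₁ (p a)
    · refine ⟨θ₁, fun i hi => ?_, hW₁⟩
      rcases Finset.mem_insert.mp hi with rfl | hi
      · exact hpos
      · exact hθ₁ i hi
    have hneg : θ₁ (p a) ≤ 0 := not_lt.mp hpos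
    obtain ⟨θ₂, hθ₂, hW₂⟩ := ih (W ⊔ Submodule.span ℚ {p a}) (by
      intro n hn hW
      obtain ⟨w, hw, u, hu, hsum⟩ := Submodule.mem_sup.mp hW
      obtain ⟨c, rfl⟩ := Submodule.mem_span_singleton.mp hu
      by_cases hc : c ≤ 0
      · refine (key n (-c) hn (by linarith) ?_).2
        rw [← hsum]
        convert hw using 1
        module
      · have hc' : 0 < c := not_le.mp hc
        have h1 := congrArg θ₁ hsum
        rw [map_add, hW₁ w hw, zero_add, map_smul, map_sum, smul_eq_mul] at h1
        have h2 : ∑ i ∈ s, θ₁ (n i • p i) ≤ 0 := by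
          rw [← h1]
          exact mul_nonpos_of_nonneg_of_nonpos hc'.le hneg
        have h3 : ∀ i ∈ s, 0 ≤ θ₁ (n i • p i) := fun i hi => by
          rw [map_smul, smul_eq_mul]
          exact mul_nonneg (hn i) (hθ₁ i hi).le
        have h4 := (Finset.sum_eq_zero_iff_of_nonneg h3).mp
          (le_antisymm h2 (Finset.sum_nonneg h3))
        intro i hi
        have h5 := h4 i hi
        rw [map_smul, smul_eq_mul] at h5
        exact (mul_eq_zero.mp h5).resolve_right (hθ₁ i hi).ne')
    have hpa : p a ∉ W := by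
      intro hW
      have := (key 0 1 (fun _ => le_rfl) zero_le_one (by simpa using hW)).1
      exact one_ne_zero this
    obtain ⟨φ, hφa, hφW⟩ := Submodule.exists_dual_map_eq_bot_of_notMem hpa inferInstance
    have hφW' : ∀ w ∈ W, φ w = 0 := fun w hw => by
      have : φ w ∈ W.map φ := Submodule.mem_map_of_mem hw
      rwa [hφW, Submodule.mem_bot] at this
    let φ' : V →ₗ[ℚ] ℚ := (φ (p a))⁻¹ • φ
    have hφ'a : φ' (p a) = 1 := by simp [φ', inv_mul_cancel₀ hφa]
    have hφ'W : ∀ w ∈ W, φ' w = 0 := fun w hw => by simp [φ', hφW' w hw]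
    let M : ℚ := 1 + ∑ i ∈ s, |φ' (p i)| / θ₂ (p i)
    have hθa : θ₂ (p a) = 0 :=
      hW₂ _ (Submodule.mem_sup_right (Submodule.mem_span_singleton_self _))
    refine ⟨M • θ₂ + φ', fun i hi => ?_, fun w hw => ?_⟩
    · rcases Finset.mem_insert.mp hi with rfl | hi
      · simp [hθa, hφ'a]
      · have h1 : |φ' (p i)| / θ₂ (p i) ≤ ∑ j ∈ s, |φ' (p j)| / θ₂ (p j) :=
          Finset.single_le_sum (f := fun j => |φ' (p j)| / θ₂ (p j))
            (fun j hj => div_nonneg (abs_nonneg _) (hθ₂ j hj).le) hi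
        have h2 := hθ₂ i hi
        rw [div_le_iff₀ h2] at h1
        have h3 := neg_abs_le (φ' (p i))
        simp only [LinearMap.add_apply, LinearMap.smul_apply, smul_eq_mul, M]
        nlinarith
    · simp [hW₂ w (Submodule.mem_sup_left hw), hφ'W w hw]

end FieldsAux

theorem exists_derivation {k L : Type} [Field k] [Field L] [Algebra k L] [CharZero k] (y : L)
    (hy : Transcendental k y) : ∃ D : Derivation k L L, D y = 1 :=
  FieldsAux.exists_der y hy

theorem exists_der_complex (C : Set ℂ) (hC : C.Countable) :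
    ∃ (s : ℂ) (D : Derivation ℚ ℂ ℂ), D s = 1 ∧ ∀ c ∈ C, D c = 0 :=
  FieldsAux.exists_der_cx C hC

theorem not_isNilpotent_tmul_sub {F L : Type} [Field F] [Field L] [Algebra F L] [CharZero F]
    (y : L) (hy : y ∉ (algebraMap F L).range) :
    ¬ IsNilpotent (y ⊗ₜ[F] (1 : L) - (1 : L) ⊗ₜ[F] y) :=
  FieldsAux.not_nil y hy

/-- Gordan's alternative over `ℚ`. -/
theorem gordan {V : Type*} [AddCommGroup V] [Module ℚ V] {ι : Type} [Fintype ι] (p : ι → V)
    (W : Submodule ℚ V)
    (h : ∀ n : ι → ℚ, (∀ i, 0 ≤ n i) → ∑ i, n i • p i ∈ W → ∀ i, n i = 0) :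
    ∃ θ : V →ₗ[ℚ] ℚ, (∀ i, 0 < θ (p i)) ∧ ∀ w ∈ W, θ w = 0 := by
  obtain ⟨θ, h1, h2⟩ := FieldsAux.gordan_finset p Finset.univ W
    fun n hn hW i _ => h n hn hW i
  exact ⟨θ, fun i => h1 i (Finset.mem_univ i), h2⟩

end Kol68
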