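import Pool.Agent.Work.MP_c53807_ag.Defs

/-!
Definitions used in the statement for arbitrary connected algebraic groups.
-/

open scoped LinearAlgebra.Projectivization

namespace Kol68

variable {L M N : ℕ}

/-- Quasi-projective algebraic sets: differences of two Zariski-closed sets. -/
def PLocClosed (X : Set (ℙ ℂ (Fin N → ℂ))) : Prop :=
  ∃ A B : Set (ℙ ℂ (Fin N → ℂ)), PClosed A ∧ PClosed B ∧ X = A \ B

/-- Zariski-connected subsets of projective space. -/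
def PConnected (X : Set (ℙ ℂ (Fin N → ℂ))) : Prop :=
  ∀ B C : Set (ℙ ℂ (Fin N → ℂ)), PClosed B → PClosed C → X ⊆ B ∪ C → X ∩ B ∩ C = ∅ →
    X ⊆ B ∨ X ⊆ C

/-- `φ` is a morphism of varieties on `A × B`: near each point it is given by bihomogeneous forms
of one bidegree that do not all vanish. -/
def RegularOn₂ (A : Set (ℙ ℂ (Fin L → ℂ))) (B : Set (ℙ ℂ (Fin M → ℂ)))
    (φ : ℙ ℂ (Fin L → ℂ) → ℙ ℂ (Fin M → ℂ) → ℙ ℂ (Fin N → ℂ)) : Prop :=
  ∀ x ∈ A, ∀ y ∈ B, ∃ (d : ℕ × ℕ) (F : Fin N → MvPolynomial (Fin L ⊕ Fin M) ℂ),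
    (∀ i, (F i).IsWeightedHomogeneous (Sum.elim (fun _ => (1, 0)) (fun _ => (0, 1))) d) ∧
    (fun i => MvPolynomial.eval (Sum.elim x.rep y.rep) (F i)) ≠ 0 ∧
    ∀ x' ∈ A, ∀ y' ∈ B, ∀ h : (fun i => MvPolynomial.eval (Sum.elim x'.rep y'.rep) (F i)) ≠ 0,
      φ x' y' = Projectivization.mk ℂ (fun i => MvPolynomial.eval (Sum.elim x'.rep y'.rep) (F i)) h

/-- An algebraic group: a quasi-projective algebraic set with a group structure whose
multiplication and inversion are morphisms. -/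
def AlgGroup (G : Set (ℙ ℂ (Fin L → ℂ))) [Group G] : Prop :=
  PLocClosed G ∧
    (∃ μ : ℙ ℂ (Fin L → ℂ) → ℙ ℂ (Fin L → ℂ) → ℙ ℂ (Fin L → ℂ),
      RegularOn₂ G G μ ∧ ∀ g h : G, μ g h = (g * h : G)) ∧
    ∃ ν : ℙ ℂ (Fin L → ℂ) → ℙ ℂ (Fin L → ℂ), RegularOn G ν ∧ ∀ g : G, ν g = (g⁻¹ : G)

/-- An algebraic action on a quasi-projective algebraic set: the action map is a morphism. -/
def AlgAction (G : Set (ℙ ℂ (Fin L → ℂ))) [Group G] (X : Set (ℙ ℂ (Fin M → ℂ)))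
    [MulAction G X] : Prop :=
  PLocClosed X ∧
    ∃ α : ℙ ℂ (Fin L → ℂ) → ℙ ℂ (Fin M → ℂ) → ℙ ℂ (Fin M → ℂ),
      RegularOn₂ G X α ∧ ∀ (g : G) (x : X), α g x = (g • x : X)

/-- The Euclidean topology on projective space: the quotient topology from nonzero vectors. -/
@[reducible] noncomputable def euclid (σ : Type) : TopologicalSpace (ℙ ℂ (σ → ℂ)) :=
  TopologicalSpace.coinduced (fun v : {v : σ → ℂ // v ≠ 0} => Projectivization.mk ℂ v.1 v.2)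
    inferInstance

/-- `Z` lies in one fibre `g K · x₀` of `G/H → G/K` for some Zariski-closed subgroup `K` with
`H ≤ K < G`, where `H` is the stabiliser of `x₀`. -/
def DegenerateIn (G : Set (ℙ ℂ (Fin L → ℂ))) [Group G] {X : Set (ℙ ℂ (Fin M → ℂ))}
    [MulAction G X] (x₀ : X) (Z : Set (ℙ ℂ (Fin M → ℂ))) : Prop :=
  ∃ K : Subgroup G, (∃ A, PClosed A ∧ ∀ g : G, g ∈ K ↔ (g : ℙ ℂ (Fin L → ℂ)) ∈ A) ∧
    MulAction.stabilizer G x₀ ≤ K ∧ K ≠ ⊤ ∧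
    ∃ g : G, ∀ z ∈ Z, ∃ k ∈ K, z = ((g * k) • x₀ : X)

end Kol68
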