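import Pool.Agent.Work.MP_c53807_ag.Exp
import Pool.Agent.Work.MP_c53807_ag.Fields
import Pool.Agent.Work.MP_c53807_ag.Defs
import Pool.Agent.Work.MP_c53807_ag.GDefs
import Mathlib

-- merged part: Pool.Agent.Work.MP_c53807_ag.Stab
section
/-!
The stabiliser of a line and the infinitesimal form of epimorphicity.
-/

open scoped Matrix LinearAlgebra.Projectivization

namespace Kol68

variable {N : ℕ}

/-- The stabiliser in `G` of the line through `v`. -/
def stabG (G : Subgroup (GL (Fin N) ℂ)) (v : Fin N → ℂ) : Subgroup (GL (Fin N) ℂ) where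
  carrier := {g | g ∈ G ∧ ∃ c : ℂ, (g : Mt N) *ᵥ v = c • v}
  one_mem' := ⟨G.one_mem, 1, by simp⟩
  mul_mem' := by
    rintro a b ⟨ha, c, hc⟩ ⟨hb, e, he⟩
    refine ⟨G.mul_mem ha hb, e * c, ?_⟩
    rw [Units.val_mul, ← Matrix.mulVec_mulVec, he, Matrix.mulVec_smul, hc, smul_smul]
  inv_mem' := by
    rintro a ⟨ha, c, hc⟩
    refine ⟨G.inv_mem ha, ?_⟩
    have h := congrArg (fun y => ((a⁻¹ : GL (Fin N) ℂ) : Mt N) *ᵥ y) hc
    simp only [Matrix.mulVec_mulVec, Units.inv_mul, Matrix.one_mulVec, Matrix.mulVec_smul] at h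
    by_cases h0 : c = 0
    · rw [h0, zero_smul] at h
      exact ⟨0, by simp [h]⟩
    · exact ⟨c⁻¹, by rw [eq_inv_smul_iff₀ h0, ← h]⟩

theorem mem_stabG {G : Subgroup (GL (Fin N) ℂ)} {v : Fin N → ℂ} {g : GL (Fin N) ℂ} :
    g ∈ stabG G v ↔ g ∈ G ∧ ∃ c : ℂ, (g : Mt N) *ᵥ v = c • v := Iff.rfl

theorem stabG_le (G : Subgroup (GL (Fin N) ℂ)) (v : Fin N → ℂ) : stabG G v ≤ G :=
  fun _ h => h.1

theorem act_mk (g : GL (Fin N) ℂ) (w : Fin N → ℂ) (hw : w ≠ 0) :
    act g (Projectivization.mk ℂ w hw) =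
      Projectivization.mk ℂ ((g : Mt N) *ᵥ w) (mulVec_ne_zero g hw) := by
  obtain ⟨c, hc⟩ := Projectivization.exists_smul_eq_mk_rep ℂ w hw
  rw [act, Projectivization.mk_eq_mk_iff]
  exact ⟨c, by rw [← hc, Units.smul_def, Units.smul_def, Matrix.mulVec_smul]⟩

theorem act_mul (g h : GL (Fin N) ℂ) (x : ℙ ℂ (Fin N → ℂ)) : act (g * h) x = act g (act h x) := by
  rw [act.eq_1 h, act_mk, act]
  congr 1
  rw [Units.val_mul, Matrix.mulVec_mulVec]

theorem act_one (x : ℙ ℂ (Fin N → ℂ)) : act 1 x = x := by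
  simp [act]

theorem act_eq_iff (g : GL (Fin N) ℂ) (x : ℙ ℂ (Fin N → ℂ)) :
    act g x = x ↔ ∃ c : ℂ, (g : Mt N) *ᵥ x.rep = c • x.rep := by
  conv_lhs => rw [act]; rhs; rw [← x.mk_rep]
  rw [Projectivization.mk_eq_mk_iff']
  exact exists_congr fun _ => eq_comm

theorem act_eq_act_iff (g h : GL (Fin N) ℂ) (x : ℙ ℂ (Fin N → ℂ)) :
    act g x = act h x ↔ act (h⁻¹ * g) x = x := by
  constructor
  · intro e; rw [act_mul, e, ← act_mul, inv_mul_cancel, act_one]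
  · intro e
    conv_rhs => rw [← e, ← act_mul, mul_inv_cancel_left]

/-- The stabiliser of the line through `v` in the Lie algebra of `G`. -/
noncomputable def hS (G : Subgroup (GL (Fin N) ℂ)) (v : Fin N → ℂ) : Submodule ℂ (Mt N) :=
  lie G ⊓ Subalgebra.toSubmodule (presA (ℂ ∙ v))

theorem mem_presA_span {v : Fin N → ℂ} {x : Mt N} :
    x ∈ presA (ℂ ∙ v) ↔ ∃ c : ℂ, x *ᵥ v = c • v := by
  constructor
  · intro h
    obtain ⟨c, hc⟩ := Submodule.mem_span_singleton.1 (h v (Submodule.mem_span_singleton_self v))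
    exact ⟨c, hc.symm⟩
  · rintro ⟨c, hc⟩ b hb
    obtain ⟨e, rfl⟩ := Submodule.mem_span_singleton.1 hb
    rw [Matrix.mulVec_smul, hc]
    exact Submodule.smul_mem _ _ (Submodule.smul_mem _ _ (Submodule.mem_span_singleton_self v))

theorem mem_hS {G : Subgroup (GL (Fin N) ℂ)} {v : Fin N → ℂ} {x : Mt N} :
    x ∈ hS G v ↔ x ∈ lie G ∧ ∃ c : ℂ, x *ᵥ v = c • v :=
  and_congr Iff.rfl mem_presA_span

theorem lie_stabG_le (G : Subgroup (GL (Fin N) ℂ)) (v : Fin N → ℂ) :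
    lie (stabG G v) ≤ hS G v := fun _ hx =>
  ⟨lie_mono (stabG_le G v) hx, pres_dρ_of_lie (stdRep (Fin N)) (G := stabG G v)
    (fun _ hg => mem_presA_span.2 (mem_stabG.1 hg).2) hx⟩

/-- Every regular function on `G` that is infinitesimally invariant under the stabiliser is
constant. -/
def Epi (G : Subgroup (GL (Fin N) ℂ)) (v : Fin N → ℂ) : Prop :=
  ∀ φ : NatFun N, (∀ (L : Type) [Field L] [Algebra ℂ L], ∀ g ∈ pts G L, ∀ ξ ∈ bcM (hS G v) L,
      (φ.f (DualNumber L) (gmap (dualIn L) g * oneEps ξ)).snd = 0) →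
    ∀ g ∈ G, φ.f ℂ g = φ.f ℂ 1

end Kol68
end

-- merged part: Pool.Agent.Work.MP_c53807_ag.ConstA
section
open scoped Matrix LinearAlgebra.Projectivization TensorProduct

namespace Kol68

variable {N : ℕ}

namespace ConstAAux

open MvPolynomial

theorem homog {L : Type} [Field L] [Algebra ℂ L] (w : Fin N → L) (i₀ : Fin N) (hw : w i₀ ≠ 0)
    (r : MvPolynomial (Fin N) ℂ) : ∃ M₀ : ℕ, ∀ M, M₀ ≤ M → ∃ a : MvPolynomial (Fin N) ℂ,
      a.IsHomogeneous M ∧ aeval w a = w i₀ ^ M * aeval (fun i => w i / w i₀) r := by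
  induction r using MvPolynomial.induction_on with
  | C c =>
    refine ⟨0, fun M _ => ⟨C c * X i₀ ^ M, ?_, by simp [mul_comm]⟩⟩
    simpa using (isHomogeneous_C (Fin N) c).mul ((isHomogeneous_X ℂ i₀).pow M)
  | add p q hp hq =>
    obtain ⟨M₁, h₁⟩ := hp
    obtain ⟨M₂, h₂⟩ := hq
    refine ⟨max M₁ M₂, fun M hM => ?_⟩
    obtain ⟨a, ha, ha'⟩ := h₁ M ((le_max_left _ _).trans hM)
    obtain ⟨b, hb, hb'⟩ := h₂ M ((le_max_right _ _).trans hM)
    exact ⟨a + b, ha.add hb, by rw [map_add, map_add, ha', hb', mul_add]⟩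
  | mul_X p j hp =>
    obtain ⟨M₁, h₁⟩ := hp
    refine ⟨M₁ + 1, fun M hM => ?_⟩
    obtain ⟨M', rfl⟩ : ∃ M', M = M' + 1 := ⟨M - 1, by omega⟩
    obtain ⟨a, ha, ha'⟩ := h₁ M' (by omega)
    refine ⟨a * X j, ha.mul (isHomogeneous_X ℂ j), ?_⟩
    rw [map_mul, map_mul, ha', aeval_X, aeval_X, pow_succ]
    field_simp

/-- The coordinates of the generic vector `X v`. -/
noncomputable def genW (v : Fin N → ℂ) : Fin N → PM N := genM N *ᵥ cv (PM N) v

theorem ev_genW {R : Type} [CommRing R] [Algebra ℂ R] (g : Matrix (Fin N) (Fin N) R)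
    (v : Fin N → ℂ) (i : Fin N) : ev g (genW v i) = (g *ᵥ cv R v) i := by
  simp [genW, genM, ev, Matrix.mulVec, dotProduct]

theorem ev_aeval_genW {R : Type} [CommRing R] [Algebra ℂ R] (g : Matrix (Fin N) (Fin N) R)
    (v : Fin N → ℂ) (a : MvPolynomial (Fin N) ℂ) :
    ev g (aeval (genW v) a) = aeval (g *ᵥ cv R v) a := by
  rw [← AlgHom.comp_apply, comp_aeval]
  congr 2
  ext i
  exact ev_genW g v i

theorem sep (G : Subgroup (GL (Fin N) ℂ)) (hG : GLClosed (G : Set (GL (Fin N) ℂ)))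
    (v : Fin N → ℂ) (ψ : NatFun N)
    (hψ : ∀ g ∈ G, ∀ x ∈ stabG G v, ψ.f ℂ (g * x) = ψ.f ℂ g) (k : ℕ) (p : PM N)
    (hp : ∀ g : GL (Fin N) ℂ, ψ.f ℂ g * (g : Mt N).det ^ k = ev (g : Mt N) p)
    {Ω : Type} [CommRing Ω] [IsDomain Ω] [Algebra ℂ Ω] (x₁ x₂ : Matrix (Fin N) (Fin N) Ω)
    (h₁ : ∀ q ∈ vanI (G : Set (GL (Fin N) ℂ)), ev x₁ q = 0)
    (h₂ : ∀ q ∈ vanI (G : Set (GL (Fin N) ℂ)), ev x₂ q = 0)
    (d₁ : x₁.det ≠ 0) (d₂ : x₂.det ≠ 0) (i₀ : Fin N) (hi₀ : (x₂ *ᵥ cv Ω v) i₀ ≠ 0)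
    (hm : ∀ i, (x₁ *ᵥ cv Ω v) i * (x₂ *ᵥ cv Ω v) i₀ = (x₂ *ᵥ cv Ω v) i * (x₁ *ᵥ cv Ω v) i₀) :
    ev x₁ p * x₂.det ^ k = ev x₂ p * x₁.det ^ k := by
  by_contra hne
  let ω : (Fin N × Fin N) ⊕ (Fin N × Fin N) → Ω :=
    Sum.elim (fun ij => x₁ ij.1 ij.2) (fun ij => x₂ ij.1 ij.2)
  let l : PM N →ₐ[ℂ] MvPolynomial ((Fin N × Fin N) ⊕ (Fin N × Fin N)) ℂ := rename Sum.inl
  let r : PM N →ₐ[ℂ] MvPolynomial ((Fin N × Fin N) ⊕ (Fin N × Fin N)) ℂ := rename Sum.inr
  have hl : ∀ q, aeval ω (l q) = ev x₁ q := fun q => by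
    simp only [l, aeval_rename]; rfl
  have hr : ∀ q, aeval ω (r q) = ev x₂ q := fun q => by
    simp only [r, aeval_rename]; rfl
  let D : PM N := (genM N).det
  have hf : aeval ω (l D * r D * r (genW v i₀) * (l p * r D ^ k - r p * l D ^ k)) ≠ 0 := by
    simp only [map_mul, map_sub, map_pow, hl, hr, D, ev_det, ev_genW]
    exact mul_ne_zero (mul_ne_zero (mul_ne_zero d₁ d₂) hi₀) (sub_ne_zero.2 hne)
  obtain ⟨z, hz, hzq⟩ := exists_specialization ω hf
  let y₁ : Mt N := Matrix.of fun i j => z (Sum.inl (i, j))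
  let y₂ : Mt N := Matrix.of fun i j => z (Sum.inr (i, j))
  have hl' : ∀ q, aeval z (l q) = ev y₁ q := fun q => by
    simp only [l, aeval_rename]; rfl
  have hr' : ∀ q, aeval z (r q) = ev y₂ q := fun q => by
    simp only [r, aeval_rename]; rfl
  simp only [map_mul, map_sub, map_pow, hl', hr', D, ev_det, ev_genW, cv_self] at hz
  have e₁ : y₁.det ≠ 0 := fun h => hz (by simp [h])
  have e₂ : y₂.det ≠ 0 := fun h => hz (by simp [h])
  have e₃ : (y₂ *ᵥ v) i₀ ≠ 0 := fun h => hz (by simp [h])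
  have e₄ : ev y₁ p * y₂.det ^ k - ev y₂ p * y₁.det ^ k ≠ 0 := fun h => hz (by simp [h])
  let g₁ : GL (Fin N) ℂ := Matrix.GeneralLinearGroup.mkOfDetNeZero y₁ e₁
  let g₂ : GL (Fin N) ℂ := Matrix.GeneralLinearGroup.mkOfDetNeZero y₂ e₂
  have c₁ : (g₁ : Mt N) = y₁ := rfl
  have c₂ : (g₂ : Mt N) = y₂ := rfl
  have m₁ : g₁ ∈ G := Pt.mem hG fun q hq => by
    rw [c₁, ← hl']; exact hzq _ (by rw [hl]; exact h₁ q hq)
  have m₂ : g₂ ∈ G := Pt.mem hG fun q hq => by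
    rw [c₂, ← hr']; exact hzq _ (by rw [hr]; exact h₂ q hq)
  have hmin : ∀ i, (y₁ *ᵥ v) i * (y₂ *ᵥ v) i₀ = (y₂ *ᵥ v) i * (y₁ *ᵥ v) i₀ := fun i => by
    have := hzq (l (genW v i) * r (genW v i₀) - r (genW v i) * l (genW v i₀)) (by
      simp only [map_mul, map_sub, hl, hr, ev_genW]
      exact sub_eq_zero.2 (hm i))
    simp only [map_mul, map_sub, hl', hr', ev_genW, cv_self] at this
    exact sub_eq_zero.1 this
  have hprop : y₁ *ᵥ v = ((y₁ *ᵥ v) i₀ / (y₂ *ᵥ v) i₀) • (y₂ *ᵥ v) := by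
    ext i
    rw [Pi.smul_apply, smul_eq_mul]
    field_simp
    rw [hmin i, mul_comm]
  have hst : g₂⁻¹ * g₁ ∈ stabG G v := by
    refine ⟨G.mul_mem (G.inv_mem m₂) m₁, (y₁ *ᵥ v) i₀ / (y₂ *ᵥ v) i₀, ?_⟩
    rw [Units.val_mul, ← Matrix.mulVec_mulVec, c₁]
    conv_lhs => rw [hprop]
    rw [Matrix.mulVec_smul, ← c₂, Matrix.mulVec_mulVec, Units.inv_mul, Matrix.one_mulVec]
  have heq := hψ g₂ m₂ _ hst
  rw [mul_inv_cancel_left] at heq
  apply e₄
  rw [← c₁, ← c₂, ← hp g₁, ← hp g₂, heq]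
  ring

theorem mem_of_sep {L : Type} [Field L] [Algebra ℂ L] (F : IntermediateField ℂ L) (y : L)
    (h : ∀ (Ω : Type) [CommRing Ω] [IsDomain Ω] [Algebra ℂ Ω] (s₁ s₂ : L →ₐ[ℂ] Ω),
      (∀ a ∈ F, s₁ a = s₂ a) → s₁ y = s₂ y) : y ∈ F := by
  by_contra hy
  have : CharZero F := algebraRat.charZero _
  have hy' : y ∉ (algebraMap F L).range := by
    rintro ⟨a, rfl⟩
    exact hy a.2
  have hn := not_isNilpotent_tmul_sub y hy'
  rw [nilpotent_iff_mem_prime] at hn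
  push Not at hn
  obtain ⟨q, hq, hyq⟩ := hn
  let s₁ : L →ₐ[ℂ] (L ⊗[F] L) ⧸ q :=
    (Ideal.Quotient.mkₐ ℂ q).comp (Algebra.TensorProduct.includeLeft (R := F) (S := ℂ))
  let s₂ : L →ₐ[ℂ] (L ⊗[F] L) ⧸ q :=
    (Ideal.Quotient.mkₐ ℂ q).comp
      ((Algebra.TensorProduct.includeRight (R := F) (A := L) (B := L)).restrictScalars ℂ)
  have key := h _ s₁ s₂ fun a ha => by
    change Ideal.Quotient.mk q (a ⊗ₜ[F] (1 : L)) = Ideal.Quotient.mk q ((1 : L) ⊗ₜ[F] a)
    congr 1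
    have e : a = (⟨a, ha⟩ : F) • (1 : L) := by
      rw [Algebra.smul_def, mul_one]; rfl
    conv_lhs => rw [e]
    rw [TensorProduct.smul_tmul, ← e]
  exact hyq (Ideal.Quotient.eq.1 key)

theorem exists_generic (I : Ideal (PM N)) (hI : I.IsPrime) :
    ∃ (L : Type) (_ : Field L) (_ : Algebra ℂ L) (x : Matrix (Fin N) (Fin N) L),
      ∀ q, ev x q = 0 ↔ q ∈ I := by
  let A := PM N ⧸ I
  let L := FractionRing A
  let π : PM N →ₐ[ℂ] L := (IsScalarTower.toAlgHom ℂ A L).comp (Ideal.Quotient.mkₐ ℂ I)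
  refine ⟨L, inferInstance, inferInstance, (genM N).map π, fun q => ?_⟩
  rw [← map_ev, ev_genM]
  change algebraMap A L (Ideal.Quotient.mk I q) = 0 ↔ _
  rw [map_eq_zero_iff _ (IsFractionRing.injective A L), Ideal.Quotient.eq_zero_iff_mem]

end ConstAAux

open ConstAAux in
/-- An invariant regular function is a rational function of the point `[g v]`. -/
theorem rational_of_invariant (G : Subgroup (GL (Fin N) ℂ))
    (hG : GLClosed (G : Set (GL (Fin N) ℂ))) (hirr : (vanI (G : Set (GL (Fin N) ℂ))).IsPrime)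
    (v : Fin N → ℂ) (hv : v ≠ 0) (ψ : NatFun N)
    (hψ : ∀ g ∈ G, ∀ x ∈ stabG G v, ψ.f ℂ (g * x) = ψ.f ℂ g) :
    ∃ (e : ℕ) (a b : MvPolynomial (Fin N) ℂ), a.IsHomogeneous e ∧ b.IsHomogeneous e ∧
      (∃ g ∈ G, MvPolynomial.eval ((g : Mt N) *ᵥ v) b ≠ 0) ∧
      ∀ g ∈ G, ψ.f ℂ g * MvPolynomial.eval ((g : Mt N) *ᵥ v) b =
        MvPolynomial.eval ((g : Mt N) *ᵥ v) a := by
  obtain ⟨L, _, _, x, hx⟩ := exists_generic _ hirr
  obtain ⟨k, p, hp⟩ := ψ.univ
  have hd : x.det ≠ 0 := by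
    intro h
    rw [← ev_det, hx] at h
    have := h 1 G.one_mem
    rw [ev_det] at this
    simp at this
  obtain ⟨w, hw⟩ : ∃ w : Fin N → L, w = x *ᵥ cv L v := ⟨_, rfl⟩
  have hw0 : w ≠ 0 := by
    intro h
    have h1 : cv L v = 0 := Matrix.eq_zero_of_mulVec_eq_zero hd (hw ▸ h)
    apply hv
    ext i
    exact (map_eq_zero_iff _ (algebraMap ℂ L).injective).1 (congrFun h1 i)
  obtain ⟨i₀, hi₀⟩ : ∃ i₀, w i₀ ≠ 0 := Function.ne_iff.1 hw0
  have hyF : ev x p / x.det ^ k ∈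
      IntermediateField.adjoin ℂ (Set.range fun i => w i / w i₀) := by
    refine mem_of_sep _ _ fun Ω _ _ _ s₁ s₂ hs => ?_
    have hmap : ∀ (s : L →ₐ[ℂ] Ω) (i : Fin N), (x.map s *ᵥ cv Ω v) i = s (w i) := fun s i => by
      rw [hw, ← ev_genW, ← ev_genW, map_ev]
    have hdet : ∀ s : L →ₐ[ℂ] Ω, (x.map s).det = s x.det := fun s => by
      rw [AlgHom.map_det]; rfl
    have hinj : ∀ (s : L →ₐ[ℂ] Ω) (a : L), a ≠ 0 → s a ≠ 0 := fun s a ha =>
      (map_ne_zero_iff s s.toRingHom.injective).2 ha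
    have hdiv : ∀ (s : L →ₐ[ℂ] Ω) (a b : L), b ≠ 0 → s (a / b) * s b = s a := fun s a b hb => by
      rw [← map_mul, div_mul_cancel₀ _ hb]
    have key := sep G hG v ψ hψ k p (hp ℂ) (x.map s₁) (x.map s₂)
      (fun q hq => by rw [← map_ev, (hx q).2 hq, map_zero])
      (fun q hq => by rw [← map_ev, (hx q).2 hq, map_zero])
      (by rw [hdet]; exact hinj _ _ hd) (by rw [hdet]; exact hinj _ _ hd) i₀
      (by rw [hmap]; exact hinj _ _ hi₀) (fun i => by
        rw [hmap, hmap, hmap, hmap, ← hdiv s₁ (w i) (w i₀) hi₀, ← hdiv s₂ (w i) (w i₀) hi₀,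
          hs _ (IntermediateField.subset_adjoin ℂ _ ⟨i, rfl⟩)]
        ring)
    rw [← map_ev, ← map_ev, hdet, hdet, ← hdiv s₁ (ev x p) _ (pow_ne_zero k hd),
      ← hdiv s₂ (ev x p) _ (pow_ne_zero k hd), map_pow, map_pow] at key
    have hne : s₁ x.det ^ k * s₂ x.det ^ k ≠ 0 :=
      mul_ne_zero (pow_ne_zero k (hinj _ _ hd)) (pow_ne_zero k (hinj _ _ hd))
    apply mul_right_cancel₀ hne
    linear_combination key
  obtain ⟨r, s, hs0, hrs⟩ : ∃ r s : MvPolynomial (Fin N) ℂ,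
      MvPolynomial.aeval (fun i => w i / w i₀) s ≠ 0 ∧
      ev x p / x.det ^ k * MvPolynomial.aeval (fun i => w i / w i₀) s =
        MvPolynomial.aeval (fun i => w i / w i₀) r := by
    obtain ⟨r, s, h⟩ := (IntermediateField.mem_adjoin_range_iff ℂ _ _).1 hyF
    by_cases hs : MvPolynomial.aeval (fun i => w i / w i₀) s = 0
    · exact ⟨0, 1, by simp, by rw [h, hs]; simp⟩
    · exact ⟨r, s, hs, by rw [h, div_mul_cancel₀ _ hs]⟩
  obtain ⟨M₁, h₁⟩ := homog w i₀ hi₀ r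
  obtain ⟨M₂, h₂⟩ := homog w i₀ hi₀ s
  obtain ⟨a, ha, ha'⟩ := h₁ (max M₁ M₂) (le_max_left _ _)
  obtain ⟨b, hb, hb'⟩ := h₂ (max M₁ M₂) (le_max_right _ _)
  have hev : ∀ (g : GL (Fin N) ℂ) (c : MvPolynomial (Fin N) ℂ),
      ev (g : Mt N) (MvPolynomial.aeval (genW v) c) =
        MvPolynomial.eval ((g : Mt N) *ᵥ v) c := fun g c => by
    rw [ev_aeval_genW, cv_self, MvPolynomial.aeval_eq_eval]
  refine ⟨max M₁ M₂, a, b, ha, hb, ?_, fun g hg => ?_⟩
  · by_contra hno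
    push Not at hno
    have h1 : MvPolynomial.aeval (genW v) b ∈ vanI (G : Set (GL (Fin N) ℂ)) :=
      fun g hg => by rw [hev]; exact hno g hg
    rw [← hx, ev_aeval_genW, ← hw, hb'] at h1
    exact mul_ne_zero (pow_ne_zero _ hi₀) hs0 h1
  · have h1 : p * MvPolynomial.aeval (genW v) b -
        (genM N).det ^ k * MvPolynomial.aeval (genW v) a ∈ vanI (G : Set (GL (Fin N) ℂ)) := by
      rw [← hx, map_sub, map_mul, map_mul, map_pow, ev_det, ev_aeval_genW, ev_aeval_genW, ← hw,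
        ha', hb', ← hrs]
      field_simp
      ring
    have h2 := h1 g hg
    rw [map_sub, map_mul, map_mul, map_pow, ev_det, hev, hev, ← hp ℂ g] at h2
    have hg0 : (g : Mt N).det ^ k ≠ 0 :=
      pow_ne_zero k ((Matrix.isUnit_iff_isUnit_det _).1 g.isUnit).ne_zero
    apply mul_left_cancel₀ hg0
    linear_combination h2

end Kol68
end

-- merged part: Pool.Agent.Work.MP_c53807_ag.ConstB1
section
/-!
Regular functions on a projective subvariety are constant.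
-/

open scoped Matrix LinearAlgebra.Projectivization

namespace Kol68

open MvPolynomial

variable {N : ℕ}

namespace ConstBAux

theorem eval_smul {σ : Type*} {A : MvPolynomial σ ℂ} {d : ℕ} (hA : A.IsHomogeneous d) (c : ℂ)
    (w : σ → ℂ) : eval (c • w) A = c ^ d * eval w A := by
  simp only [eval_eq, Finset.mul_sum]
  refine Finset.sum_congr rfl fun m hm => ?_
  have := hA (mem_support_iff.1 hm)
  simp only [Pi.smul_apply, smul_eq_mul, mul_pow, Finset.prod_mul_distrib,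
    Finset.prod_pow_eq_pow_sum]
  rw [← this, Finsupp.weight_apply]
  simp [Finsupp.sum]; ring

theorem eval_component {σ : Type*} (r : MvPolynomial σ ℂ) (k : ℕ) (w : σ → ℂ) (t : ℂ)
    (h : ∀ c : ℂ, c ≠ 0 → eval (c • w) r = c ^ k * t) :
    eval w (homogeneousComponent k r) = t := by
  have h1 : (∑ j ∈ Finset.range (r.totalDegree + 1),
      Polynomial.monomial j (eval w (homogeneousComponent j r))) - Polynomial.monomial k t = 0 := by
    refine Polynomial.eq_zero_of_infinite_isRoot _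
      ((Set.finite_singleton (0 : ℂ)).infinite_compl.mono fun c hc => ?_)
    have h2 := h c hc
    rw [← sum_homogeneousComponent r, map_sum] at h2
    simp only [eval_smul (homogeneousComponent_isHomogeneous _ _)] at h2
    simp only [Set.mem_ofPred_eq, Polynomial.IsRoot, Polynomial.eval_sub, Polynomial.eval_finsetSum,
      Polynomial.eval_monomial]
    rw [sub_eq_zero, mul_comm t, ← h2]
    exact Finset.sum_congr rfl fun _ _ => mul_comm _ _
  have h3 := congrArg (fun p => p.coeff k) h1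
  simp only [Polynomial.coeff_sub, Polynomial.finsetSum_coeff, Polynomial.coeff_monomial,
    Finset.sum_ite_eq', if_true, Polynomial.coeff_zero, sub_eq_zero] at h3
  rw [← h3]
  split_ifs with h4
  · rfl
  · rw [homogeneousComponent_eq_zero _ _ (by simpa [Nat.succ_le_iff] using h4), map_zero]

theorem exists_rep (w : Fin N → ℂ) (hw : w ≠ 0) :
    ∃ c : ℂ, c ≠ 0 ∧ (Projectivization.mk ℂ w hw).rep = c • w := by
  obtain ⟨c, hc⟩ := Projectivization.exists_smul_eq_mk_rep ℂ w hw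
  exact ⟨c, c.ne_zero, by rw [← hc, Units.smul_def]⟩

theorem const_of_local {Z : Set (ℙ ℂ (Fin N → ℂ))} (hZ : Subvariety Z)
    (Ψ : ℙ ℂ (Fin N → ℂ) → ℂ)
    (h : ∀ x ∈ Z, ∃ (e : ℕ) (a b : MvPolynomial (Fin N) ℂ), a.IsHomogeneous e ∧
      b.IsHomogeneous e ∧ eval x.rep b ≠ 0 ∧ ∀ y ∈ Z, Ψ y * eval y.rep b = eval y.rep a) :
    ∃ c : ℂ, ∀ x ∈ Z, Ψ x = c := by
  obtain ⟨⟨S, hS, hZS⟩, ⟨x0, hx0⟩, hirr⟩ := hZ
  let J : Ideal (MvPolynomial (Fin N) ℂ) :=
    { carrier := {b | ∃ a : MvPolynomial (Fin N) ℂ, ∀ y ∈ Z, ∀ c : ℂ,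
        Ψ y * eval (c • y.rep) b = eval (c • y.rep) a}
      add_mem' := by
        rintro b b' ⟨a, ha⟩ ⟨a', ha'⟩
        exact ⟨a + a', fun y hy c => by rw [map_add, map_add, mul_add, ha y hy, ha' y hy]⟩
      zero_mem' := ⟨0, by simp⟩
      smul_mem' := by
        rintro r b ⟨a, ha⟩
        exact ⟨r * a, fun y hy c => by
          rw [smul_eq_mul, map_mul, map_mul, ← ha y hy, mul_left_comm]⟩ }
  have hJ : idealOfVars (Fin N) ℂ ≤ J.radical := by
    rw [← vanishingIdeal_zeroLocus_eq_radical (K := ℂ), Ideal.span_le]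
    rintro _ ⟨i, rfl⟩
    refine mem_vanishingIdeal_iff.2 fun w hw => ?_
    by_contra hwi
    have hw0 : w ≠ 0 := fun e => hwi (by simp [e])
    obtain ⟨c, hc, hrep⟩ := exists_rep w hw0
    have hmem : Projectivization.mk ℂ w hw0 ∈ Z := by
      rw [hZS]
      intro p hp
      obtain ⟨m, hm⟩ := hS p hp
      have : eval w p = 0 := hw p ⟨0, fun y hy c => by
        rw [hZS] at hy
        rw [eval_smul hm, hy p hp]; simp⟩
      rw [hrep, eval_smul hm, this, mul_zero]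
    obtain ⟨e, a, b, ha, hb, h1, h2⟩ := h _ hmem
    have : eval w b = 0 := hw b ⟨a, fun y hy c => by
      rw [eval_smul ha, eval_smul hb, ← h2 y hy, mul_left_comm]⟩
    exact h1 (by rw [hrep, eval_smul hb, this, mul_zero])
  obtain ⟨k, hk⟩ := Ideal.exists_pow_le_of_le_radical_of_fg hJ (idealOfVars_fg _ _)
  have hmul : ∀ b : MvPolynomial (Fin N) ℂ, b.IsHomogeneous k → ∃ a : MvPolynomial (Fin N) ℂ,
      a.IsHomogeneous k ∧ ∀ y ∈ Z, Ψ y * eval y.rep b = eval y.rep a := by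
    intro b hb
    obtain ⟨a, ha⟩ := hk ((mem_pow_idealOfVars_iff' k b).2 fun d hd => hb.coeff_eq_zero hd.ne)
    refine ⟨_, homogeneousComponent_isHomogeneous k a, fun y hy =>
      (eval_component a k _ _ fun c _ => ?_).symm⟩
    rw [← ha y hy, eval_smul hb, mul_left_comm]
  let E : MvPolynomial (Fin N) ℂ →ₗ[ℂ] (Z → ℂ) :=
    LinearMap.pi fun y => (aeval (y : ℙ ℂ (Fin N → ℂ)).rep).toLinearMap
  have hE : ∀ p (y : Z), E p y = eval (y : ℙ ℂ (Fin N → ℂ)).rep p := fun _ _ => rfl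
  let V : Submodule ℂ (Z → ℂ) := (homogeneousSubmodule (Fin N) ℂ k).map E
  have : Module.Finite ℂ V := Module.Finite.iff_fg.2 ((homogeneousSubmodule_fg _ _ k).map E)
  have hX : ∀ x : ℙ ℂ (Fin N → ℂ), ∃ i, x.rep i ≠ 0 := fun x => Function.ne_iff.1 x.rep_nonzero
  have : Nontrivial V := by
    obtain ⟨i, hi⟩ := hX x0
    refine ⟨⟨E (X i ^ k), _, isHomogeneous_X_pow i k, rfl⟩, 0, fun e => ?_⟩
    have := congrFun (congrArg Subtype.val e) ⟨x0, hx0⟩
    simp only [hE, map_pow, eval_X, ZeroMemClass.coe_zero, Pi.zero_apply] at this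
    exact pow_ne_zero k hi this
  let T : Module.End ℂ V := (LinearMap.mulLeft ℂ (fun y : Z => Ψ y)).restrict (by
    rintro _ ⟨b, hb, rfl⟩
    obtain ⟨a, ha, h1⟩ := hmul b hb
    exact ⟨a, ha, funext fun y => (h1 y y.2).symm⟩)
  obtain ⟨c, hc⟩ := Module.End.exists_eigenvalue T
  obtain ⟨⟨_, s, hs, rfl⟩, hv⟩ := hc.exists_hasEigenvector
  have hev : ∀ y ∈ Z, Ψ y * eval y.rep s = c * eval y.rep s := fun y hy =>
    congrFun (congrArg Subtype.val hv.apply_eq_smul) ⟨y, hy⟩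
  choose a ha ha' using fun i => hmul _ (isHomogeneous_X_pow i k)
  have hB : ∀ y ∈ Z, ∀ i, eval y.rep (a i - C c * X i ^ k) = (Ψ y - c) * y.rep i ^ k := by
    intro y hy i
    rw [map_sub, ← ha' i y hy]
    simp only [map_mul, map_pow, eval_X, eval_C]
    ring
  rcases hirr {x | ∀ p ∈ ({s} : Set _), eval x.rep p = 0}
    {x | ∀ p ∈ Set.range fun i => a i - C c * X i ^ k, eval x.rep p = 0}
    ⟨_, by rintro _ rfl; exact ⟨k, hs⟩, rfl⟩
    ⟨_, by rintro _ ⟨i, rfl⟩; exact ⟨k, (ha i).sub ((isHomogeneous_X_pow i k).C_mul c)⟩, rfl⟩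
    (fun y hy => by
      by_cases h1 : eval y.rep s = 0
      · exact Or.inl (by rintro _ rfl; exact h1)
      · refine Or.inr ?_
        rintro _ ⟨i, rfl⟩
        rw [hB y hy, mul_right_cancel₀ h1 (hev y hy), sub_self, zero_mul]) with h1 | h1
  · exact absurd (Subtype.ext (funext fun y => h1 y.2 s rfl)) hv.2
  · refine ⟨c, fun y hy => ?_⟩
    obtain ⟨i, hi⟩ := hX y
    have := h1 hy _ ⟨i, rfl⟩
    rw [hB y hy] at this
    exact sub_eq_zero.1 ((mul_eq_zero.1 this).resolve_right (pow_ne_zero k hi))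

end ConstBAux

end Kol68
end

-- merged part: Pool.Agent.Work.MP_c53807_ag.ConstB
section
/-!
Invariant regular functions are constant when the orbit contains a nondegenerate projective
subvariety.
-/

open scoped Matrix LinearAlgebra.Projectivization

namespace Kol68

variable {N : ℕ}

namespace ConstBAux

open MvPolynomial

/-- Left translate of a regular function. -/
noncomputable def lt (ψ : NatFun N) (y : GL (Fin N) ℂ) : NatFun N where
  f R _ _ g := ψ.f R (gmap (algebraMap ℂ R) y * g)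
  nat R S _ _ _ _ φ g := by
    rw [ψ.nat, gmap_mul, gmap_gmap, φ.comp_algebraMap]

theorem lt_f (ψ : NatFun N) (y g : GL (Fin N) ℂ) : (lt ψ y).f ℂ g = ψ.f ℂ (y * g) := rfl

theorem lt_inv {G : Subgroup (GL (Fin N) ℂ)} {v : Fin N → ℂ} {ψ : NatFun N}
    (hψ : ∀ g ∈ G, ∀ x ∈ stabG G v, ψ.f ℂ (g * x) = ψ.f ℂ g) {y : GL (Fin N) ℂ} (hy : y ∈ G) :
    ∀ g ∈ G, ∀ x ∈ stabG G v, (lt ψ y).f ℂ (g * x) = (lt ψ y).f ℂ g := fun g hg x hx => by
  rw [lt_f, lt_f, ← mul_assoc, hψ _ (G.mul_mem hy hg) x hx]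

theorem det_ne (g : GL (Fin N) ℂ) : (g : Mt N).det ≠ 0 := Matrix.GeneralLinearGroup.det_ne_zero g

theorem fg_translates (ψ : NatFun N) (G : Subgroup (GL (Fin N) ℂ)) :
    (Submodule.span ℂ {φ : GL (Fin N) ℂ → ℂ | ∃ y ∈ G, φ = fun g => ψ.f ℂ (y * g)}).FG := by
  obtain ⟨k, p, hp⟩ := ψ.univ
  obtain ⟨e, he⟩ := exists_mem_tenP p
  obtain ⟨l, hl⟩ := exists_dot_of_mem_tenP he
  refine Submodule.FG.of_le (T := Submodule.span ℂ (Set.range fun (J : TI (Fin N) e)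
    (g : GL (Fin N) ℂ) => tau e (g : Mt N) J / (g : Mt N).det ^ k))
    (Submodule.fg_span (Set.finite_range _)) (Submodule.span_le.2 ?_)
  rintro _ ⟨y, -, rfl⟩
  refine (Submodule.mem_span_range_iff_exists_fun ℂ).2
    ⟨fun J => (l ᵥ* (tenRep (Fin N) e).ρ ℂ y) J / (y : Mt N).det ^ k, funext fun g => ?_⟩
  have h1 := hp ℂ (y * g)
  rw [hl, Units.val_mul, ← tenRep_mulVec, Matrix.dotProduct_mulVec, cv_self, Matrix.det_mul,
    mul_pow] at h1
  have h2 := pow_ne_zero k (det_ne y)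
  have h3 := pow_ne_zero k (det_ne g)
  rw [eq_div_of_mul_eq (mul_ne_zero h2 h3) h1]
  simp only [Finset.sum_apply, Pi.smul_apply, smul_eq_mul, dotProduct, Finset.sum_div,
    div_mul_div_comm]

theorem ev_lin (v : Fin N → ℂ) (g : Mt N) (b : MvPolynomial (Fin N) ℂ) :
    ev g (aeval (genM N *ᵥ cv (PM N) v) b) = eval (g *ᵥ v) b := by
  rw [← AlgHom.comp_apply, comp_aeval]
  have : (fun i => ev g ((genM N *ᵥ cv (PM N) v) i)) = g *ᵥ v := by
    have := comp_mulVec_cv (ev g).toLinearMap (genM N) v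
    exact this.trans (congrArg (· *ᵥ v) (genM_map_ev g))
  rw [this]; rfl

theorem exists_translate (y : Mt N) {b : MvPolynomial (Fin N) ℂ} {e : ℕ} (hb : b.IsHomogeneous e) :
    ∃ b' : MvPolynomial (Fin N) ℂ, b'.IsHomogeneous e ∧ ∀ w, eval w b' = eval (y *ᵥ w) b := by
  refine ⟨aeval (fun i => ∑ j, C (y i j) * X j) b, ?_, fun w => ?_⟩
  · simpa using hb.aeval (n := 1) (fun i => ∑ j, C (y i j) * X j)
      (fun i => IsHomogeneous.sum _ _ _ fun j _ => isHomogeneous_C_mul_X _ _)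
  · change aeval w _ = aeval _ b
    rw [← AlgHom.comp_apply, comp_aeval]
    congr 2
    ext i
    simp [Matrix.mulVec, dotProduct]

/-- Functions on `G` having the denominator `b`. -/
def Den (G : Subgroup (GL (Fin N) ℂ)) (v : Fin N → ℂ) (e : ℕ) (b : MvPolynomial (Fin N) ℂ) :
    Submodule ℂ (GL (Fin N) ℂ → ℂ) where
  carrier := {φ | ∃ a : MvPolynomial (Fin N) ℂ, a.IsHomogeneous e ∧
    ∀ g ∈ G, φ g * eval ((g : Mt N) *ᵥ v) b = eval ((g : Mt N) *ᵥ v) a}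
  add_mem' := by
    rintro φ φ' ⟨a, ha, h⟩ ⟨a', ha', h'⟩
    exact ⟨a + a', ha.add ha', fun g hg => by rw [Pi.add_apply, add_mul, h g hg, h' g hg, map_add]⟩
  zero_mem' := ⟨0, isHomogeneous_zero _ _ _, by simp⟩
  smul_mem' := by
    rintro c φ ⟨a, ha, h⟩
    exact ⟨C c * a, ha.C_mul c, fun g hg => by
      rw [Pi.smul_apply, smul_eq_mul, mul_assoc, h g hg, map_mul, eval_C]⟩

theorem common_den {G : Subgroup (GL (Fin N) ℂ)}
    (hirr : (vanI (G : Set (GL (Fin N) ℂ))).IsPrime) (v : Fin N → ℂ)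
    (s : Finset (GL (Fin N) ℂ → ℂ))
    (hs : ∀ φ ∈ s, ∃ (e : ℕ) (b : MvPolynomial (Fin N) ℂ), b.IsHomogeneous e ∧
      (∃ g ∈ G, eval ((g : Mt N) *ᵥ v) b ≠ 0) ∧ φ ∈ Den G v e b) :
    ∃ (e : ℕ) (b : MvPolynomial (Fin N) ℂ), b.IsHomogeneous e ∧
      (∃ g ∈ G, eval ((g : Mt N) *ᵥ v) b ≠ 0) ∧ ∀ φ ∈ s, φ ∈ Den G v e b := by
  classical
  induction s using Finset.induction_on with
  | empty => exact ⟨0, 1, isHomogeneous_one _ _, ⟨1, G.one_mem, by simp⟩, by simp⟩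
  | insert φ s _ ih =>
    obtain ⟨e, b, hb, ⟨g, hg, h1⟩, h2⟩ := ih fun φ' h => hs φ' (Finset.mem_insert_of_mem h)
    obtain ⟨e', b', hb', ⟨g', hg', h1'⟩, a', ha', h2'⟩ := hs φ (Finset.mem_insert_self _ _)
    refine ⟨e + e', b * b', hb.mul hb', ?_, fun φ' hφ' => ?_⟩
    · by_contra h
      push Not at h
      have h3 : aeval (genM N *ᵥ cv (PM N) v) b * aeval (genM N *ᵥ cv (PM N) v) b' ∈
          vanI (G : Set (GL (Fin N) ℂ)) := fun x hx => by
        rw [← map_mul, ev_lin]; exact h x hx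
      rcases hirr.mem_or_mem h3 with h4 | h4
      · exact h1 (by rw [← ev_lin]; exact h4 g hg)
      · exact h1' (by rw [← ev_lin]; exact h4 g' hg')
    · rcases Finset.mem_insert.1 hφ' with rfl | h
      · exact ⟨b * a', hb.mul ha', fun x hx => by
          rw [map_mul, map_mul, ← h2' x hx, mul_left_comm]⟩
      · obtain ⟨a, ha, h3⟩ := h2 φ' h
        exact ⟨a * b', ha.mul hb', fun x hx => by rw [map_mul, map_mul, ← h3 x hx, mul_assoc]⟩

end ConstBAux

open ConstBAux MvPolynomial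

/-- An invariant regular function is constant over a projective subvariety of the orbit. -/
theorem const_on_subvariety (G : Subgroup (GL (Fin N) ℂ))
    (hG : GLClosed (G : Set (GL (Fin N) ℂ))) (hirr : (vanI (G : Set (GL (Fin N) ℂ))).IsPrime)
    (x₀ : ℙ ℂ (Fin N → ℂ)) (Z : Set (ℙ ℂ (Fin N → ℂ))) (hZ : Subvariety Z)
    (hZX : Z ⊆ orbit G x₀) (ψ : NatFun N)
    (hψ : ∀ g ∈ G, ∀ x ∈ stabG G x₀.rep, ψ.f ℂ (g * x) = ψ.f ℂ g) :
    ∃ c : ℂ, ∀ g ∈ G, act g x₀ ∈ Z → ψ.f ℂ g = c := by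
  classical
  obtain ⟨s, hs, hs'⟩ := (Submodule.fg_span_iff_fg_span_finset_subset _).1 (fg_translates ψ G)
  obtain ⟨e, b, hb, ⟨g0, hg0, hb0⟩, hden⟩ := common_den hirr x₀.rep s fun φ hφ => by
    obtain ⟨y, hy, rfl⟩ := hs hφ
    obtain ⟨e, a, b, ha, hb, h1, h2⟩ := rational_of_invariant G hG hirr x₀.rep x₀.rep_nonzero
      (lt ψ y) (lt_inv hψ hy)
    exact ⟨e, b, hb, h1, a, ha, h2⟩
  have hall : ∀ y ∈ G, (fun g => ψ.f ℂ (y * g)) ∈ Den G x₀.rep e b := fun y hy =>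
    (Submodule.span_le.2 fun φ hφ => hden φ hφ :
      Submodule.span ℂ (s : Set (GL (Fin N) ℂ → ℂ)) ≤ Den G x₀.rep e b)
      (hs' ▸ Submodule.subset_span ⟨y, hy, rfl⟩)
  let Ψ : ℙ ℂ (Fin N → ℂ) → ℂ := fun x =>
    if h : x ∈ orbit G x₀ then ψ.f ℂ h.choose else 0
  have hΨ : ∀ g ∈ G, Ψ (act g x₀) = ψ.f ℂ g := by
    intro g hg
    have h : act g x₀ ∈ orbit G x₀ := ⟨g, hg, rfl⟩
    obtain ⟨h1, h2⟩ := h.choose_spec
    have h3 := hψ _ h1 (h.choose⁻¹ * g) ⟨G.mul_mem (G.inv_mem h1) hg,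
      (act_eq_iff _ _).1 ((act_eq_act_iff _ _ _).1 h2)⟩
    rw [mul_inv_cancel_left] at h3
    rw [h3]
    exact dif_pos h
  have hrep : ∀ g : GL (Fin N) ℂ, ∃ c : ℂ, c ≠ 0 ∧ (act g x₀).rep = c • ((g : Mt N) *ᵥ x₀.rep) :=
    fun g => exists_rep _ _
  obtain ⟨c, hc⟩ := const_of_local hZ Ψ fun x hx => by
    obtain ⟨g, hg, rfl⟩ := hZX hx
    have hy : g0 * g⁻¹ ∈ G := G.mul_mem hg0 (G.inv_mem hg)
    obtain ⟨a, ha, h1⟩ := hall _ (G.inv_mem hy)
    obtain ⟨a', ha', h2⟩ := exists_translate ((g0 * g⁻¹ : GL (Fin N) ℂ) : Mt N) ha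
    obtain ⟨b', hb', h3⟩ := exists_translate ((g0 * g⁻¹ : GL (Fin N) ℂ) : Mt N) hb
    refine ⟨e, a', b', ha', hb', ?_, fun z hz => ?_⟩
    · obtain ⟨c, hc, h4⟩ := hrep g
      rw [h4, eval_smul hb', h3, Matrix.mulVec_mulVec, ← Units.val_mul, inv_mul_cancel_right]
      exact mul_ne_zero (pow_ne_zero _ hc) hb0
    · obtain ⟨g', hg', rfl⟩ := hZX hz
      obtain ⟨c, -, h4⟩ := hrep g'
      have h5 := h1 _ (G.mul_mem hy hg')
      simp only [inv_mul_cancel_left] at h5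
      rw [hΨ g' hg', h4, eval_smul hb', eval_smul ha', h2, h3, Matrix.mulVec_mulVec,
        ← Units.val_mul, ← h5, mul_left_comm]
  exact ⟨c, fun g hg h => (hΨ g hg).symm.trans (hc _ h)⟩

theorem const_of_invariant (G : Subgroup (GL (Fin N) ℂ))
    (hG : GLClosed (G : Set (GL (Fin N) ℂ))) (hirr : (vanI (G : Set (GL (Fin N) ℂ))).IsPrime)
    (x₀ : ℙ ℂ (Fin N → ℂ)) (Z : Set (ℙ ℂ (Fin N → ℂ))) (hZ : Subvariety Z)
    (hZX : Z ⊆ orbit G x₀) (hnd : ¬ Degenerate G x₀ Z) (ψ : NatFun N)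
    (hψ : ∀ g ∈ G, ∀ x ∈ stabG G x₀.rep, ψ.f ℂ (g * x) = ψ.f ℂ g) :
    ∀ g ∈ G, ψ.f ℂ g = ψ.f ℂ 1 := by
  let K : Subgroup (GL (Fin N) ℂ) :=
    { carrier := {k | k ∈ G ∧ ∀ y ∈ G, ψ.f ℂ (y * k) = ψ.f ℂ y}
      one_mem' := ⟨G.one_mem, by simp⟩
      mul_mem' := fun {a b} ha hb => ⟨G.mul_mem ha.1 hb.1, fun y hy => by
        rw [← mul_assoc, hb.2 _ (G.mul_mem hy ha.1), ha.2 y hy]⟩
      inv_mem' := fun {a} ha => ⟨G.inv_mem ha.1, fun y hy => by
        rw [← ha.2 _ (G.mul_mem hy (G.inv_mem ha.1)), inv_mul_cancel_right]⟩ }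
  have hKc : GLClosed (K : Set (GL (Fin N) ℂ)) := by
    obtain ⟨k, p, hp⟩ := ψ.univ
    obtain ⟨S, hS⟩ := hG
    have key : ∀ y g : GL (Fin N) ℂ, evalAt g (ev (cm (PM N) (y : Mt N) * genM N) p -
        C (ψ.f ℂ y) * (cm (PM N) (y : Mt N) * genM N).det ^ k) = 0 ↔
        ψ.f ℂ (y * g) = ψ.f ℂ y := by
      intro y g
      have h1 : (cm (PM N) (y : Mt N) * genM N).map (ev (g : Mt N)) =
          ((y * g : GL (Fin N) ℂ) : Mt N) := by
        have := map_cm_mul (ev (g : Mt N)).toLinearMap (y : Mt N) (genM N)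
        exact this.trans (congrArg ((y : Mt N) * ·) (genM_map_ev (g : Mt N)))
      rw [evalAt_eq, map_sub, map_ev, map_mul, map_pow, AlgHom.map_det, AlgHom.mapMatrix_apply, h1,
        ← hp, ev, aeval_C, Algebra.algebraMap_self, RingHom.id_apply, sub_eq_zero,
        mul_left_inj' (pow_ne_zero k (det_ne _))]
    refine ⟨S ∪ {q | ∃ y ∈ G, q = ev (cm (PM N) (y : Mt N) * genM N) p -
      C (ψ.f ℂ y) * (cm (PM N) (y : Mt N) * genM N).det ^ k}, Set.ext fun g => ?_⟩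
    have hg : g ∈ G ↔ ∀ q ∈ S, evalAt g q = 0 := Set.ext_iff.1 hS g
    constructor
    · rintro ⟨h1, h2⟩ q (hq | ⟨y, hy, rfl⟩)
      · exact hg.1 h1 q hq
      · exact (key y g).2 (h2 y hy)
    · intro h
      exact ⟨hg.2 fun q hq => h q (Or.inl hq),
        fun y hy => (key y g).1 (h _ (Or.inr ⟨y, hy, rfl⟩))⟩
  have hKG : K ≤ G := fun _ h => h.1
  have hGK : G ≤ K := by
    by_contra h
    obtain ⟨z0, hz0⟩ := hZ.2.1
    obtain ⟨g0, hg0, rfl⟩ := hZX hz0
    refine hnd ⟨K, hKc, fun g hg h1 => ⟨hg, fun y hy => hψ y hy g ⟨hg, (act_eq_iff _ _).1 h1⟩⟩,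
      lt_of_le_not_ge hKG h, g0, hg0, fun z hz => ?_⟩
    obtain ⟨g, hg, rfl⟩ := hZX hz
    refine ⟨g0⁻¹ * g, ⟨G.mul_mem (G.inv_mem hg0) hg, fun y hy => ?_⟩, by
      rw [mul_inv_cancel_left]⟩
    obtain ⟨c, hc⟩ := const_on_subvariety G hG hirr x₀ Z hZ hZX (lt ψ (y * g0⁻¹))
      (lt_inv hψ (G.mul_mem hy (G.inv_mem hg0)))
    have h1 := (hc g hg hz).trans (hc g0 hg0 hz0).symm
    rwa [lt_f, lt_f, inv_mul_cancel_right, mul_assoc] at h1
  intro g hg
  simpa using (hGK hg).2 1 G.one_mem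

end Kol68
end

-- merged part: Pool.Agent.Work.MP_c53807_ag.GBase
section
/-!
Working framework: regular maps on sets of complex points, quasi-projective types, algebraic groups.
-/

open scoped LinearAlgebra.Projectivization
open MvPolynomial Topology

namespace Kol68

variable {ρ τ κ σ : Type}

/-- Projective space on an index type. -/
abbrev PS (σ : Type) : Type := ℙ ℂ (σ → ℂ)

/-- The value of a tuple of polynomials. -/
noncomputable def evv (y : ρ → ℂ) (F : τ → MvPolynomial ρ ℂ) : τ → ℂ := fun i => eval y (F i)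

@[simp] theorem evv_apply (y : ρ → ℂ) (F : τ → MvPolynomial ρ ℂ) (i : τ) :
    evv y F i = eval y (F i) := rfl

/-- Locally closed subsets of affine space. -/
def ALC (A : Set (ρ → ℂ)) : Prop :=
  ∃ S T : Set (MvPolynomial ρ ℂ), ∀ y, y ∈ A ↔ (∀ p ∈ S, eval y p = 0) ∧ ∃ q ∈ T, eval y q ≠ 0

/-- Irreducible subsets of affine space. -/
def AIrr (A : Set (ρ → ℂ)) : Prop :=
  A.Nonempty ∧ ∀ p q : MvPolynomial ρ ℂ, (∀ y ∈ A, eval y p * eval y q = 0) →
    (∀ y ∈ A, eval y p = 0) ∨ ∀ y ∈ A, eval y q = 0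

/-- The product of two subsets of affine spaces. -/
def aprod (A : Set (ρ → ℂ)) (B : Set (τ → ℂ)) : Set (ρ ⊕ τ → ℂ) :=
  {z | z ∘ Sum.inl ∈ A ∧ z ∘ Sum.inr ∈ B}

/-- The standard torus. -/
def torus (κ : Type) : Set (κ → ℂ) := {w | ∀ i, w i ≠ 0}

/-- The part of `A` where `h` does not vanish. -/
def bas (A : Set (ρ → ℂ)) (h : MvPolynomial ρ ℂ) : Set (ρ → ℂ) := {y | y ∈ A ∧ eval y h ≠ 0}

/-- Regular functions on a subset of affine space. -/
def FReg (A : Set (ρ → ℂ)) (f : (ρ → ℂ) → ℂ) : Prop :=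
  ∀ y₀ ∈ A, ∃ a b : MvPolynomial ρ ℂ, eval y₀ b ≠ 0 ∧ ∀ y ∈ A, eval y b * f y = eval y a

/-- Regular maps from a subset of affine space to affine space. -/
def AMor (A : Set (ρ → ℂ)) (Θ : (ρ → ℂ) → κ → ℂ) : Prop := ∀ i, FReg A fun y => Θ y i

/-- Regular maps from a subset of affine space to projective space. -/
def PReg (A : Set (ρ → ℂ)) (φ : (ρ → ℂ) → PS τ) : Prop :=
  ∀ y₀ ∈ A, ∃ F : τ → MvPolynomial ρ ℂ, evv y₀ F ≠ 0 ∧ ∀ y ∈ A, ∃ c : ℂ, evv y F = c • (φ y).rep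

theorem oneP_ne (c : ℂ) : (fun b : Bool => cond b c 1) ≠ 0 := fun h => by
  simpa using congrFun h false

/-- The point `[1 : c]` of the projective line. -/
noncomputable def oneP (c : ℂ) : PS Bool := Projectivization.mk ℂ _ (oneP_ne c)

/-- The prime ideal of the line over a point. -/
noncomputable def linePt (x : PS σ) : PrimeSpectrum (MvPolynomial σ ℂ) :=
  ⟨RingHom.ker (aeval fun i => Polynomial.C (x.rep i) * Polynomial.X :
    MvPolynomial σ ℂ →ₐ[ℂ] Polynomial ℂ), RingHom.ker_isPrime _⟩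

/-- The Zariski topology on projective space. -/
noncomputable scoped instance zar : TopologicalSpace (PS σ) :=
  TopologicalSpace.induced linePt inferInstance

/-- A type with its Zariski topology, embedded as a locally closed subset of projective space. -/
class QP (V : Type) [TopologicalSpace V] where
  σ : Type
  fin : Finite σ
  ι : V → PS σ
  emb : IsEmbedding ι
  lc : IsLocallyClosed (Set.range ι)

attribute [instance] QP.fin

noncomputable instance QP.ps [h : Finite σ] : QP (PS σ) where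
  σ := σ
  fin := h
  ι := id
  emb := IsEmbedding.id
  lc := by rw [Set.range_id]; exact isClosed_univ.isLocallyClosed

section

variable {V W U : Type} [TopologicalSpace V] [QP V] [TopologicalSpace W] [QP W]
  [TopologicalSpace U] [QP U]

theorem QP.lc_image {Y : Set V} (h : IsLocallyClosed Y) : IsLocallyClosed (QP.ι '' Y) :=
  h.image QP.emb.isInducing QP.lc

/-- Locally closed subsets. -/
noncomputable instance QP.sub (Y : Set V) [h : Fact (IsLocallyClosed Y)] : QP Y where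
  σ := QP.σ V
  fin := QP.fin
  ι := fun y => QP.ι y.1
  emb := QP.emb.comp IsEmbedding.subtypeVal
  lc := by
    have : (Set.range fun y : Y => QP.ι y.1) = QP.ι '' Y := by
      ext x; simp
    rw [this]; exact QP.lc_image h.out

/-- The chosen vector over a point. -/
noncomputable def rp (v : V) : QP.σ V → ℂ := (QP.ι v).rep

/-- The punctured cone over a subset. -/
def cone (Y : Set V) : Set (QP.σ V → ℂ) := {y | ∃ v ∈ Y, ∃ c : ℂ, c ≠ 0 ∧ y = c • rp v}

/-- The point under a vector of the cone. -/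
noncomputable def taut (V : Type) [TopologicalSpace V] [QP V] [Nonempty V] (y : QP.σ V → ℂ) : V :=
  Classical.epsilon fun v => ∃ c : ℂ, c ≠ 0 ∧ y = c • rp v

/-- Regular maps from a subset of affine space. -/
def Reg (A : Set (ρ → ℂ)) (φ : (ρ → ℂ) → V) : Prop := PReg A fun y => QP.ι (φ y)

/-- Morphisms on a subset. -/
def MorOn (Y : Set V) (f : V → W) : Prop :=
  ∀ (ρ : Type) (A : Set (ρ → ℂ)) (φ : (ρ → ℂ) → V), Reg A φ → Set.MapsTo φ A Y →
    Reg A fun y => f (φ y)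

/-- Morphisms. -/
def Mor (f : V → W) : Prop :=
  ∀ (ρ : Type) (A : Set (ρ → ℂ)) (φ : (ρ → ℂ) → V), Reg A φ → Reg A fun y => f (φ y)

/-- Morphisms in two variables. -/
def Mor₂ (f : V → W → U) : Prop :=
  ∀ (ρ : Type) (A : Set (ρ → ℂ)) (φ : (ρ → ℂ) → V) (ψ : (ρ → ℂ) → W), Reg A φ → Reg A ψ →
    Reg A fun y => f (φ y) (ψ y)

/-- Regular functions on a subset. -/
def FMorOn (Y : Set V) (f : V → ℂ) : Prop :=
  ∀ (ρ : Type) (A : Set (ρ → ℂ)) (φ : (ρ → ℂ) → V), Reg A φ → Set.MapsTo φ A Y →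
    FReg A fun y => f (φ y)

/-- Regular functions. -/
def FMor (f : V → ℂ) : Prop :=
  ∀ (ρ : Type) (A : Set (ρ → ℂ)) (φ : (ρ → ℂ) → V), Reg A φ → FReg A fun y => f (φ y)

/-- Families of morphisms on a subset, with parameters in a subset of affine space. -/
def FamOn (B : Set (τ → ℂ)) (Y : Set V) (a : (τ → ℂ) → V → W) : Prop :=
  ∀ (ρ : Type) (A : Set (ρ → ℂ)) (β : (ρ → ℂ) → τ → ℂ) (ψ : (ρ → ℂ) → V), AMor A β →
    Set.MapsTo β A B → Reg A ψ → Set.MapsTo ψ A Y → Reg A fun y => a (β y) (ψ y)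

/-- Families of morphisms. -/
def Fam (B : Set (τ → ℂ)) (a : (τ → ℂ) → V → W) : Prop :=
  ∀ (ρ : Type) (A : Set (ρ → ℂ)) (β : (ρ → ℂ) → τ → ℂ) (ψ : (ρ → ℂ) → V), AMor A β →
    Set.MapsTo β A B → Reg A ψ → Reg A fun y => a (β y) (ψ y)

/-- Images of irreducible locally closed sets under regular maps. -/
def Par (Y : Set V) : Prop :=
  ∃ (ρ : Type) (_ : Finite ρ) (A : Set (ρ → ℂ)) (φ : (ρ → ℂ) → V),
    ALC A ∧ AIrr A ∧ Reg A φ ∧ Y = φ '' A

end

/-- Algebraic groups. -/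
class AG (G : Type) [Group G] [TopologicalSpace G] extends QP G where
  mul_mor : Mor₂ fun g h : G => g * h
  inv_mor : Mor fun g : G => g⁻¹

/-- Closed subgroups. -/
noncomputable instance AG.sub {G : Type} [Group G] [TopologicalSpace G] [AG G] (H : Subgroup G)
    [h : Fact (IsClosed (H : Set G))] : AG H where
  σ := QP.σ G
  fin := QP.fin
  ι := fun y => QP.ι y.1
  emb := QP.emb.comp IsEmbedding.subtypeVal
  lc := by
    have : (Set.range fun y : H => QP.ι y.1) = QP.ι '' (H : Set G) := by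
      ext x; simp
    rw [this]; exact QP.lc_image h.out.isLocallyClosed
  mul_mor := fun ρ A φ ψ hφ hψ => AG.mul_mor ρ A (fun y => (φ y).1) (fun y => (ψ y).1) hφ hψ
  inv_mor := fun ρ A φ hφ => AG.inv_mor ρ A (fun y => (φ y).1) hφ

/-- Subsets of a group whose action on `X` is given by a regular family over a torus. -/
def TAct {Γ : Type} [Group Γ] (X : Type) [TopologicalSpace X] [QP X] [MulAction Γ X]
    (Y : Set Γ) : Prop :=
  ∃ (κ : Type) (_ : Finite κ) (γ : (κ → ℂ) → Γ), (∀ w ∈ torus κ, γ w ∈ Y) ∧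
    (∀ x : X, γ 1 • x = x) ∧ (∀ g ∈ Y, ∃ w ∈ torus κ, ∀ x : X, γ w • x = g • x) ∧
    Fam (torus κ) fun w (x : X) => γ w • x

/-- The complex points with the Euclidean topology. -/
def Euc (V : Type) : Type := V

noncomputable instance {V : Type} [TopologicalSpace V] [QP V] : TopologicalSpace (Euc V) :=
  TopologicalSpace.induced (QP.ι : V → PS (QP.σ V)) (euclid (QP.σ V))

instance {G : Type} [Group G] : Group (Euc G) := inferInstanceAs (Group G)

instance {G X : Type} [Group G] [MulAction G X] : MulAction (Euc G) (Euc X) :=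
  inferInstanceAs (MulAction G X)

end Kol68
end

-- merged part: Pool.Agent.Work.MP_c53807_ag.GReg
section
/-!
Calculus of regular functions and maps on subsets of affine space.
-/

open scoped LinearAlgebra.Projectivization
open MvPolynomial

namespace Kol68

variable {ρ τ κ κ' σ : Type} {A B : Set (ρ → ℂ)} {f g : (ρ → ℂ) → ℂ}

theorem bas_subset (A : Set (ρ → ℂ)) (p : MvPolynomial ρ ℂ) : bas A p ⊆ A := fun _ h => h.1

theorem eval_smul_hom {p : MvPolynomial σ ℂ} {d : ℕ} (hp : p.IsHomogeneous d) (c : ℂ)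
    (w : σ → ℂ) : eval (c • w) p = c ^ d * eval w p := by
  simp only [eval_eq, Finset.mul_sum]
  refine Finset.sum_congr rfl fun m hm => ?_
  have := hp (mem_support_iff.1 hm)
  simp only [Pi.smul_apply, smul_eq_mul, mul_pow, Finset.prod_mul_distrib,
    Finset.prod_pow_eq_pow_sum]
  rw [← this, Finsupp.weight_apply]
  simp [Finsupp.sum]; ring

theorem eval_homogeneousComponent (p : MvPolynomial σ ℂ) (k : ℕ) (w : σ → ℂ) (t : ℂ)
    (h : ∀ c : ℂ, c ≠ 0 → eval (c • w) p = c ^ k * t) :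
    eval w (homogeneousComponent k p) = t := by
  have h1 : (∑ j ∈ Finset.range (p.totalDegree + 1),
      Polynomial.monomial j (eval w (homogeneousComponent j p))) - Polynomial.monomial k t = 0 := by
    refine Polynomial.eq_zero_of_infinite_isRoot _
      ((Set.finite_singleton (0 : ℂ)).infinite_compl.mono fun c hc => ?_)
    have h2 := h c hc
    rw [← sum_homogeneousComponent p, map_sum] at h2
    simp only [eval_smul_hom (homogeneousComponent_isHomogeneous _ _)] at h2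
    simp only [Set.mem_ofPred_eq, Polynomial.IsRoot, Polynomial.eval_sub, Polynomial.eval_finsetSum,
      Polynomial.eval_monomial]
    rw [sub_eq_zero, mul_comm t, ← h2]
    exact Finset.sum_congr rfl fun _ _ => mul_comm _ _
  have h3 := congrArg (fun p => p.coeff k) h1
  simp only [Polynomial.coeff_sub, Polynomial.finsetSum_coeff, Polynomial.coeff_monomial,
    Finset.sum_ite_eq', if_true, Polynomial.coeff_zero, sub_eq_zero] at h3
  rw [← h3]
  split_ifs with h4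
  · rfl
  · rw [homogeneousComponent_eq_zero _ _ (by simpa [Nat.succ_le_iff] using h4), map_zero]

theorem mk_rep_eq (w : σ → ℂ) (hw : w ≠ 0) :
    ∃ c : ℂ, c ≠ 0 ∧ (Projectivization.mk ℂ w hw).rep = c • w := by
  obtain ⟨c, hc⟩ := Projectivization.exists_smul_eq_mk_rep ℂ w hw
  exact ⟨c, c.ne_zero, by rw [← hc, Units.smul_def]⟩

theorem eq_mk_of_smul {x : PS σ} {w : σ → ℂ} (hw : w ≠ 0) {c : ℂ} (h : w = c • x.rep) :
    x = Projectivization.mk ℂ w hw := by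
  rw [← Projectivization.mk_rep x]
  exact ((Projectivization.mk_eq_mk_iff' ℂ _ _ hw x.rep_nonzero).2 ⟨c, h.symm⟩).symm

theorem eq_of_rep_smul {x y : PS σ} {c : ℂ} (h : x.rep = c • y.rep) : x = y := by
  rw [eq_mk_of_smul x.rep_nonzero h, Projectivization.mk_rep]

theorem AIrr.greg_mul_ne (h : AIrr A) {p q : MvPolynomial ρ ℂ} (hp : ∃ y ∈ A, eval y p ≠ 0)
    (hq : ∃ y ∈ A, eval y q ≠ 0) : ∃ y ∈ A, eval y p ≠ 0 ∧ eval y q ≠ 0 := by
  by_contra hh
  push Not at hh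
  obtain ⟨y, hy, a⟩ := hp
  obtain ⟨z, hz, b⟩ := hq
  rcases h.2 p q (fun y hy => by
    by_cases e : eval y p = 0
    · rw [e, zero_mul]
    · rw [hh y hy e, mul_zero]) with e | e
  · exact a (e y hy)
  · exact b (e z hz)

theorem AIrr.greg_bas (h : AIrr A) {p : MvPolynomial ρ ℂ} (hp : ∃ y ∈ A, eval y p ≠ 0) :
    AIrr (bas A p) := by
  obtain ⟨y₀, hy₀, a⟩ := hp
  refine ⟨⟨y₀, hy₀, a⟩, fun q r hqr => ?_⟩
  rcases h.2 (q * p) r (fun y hy => by
    by_cases e : eval y p = 0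
    · rw [map_mul, e, mul_zero, zero_mul]
    · rw [map_mul, mul_right_comm, hqr y ⟨hy, e⟩, zero_mul]) with e | e
  · refine Or.inl fun y hy => ?_
    have := e y hy.1
    rw [map_mul] at this
    exact (mul_eq_zero.1 this).resolve_right hy.2
  · exact Or.inr fun y hy => e y hy.1

theorem greg_evv_add (y : ρ → ℂ) (F F' : τ → MvPolynomial ρ ℂ) :
    evv y (F + F') = evv y F + evv y F' := by
  ext i; simp

theorem greg_evv_zero (y : ρ → ℂ) : evv y (0 : τ → MvPolynomial ρ ℂ) = 0 := by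
  ext i; simp

theorem greg_evv_smul (y : ρ → ℂ) (p : MvPolynomial ρ ℂ) (F : τ → MvPolynomial ρ ℂ) :
    evv y (p • F) = eval y p • evv y F := by
  ext i; simp

theorem greg_slice₁ (p : MvPolynomial (ρ ⊕ τ) ℂ) (y : ρ → ℂ) (z : τ → ℂ) :
    eval y (aeval (Sum.elim X fun j => C (z j)) p) = eval (Sum.elim y z) p := by
  induction p using MvPolynomial.induction_on with
  | C c => simp
  | add p q hp hq => simp only [map_add, hp, hq]
  | mul_X p i hp => rw [map_mul, map_mul, map_mul, hp]; rcases i with i | i <;> simp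

theorem greg_slice₂ (p : MvPolynomial (ρ ⊕ τ) ℂ) (y : ρ → ℂ) (z : τ → ℂ) :
    eval z (aeval (Sum.elim (fun i => C (y i)) X) p) = eval (Sum.elim y z) p := by
  induction p using MvPolynomial.induction_on with
  | C c => simp
  | add p q hp hq => simp only [map_add, hp, hq]
  | mul_X p i hp => rw [map_mul, map_mul, map_mul, hp]; rcases i with i | i <;> simp

section FReg

theorem FReg.mono (h : FReg A f) (hB : B ⊆ A) : FReg B f := fun y₀ hy =>
  let ⟨a, b, h1, h2⟩ := h y₀ (hB hy)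
  ⟨a, b, h1, fun y hy => h2 y (hB hy)⟩

theorem FReg.congr (h : FReg A f) (e : ∀ y ∈ A, g y = f y) : FReg A g := fun y₀ hy =>
  let ⟨a, b, h1, h2⟩ := h y₀ hy
  ⟨a, b, h1, fun y hy => by rw [e y hy, h2 y hy]⟩

theorem freg_eval (A : Set (ρ → ℂ)) (p : MvPolynomial ρ ℂ) : FReg A fun y => eval y p :=
  fun _ _ => ⟨p, 1, by simp, fun _ _ => by simp⟩

theorem freg_const (A : Set (ρ → ℂ)) (c : ℂ) : FReg A fun _ => c := by
  simpa using freg_eval A (C c)

theorem freg_coord (A : Set (ρ → ℂ)) (i : ρ) : FReg A fun y => y i := by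
  simpa using freg_eval A (X i)

theorem FReg.add (hf : FReg A f) (hg : FReg A g) : FReg A fun y => f y + g y := by
  intro y₀ hy
  obtain ⟨a, b, h1, h2⟩ := hf y₀ hy
  obtain ⟨a', b', h1', h2'⟩ := hg y₀ hy
  refine ⟨a * b' + a' * b, b * b', by simp [h1, h1'], fun y hy => ?_⟩
  simp only [map_add, map_mul, ← h2 y hy, ← h2' y hy]
  ring

theorem FReg.neg (hf : FReg A f) : FReg A fun y => -f y := by
  intro y₀ hy
  obtain ⟨a, b, h1, h2⟩ := hf y₀ hy
  refine ⟨-a, b, h1, fun y hy => ?_⟩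
  simp only [map_neg, ← h2 y hy]
  ring

theorem FReg.sub (hf : FReg A f) (hg : FReg A g) : FReg A fun y => f y - g y := by
  simpa only [sub_eq_add_neg] using hf.add hg.neg

theorem FReg.mul (hf : FReg A f) (hg : FReg A g) : FReg A fun y => f y * g y := by
  intro y₀ hy
  obtain ⟨a, b, h1, h2⟩ := hf y₀ hy
  obtain ⟨a', b', h1', h2'⟩ := hg y₀ hy
  refine ⟨a * a', b * b', by simp [h1, h1'], fun y hy => ?_⟩
  simp only [map_mul, ← h2 y hy, ← h2' y hy]
  ring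

theorem FReg.pow (hf : FReg A f) (n : ℕ) : FReg A fun y => f y ^ n := by
  induction n with
  | zero => simpa using freg_const A 1
  | succ n ih => simpa only [pow_succ] using ih.mul hf

theorem FReg.inv (hf : FReg A f) (h0 : ∀ y ∈ A, f y ≠ 0) : FReg A fun y => (f y)⁻¹ := by
  intro y₀ hy
  obtain ⟨a, b, h1, h2⟩ := hf y₀ hy
  refine ⟨b, a, by rw [← h2 y₀ hy]; exact mul_ne_zero h1 (h0 y₀ hy), fun y hy => ?_⟩
  rw [← h2 y hy, mul_assoc, mul_inv_cancel₀ (h0 y hy), mul_one]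

theorem FReg.div (hf : FReg A f) (hg : FReg A g) (h0 : ∀ y ∈ A, g y ≠ 0) :
    FReg A fun y => f y / g y := by
  simpa only [div_eq_mul_inv] using hf.mul (hg.inv h0)

theorem FReg.zpow (hf : FReg A f) (h0 : ∀ y ∈ A, f y ≠ 0) (n : ℤ) : FReg A fun y => f y ^ n := by
  cases n with
  | ofNat n => simpa using hf.pow n
  | negSucc n =>
    simpa only [zpow_negSucc] using (hf.pow (n + 1)).inv fun y hy => pow_ne_zero _ (h0 y hy)

theorem FReg.sum {ι : Type*} (s : Finset ι) {F : ι → (ρ → ℂ) → ℂ} (h : ∀ i ∈ s, FReg A (F i)) :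
    FReg A fun y => ∑ i ∈ s, F i y := by
  classical
  induction s using Finset.induction_on with
  | empty => simpa using freg_const A 0
  | insert a s ha ih =>
    simpa only [Finset.sum_insert ha] using (h a (Finset.mem_insert_self a s)).add
      (ih fun i hi => h i (Finset.mem_insert_of_mem hi))

theorem FReg.prod {ι : Type*} (s : Finset ι) {F : ι → (ρ → ℂ) → ℂ} (h : ∀ i ∈ s, FReg A (F i)) :
    FReg A fun y => ∏ i ∈ s, F i y := by
  classical
  induction s using Finset.induction_on with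
  | empty => simpa using freg_const A 1
  | insert a s ha ih =>
    simpa only [Finset.prod_insert ha] using (h a (Finset.mem_insert_self a s)).mul
      (ih fun i hi => h i (Finset.mem_insert_of_mem hi))

theorem FReg.det {n : Type} [Fintype n] [DecidableEq n] {M : (ρ → ℂ) → Matrix n n ℂ}
    (h : ∀ i j, FReg A fun y => M y i j) : FReg A fun y => (M y).det := by
  simp only [Matrix.det_apply']
  exact FReg.sum _ fun s _ => (freg_const A _).mul (FReg.prod _ fun i _ => h _ _)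

theorem FReg.of_local (h : ∀ y₀ ∈ A, ∃ p, eval y₀ p ≠ 0 ∧ FReg (bas A p) f) : FReg A f := by
  intro y₀ hy
  obtain ⟨p, hp, hf⟩ := h y₀ hy
  obtain ⟨a, b, h1, h2⟩ := hf y₀ ⟨hy, hp⟩
  refine ⟨p * a, p * b, by simp [hp, h1], fun y hy => ?_⟩
  by_cases e : eval y p = 0
  · simp [e]
  · rw [map_mul, map_mul, mul_assoc, h2 y ⟨hy, e⟩]

theorem FReg.exists_ne (hf : FReg A f) {y₀ : ρ → ℂ} (hy : y₀ ∈ A) (h : f y₀ ≠ 0) :
    ∃ p, eval y₀ p ≠ 0 ∧ ∀ y ∈ bas A p, f y ≠ 0 := by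
  obtain ⟨a, b, h1, h2⟩ := hf y₀ hy
  refine ⟨a, by rw [← h2 y₀ hy]; exact mul_ne_zero h1 h, fun y hy e => hy.2 ?_⟩
  rw [← h2 y hy.1, e, mul_zero]

theorem FReg.eq_zero_of_bas (hI : AIrr A) (hf : FReg A f) {p : MvPolynomial ρ ℂ}
    (hp : ∃ y ∈ A, eval y p ≠ 0) (h : ∀ y ∈ bas A p, f y = 0) : ∀ y ∈ A, f y = 0 := by
  intro y₀ hy
  obtain ⟨a, b, h1, h2⟩ := hf y₀ hy
  obtain ⟨z, hz, hz'⟩ := hp
  have := (hI.2 a p fun y hy => by
    by_cases e : eval y p = 0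
    · rw [e, mul_zero]
    · rw [← h2 y hy, h y ⟨hy, e⟩, mul_zero, zero_mul]).resolve_right fun e => hz' (e z hz)
  exact (mul_eq_zero.1 ((h2 y₀ hy).trans (this y₀ hy))).resolve_left h1

end FReg

section AMor

variable {Θ : (ρ → ℂ) → κ → ℂ}

theorem AMor.mono (h : AMor A Θ) (hB : B ⊆ A) : AMor B Θ := fun i => (h i).mono hB

theorem AMor.eval (h : AMor A Θ) (p : MvPolynomial κ ℂ) : FReg A fun y => eval (Θ y) p := by
  induction p using MvPolynomial.induction_on with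
  | C c => simpa using freg_const A c
  | add p q hp hq => simpa only [map_add] using hp.add hq
  | mul_X p i hp => simpa only [map_mul, eval_X] using hp.mul (h i)

theorem FReg.comp {C : Set (κ → ℂ)} {u : (κ → ℂ) → ℂ} (hu : FReg C u) (h : AMor A Θ)
    (hm : Set.MapsTo Θ A C) : FReg A fun y => u (Θ y) := by
  refine FReg.of_local fun y₀ hy => ?_
  obtain ⟨a, b, h1, h2⟩ := hu _ (hm hy)
  obtain ⟨p, hp, hp'⟩ := (h.eval b).exists_ne hy h1
  have h' := h.mono (bas_subset A p)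
  refine ⟨p, hp, ((h'.eval a).div (h'.eval b) hp').congr fun y hy => ?_⟩
  rw [eq_div_iff (hp' y hy), mul_comm, h2 _ (hm hy.1)]

theorem AMor.comp {C : Set (κ → ℂ)} {Ξ : (κ → ℂ) → κ' → ℂ} (hu : AMor C Ξ) (h : AMor A Θ)
    (hm : Set.MapsTo Θ A C) : AMor A fun y => Ξ (Θ y) := fun i => (hu i).comp h hm

theorem amor_id (A : Set (ρ → ℂ)) : AMor A fun y => y := fun i => freg_coord A i

theorem amor_const (A : Set (ρ → ℂ)) (w : κ → ℂ) : AMor A fun _ => w := fun i => freg_const A (w i)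

theorem amor_evv (A : Set (ρ → ℂ)) (F : κ → MvPolynomial ρ ℂ) : AMor A fun y => evv y F :=
  fun i => freg_eval A (F i)

theorem AMor.precomp (h : AMor A Θ) (e : κ' → κ) : AMor A fun y => Θ y ∘ e := fun i => h (e i)

theorem amor_comp (A : Set (ρ → ℂ)) (e : κ → ρ) : AMor A fun y => y ∘ e := (amor_id A).precomp e

theorem AMor.elim {Ξ : (ρ → ℂ) → κ' → ℂ} (h : AMor A Θ) (h' : AMor A Ξ) :
    AMor A fun y => Sum.elim (Θ y) (Ξ y) := by
  rintro (i | i)
  exacts [h i, h' i]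

theorem AMor.smul (hf : FReg A f) (h : AMor A Θ) : AMor A fun y => f y • Θ y :=
  fun i => hf.mul (h i)

theorem AMor.exists_bas (h : AMor A Θ) {y₀ : ρ → ℂ} (hy : y₀ ∈ A) {q : MvPolynomial κ ℂ}
    (hq : MvPolynomial.eval (Θ y₀) q ≠ 0) :
    ∃ p, MvPolynomial.eval y₀ p ≠ 0 ∧ ∀ y ∈ bas A p, MvPolynomial.eval (Θ y) q ≠ 0 :=
  (h.eval q).exists_ne hy hq

/-- a common denominator -/
theorem AMor.greg_poly [Finite κ] (h : AMor A Θ) {y₀ : ρ → ℂ} (hy : y₀ ∈ A) :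
    ∃ (F : κ → MvPolynomial ρ ℂ) (D : MvPolynomial ρ ℂ), MvPolynomial.eval y₀ D ≠ 0 ∧
      ∀ y ∈ A, evv y F = MvPolynomial.eval y D • Θ y := by
  classical
  have := Fintype.ofFinite κ
  choose a b h1 h2 using fun i => h i y₀ hy
  refine ⟨fun i => a i * ∏ j ∈ Finset.univ.erase i, b j, ∏ j, b j, ?_, fun y hy => ?_⟩
  · rw [map_prod]
    exact Finset.prod_ne_zero_iff.2 fun i _ => h1 i
  · ext i
    rw [evv_apply, Pi.smul_apply, smul_eq_mul, map_mul, ← h2 i y hy,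
      ← Finset.mul_prod_erase _ _ (Finset.mem_univ i), map_mul]
    ring

end AMor

section PReg

variable {φ ψ : (ρ → ℂ) → PS τ}

theorem PReg.mono (h : PReg A φ) (hB : B ⊆ A) : PReg B φ := fun y₀ hy =>
  let ⟨F, h1, h2⟩ := h y₀ (hB hy)
  ⟨F, h1, fun y hy => h2 y (hB hy)⟩

theorem PReg.congr (h : PReg A φ) (e : ∀ y ∈ A, ψ y = φ y) : PReg A ψ := fun y₀ hy =>
  let ⟨F, h1, h2⟩ := h y₀ hy
  ⟨F, h1, fun y hy => by rw [e y hy]; exact h2 y hy⟩

theorem PReg.of_local (h : ∀ y₀ ∈ A, ∃ p, eval y₀ p ≠ 0 ∧ PReg (bas A p) φ) : PReg A φ := by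
  intro y₀ hy
  obtain ⟨p, hp, hf⟩ := h y₀ hy
  obtain ⟨F, h1, h2⟩ := hf y₀ ⟨hy, hp⟩
  have e : ∀ y, evv y (fun i => p * F i) = eval y p • evv y F := fun y => by
    ext i; simp
  refine ⟨fun i => p * F i, by rw [e]; exact smul_ne_zero hp h1, fun y hy => ?_⟩
  rw [e]
  by_cases e' : eval y p = 0
  · exact ⟨0, by rw [e', zero_smul, zero_smul]⟩
  · obtain ⟨c, hc⟩ := h2 y ⟨hy, e'⟩
    exact ⟨eval y p * c, by rw [hc, smul_smul]⟩

theorem preg_const (A : Set (ρ → ℂ)) (x : PS τ) : PReg A fun _ => x := by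
  have e : ∀ y : ρ → ℂ, evv y (fun i => C (x.rep i)) = x.rep := fun y => by
    ext i; simp
  exact fun y₀ _ => ⟨fun i => C (x.rep i), by rw [e]; exact x.rep_nonzero,
    fun y _ => ⟨1, by rw [e, one_smul]⟩⟩

theorem PReg.of_amor [Finite τ] (h : ∀ y₀ ∈ A, ∃ v : (ρ → ℂ) → τ → ℂ, AMor A v ∧ v y₀ ≠ 0 ∧
    ∀ y ∈ A, ∃ c : ℂ, v y = c • (φ y).rep) : PReg A φ := by
  intro y₀ hy
  obtain ⟨v, hv, h0, h1⟩ := h y₀ hy
  obtain ⟨F, D, hD, hF⟩ := hv.greg_poly hy
  refine ⟨F, by rw [hF y₀ hy]; exact smul_ne_zero hD h0, fun y hy => ?_⟩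
  obtain ⟨c, hc⟩ := h1 y hy
  exact ⟨eval y D * c, by rw [hF y hy, hc, smul_smul]⟩

theorem preg_mk [Finite τ] {v : (ρ → ℂ) → τ → ℂ} (hv : AMor A v) (h0 : ∀ y ∈ A, v y ≠ 0)
    (hφ : ∀ y (hy : y ∈ A), φ y = Projectivization.mk ℂ (v y) (h0 y hy)) : PReg A φ := by
  refine PReg.of_amor fun y₀ hy => ⟨v, hv, h0 y₀ hy, fun y hy => ?_⟩
  obtain ⟨c, hc, e⟩ := mk_rep_eq (v y) (h0 y hy)
  exact ⟨c⁻¹, by rw [hφ y hy, e, smul_smul, inv_mul_cancel₀ hc, one_smul]⟩

theorem PReg.comp [Finite τ] {C : Set (κ → ℂ)} {u : (κ → ℂ) → PS τ} {Θ : (ρ → ℂ) → κ → ℂ}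
    (hu : PReg C u) (h : AMor A Θ) (hm : Set.MapsTo Θ A C) : PReg A fun y => u (Θ y) := by
  refine PReg.of_amor fun y₀ hy => ?_
  obtain ⟨F, h1, h2⟩ := hu _ (hm hy)
  exact ⟨fun y => evv (Θ y) F, fun i => h.eval (F i), h1, fun y hy => h2 _ (hm hy)⟩

theorem PReg.lift (h : PReg A φ) {y₀ : ρ → ℂ} (hy : y₀ ∈ A) :
    ∃ (F : τ → MvPolynomial ρ ℂ) (p : MvPolynomial ρ ℂ), eval y₀ p ≠ 0 ∧
      ∀ y ∈ bas A p, ∃ c : ℂ, c ≠ 0 ∧ evv y F = c • (φ y).rep := by
  obtain ⟨F, h1, h2⟩ := h y₀ hy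
  obtain ⟨i, hi⟩ := Function.ne_iff.1 h1
  refine ⟨F, F i, hi, fun y hy => ?_⟩
  obtain ⟨c, hc⟩ := h2 y hy.1
  refine ⟨c, fun e => hy.2 ?_, hc⟩
  have := congrFun hc i
  simpa [e] using this

theorem PReg.ratio (h : PReg A φ) {e : ℕ} {a b : MvPolynomial τ ℂ} (ha : a.IsHomogeneous e)
    (hb : b.IsHomogeneous e) (h0 : ∀ y ∈ A, eval (φ y).rep b ≠ 0) :
    FReg A fun y => eval (φ y).rep a / eval (φ y).rep b := by
  refine FReg.of_local fun y₀ hy => ?_
  obtain ⟨F, p, hp, hF⟩ := h.lift hy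
  have h' := amor_evv (bas A p) F
  refine ⟨p, hp, ((h'.eval a).div (h'.eval b) fun y hy => ?_).congr fun y hy => ?_⟩
  · obtain ⟨c, hc, e⟩ := hF y hy
    rw [e, eval_smul_hom hb]
    exact mul_ne_zero (pow_ne_zero _ hc) (h0 y hy.1)
  · obtain ⟨c, hc, e⟩ := hF y hy
    rw [e, eval_smul_hom hb, eval_smul_hom ha, mul_div_mul_left _ _ (pow_ne_zero _ hc)]

theorem PReg.exists_ne (h : PReg A φ) (h' : PReg A ψ) {y₀ : ρ → ℂ} (hy : y₀ ∈ A)
    (hne : φ y₀ ≠ ψ y₀) : ∃ p, eval y₀ p ≠ 0 ∧ ∀ y ∈ bas A p, φ y ≠ ψ y := by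
  obtain ⟨F, h1, h2⟩ := h y₀ hy
  obtain ⟨F', h1', h2'⟩ := h' y₀ hy
  have key : ∀ y ∈ A, ∃ c c' : ℂ, evv y F = c • (φ y).rep ∧ evv y F' = c' • (ψ y).rep ∧
      ∀ i j, eval y (F i * F' j - F j * F' i) =
        c * c' * ((φ y).rep i * (ψ y).rep j - (φ y).rep j * (ψ y).rep i) := by
    intro y hy
    obtain ⟨c, hc⟩ := h2 y hy
    obtain ⟨c', hc'⟩ := h2' y hy
    refine ⟨c, c', hc, hc', fun i j => ?_⟩
    have a1 := congrFun hc
    have a2 := congrFun hc'
    simp only [evv_apply, Pi.smul_apply, smul_eq_mul] at a1 a2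
    simp only [map_sub, map_mul, a1, a2]
    ring
  obtain ⟨c, c', hc, hc', k⟩ := key y₀ hy
  have c0 : c ≠ 0 := fun e => h1 (by rw [hc, e, zero_smul])
  have c0' : c' ≠ 0 := fun e => h1' (by rw [hc', e, zero_smul])
  obtain ⟨i, j, hij⟩ : ∃ i j, (φ y₀).rep i * (ψ y₀).rep j ≠ (φ y₀).rep j * (ψ y₀).rep i := by
    by_contra hh
    push Not at hh
    obtain ⟨j, hj⟩ := Function.ne_iff.1 (ψ y₀).rep_nonzero
    refine hne (eq_of_rep_smul (c := (φ y₀).rep j / (ψ y₀).rep j) (funext fun i => ?_))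
    rw [Pi.smul_apply, smul_eq_mul, div_mul_eq_mul_div, eq_div_iff hj, hh i j]
  refine ⟨F i * F' j - F j * F' i, ?_, fun y hy e => hy.2 ?_⟩
  · rw [k]
    exact mul_ne_zero (mul_ne_zero c0 c0') (sub_ne_zero.2 hij)
  · obtain ⟨_, _, -, -, k'⟩ := key y hy.1
    rw [k', e, mul_comm ((ψ y).rep i), sub_self, mul_zero]

theorem PReg.eq_of_bas (hI : AIrr A) (h : PReg A φ) (h' : PReg A ψ) {p : MvPolynomial ρ ℂ}
    (hp : ∃ y ∈ A, eval y p ≠ 0) (he : ∀ y ∈ bas A p, φ y = ψ y) : ∀ y ∈ A, φ y = ψ y := by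
  intro y₀ hy
  by_contra hne
  obtain ⟨q, hq, hq'⟩ := h.exists_ne h' hy hne
  obtain ⟨y, hy', e⟩ := hI.greg_mul_ne hp ⟨y₀, hy, hq⟩
  exact hq' y ⟨hy', e.2⟩ (he y ⟨hy', e.1⟩)

/-- Finitely many representatives suffice. -/
theorem PReg.fg [Finite ρ] [Finite τ] (h : PReg A φ) :
    ∃ s : Finset (τ → MvPolynomial ρ ℂ), (∀ F ∈ s, ∀ y ∈ A, ∃ c : ℂ, evv y F = c • (φ y).rep) ∧
      ∀ y ∈ A, ∃ F ∈ s, evv y F ≠ 0 := by
  let N : Submodule (MvPolynomial ρ ℂ) (τ → MvPolynomial ρ ℂ) :=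
    { carrier := {F | ∀ y ∈ A, ∃ c : ℂ, evv y F = c • (φ y).rep}
      add_mem' := by
        intro F F' hF hF' y hy
        obtain ⟨c, hc⟩ := hF y hy
        obtain ⟨c', hc'⟩ := hF' y hy
        exact ⟨c + c', by rw [greg_evv_add, hc, hc', add_smul]⟩
      zero_mem' := fun y _ => ⟨0, by rw [greg_evv_zero, zero_smul]⟩
      smul_mem' := by
        intro p F hF y hy
        obtain ⟨c, hc⟩ := hF y hy
        exact ⟨eval y p * c, by rw [greg_evv_smul, hc, smul_smul]⟩ }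
  obtain ⟨s, hs⟩ : N.FG := IsNoetherian.noetherian N
  refine ⟨s, fun F hF => ?_, fun y hy => ?_⟩
  · have : F ∈ N := hs ▸ Submodule.subset_span hF
    exact this
  · by_contra hh
    push Not at hh
    obtain ⟨F, h1, h2⟩ := h y hy
    have hF : F ∈ Submodule.span (MvPolynomial ρ ℂ) (s : Set (τ → MvPolynomial ρ ℂ)) := by
      rw [hs]; exact h2
    apply h1
    clear h1 h2
    induction hF using Submodule.span_induction with
    | mem F hF => exact hh F hF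
    | zero => exact greg_evv_zero y
    | add F F' _ _ a b => rw [greg_evv_add, a, b, add_zero]
    | smul p F _ a => rw [greg_evv_smul, a, smul_zero]

theorem oneP_injective : Function.Injective oneP := by
  intro c c' h
  obtain ⟨a, ha⟩ := (Projectivization.mk_eq_mk_iff' ℂ _ _ (oneP_ne c) (oneP_ne c')).1 h
  have h1 := congrFun ha false
  have h2 := congrFun ha true
  simp only [Pi.smul_apply, cond_false, cond_true, smul_eq_mul, mul_one] at h1 h2
  rw [← h2, h1, one_mul]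

theorem freg_iff_preg : FReg A f ↔ PReg A fun y => oneP (f y) := by
  constructor
  · intro h
    refine preg_mk (v := fun y b => cond b (f y) 1) ?_ (fun y _ => oneP_ne (f y)) fun y _ => rfl
    rintro (_ | _)
    · exact freg_const A 1
    · exact h
  · intro h y₀ hy
    obtain ⟨F, h1, h2⟩ := h y₀ hy
    have key : ∀ y ∈ A, eval y (F false) * f y = eval y (F true) := by
      intro y hy
      obtain ⟨c, hc⟩ := h2 y hy
      obtain ⟨c', -, hc'⟩ := mk_rep_eq _ (oneP_ne (f y))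
      have e : evv y F = (c * c') • fun b : Bool => cond b (f y) 1 := by
        rw [hc, ← smul_smul, ← hc']; rfl
      have a1 := congrFun e false
      have a2 := congrFun e true
      simp only [evv_apply, Pi.smul_apply, cond_false, cond_true, smul_eq_mul, mul_one] at a1 a2
      rw [a1, a2]
    refine ⟨F true, F false, fun e => h1 (funext ?_), key⟩
    rintro (_ | _)
    · exact e
    · rw [evv_apply, ← key y₀ hy, e, zero_mul]; rfl

end PReg

section Sets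

theorem alc_univ : ALC (Set.univ : Set (ρ → ℂ)) := ⟨∅, {1}, fun y => by simp⟩

theorem airr_univ : AIrr (Set.univ : Set (ρ → ℂ)) := by
  refine ⟨Set.univ_nonempty, fun p q h => ?_⟩
  have : p * q = 0 := MvPolynomial.funext fun y => by
    rw [map_mul, h y trivial, map_zero]
  rcases mul_eq_zero.1 this with rfl | rfl
  · exact Or.inl fun _ _ => map_zero _
  · exact Or.inr fun _ _ => map_zero _

theorem alc_torus [Finite κ] : ALC (torus κ) := by
  have := Fintype.ofFinite κ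
  exact ⟨∅, {∏ i, X i}, fun y => by simp [torus, Finset.prod_ne_zero_iff]⟩

theorem airr_torus [Finite κ] : AIrr (torus κ) := by
  have := Fintype.ofFinite κ
  have e : torus κ = bas Set.univ (∏ i, X i) := by
    ext y; simp [torus, bas, Finset.prod_ne_zero_iff]
  rw [e]
  exact airr_univ.greg_bas ⟨1, trivial, by simp⟩

theorem one_mem_torus : (1 : κ → ℂ) ∈ torus κ := fun _ => one_ne_zero

theorem aprod_torus : aprod (torus κ) (torus κ') = torus (κ ⊕ κ') := by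
  ext z
  simp [aprod, torus, Sum.forall]

theorem elim_mem_aprod {C : Set (τ → ℂ)} {y : ρ → ℂ} {z : τ → ℂ} :
    Sum.elim y z ∈ aprod A C ↔ y ∈ A ∧ z ∈ C := Iff.rfl

theorem ALC.prod {C : Set (τ → ℂ)} (h : ALC A) (h' : ALC C) : ALC (aprod A C) := by
  obtain ⟨S, T, h⟩ := h
  obtain ⟨S', T', h'⟩ := h'
  refine ⟨rename Sum.inl '' S ∪ rename Sum.inr '' S',
    Set.image2 (fun q q' => rename Sum.inl q * rename Sum.inr q') T T', fun z => ?_⟩
  rw [aprod, Set.mem_ofPred_eq, h, h']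
  constructor
  · rintro ⟨⟨a1, q, hq, a2⟩, b1, q', hq', b2⟩
    refine ⟨?_, _, ⟨q, hq, q', hq', rfl⟩, ?_⟩
    · rintro _ (⟨p, hp, rfl⟩ | ⟨p, hp, rfl⟩)
      · rw [eval_rename]; exact a1 p hp
      · rw [eval_rename]; exact b1 p hp
    · rw [map_mul, eval_rename, eval_rename]; exact mul_ne_zero a2 b2
  · rintro ⟨a, _, ⟨q, hq, q', hq', rfl⟩, b⟩
    rw [map_mul, eval_rename, eval_rename] at b
    refine ⟨⟨fun p hp => ?_, q, hq, left_ne_zero_of_mul b⟩, fun p hp => ?_, q', hq',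
      right_ne_zero_of_mul b⟩
    · rw [← eval_rename]; exact a _ (Or.inl ⟨p, hp, rfl⟩)
    · rw [← eval_rename]; exact a _ (Or.inr ⟨p, hp, rfl⟩)

theorem AIrr.prod {C : Set (τ → ℂ)} (h : AIrr A) (h' : AIrr C) : AIrr (aprod A C) := by
  obtain ⟨y₀, hy₀⟩ := h.1
  obtain ⟨z₀, hz₀⟩ := h'.1
  refine ⟨⟨Sum.elim y₀ z₀, hy₀, hz₀⟩, fun p q hpq => ?_⟩
  by_contra hh
  push Not at hh
  obtain ⟨⟨w, hw, a⟩, w', hw', a'⟩ := hh
  rw [← Sum.elim_comp_inl_inr w, ← greg_slice₂] at a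
  rw [← Sum.elim_comp_inl_inr w', ← greg_slice₂] at a'
  obtain ⟨z, hz, b, b'⟩ := h'.greg_mul_ne ⟨_, hw.2, a⟩ ⟨_, hw'.2, a'⟩
  rw [greg_slice₂, ← greg_slice₁] at b b'
  obtain ⟨y, hy, c, c'⟩ := h.greg_mul_ne ⟨_, hw.1, b⟩ ⟨_, hw'.1, b'⟩
  rw [greg_slice₁] at c c'
  exact mul_ne_zero c c' (hpq _ ⟨hy, hz⟩)

theorem ALC.bas (h : ALC A) (p : MvPolynomial ρ ℂ) : ALC (bas A p) := by
  obtain ⟨S, T, h⟩ := h
  refine ⟨S, (· * p) '' T, fun y => ?_⟩
  rw [Kol68.bas, Set.mem_ofPred_eq, h]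
  constructor
  · rintro ⟨⟨a, q, hq, b⟩, c⟩
    exact ⟨a, _, ⟨q, hq, rfl⟩, by rw [map_mul]; exact mul_ne_zero b c⟩
  · rintro ⟨a, _, ⟨q, hq, rfl⟩, b⟩
    rw [map_mul] at b
    exact ⟨⟨a, q, hq, left_ne_zero_of_mul b⟩, right_ne_zero_of_mul b⟩

theorem AIrr.bas (h : AIrr A) {p : MvPolynomial ρ ℂ} (hp : ∃ y ∈ A, eval y p ≠ 0) :
    AIrr (bas A p) := h.greg_bas hp

theorem AIrr.mul_ne (h : AIrr A) {p q : MvPolynomial ρ ℂ} (hp : ∃ y ∈ A, eval y p ≠ 0)
    (hq : ∃ y ∈ A, eval y q ≠ 0) : ∃ y ∈ A, eval y (p * q) ≠ 0 := by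
  obtain ⟨y, hy, a, b⟩ := h.greg_mul_ne hp hq
  exact ⟨y, hy, by rw [map_mul]; exact mul_ne_zero a b⟩

theorem AIrr.isPrime (h : AIrr A) : (vanishingIdeal ℂ A).IsPrime := by
  have e : ∀ p : MvPolynomial ρ ℂ, p ∈ vanishingIdeal ℂ A ↔ ∀ y ∈ A, eval y p = 0 := fun p =>
    mem_vanishingIdeal_iff
  refine ⟨fun ht => ?_, fun {p q} hpq => ?_⟩
  · obtain ⟨y, hy⟩ := h.1
    have := (e 1).1 (ht ▸ Submodule.mem_top) y hy
    simp at this
  · rw [e, e]
    exact h.2 p q fun y hy => by rw [← map_mul]; exact (e _).1 hpq y hy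

theorem ALC.exists_bas (h : ALC A) {y₀ : ρ → ℂ} (hy : y₀ ∈ A) : ∃ q, eval y₀ q ≠ 0 ∧
    ∀ y, (∀ p, (∀ z ∈ A, eval z p = 0) → eval y p = 0) → eval y q ≠ 0 → y ∈ A := by
  obtain ⟨S, T, h⟩ := h
  obtain ⟨-, q, hq, a⟩ := (h y₀).1 hy
  exact ⟨q, a, fun y h1 h2 => (h y).2 ⟨fun p hp => h1 p fun z hz => ((h z).1 hz).1 p hp, q, hq, h2⟩⟩

end Sets

end Kol68
end

-- merged part: Pool.Agent.Work.MP_c53807_ag.GZar
section
/-!
The Zariski topology, cones and regular maps into quasi-projective types.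
-/

open scoped LinearAlgebra.Projectivization
open MvPolynomial Topology TopologicalSpace

namespace Kol68

variable {ρ τ κ σ : Type}

namespace GZ

/-- The restriction of a polynomial to a line. -/
noncomputable def lp (w : σ → ℂ) (p : MvPolynomial σ ℂ) : Polynomial ℂ :=
  aeval (fun i => Polynomial.C (w i) * Polynomial.X) p

theorem eval_lp (w : σ → ℂ) (p : MvPolynomial σ ℂ) (c : ℂ) :
    (lp w p).eval c = eval (c • w) p := by
  unfold lp
  induction p using MvPolynomial.induction_on with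
  | C a => simp
  | add p q hp hq => simp [hp, hq]
  | mul_X p i hp =>
    simp only [map_mul, Polynomial.eval_mul, hp, aeval_X, Polynomial.eval_C, Polynomial.eval_X,
      eval_X, Pi.smul_apply, smul_eq_mul, mul_comm c]

theorem lp_eq_zero {w : σ → ℂ} {p : MvPolynomial σ ℂ} :
    lp w p = 0 ↔ ∀ c : ℂ, eval (c • w) p = 0 :=
  ⟨fun h c => by rw [← eval_lp, h, Polynomial.eval_zero],
    fun h => Polynomial.funext fun c => by rw [eval_lp, h, Polynomial.eval_zero]⟩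

theorem mem_linePt {x : PS σ} {p : MvPolynomial σ ℂ} :
    p ∈ (linePt x).asIdeal ↔ ∀ c : ℂ, eval (c • x.rep) p = 0 := lp_eq_zero

theorem hom_zero {w : σ → ℂ} {p : MvPolynomial σ ℂ} (h : ∀ c : ℂ, c ≠ 0 → eval (c • w) p = 0)
    (k : ℕ) : eval w (homogeneousComponent k p) = 0 :=
  eval_homogeneousComponent p k w 0 fun c hc => by rw [h c hc, mul_zero]

theorem of_hom_zero {w : σ → ℂ} {p : MvPolynomial σ ℂ}
    (h : ∀ k, eval w (homogeneousComponent k p) = 0) (c : ℂ) : eval (c • w) p = 0 := by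
  rw [← sum_homogeneousComponent p, map_sum]
  refine Finset.sum_eq_zero fun k _ => ?_
  rw [eval_smul_hom (homogeneousComponent_isHomogeneous k p), h, mul_zero]

theorem eval_aeval (y : ρ → ℂ) (F : τ → MvPolynomial ρ ℂ) (q : MvPolynomial τ ℂ) :
    eval y (aeval F q) = eval (evv y F) q := by
  induction q using MvPolynomial.induction_on with
  | C a => simp
  | add p q hp hq => simp only [map_add, hp, hq]
  | mul_X p i hp => simp only [map_mul, hp, aeval_X, eval_X, evv_apply]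

end GZ

open GZ

theorem isClosed_ps_iff {Z : Set (PS σ)} : IsClosed Z ↔ ∃ S : Set (MvPolynomial σ ℂ),
    ∀ x, x ∈ Z ↔ ∀ p ∈ S, ∀ c : ℂ, eval (c • x.rep) p = 0 := by
  have key : ∀ (S : Set (MvPolynomial σ ℂ)) (x : PS σ),
      x ∈ linePt ⁻¹' PrimeSpectrum.zeroLocus S ↔ ∀ p ∈ S, ∀ c : ℂ, eval (c • x.rep) p = 0 :=
    fun S x => ⟨fun h p hp => mem_linePt.1 (h hp), fun h p hp => mem_linePt.2 (h p hp)⟩
  rw [isClosed_induced_iff]
  constructor
  · rintro ⟨t, ht, rfl⟩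
    obtain ⟨S, rfl⟩ := (PrimeSpectrum.isClosed_iff_zeroLocus t).1 ht
    exact ⟨S, key S⟩
  · rintro ⟨S, hS⟩
    exact ⟨_, PrimeSpectrum.isClosed_zeroLocus S, Set.ext fun x => (key S x).trans (hS x).symm⟩

theorem isClosed_ps_iff_hom {Z : Set (PS σ)} : IsClosed Z ↔ ∃ S : Set (MvPolynomial σ ℂ),
    (∀ p ∈ S, ∃ n : ℕ, p.IsHomogeneous n) ∧ Z = {x | ∀ p ∈ S, eval x.rep p = 0} := by
  rw [isClosed_ps_iff]
  constructor
  · rintro ⟨S, hS⟩
    refine ⟨{q | ∃ p ∈ S, ∃ k, q = homogeneousComponent k p}, ?_, Set.ext fun x => ?_⟩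
    · rintro _ ⟨p, -, k, rfl⟩
      exact ⟨k, homogeneousComponent_isHomogeneous k p⟩
    · rw [hS]
      constructor
      · rintro h _ ⟨p, hp, k, rfl⟩
        exact hom_zero (fun c _ => h p hp c) k
      · intro h p hp
        exact of_hom_zero fun k => h _ ⟨p, hp, k, rfl⟩
  · rintro ⟨S, h1, rfl⟩
    refine ⟨S, fun x => ⟨fun h p hp c => ?_, fun h p hp => by simpa using h p hp 1⟩⟩
    obtain ⟨n, hn⟩ := h1 p hp
    rw [eval_smul_hom hn, h p hp, mul_zero]

theorem isClosed_iff_pClosed {N : ℕ} {Z : Set (ℙ ℂ (Fin N → ℂ))} : IsClosed Z ↔ PClosed Z :=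
  isClosed_ps_iff_hom

variable {V W U : Type} [TopologicalSpace V] [QP V] [TopologicalSpace W] [QP W]
  [TopologicalSpace U] [QP U]

instance QP.noetherianSpace : NoetherianSpace V := by
  have h : IsInducing (linePt : PS (QP.σ V) → _) := ⟨rfl⟩
  have := h.noetherianSpace
  exact QP.emb.isInducing.noetherianSpace

instance QP.t1Space : T1Space V := by
  have : T1Space (PS (QP.σ V)) := by
    refine ⟨fun x => isClosed_ps_iff.2
      ⟨{p | ∃ i j, p = C (x.rep j) * X i - C (x.rep i) * X j}, fun y => ⟨?_, fun h => ?_⟩⟩⟩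
    · rintro rfl p ⟨i, j, hp⟩ c
      rw [hp]
      simp only [map_sub, map_mul, eval_C, eval_X, Pi.smul_apply, smul_eq_mul]
      ring
    · obtain ⟨i, hi⟩ := Function.ne_iff.1 x.rep_nonzero
      have hi' : x.rep i ≠ 0 := hi
      refine eq_of_rep_smul (c := y.rep i / x.rep i) (funext fun j => ?_)
      have := h _ ⟨i, j, rfl⟩ 1
      simp only [map_sub, map_mul, eval_C, eval_X, one_smul] at this
      rw [Pi.smul_apply, smul_eq_mul]
      field_simp
      linear_combination -this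
  exact QP.emb.t1Space

theorem isOpen_form {e : ℕ} {p : MvPolynomial (QP.σ V) ℂ} (hp : p.IsHomogeneous e) :
    IsOpen {v : V | eval (rp v) p ≠ 0} := by
  have h : IsClosed {x : PS (QP.σ V) | ∀ q ∈ ({p} : Set _), eval x.rep q = 0} :=
    isClosed_ps_iff_hom.2 ⟨{p}, fun q hq => ⟨e, hq ▸ hp⟩, rfl⟩
  have h2 := (h.preimage QP.emb.continuous).isOpen_compl
  convert h2 using 1
  ext v
  simp [rp]

theorem exists_form {O : Set V} (hO : IsOpen O) {v : V} (hv : v ∈ O) :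
    ∃ (e : ℕ) (p : MvPolynomial (QP.σ V) ℂ), p.IsHomogeneous e ∧ eval (rp v) p ≠ 0 ∧
      ∀ w : V, eval (rp w) p ≠ 0 → w ∈ O := by
  obtain ⟨O', hO', rfl⟩ := QP.emb.isInducing.isOpen_iff.1 hO
  obtain ⟨S, h1, h2⟩ := isClosed_ps_iff_hom.1 hO'.isClosed_compl
  have h3 : ∀ w : V, QP.ι w ∉ O' ↔ ∀ p ∈ S, eval (rp w) p = 0 := fun w =>
    Set.ext_iff.1 h2 (QP.ι w)
  have h4 := mt (h3 v).2 (not_not.2 hv)
  push Not at h4
  obtain ⟨p, hp, h5⟩ := h4
  obtain ⟨e, he⟩ := h1 p hp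
  refine ⟨e, p, he, h5, fun w hw => ?_⟩
  by_contra h6
  exact hw ((h3 w).1 h6 p hp)

theorem GZ.airr {Y : Set V} (h : IsIrreducible Y) : AIrr (cone Y) := by
  obtain ⟨v, hv⟩ := h.nonempty
  refine ⟨⟨_, v, hv, 1, one_ne_zero, rfl⟩, fun p q hpq => ?_⟩
  have cl : ∀ p : MvPolynomial (QP.σ V) ℂ, IsClosed {v : V | ∀ c : ℂ, eval (c • rp v) p = 0} :=
    fun p => (isClosed_ps_iff.2 ⟨{p}, fun x => by simp⟩ :
      IsClosed {x : PS (QP.σ V) | ∀ c : ℂ, eval (c • x.rep) p = 0}).preimage QP.emb.continuous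
  have sub : Y ⊆ {v : V | ∀ c : ℂ, eval (c • rp v) p = 0} ∪
      {v : V | ∀ c : ℂ, eval (c • rp v) q = 0} := by
    intro w hw
    have h0 : lp (rp w) p * lp (rp w) q = 0 := by
      refine Polynomial.eq_zero_of_infinite_isRoot _
        ((Set.finite_singleton (0 : ℂ)).infinite_compl.mono fun c hc => ?_)
      change (lp (rp w) p * lp (rp w) q).eval c = 0
      rw [Polynomial.eval_mul, eval_lp, eval_lp]
      exact hpq _ ⟨w, hw, c, hc, rfl⟩
    exact (mul_eq_zero.1 h0).imp lp_eq_zero.1 lp_eq_zero.1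
  refine (isPreirreducible_iff_isClosed_union_isClosed.1 h.isPreirreducible _ _ (cl p) (cl q)
    sub).imp ?_ ?_
  · rintro h1 _ ⟨w, hw, c, -, rfl⟩
    exact h1 hw c
  · rintro h1 _ ⟨w, hw, c, -, rfl⟩
    exact h1 hw c

/-- Ascending chains of irreducible closed sets stop. -/
theorem exists_max_irr (𝒮 : Set (Set V)) (hne : 𝒮.Nonempty)
    (h : ∀ Y ∈ 𝒮, IsClosed Y ∧ IsIrreducible Y) : ∃ Y ∈ 𝒮, ∀ Y' ∈ 𝒮, Y ⊆ Y' → Y' = Y := by
  obtain ⟨_, ⟨Y, hY, rfl⟩, hmin⟩ := (wellFounded_lt (α := ℕ∞)).has_min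
    ((fun Y : Set V => (vanishingIdeal ℂ (cone Y)).height) '' 𝒮) (hne.image _)
  refine ⟨Y, hY, fun Y' hY' hsub => Set.Subset.antisymm (fun v hv => ?_) hsub⟩
  have := (GZ.airr (h Y' hY').2).isPrime
  have e : vanishingIdeal ℂ (cone Y') = vanishingIdeal ℂ (cone Y) :=
    Ideal.eq_of_le_of_height_le _ (vanishingIdeal_anti_mono
      fun _ ⟨v, hv, c, hc, e⟩ => ⟨v, hsub hv, c, hc, e⟩) (not_lt.1 (hmin _ ⟨Y', hY', rfl⟩))
  by_contra hn
  obtain ⟨n, p, h1, h2, h3⟩ := exists_form (h Y hY).1.isOpen_compl hn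
  have h4 : p ∈ vanishingIdeal ℂ (cone Y) := by
    rintro _ ⟨w, hw, c, -, rfl⟩
    have h5 : eval (rp w) p = 0 := by
      by_contra h6
      exact h3 w h6 hw
    change eval (c • rp w) p = 0
    rw [eval_smul_hom h1, h5, mul_zero]
  rw [← e] at h4
  exact h2 (h4 (rp v) ⟨v, hv, 1, one_ne_zero, by simp⟩)

section Cone

variable {Y : Set V}

theorem rp_ne_zero (v : V) : rp v ≠ 0 := (QP.ι v).rep_nonzero

theorem eq_of_rp_smul {v w : V} {c : ℂ} (h : rp v = c • rp w) : v = w :=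
  QP.emb.injective (eq_of_rep_smul h)

theorem smul_mem_cone {v : V} (hv : v ∈ Y) {c : ℂ} (hc : c ≠ 0) : c • rp v ∈ cone Y :=
  ⟨v, hv, c, hc, rfl⟩

theorem rp_mem_cone {v : V} (hv : v ∈ Y) : rp v ∈ cone Y := ⟨v, hv, 1, one_ne_zero, by simp⟩

theorem cone_mono {Y' : Set V} (h : Y ⊆ Y') : cone Y ⊆ cone Y' :=
  fun _ ⟨v, hv, c, hc, e⟩ => ⟨v, h hv, c, hc, e⟩

theorem taut_smul [Nonempty V] (v : V) {c : ℂ} (hc : c ≠ 0) : taut V (c • rp v) = v := by
  obtain ⟨c', h1, h2⟩ : ∃ c' : ℂ, c' ≠ 0 ∧ c • rp v = c' • rp (taut V (c • rp v)) :=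
    Classical.epsilon_spec (p := fun w : V => ∃ c' : ℂ, c' ≠ 0 ∧ c • rp v = c' • rp w)
      ⟨v, c, hc, rfl⟩
  refine eq_of_rp_smul (c := c'⁻¹ * c) ?_
  rw [mul_smul, h2, ← h2]
  conv_rhs => rw [h2]
  rw [inv_smul_smul₀ h1]

theorem taut_rp [Nonempty V] (v : V) : taut V (rp v) = v := by
  simpa using taut_smul v one_ne_zero

theorem taut_mem [Nonempty V] {y : QP.σ V → ℂ} (hy : y ∈ cone Y) : taut V y ∈ Y := by
  obtain ⟨v, hv, c, hc, rfl⟩ := hy
  rwa [taut_smul v hc]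

theorem taut_spec [Nonempty V] {y : QP.σ V → ℂ} (hy : y ∈ cone Y) :
    ∃ c : ℂ, c ≠ 0 ∧ y = c • rp (taut V y) := by
  obtain ⟨v, hv, c, hc, rfl⟩ := hy
  exact ⟨c, hc, by rw [taut_smul v hc]⟩

theorem image_taut [Nonempty V] (Y : Set V) : taut V '' cone Y = Y := by
  refine Set.Subset.antisymm ?_ fun v hv => ⟨rp v, rp_mem_cone hv, taut_rp v⟩
  rintro _ ⟨y, hy, rfl⟩
  exact taut_mem hy

theorem reg_taut [Nonempty V] (Y : Set V) : Reg (cone Y) (taut V) := by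
  have ev : ∀ y : QP.σ V → ℂ, evv y X = y := fun y => funext fun i => eval_X i
  intro y₀ hy₀
  refine ⟨X, ?_, fun y hy => ?_⟩
  · obtain ⟨v, -, c, hc, rfl⟩ := hy₀
    rw [ev]
    exact smul_ne_zero hc (rp_ne_zero v)
  · obtain ⟨c, -, h⟩ := taut_spec hy
    exact ⟨c, (ev y).trans h⟩

theorem alc_cone (h : IsLocallyClosed Y) : ALC (cone Y) := by
  obtain ⟨O, Z, hO, hZ, e⟩ := QP.lc_image h
  obtain ⟨S, s1, s2⟩ := isClosed_ps_iff_hom.1 hZ
  obtain ⟨T, t1, t2⟩ := isClosed_ps_iff_hom.1 hO.isClosed_compl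
  have hZ' : ∀ x, x ∈ Z ↔ ∀ p ∈ S, eval x.rep p = 0 := Set.ext_iff.1 s2
  have hO' : ∀ x, x ∈ O ↔ ∃ p ∈ T, eval x.rep p ≠ 0 := fun x => by
    have h1 : x ∉ O ↔ ∀ p ∈ T, eval x.rep p = 0 := Set.ext_iff.1 t2 x
    rw [← not_iff_not, h1]
    simp
  refine ⟨S, {q | ∃ p ∈ T, ∃ i, q = p * X i}, fun y => ⟨?_, ?_⟩⟩
  · rintro ⟨v, hv, c, hc, rfl⟩
    have h1 : QP.ι v ∈ O ∩ Z := e ▸ Set.mem_image_of_mem _ hv
    refine ⟨fun p hp => ?_, ?_⟩
    · obtain ⟨n, hn⟩ := s1 p hp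
      rw [eval_smul_hom hn, show eval (rp v) p = 0 from (hZ' _).1 h1.2 p hp, mul_zero]
    · obtain ⟨p, hp, h2⟩ := (hO' _).1 h1.1
      obtain ⟨i, hi⟩ := Function.ne_iff.1 (rp_ne_zero v)
      obtain ⟨n, hn⟩ := t1 p hp
      refine ⟨_, ⟨p, hp, i, rfl⟩, ?_⟩
      rw [map_mul, eval_smul_hom hn, eval_X]
      exact mul_ne_zero (mul_ne_zero (pow_ne_zero _ hc) h2) (mul_ne_zero hc hi)
  · rintro ⟨h1, _, ⟨p, hp, i, rfl⟩, h2⟩
    rw [map_mul, eval_X] at h2
    have hy : y ≠ 0 := fun h0 => right_ne_zero_of_mul h2 (by rw [h0]; rfl)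
    obtain ⟨c, hc, h3⟩ := mk_rep_eq y hy
    have h4 : Projectivization.mk ℂ y hy ∈ QP.ι '' Y := by
      rw [e]
      refine ⟨(hO' _).2 ⟨p, hp, ?_⟩, (hZ' _).2 fun q hq => ?_⟩
      · obtain ⟨n, hn⟩ := t1 p hp
        rw [h3, eval_smul_hom hn]
        exact mul_ne_zero (pow_ne_zero _ hc) (left_ne_zero_of_mul h2)
      · obtain ⟨n, hn⟩ := s1 q hq
        rw [h3, eval_smul_hom hn, h1 q hq, mul_zero]
    obtain ⟨v, hv, h5⟩ := h4
    refine ⟨v, hv, c⁻¹, inv_ne_zero hc, ?_⟩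
    rw [rp, h5, h3, inv_smul_smul₀ hc]

theorem airr_cone (h : IsIrreducible Y) : AIrr (cone Y) := GZ.airr h

/-- A subset whose cone is relatively open is relatively open. -/
theorem exists_open_of_cone [Nonempty V] {E : Set V} (h : ∀ y₀ ∈ cone Y, taut V y₀ ∈ E →
    ∃ p, eval y₀ p ≠ 0 ∧ ∀ y ∈ bas (cone Y) p, taut V y ∈ E) :
    ∃ O : Set V, IsOpen O ∧ Y ∩ E = Y ∩ O := by
  refine ⟨{w | ∃ (e : ℕ) (q : MvPolynomial (QP.σ V) ℂ), q.IsHomogeneous e ∧ eval (rp w) q ≠ 0 ∧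
    ∀ u ∈ Y, eval (rp u) q ≠ 0 → u ∈ E}, ?_, Set.Subset.antisymm ?_ ?_⟩
  · rw [isOpen_iff_forall_mem_open]
    rintro w ⟨e, q, h1, h2, h3⟩
    exact ⟨_, fun u hu => ⟨e, q, h1, hu, h3⟩, isOpen_form h1, h2⟩
  · rintro v ⟨hv, hE⟩
    obtain ⟨p, h1, h2⟩ := h _ (rp_mem_cone hv) (by rwa [taut_rp])
    obtain ⟨k, hk⟩ : ∃ k, eval (rp v) (homogeneousComponent k p) ≠ 0 := by
      by_contra h3
      push Not at h3
      exact h1 (by simpa using of_hom_zero h3 1)
    refine ⟨hv, k, _, homogeneousComponent_isHomogeneous k p, hk, fun u hu h3 => ?_⟩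
    obtain ⟨c, hc, h4⟩ : ∃ c : ℂ, c ≠ 0 ∧ eval (c • rp u) p ≠ 0 := by
      by_contra h5
      push Not at h5
      exact h3 (hom_zero h5 k)
    have h5 := h2 _ ⟨smul_mem_cone hu hc, h4⟩
    rwa [taut_smul u hc] at h5
  · rintro v ⟨hv, e, q, -, h2, h3⟩
    exact ⟨hv, h3 v hv h2⟩

end Cone

section Reg

variable {A B : Set (ρ → ℂ)} {φ ψ : (ρ → ℂ) → V}

theorem Reg.mono (h : Reg A φ) (hB : B ⊆ A) : Reg B φ := PReg.mono h hB

theorem Reg.congr (h : Reg A φ) (e : ∀ y ∈ A, ψ y = φ y) : Reg A ψ :=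
  PReg.congr h fun y hy => by rw [e y hy]

theorem Reg.of_local (h : ∀ y₀ ∈ A, ∃ p, eval y₀ p ≠ 0 ∧ Reg (bas A p) φ) : Reg A φ :=
  PReg.of_local h

theorem reg_const (A : Set (ρ → ℂ)) (v : V) : Reg A fun _ => v := preg_const A _

theorem Reg.comp {C : Set (κ → ℂ)} {u : (κ → ℂ) → V} {Θ : (ρ → ℂ) → κ → ℂ} (hu : Reg C u)
    (h : AMor A Θ) (hm : Set.MapsTo Θ A C) : Reg A fun y => u (Θ y) := PReg.comp hu h hm

theorem Reg.lift (h : Reg A φ) {y₀ : ρ → ℂ} (hy : y₀ ∈ A) :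
    ∃ (F : QP.σ V → MvPolynomial ρ ℂ) (p : MvPolynomial ρ ℂ), eval y₀ p ≠ 0 ∧
      ∀ y ∈ bas A p, ∃ c : ℂ, c ≠ 0 ∧ evv y F = c • rp (φ y) := PReg.lift h hy

theorem reg_ps [Finite σ] {θ : (ρ → ℂ) → PS σ} : Reg A θ ↔ PReg A θ := Iff.rfl

theorem Reg.exists_bas (h : Reg A φ) {O : Set V} (hO : IsOpen O) {y₀ : ρ → ℂ} (hy : y₀ ∈ A)
    (hm : φ y₀ ∈ O) : ∃ p, eval y₀ p ≠ 0 ∧ ∀ y ∈ bas A p, φ y ∈ O := by
  obtain ⟨e, q, h1, h2, h3⟩ := exists_form hO hm
  obtain ⟨F, p, h4, h5⟩ := h.lift hy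
  refine ⟨p * aeval F q, ?_, fun y ⟨hA, h6⟩ => h3 _ fun h7 => ?_⟩
  · obtain ⟨c, hc, h6⟩ := h5 y₀ ⟨hy, h4⟩
    rw [map_mul, eval_aeval, h6, eval_smul_hom h1]
    exact mul_ne_zero h4 (mul_ne_zero (pow_ne_zero _ hc) h2)
  · rw [map_mul] at h6
    obtain ⟨c, hc, h8⟩ := h5 y ⟨hA, left_ne_zero_of_mul h6⟩
    rw [eval_aeval, h8, eval_smul_hom h1, h7, mul_zero, mul_zero] at h6
    exact h6 rfl

theorem Reg.exists_ne (h : Reg A φ) (h' : Reg A ψ) {y₀ : ρ → ℂ} (hy : y₀ ∈ A)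
    (hne : φ y₀ ≠ ψ y₀) : ∃ p, eval y₀ p ≠ 0 ∧ ∀ y ∈ bas A p, φ y ≠ ψ y := by
  obtain ⟨p, h1, h2⟩ := PReg.exists_ne h h' hy fun e => hne (QP.emb.injective e)
  exact ⟨p, h1, fun y hy e => h2 y hy (congrArg QP.ι e)⟩

theorem Reg.eq_of_bas (hI : AIrr A) (h : Reg A φ) (h' : Reg A ψ) {p : MvPolynomial ρ ℂ}
    (hp : ∃ y ∈ A, eval y p ≠ 0) (he : ∀ y ∈ bas A p, φ y = ψ y) : ∀ y ∈ A, φ y = ψ y :=
  fun y hy => QP.emb.injective
    (PReg.eq_of_bas hI h h' hp (fun z hz => congrArg QP.ι (he z hz)) y hy)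

theorem Reg.isIrreducible_image (hI : AIrr A) (h : Reg A φ) : IsIrreducible (φ '' A) := by
  refine ⟨hI.1.image _, ?_⟩
  rintro O O' hO hO' ⟨_, ⟨y, hy, rfl⟩, h1⟩ ⟨_, ⟨y', hy', rfl⟩, h2⟩
  obtain ⟨p, p1, p2⟩ := h.exists_bas hO hy h1
  obtain ⟨q, q1, q2⟩ := h.exists_bas hO' hy' h2
  obtain ⟨z, hz, h3⟩ := hI.mul_ne ⟨y, hy, p1⟩ ⟨y', hy', q1⟩
  rw [map_mul] at h3
  exact ⟨φ z, ⟨z, hz, rfl⟩, p2 z ⟨hz, left_ne_zero_of_mul h3⟩, q2 z ⟨hz, right_ne_zero_of_mul h3⟩⟩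

end Reg

end Kol68
end

-- merged part: Pool.Agent.Work.MP_c53807_ag.GMor
section
/-!
Morphisms of quasi-projective types.
-/

open scoped LinearAlgebra.Projectivization
open MvPolynomial Topology TopologicalSpace

namespace Kol68

variable {ρ τ κ σ : Type}
variable {V W U : Type} [TopologicalSpace V] [QP V] [TopologicalSpace W] [QP W]
  [TopologicalSpace U] [QP U] {Y : Set V} {f g : V → W} {u v : V → ℂ}

theorem mor_iff : Mor f ↔ MorOn Set.univ f :=
  ⟨fun h ρ A φ hφ _ => h ρ A φ hφ, fun h ρ A φ hφ => h ρ A φ hφ (Set.mapsTo_univ _ _)⟩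

theorem fmor_iff : FMor u ↔ FMorOn Set.univ u :=
  ⟨fun h ρ A φ hφ _ => h ρ A φ hφ, fun h ρ A φ hφ => h ρ A φ hφ (Set.mapsTo_univ _ _)⟩

theorem fam_iff {B : Set (τ → ℂ)} {a : (τ → ℂ) → V → W} : Fam B a ↔ FamOn B Set.univ a :=
  ⟨fun h ρ A β ψ h₁ h₂ h₃ _ => h ρ A β ψ h₁ h₂ h₃,
    fun h ρ A β ψ h₁ h₂ h₃ => h ρ A β ψ h₁ h₂ h₃ (Set.mapsTo_univ _ _)⟩

theorem Mor.morOn (h : Mor f) (Y : Set V) : MorOn Y f := fun ρ A φ hφ _ => h ρ A φ hφ

theorem FMor.fmorOn (h : FMor u) (Y : Set V) : FMorOn Y u := fun ρ A φ hφ _ => h ρ A φ hφ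

theorem MorOn.mono (h : MorOn Y f) {Y' : Set V} (hY : Y' ⊆ Y) : MorOn Y' f :=
  fun ρ A φ hφ hm => h ρ A φ hφ (hm.mono_right hY)

theorem FMorOn.mono (h : FMorOn Y u) {Y' : Set V} (hY : Y' ⊆ Y) : FMorOn Y' u :=
  fun ρ A φ hφ hm => h ρ A φ hφ (hm.mono_right hY)

theorem MorOn.congr (h : MorOn Y f) (e : ∀ y ∈ Y, g y = f y) : MorOn Y g :=
  fun ρ A φ hφ hm => (h ρ A φ hφ hm).congr fun _ hy => e _ (hm hy)

theorem FMorOn.congr (h : FMorOn Y u) (e : ∀ y ∈ Y, v y = u y) : FMorOn Y v :=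
  fun ρ A φ hφ hm => (h ρ A φ hφ hm).congr fun _ hy => e _ (hm hy)

theorem mor_id : Mor fun x : V => x := fun _ _ _ h => h

theorem mor_const (w : W) : Mor fun _ : V => w := fun _ A _ _ => reg_const A w

theorem mor_ι : Mor (QP.ι : V → PS (QP.σ V)) := fun _ _ _ h => h

theorem Mor.comp {k : W → U} (hk : Mor k) (h : Mor f) : Mor fun x => k (f x) :=
  fun ρ A φ hφ => hk ρ A _ (h ρ A φ hφ)

theorem MorOn.comp {Y' : Set W} {k : W → U} (hk : MorOn Y' k) (h : MorOn Y f)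
    (hm : Set.MapsTo f Y Y') : MorOn Y fun x => k (f x) :=
  fun ρ A φ hφ hφ' => hk ρ A _ (h ρ A φ hφ hφ') fun _ hy => hm (hφ' hy)

theorem FMor.comp {k : W → ℂ} (hk : FMor k) (h : Mor f) : FMor fun x => k (f x) :=
  fun ρ A φ hφ => hk ρ A _ (h ρ A φ hφ)

theorem FMorOn.comp {Y' : Set W} {k : W → ℂ} (hk : FMorOn Y' k) (h : MorOn Y f)
    (hm : Set.MapsTo f Y Y') : FMorOn Y fun x => k (f x) :=
  fun ρ A φ hφ hφ' => hk ρ A _ (h ρ A φ hφ hφ') fun _ hy => hm (hφ' hy)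

theorem Mor₂.comp {T : Type} [TopologicalSpace T] [QP T] {m : V → W → U} (h : Mor₂ m)
    {a : T → V} {b : T → W} (ha : Mor a) (hb : Mor b) : Mor fun t => m (a t) (b t) :=
  fun ρ A φ hφ => h ρ A _ _ (ha ρ A φ hφ) (hb ρ A φ hφ)

theorem Mor₂.left {m : V → W → U} (h : Mor₂ m) (w : W) : Mor fun x => m x w :=
  h.comp mor_id (mor_const w)

theorem Mor₂.right {m : V → W → U} (h : Mor₂ m) (x : V) : Mor (m x) :=
  h.comp (mor_const x) mor_id

theorem fmorOn_iff_morOn : FMorOn Y u ↔ MorOn Y fun x => oneP (u x) :=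
  ⟨fun h ρ A φ hφ hm => freg_iff_preg.1 (h ρ A φ hφ hm),
    fun h ρ A φ hφ hm => freg_iff_preg.2 (h ρ A φ hφ hm)⟩

theorem fmor_iff_mor : FMor u ↔ Mor fun x => oneP (u x) :=
  ⟨fun h ρ A φ hφ => freg_iff_preg.1 (h ρ A φ hφ), fun h ρ A φ hφ => freg_iff_preg.2 (h ρ A φ hφ)⟩

namespace GMor

theorem lift_taut [Nonempty V] {A : Set (ρ → ℂ)} {φ : (ρ → ℂ) → V} (hφ : Reg A φ)
    (hm : Set.MapsTo φ A Y) {y₀ : ρ → ℂ} (hy : y₀ ∈ A) :
    ∃ (F : QP.σ V → MvPolynomial ρ ℂ) (p : MvPolynomial ρ ℂ), eval y₀ p ≠ 0 ∧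
      ∀ y ∈ bas A p, evv y F ∈ cone Y ∧ taut V (evv y F) = φ y := by
  obtain ⟨F, p, hp, hF⟩ := hφ.lift hy
  refine ⟨F, p, hp, fun y hy => ?_⟩
  obtain ⟨c, hc, e⟩ := hF y hy
  rw [e]
  exact ⟨smul_mem_cone (hm hy.1) hc, taut_smul _ hc⟩

theorem reg_cone [Nonempty V] (h : MorOn Y f) : Reg (cone Y) fun y => f (taut V y) :=
  h _ _ _ (reg_taut Y) fun _ hy => taut_mem hy

theorem exists_comp_ne {p : MvPolynomial σ ℂ} {w : σ → ℂ} (h : eval w p ≠ 0) :
    ∃ k, eval w (homogeneousComponent k p) ≠ 0 := by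
  by_contra h0
  refine h ?_
  rw [← sum_homogeneousComponent p, map_sum]
  exact Finset.sum_eq_zero fun k _ => not_not.1 fun h1 => h0 ⟨k, h1⟩

theorem comp_eq {p q : MvPolynomial σ ℂ} {w : σ → ℂ} {s t : ℂ} (k : ℕ)
    (h : ∀ c : ℂ, c ≠ 0 → s * eval (c • w) p = t * eval (c • w) q) :
    s * eval w (homogeneousComponent k p) = t * eval w (homogeneousComponent k q) := by
  have h1 := eval_homogeneousComponent (s • p - t • q) k w 0 fun c hc => by
    rw [map_sub, smul_eval, smul_eval, h c hc, sub_self, mul_zero]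
  rwa [map_sub, map_smul, map_smul, map_sub, smul_eval, smul_eval, sub_eq_zero] at h1

theorem evv_smul {e : ℕ} {F : τ → MvPolynomial σ ℂ} (hF : ∀ i, (F i).IsHomogeneous e) (c : ℂ)
    (w : σ → ℂ) : evv (c • w) F = c ^ e • evv w F :=
  funext fun i => eval_smul_hom (hF i) c w

end GMor

theorem morOn_of_taut [Nonempty V] (h : Reg (cone Y) fun y => f (taut V y)) : MorOn Y f := by
  intro ρ A φ hφ hm
  refine Reg.of_local fun y₀ hy => ?_
  obtain ⟨F, p, hp, hF⟩ := GMor.lift_taut hφ hm hy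
  refine ⟨p, hp, (h.comp (amor_evv _ F) fun y hy => (hF y hy).1).congr fun y hy => ?_⟩
  rw [(hF y hy).2]

theorem fmorOn_of_taut [Nonempty V] (h : FReg (cone Y) fun y => u (taut V y)) : FMorOn Y u :=
  fmorOn_iff_morOn.2 (morOn_of_taut (freg_iff_preg.1 h))

theorem famOn_of_taut [Nonempty V] {B : Set (τ → ℂ)} {a : (τ → ℂ) → V → W}
    (h : Reg (aprod B (cone Y)) fun z => a (z ∘ Sum.inl) (taut V (z ∘ Sum.inr))) :
    FamOn B Y a := by
  intro ρ A β ψ hβ hB hψ hm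
  refine Reg.of_local fun y₀ hy => ?_
  obtain ⟨F, p, hp, hF⟩ := GMor.lift_taut hψ hm hy
  refine ⟨p, hp, (h.comp ((hβ.mono (bas_subset A p)).elim (amor_evv _ F))
    fun y hy => elim_mem_aprod.2 ⟨hB hy.1, (hF y hy).1⟩).congr fun y hy => ?_⟩
  rw [Sum.elim_comp_inl, Sum.elim_comp_inr, (hF y hy).2]

theorem mor₂_of_fam [Nonempty V] {m : V → W → U}
    (h : Fam (cone (Set.univ : Set V)) fun b w => m (taut V b) w) : Mor₂ m := by
  intro ρ A φ ψ hφ hψ
  refine Reg.of_local fun y₀ hy => ?_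
  obtain ⟨F, p, hp, hF⟩ := GMor.lift_taut hφ (Set.mapsTo_univ _ _) hy
  refine ⟨p, hp, (h ρ (bas A p) _ ψ (amor_evv _ F) (fun y hy => (hF y hy).1)
    (hψ.mono (bas_subset A p))).congr fun y hy => ?_⟩
  beta_reduce
  rw [(hF y hy).2]

theorem MorOn.continuousOn (h : MorOn Y f) : ContinuousOn f Y := by
  rcases isEmpty_or_nonempty V with _ | _
  · rw [Set.eq_empty_of_isEmpty Y]
    exact continuousOn_empty f
  refine continuousOn_iff'.2 fun t ht => ?_
  obtain ⟨O, hO, e⟩ := exists_open_of_cone (Y := Y) (E := f ⁻¹' t) fun y₀ hy hE =>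
    (GMor.reg_cone h).exists_bas ht hy hE
  exact ⟨O, hO, by rw [Set.inter_comm, e, Set.inter_comm]⟩

theorem Mor.continuous (h : Mor f) : Continuous f :=
  continuousOn_univ.1 (mor_iff.1 h).continuousOn

theorem MorOn.of_local (h : ∀ y ∈ Y, ∃ O : Set V, IsOpen O ∧ y ∈ O ∧ MorOn (Y ∩ O) f) :
    MorOn Y f := by
  intro ρ A φ hφ hm
  refine Reg.of_local fun y₀ hy => ?_
  obtain ⟨O, hO, h1, h2⟩ := h _ (hm hy)
  obtain ⟨p, hp, h3⟩ := hφ.exists_bas hO hy h1
  exact ⟨p, hp, h2 ρ _ φ (hφ.mono (bas_subset A p)) fun y hy => ⟨hm hy.1, h3 y hy⟩⟩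

theorem FMorOn.of_local (h : ∀ y ∈ Y, ∃ O : Set V, IsOpen O ∧ y ∈ O ∧ FMorOn (Y ∩ O) u) :
    FMorOn Y u :=
  fmorOn_iff_morOn.2 (MorOn.of_local fun y hy =>
    (h y hy).imp fun _ hO => ⟨hO.1, hO.2.1, fmorOn_iff_morOn.1 hO.2.2⟩)

theorem MorOn.exists_closed (h : MorOn Y f) (h' : MorOn Y g) :
    ∃ C : Set V, IsClosed C ∧ ∀ y ∈ Y, y ∈ C ↔ f y = g y := by
  rcases isEmpty_or_nonempty V with _ | _
  · exact ⟨∅, isClosed_empty, fun y => isEmptyElim y⟩
  obtain ⟨O, hO, e⟩ := exists_open_of_cone (Y := Y) (E := {x | f x ≠ g x}) fun y₀ hy hE =>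
    (GMor.reg_cone h).exists_ne (GMor.reg_cone h') hy hE
  refine ⟨Oᶜ, hO.isClosed_compl, fun y hy => ?_⟩
  have e1 : f y ≠ g y ↔ y ∈ O := by
    have := Set.ext_iff.1 e y
    simpa only [Set.mem_inter_iff, hy, true_and, Set.mem_ofPred_eq] using this
  rw [Set.mem_compl_iff, ← e1, not_not]

theorem Mor.isClosed_eq (h : Mor f) (h' : Mor g) : IsClosed {x | f x = g x} := by
  obtain ⟨C, hC, e⟩ := (mor_iff.1 h).exists_closed (mor_iff.1 h')
  have : {x | f x = g x} = C := Set.ext fun x => (e x (Set.mem_univ x)).symm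
  rwa [this]

theorem FMor.isClosed_eq (h : FMor u) (h' : FMor v) : IsClosed {x | u x = v x} := by
  have := (fmor_iff_mor.1 h).isClosed_eq (fmor_iff_mor.1 h')
  simpa only [oneP_injective.eq_iff] using this

/-- Morphisms on an open set that agree on a smaller nonempty open set agree. -/
theorem MorOn.eqOn [IrreducibleSpace V] (hY : IsOpen Y) (h : MorOn Y f) (h' : MorOn Y g)
    {O : Set V} (hO : IsOpen O) (hne : O.Nonempty) (he : ∀ y ∈ Y, y ∈ O → f y = g y) :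
    ∀ y ∈ Y, f y = g y := by
  obtain ⟨C, hC, e⟩ := h.exists_closed h'
  intro y hy
  by_contra hn
  obtain ⟨z, ⟨h1, h2⟩, h3⟩ := nonempty_preirreducible_inter (hY.inter hC.isOpen_compl) hO
    ⟨y, hy, fun h0 => hn ((e y hy).1 h0)⟩ hne
  exact h2 ((e z h1).2 (he z h1 h3))

theorem FMorOn.eqOn [IrreducibleSpace V] (hY : IsOpen Y) (h : FMorOn Y u) (h' : FMorOn Y v)
    {O : Set V} (hO : IsOpen O) (hne : O.Nonempty) (he : ∀ y ∈ Y, y ∈ O → u y = v y) :
    ∀ y ∈ Y, u y = v y := fun y hy =>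
  oneP_injective ((fmorOn_iff_morOn.1 h).eqOn hY (fmorOn_iff_morOn.1 h') hO hne
    (fun z h1 h2 => congrArg oneP (he z h1 h2)) y hy)

theorem FMorOn.isOpen_ne (hY : IsOpen Y) (h : FMorOn Y u) : IsOpen {y | y ∈ Y ∧ u y ≠ 0} := by
  obtain ⟨C, hC, e⟩ := (fmorOn_iff_morOn.1 h).exists_closed ((mor_const (oneP 0)).morOn Y)
  have : {y | y ∈ Y ∧ u y ≠ 0} = Y ∩ Cᶜ := Set.ext fun y => and_congr_right fun hy => by
    rw [Set.mem_compl_iff, e y hy, oneP_injective.eq_iff]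
  rw [this]
  exact hY.inter hC.isOpen_compl

theorem FMor.const_of_finite [IrreducibleSpace V] (h : FMor u) {S : Set ℂ} (hS : S.Finite)
    (hm : ∀ x, u x ∈ S) (x y : V) : u x = u y := by
  have hc : ∀ s : ℂ, IsClosed {z | u z = s} := fun s =>
    h.isClosed_eq (v := fun _ => s) fun _ A _ _ => freg_const A s
  have h1 : {z | u z = u y}ᶜ = ⋃ s ∈ S \ {u y}, {z | u z = s} := by
    ext z
    simp only [Set.mem_compl_iff, Set.mem_ofPred_eq, Set.mem_iUnion, Set.mem_sdiff,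
      Set.mem_singleton_iff]
    exact ⟨fun hz => ⟨u z, ⟨hm z, hz⟩, rfl⟩, fun ⟨s, hs, e⟩ => e ▸ hs.2⟩
  have h2 : IsClopen {z | u z = u y} :=
    ⟨hc _, isClosed_compl_iff.1 (h1 ▸ hS.sdiff.isClosed_biUnion fun s _ => hc s)⟩
  exact (Set.eq_univ_iff_forall.1 (h2.eq_univ ⟨y, rfl⟩)) x

theorem fmorOn_ratio {e : ℕ} {a b : MvPolynomial (QP.σ V) ℂ} (ha : a.IsHomogeneous e)
    (hb : b.IsHomogeneous e) :
    FMorOn {x : V | eval (rp x) b ≠ 0} fun x => eval (rp x) a / eval (rp x) b :=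
  fun _ _ _ hφ hm => PReg.ratio hφ ha hb fun _ hy => hm hy

theorem FMorOn.exists_ratio (h : FMorOn Y u) {x : V} (hx : x ∈ Y) :
    ∃ (e : ℕ) (a b : MvPolynomial (QP.σ V) ℂ), a.IsHomogeneous e ∧ b.IsHomogeneous e ∧
      eval (rp x) b ≠ 0 ∧ ∀ y ∈ Y, eval (rp y) b * u y = eval (rp y) a := by
  have : Nonempty V := ⟨x⟩
  obtain ⟨a, b, hb, e⟩ := h _ _ _ (reg_taut Y) (fun _ hy => taut_mem hy) _ (rp_mem_cone hx)
  obtain ⟨k, hk⟩ := GMor.exists_comp_ne hb
  refine ⟨k, homogeneousComponent k a, _, homogeneousComponent_isHomogeneous k a,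
    homogeneousComponent_isHomogeneous k b, hk, fun y hy => ?_⟩
  have h1 := GMor.comp_eq (p := b) (q := a) (w := rp y) (s := u y) (t := 1) k fun c hc => by
    have h2 := e _ (smul_mem_cone hy hc)
    beta_reduce at h2
    rw [taut_smul _ hc] at h2
    rw [one_mul, mul_comm, h2]
  rw [mul_comm, h1, one_mul]

theorem fmorOn_of_ratio (h : ∀ x ∈ Y, ∃ (e : ℕ) (a b : MvPolynomial (QP.σ V) ℂ),
    a.IsHomogeneous e ∧ b.IsHomogeneous e ∧ eval (rp x) b ≠ 0 ∧
      ∀ y ∈ Y, eval (rp y) b * u y = eval (rp y) a) : FMorOn Y u := by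
  refine FMorOn.of_local fun x hx => ?_
  obtain ⟨e, a, b, ha, hb, h0, h1⟩ := h x hx
  refine ⟨_, isOpen_form hb, h0,
    ((fmorOn_ratio ha hb).mono Set.inter_subset_right).congr fun y hy => ?_⟩
  rw [eq_div_iff hy.2, mul_comm, h1 y hy.1]

theorem MorOn.exists_forms (h : MorOn Y f) {x : V} (hx : x ∈ Y) :
    ∃ (e : ℕ) (F : QP.σ W → MvPolynomial (QP.σ V) ℂ), (∀ i, (F i).IsHomogeneous e) ∧
      evv (rp x) F ≠ 0 ∧ ∀ y ∈ Y, ∃ c : ℂ, evv (rp y) F = c • rp (f y) := by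
  have : Nonempty V := ⟨x⟩
  obtain ⟨F, h0, e⟩ := GMor.reg_cone h _ (rp_mem_cone hx)
  obtain ⟨i, hi⟩ := Function.ne_iff.1 h0
  obtain ⟨k, hk⟩ := GMor.exists_comp_ne hi
  refine ⟨k, fun j => homogeneousComponent k (F j),
    fun j => homogeneousComponent_isHomogeneous k _, Function.ne_iff.2 ⟨i, hk⟩, fun y hy => ?_⟩
  obtain ⟨l, hl⟩ := Function.ne_iff.1 (rp_ne_zero (f y))
  refine ⟨eval (rp y) (homogeneousComponent k (F l)) / rp (f y) l, funext fun j => ?_⟩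
  have h1 := GMor.comp_eq (p := F j) (q := F l) (w := rp y) (s := rp (f y) l) (t := rp (f y) j) k
    fun c hc => by
      obtain ⟨d, h2⟩ := e _ (smul_mem_cone hy hc)
      beta_reduce at h2
      rw [taut_smul _ hc] at h2
      have h3 : ∀ j, eval (c • rp y) (F j) = d * rp (f y) j := fun j => congrFun h2 j
      rw [h3, h3]
      ring
  rw [evv_apply, Pi.smul_apply, smul_eq_mul, div_mul_eq_mul_div, eq_div_iff hl, mul_comm, h1,
    mul_comm]

theorem morOn_of_forms (h : ∀ x ∈ Y, ∃ (e : ℕ) (F : QP.σ W → MvPolynomial (QP.σ V) ℂ),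
    (∀ i, (F i).IsHomogeneous e) ∧ evv (rp x) F ≠ 0 ∧
      ∀ y ∈ Y, ∃ c : ℂ, evv (rp y) F = c • rp (f y)) : MorOn Y f := by
  rcases isEmpty_or_nonempty V with _ | _
  · exact fun _ _ φ _ _ y => isEmptyElim (φ y)
  refine morOn_of_taut ?_
  rintro _ ⟨x, hx, c, hc, rfl⟩
  obtain ⟨e, F, hF, h0, h1⟩ := h x hx
  refine ⟨F, ?_, ?_⟩
  · rw [GMor.evv_smul hF]
    exact smul_ne_zero (pow_ne_zero e hc) h0
  · rintro _ ⟨y, hy, d, hd, rfl⟩
    obtain ⟨t, ht⟩ := h1 y hy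
    refine ⟨d ^ e * t, ?_⟩
    beta_reduce
    rw [GMor.evv_smul hF, taut_smul _ hd, ht, smul_smul]
    rfl

/-- A map given by a nowhere vanishing vector of regular functions. -/
theorem morOn_mk [Finite σ] {θ : V → PS σ} {w : V → σ → ℂ} (hw : ∀ i, FMorOn Y fun x => w x i)
    (h0 : ∀ x ∈ Y, w x ≠ 0)
    (hθ : ∀ x (hx : x ∈ Y), θ x = Projectivization.mk ℂ (w x) (h0 x hx)) : MorOn Y θ :=
  fun ρ A φ hφ hm => preg_mk (v := fun y => w (φ y)) (fun i => hw i ρ A φ hφ hm)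
    (fun _ hy => h0 _ (hm hy)) fun _ hy => hθ _ (hm hy)

theorem par_of (h : IsLocallyClosed Y) (hi : IsIrreducible Y) : Par Y := by
  have : Nonempty V := ⟨hi.nonempty.some⟩
  exact ⟨_, QP.fin, cone Y, taut V, alc_cone h, airr_cone hi, reg_taut Y, (image_taut Y).symm⟩

theorem Par.isIrreducible (h : Par Y) : IsIrreducible Y := by
  obtain ⟨ρ, _, A, φ, -, hI, hφ, rfl⟩ := h
  exact hφ.isIrreducible_image hI

theorem Par.image (h : Par Y) (hf : Mor f) : Par (f '' Y) := by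
  obtain ⟨ρ, hρ, A, φ, hA, hI, hφ, rfl⟩ := h
  exact ⟨ρ, hρ, A, fun y => f (φ y), hA, hI, hf ρ A φ hφ, Set.image_image _ _ _⟩

theorem Par.image₂ {Y' : Set W} {m : V → W → U} (h : Par Y) (h' : Par Y') (hm : Mor₂ m) :
    Par (Set.image2 m Y Y') := by
  obtain ⟨ρ, hρ, A, φ, hA, hI, hφ, rfl⟩ := h
  obtain ⟨ρ', hρ', A', φ', hA', hI', hφ', rfl⟩ := h'
  refine ⟨ρ ⊕ ρ', inferInstance, aprod A A', fun z => m (φ (z ∘ Sum.inl)) (φ' (z ∘ Sum.inr)),
    hA.prod hA', hI.prod hI', hm _ _ _ _ (hφ.comp (amor_comp _ _) fun _ hz => hz.1)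
      (hφ'.comp (amor_comp _ _) fun _ hz => hz.2), ?_⟩
  ext t
  constructor
  · rintro ⟨_, ⟨a, ha, rfl⟩, _, ⟨b, hb, rfl⟩, rfl⟩
    exact ⟨Sum.elim a b, elim_mem_aprod.2 ⟨ha, hb⟩, rfl⟩
  · rintro ⟨z, hz, rfl⟩
    exact ⟨_, ⟨_, hz.1, rfl⟩, _, ⟨_, hz.2, rfl⟩, rfl⟩

theorem par_singleton (x : V) : Par ({x} : Set V) :=
  ⟨Unit, inferInstance, Set.univ, fun _ => x, alc_univ, airr_univ, reg_const _ x,
    (Set.univ_nonempty.image_const x).symm⟩

end Kol68
end

-- merged part: Pool.Agent.Work.MP_c53807_ag.GCh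
section
/-!
Generic openness and images of irreducible sets.
-/

open MvPolynomial Topology

namespace Kol68

namespace GCh

/-- Generic openness for an injective map of finite type between domains. -/
theorem gen_open (B R : Type) [CommRing B] [IsDomain B] [CommRing R] [IsDomain R] [Algebra B R]
    [CharZero B] [IsNoetherianRing B] [Algebra.FiniteType B R] [FaithfulSMul B R] :
    ∃ r : R, r ≠ 0 ∧ ∀ s : R, IsOpen (PrimeSpectrum.comap (algebraMap B R) ''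
      (PrimeSpectrum.basicOpen (r * s) : Set (PrimeSpectrum R))) := by
  have fp : Algebra.FinitePresentation B R :=
    Algebra.FinitePresentation.of_finiteType.mp inferInstance
  have sm : Algebra.IsSmoothAt B (⊥ : Ideal R) := by
    let L := Localization.AtPrime (⊥ : Ideal R)
    have hL : IsFractionRing R L := by
      have e : (⊥ : Ideal R).primeCompl = nonZeroDivisors R := Ideal.primeCompl_bot
      change IsLocalization (nonZeroDivisors R) L
      rw [← e]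
      exact Localization.isLocalization
    let : Field L := IsFractionRing.toField R
    have inj : Function.Injective (algebraMap B L) := by
      rw [IsScalarTower.algebraMap_eq B R L]
      exact (IsFractionRing.injective R L).comp (FaithfulSMul.algebraMap_injective B R)
    have : FaithfulSMul B L := (faithfulSMul_iff_algebraMap_injective B L).2 inj
    let : Algebra (FractionRing B) L := FractionRing.liftAlgebra B L
    have : IsScalarTower B (FractionRing B) L := FractionRing.isScalarTower_liftAlgebra B L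
    have : Algebra.EssFiniteType B L := Algebra.EssFiniteType.comp B R L
    have : Algebra.EssFiniteType (FractionRing B) L := Algebra.EssFiniteType.of_comp B _ L
    have h1 : Algebra.FormallySmooth (FractionRing B) L := Algebra.FormallySmooth.of_perfectField
    have h2 : Algebra.FormallySmooth B (FractionRing B) :=
      Algebra.FormallySmooth.of_isLocalization (nonZeroDivisors B)
    exact Algebra.FormallySmooth.comp B (FractionRing B) L
  obtain ⟨r, hr, hs⟩ := Algebra.IsSmoothAt.exists_notMem_smooth B (⊥ : Ideal R)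
  refine ⟨r, by simpa using hr, fun s => ?_⟩
  have ho := PrimeSpectrum.isOpenMap_comap_of_hasGoingDown_of_finitePresentation
    (R := B) (S := Localization.Away r)
  have h1 := ho _ (PrimeSpectrum.basicOpen (algebraMap R (Localization.Away r) s)).isOpen
  convert h1 using 1
  rw [IsScalarTower.algebraMap_eq B R (Localization.Away r), PrimeSpectrum.comap_comp,
    Set.image_comp]
  congr 1
  have h2 : (PrimeSpectrum.basicOpen (algebraMap R (Localization.Away r) s) :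
      Set (PrimeSpectrum (Localization.Away r))) =
      PrimeSpectrum.comap (algebraMap R (Localization.Away r)) ⁻¹'
        (PrimeSpectrum.basicOpen s : Set (PrimeSpectrum R)) := rfl
  rw [h2, Set.image_preimage_eq_inter_range,
    PrimeSpectrum.localization_away_comap_range (Localization.Away r) r,
    PrimeSpectrum.basicOpen_mul, Set.inter_comm]
  rfl

/-- Generic openness on complex points. -/
theorem gen_pts {σ τ : Type} [Finite σ] [Finite τ] (I : Ideal (MvPolynomial τ ℂ)) [I.IsPrime]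
    (G : σ → MvPolynomial τ ℂ) : ∃ r, r ∉ I ∧ ∀ (s : MvPolynomial τ ℂ) (z : τ → ℂ),
      (∀ f ∈ I, eval z f = 0) → eval z (r * s) ≠ 0 → ∃ b, eval (evv z G) b ≠ 0 ∧
        ∀ w, (∀ f, aeval G f ∈ I → eval w f = 0) → eval w b ≠ 0 →
          ∃ z', (∀ f ∈ I, eval z' f = 0) ∧ eval z' (r * s) ≠ 0 ∧ evv z' G = w := by
  let R := MvPolynomial τ ℂ ⧸ I
  let θ : MvPolynomial σ ℂ →ₐ[ℂ] R := (Ideal.Quotient.mkₐ ℂ I).comp (aeval G)
  let B := θ.range
  have ftB : Algebra.FiniteType ℂ B :=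
    Algebra.FiniteType.of_surjective θ.rangeRestrict θ.rangeRestrict_surjective
  have nB : IsNoetherianRing B := Algebra.FiniteType.isNoetherianRing ℂ B
  have ftR : Algebra.FiniteType B R := Algebra.FiniteType.of_restrictScalars_finiteType ℂ B R
  have cz : CharZero B := algebraRat.charZero B
  obtain ⟨r', hr', ho⟩ := gen_open B R
  obtain ⟨r, rfl⟩ := Ideal.Quotient.mk_surjective r'
  refine ⟨r, fun h => hr' (Ideal.Quotient.eq_zero_iff_mem.2 h), fun s z hz hrs => ?_⟩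
  have ev : ∀ (z : τ → ℂ) (f : MvPolynomial σ ℂ), eval z (aeval G f) = eval (evv z G) f := by
    intro z f
    rw [← aeval_eq_eval, ← aeval_eq_eval, ← AlgHom.comp_apply, comp_aeval]
    rfl
  let ez : R →+* ℂ := Ideal.Quotient.lift I (eval z) hz
  let Q : PrimeSpectrum R := ⟨RingHom.ker ez, RingHom.ker_isPrime _⟩
  have hQ : Q ∈ (PrimeSpectrum.basicOpen (Ideal.Quotient.mk I r * Ideal.Quotient.mk I s) :
      Set (PrimeSpectrum R)) := by
    change ¬ ez (Ideal.Quotient.mk I r * Ideal.Quotient.mk I s) = 0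
    rw [← map_mul]
    exact hrs
  obtain ⟨_, ⟨_, ⟨b', rfl⟩, rfl⟩, hb1, hb2⟩ :=
    PrimeSpectrum.isBasis_basic_opens.exists_subset_of_mem_open (Set.mem_image_of_mem _ hQ)
      (ho (Ideal.Quotient.mk I s))
  obtain ⟨b, rfl⟩ := θ.rangeRestrict_surjective b'
  refine ⟨b, ?_, fun w hw hb => ?_⟩
  · rw [← ev]
    exact hb1
  · have hk : RingHom.ker (θ.rangeRestrict : MvPolynomial σ ℂ →+* B) ≤ RingHom.ker (eval w) := by
      intro f hf
      refine hw f (Ideal.Quotient.eq_zero_iff_mem.1 ?_)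
      exact congrArg Subtype.val hf
    let ew : B →+* ℂ := (θ.rangeRestrict : MvPolynomial σ ℂ →+* B).liftOfSurjective
      θ.rangeRestrict_surjective ⟨eval w, hk⟩
    have hew : ∀ f, ew (θ.rangeRestrict f) = eval w f := fun f =>
      RingHom.liftOfSurjective_comp_apply _ _ _ f
    let P : PrimeSpectrum B := ⟨RingHom.ker ew, RingHom.ker_isPrime _⟩
    have hP : P ∈ (PrimeSpectrum.basicOpen (θ.rangeRestrict b) : Set (PrimeSpectrum B)) := by
      change ¬ ew (θ.rangeRestrict b) = 0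
      rw [hew]
      exact hb
    obtain ⟨Q', hQ', e⟩ := hb2 hP
    let J : Ideal (MvPolynomial τ ℂ) := Q'.asIdeal.comap (Ideal.Quotient.mk I)
    have hJ : J.IsPrime := Ideal.comap_isPrime _ _
    have h1 : r * s ∉ vanishingIdeal ℂ (zeroLocus ℂ J) := by
      rw [IsPrime.vanishingIdeal_zeroLocus]
      intro h
      exact hQ' (by simpa [J] using h)
    rw [mem_vanishingIdeal_iff] at h1
    push Not at h1
    obtain ⟨z', hz', h2⟩ := h1
    rw [mem_zeroLocus_iff] at hz'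
    refine ⟨z', fun f hf => hz' f ?_, h2, funext fun i => ?_⟩
    · change Ideal.Quotient.mk I f ∈ Q'.asIdeal
      rw [Ideal.Quotient.eq_zero_iff_mem.2 hf]
      exact zero_mem _
    · have h3 : θ.rangeRestrict (X i - C (w i)) ∈ P.asIdeal := by
        change ew _ = 0
        rw [hew]
        simp
      rw [← e] at h3
      have h4 : aeval G (X i - C (w i) : MvPolynomial σ ℂ) ∈ J := h3
      have h5 := hz' _ h4
      simp only [map_sub, aeval_X, aeval_C, algebraMap_eq, Algebra.algebraMap_self,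
        RingHom.id_apply] at h5
      exact sub_eq_zero.1 h5

end GCh

variable {ρ : Type} {V : Type} [TopologicalSpace V] [QP V]

/-- A regular map is open onto the closure of its image on a dense open part of the source. -/
theorem Reg.generic_open [Finite ρ] {A : Set (ρ → ℂ)} {φ : (ρ → ℂ) → V} (hA : ALC A)
    (hI : AIrr A) (h : Reg A φ) : ∃ p : MvPolynomial ρ ℂ, (∃ y ∈ A, eval y p ≠ 0) ∧
      ∀ q, ∃ O : Set V, IsOpen O ∧ φ '' bas A (p * q) = O ∩ closure (φ '' A) := by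
  obtain ⟨y0, hy0⟩ := hI.1
  obtain ⟨F, p0, hp0, hF⟩ := h.lift hy0
  obtain ⟨q0, hq0, hAq⟩ := hA.exists_bas hy0
  let A' : Set (Unit ⊕ ρ → ℂ) := aprod Set.univ A
  have hI' : AIrr A' := airr_univ.prod hI
  have hP := hI'.isPrime
  let G : QP.σ V → MvPolynomial (Unit ⊕ ρ) ℂ := fun i => X (Sum.inl ()) * rename Sum.inr (F i)
  have evG : ∀ z : Unit ⊕ ρ → ℂ, evv z G = z (Sum.inl ()) • evv (z ∘ Sum.inr) F := by
    intro z
    funext i
    simp [G, eval_rename]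
  have ev : ∀ (z : Unit ⊕ ρ → ℂ) (f : MvPolynomial (QP.σ V) ℂ),
      eval z (aeval G f) = eval (evv z G) f := by
    intro z f
    rw [← aeval_eq_eval, ← aeval_eq_eval, ← AlgHom.comp_apply, comp_aeval]
    rfl
  obtain ⟨r, hr, hpts⟩ := GCh.gen_pts (vanishingIdeal ℂ A') G
  obtain ⟨z0, hz0, hz0'⟩ : ∃ z ∈ A', eval z (r * X (Sum.inl ())) ≠ 0 := by
    refine hI'.mul_ne ?_ ⟨Sum.elim (fun _ => 1) y0, ⟨trivial, hy0⟩, by simp⟩
    by_contra hc
    push Not at hc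
    exact hr hc
  rw [map_mul, eval_X] at hz0'
  set c0 := z0 (Sum.inl ()) with hc0
  have c0ne : c0 ≠ 0 := right_ne_zero_of_mul hz0'
  let p1 : MvPolynomial ρ ℂ := aeval (Sum.elim (fun _ => C c0) X) r
  have hp1 : ∀ y, eval y p1 = eval (Sum.elim (fun _ => c0) y) r := by
    intro y
    rw [← aeval_eq_eval, ← aeval_eq_eval, ← AlgHom.comp_apply, comp_aeval]
    congr 2
    funext i
    cases i <;> simp
  have hp1' : ∃ y ∈ A, eval y p1 ≠ 0 := by
    refine ⟨z0 ∘ Sum.inr, hz0.2, ?_⟩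
    rw [hp1]
    have : Sum.elim (fun _ => c0) (z0 ∘ Sum.inr) = z0 := by
      funext i
      cases i <;> rfl
    rw [this]
    exact left_ne_zero_of_mul hz0'
  -- polynomials in the kernel vanish on the lines over the closure of the image
  have hker : ∀ f, aeval G f ∈ vanishingIdeal ℂ A' → ∀ v ∈ closure (φ '' A), ∀ c : ℂ,
      eval (c • rp v) f = 0 := by
    intro f hf
    have hcl : IsClosed {v : V | ∀ c : ℂ, eval (c • rp v) f = 0} := by
      have : IsClosed {x : PS (QP.σ V) | ∀ c : ℂ, eval (c • x.rep) f = 0} :=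
        isClosed_ps_iff.2 ⟨{f}, fun x => by simp⟩
      exact this.preimage QP.emb.continuous
    refine fun v hv => closure_minimal ?_ hcl hv
    rintro _ ⟨y, hy, rfl⟩
    by_contra hne
    obtain ⟨p', hp', hb⟩ := h.exists_bas hcl.isOpen_compl hy hne
    obtain ⟨y', hy', he⟩ := hI.mul_ne ⟨y, hy, hp'⟩ ⟨y0, hy0, hp0⟩
    rw [map_mul] at he
    refine hb y' ⟨hy', left_ne_zero_of_mul he⟩ fun c => ?_
    obtain ⟨c1, hc1, e⟩ := hF y' ⟨hy', right_ne_zero_of_mul he⟩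
    have h1 : eval (Sum.elim (fun _ => c / c1) y') (aeval G f) = 0 :=
      hf (Sum.elim (fun _ => c / c1) y') ⟨trivial, hy'⟩
    rw [ev, evG] at h1
    have h2 : (Sum.elim (fun _ : Unit => c / c1) y' ∘ Sum.inr) = y' := rfl
    rw [h2, e, smul_smul, Sum.elim_inl, div_mul_cancel₀ _ hc1] at h1
    exact h1
  refine ⟨p0 * q0 * p1, hI.mul_ne (hI.mul_ne ⟨y0, hy0, hp0⟩ ⟨y0, hy0, hq0⟩) hp1', fun q => ?_⟩
  have key : ∀ v ∈ φ '' bas A (p0 * q0 * p1 * q), ∃ O : Set V, IsOpen O ∧ v ∈ O ∧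
      O ∩ closure (φ '' A) ⊆ φ '' bas A (p0 * q0 * p1 * q) := by
    rintro _ ⟨y1, ⟨hy1, he1⟩, rfl⟩
    have he1' := he1
    simp only [map_mul, mul_ne_zero_iff] at he1'
    obtain ⟨⟨⟨e1, e2⟩, e3⟩, e4⟩ := he1'
    obtain ⟨b, hb1, hb2⟩ := hpts (rename Sum.inr (p0 * q0 * p1 * q)) (Sum.elim (fun _ => c0) y1)
      (fun f hf => hf _ ⟨trivial, hy1⟩) (by
        rw [map_mul, ← hp1, eval_rename]
        exact mul_ne_zero e3 he1)
    obtain ⟨c1, hc1, e⟩ := hF y1 ⟨hy1, e1⟩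
    have h2 : (Sum.elim (fun _ : Unit => c0) y1 ∘ Sum.inr) = y1 := rfl
    rw [evG, h2, e, smul_smul] at hb1
    obtain ⟨k, hk⟩ : ∃ k, eval (rp (φ y1)) (homogeneousComponent k b) ≠ 0 := by
      by_contra hc
      push Not at hc
      apply hb1
      rw [← sum_homogeneousComponent b, map_sum]
      refine Finset.sum_eq_zero fun k _ => ?_
      rw [eval_smul_hom (homogeneousComponent_isHomogeneous k b), hc, mul_zero]
    refine ⟨_, isOpen_form (homogeneousComponent_isHomogeneous k b), hk, ?_⟩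
    rintro v ⟨hv1, hv2⟩
    obtain ⟨c', hc', hcb⟩ : ∃ c' : ℂ, c' ≠ 0 ∧ eval (c' • rp v) b ≠ 0 := by
      by_contra hc
      push Not at hc
      exact hv1 (eval_homogeneousComponent b k (rp v) 0 fun c h0 => by rw [hc c h0, mul_zero])
    obtain ⟨z', hz1, hz2, hz3⟩ := hb2 (c' • rp v) (fun f hf => hker f hf v hv2 c') hcb
    rw [map_mul, eval_rename] at hz2
    have hz4 := right_ne_zero_of_mul hz2
    have hz5 := hz4
    simp only [map_mul, mul_ne_zero_iff] at hz5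
    have hyA : z' ∘ Sum.inr ∈ A := by
      refine hAq _ (fun p hp => ?_) hz5.1.1.2
      rw [← eval_rename]
      refine hz1 _ fun z hz => ?_
      rw [aeval_eq_eval, eval_rename]
      exact hp _ hz.2
    obtain ⟨c2, hc2, e'⟩ := hF _ ⟨hyA, hz5.1.1.1⟩
    rw [evG, e', smul_smul] at hz3
    refine ⟨z' ∘ Sum.inr, ⟨hyA, hz4⟩, (eq_of_rp_smul (c := c'⁻¹ * (z' (Sum.inl ()) * c2)) ?_).symm⟩
    rw [← smul_smul, hz3, smul_smul, inv_mul_cancel₀ hc', one_smul]
  choose! O hO1 hO2 hO3 using key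
  refine ⟨⋃ v ∈ φ '' bas A (p0 * q0 * p1 * q), O v, isOpen_biUnion hO1, ?_⟩
  refine Set.Subset.antisymm (fun v hv => ⟨Set.mem_biUnion hv (hO2 v hv), ?_⟩) ?_
  · exact subset_closure (Set.image_mono (bas_subset _ _) hv)
  · rintro v ⟨hv1, hv2⟩
    obtain ⟨u, hu, hv⟩ := Set.mem_iUnion₂.1 hv1
    exact hO3 u hu ⟨hv, hv2⟩

theorem Par.exists_open {Y : Set V} (h : Par Y) :
    ∃ O : Set V, IsOpen O ∧ (O ∩ Y).Nonempty ∧ O ∩ closure Y ⊆ Y := by
  obtain ⟨ρ, _, A, φ, hA, hI, hφ, rfl⟩ := h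
  obtain ⟨p, ⟨y, hy, hp⟩, h⟩ := hφ.generic_open hA hI
  obtain ⟨O, hO, e⟩ := h 1
  have hy' : φ y ∈ φ '' bas A (p * 1) := ⟨y, ⟨hy, by simpa using hp⟩, rfl⟩
  refine ⟨O, hO, ⟨φ y, (e ▸ hy').1, y, hy, rfl⟩, ?_⟩
  rw [← e]
  exact Set.image_mono (bas_subset _ _)

end Kol68
end

-- merged part: Pool.Agent.Work.MP_c53807_ag.CurveA
section
/-!
Projective normality in large degree for an injective immersion of the projective line.
-/

open Polynomial

namespace Kol68.CurveAux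

/-- Value at a point of the projective line of a binary form of degree `n`, written as a
polynomial of degree at most `n`. -/
noncomputable def ev (p : Option ℂ) (n : ℕ) : ℂ[X] →ₗ[ℂ] ℂ :=
  match p with
  | some a => leval a
  | none => lcoeff ℂ n

/-- The linear form vanishing at a point. -/
noncomputable def lin : Option ℂ → ℂ[X]
  | some a => X - C a
  | none => 1

@[simp] theorem ev_some (a : ℂ) (n : ℕ) (g : ℂ[X]) : ev (some a) n g = g.eval a := by
  simp [ev]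

@[simp] theorem ev_none (n : ℕ) (g : ℂ[X]) : ev none n g = g.coeff n := by
  simp [ev]

theorem ev_mul (p : Option ℂ) {m n : ℕ} {g h : ℂ[X]} (hg : g.natDegree ≤ m)
    (hh : h.natDegree ≤ n) : ev p (m + n) (g * h) = ev p m g * ev p n h := by
  cases p with
  | some a => simp
  | none => simp [coeff_mul_add_eq_of_natDegree_le hg hh]

theorem lin_deg (p : Option ℂ) : (lin p).natDegree ≤ 1 := by
  cases p with
  | some a => simp [lin]
  | none => simp [lin]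

theorem exists_div (p : Option ℂ) {n : ℕ} {g : ℂ[X]} (hg : g.natDegree ≤ n + 1)
    (h : ev p (n + 1) g = 0) : ∃ g' : ℂ[X], g'.natDegree ≤ n ∧ g = lin p * g' := by
  cases p with
  | some a =>
    have h1 : IsRoot g a := by simpa using h
    obtain ⟨g', rfl⟩ := dvd_iff_isRoot.2 h1
    refine ⟨g', ?_, rfl⟩
    by_cases h0 : g' = 0
    · simp [h0]
    · rw [natDegree_mul (X_sub_C_ne_zero a) h0, natDegree_X_sub_C] at hg
      omega
  | none =>
    refine ⟨g, ?_, by simp [lin]⟩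
    rw [natDegree_le_iff_coeff_eq_zero] at hg ⊢
    intro k hk
    rcases Nat.lt_or_ge (n + 1) k with h1 | h1
    · exact hg k h1
    · have : k = n + 1 := by omega
      subst this
      simpa using h

theorem exists_factor (n : ℕ) : ∀ g : ℂ[X], g.natDegree ≤ n →
    ∃ (c : ℂ) (L : List (Option ℂ)), L.length = n ∧ g = C c * (L.map lin).prod := by
  induction n with
  | zero =>
    intro g hg
    exact ⟨g.coeff 0, [], rfl, by simpa using eq_C_of_natDegree_le_zero hg⟩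
  | succ n ih =>
    intro g hg
    obtain ⟨p, hp⟩ : ∃ p, ev p (n + 1) g = 0 := by
      by_cases h : g.coeff (n + 1) = 0
      · exact ⟨none, by simpa using h⟩
      · have h1 : n + 1 ≤ g.natDegree := le_natDegree_of_ne_zero h
        have h2 : g.degree ≠ 0 := by
          intro h3
          have := natDegree_eq_zero_iff_degree_le_zero.2 h3.le
          omega
        obtain ⟨a, ha⟩ := IsAlgClosed.exists_root g h2
        exact ⟨some a, by simpa using ha⟩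
    obtain ⟨g', hg', rfl⟩ := exists_div p hg hp
    obtain ⟨c, L, hL, rfl⟩ := ih g' hg'
    exact ⟨c, p :: L, by simp [hL], by simp; ring⟩

theorem exists_dual {N : ℕ} {u v : Fin N → ℂ} (h : ∀ c : ℂ, v ≠ c • u) :
    ∃ l : Fin N → ℂ, ∑ i, l i * u i = 0 ∧ ∑ i, l i * v i ≠ 0 := by
  have h1 : v ∉ Submodule.span ℂ {u} := by
    rw [Submodule.mem_span_singleton]
    rintro ⟨c, hc⟩
    exact h c hc.symm
  obtain ⟨f, hf, hf'⟩ := Submodule.exists_dual_map_eq_bot_of_notMem h1 inferInstance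
  have h2 : ∀ w : Fin N → ℂ, ∑ i, f (Pi.single i 1) * w i = f w := by
    intro w
    conv_rhs => rw [← Finset.univ_sum_single w]
    rw [map_sum]
    refine Finset.sum_congr rfl fun i _ => ?_
    have : (Pi.single i (w i) : Fin N → ℂ) = w i • Pi.single i 1 := by
      rw [← Pi.single_smul]; simp
    rw [this, map_smul, smul_eq_mul, mul_comm]
  refine ⟨fun i => f (Pi.single i 1), ?_, ?_⟩
  · rw [h2]
    have : f u ∈ (Submodule.span ℂ {u}).map f :=
      Submodule.mem_map_of_mem (Submodule.mem_span_singleton_self u)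
    rw [hf'] at this
    simpa using this
  · rw [h2]; exact hf

variable {N : ℕ}

/-- Pull-backs of forms of degree `d`. -/
noncomputable def P (F : Fin N → ℂ[X]) (d : ℕ) : Submodule ℂ ℂ[X] :=
  (MvPolynomial.homogeneousSubmodule (Fin N) ℂ d).map (MvPolynomial.aeval F).toLinearMap

theorem mem_P {F : Fin N → ℂ[X]} {d : ℕ} {g : ℂ[X]} :
    g ∈ P F d ↔ ∃ A : MvPolynomial (Fin N) ℂ, A.IsHomogeneous d ∧ MvPolynomial.aeval F A = g :=
  Iff.rfl

theorem P_mul {F : Fin N → ℂ[X]} {d d' : ℕ} {g g' : ℂ[X]} (h : g ∈ P F d) (h' : g' ∈ P F d') :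
    g * g' ∈ P F (d + d') := by
  obtain ⟨A, hA, rfl⟩ := mem_P.1 h
  obtain ⟨A', hA', rfl⟩ := mem_P.1 h'
  exact mem_P.2 ⟨A * A', hA.mul hA', map_mul _ _ _⟩

theorem P_one (F : Fin N → ℂ[X]) : (1 : ℂ[X]) ∈ P F 0 :=
  mem_P.2 ⟨1, MvPolynomial.isHomogeneous_one _ _, map_one _⟩

theorem P_lin (F : Fin N → ℂ[X]) (l : Fin N → ℂ) : ∑ i, l i • F i ∈ P F 1 :=
  Submodule.sum_mem _ fun i _ => Submodule.smul_mem _ _
    (mem_P.2 ⟨MvPolynomial.X i, MvPolynomial.isHomogeneous_X _ _, by simp⟩)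

theorem ev_aeval {F : Fin N → ℂ[X]} {e : ℕ} (hdeg : ∀ i, (F i).natDegree ≤ e) (p : Option ℂ)
    {d : ℕ} {A : MvPolynomial (Fin N) ℂ} (hA : A.IsHomogeneous d) :
    (MvPolynomial.aeval F A).natDegree ≤ d * e ∧
      ev p (d * e) (MvPolynomial.aeval F A) = MvPolynomial.eval (fun i => ev p e (F i)) A := by
  have h1 : A ∈ (MvPolynomial.homogeneousSubmodule (Fin N) ℂ 1) ^ d := by
    rw [MvPolynomial.homogeneousSubmodule_one_pow]; exact hA
  clear hA
  induction h1 using Submodule.pow_induction_on_left' with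
  | algebraMap r =>
    refine ⟨by simp, ?_⟩
    cases p <;> simp
  | add x y i _ _ hx hy =>
    refine ⟨?_, by simp only [map_add, hx.2, hy.2]⟩
    rw [map_add]
    exact natDegree_add_le_of_degree_le hx.1 hy.1
  | mem_mul m hm i x _ hx =>
    have h2 : (MvPolynomial.aeval F m).natDegree ≤ e ∧
        ev p e (MvPolynomial.aeval F m) = MvPolynomial.eval (fun i => ev p e (F i)) m := by
      rw [MvPolynomial.homogeneousSubmodule_one_eq_span_X] at hm
      induction hm using Submodule.span_induction with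
      | mem x hx =>
        obtain ⟨j, rfl⟩ := hx
        simpa using hdeg j
      | zero => simp
      | add x y _ _ hx hy =>
        refine ⟨?_, by simp only [map_add, hx.2, hy.2]⟩
        rw [map_add]
        exact natDegree_add_le_of_degree_le hx.1 hy.1
      | smul a x _ hx =>
        refine ⟨?_, ?_⟩
        · rw [map_smul]; exact (natDegree_smul_le _ _).trans hx.1
        · rw [map_smul, map_smul, hx.2, MvPolynomial.smul_eval, smul_eq_mul]
    have h3 : (i + 1) * e = e + i * e := by ring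
    rw [Nat.succ_eq_add_one, h3, map_mul, ev_mul p h2.1 hx.1, h2.2, hx.2, map_mul]
    exact ⟨natDegree_mul_le_of_le h2.1 hx.1, rfl⟩

theorem P_deg {F : Fin N → ℂ[X]} {e : ℕ} (hdeg : ∀ i, (F i).natDegree ≤ e) {d : ℕ} {g : ℂ[X]}
    (h : g ∈ P F d) : g.natDegree ≤ d * e := by
  obtain ⟨A, hA, rfl⟩ := mem_P.1 h
  exact (ev_aeval hdeg none hA).1

/-- The hypotheses in uniform shape. -/
structure Emb (F : Fin N → ℂ[X]) (e : ℕ) : Prop where
  deg : ∀ i, (F i).natDegree ≤ e + 1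
  nonvan : ∀ p, ∃ w ∈ P F 1, ev p (e + 1) w ≠ 0
  sep : ∀ p q, ∃ w ∈ P F 1, ∃ g : ℂ[X], g.natDegree ≤ e ∧ w = lin q * g ∧ ev p e g ≠ 0

theorem Emb.filt {F : Fin N → ℂ[X]} {e : ℕ} (H : Emb F e) (p : Option ℂ) (d : ℕ) :
    ∀ L : List (Option ℂ), L.length ≤ d → ∃ w ∈ P F d, ∃ (g : ℂ[X]) (n : ℕ),
      n + L.length = d * (e + 1) ∧ g.natDegree ≤ n ∧ w = (L.map lin).prod * g ∧ ev p n g ≠ 0 := by
  induction d with
  | zero =>
    intro L hL
    obtain rfl : L = [] := List.length_eq_zero_iff.1 (by omega)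
    refine ⟨1, P_one F, 1, 0, by simp, by simp, by simp, ?_⟩
    cases p <;> simp
  | succ d ih =>
    intro L hL
    cases L with
    | nil =>
      obtain ⟨w, hw, g, n, hn, hg, hwg, hev⟩ := ih [] (by simp)
      obtain ⟨w', hw', hev'⟩ := H.nonvan p
      have hd : w'.natDegree ≤ e + 1 := by simpa using P_deg H.deg hw'
      refine ⟨w * w', P_mul hw hw', g * w', n + (e + 1), ?_, natDegree_mul_le_of_le hg hd, ?_, ?_⟩
      · simp at hn ⊢; rw [hn]; ring
      · rw [hwg]; simp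
      · rw [ev_mul p hg hd]; exact mul_ne_zero hev hev'
    | cons q L =>
      obtain ⟨w, hw, g, n, hn, hg, hwg, hev⟩ := ih L (by simpa using hL)
      obtain ⟨w', hw', g', hg', hwg', hev'⟩ := H.sep p q
      refine ⟨w * w', P_mul hw hw', g * g', n + e, ?_, natDegree_mul_le_of_le hg hg', ?_, ?_⟩
      · simp only [List.length_cons]; rw [add_mul, ← hn]; ring
      · rw [hwg, hwg']; simp; ring
      · rw [ev_mul p hg hg']; exact mul_ne_zero hev hev'

theorem Emb.surj {F : Fin N → ℂ[X]} {e : ℕ} (H : Emb F e) (d : ℕ) (g : ℂ[X])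
    (hg : g.natDegree ≤ d * (e + 1)) (L : List (Option ℂ)) :
    ∀ n : ℕ, L.length ≤ d → n + L.length = d * (e + 1) →
      ∃ w ∈ P F d, ∃ h : ℂ[X], h.natDegree ≤ n ∧ g = w + (L.map lin).prod * h := by
  induction L with
  | nil =>
    intro n _ hn
    exact ⟨0, zero_mem _, g, by simpa [← hn] using hg, by simp⟩
  | cons q L ih =>
    intro n hL hn
    simp only [List.length_cons] at hL hn
    obtain ⟨w, hw, h, hh, hgw⟩ := ih (n + 1) (by omega) (by omega)
    obtain ⟨w', hw', g', n', hn', hg', hwg', hev⟩ := H.filt q d L (by omega)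
    obtain rfl : n' = n + 1 := by omega
    set c := ev q (n + 1) h / ev q (n + 1) g' with hc
    have h1 : (h - c • g').natDegree ≤ n + 1 :=
      (natDegree_sub_le_of_le hh ((natDegree_smul_le _ _).trans hg')).trans (by simp)
    have h2 : ev q (n + 1) (h - c • g') = 0 := by
      rw [map_sub, map_smul, smul_eq_mul, hc]; field_simp; ring
    obtain ⟨h', hh', h3⟩ := exists_div q h1 h2
    refine ⟨w + c • w', add_mem hw (Submodule.smul_mem _ _ hw'), h', hh', ?_⟩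
    rw [hgw, hwg', List.map_cons, List.prod_cons, mul_comm (lin q), mul_assoc, ← h3]
    simp only [smul_eq_C_mul]; ring

/-- Forms of degree `d (e+1)` modulo pull-backs. -/
abbrev Q (F : Fin N → ℂ[X]) (e d : ℕ) : Type :=
  degreeLT ℂ (d * (e + 1) + 1) ⧸ (P F d).comap (degreeLT ℂ (d * (e + 1) + 1)).subtype

theorem mem_LT {n : ℕ} {g : ℂ[X]} : g ∈ degreeLT ℂ (n + 1) ↔ g.natDegree ≤ n := by
  rw [mem_degreeLT, degree_lt_iff_coeff_zero, natDegree_le_iff_coeff_eq_zero]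
  exact Iff.rfl

/-- Multiplication by a pull-back of a linear form. -/
noncomputable def mu {F : Fin N → ℂ[X]} {e : ℕ} (H : Emb F e) (d : ℕ) (f : P F 1) :
    Q F e d →ₗ[ℂ] Q F e (d + 1) :=
  Submodule.mapQ _ _ ((LinearMap.mulLeft ℂ (f : ℂ[X])).restrict (fun g hg => by
    rw [mem_LT] at hg ⊢
    have h1 : (f : ℂ[X]).natDegree ≤ e + 1 := by simpa using P_deg H.deg f.2
    refine (natDegree_mul_le_of_le h1 hg).trans (le_of_eq (by ring)))) (by
    intro g hg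
    have := P_mul hg f.2
    rw [mul_comm] at this
    exact this)

theorem mu_surj {F : Fin N → ℂ[X]} {e : ℕ} (H : Emb F e) (d : ℕ) (hd : e ≤ d) (f : P F 1)
    (hf : (f : ℂ[X]) ≠ 0) : Function.Surjective (mu H d f) := by
  intro x
  obtain ⟨⟨g, hg⟩, rfl⟩ := Submodule.Quotient.mk_surjective _ x
  have h1 : (f : ℂ[X]).natDegree ≤ e + 1 := by simpa using P_deg H.deg f.2
  obtain ⟨c, L, hL, hfc⟩ := exists_factor _ _ h1
  have hc : c ≠ 0 := by rintro rfl; exact hf (by simpa using hfc)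
  obtain ⟨w, hw, h, hh, hgw⟩ := H.surj (d + 1) g (mem_LT.1 hg) L (d * (e + 1)) (by omega)
    (by rw [hL]; ring)
  refine ⟨Submodule.Quotient.mk ⟨c⁻¹ • h, mem_LT.2 ((natDegree_smul_le _ _).trans hh)⟩, ?_⟩
  rw [mu, Submodule.mapQ_apply, Submodule.Quotient.eq]
  change (f : ℂ[X]) * (c⁻¹ • h) - g ∈ P F (d + 1)
  have : (f : ℂ[X]) * (c⁻¹ • h) - g = -w := by
    rw [hfc, hgw, smul_eq_C_mul]
    have : C c * C c⁻¹ = (1 : ℂ[X]) := by rw [← C_mul, mul_inv_cancel₀ hc, C_1]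
    linear_combination ((L.map lin).prod * h) * this
  rw [this]
  exact neg_mem hw

theorem mu_sub {F : Fin N → ℂ[X]} {e : ℕ} (H : Emb F e) (d : ℕ) (f f' : P F 1) (c : ℂ)
    (x : Q F e d) : mu H d (f - c • f') x = mu H d f x - c • mu H d f' x := by
  obtain ⟨g, rfl⟩ := Submodule.Quotient.mk_surjective _ x
  simp only [mu, Submodule.mapQ_apply]
  rw [← Submodule.Quotient.mk_smul, ← Submodule.Quotient.mk_sub]
  congr 1
  ext1
  simp [sub_mul]

/-- Projective normality in some positive degree. -/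
theorem Emb.normal {F : Fin N → ℂ[X]} {e : ℕ} (H : Emb F e) :
    ∃ d : ℕ, ∀ g : ℂ[X], g.natDegree ≤ (d + 1) * (e + 1) → g ∈ P F (d + 1) := by
  obtain ⟨d, hd⟩ : ∃ d : ℕ, ∀ d', Module.finrank ℂ (Q F e (e + d + 1)) ≤
      Module.finrank ℂ (Q F e (e + d' + 1)) :=
    ⟨Function.argmin (fun d => Module.finrank ℂ (Q F e (e + d + 1))),
      fun d' => Function.argmin_le (fun d => Module.finrank ℂ (Q F e (e + d + 1))) d'⟩
  obtain ⟨f1, hf1, h1⟩ := H.nonvan none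
  obtain ⟨f2, hf2, g2, hg2, h2, h3⟩ := H.sep none none
  have h4 : f2 = g2 := by simpa [lin] using h2
  subst h4
  have h5 : f2 ≠ 0 := by rintro rfl; simp at h3
  have hs := mu_surj H (e + d + 1) (by omega) ⟨f2, hf2⟩ h5
  have hrk : Module.finrank ℂ (Q F e (e + d + 1)) = Module.finrank ℂ (Q F e (e + d + 1 + 1)) :=
    le_antisymm (hd (d + 1)) (LinearMap.finrank_le_finrank_of_surjective hs)
  have hi := (LinearMap.injective_iff_surjective_of_finrank_eq_finrank hrk).2 hs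
  have hsub : Subsingleton (Q F e (e + d + 1)) := by
    by_contra hnt
    rw [not_subsingleton_iff_nontrivial] at hnt
    let E := LinearEquiv.ofBijective _ ⟨hi, hs⟩
    obtain ⟨c, hc⟩ := Module.End.exists_eigenvalue
      (E.symm.toLinearMap ∘ₗ mu H (e + d + 1) ⟨f1, hf1⟩)
    obtain ⟨v, hv⟩ := hc.exists_hasEigenvector
    have h6 := hv.apply_eq_smul
    have h7 : mu H (e + d + 1) ⟨f1, hf1⟩ v = c • mu H (e + d + 1) ⟨f2, hf2⟩ v := by
      have := congrArg E h6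
      simpa [E] using this
    have h8 : ((⟨f1, hf1⟩ - c • ⟨f2, hf2⟩ : P F 1) : ℂ[X]) ≠ 0 := by
      intro h
      have h9 := congrArg (fun g : ℂ[X] => g.coeff (e + 1)) h
      have h10 : f2.coeff (e + 1) = 0 := coeff_eq_zero_of_natDegree_lt (by omega)
      simp [h10] at h9 h1
      exact h1 h9
    have h11 := (LinearMap.injective_iff_surjective_of_finrank_eq_finrank hrk).2
      (mu_surj H (e + d + 1) (by omega) _ h8)
    apply hv.2
    apply h11
    rw [mu_sub, h7, sub_self, map_zero]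
  refine ⟨e + d, fun g hg => ?_⟩
  have := Subsingleton.elim (α := Q F e (e + d + 1))
    (Submodule.Quotient.mk ⟨g, mem_LT.2 hg⟩) 0
  rw [Submodule.Quotient.mk_eq_zero] at this
  exact this

end Kol68.CurveAux
end

-- merged part: Pool.Agent.Work.MP_c53807_ag.Curve
section
open scoped LinearAlgebra.Projectivization Polynomial

namespace Kol68

namespace CurveAux

open Polynomial

variable {N : ℕ}

theorem eval_smul_hom {σ : Type*} {A : MvPolynomial σ ℂ} {d : ℕ} (hA : A.IsHomogeneous d)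
    (c : ℂ) (x : σ → ℂ) : MvPolynomial.eval (c • x) A = c ^ d * MvPolynomial.eval x A := by
  rw [MvPolynomial.eval_eq, MvPolynomial.eval_eq, Finset.mul_sum]
  refine Finset.sum_congr rfl fun s hs => ?_
  simp only [Pi.smul_apply, smul_eq_mul, mul_pow, Finset.prod_mul_distrib,
    Finset.prod_pow_eq_pow_sum]
  rw [hA.degree_eq_sum_deg_support hs]
  ring

theorem ev_lin_sum (F : Fin N → ℂ[X]) (l : Fin N → ℂ) (p : Option ℂ) (n : ℕ) :
    ev p n (∑ i, l i • F i) = ∑ i, l i * ev p n (F i) := by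
  simp [map_sum]

theorem emb_of (F : Fin N → ℂ[X]) (e : ℕ)
    (hdeg : ∀ i, (F i).natDegree ≤ e + 1)
    (hne : ∀ p, (fun i => ev p (e + 1) (F i)) ≠ 0)
    (hinj : ∀ p q (c : ℂ), (fun i => ev p (e + 1) (F i)) = c • (fun i => ev q (e + 1) (F i)) →
      p = q)
    (himm : ∀ y c : ℂ, (fun i => (F i).derivative.eval y) ≠ c • (fun i => (F i).eval y))
    (himm' : ∀ c : ℂ, (fun i => (F i).coeff e) ≠ c • (fun i => (F i).coeff (e + 1))) :
    Emb F e := by
  refine ⟨hdeg, fun p => ?_, fun p q => ?_⟩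
  · obtain ⟨i, hi⟩ := Function.ne_iff.1 (hne p)
    exact ⟨F i, mem_P.2 ⟨MvPolynomial.X i, MvPolynomial.isHomogeneous_X _ _, by simp⟩, hi⟩
  · have key : ∀ v : Fin N → ℂ, (∀ c : ℂ, v ≠ c • (fun i => ev q (e + 1) (F i))) →
        ∃ (l : Fin N → ℂ) (g : ℂ[X]), g.natDegree ≤ e ∧ ∑ i, l i • F i = lin q * g ∧
          ∑ i, l i * v i ≠ 0 := by
      intro v hv
      obtain ⟨l, h1, h2⟩ := exists_dual hv
      obtain ⟨g, hg, h3⟩ := exists_div q (n := e) (g := ∑ i, l i • F i)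
        (by simpa using P_deg hdeg (P_lin F l)) (by rw [ev_lin_sum]; exact h1)
      exact ⟨l, g, hg, h3, h2⟩
    by_cases hpq : p = q
    · subst hpq
      cases p with
      | some a =>
        obtain ⟨l, g, hg, h3, h2⟩ := key _ (himm a)
        refine ⟨_, P_lin F l, g, hg, h3, ?_⟩
        have h4 := congrArg (fun w : ℂ[X] => w.derivative.eval a) h3
        simp [lin, eval_finsetSum] at h4
        rw [ev_some, ← h4]
        exact h2
      | none =>
        obtain ⟨l, g, hg, h3, h2⟩ := key _ himm'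
        refine ⟨_, P_lin F l, g, hg, h3, ?_⟩
        have h4 : g = ∑ i, l i • F i := by simpa [lin] using h3.symm
        rw [h4, ev_lin_sum]
        exact h2
    · obtain ⟨l, g, hg, h3, h2⟩ := key _ (fun c h => hpq (hinj p q c h))
      refine ⟨_, P_lin F l, g, hg, h3, fun h => h2 ?_⟩
      rw [← ev_lin_sum, h3, add_comm e 1, ev_mul p (lin_deg q) hg, h, mul_zero]

/-- Homogeneous coordinates of a point of the projective line. -/
def tv : Option ℂ → Fin 2 → ℂ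
  | some a => ![a, 1]
  | none => ![1, 0]

theorem tv_ne (p : Option ℂ) : tv p ≠ 0 := by
  cases p with
  | some a => intro h; simpa [tv] using congrFun h 1
  | none => intro h; simpa [tv] using congrFun h 0

/-- The point of the projective line. -/
noncomputable def tp (p : Option ℂ) : ℙ ℂ (Fin 2 → ℂ) := Projectivization.mk ℂ (tv p) (tv_ne p)

theorem tp_inj : Function.Injective tp := by
  intro p q h
  obtain ⟨c, hc⟩ := (Projectivization.mk_eq_mk_iff' ℂ _ _ _ _).1 h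
  have h0 := congrFun hc 0
  have h1 := congrFun hc 1
  cases p <;> cases q <;> simp_all [tv]

theorem tp_surj : Function.Surjective tp := by
  intro x
  induction x using Projectivization.ind with
  | h v hv =>
    by_cases h : v 1 = 0
    · refine ⟨none, ((Projectivization.mk_eq_mk_iff' ℂ _ _ _ _).2 ⟨v 0, ?_⟩).symm⟩
      ext i; fin_cases i <;> simp [tv, h]
    · refine ⟨some (v 0 / v 1), ((Projectivization.mk_eq_mk_iff' ℂ _ _ _ _).2 ⟨v 1, ?_⟩).symm⟩
      ext i; fin_cases i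
      · simp [tv]; field_simp
      · simp [tv]

/-- The binary form of degree `n` with dehomogenisation `g`. -/
noncomputable def hom (n : ℕ) (g : ℂ[X]) : MvPolynomial (Fin 2) ℂ :=
  ∑ k ∈ Finset.range (n + 1),
    MvPolynomial.C (g.coeff k) * (MvPolynomial.X 0 ^ k * MvPolynomial.X 1 ^ (n - k))

theorem hom_isHom (n : ℕ) (g : ℂ[X]) : (hom n g).IsHomogeneous n := by
  refine MvPolynomial.IsHomogeneous.sum _ _ _ fun k hk => ?_
  have h1 := ((MvPolynomial.isHomogeneous_X_pow (R := ℂ) (0 : Fin 2) k).mul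
    (MvPolynomial.isHomogeneous_X_pow (1 : Fin 2) (n - k))).C_mul (g.coeff k)
  rwa [Nat.add_sub_cancel' (Nat.lt_succ_iff.1 (Finset.mem_range.1 hk))] at h1

theorem eval_hom {n : ℕ} {g : ℂ[X]} (hg : g.natDegree ≤ n) (p : Option ℂ) :
    MvPolynomial.eval (tv p) (hom n g) = ev p n g := by
  cases p with
  | some a => simp [hom, tv, eval_eq_sum_range' (Nat.lt_succ_of_le hg)]
  | none =>
    simp only [hom, tv, map_sum, map_mul, map_pow, MvPolynomial.eval_C, MvPolynomial.eval_X,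
      ev_none]
    rw [Finset.sum_eq_single n]
    · simp
    · intro k hk hkn
      have : n - k ≠ 0 := by have := Finset.mem_range.1 hk; omega
      simp [this]
    · simp

theorem exists_rep {M : ℕ} (v : Fin M → ℂ) (hv : v ≠ 0) :
    ∃ c : ℂ, c ≠ 0 ∧ (Projectivization.mk ℂ v hv).rep = c • v := by
  obtain ⟨a, ha⟩ := Projectivization.exists_smul_eq_mk_rep ℂ v hv
  exact ⟨a, a.ne_zero, ha.symm⟩

theorem closed_aux {F : Fin N → ℂ[X]} {e d : ℕ} (hdeg : ∀ i, (F i).natDegree ≤ e + 1)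
    (hn : ∀ g : ℂ[X], g.natDegree ≤ (d + 1) * (e + 1) → g ∈ P F (d + 1))
    (z : Fin N → ℂ) (hz : z ≠ 0)
    (h : ∀ A : MvPolynomial (Fin N) ℂ, (∃ k, A.IsHomogeneous k) → MvPolynomial.aeval F A = 0 →
      MvPolynomial.eval z A = 0) :
    ∃ (p : Option ℂ) (c : ℂ), z = c • fun i => ev p (e + 1) (F i) := by
  set n := (d + 1) * (e + 1) with hn'
  have hA : ∀ i : ℕ, ∃ A : MvPolynomial (Fin N) ℂ, A.IsHomogeneous (d + 1) ∧
      (i ≤ n → MvPolynomial.aeval F A = X ^ i) := by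
    intro i
    by_cases hi : i ≤ n
    · obtain ⟨A, h1, h2⟩ := mem_P.1 (hn (X ^ i) (by simpa using hi))
      exact ⟨A, h1, fun _ => h2⟩
    · exact ⟨0, MvPolynomial.isHomogeneous_zero _ _ _, fun h => absurd h hi⟩
  choose A hA hA' using hA
  set a : ℕ → ℂ := fun i => MvPolynomial.eval z (A i) with ha
  have h1 : ∀ B : MvPolynomial (Fin N) ℂ, B.IsHomogeneous (d + 1) → MvPolynomial.eval z B =
      ∑ i ∈ Finset.range (n + 1), (MvPolynomial.aeval F B).coeff i * a i := by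
    intro B hB
    have h2 := h (B - ∑ i ∈ Finset.range (n + 1),
      MvPolynomial.C ((MvPolynomial.aeval F B).coeff i) * A i)
      ⟨d + 1, hB.sub (MvPolynomial.IsHomogeneous.sum _ _ _ fun i _ => (hA i).C_mul _)⟩ (by
        rw [map_sub, map_sum, sub_eq_zero]
        conv_lhs => rw [(MvPolynomial.aeval F B).as_sum_range_C_mul_X_pow'
          (Nat.lt_succ_of_le (ev_aeval hdeg none hB).1)]
        refine Finset.sum_congr rfl fun i hi => ?_
        rw [map_mul, hA' i (Nat.lt_succ_iff.1 (Finset.mem_range.1 hi)), MvPolynomial.aeval_C]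
        rfl)
    rw [map_sub, sub_eq_zero, map_sum] at h2
    rw [h2]
    simp [ha]
  obtain ⟨p, c, h2⟩ : ∃ (p : Option ℂ) (c : ℂ), ∀ B : MvPolynomial (Fin N) ℂ,
      B.IsHomogeneous (d + 1) →
        MvPolynomial.eval z B = c * ev p n (MvPolynomial.aeval F B) := by
    have hn1 : 1 ≤ n := Nat.mul_pos (by omega) (by omega)
    by_cases h0 : a 0 = 0
    · refine ⟨none, a n, fun B hB => ?_⟩
      rw [h1 B hB, Finset.sum_eq_single n]
      · simp [mul_comm]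
      · intro i hi hin
        have hi' : i < n := by have := Finset.mem_range.1 hi; omega
        have h3 := h (A i ^ n - A 0 ^ (n - i) * A n ^ i) ⟨(d + 1) * n, ((hA i).pow n).sub (by
          have := ((hA 0).pow (n - i)).mul ((hA n).pow i)
          rwa [← mul_add, Nat.sub_add_cancel hi'.le] at this)⟩ (by
          simp only [map_sub, map_mul, map_pow, hA' i hi'.le, hA' 0 (by omega), hA' n le_rfl]
          ring)
        simp only [map_sub, map_mul, map_pow] at h3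
        have h4 : a i ^ n - a 0 ^ (n - i) * a n ^ i = 0 := h3
        rw [h0, zero_pow (by omega), zero_mul, sub_zero] at h4
        rw [pow_eq_zero_iff (by omega)] at h4
        rw [h4, mul_zero]
      · simp
    · refine ⟨some (a 1 / a 0), a 0, fun B hB => ?_⟩
      have h3 : ∀ i, i ≤ n → a i = a 0 * (a 1 / a 0) ^ i := by
        intro i
        induction i with
        | zero => simp
        | succ i ih =>
          intro hi
          have h4 := h (A (i + 1) * A 0 - A i * A 1) ⟨(d + 1) + (d + 1),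
            ((hA _).mul (hA _)).sub ((hA _).mul (hA _))⟩ (by
            simp only [map_sub, map_mul, hA' (i + 1) hi, hA' 0 (by omega), hA' i (by omega),
              hA' 1 hn1]
            ring)
          simp only [map_sub, map_mul] at h4
          have h5 : a (i + 1) * a 0 - a i * a 1 = 0 := h4
          rw [ih (by omega)] at h5
          apply mul_right_cancel₀ h0
          have h6 : a 1 / a 0 * a 0 = a 1 := div_mul_cancel₀ _ h0
          linear_combination h5 - a 0 * (a 1 / a 0) ^ i * h6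
      rw [h1 B hB, ev_some, eval_eq_sum_range' (Nat.lt_succ_of_le (ev_aeval hdeg none hB).1),
        Finset.mul_sum]
      refine Finset.sum_congr rfl fun i hi => ?_
      rw [h3 i (Nat.lt_succ_iff.1 (Finset.mem_range.1 hi))]
      ring
  obtain ⟨k, hk⟩ := Function.ne_iff.1 hz
  have hk' : z k ≠ 0 := hk
  refine ⟨p, c * ev p (e + 1) (F k) ^ d / z k ^ d, funext fun i => ?_⟩
  have hB : (MvPolynomial.X k ^ d * MvPolynomial.X i : MvPolynomial (Fin N) ℂ).IsHomogeneous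
      (d + 1) := (MvPolynomial.isHomogeneous_X_pow _ _).mul (MvPolynomial.isHomogeneous_X _ _)
  have h3 := h2 _ hB
  rw [(ev_aeval hdeg p hB).2] at h3
  simp only [map_mul, map_pow, MvPolynomial.eval_X] at h3
  simp only [Pi.smul_apply, smul_eq_mul]
  field_simp
  linear_combination h3

theorem main (F : Fin N → ℂ[X]) (e : ℕ) (H : Emb F e)
    (hne : ∀ p, (fun i => ev p (e + 1) (F i)) ≠ 0)
    (hinj : ∀ p q (c : ℂ), (fun i => ev p (e + 1) (F i)) = c • (fun i => ev q (e + 1) (F i)) →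
      p = q) :
    SmoothRationalCurve (Set.range fun p => Projectivization.mk ℂ _ (hne p)) := by
  obtain ⟨d, hn⟩ := H.normal
  set pt : Option ℂ → ℙ ℂ (Fin N → ℂ) := fun p => Projectivization.mk ℂ _ (hne p) with hpt
  have hpi : Function.Injective pt := by
    intro p q h
    obtain ⟨c, hc⟩ := (Projectivization.mk_eq_mk_iff' ℂ _ _ _ _).1 h
    exact hinj p q c hc.symm
  have hev : ∀ p, ∃ c : ℂ, c ≠ 0 ∧ ∀ (k : ℕ) (A : MvPolynomial (Fin N) ℂ), A.IsHomogeneous k →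
      MvPolynomial.eval (pt p).rep A = c ^ k * ev p (k * (e + 1)) (MvPolynomial.aeval F A) := by
    intro p
    obtain ⟨c, hc, h⟩ := exists_rep _ (hne p)
    refine ⟨c, hc, fun k A hA => ?_⟩
    rw [hpt]
    simp only
    rw [h, eval_smul_hom hA, (ev_aeval H.deg p hA).2]
  refine ⟨⟨?_, Set.range_nonempty _, ?_⟩, pt ∘ Function.surjInv tp_surj,
    tp ∘ Function.invFun pt, ?_, ?_, ?_, ?_, ?_⟩
  · refine ⟨{A | (∃ k, A.IsHomogeneous k) ∧ MvPolynomial.aeval F A = 0}, fun A hA => hA.1, ?_⟩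
    ext x
    constructor
    · rintro ⟨p, rfl⟩ A ⟨⟨k, hk⟩, hA⟩
      obtain ⟨c, -, h⟩ := hev p
      rw [h k A hk, hA, map_zero, mul_zero]
    · intro hx
      obtain ⟨p, c, h⟩ := closed_aux H.deg hn x.rep x.rep_nonzero fun A h1 h2 => hx A ⟨h1, h2⟩
      refine ⟨p, ?_⟩
      rw [← x.mk_rep]
      exact ((Projectivization.mk_eq_mk_iff' ℂ _ _ _ _).2 ⟨c, h.symm⟩).symm
  · rintro _ _ ⟨SA, hSA, rfl⟩ ⟨SB, hSB, rfl⟩ hAB
    by_contra hc
    rw [not_or, Set.not_subset, Set.not_subset] at hc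
    obtain ⟨⟨_, ⟨p, rfl⟩, hp⟩, ⟨_, ⟨q, rfl⟩, hq⟩⟩ := hc
    simp only [Set.mem_ofPred_eq, not_forall] at hp hq
    obtain ⟨A, hA, hp⟩ := hp
    obtain ⟨B, hB, hq⟩ := hq
    obtain ⟨k, hk⟩ := hSA A hA
    obtain ⟨l, hl⟩ := hSB B hB
    have hA0 : MvPolynomial.aeval F A ≠ 0 := by
      intro h
      obtain ⟨c, -, h'⟩ := hev p
      exact hp (by rw [h' k A hk, h, map_zero, mul_zero])
    have hB0 : MvPolynomial.aeval F B ≠ 0 := by
      intro h
      obtain ⟨c, -, h'⟩ := hev q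
      exact hq (by rw [h' l B hl, h, map_zero, mul_zero])
    obtain ⟨y, hy⟩ : ∃ y : ℂ, (MvPolynomial.aeval F A * MvPolynomial.aeval F B).eval y ≠ 0 := by
      by_contra hy
      push Not at hy
      exact mul_ne_zero hA0 hB0 (Polynomial.funext (by simpa using hy))
    rw [eval_mul, mul_ne_zero_iff] at hy
    obtain ⟨c, hc, h'⟩ := hev (some y)
    rcases hAB ⟨some y, rfl⟩ with h | h
    · have := h A hA
      rw [h' k A hk, ev_some] at this
      exact mul_ne_zero (pow_ne_zero _ hc) hy.1 this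
    · have := h B hB
      rw [h' l B hl, ev_some] at this
      exact mul_ne_zero (pow_ne_zero _ hc) hy.2 this
  · have key : ∀ p, ∃ c : ℂ, c ≠ 0 ∧ (fun i => MvPolynomial.eval (tp p).rep (hom (e + 1) (F i))) =
        c • fun i => ev p (e + 1) (F i) := by
      intro p
      obtain ⟨c, hc, h⟩ := exists_rep _ (tv_ne p)
      refine ⟨c ^ (e + 1), pow_ne_zero _ hc, funext fun i => ?_⟩
      rw [tp, h, eval_smul_hom (hom_isHom _ _), eval_hom (H.deg i)]
      rfl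
    intro x _
    refine ⟨e + 1, fun i => hom (e + 1) (F i), fun i => hom_isHom _ _, ?_, fun y _ h => ?_⟩
    · obtain ⟨p, rfl⟩ := tp_surj x
      obtain ⟨c, hc, h⟩ := key p
      rw [h]
      exact smul_ne_zero hc (hne p)
    · obtain ⟨p, rfl⟩ := tp_surj y
      obtain ⟨c, hc, h'⟩ := key p
      rw [Function.comp_apply, tp_inj (Function.surjInv_eq tp_surj (tp p))]
      exact ((Projectivization.mk_eq_mk_iff' ℂ _ _ _ _).2 ⟨c, h'.symm⟩).symm
  · rintro _ ⟨p, rfl⟩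
    have hn1 : 1 ≤ (d + 1) * (e + 1) := Nat.mul_pos (by omega) (by omega)
    obtain ⟨i, hi, hp⟩ : ∃ i : ℕ, i + 1 ≤ (d + 1) * (e + 1) ∧
        (ev p ((d + 1) * (e + 1)) (X ^ (i + 1)) ≠ 0 ∨ ev p ((d + 1) * (e + 1)) (X ^ i) ≠ 0) := by
      cases p with
      | some a => exact ⟨0, hn1, Or.inr (by simp)⟩
      | none => exact ⟨(d + 1) * (e + 1) - 1, by omega, Or.inl (by
          rw [Nat.sub_add_cancel hn1]; simp)⟩
    obtain ⟨A1, hA1, h1⟩ := mem_P.1 (hn (X ^ (i + 1)) (by simpa using hi))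
    obtain ⟨A0, hA0, h0⟩ := mem_P.1 (hn (X ^ i) (by simp; omega))
    refine ⟨d + 1, ![A1, A0], fun j => by fin_cases j <;> simpa, ?_, ?_⟩
    · obtain ⟨c, hc, h⟩ := hev p
      intro h'
      have h2 := congrFun h' 0
      have h3 := congrFun h' 1
      simp only [Matrix.cons_val_zero, Matrix.cons_val_one, Pi.zero_apply] at h2 h3
      rw [h _ _ hA1, h1] at h2
      rw [h _ _ hA0, h0] at h3
      rcases hp with hp | hp
      · exact mul_ne_zero (pow_ne_zero _ hc) hp h2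
      · exact mul_ne_zero (pow_ne_zero _ hc) hp h3
    · rintro _ ⟨q, rfl⟩ h'
      obtain ⟨c, hc, h⟩ := hev q
      rw [Function.comp_apply, Function.leftInverse_invFun hpi q]
      refine ((Projectivization.mk_eq_mk_iff' ℂ _ _ _ _).2 ?_).symm
      cases q with
      | some b =>
        refine ⟨c ^ (d + 1) * b ^ i, funext fun j => ?_⟩
        fin_cases j
        · simp [tv, h _ _ hA1, h1]; ring
        · simp [tv, h _ _ hA0, h0]
      | none =>
        refine ⟨MvPolynomial.eval (pt none).rep A1, funext fun j => ?_⟩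
        fin_cases j
        · simp [tv]
        · have : (d + 1) * (e + 1) ≠ i := by omega
          simp [tv, h _ _ hA0, h0, coeff_X_pow, this]
  · intro p
    exact ⟨_, rfl⟩
  · intro p
    simp only [Function.comp_apply]
    rw [Function.leftInverse_invFun hpi, Function.surjInv_eq tp_surj]
  · rintro _ ⟨p, rfl⟩
    simp only [Function.comp_apply]
    rw [Function.leftInverse_invFun hpi, tp_inj (Function.surjInv_eq tp_surj (tp p))]

end CurveAux

/-- An injective immersion of the projective line, given in the affine coordinate `t` by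
polynomials of degree at most `e`, has as image a smooth rational curve. -/
theorem smoothRationalCurve_of_poly {N : ℕ} (F : Fin N → ℂ[X]) (e : ℕ) (he : 1 ≤ e)
    (hdeg : ∀ i, (F i).natDegree ≤ e)
    (h0 : ∀ y : ℂ, (fun i => (F i).eval y) ≠ 0)
    (hinf : (fun i => (F i).coeff e) ≠ 0)
    (hinj : ∀ x y c : ℂ, (fun i => (F i).eval x) = c • (fun i => (F i).eval y) → x = y)
    (hinj' : ∀ y c : ℂ, (fun i => (F i).eval y) ≠ c • (fun i => (F i).coeff e))
    (himm : ∀ y c : ℂ, (fun i => (F i).derivative.eval y) ≠ c • (fun i => (F i).eval y))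
    (himm' : ∀ c : ℂ, (fun i => (F i).coeff (e - 1)) ≠ c • (fun i => (F i).coeff e)) :
    SmoothRationalCurve
      {x : ℙ ℂ (Fin N → ℂ) | (∃ y : ℂ, x = Projectivization.mk ℂ _ (h0 y)) ∨
        x = Projectivization.mk ℂ _ hinf} := by
  obtain ⟨e, rfl⟩ : ∃ e', e = e' + 1 := ⟨e - 1, by omega⟩
  have hne : ∀ p, (fun i => CurveAux.ev p (e + 1) (F i)) ≠ 0 := by
    intro p
    cases p with
    | some a => exact h0 a
    | none => exact hinf
  have hi : ∀ p q (c : ℂ), (fun i => CurveAux.ev p (e + 1) (F i)) =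
      c • (fun i => CurveAux.ev q (e + 1) (F i)) → p = q := by
    intro p q c h
    cases p with
    | some a =>
      cases q with
      | some b => rw [hinj a b c h]
      | none => exact absurd h (hinj' a c)
    | none =>
      cases q with
      | some b =>
        have hc : c ≠ 0 := by
          rintro rfl
          exact hne none (by rw [h, zero_smul])
        refine absurd ?_ (hinj' b c⁻¹)
        have h1 : (fun i => (F i).coeff (e + 1)) = c • fun i => (F i).eval b := h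
        rw [h1, smul_smul, inv_mul_cancel₀ hc, one_smul]
      | none => rfl
  have := CurveAux.main F e (CurveAux.emb_of F e hdeg hne hi himm himm') hne hi
  convert this using 1
  ext x
  constructor
  · rintro (⟨y, rfl⟩ | rfl)
    · exact ⟨some y, rfl⟩
    · exact ⟨none, rfl⟩
  · rintro ⟨p, rfl⟩
    cases p with
    | some y => exact Or.inl ⟨y, rfl⟩
    | none => exact Or.inr rfl

end Kol68
end

-- merged part: Pool.Agent.Work.MP_c53807_ag.End
section
/-!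
From a polynomial family of group elements to a curve in the orbit.
-/

open scoped Matrix PowerSeries Polynomial LinearAlgebra.Projectivization

namespace Kol68

variable {N : ℕ} {G K : Subgroup (GL (Fin N) ℂ)} {v : Fin N → ℂ}

theorem pts_stab (hG : GLClosed (G : Set (GL (Fin N) ℂ))) {Ω : Type} [CommRing Ω] [IsDomain Ω]
    [Algebra ℂ Ω] {g : GL (Fin N) Ω} (hg : g ∈ pts G Ω)
    (hp : Pres (ℂ ∙ v) (g : Matrix (Fin N) (Fin N) Ω)) : g ∈ pts (stabG G v) Ω := by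
  intro p hp'
  by_contra hne
  have h1 : ev (g : Matrix (Fin N) (Fin N) Ω) (p * (genM N).det) ≠ 0 := by
    rw [map_mul, ev_det]
    exact mul_ne_zero hne ((Matrix.isUnit_iff_isUnit_det _).1 g.isUnit).ne_zero
  obtain ⟨z, hz, hz'⟩ := exists_specialization
    (fun ij : Fin N × Fin N => (g : Matrix (Fin N) (Fin N) Ω) ij.1 ij.2) h1
  let M : Mt N := Matrix.of fun i j => z (i, j)
  change ev M _ ≠ 0 at hz
  rw [map_mul, ev_det] at hz
  let u : GL (Fin N) ℂ := Matrix.GeneralLinearGroup.mkOfDetNeZero M (right_ne_zero_of_mul hz)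
  refine left_ne_zero_of_mul hz (hp' u ⟨Pt.mem hG fun q hq => hz' q (hg q hq), ?_⟩)
  rw [← mem_presA_span]
  intro b hb
  rw [← mem_bc_self, mem_bc_iff_dot]
  intro l hl
  have key : ∀ {R : Type} [CommRing R] [Algebra ℂ R] (Y : Matrix (Fin N) (Fin N) R),
      ev Y (cv _ l ⬝ᵥ (genM N *ᵥ cv _ b)) = cv R l ⬝ᵥ (Y *ᵥ cv R b) := fun Y => by
    rw [map_dot]
    congr 1
    exact (comp_mulVec_cv (ev Y).toLinearMap _ _).trans
      (congrArg (fun Z => Z *ᵥ cv _ b) (genM_map_ev Y))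
  have h2 := hz' (cv _ l ⬝ᵥ (genM N *ᵥ cv _ b))
    ((key _).trans (mem_bc_iff_dot.1 (pres_iff_cv.1 hp b hb) l hl))
  exact (key M).symm.trans h2

theorem mem_lie_of_expU {ξ : Mt N} (h : expU 0 ξ ∈ pts K ℂ⟦X⟧) : ξ ∈ lie K := by
  have h1 := logder_mem h (dX ℂ) dX_algebraMap
  rw [logder_expU] at h1
  have h2 := mem_bcM_powerSeries.1 h1 0
  rw [expC, mul_smul, cM_C_smul, cM_X_pow_smul, cM_map_C] at h2
  simpa [mem_bcM_self] using h2

theorem hS_le_lie (hG : GLClosed (G : Set (GL (Fin N) ℂ))) (hK : stabG G v ≤ K) :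
    hS G v ≤ lie K := fun ξ hξ =>
  mem_lie_of_expU (Pt.mono hK (pts_stab hG (expU_mem_pts 0 (mem_bcM_self.2 hξ.1))
    (expM_mem_bcA 1 (pres_self.2 hξ.2))))

/-- Evaluation of a polynomial family. -/
noncomputable abbrev evU (y : ℂ) (U : GL (Fin N) ℂ[X]) : GL (Fin N) ℂ :=
  gmap (Polynomial.evalRingHom y) U

theorem coe_evU (y : ℂ) (U : GL (Fin N) ℂ[X]) :
    (evU y U : Mt N) = (U : Matrix _ _ ℂ[X]).map (Polynomial.eval y) := rfl

theorem evU_mem (hG : GLClosed (G : Set (GL (Fin N) ℂ))) {U : GL (Fin N) ℂ[X]}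
    (hU : U ∈ pts G ℂ[X]) (y : ℂ) : evU y U ∈ G :=
  Pt.mem hG (Pt.map hU (Polynomial.aeval y))

theorem pts_of_eval {U : GL (Fin N) ℂ[X]} (h : ∀ y, evU y U ∈ K) : U ∈ pts K ℂ[X] :=
  fun p hp => Polynomial.funext fun y => by
    rw [Polynomial.eval_zero]
    have h1 := map_ev (Polynomial.aeval y : ℂ[X] →ₐ[ℂ] ℂ) (U : Matrix _ _ ℂ[X]) p
    rw [Polynomial.coe_aeval_eq_eval] at h1
    rw [h1, ← coe_evU]
    exact hp _ (h y)

theorem eval_mulVec (U : GL (Fin N) ℂ[X]) (y : ℂ) :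
    (fun i => (((U : Matrix _ _ ℂ[X]) *ᵥ cv ℂ[X] v) i).eval y) = (evU y U : Mt N) *ᵥ v :=
  comp_mulVec_cv (Polynomial.aeval y : ℂ[X] →ₐ[ℂ] ℂ).toLinearMap _ _

/-- A smooth rational curve through `x₀` in the orbit that lies in `K x₀` only if `g ⊆ Lie K`. -/
def GoodCurve (G : Subgroup (GL (Fin N) ℂ)) (x₀ : ℙ ℂ (Fin N → ℂ)) (g : Submodule ℂ (Mt N)) :
    Prop :=
  ∃ C, SmoothRationalCurve C ∧ C ⊆ orbit G x₀ ∧ x₀ ∈ C ∧
    ∀ K : Subgroup (GL (Fin N) ℂ), stabG G x₀.rep ≤ K → K ≤ G →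
      (∀ z ∈ C, ∃ k ∈ K, z = act k x₀) → g ≤ lie K

theorem goodCurve_of_poly (hG : GLClosed (G : Set (GL (Fin N) ℂ))) (x₀ : ℙ ℂ (Fin N → ℂ))
    {g : Submodule ℂ (Mt N)} (U : GL (Fin N) ℂ[X]) (hU : U ∈ pts G ℂ[X]) (hU0 : evU 0 U = 1)
    (F : Fin N → ℂ[X]) (hF : F = (U : Matrix _ _ ℂ[X]) *ᵥ cv ℂ[X] x₀.rep) (e : ℕ) (he : 1 ≤ e)
    (hdeg : ∀ i, (F i).natDegree ≤ e) {w : GL (Fin N) ℂ} (hw : w ∈ G) {c₀ : ℂ} (hc : c₀ ≠ 0)
    (hinf : (fun i => (F i).coeff e) = c₀ • ((w : Mt N) *ᵥ x₀.rep))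
    (hinj : ∀ x y c : ℂ, (fun i => (F i).eval x) = c • (fun i => (F i).eval y) → x = y)
    (hinj' : ∀ y c : ℂ, (fun i => (F i).eval y) ≠ c • (fun i => (F i).coeff e))
    (himm : ∀ y c : ℂ, (fun i => (F i).derivative.eval y) ≠ c • (fun i => (F i).eval y))
    (himm' : ∀ c : ℂ, (fun i => (F i).coeff (e - 1)) ≠ c • (fun i => (F i).coeff e))
    (hK : ∀ K : Subgroup (GL (Fin N) ℂ), hS G x₀.rep ≤ lie K → U ∈ pts K ℂ[X] → g ≤ lie K) :
    GoodCurve G x₀ g := by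
  have h1 : ∀ y, (fun i => (F i).eval y) = (evU y U : Mt N) *ᵥ x₀.rep := fun y => by
    rw [hF]; exact eval_mulVec U y
  have h0 : ∀ y : ℂ, (fun i => (F i).eval y) ≠ 0 := fun y => by
    rw [h1]; exact mulVec_ne_zero _ x₀.rep_nonzero
  have h2 : (fun i => (F i).coeff e) ≠ 0 := by
    rw [hinf]; exact smul_ne_zero hc (mulVec_ne_zero _ x₀.rep_nonzero)
  have h3 : ∀ y, Projectivization.mk ℂ _ (h0 y) = act (evU y U) x₀ := fun y => by
    rw [act]; congr 1; exact h1 y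
  refine ⟨_, smoothRationalCurve_of_poly F e he hdeg h0 h2 hinj hinj' himm himm', ?_,
    Or.inl ⟨0, by rw [h3, hU0, act_one]⟩, fun K hK₁ hK₂ hC => ?_⟩
  · rintro _ (⟨y, rfl⟩ | rfl)
    · exact ⟨_, evU_mem hG hU y, h3 y⟩
    · refine ⟨w, hw, ?_⟩
      rw [act, Projectivization.mk_eq_mk_iff']
      exact ⟨c₀, hinf.symm⟩
  · refine hK K (hS_le_lie hG hK₁) (pts_of_eval fun y => ?_)
    obtain ⟨k, hk, e⟩ := hC _ (Or.inl ⟨y, rfl⟩)
    rw [h3, act_eq_act_iff, act_eq_iff] at e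
    have := K.mul_mem hk (hK₁ ⟨G.mul_mem (G.inv_mem (hK₂ hk)) (evU_mem hG hU y), e⟩)
    rwa [mul_inv_cancel_left] at this

end Kol68
end
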