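import Mathlib
import Pool.Agent.Work.MP_c53807_ag.Defs

-- merged part: Pool.Agent.Work.MP_c53807_ag.TrOn
section
/-!
The trace of an endomorphism on an invariant subspace.
-/

namespace Kol68

open Module

variable {V : Type*} [AddCommGroup V] [Module ℂ V]

/-- `P` is a projector onto `r`. -/
def IsPj (r : Submodule ℂ V) (P : V →ₗ[ℂ] V) : Prop := (∀ y, P y ∈ r) ∧ ∀ y ∈ r, P y = y

theorem exists_isPj (r : Submodule ℂ V) : ∃ P, IsPj r P := by
  obtain ⟨c, hc⟩ := r.exists_isCompl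
  exact ⟨r.subtype ∘ₗ r.projectionOnto c hc, fun y => (r.projectionOnto c hc y).2,
    fun y hy => by simpa using congrArg Subtype.val (Submodule.projectionOnto_apply_left hc ⟨y, hy⟩)⟩

/-- A chosen projector onto `r`. -/
noncomputable def pj (r : Submodule ℂ V) : V →ₗ[ℂ] V := Classical.choose (exists_isPj r)

theorem isPj_pj (r : Submodule ℂ V) : IsPj r (pj r) := Classical.choose_spec (exists_isPj r)

/-- The trace of `f` on `r` (meaningful when `f` preserves `r`). -/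
noncomputable def trOn (r : Submodule ℂ V) (f : V →ₗ[ℂ] V) : ℂ :=
  LinearMap.trace ℂ V (f ∘ₗ pj r)

theorem trOn_add (r : Submodule ℂ V) (f g : V →ₗ[ℂ] V) :
    trOn r (f + g) = trOn r f + trOn r g := by
  simp [trOn, LinearMap.add_comp]

theorem trOn_sub (r : Submodule ℂ V) (f g : V →ₗ[ℂ] V) :
    trOn r (f - g) = trOn r f - trOn r g := by
  simp [trOn, LinearMap.sub_comp]

theorem trOn_smul (r : Submodule ℂ V) (c : ℂ) (f : V →ₗ[ℂ] V) :
    trOn r (c • f) = c * trOn r f := by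
  simp [trOn, LinearMap.smul_comp]

theorem trOn_zero (r : Submodule ℂ V) : trOn r 0 = 0 := by simp [trOn]

theorem trOn_sum {ι : Type*} (r : Submodule ℂ V) (s : Finset ι) (f : ι → V →ₗ[ℂ] V) :
    trOn r (∑ i ∈ s, f i) = ∑ i ∈ s, trOn r (f i) := by
  classical
  induction s using Finset.induction_on with
  | empty => simp [trOn_zero]
  | insert i s hi ih => rw [Finset.sum_insert hi, Finset.sum_insert hi, trOn_add, ih]

theorem trOn_congr {r : Submodule ℂ V} {f g : V →ₗ[ℂ] V} (h : ∀ y ∈ r, f y = g y) :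
    trOn r f = trOn r g := by
  unfold trOn
  congr 1
  ext y
  exact h _ ((isPj_pj r).1 y)

variable [FiniteDimensional ℂ V]

theorem trOn_eq {r : Submodule ℂ V} {P f : V →ₗ[ℂ] V} (hP : IsPj r P) (hf : ∀ y ∈ r, f y ∈ r) :
    trOn r f = LinearMap.trace ℂ V (f ∘ₗ P) := by
  have h1 : f ∘ₗ pj r = P ∘ₗ (f ∘ₗ pj r) := by
    ext y
    exact (hP.2 _ (hf _ ((isPj_pj r).1 y))).symm
  have h2 : (f ∘ₗ pj r) ∘ₗ P = f ∘ₗ P := by
    ext y
    simp only [LinearMap.comp_apply]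
    rw [(isPj_pj r).2 _ (hP.1 y)]
  rw [trOn, h1, LinearMap.trace_comp_comm', h2]

theorem trOn_eq_restrict {r : Submodule ℂ V} {f : V →ₗ[ℂ] V} (hf : ∀ y ∈ r, f y ∈ r) :
    trOn r f = LinearMap.trace ℂ r (f.restrict hf) := by
  let q : V →ₗ[ℂ] r := (pj r).codRestrict r (isPj_pj r).1
  have h1 : f ∘ₗ pj r = r.subtype ∘ₗ (f.restrict hf ∘ₗ q) := by
    ext y; rfl
  have h2 : (f.restrict hf ∘ₗ q) ∘ₗ r.subtype = f.restrict hf := by
    ext y
    simp only [LinearMap.comp_apply, Submodule.subtype_apply, q]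
    congr 2
    exact Subtype.ext ((isPj_pj r).2 _ y.2)
  rw [trOn, h1, LinearMap.trace_comp_comm', h2]

theorem trOn_top (f : V →ₗ[ℂ] V) : trOn ⊤ f = LinearMap.trace ℂ V f := by
  rw [trOn_eq (r := ⊤) (P := LinearMap.id) ⟨fun _ => Submodule.mem_top, fun _ _ => rfl⟩
    (fun _ _ => Submodule.mem_top)]
  rfl

theorem trOn_bot (f : V →ₗ[ℂ] V) : trOn ⊥ f = 0 := by
  rw [trOn_congr (g := 0) (fun y hy => by simp [(Submodule.mem_bot ℂ).1 hy]), trOn_zero]

theorem trOn_id (r : Submodule ℂ V) : trOn r LinearMap.id = finrank ℂ r := by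
  rw [trOn_eq_restrict (fun _ h => h)]
  exact LinearMap.trace_id ℂ r

theorem trOn_comm {r : Submodule ℂ V} {f g : V →ₗ[ℂ] V} (hf : ∀ y ∈ r, f y ∈ r)
    (hg : ∀ y ∈ r, g y ∈ r) : trOn r (f ∘ₗ g) = trOn r (g ∘ₗ f) := by
  rw [trOn_eq_restrict (f := f ∘ₗ g) (fun y hy => hf _ (hg y hy)),
    trOn_eq_restrict (f := g ∘ₗ f) (fun y hy => hg _ (hf y hy))]
  exact LinearMap.trace_comp_comm' (g.restrict hg) (f.restrict hf)

/-- Adding one vector to an invariant subspace. -/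
theorem trOn_step {r : Submodule ℂ V} {f : V →ₗ[ℂ] V} (hf : ∀ y ∈ r, f y ∈ r) {x : V}
    (hx : x ∉ r) {k : ℂ} (hk : f x - k • x ∈ r) :
    trOn (r ⊔ ℂ ∙ x) f = trOn r f + k := by
  obtain ⟨l, hlx, hlr⟩ := r.exists_dual_map_eq_bot_of_notMem hx inferInstance
  have hl0 : ∀ y ∈ r, l y = 0 := fun y hy => by
    have : l y ∈ r.map l := Submodule.mem_map_of_mem hy
    rwa [hlr, Submodule.mem_bot] at this
  let m : V →ₗ[ℂ] ℂ := (l x)⁻¹ • l
  have hmx : m x = 1 := by simp [m, hlx]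
  have hm0 : ∀ y ∈ r, m y = 0 := fun y hy => by simp [m, hl0 y hy]
  let E : V →ₗ[ℂ] V := m.smulRight x
  let P : V →ₗ[ℂ] V := pj r ∘ₗ (LinearMap.id - E)
  have hP : IsPj r P := ⟨fun y => (isPj_pj r).1 _, fun y hy => by
    simp [P, E, hm0 y hy, (isPj_pj r).2 y hy]⟩
  have hP2 : IsPj (r ⊔ ℂ ∙ x) (P + E) := by
    refine ⟨fun y => Submodule.add_mem_sup (hP.1 y) (Submodule.smul_mem _ _
      (Submodule.mem_span_singleton_self x)), fun y hy => ?_⟩
    obtain ⟨a, ha, b, hb, rfl⟩ := Submodule.mem_sup.1 hy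
    obtain ⟨c, rfl⟩ := Submodule.mem_span_singleton.1 hb
    simp [P, E, hm0 a ha, hmx, (isPj_pj r).2 a ha]
  have hf2 : ∀ y ∈ r ⊔ ℂ ∙ x, f y ∈ r ⊔ ℂ ∙ x := by
    intro y hy
    obtain ⟨a, ha, b, hb, rfl⟩ := Submodule.mem_sup.1 hy
    obtain ⟨c, rfl⟩ := Submodule.mem_span_singleton.1 hb
    have : f (a + c • x) = (f a + c • (f x - k • x)) + (c * k) • x := by
      rw [map_add, map_smul, smul_sub, mul_smul]; abel
    rw [this]
    exact Submodule.add_mem_sup (r.add_mem (hf a ha) (r.smul_mem _ hk))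
      (Submodule.smul_mem _ _ (Submodule.mem_span_singleton_self x))
  rw [trOn_eq hP2 hf2, trOn_eq hP hf, LinearMap.comp_add, map_add]
  congr 1
  have : f ∘ₗ E = m.smulRight (f x) := by ext y; simp [E]
  rw [this, LinearMap.trace_smulRight]
  have h2 := hm0 _ hk
  rw [map_sub, map_smul, hmx, smul_eq_mul, mul_one, sub_eq_zero] at h2
  exact h2

theorem trOn_equiv {W : Type*} [AddCommGroup W] [Module ℂ W] [FiniteDimensional ℂ W]
    (e : V ≃ₗ[ℂ] W) {r : Submodule ℂ V} {f : V →ₗ[ℂ] V} (hf : ∀ y ∈ r, f y ∈ r)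
    {g : W →ₗ[ℂ] W} (hg : ∀ y, g (e y) = e (f y)) :
    trOn (r.map (e : V →ₗ[ℂ] W)) g = trOn r f := by
  have hP : IsPj (r.map (e : V →ₗ[ℂ] W)) (e.conj (pj r)) := by
    refine ⟨fun y => Submodule.mem_map_of_mem ((isPj_pj r).1 _), ?_⟩
    rintro _ ⟨y, hy, rfl⟩
    simp [LinearEquiv.conj_apply, (isPj_pj r).2 y hy]
  rw [trOn_eq hP (by rintro _ ⟨y, hy, rfl⟩; exact ⟨f y, hf y hy, (hg y).symm⟩), trOn,
    ← LinearMap.trace_conj' (f ∘ₗ pj r) e]
  congr 1
  ext y
  simp [LinearEquiv.conj_apply, hg]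

/-- If `f` is nilpotent modulo nothing on `r`, its trace there vanishes. -/
theorem trOn_of_isNilpotent {r : Submodule ℂ V} {f : V →ₗ[ℂ] V} (hf : ∀ y ∈ r, f y ∈ r)
    (hn : IsNilpotent f) : trOn r f = 0 := by
  rw [trOn_eq_restrict hf]
  exact (LinearMap.isNilpotent_trace_of_isNilpotent
    (Module.End.isNilpotent.restrict hf hn)).eq_zero

end Kol68
end

-- merged part: Pool.Agent.Work.MP_c53807_ag.LowDefs
section
/-!
Lie algebra data for the low-dimensional cases.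
-/

open scoped Matrix

namespace Kol68

/-- Complex `N × N` matrices. -/
abbrev Mt (N : ℕ) : Type := Matrix (Fin N) (Fin N) ℂ

variable {N : ℕ}

/-- `y ↦ x y - y x`. -/
noncomputable def adM (x : Mt N) : Mt N →ₗ[ℂ] Mt N :=
  LinearMap.mulLeft ℂ x - LinearMap.mulRight ℂ x

theorem adM_apply (x y : Mt N) : adM x y = x * y - y * x := rfl

/-- `[a, r] ⊆ r`. -/
def Stab (a r : Submodule ℂ (Mt N)) : Prop := ∀ x ∈ a, ∀ y ∈ r, adM x y ∈ r

/-- `a · W ⊆ W`. -/
def StabV (a : Submodule ℂ (Mt N)) (W : Submodule ℂ (Fin N → ℂ)) : Prop :=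
  ∀ x ∈ a, ∀ w ∈ W, x *ᵥ w ∈ W

/-- A matrix Lie algebra `g`, a vector `v`, the stabiliser `h` of the line `ℂ v` in `g`, and an
integral diagonalisable `d ∈ h` with trace zero on `g`-stable subspaces and positive trace on
the other `h`-stable subspaces. -/
structure LowData (N : ℕ) where
  g : Submodule ℂ (Mt N)
  h : Submodule ℂ (Mt N)
  v : Fin N → ℂ
  d : Mt N
  Q : GL (Fin N) ℂ
  a : Fin N → ℤ
  hv : v ≠ 0
  g_lie : Stab g g
  mem_h : ∀ x, x ∈ h ↔ x ∈ g ∧ ∃ c : ℂ, x *ᵥ v = c • v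
  d_mem : d ∈ h
  d_eq : d = (Q : Mt N) * Matrix.diagonal (fun i => (a i : ℂ)) * ((Q⁻¹ : GL (Fin N) ℂ) : Mt N)
  tr_ideal : ∀ r, r ≤ g → Stab g r → trOn r (adM d) = 0
  tr_pos : ∀ r, r ≤ g → Stab h r → Stab g r ∨ ∃ n : ℕ, 0 < n ∧ trOn r (adM d) = n
  tr_V : ∀ W, StabV g W → trOn W (Matrix.toLin' d) = 0
  no_ideal : ∀ r, h ≤ r → r ≤ g → Stab g r → r = g

/-- The conclusion in the low-dimensional cases: nilpotent `E, F ∈ g` acting on the vectors
`F ^ k v` like an `sl₂`-pair, with `h` and `F` generating `g`. -/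
def LowData.Good (D : LowData N) : Prop :=
  ∃ E F : Mt N, E ∈ D.g ∧ F ∈ D.g ∧ IsNilpotent E ∧ IsNilpotent F ∧ F ∉ D.h ∧ E *ᵥ D.v = 0 ∧
    (∃ lam : ℂ, ∀ k : ℕ, E *ᵥ (F ^ (k + 1) *ᵥ D.v) = ((k + 1) * (lam - k)) • (F ^ k *ᵥ D.v)) ∧
    ∀ k : Submodule ℂ (Mt N), D.h ≤ k → k ≤ D.g → F ∈ k → Stab k k → k = D.g

/-- The largest `a`-stable subspace of `p`. -/
noncomputable def core (a p : Submodule ℂ (Mt N)) : Submodule ℂ (Mt N) :=
  sSup {r | r ≤ p ∧ Stab a r}

/-- The smallest `g`-stable subspace containing `v`. -/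
noncomputable def LowData.V' (D : LowData N) : Submodule ℂ (Fin N → ℂ) :=
  sInf {W | D.v ∈ W ∧ StabV D.g W}

end Kol68
end

-- merged part: Pool.Agent.Work.MP_c53807_ag.Basic
section
/-!
Base change of subspaces, subquotients, derivations.
-/

open scoped Matrix

namespace Kol68

section BC

variable {ι κ m n p : Type} {R S : Type} [CommRing R] [Algebra ℂ R] [CommRing S] [Algebra ℂ S]

/-- A constant vector. -/
def cv (R : Type) [CommRing R] [Algebra ℂ R] (b : ι → ℂ) : ι → R := fun i => algebraMap ℂ R (b i)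

/-- A constant matrix. -/
def cm (R : Type) [CommRing R] [Algebra ℂ R] (B : Matrix m n ℂ) : Matrix m n R :=
  B.map (algebraMap ℂ R)

@[simp] theorem cv_apply (b : ι → ℂ) (i : ι) : cv R b i = algebraMap ℂ R (b i) := rfl
@[simp] theorem cm_apply (B : Matrix m n ℂ) (i : m) (j : n) :
    cm R B i j = algebraMap ℂ R (B i j) := rfl

@[simp] theorem cv_self (b : ι → ℂ) : cv ℂ b = b := rfl
@[simp] theorem cm_self (B : Matrix m n ℂ) : cm ℂ B = B := rfl

theorem cm_mul [Fintype n] (A : Matrix m n ℂ) (B : Matrix n p ℂ) :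
    cm R (A * B) = cm R A * cm R B := Matrix.map_mul

@[simp] theorem cm_one [DecidableEq n] : cm R (1 : Matrix n n ℂ) = 1 :=
  Matrix.map_one _ (map_zero _) (map_one _)

@[simp] theorem cm_zero : cm R (0 : Matrix m n ℂ) = 0 := Matrix.map_zero _ (map_zero _)

theorem cm_add (A B : Matrix m n ℂ) : cm R (A + B) = cm R A + cm R B := by
  ext i j; simp

theorem cm_sub (A B : Matrix m n ℂ) : cm R (A - B) = cm R A - cm R B := by
  ext i j; simp

theorem cm_neg (A : Matrix m n ℂ) : cm R (-A) = -cm R A := by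
  ext i j; simp

theorem cm_smul (c : ℂ) (A : Matrix m n ℂ) : cm R (c • A) = algebraMap ℂ R c • cm R A := by
  ext i j; simp

theorem cm_sum (s : Finset ι) (f : ι → Matrix m n ℂ) :
    cm R (∑ i ∈ s, f i) = ∑ i ∈ s, cm R (f i) := by
  ext i j; simp [Matrix.sum_apply]

theorem cm_pow [Fintype n] [DecidableEq n] (A : Matrix n n ℂ) (k : ℕ) :
    cm R (A ^ k) = cm R A ^ k := by
  induction k with
  | zero => simp
  | succ k ih => rw [pow_succ, pow_succ, cm_mul, ih]

theorem cm_mulVec [Fintype n] (A : Matrix m n ℂ) (b : n → ℂ) :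
    cm R A *ᵥ cv R b = cv R (A *ᵥ b) := by
  ext i; simp [Matrix.mulVec, dotProduct]

theorem cv_smul (c : ℂ) (b : ι → ℂ) : cv R (c • b) = algebraMap ℂ R c • cv R b := by
  ext i; simp

@[simp] theorem cv_zero : cv R (0 : ι → ℂ) = 0 := by ext i; simp

theorem cm_map (f : R →ₐ[ℂ] S) (B : Matrix m n ℂ) : (cm R B).map f = cm S B := by
  ext i j; simp

theorem trace_cm [Fintype n] (B : Matrix n n ℂ) :
    (cm R B).trace = algebraMap ℂ R B.trace := by
  simp [Matrix.trace]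

theorem eq_zero_of_forall_dual {x : R} (h : ∀ φ : R →ₗ[ℂ] ℂ, φ x = 0) : x = 0 :=
  (Module.forall_dual_apply_eq_zero_iff ℂ x).1 h

theorem lin_mul_alg (φ : R →ₗ[ℂ] S) (x : R) (c : ℂ) :
    φ (x * algebraMap ℂ R c) = φ x * algebraMap ℂ S c := by
  rw [mul_comm, ← Algebra.smul_def, map_smul, Algebra.smul_def, mul_comm]

theorem lin_alg_mul (φ : R →ₗ[ℂ] S) (x : R) (c : ℂ) :
    φ (algebraMap ℂ R c * x) = algebraMap ℂ S c * φ x := by
  rw [← Algebra.smul_def, map_smul, Algebra.smul_def]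

theorem map_cm_mul [Fintype n] (φ : R →ₗ[ℂ] S) (A : Matrix m n ℂ) (Y : Matrix n p R) :
    (cm R A * Y).map φ = cm S A * Y.map φ := by
  ext i j; simp [Matrix.mul_apply, lin_alg_mul]

theorem map_mul_cm [Fintype n] (φ : R →ₗ[ℂ] S) (Y : Matrix m n R) (A : Matrix n p ℂ) :
    (Y * cm R A).map φ = Y.map φ * cm S A := by
  ext i j; simp [Matrix.mul_apply, lin_mul_alg]

theorem comp_cm_mulVec [Fintype n] (φ : R →ₗ[ℂ] S) (A : Matrix m n ℂ) (y : n → R) :
    φ ∘ (cm R A *ᵥ y) = cm S A *ᵥ (φ ∘ y) := by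
  ext i; simp [Matrix.mulVec, dotProduct, lin_alg_mul]

theorem comp_mulVec_cv [Fintype n] (φ : R →ₗ[ℂ] S) (Y : Matrix m n R) (b : n → ℂ) :
    φ ∘ (Y *ᵥ cv R b) = Y.map φ *ᵥ cv S b := by
  ext i; simp [Matrix.mulVec, dotProduct, lin_mul_alg]

/-- The base change to `R` of a subspace of `ℂ ^ ι`. -/
def bc (r : Submodule ℂ (ι → ℂ)) (R : Type) [CommRing R] [Algebra ℂ R] :
    Submodule R (ι → R) where
  carrier := {y | ∀ φ : R →ₗ[ℂ] ℂ, φ ∘ y ∈ r}
  add_mem' {a b} ha hb φ := by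
    have : φ ∘ (a + b) = φ ∘ a + φ ∘ b := by ext; simp
    rw [this]; exact r.add_mem (ha φ) (hb φ)
  zero_mem' φ := by
    have : φ ∘ (0 : ι → R) = 0 := by ext; simp
    rw [this]; exact r.zero_mem
  smul_mem' c y hy φ := hy (φ ∘ₗ LinearMap.mulLeft ℂ c)

/-- The base change to `R` of a space of matrices. -/
def bcM (s : Submodule ℂ (Matrix m n ℂ)) (R : Type) [CommRing R] [Algebra ℂ R] :
    Submodule R (Matrix m n R) where
  carrier := {Y | ∀ φ : R →ₗ[ℂ] ℂ, Y.map φ ∈ s}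
  add_mem' {a b} ha hb φ := by
    have : (a + b).map φ = a.map φ + b.map φ := by ext; simp
    rw [this]; exact s.add_mem (ha φ) (hb φ)
  zero_mem' φ := by
    have : (0 : Matrix m n R).map φ = 0 := by ext; simp
    rw [this]; exact s.zero_mem
  smul_mem' c y hy φ := hy (φ ∘ₗ LinearMap.mulLeft ℂ c)

theorem mem_bc {r : Submodule ℂ (ι → ℂ)} {y : ι → R} :
    y ∈ bc r R ↔ ∀ φ : R →ₗ[ℂ] ℂ, φ ∘ y ∈ r := Iff.rfl

theorem mem_bcM {s : Submodule ℂ (Matrix m n ℂ)} {Y : Matrix m n R} :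
    Y ∈ bcM s R ↔ ∀ φ : R →ₗ[ℂ] ℂ, Y.map φ ∈ s := Iff.rfl

theorem cv_mem_bc {r : Submodule ℂ (ι → ℂ)} {b : ι → ℂ} (hb : b ∈ r) : cv R b ∈ bc r R := by
  intro φ
  have : φ ∘ cv R b = φ 1 • b := by
    ext i; simp [Algebra.algebraMap_eq_smul_one, mul_comm]
  rw [this]; exact r.smul_mem _ hb

theorem cm_mem_bcM {s : Submodule ℂ (Matrix m n ℂ)} {B : Matrix m n ℂ} (hb : B ∈ s) :
    cm R B ∈ bcM s R := by
  intro φ
  have : (cm R B).map φ = φ 1 • B := by
    ext i; simp [Algebra.algebraMap_eq_smul_one, mul_comm]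
  rw [this]; exact s.smul_mem _ hb

theorem mem_bc_self {r : Submodule ℂ (ι → ℂ)} {y : ι → ℂ} : y ∈ bc r ℂ ↔ y ∈ r :=
  ⟨fun h => h LinearMap.id, fun h => cv_mem_bc (R := ℂ) h⟩

theorem mem_bcM_self {s : Submodule ℂ (Matrix m n ℂ)} {Y : Matrix m n ℂ} :
    Y ∈ bcM s ℂ ↔ Y ∈ s :=
  ⟨fun h => h LinearMap.id, fun h => cm_mem_bcM (R := ℂ) h⟩

theorem bc_mono {r r' : Submodule ℂ (ι → ℂ)} (h : r ≤ r') : bc r R ≤ bc r' R :=
  fun _ hy φ => h (hy φ)

theorem bcM_mono {s s' : Submodule ℂ (Matrix m n ℂ)} (h : s ≤ s') : bcM s R ≤ bcM s' R :=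
  fun _ hy φ => h (hy φ)

theorem bc_map {r : Submodule ℂ (ι → ℂ)} {y : ι → R} (ψ : R →ₗ[ℂ] S) (hy : y ∈ bc r R) :
    ψ ∘ y ∈ bc r S := fun φ => hy (φ ∘ₗ ψ)

theorem bcM_map {s : Submodule ℂ (Matrix m n ℂ)} {Y : Matrix m n R} (ψ : R →ₗ[ℂ] S)
    (hy : Y ∈ bcM s R) : Y.map ψ ∈ bcM s S := fun φ => hy (φ ∘ₗ ψ)

theorem bc_of_map {r : Submodule ℂ (ι → ℂ)} {y : ι → R} (ψ : R →ₗ[ℂ] S)
    (hψ : Function.Injective ψ) (hy : ψ ∘ y ∈ bc r S) : y ∈ bc r R := by
  obtain ⟨g, hg⟩ := ψ.exists_leftInverse_of_injective (LinearMap.ker_eq_bot.2 hψ)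
  have := bc_map g hy
  have e : g ∘ ψ ∘ y = y := by
    ext i; exact LinearMap.congr_fun hg (y i)
  rwa [e] at this

theorem bcM_of_map {s : Submodule ℂ (Matrix m n ℂ)} {Y : Matrix m n R} (ψ : R →ₗ[ℂ] S)
    (hψ : Function.Injective ψ) (hy : Y.map ψ ∈ bcM s S) : Y ∈ bcM s R := by
  obtain ⟨g, hg⟩ := ψ.exists_leftInverse_of_injective (LinearMap.ker_eq_bot.2 hψ)
  have := bcM_map g hy
  have e : (Y.map ψ).map g = Y := by
    ext i j; exact LinearMap.congr_fun hg (Y i j)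
  rwa [e] at this

theorem eq_zero_of_mem_bc_bot {y : ι → R} (hy : y ∈ bc (⊥ : Submodule ℂ (ι → ℂ)) R) : y = 0 := by
  ext i
  exact eq_zero_of_forall_dual fun φ => congrFun ((Submodule.mem_bot ℂ).1 (hy φ)) i

theorem mem_bc_top (y : ι → R) : y ∈ bc (⊤ : Submodule ℂ (ι → ℂ)) R := fun _ => trivial

theorem mem_bc_inf {r r' : Submodule ℂ (ι → ℂ)} {y : ι → R} :
    y ∈ bc (r ⊓ r') R ↔ y ∈ bc r R ∧ y ∈ bc r' R :=
  ⟨fun h => ⟨fun φ => (h φ).1, fun φ => (h φ).2⟩, fun h φ => ⟨h.1 φ, h.2 φ⟩⟩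

theorem mem_bcM_inf {r r' : Submodule ℂ (Matrix m n ℂ)} {y : Matrix m n R} :
    y ∈ bcM (r ⊓ r') R ↔ y ∈ bcM r R ∧ y ∈ bcM r' R :=
  ⟨fun h => ⟨fun φ => (h φ).1, fun φ => (h φ).2⟩, fun h φ => ⟨h.1 φ, h.2 φ⟩⟩

theorem cm_mulVec_mem_bc [Fintype n] {r : Submodule ℂ (n → ℂ)} {r' : Submodule ℂ (m → ℂ)}
    {A : Matrix m n ℂ} (hA : ∀ b ∈ r, A *ᵥ b ∈ r') {y : n → R} (hy : y ∈ bc r R) :
    cm R A *ᵥ y ∈ bc r' R := fun φ => by
  rw [comp_cm_mulVec]; exact hA _ (hy φ)

theorem mem_span_of_mem_bc [Fintype ι] {r : Submodule ℂ (ι → ℂ)} {y : ι → R} (hy : y ∈ bc r R) :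
    y ∈ Submodule.span R (cv R '' (r : Set (ι → ℂ))) := by
  classical
  have : y = ∑ j, y j • cv R (pj r (Pi.single j 1)) := by
    ext i
    rw [← sub_eq_zero]
    refine eq_zero_of_forall_dual fun φ => ?_
    have h1 := (isPj_pj r).2 _ (hy φ)
    have h2 : φ ∘ y = ∑ j, φ (y j) • Pi.single j (1 : ℂ) := by
      ext k; simp [Finset.sum_apply, Pi.single_apply]
    have h3 := congrFun h1 i
    rw [h2, map_sum] at h3
    rw [map_sub, Finset.sum_apply, map_sum, sub_eq_zero]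
    simp only [map_smul, Finset.sum_apply, Pi.smul_apply, smul_eq_mul] at h3
    simp only [Pi.smul_apply, smul_eq_mul, cv_apply, lin_mul_alg]
    simpa [Pi.single_apply] using h3.symm
  rw [this]
  exact Submodule.sum_mem _ fun j _ => Submodule.smul_mem _ _
    (Submodule.subset_span ⟨_, (isPj_pj r).1 _, rfl⟩)

/-- A matrix as a vector. -/
def vec (R : Type) [CommRing R] : Matrix m n R ≃ₗ[R] (m × n → R) where
  toFun Y := fun ij => Y ij.1 ij.2
  invFun y := Matrix.of fun i j => y (i, j)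
  map_add' _ _ := rfl
  map_smul' _ _ := rfl
  left_inv _ := rfl
  right_inv _ := rfl

@[simp] theorem vec_apply (Y : Matrix m n R) (ij : m × n) : vec R Y ij = Y ij.1 ij.2 := rfl
@[simp] theorem vec_symm_apply (y : m × n → R) (i : m) (j : n) :
    (vec R).symm y i j = y (i, j) := rfl

/-- A space of matrices as a space of vectors. -/
def vs (s : Submodule ℂ (Matrix m n ℂ)) : Submodule ℂ (m × n → ℂ) :=
  s.map (vec (m := m) (n := n) ℂ).toLinearMap

theorem vec_mem_vs {s : Submodule ℂ (Matrix m n ℂ)} {Y : Matrix m n ℂ} :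
    vec ℂ Y ∈ vs s ↔ Y ∈ s :=
  ⟨fun ⟨_, h, e⟩ => (vec ℂ).injective e ▸ h, fun h => ⟨Y, h, rfl⟩⟩

theorem mem_vs {s : Submodule ℂ (Matrix m n ℂ)} {y : m × n → ℂ} :
    y ∈ vs s ↔ (vec ℂ).symm y ∈ s := by
  rw [← vec_mem_vs, LinearEquiv.apply_symm_apply]

theorem vs_mono {s s' : Submodule ℂ (Matrix m n ℂ)} (h : s ≤ s') : vs s ≤ vs s' :=
  Submodule.map_mono h

theorem vec_mem_bc {s : Submodule ℂ (Matrix m n ℂ)} {Y : Matrix m n R} :
    vec R Y ∈ bc (vs s) R ↔ Y ∈ bcM s R :=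
  forall_congr' fun φ => vec_mem_vs (Y := Y.map φ)

theorem vec_cm (B : Matrix m n ℂ) : vec R (cm R B) = cv R (vec ℂ B) := rfl

theorem mem_span_of_mem_bcM [Fintype m] [Fintype n] {s : Submodule ℂ (Matrix m n ℂ)}
    {Y : Matrix m n R} (hy : Y ∈ bcM s R) :
    Y ∈ Submodule.span R (cm R '' (s : Set (Matrix m n ℂ))) := by
  have h := mem_span_of_mem_bc (vec_mem_bc.2 hy)
  have h2 := Submodule.mem_map_of_mem (f := (vec (m := m) (n := n) R).symm.toLinearMap) h
  rw [Submodule.map_span] at h2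
  refine Submodule.span_mono ?_ h2
  rintro _ ⟨_, ⟨b, hb, rfl⟩, rfl⟩
  exact ⟨(vec ℂ).symm b, mem_vs.1 hb, rfl⟩

/-- Extending a statement from constant vectors to the base change. -/
theorem bc_le [Fintype ι] {r : Submodule ℂ (ι → ℂ)} {T : Submodule R (ι → R)}
    (h : ∀ b ∈ r, cv R b ∈ T) : bc r R ≤ T := fun _ hy =>
  (Submodule.span_le.2 (by rintro _ ⟨b, hb, rfl⟩; exact h b hb)) (mem_span_of_mem_bc hy)

theorem bcM_le [Fintype m] [Fintype n] {s : Submodule ℂ (Matrix m n ℂ)}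
    {T : Submodule R (Matrix m n R)} (h : ∀ b ∈ s, cm R b ∈ T) : bcM s R ≤ T := fun _ hy =>
  (Submodule.span_le.2 (by rintro _ ⟨b, hb, rfl⟩; exact h b hb)) (mem_span_of_mem_bcM hy)

theorem bcM_lin [Fintype m] [Fintype n] {s : Submodule ℂ (Matrix m n ℂ)} {W : Type*}
    [AddCommGroup W] [Module R W] (f : Matrix m n R →ₗ[R] W) (T : Submodule R W)
    (h : ∀ b ∈ s, f (cm R b) ∈ T) {Y : Matrix m n R} (hY : Y ∈ bcM s R) : f Y ∈ T :=
  bcM_le (T := T.comap f) h hY

theorem bc_lin [Fintype ι] {r : Submodule ℂ (ι → ℂ)} {W : Type*}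
    [AddCommGroup W] [Module R W] (f : (ι → R) →ₗ[R] W) (T : Submodule R W)
    (h : ∀ b ∈ r, f (cv R b) ∈ T) {y : ι → R} (hy : y ∈ bc r R) : f y ∈ T :=
  bc_le (T := T.comap f) h hy

theorem mul_mem_bcM [Fintype m] [Fintype n] [Fintype p] {s : Submodule ℂ (Matrix m n ℂ)}
    {s' : Submodule ℂ (Matrix n p ℂ)} {s'' : Submodule ℂ (Matrix m p ℂ)}
    (h : ∀ a ∈ s, ∀ b ∈ s', a * b ∈ s'') {X : Matrix m n R} {Y : Matrix n p R}
    (hX : X ∈ bcM s R) (hY : Y ∈ bcM s' R) : X * Y ∈ bcM s'' R := by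
  refine bcM_lin (s := s) (mulRightLinearMap m R Y) _ (fun a ha => ?_) hX
  intro φ
  change (cm R a * Y).map φ ∈ s''
  rw [map_cm_mul]
  exact h a ha _ (hY φ)

variable [Fintype n] [DecidableEq n]

/-- The base change of a matrix algebra. -/
def bcA (A : Subalgebra ℂ (Matrix n n ℂ)) (R : Type) [CommRing R] [Algebra ℂ R] :
    Subalgebra R (Matrix n n R) :=
  (bcM (Subalgebra.toSubmodule A) R).toSubalgebra
    (by simpa using cm_mem_bcM (R := R) (s := Subalgebra.toSubmodule A) A.one_mem)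
    (fun _ _ hx hy => mul_mem_bcM (fun _ ha _ hb => A.mul_mem ha hb) hx hy)

theorem mem_bcA {A : Subalgebra ℂ (Matrix n n ℂ)} {Y : Matrix n n R} :
    Y ∈ bcA A R ↔ Y ∈ bcM (Subalgebra.toSubmodule A) R := Iff.rfl

theorem cm_mem_bcA {A : Subalgebra ℂ (Matrix n n ℂ)} {B : Matrix n n ℂ} (h : B ∈ A) :
    cm R B ∈ bcA A R := cm_mem_bcM (s := Subalgebra.toSubmodule A) h

theorem bcA_mono {A A' : Subalgebra ℂ (Matrix n n ℂ)} (h : A ≤ A') : bcA A R ≤ bcA A' R :=
  fun _ hy φ => h (hy φ)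

omit [Algebra ℂ R] in
theorem inv_mem_subalgebra (A : Subalgebra R (Matrix n n R)) (g : GL n R)
    (hg : (g : Matrix n n R) ∈ A) : ((g⁻¹ : GL n R) : Matrix n n R) ∈ A := by
  set M : Matrix n n R := (g : Matrix n n R) with hM
  have hch := M.aeval_self_charpoly
  have hsplit := M.charpoly.divX_mul_X_add
  rw [← hsplit, map_add, map_mul, Polynomial.aeval_X, Polynomial.aeval_C] at hch
  have hdet : IsUnit (M.charpoly.coeff 0) := by
    have h1 := M.det_eq_sign_charpoly_coeff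
    have h2 : IsUnit M.det := (Matrix.isUnit_iff_isUnit_det _).1 g.isUnit
    rw [h1] at h2
    exact isUnit_of_mul_isUnit_right h2
  obtain ⟨u, hu⟩ := hdet
  have hq : Polynomial.aeval M M.charpoly.divX ∈ A :=
    (Algebra.adjoin_le (by simpa using hg)) (Polynomial.aeval_mem_adjoin_singleton R M)
  have : ((g⁻¹ : GL n R) : Matrix n n R) =
      (-(u⁻¹ : Rˣ) : R) • Polynomial.aeval M M.charpoly.divX := by
    have h3 : Polynomial.aeval M M.charpoly.divX * M = -(u : R) • (1 : Matrix n n R) := by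
      rw [eq_neg_of_add_eq_zero_left hch, ← hu, Algebra.algebraMap_eq_smul_one, neg_smul]
    have h4 : ((-(u⁻¹ : Rˣ) : R) • Polynomial.aeval M M.charpoly.divX) * M = 1 := by
      rw [smul_mul_assoc, h3, smul_smul]; simp
    calc ((g⁻¹ : GL n R) : Matrix n n R) = 1 * ((g⁻¹ : GL n R) : Matrix n n R) := (one_mul _).symm
      _ = _ := by rw [← h4, mul_assoc, hM, Units.mul_inv, mul_one]
  rw [this]
  exact A.smul_mem hq _

/-- The matrices preserving `r`. -/
def presA (r : Submodule ℂ (n → ℂ)) : Subalgebra ℂ (Matrix n n ℂ) where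
  carrier := {M | ∀ b ∈ r, M *ᵥ b ∈ r}
  mul_mem' {a b} ha hb y hy := by rw [← Matrix.mulVec_mulVec]; exact ha _ (hb y hy)
  add_mem' {a b} ha hb y hy := by rw [Matrix.add_mulVec]; exact r.add_mem (ha y hy) (hb y hy)
  algebraMap_mem' c y hy := by
    rw [Algebra.algebraMap_eq_smul_one, Matrix.smul_mulVec, Matrix.one_mulVec]
    exact r.smul_mem c hy

theorem mem_presA {r : Submodule ℂ (n → ℂ)} {M : Matrix n n ℂ} :
    M ∈ presA r ↔ ∀ b ∈ r, M *ᵥ b ∈ r := Iff.rfl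

/-- `M` preserves the base change of `r`. -/
def Pres (r : Submodule ℂ (n → ℂ)) (M : Matrix n n R) : Prop := M ∈ bcA (presA r) R

theorem pres_iff_cv {r : Submodule ℂ (n → ℂ)} {M : Matrix n n R} :
    Pres r M ↔ ∀ b ∈ r, M *ᵥ cv R b ∈ bc r R := by
  constructor
  · intro h b hb φ
    rw [comp_mulVec_cv]; exact h φ b hb
  · intro h φ b hb
    have := h b hb φ
    rwa [comp_mulVec_cv] at this

theorem Pres.mulVec {r : Submodule ℂ (n → ℂ)} {M : Matrix n n R} (h : Pres r M) {y : n → R}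
    (hy : y ∈ bc r R) : M *ᵥ y ∈ bc r R :=
  bc_lin (Matrix.mulVecLin M) _ (pres_iff_cv.1 h) hy

theorem pres_of_mulVec {r : Submodule ℂ (n → ℂ)} {M : Matrix n n R}
    (h : ∀ y ∈ bc r R, M *ᵥ y ∈ bc r R) : Pres r M :=
  pres_iff_cv.2 fun _ hb => h _ (cv_mem_bc hb)

theorem pres_self {r : Submodule ℂ (n → ℂ)} {M : Matrix n n ℂ} : Pres r M ↔ M ∈ presA r :=
  mem_bcM_self (s := Subalgebra.toSubmodule (presA r))

theorem pres_cm {r : Submodule ℂ (n → ℂ)} {M : Matrix n n ℂ} (h : M ∈ presA r) :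
    Pres r (cm R M) := cm_mem_bcA h

theorem Pres.mul {r : Submodule ℂ (n → ℂ)} {M M' : Matrix n n R} (h : Pres r M) (h' : Pres r M') :
    Pres r (M * M') := Subalgebra.mul_mem _ h h'

theorem pres_one {r : Submodule ℂ (n → ℂ)} : Pres r (1 : Matrix n n R) := Subalgebra.one_mem _

theorem Pres.inv {r : Submodule ℂ (n → ℂ)} {g : GL n R} (h : Pres r (g : Matrix n n R)) :
    Pres r ((g⁻¹ : GL n R) : Matrix n n R) := inv_mem_subalgebra _ g h

theorem Pres.map {r : Submodule ℂ (n → ℂ)} {M : Matrix n n R} (h : Pres r M) (ψ : R →ₗ[ℂ] S) :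
    Pres r (M.map ψ) := bcM_map ψ h

theorem Pres.of_map {r : Submodule ℂ (n → ℂ)} {M : Matrix n n R} (ψ : R →ₗ[ℂ] S)
    (hψ : Function.Injective ψ) (h : Pres r (M.map ψ)) : Pres r M := bcM_of_map ψ hψ h

theorem pres_bot (M : Matrix n n R) : Pres ⊥ M := fun φ b hb => by
  rw [(Submodule.mem_bot ℂ).1 hb, Matrix.mulVec_zero]; exact Submodule.zero_mem _

theorem pres_top (M : Matrix n n R) : Pres ⊤ M := fun _ _ _ => trivial

end BC

end Kol68
end

-- merged part: Pool.Agent.Work.MP_c53807_ag.SQ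
section
/-!
Subquotients in matrix form, derivations and dual numbers.
-/

open scoped Matrix

namespace Kol68

section SQ

variable {n k : Type} [Fintype n] [DecidableEq n] [Fintype k] [DecidableEq k]
variable {R S : Type} [CommRing R] [Algebra ℂ R] [CommRing S] [Algebra ℂ S]

/-- Matrix description of the subquotient `r₂ / r₁ ≅ ℂ ^ k`. -/
structure SQ (r₁ r₂ : Submodule ℂ (n → ℂ)) (k : Type) [Fintype k] [DecidableEq k] where
  B : Matrix n k ℂ
  L : Matrix k n ℂ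
  le : r₁ ≤ r₂
  LB : L * B = 1
  B_mem : ∀ z, B *ᵥ z ∈ r₂
  L_ker : ∀ y ∈ r₁, L *ᵥ y = 0
  dec : ∀ y ∈ r₂, y - B *ᵥ (L *ᵥ y) ∈ r₁

theorem exists_SQ {r₁ r₂ : Submodule ℂ (n → ℂ)} (h : r₁ ≤ r₂) :
    Nonempty (SQ r₁ r₂ (Fin (Module.finrank ℂ r₂ - Module.finrank ℂ r₁))) := by
  obtain ⟨c, hc⟩ := (r₁.comap r₂.subtype).exists_isCompl
  have hdim : Module.finrank ℂ c = Module.finrank ℂ r₂ - Module.finrank ℂ r₁ := by
    have h1 := Submodule.finrank_add_eq_of_isCompl hc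
    rw [(Submodule.comapSubtypeEquivOfLe h).finrank_eq] at h1
    omega
  have : Module.Free ℂ c := Module.Free.of_divisionRing ℂ c
  let e : c ≃ₗ[ℂ] (Fin (Module.finrank ℂ r₂ - Module.finrank ℂ r₁) → ℂ) :=
    LinearEquiv.ofFinrankEq _ _ (by simpa using hdim)
  let Bl : (Fin (Module.finrank ℂ r₂ - Module.finrank ℂ r₁) → ℂ) →ₗ[ℂ] (n → ℂ) :=
    r₂.subtype ∘ₗ c.subtype ∘ₗ e.symm.toLinearMap
  let q : (n → ℂ) →ₗ[ℂ] r₂ := (pj r₂).codRestrict r₂ (isPj_pj r₂).1
  have hq : ∀ y : r₂, q y = y := fun y => Subtype.ext ((isPj_pj r₂).2 _ y.2)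
  let Ll : (n → ℂ) →ₗ[ℂ] (Fin (Module.finrank ℂ r₂ - Module.finrank ℂ r₁) → ℂ) :=
    e.toLinearMap ∘ₗ c.projectionOnto _ hc.symm ∘ₗ q
  refine ⟨⟨LinearMap.toMatrix' Bl, LinearMap.toMatrix' Ll, h, ?_, ?_, ?_, ?_⟩⟩
  · rw [← LinearMap.toMatrix'_comp, ← LinearMap.toMatrix'_id]
    congr 1
    refine LinearMap.ext fun z => ?_
    simp [Ll, Bl, hq]
  · intro z
    rw [LinearMap.toMatrix'_mulVec]
    exact (e.symm z : r₂).2
  · intro y hy
    rw [LinearMap.toMatrix'_mulVec]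
    have : c.projectionOnto _ hc.symm (q y) = 0 := by
      rw [hq ⟨y, h hy⟩]
      exact Submodule.projectionOnto_apply_of_mem_right hc.symm hy
    simp [Ll, this]
  · intro y hy
    rw [LinearMap.toMatrix'_mulVec, LinearMap.toMatrix'_mulVec]
    have h1 := Submodule.sub_projection_mem hc.symm (⟨y, hy⟩ : r₂)
    have h2 : Bl (Ll y) = (c.projection _ hc.symm ⟨y, hy⟩ : r₂) := by
      simp only [Ll, Bl, LinearMap.comp_apply, LinearEquiv.coe_coe, LinearEquiv.symm_apply_apply]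
      rw [hq ⟨y, hy⟩]; rfl
    rw [h2]
    exact h1

namespace SQ

variable {r₁ r₂ : Submodule ℂ (n → ℂ)} (T : SQ r₁ r₂ k)

/-- The matrix induced on the subquotient. -/
def π (M : Matrix n n R) : Matrix k k R := cm R T.L * M * cm R T.B

theorem LB' : cm R T.L * cm R T.B = 1 := by rw [← cm_mul, T.LB, cm_one]

theorem π_one : T.π (1 : Matrix n n R) = 1 := by rw [π, Matrix.mul_one, LB']

theorem π_add (M M' : Matrix n n R) : T.π (M + M') = T.π M + T.π M' := by
  simp [π, Matrix.mul_add, Matrix.add_mul]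

theorem π_sub (M M' : Matrix n n R) : T.π (M - M') = T.π M - T.π M' := by
  simp [π, Matrix.mul_sub, Matrix.sub_mul]

theorem π_smul (c : R) (M : Matrix n n R) : T.π (c • M) = c • T.π M := by
  simp [π]

theorem π_zero : T.π (0 : Matrix n n R) = 0 := by simp [π]

/-- `π` as a linear map. -/
def πL (R : Type) [CommRing R] [Algebra ℂ R] : Matrix n n R →ₗ[R] Matrix k k R where
  toFun := T.π
  map_add' := T.π_add
  map_smul' := T.π_smul

theorem π_sum {ι : Type*} (s : Finset ι) (f : ι → Matrix n n R) :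
    T.π (∑ i ∈ s, f i) = ∑ i ∈ s, T.π (f i) := map_sum (T.πL R) f s

theorem π_map (ψ : R →ₗ[ℂ] S) (M : Matrix n n R) : (T.π M).map ψ = T.π (M.map ψ) := by
  rw [π, π, map_mul_cm, map_cm_mul]

theorem π_mapA (ψ : R →ₐ[ℂ] S) (M : Matrix n n R) : (T.π M).map ψ = T.π (M.map ψ) :=
  T.π_map ψ.toLinearMap M

theorem π_cm (M : Matrix n n ℂ) : T.π (cm R M) = cm R (T.π M) := by
  simp [π, cm_mul]

theorem B_mem' (z : k → R) : cm R T.B *ᵥ z ∈ bc r₂ R :=
  cm_mulVec_mem_bc (r := ⊤) (fun b _ => T.B_mem b) (mem_bc_top z)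

theorem L_ker' {y : n → R} (hy : y ∈ bc r₁ R) : cm R T.L *ᵥ y = 0 :=
  eq_zero_of_mem_bc_bot (cm_mulVec_mem_bc (fun b hb => by rw [T.L_ker b hb]; simp) hy)

theorem dec' {y : n → R} (hy : y ∈ bc r₂ R) : y - cm R T.B *ᵥ (cm R T.L *ᵥ y) ∈ bc r₁ R := by
  have := cm_mulVec_mem_bc (A := 1 - T.B * T.L) (r' := r₁)
    (fun b hb => by simpa [Matrix.sub_mulVec] using T.dec b hb) hy
  simpa [cm_sub, cm_mul, Matrix.sub_mulVec] using this

theorem mem_of_L_eq_zero {y : n → R} (hy : y ∈ bc r₂ R) (h : cm R T.L *ᵥ y = 0) :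
    y ∈ bc r₁ R := by
  simpa [h] using T.dec' hy

theorem L_mulVec {M : Matrix n n R} (h₁ : Pres r₁ M) {y : n → R} (hy : y ∈ bc r₂ R) :
    cm R T.L *ᵥ (M *ᵥ y) = T.π M *ᵥ (cm R T.L *ᵥ y) := by
  have := T.L_ker' (h₁.mulVec (T.dec' hy))
  rw [Matrix.mulVec_sub, Matrix.mulVec_sub, sub_eq_zero] at this
  rw [this, π]
  simp [Matrix.mulVec_mulVec, Matrix.mul_assoc]

theorem π_mul {M M' : Matrix n n R} (h₁ : Pres r₁ M) (h₂ : Pres r₂ M') :
    T.π (M * M') = T.π M * T.π M' := by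
  refine Matrix.toLin'.injective (LinearMap.ext fun z => ?_)
  have := T.L_mulVec h₁ (h₂.mulVec (T.B_mem' z))
  simpa [π, Matrix.mulVec_mulVec, Matrix.mul_assoc] using this

/-- For a subspace, `M B = B π(M)`. -/
theorem mul_B {r : Submodule ℂ (n → ℂ)} (T : SQ ⊥ r k) {M : Matrix n n R} (h : Pres r M) :
    M * cm R T.B = cm R T.B * T.π M := by
  refine Matrix.toLin'.injective (LinearMap.ext fun z => ?_)
  have := eq_zero_of_mem_bc_bot (T.dec' (h.mulVec (T.B_mem' z)))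
  rw [sub_eq_zero] at this
  simpa [π, Matrix.mulVec_mulVec, Matrix.mul_assoc] using this

theorem trace_π {M : Matrix n n ℂ} (h₁ : M ∈ presA r₁) (h₂ : M ∈ presA r₂) :
    (T.π M).trace = trOn r₂ (Matrix.toLin' M) - trOn r₁ (Matrix.toLin' M) := by
  let E : (n → ℂ) →ₗ[ℂ] (n → ℂ) := Matrix.toLin' (T.B * T.L)
  have hE : ∀ y, E y = T.B *ᵥ (T.L *ᵥ y) := fun y => by simp [E]
  let P : (n → ℂ) →ₗ[ℂ] (n → ℂ) := pj r₁ ∘ₗ (LinearMap.id - E)
  have hP : IsPj r₁ P := ⟨fun y => (isPj_pj r₁).1 _, fun y hy => by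
    simp [P, hE, T.L_ker y hy, (isPj_pj r₁).2 y hy]⟩
  have hP2 : IsPj r₂ (P + E) := by
    refine ⟨fun y => r₂.add_mem (T.le (hP.1 y)) (by rw [hE]; exact T.B_mem _), fun y hy => ?_⟩
    have := (isPj_pj r₁).2 _ (T.dec y hy)
    simp only [P, LinearMap.add_apply, LinearMap.comp_apply, LinearMap.sub_apply,
      LinearMap.id_apply, hE, this]
    abel
  rw [trOn_eq hP2 (fun y hy => h₂ y hy), trOn_eq hP (fun y hy => h₁ y hy), LinearMap.comp_add,
    map_add, add_sub_cancel_left, ← Matrix.toLin'_mul, Matrix.trace_toLin'_eq, π, cm_self, cm_self,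
    Matrix.trace_mul_comm, ← Matrix.mul_assoc, Matrix.trace_mul_comm]

theorem trace_π_bot {r : Submodule ℂ (n → ℂ)} (T : SQ ⊥ r k) {M : Matrix n n ℂ}
    (h : M ∈ presA r) : (T.π M).trace = trOn r (Matrix.toLin' M) := by
  rw [T.trace_π (pres_self.1 (pres_bot M)) h, trOn_bot, sub_zero]

include T in
theorem card_eq : Fintype.card k + Module.finrank ℂ r₁ = Module.finrank ℂ r₂ := by
  have := T.trace_π (M := 1) (Subalgebra.one_mem _) (Subalgebra.one_mem _)
  rw [π_one, Matrix.trace_one, Matrix.toLin'_one, trOn_id, trOn_id, eq_sub_iff_add_eq] at this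
  exact_mod_cast this

/-- The induced homomorphism on invertible matrices. -/
def πU (g : GL n R) (h₁ : Pres r₁ (g : Matrix n n R)) (h₂ : Pres r₂ (g : Matrix n n R)) :
    GL k R :=
  ⟨T.π (g : Matrix n n R), T.π ((g⁻¹ : GL n R) : Matrix n n R),
    by rw [← T.π_mul h₁ h₂.inv, Units.mul_inv, π_one],
    by rw [← T.π_mul h₁.inv h₂, Units.inv_mul, π_one]⟩

@[simp] theorem coe_πU (g : GL n R) (h₁ : Pres r₁ (g : Matrix n n R))
    (h₂ : Pres r₂ (g : Matrix n n R)) :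
    (T.πU g h₁ h₂ : Matrix k k R) = T.π (g : Matrix n n R) := rfl

@[simp] theorem coe_πU_inv (g : GL n R) (h₁ : Pres r₁ (g : Matrix n n R))
    (h₂ : Pres r₂ (g : Matrix n n R)) :
    (((T.πU g h₁ h₂)⁻¹ : GL k R) : Matrix k k R) = T.π ((g⁻¹ : GL n R) : Matrix n n R) := rfl

/-- The preimage in `r₂` of a subspace of the subquotient. -/
def lift (w : Submodule ℂ (k → ℂ)) : Submodule ℂ (n → ℂ) := r₂ ⊓ w.comap (Matrix.toLin' T.L)

theorem mem_lift {w : Submodule ℂ (k → ℂ)} {y : n → ℂ} :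
    y ∈ T.lift w ↔ y ∈ r₂ ∧ T.L *ᵥ y ∈ w := Iff.rfl

theorem le_lift (w : Submodule ℂ (k → ℂ)) : r₁ ≤ T.lift w := fun y hy =>
  ⟨T.le hy, by change T.L *ᵥ y ∈ w; rw [T.L_ker y hy]; exact w.zero_mem⟩

theorem lift_le (w : Submodule ℂ (k → ℂ)) : T.lift w ≤ r₂ := inf_le_left

theorem mem_presA_lift {w : Submodule ℂ (k → ℂ)} {M : Matrix n n ℂ} (h₁ : M ∈ presA r₁)
    (h₂ : M ∈ presA r₂) (h : T.π M ∈ presA w) : M ∈ presA (T.lift w) := by
  intro y hy
  refine ⟨h₂ y hy.1, ?_⟩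
  change T.L *ᵥ (M *ᵥ y) ∈ w
  have := T.L_mulVec (R := ℂ) (pres_self.2 h₁) (mem_bc_self.2 hy.1)
  rw [cm_self] at this
  rw [this]
  exact h _ hy.2

theorem eq_top_of_lift {w : Submodule ℂ (k → ℂ)} (h : T.lift w = r₂) : w = ⊤ := by
  rw [eq_top_iff]
  intro z _
  have : T.B *ᵥ z ∈ T.lift w := by rw [h]; exact T.B_mem z
  have h2 := this.2
  change T.L *ᵥ (T.B *ᵥ z) ∈ w at h2
  rwa [Matrix.mulVec_mulVec, T.LB, Matrix.one_mulVec] at h2

theorem eq_bot_of_lift {w : Submodule ℂ (k → ℂ)} (h : T.lift w = r₁) : w = ⊥ := by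
  rw [eq_bot_iff]
  intro z hz
  have : T.B *ᵥ z ∈ T.lift w := ⟨T.B_mem z, by
    change T.L *ᵥ (T.B *ᵥ z) ∈ w
    rwa [Matrix.mulVec_mulVec, T.LB, Matrix.one_mulVec]⟩
  rw [h] at this
  have h2 := T.L_ker _ this
  rwa [Matrix.mulVec_mulVec, T.LB, Matrix.one_mulVec] at h2

/-- A subquotient of a subquotient: the quotient of `r₂` by a lift. -/
def comp {k' : Type} [Fintype k'] [DecidableEq k'] {w : Submodule ℂ (k → ℂ)}
    (U : SQ w ⊤ k') : SQ (T.lift w) r₂ k' where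
  B := T.B * U.B
  L := U.L * T.L
  le := T.lift_le w
  LB := by rw [Matrix.mul_assoc, ← Matrix.mul_assoc T.L, T.LB, Matrix.one_mul, U.LB]
  B_mem z := by rw [← Matrix.mulVec_mulVec]; exact T.B_mem _
  L_ker y hy := by rw [← Matrix.mulVec_mulVec]; exact U.L_ker _ hy.2
  dec y hy := by
    refine ⟨r₂.sub_mem hy (by rw [← Matrix.mulVec_mulVec]; exact T.B_mem _), ?_⟩
    change T.L *ᵥ _ ∈ w
    have := U.dec (T.L *ᵥ y) trivial
    rw [Matrix.mulVec_sub]
    simp only [Matrix.mulVec_mulVec, ← Matrix.mul_assoc, T.LB, Matrix.one_mul] at this ⊢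
    exact this

end SQ

end SQ

section Der

/-- A derivation of a commutative ring. -/
structure Der (R : Type) [CommRing R] where
  toFun : R →+ R
  leib : ∀ a b, toFun (a * b) = a * toFun b + toFun a * b

variable {R S : Type} [CommRing R] [CommRing S] {m n p : Type}

instance : CoeFun (Der R) (fun _ => R → R) := ⟨fun D => D.toFun⟩

namespace Der

variable (D : Der R)

theorem map_one' : D 1 = 0 := by
  have := D.leib 1 1
  simpa using this

/-- The ring map `x ↦ x + ε D x`. -/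
def toDual : R →+* DualNumber R where
  toFun x := (x, D x)
  map_one' := TrivSqZeroExt.ext rfl D.map_one'
  map_mul' a b := TrivSqZeroExt.ext rfl (by simp [D.leib, mul_comm])
  map_zero' := TrivSqZeroExt.ext rfl (map_zero D.toFun)
  map_add' a b := TrivSqZeroExt.ext rfl (map_add D.toFun a b)

/-- Entrywise derivative. -/
def mat (M : Matrix m n R) : Matrix m n R := M.map D

@[simp] theorem mat_apply (M : Matrix m n R) (i : m) (j : n) : D.mat M i j = D (M i j) := rfl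

theorem mat_add (M M' : Matrix m n R) : D.mat (M + M') = D.mat M + D.mat M' := by
  ext i j; simp

theorem mat_sub (M M' : Matrix m n R) : D.mat (M - M') = D.mat M - D.mat M' := by
  ext i j; simp

theorem mat_mul [Fintype n] (M : Matrix m n R) (M' : Matrix n p R) :
    D.mat (M * M') = M * D.mat M' + D.mat M * M' := by
  ext i j; simp [Matrix.mul_apply, D.leib, Finset.sum_add_distrib]

theorem mat_one [DecidableEq n] : D.mat (1 : Matrix n n R) = 0 := by
  ext i j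
  by_cases h : i = j <;> simp [Matrix.one_apply, h, D.map_one']

theorem mat_smul (c : R) (M : Matrix m n R) : D.mat (c • M) = c • D.mat M + D c • M := by
  ext i j; simp [D.leib]

theorem comp_mulVec [Fintype n] (M : Matrix m n R) (y : n → R) :
    D ∘ (M *ᵥ y) = M *ᵥ (D ∘ y) + D.mat M *ᵥ y := by
  ext i; simp [Matrix.mulVec, dotProduct, D.leib, Finset.sum_add_distrib]

theorem mat_inv [Fintype n] [DecidableEq n] (g : GL n R) :
    D.mat ((g⁻¹ : GL n R) : Matrix n n R) =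
      -(((g⁻¹ : GL n R) : Matrix n n R) * D.mat (g : Matrix n n R) *
        ((g⁻¹ : GL n R) : Matrix n n R)) := by
  have h := D.mat_mul ((g⁻¹ : GL n R) : Matrix n n R) (g : Matrix n n R)
  rw [Units.inv_mul, mat_one] at h
  have h2 := congrArg (· * ((g⁻¹ : GL n R) : Matrix n n R)) h
  simp only [Matrix.zero_mul, Matrix.add_mul, Matrix.mul_assoc, Units.mul_inv,
    Matrix.mul_one] at h2
  rw [Matrix.mul_assoc]
  exact eq_neg_of_add_eq_zero_right h2.symm

theorem map_pow_succ (a : R) (k : ℕ) : D (a ^ (k + 1)) = (k + 1) * a ^ k * D a := by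
  induction k with
  | zero => simp
  | succ k ih => rw [pow_succ, D.leib, ih]; push_cast; ring

/-- A Mathlib derivation as a `Der`. -/
def ofDerivation {A : Type*} [CommSemiring A] [Algebra A R] (E : Derivation A R R) : Der R where
  toFun := E.toLinearMap.toAddMonoidHom
  leib a b := by simp [mul_comm]

@[simp] theorem ofDerivation_apply {A : Type*} [CommSemiring A] [Algebra A R]
    (E : Derivation A R R) (x : R) : ofDerivation E x = E x := rfl

variable [Algebra ℂ R]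

/-- `D` kills the entries of the constant matrix `B`. -/
def Kills (B : Matrix m n ℂ) : Prop := D.mat (cm R B) = 0

theorem mat_π {k : Type} [Fintype n] [DecidableEq n] [Fintype k] [DecidableEq k]
    {r₁ r₂ : Submodule ℂ (n → ℂ)} (T : SQ r₁ r₂ k) (hB : D.Kills T.B) (hL : D.Kills T.L)
    (M : Matrix n n R) : D.mat (T.π M) = T.π (D.mat M) := by
  rw [SQ.π, mat_mul, mat_mul, hB, hL]; simp [SQ.π]

/-- The algebra map `x ↦ x + ε D x` of a `ℂ`-linear derivation. -/
def toDualA (h : ∀ c : ℂ, D (algebraMap ℂ R c) = 0) : R →ₐ[ℂ] DualNumber R :=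
  { D.toDual with commutes' := fun c => TrivSqZeroExt.ext rfl (h c) }

end Der

/-- The matrix `a + ε b`. -/
def dn (a b : Matrix m n R) : Matrix m n (DualNumber R) := Matrix.of fun i j => (a i j, b i j)

@[simp] theorem dn_fst (a b : Matrix m n R) (i : m) (j : n) : (dn a b i j).fst = a i j := rfl
@[simp] theorem dn_snd (a b : Matrix m n R) (i : m) (j : n) : (dn a b i j).snd = b i j := rfl

theorem dn_mul [Fintype n] (a b : Matrix m n R) (c d : Matrix n p R) :
    dn a b * dn c d = dn (a * c) (a * d + b * c) := by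
  ext i j
  · simp [Matrix.mul_apply, TrivSqZeroExt.fst_sum]
  · simp [Matrix.mul_apply, TrivSqZeroExt.snd_sum, Finset.sum_add_distrib, mul_comm]

theorem dn_one [DecidableEq n] : dn (1 : Matrix n n R) 0 = 1 := by
  ext i j <;> by_cases h : i = j <;> simp [Matrix.one_apply, h]

theorem dn_inj {a b c d : Matrix m n R} (h : dn a b = dn c d) : a = c ∧ b = d :=
  ⟨Matrix.ext fun i j => congrArg (fun M => (M i j).fst) h,
    Matrix.ext fun i j => congrArg (fun M => (M i j).snd) h⟩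

theorem eq_dn (M : Matrix m n (DualNumber R)) :
    M = dn (M.map TrivSqZeroExt.fst) (M.map TrivSqZeroExt.snd) := rfl

theorem map_toDual (D : Der R) (M : Matrix m n R) : M.map D.toDual = dn M (D.mat M) := rfl

theorem det_dn [Fintype n] [DecidableEq n] (b : Matrix n n R) :
    (dn 1 b).det = ((1, b.trace) : DualNumber R) := by
  have h : dn 1 b = 1 + (DualNumber.eps : DualNumber R) • b.map (algebraMap R (DualNumber R)) := by
    ext i j <;> by_cases h : i = j <;>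
      simp [Matrix.one_apply, h, TrivSqZeroExt.algebraMap_eq_inl]
  rw [h, Matrix.det_one_add_smul, pow_two, DualNumber.eps_mul_eps, mul_zero, add_zero]
  ext
  · simp
  · simp [Matrix.trace, TrivSqZeroExt.algebraMap_eq_inl, TrivSqZeroExt.fst_sum]

/-- The unit `1 + ε ξ`. -/
def oneEps [Fintype n] [DecidableEq n] (ξ : Matrix n n R) : GL n (DualNumber R) :=
  ⟨dn 1 ξ, dn 1 (-ξ), by rw [dn_mul]; simp [dn_one], by rw [dn_mul]; simp [dn_one]⟩

@[simp] theorem coe_oneEps [Fintype n] [DecidableEq n] (ξ : Matrix n n R) :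
    (oneEps ξ : Matrix n n (DualNumber R)) = dn 1 ξ := rfl

theorem oneEps_inv [Fintype n] [DecidableEq n] (ξ : Matrix n n R) :
    (oneEps ξ)⁻¹ = oneEps (-ξ) := Units.ext rfl

end Der

end Kol68
end

-- merged part: Pool.Agent.Work.MP_c53807_ag.Rep
section
/-!
Representations of `GL_N` that are natural in the coefficient ring, and their differentials.
-/

open scoped Matrix Kronecker

namespace Kol68

variable {N n : Type} [Fintype N] [DecidableEq N] [Fintype n] [DecidableEq n]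
variable {R S : Type} [CommRing R] [CommRing S]

/-- Change of coefficients. -/
abbrev gmap (f : R →+* S) (g : GL N R) : GL N S := Matrix.GeneralLinearGroup.map f g

theorem coe_gmap (f : R →+* S) (g : GL N R) :
    (gmap f g : Matrix N N S) = (g : Matrix N N R).map f := rfl

theorem coe_gmap_inv (f : R →+* S) (g : GL N R) :
    (((gmap f g)⁻¹ : GL N S) : Matrix N N S) = ((g⁻¹ : GL N R) : Matrix N N R).map f := rfl

theorem gmap_mul (f : R →+* S) (g h : GL N R) : gmap f (g * h) = gmap f g * gmap f h :=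
  map_mul _ _ _

theorem gmap_inv (f : R →+* S) (g : GL N R) : gmap f g⁻¹ = (gmap f g)⁻¹ := map_inv _ _

theorem gmap_one (f : R →+* S) : gmap f (1 : GL N R) = 1 := map_one _

theorem gmap_gmap {T : Type} [CommRing T] (f : R →+* S) (f' : S →+* T) (g : GL N R) :
    gmap f' (gmap f g) = gmap (f'.comp f) g := rfl

/-- The diagonal matrix with unit entries. -/
def diagU (a : N → Rˣ) : GL N R :=
  ⟨Matrix.diagonal fun i => (a i : R), Matrix.diagonal fun i => ((a i)⁻¹ : Rˣ),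
    by simp [Matrix.diagonal_mul_diagonal], by simp [Matrix.diagonal_mul_diagonal]⟩

@[simp] theorem coe_diagU (a : N → Rˣ) :
    (diagU a : Matrix N N R) = Matrix.diagonal fun i => (a i : R) := rfl

@[simp] theorem coe_diagU_inv (a : N → Rˣ) :
    (((diagU a)⁻¹ : GL N R) : Matrix N N R) = Matrix.diagonal fun i => (((a i)⁻¹ : Rˣ) : R) := rfl

/-- A representation of `GL_N`, natural in the ring, whose basis vectors are weight vectors. -/
structure NatRep (N n : Type) [Fintype N] [DecidableEq N] [Fintype n] [DecidableEq n] where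
  ρ : ∀ (R : Type) [CommRing R], GL N R →* Matrix n n R
  nat : ∀ (R S : Type) [CommRing R] [CommRing S] (f : R →+* S) (g : GL N R),
    (ρ R g).map f = ρ S (gmap f g)
  wt : n → N → ℤ
  diag : ∀ (R : Type) [CommRing R] (a : N → Rˣ),
    ρ R (diagU a) = Matrix.diagonal fun j => ((∏ i, a i ^ wt j i : Rˣ) : R)

/-- `R[ε] → S[ε]`. -/
def dualMap (f : R →+* S) : DualNumber R →+* DualNumber S where
  toFun x := (f x.fst, f x.snd)
  map_one' := TrivSqZeroExt.ext (map_one f) (map_zero f)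
  map_mul' a b := TrivSqZeroExt.ext (map_mul f _ _) (by simp [mul_comm])
  map_zero' := TrivSqZeroExt.ext (map_zero f) (map_zero f)
  map_add' a b := TrivSqZeroExt.ext (map_add f _ _) (map_add f _ _)

/-- `ε ↦ c ε`. -/
def dualScale (c : R) : DualNumber R →+* DualNumber R where
  toFun x := (x.fst, c * x.snd)
  map_one' := TrivSqZeroExt.ext rfl (mul_zero c)
  map_mul' a b := TrivSqZeroExt.ext rfl (by simp; ring)
  map_zero' := TrivSqZeroExt.ext rfl (mul_zero c)
  map_add' a b := TrivSqZeroExt.ext rfl (mul_add c _ _)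

/-- `R → R[ε]`. -/
abbrev dualIn (R : Type) [CommRing R] : R →+* DualNumber R := algebraMap R (DualNumber R)

/-- `R[ε] → R`. -/
def dualFst (R : Type) [CommRing R] : DualNumber R →+* R := (TrivSqZeroExt.fstHom R R R).toRingHom

theorem map_dualIn {m p : Type} (a : Matrix m p R) : a.map (dualIn R) = dn a 0 := rfl

theorem dn_eq {m p : Type} (a b : Matrix m p R) :
    dn a b = a.map (dualIn R) + (DualNumber.eps : DualNumber R) • b.map (dualIn R) := by
  ext i j <;> simp [TrivSqZeroExt.algebraMap_eq_inl]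

namespace NatRep

variable (P : NatRep N n)

/-- The representation with values in the units. -/
def ρU (R : Type) [CommRing R] : GL N R →* GL n R := (P.ρ R).toHomUnits

@[simp] theorem coe_ρU (g : GL N R) : (P.ρU R g : Matrix n n R) = P.ρ R g := rfl

@[simp] theorem coe_ρU_inv (g : GL N R) :
    (((P.ρU R g)⁻¹ : GL n R) : Matrix n n R) = P.ρ R g⁻¹ := rfl

theorem ρ_mul_inv (g : GL N R) : P.ρ R g * P.ρ R g⁻¹ = 1 := by rw [← map_mul]; simp

theorem ρ_inv_mul (g : GL N R) : P.ρ R g⁻¹ * P.ρ R g = 1 := by rw [← map_mul]; simp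

/-- The differential. -/
def dρ₀ (ξ : Matrix N N R) : Matrix n n R :=
  (P.ρ (DualNumber R) (oneEps ξ)).map TrivSqZeroExt.snd

theorem ρ_oneEps₀ (ξ : Matrix N N R) : P.ρ (DualNumber R) (oneEps ξ) = dn 1 (P.dρ₀ ξ) := by
  have h := P.nat _ _ (dualFst R) (oneEps ξ)
  have h1 : gmap (dualFst R) (oneEps ξ) = 1 := Units.ext rfl
  rw [h1, map_one] at h
  rw [eq_dn (P.ρ (DualNumber R) (oneEps ξ))]
  congr 1

/-- The differential as a linear map. -/
def dρ (R : Type) [CommRing R] : Matrix N N R →ₗ[R] Matrix n n R where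
  toFun := P.dρ₀
  map_add' a b := by
    have h : oneEps (a + b) = oneEps a * oneEps b := Units.ext (by
      simp [dn_mul, add_comm])
    have h2 := congrArg (P.ρ _) h
    rw [map_mul, ρ_oneEps₀, ρ_oneEps₀, ρ_oneEps₀, dn_mul] at h2
    simpa [add_comm] using (dn_inj h2).2
  map_smul' c a := by
    have h := P.nat _ _ (dualScale c) (oneEps a)
    have h1 : gmap (dualScale c) (oneEps a) = oneEps (c • a) := Units.ext rfl
    rw [h1, ρ_oneEps₀, ρ_oneEps₀] at h
    exact (dn_inj (a := 1) (b := c • P.dρ₀ a) h).2.symm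

theorem ρ_oneEps (ξ : Matrix N N R) : P.ρ (DualNumber R) (oneEps ξ) = dn 1 (P.dρ R ξ) :=
  P.ρ_oneEps₀ ξ

theorem dρ_map (f : R →+* S) (ξ : Matrix N N R) : (P.dρ R ξ).map f = P.dρ S (ξ.map f) := by
  have h := P.nat _ _ (dualMap f) (oneEps ξ)
  have h1 : gmap (dualMap f) (oneEps ξ) = oneEps (ξ.map f) := Units.ext (by
    change dn ((1 : Matrix N N R).map f) (ξ.map f) = dn 1 (ξ.map f)
    rw [Matrix.map_one _ (map_zero f) (map_one f)])
  rw [h1, ρ_oneEps, ρ_oneEps] at h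
  exact (dn_inj (a := (1 : Matrix n n R).map f) (b := (P.dρ R ξ).map f) h).2

theorem ρ_dualIn (g : GL N R) : P.ρ _ (gmap (dualIn R) g) = dn (P.ρ R g) 0 := by
  rw [← P.nat]; rfl

theorem dρ_conj (g : GL N R) (ξ : Matrix N N R) :
    P.dρ R ((g : Matrix N N R) * ξ * ((g⁻¹ : GL N R) : Matrix N N R)) =
      P.ρ R g * P.dρ R ξ * P.ρ R g⁻¹ := by
  have h : oneEps ((g : Matrix N N R) * ξ * ((g⁻¹ : GL N R) : Matrix N N R)) =
      gmap (dualIn R) g * oneEps ξ * gmap (dualIn R) g⁻¹ := Units.ext (by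
    simp only [Units.val_mul, coe_gmap, map_dualIn, coe_oneEps, dn_mul]
    simp)
  have h2 := congrArg (P.ρ _) h
  rw [map_mul, map_mul, ρ_oneEps, ρ_oneEps, ρ_dualIn, ρ_dualIn, dn_mul, dn_mul] at h2
  simpa using (dn_inj h2).2

theorem der (D : Der R) (g : GL N R) :
    D.mat (P.ρ R g) =
      P.ρ R g * P.dρ R (((g⁻¹ : GL N R) : Matrix N N R) * D.mat (g : Matrix N N R)) := by
  have h : gmap D.toDual g = gmap (dualIn R) g *
      oneEps (((g⁻¹ : GL N R) : Matrix N N R) * D.mat (g : Matrix N N R)) := Units.ext (by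
    simp only [Units.val_mul, coe_gmap, map_dualIn, coe_oneEps, dn_mul, map_toDual]
    simp [← Matrix.mul_assoc])
  have h2 := congrArg (P.ρ _) h
  rw [map_mul, ρ_oneEps, ρ_dualIn, dn_mul, ← P.nat, map_toDual] at h2
  simpa using (dn_inj h2).2

theorem dρ_dn (a b : Matrix N N R) : P.dρ _ (dn a b) = dn (P.dρ R a) (P.dρ R b) := by
  rw [dn_eq, dn_eq, map_add, map_smul, dρ_map, dρ_map]

theorem dρ_lie (a b : Matrix N N R) :
    P.dρ R (a * b - b * a) = P.dρ R a * P.dρ R b - P.dρ R b * P.dρ R a := by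
  have h := P.dρ_conj (oneEps a) (dn b 0)
  rw [oneEps_inv, coe_oneEps, coe_oneEps, dn_mul, dn_mul, dρ_dn, dρ_dn, ρ_oneEps, ρ_oneEps,
    dn_mul, dn_mul] at h
  have h2 := (dn_inj h).2
  simp only [Matrix.one_mul, Matrix.mul_one, Matrix.mul_zero, zero_add, map_zero, map_neg,
    Matrix.mul_neg] at h2
  rw [sub_eq_neg_add, sub_eq_neg_add]
  exact h2

theorem dρ_diagonal (l : N → R) :
    P.dρ R (Matrix.diagonal l) = Matrix.diagonal fun j => ∑ i, (P.wt j i : R) * l i := by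
  let u : R → (DualNumber R)ˣ := fun x => ⟨(1, x), (1, -x),
    TrivSqZeroExt.ext (by simp) (by simp), TrivSqZeroExt.ext (by simp) (by simp)⟩
  have hadd : ∀ x y, u (x + y) = u x * u y := fun x y =>
    Units.ext (TrivSqZeroExt.ext (by simp [u]) (by simp [u, add_comm]))
  let U : Multiplicative R →* (DualNumber R)ˣ :=
    { toFun := fun x => u x.toAdd, map_one' := Units.ext rfl, map_mul' := fun x y => hadd _ _ }
  have h1 : oneEps (Matrix.diagonal l) = diagU fun i => u (l i) := Units.ext (by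
    ext i j <;> by_cases h : i = j <;> simp [u, Matrix.one_apply, Matrix.diagonal_apply, h])
  have h2 := P.ρ_oneEps (Matrix.diagonal l)
  rw [h1, P.diag] at h2
  have h3 : ∀ j, (∏ i, u (l i) ^ P.wt j i) = u (∑ i, (P.wt j i : R) * l i) := by
    intro j
    have : ∀ i, u (l i) ^ P.wt j i = U (Multiplicative.ofAdd ((P.wt j i : R) * l i)) := by
      intro i
      rw [← zsmul_eq_mul, ofAdd_zsmul, map_zpow]; rfl
    simp_rw [this]
    rw [← map_prod, ← ofAdd_sum]; rfl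
  ext i j
  have h4 := congrArg (fun M => (M i j).snd) h2
  simp only [dn_snd] at h4
  rw [← h4]
  by_cases h : i = j
  · subst h; simp only [Matrix.diagonal_apply_eq, h3]; rfl
  · simp [Matrix.diagonal_apply_ne _ h]

variable [Algebra ℂ R] [Algebra ℂ S]

theorem dρ_cm (ξ : Matrix N N ℂ) : P.dρ R (cm R ξ) = cm R (P.dρ ℂ ξ) :=
  (P.dρ_map (algebraMap ℂ R) ξ).symm

theorem ρ_const (g : GL N ℂ) : P.ρ R (gmap (algebraMap ℂ R) g) = cm R (P.ρ ℂ g) :=
  (P.nat _ _ _ g).symm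

theorem dρ_map_lin (φ : R →ₗ[ℂ] S) (ξ : Matrix N N R) :
    (P.dρ R ξ).map φ = P.dρ S (ξ.map φ) := by
  have h1 : ξ = ∑ i, ∑ j, ξ i j • cm R (Matrix.single i j 1) := by
    ext a b; simp [Matrix.sum_apply, Matrix.single_apply, apply_ite, ite_and]
  have h2 : ξ.map φ = ∑ i, ∑ j, φ (ξ i j) • cm S (Matrix.single i j 1) := by
    ext a b; simp [Matrix.sum_apply, Matrix.single_apply, apply_ite, ite_and]
  rw [h2]
  conv_lhs => rw [h1]
  simp only [map_sum, map_smul, dρ_cm]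
  ext a b
  simp [Matrix.sum_apply, lin_mul_alg]

theorem dρ_mem_bcM {s : Submodule ℂ (Matrix N N ℂ)} {s' : Submodule ℂ (Matrix n n ℂ)}
    (h : ∀ ξ ∈ s, P.dρ ℂ ξ ∈ s') {ξ : Matrix N N R} (hξ : ξ ∈ bcM s R) :
    P.dρ R ξ ∈ bcM s' R := fun φ => by
  rw [dρ_map_lin]; exact h _ (hξ φ)

end NatRep

/-- The standard representation. -/
def stdRep (N : Type) [Fintype N] [DecidableEq N] : NatRep N N where
  ρ R := Units.coeHom _
  nat _ _ _ _ _ _ := rfl
  wt j i := if i = j then 1 else 0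
  diag R _ a := by
    change Matrix.diagonal _ = _
    congr 1
    ext j
    rw [Finset.prod_eq_single j] <;> simp +contextual

@[simp] theorem stdRep_ρ (g : GL N R) : (stdRep N).ρ R g = (g : Matrix N N R) := rfl

@[simp] theorem stdRep_dρ (ξ : Matrix N N R) : (stdRep N).dρ R ξ = ξ := rfl

/-- The adjoint representation. -/
def adRep (N : Type) [Fintype N] [DecidableEq N] : NatRep N (N × N) where
  ρ R :=
    { toFun := fun g => (g : Matrix N N R) ⊗ₖ ((g⁻¹ : GL N R) : Matrix N N R)ᵀ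
      map_one' := by simp
      map_mul' := fun g h => by
        rw [← Matrix.mul_kronecker_mul, ← Matrix.transpose_mul, mul_inv_rev]; rfl }
  nat _ _ _ _ f g := by
    ext i j
    exact map_mul f _ _
  wt j i := (if i = j.1 then 1 else 0) - (if i = j.2 then 1 else 0)
  diag R _ a := by
    change Matrix.diagonal _ ⊗ₖ (Matrix.diagonal _)ᵀ = _
    rw [Matrix.diagonal_transpose, Matrix.diagonal_kronecker_diagonal]
    congr 1
    ext j
    simp only [zpow_sub, Finset.prod_mul_distrib, Finset.prod_inv_distrib]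
    rw [Finset.prod_eq_single j.1, Finset.prod_eq_single j.2] <;> simp +contextual

theorem adRep_mulVec (g : GL N R) (Y : Matrix N N R) :
    (adRep N).ρ R g *ᵥ vec R Y =
      vec R ((g : Matrix N N R) * Y * ((g⁻¹ : GL N R) : Matrix N N R)) := by
  ext ⟨i, j⟩
  change ∑ kl : N × N, ((g : Matrix N N R) i kl.1 * ((g⁻¹ : GL N R) : Matrix N N R) kl.2 j) *
    Y kl.1 kl.2 = _
  rw [Fintype.sum_prod_type, Finset.sum_comm]
  simp only [vec_apply, Matrix.mul_apply, Finset.sum_mul]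
  refine Finset.sum_congr rfl fun _ _ => Finset.sum_congr rfl fun _ _ => by ring

theorem adRep_dρ_mulVec (ξ Y : Matrix N N R) :
    (adRep N).dρ R ξ *ᵥ vec R Y = vec R (ξ * Y - Y * ξ) := by
  have h := adRep_mulVec (oneEps ξ) (dn Y 0)
  rw [NatRep.ρ_oneEps, oneEps_inv, coe_oneEps, coe_oneEps, dn_mul, dn_mul] at h
  ext ⟨i, j⟩
  have h2 := congrArg (fun y => (y (i, j)).snd) h
  simp only [Matrix.mulVec, dotProduct, TrivSqZeroExt.snd_sum, vec_apply, dn_snd] at h2
  simp only [Matrix.mulVec, dotProduct, vec_apply]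
  simpa [mul_comm, sub_eq_neg_add] using h2

/-- The block matrix `1 ⊕ (g ⊗ 1)`. -/
def hat (g : Matrix N N R) : Matrix (Option (N × N)) (Option (N × N)) R :=
  Matrix.of fun a b => match a, b with
    | none, none => 1
    | some x, some y => if x.2 = y.2 then g x.1 y.1 else 0
    | _, _ => 0

/-- The vector `(1, x)`. -/
def hatv (x : Matrix N N R) : Option (N × N) → R
  | none => 1
  | some ij => x ij.1 ij.2

theorem hat_one : hat (1 : Matrix N N R) = 1 := by
  ext a b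
  rcases a with _ | ⟨i, j⟩ <;> rcases b with _ | ⟨k, l⟩ <;>
    simp [hat, Matrix.one_apply, ite_and]
  split_ifs <;> simp_all

theorem hat_mul (g h : Matrix N N R) : hat (g * h) = hat g * hat h := by
  ext a b
  rcases a with _ | ⟨i, j⟩ <;> rcases b with _ | ⟨k, l⟩ <;>
    simp [hat, Matrix.mul_apply, Fintype.sum_option, Fintype.sum_prod_type]

theorem hat_mulVec (g x : Matrix N N R) : hat g *ᵥ hatv x = hatv (g * x) := by
  ext a
  rcases a with _ | ⟨i, j⟩ <;>
    simp [hat, hatv, Matrix.mulVec, dotProduct, Matrix.mul_apply, Fintype.sum_option,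
      Fintype.sum_prod_type]

theorem ofAdd_sum_zpow {G ι : Type*} [CommGroup G] [Fintype ι] (x : G) (f : ι → ℤ) :
    x ^ (∑ i, f i) = ∏ i, x ^ f i :=
  map_sum (zpowersHom G x).toAdditiveRight f Finset.univ

/-- The index set of the tensor representation. -/
abbrev TI (N : Type) (e : ℕ) : Type := Fin e → Option (N × N)

/-- The `e`-th tensor power of `(1, x)`. -/
def tau (e : ℕ) (x : Matrix N N R) : TI N e → R := fun J => ∏ a, hatv x (J a)

/-- The `e`-th tensor power of `1 ⊕ V ^ N`. -/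
def tenRep (N : Type) [Fintype N] [DecidableEq N] (e : ℕ) : NatRep N (TI N e) where
  ρ R :=
    { toFun := fun g => Matrix.of fun J J' => ∏ a, hat (g : Matrix N N R) (J a) (J' a)
      map_one' := by
        ext J J'
        simp only [Units.val_one, hat_one, Matrix.of_apply, Matrix.one_apply, Finset.prod_boole,
          funext_iff]
        simp
      map_mul' := fun g h => by
        ext J J'
        simp only [Units.val_mul, hat_mul, Matrix.of_apply, Matrix.mul_apply]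
        rw [Finset.prod_univ_sum]
        simp [Finset.prod_mul_distrib] }
  nat _ _ _ _ f g := by
    ext J J'
    change f (∏ a, hat _ (J a) (J' a)) = ∏ a, hat _ (J a) (J' a)
    rw [map_prod]
    refine Finset.prod_congr rfl fun a _ => ?_
    rcases J a with _ | ⟨i, j⟩ <;> rcases J' a with _ | ⟨k, l⟩ <;> simp [hat, apply_ite f]
  wt J i := ∑ a, (J a).elim 0 fun x => if i = x.1 then 1 else 0
  diag R _ a := by
    have h : hat (Matrix.diagonal fun i => (a i : R)) =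
        Matrix.diagonal fun o => ((∏ i, a i ^ (o.elim 0 fun x => if i = x.1 then 1 else 0 : ℤ) :
          Rˣ) : R) := by
      ext o o'
      rcases o with _ | ⟨i, j⟩ <;> rcases o' with _ | ⟨k, l⟩ <;>
        simp [hat, Matrix.diagonal_apply, ite_and, -Units.coe_prod]
      split_ifs <;> simp_all
    ext J J'
    change ∏ b, hat (Matrix.diagonal fun i => (a i : R)) (J b) (J' b) = _
    rw [h]
    by_cases hJ : J = J'
    · subst hJ
      simp only [Matrix.diagonal_apply_eq]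
      rw [← Units.coe_prod, Finset.prod_comm]
      congr 1
      refine Finset.prod_congr rfl fun i _ => ?_
      rw [← ofAdd_sum_zpow]
    · rw [Matrix.diagonal_apply_ne _ hJ]
      obtain ⟨b, hb⟩ := Function.ne_iff.1 hJ
      exact Finset.prod_eq_zero (Finset.mem_univ b) (Matrix.diagonal_apply_ne _ hb)

theorem tenRep_mulVec (e : ℕ) (g : GL N R) (x : Matrix N N R) :
    (tenRep N e).ρ R g *ᵥ tau e x = tau e ((g : Matrix N N R) * x) := by
  ext J
  change ∑ J' : TI N e, (∏ a, hat (g : Matrix N N R) (J a) (J' a)) * ∏ a, hatv x (J' a) =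
    ∏ a, hatv _ (J a)
  rw [← hat_mulVec]
  simp only [Matrix.mulVec, dotProduct]
  rw [Finset.prod_univ_sum]
  simp [Finset.prod_mul_distrib]

end Kol68
end

-- merged part: Pool.Agent.Work.MP_c53807_ag.Pts
section
/-!
Points of a matrix group with values in a commutative `ℂ`-algebra, and its Lie algebra.
-/

open scoped Matrix

namespace Kol68

open MvPolynomial

variable {N : ℕ} {R S : Type} [CommRing R] [Algebra ℂ R] [CommRing S] [Algebra ℂ S]
variable {n : Type} [Fintype n] [DecidableEq n]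

/-- Polynomials in the matrix entries. -/
abbrev PM (N : ℕ) : Type := MvPolynomial (Fin N × Fin N) ℂ

/-- Evaluation at a matrix. -/
noncomputable def ev (g : Matrix (Fin N) (Fin N) R) : PM N →ₐ[ℂ] R :=
  aeval fun ij => g ij.1 ij.2

theorem evalAt_eq (g : GL (Fin N) ℂ) (p : PM N) : evalAt g p = ev (g : Mt N) p := rfl

theorem map_ev (f : R →ₐ[ℂ] S) (g : Matrix (Fin N) (Fin N) R) (p : PM N) :
    f (ev g p) = ev (g.map f) p := by
  rw [ev, ← AlgHom.comp_apply, comp_aeval]; rfl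

/-- The generic matrix. -/
noncomputable def genM (N : ℕ) : Matrix (Fin N) (Fin N) (PM N) := Matrix.of fun i j => X (i, j)

theorem genM_map_ev (g : Matrix (Fin N) (Fin N) R) : (genM N).map (ev g) = g := by
  ext i j; simp [genM, ev]

theorem ev_det (g : Matrix (Fin N) (Fin N) R) : ev g (genM N).det = g.det := by
  rw [AlgHom.map_det, AlgHom.mapMatrix_apply, genM_map_ev]

theorem ev_genM (p : PM N) : ev (genM N) p = p := by
  have : ev (genM N) = AlgHom.id ℂ (PM N) := by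
    ext ij; simp [ev, genM]
  rw [this]; rfl

/-- The polynomials vanishing on a set of invertible matrices. -/
def vanI (A : Set (GL (Fin N) ℂ)) : Ideal (PM N) where
  carrier := {p | ∀ g ∈ A, ev (g : Mt N) p = 0}
  add_mem' ha hb g hg := by rw [map_add, ha g hg, hb g hg, add_zero]
  zero_mem' g _ := map_zero _
  smul_mem' c p hp g hg := by rw [smul_eq_mul, map_mul, hp g hg, mul_zero]

theorem mem_vanI {A : Set (GL (Fin N) ℂ)} {p : PM N} :
    p ∈ vanI A ↔ ∀ g ∈ A, ev (g : Mt N) p = 0 := Iff.rfl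

/-- `g` is an `R`-point of the Zariski closure of `A`. -/
def Pt (A : Set (GL (Fin N) ℂ)) (g : GL (Fin N) R) : Prop :=
  ∀ p ∈ vanI A, ev (g : Matrix (Fin N) (Fin N) R) p = 0

theorem Pt.map {A : Set (GL (Fin N) ℂ)} {g : GL (Fin N) R} (h : Pt A g) (f : R →ₐ[ℂ] S) :
    Pt A (gmap (f : R →+* S) g) := fun p hp => by
  have := map_ev f (g : Matrix (Fin N) (Fin N) R) p
  rw [h p hp, map_zero] at this
  exact this.symm

theorem Pt.of_map {A : Set (GL (Fin N) ℂ)} {g : GL (Fin N) R} (f : R →ₐ[ℂ] S)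
    (hf : Function.Injective f) (h : Pt A (gmap (f : R →+* S) g)) : Pt A g := fun p hp =>
  hf ((map_ev f _ p).trans ((h p hp).trans (map_zero f).symm))

theorem pt_of_mem {A : Set (GL (Fin N) ℂ)} {g : GL (Fin N) ℂ} (h : g ∈ A) : Pt A g :=
  fun _ hp => hp g h

theorem pt_const {A : Set (GL (Fin N) ℂ)} {g : GL (Fin N) ℂ} (h : g ∈ A) :
    Pt A (gmap (algebraMap ℂ R) g) := (pt_of_mem h).map (Algebra.ofId ℂ R)

theorem Pt.mono {A B : Set (GL (Fin N) ℂ)} (hAB : A ⊆ B) {g : GL (Fin N) R} (h : Pt A g) :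
    Pt B g := fun p hp => h p fun x hx => hp x (hAB hx)

theorem Pt.mem {A : Set (GL (Fin N) ℂ)} (hA : GLClosed A) {g : GL (Fin N) ℂ} (h : Pt A g) :
    g ∈ A := by
  obtain ⟨S, rfl⟩ := hA
  exact fun p hp => h p fun x hx => hx p hp

/-- A regular function on `GL_N`, as a function natural in the coefficient algebra. -/
structure NatFun (N : ℕ) where
  f : ∀ (R : Type) [CommRing R] [Algebra ℂ R], GL (Fin N) R → R
  nat : ∀ (R S : Type) [CommRing R] [Algebra ℂ R] [CommRing S] [Algebra ℂ S] (φ : R →ₐ[ℂ] S)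
    (g : GL (Fin N) R), φ (f R g) = f S (gmap (φ : R →+* S) g)

theorem NatFun.univ (φ : NatFun N) : ∃ (k : ℕ) (p : PM N), ∀ (R : Type) [CommRing R]
    [Algebra ℂ R] (g : GL (Fin N) R),
    φ.f R g * (g : Matrix (Fin N) (Fin N) R).det ^ k = ev (g : Matrix (Fin N) (Fin N) R) p := by
  let O := Localization.Away (genM N).det
  have hu : IsUnit ((genM N).map (algebraMap (PM N) O)) := by
    rw [Matrix.isUnit_iff_isUnit_det, ← RingHom.mapMatrix_apply, ← RingHom.map_det]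
    exact IsLocalization.Away.algebraMap_isUnit _
  obtain ⟨k, p, h⟩ := IsLocalization.Away.surj (genM N).det (φ.f O hu.unit)
  refine ⟨k, p, fun R _ _ g => ?_⟩
  have hg : IsUnit (ev (g : Matrix (Fin N) (Fin N) R) (genM N).det) := by
    rw [ev_det]; exact (Matrix.isUnit_iff_isUnit_det _).1 g.isUnit
  let l : O →ₐ[ℂ] R := IsLocalization.Away.liftAlgHom (genM N).det hg
  have hl : ∀ q, l (algebraMap (PM N) O q) = ev (g : Matrix (Fin N) (Fin N) R) q := fun q =>
    IsLocalization.Away.lift_eq _ hg q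
  have h1 : gmap (l : O →+* R) hu.unit = g := Units.ext (by
    ext i j
    change l (algebraMap (PM N) O (genM N i j)) = _
    rw [hl]; simp [genM, ev])
  have h2 := congrArg l h
  rwa [map_mul, map_pow, hl, hl, ev_det, φ.nat, h1] at h2

theorem NatFun.vanish (φ : NatFun N) {A : Set (GL (Fin N) ℂ)} (h : ∀ g ∈ A, φ.f ℂ g = 0)
    {g : GL (Fin N) R} (hg : Pt A g) : φ.f R g = 0 := by
  obtain ⟨k, p, hp⟩ := φ.univ
  have h1 : p ∈ vanI A := fun x hx => by rw [← hp, h x hx, zero_mul]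
  have h2 := hp R g
  rw [hg p h1] at h2
  exact (((Matrix.isUnit_iff_isUnit_det _).1 g.isUnit).pow k).mul_left_eq_zero.1 h2

theorem mem_bc_iff_dot {ι : Type} [Fintype ι] {r : Submodule ℂ (ι → ℂ)} {y : ι → R} :
    y ∈ bc r R ↔ ∀ l : ι → ℂ, (∀ b ∈ r, l ⬝ᵥ b = 0) → cv R l ⬝ᵥ y = 0 := by
  classical
  have key : ∀ (φ : R →ₗ[ℂ] ℂ) (l : ι → ℂ), φ (cv R l ⬝ᵥ y) = l ⬝ᵥ (φ ∘ y) := fun φ l => by
    simp [dotProduct, lin_alg_mul]
  constructor
  · intro h l hl
    exact eq_zero_of_forall_dual fun φ => by rw [key]; exact hl _ (h φ)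
  · intro h φ
    rw [← Subspace.forall_mem_dualAnnihilator_apply_eq_zero_iff]
    intro m hm
    have hm' : ∀ b, m b = (fun i => m (Pi.single i 1)) ⬝ᵥ b := fun b => by
      rw [LinearMap.pi_apply_eq_sum_univ]
      refine Finset.sum_congr rfl fun i _ => ?_
      rw [smul_eq_mul, mul_comm]
      congr 2
      ext j; simp [Pi.single_apply, eq_comm]
    rw [hm', ← key, h _ fun b hb => by
      rw [← hm']; exact (Submodule.mem_dualAnnihilator m).1 hm b hb, map_zero]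

theorem map_dot (φ : R →ₐ[ℂ] S) {ι : Type} [Fintype ι] (l : ι → ℂ) (y : ι → R) :
    φ (cv R l ⬝ᵥ y) = cv S l ⬝ᵥ (φ ∘ y) := by
  simp [dotProduct]

/-- A matrix coefficient. -/
noncomputable def coefFun (P : NatRep (Fin N) n) (l b : n → ℂ) : NatFun N where
  f R _ _ g := cv R l ⬝ᵥ (P.ρ R g *ᵥ cv R b)
  nat R S _ _ _ _ φ g := by
    rw [map_dot, ← P.nat]
    congr 1
    exact comp_mulVec_cv φ.toLinearMap _ _

theorem pres_of_pt (P : NatRep (Fin N) n) {A : Set (GL (Fin N) ℂ)} {r : Submodule ℂ (n → ℂ)}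
    (h : ∀ g ∈ A, P.ρ ℂ g ∈ presA r) {g : GL (Fin N) R} (hg : Pt A g) : Pres r (P.ρ R g) :=
  pres_iff_cv.2 fun b hb => mem_bc_iff_dot.2 fun l hl =>
    (coefFun P l b).vanish (fun x hx => hl _ (h x hx b hb)) hg

theorem hatv_map (f : R →ₐ[ℂ] S) (x : Matrix (Fin N) (Fin N) R) (o : Option (Fin N × Fin N)) :
    f (hatv x o) = hatv (x.map f) o := by
  cases o <;> simp [hatv]

theorem tau_map (f : R →ₐ[ℂ] S) (e : ℕ) (x : Matrix (Fin N) (Fin N) R) :
    f ∘ tau e x = tau e (x.map f) := by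
  ext J; simp [tau, hatv_map]

/-- Polynomials that are linear forms in the `e`-th tensor power. -/
noncomputable def tenP (N e : ℕ) : Submodule ℂ (PM N) :=
  Submodule.span ℂ (Set.range (tau e (genM N)))

theorem mul_mem_tenP {e : ℕ} {p : PM N} (hp : p ∈ tenP N e) (o : Option (Fin N × Fin N)) :
    p * hatv (genM N) o ∈ tenP N (e + 1) := by
  induction hp using Submodule.span_induction with
  | mem x hx =>
    obtain ⟨J, rfl⟩ := hx
    refine Submodule.subset_span ⟨Fin.snoc J o, ?_⟩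
    simp [tau, Fin.prod_univ_castSucc]
  | zero => simp
  | add x y _ _ hx hy => rw [add_mul]; exact Submodule.add_mem _ hx hy
  | smul c x _ hx => rw [smul_mul_assoc]; exact Submodule.smul_mem _ _ hx

theorem tenP_mono {e e' : ℕ} (h : e ≤ e') : tenP N e ≤ tenP N e' := by
  induction h with
  | refl => exact le_rfl
  | step _ ih => exact fun p hp => by simpa [hatv] using mul_mem_tenP (ih hp) none

theorem exists_mem_tenP (p : PM N) : ∃ e, p ∈ tenP N e := by
  induction p using MvPolynomial.induction_on with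
  | C c =>
    refine ⟨0, ?_⟩
    have h1 : (1 : PM N) ∈ tenP N 0 := Submodule.subset_span ⟨fun i => i.elim0, by simp [tau]⟩
    simpa [smul_eq_C_mul] using Submodule.smul_mem _ c h1
  | add p q hp hq =>
    obtain ⟨e, he⟩ := hp
    obtain ⟨e', he'⟩ := hq
    exact ⟨max e e', Submodule.add_mem _ (tenP_mono (le_max_left _ _) he)
      (tenP_mono (le_max_right _ _) he')⟩
  | mul_X p ij hp =>
    obtain ⟨e, he⟩ := hp
    exact ⟨e + 1, mul_mem_tenP he (some ij)⟩

theorem exists_dot_of_mem_tenP {e : ℕ} {p : PM N} (hp : p ∈ tenP N e) :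
    ∃ l : TI (Fin N) e → ℂ, ∀ (R : Type) [CommRing R] [Algebra ℂ R]
      (x : Matrix (Fin N) (Fin N) R), ev x p = cv R l ⬝ᵥ tau e x := by
  obtain ⟨l, rfl⟩ := (Submodule.mem_span_range_iff_exists_fun ℂ).1 hp
  refine ⟨l, fun R _ _ x => ?_⟩
  have := map_dot (ev x) l (tau e (genM N))
  rw [tau_map, genM_map_ev] at this
  rw [← this]
  congr 1
  simp [dotProduct, Algebra.smul_def]

/-- The span of the tensors of the elements of `A`. -/
def tenS (A : Set (GL (Fin N) ℂ)) (e : ℕ) : Submodule ℂ (TI (Fin N) e → ℂ) :=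
  Submodule.span ℂ {y | ∃ x ∈ A, y = tau e (x : Mt N)}

theorem tenS_stable (G : Subgroup (GL (Fin N) ℂ)) (e : ℕ) {g : GL (Fin N) ℂ} (hg : g ∈ G) :
    (tenRep (Fin N) e).ρ ℂ g ∈ presA (tenS (G : Set (GL (Fin N) ℂ)) e) := by
  intro b hb
  refine (Submodule.span_le (p := (tenS (G : Set (GL (Fin N) ℂ)) e).comap
    (Matrix.mulVecLin ((tenRep (Fin N) e).ρ ℂ g)))).2 ?_ hb
  rintro _ ⟨x, hx, rfl⟩
  change _ *ᵥ _ ∈ tenS _ e
  rw [tenRep_mulVec]
  exact Submodule.subset_span ⟨g * x, G.mul_mem hg hx, rfl⟩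

theorem exists_tenS (G : Subgroup (GL (Fin N) ℂ)) : ∃ e, ∀ (R : Type) [CommRing R] [Algebra ℂ R]
    (g : GL (Fin N) R), Pt (G : Set (GL (Fin N) ℂ)) g ↔
      Pres (tenS (G : Set (GL (Fin N) ℂ)) e) ((tenRep (Fin N) e).ρ R g) := by
  obtain ⟨s, hs⟩ : (vanI (G : Set (GL (Fin N) ℂ))).FG := IsNoetherian.noetherian _
  choose e he using exists_mem_tenP (N := N)
  refine ⟨s.sup e, fun R _ _ g => ⟨pres_of_pt _ fun x hx => tenS_stable G _ hx, fun h => ?_⟩⟩
  have h1 : tau (s.sup e) (1 : Mt N) ∈ tenS (G : Set (GL (Fin N) ℂ)) (s.sup e) :=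
    Submodule.subset_span ⟨1, G.one_mem, rfl⟩
  have h2 := pres_iff_cv.1 h _ h1
  have h3 : cv R (tau (s.sup e) (1 : Mt N)) = tau (s.sup e) 1 := by
    have := tau_map (Algebra.ofId ℂ R) (s.sup e) (1 : Mt N)
    rw [Matrix.map_one _ (map_zero _) (map_one _)] at this
    exact this
  rw [h3, tenRep_mulVec, Matrix.mul_one] at h2
  have h4 : vanI (G : Set (GL (Fin N) ℂ)) ≤ RingHom.ker (ev (g : Matrix (Fin N) (Fin N) R)) := by
    rw [← hs, Ideal.span_le]
    intro p hp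
    obtain ⟨l, hl⟩ := exists_dot_of_mem_tenP (tenP_mono (Finset.le_sup (f := e) hp) (he p))
    change ev _ p = 0
    rw [hl]
    refine mem_bc_iff_dot.1 h2 l fun b hb => ?_
    induction hb using Submodule.span_induction with
    | mem y hy =>
      obtain ⟨x, hx, rfl⟩ := hy
      have hp' : p ∈ vanI (G : Set (GL (Fin N) ℂ)) := hs ▸ Ideal.subset_span hp
      exact (hl ℂ _).symm.trans (hp' x hx)
    | zero => simp
    | add x y _ _ hx hy => rw [dotProduct_add, hx, hy, add_zero]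
    | smul c x _ hx => rw [dotProduct_smul, hx, smul_zero]
  exact fun p hp => h4 hp

/-- A degree in which the group is a stabiliser. -/
noncomputable def eG (G : Subgroup (GL (Fin N) ℂ)) : ℕ := Classical.choose (exists_tenS G)

/-- The representation in which the group is a stabiliser. -/
noncomputable abbrev repG (G : Subgroup (GL (Fin N) ℂ)) : NatRep (Fin N) (TI (Fin N) (eG G)) :=
  tenRep (Fin N) (eG G)

/-- The subspace whose stabiliser is the group. -/
noncomputable abbrev subG (G : Subgroup (GL (Fin N) ℂ)) : Submodule ℂ (TI (Fin N) (eG G) → ℂ) :=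
  tenS (G : Set (GL (Fin N) ℂ)) (eG G)

theorem pt_iff (G : Subgroup (GL (Fin N) ℂ)) (g : GL (Fin N) R) :
    Pt (G : Set (GL (Fin N) ℂ)) g ↔ Pres (subG G) ((repG G).ρ R g) :=
  Classical.choose_spec (exists_tenS G) R g

/-- The group of `R`-points. -/
noncomputable def pts (G : Subgroup (GL (Fin N) ℂ)) (R : Type) [CommRing R] [Algebra ℂ R] :
    Subgroup (GL (Fin N) R) where
  carrier := {g | Pt (G : Set (GL (Fin N) ℂ)) g}
  one_mem' := (pt_iff G 1).2 (by rw [map_one]; exact pres_one)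
  mul_mem' ha hb := (pt_iff G _).2 (by
    rw [map_mul]; exact ((pt_iff G _).1 ha).mul ((pt_iff G _).1 hb))
  inv_mem' ha := (pt_iff G _).2 (Pres.inv (g := (repG G).ρU R _) ((pt_iff G _).1 ha))

theorem mem_pts {G : Subgroup (GL (Fin N) ℂ)} {g : GL (Fin N) R} :
    g ∈ pts G R ↔ Pt (G : Set (GL (Fin N) ℂ)) g := Iff.rfl

theorem pres_dn_iff {r : Submodule ℂ (n → ℂ)} {A : Matrix n n R} :
    Pres r (dn 1 A) ↔ Pres r A := by
  constructor
  · intro h
    exact h.map ((TrivSqZeroExt.sndHom R R).restrictScalars ℂ)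
  · intro h
    rw [dn_eq, Matrix.map_one _ (map_zero _) (map_one _)]
    exact Subalgebra.add_mem _ (Subalgebra.one_mem _) (Subalgebra.smul_mem _
      (h.map (IsScalarTower.toAlgHom ℂ R (DualNumber R)).toLinearMap) _)

/-- The Lie algebra. -/
noncomputable def lie (G : Subgroup (GL (Fin N) ℂ)) : Submodule ℂ (Mt N) :=
  (Subalgebra.toSubmodule (presA (subG G))).comap ((repG G).dρ ℂ)

theorem mem_bcM_lie {G : Subgroup (GL (Fin N) ℂ)} {ξ : Matrix (Fin N) (Fin N) R} :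
    ξ ∈ bcM (lie G) R ↔ oneEps ξ ∈ pts G (DualNumber R) := by
  rw [mem_pts, pt_iff, NatRep.ρ_oneEps, pres_dn_iff]
  refine forall_congr' fun φ => ?_
  rw [NatRep.dρ_map_lin]; rfl

theorem mem_lie {G : Subgroup (GL (Fin N) ℂ)} {ξ : Mt N} :
    ξ ∈ lie G ↔ oneEps ξ ∈ pts G (DualNumber ℂ) := by
  rw [← mem_bcM_lie, mem_bcM_self]

theorem lie_mono {K G : Subgroup (GL (Fin N) ℂ)} (h : K ≤ G) : lie K ≤ lie G := fun _ hx =>
  mem_lie.2 (Pt.mono h (mem_lie.1 hx))

theorem lie_stab (G : Subgroup (GL (Fin N) ℂ)) : Stab (lie G) (lie G) := by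
  intro x hx y hy
  change (repG G).dρ ℂ (x * y - y * x) ∈ presA (subG G)
  rw [NatRep.dρ_lie]
  exact Subalgebra.sub_mem _ (Subalgebra.mul_mem _ hx hy) (Subalgebra.mul_mem _ hy hx)

theorem conj_mem_bcM_lie {G : Subgroup (GL (Fin N) ℂ)} {g : GL (Fin N) R} (hg : g ∈ pts G R)
    {ξ : Matrix (Fin N) (Fin N) R} (hξ : ξ ∈ bcM (lie G) R) :
    (g : Matrix (Fin N) (Fin N) R) * ξ * ((g⁻¹ : GL (Fin N) R) : Matrix (Fin N) (Fin N) R) ∈
      bcM (lie G) R := by
  rw [mem_bcM_lie, mem_pts, pt_iff, NatRep.ρ_oneEps, pres_dn_iff] at hξ ⊢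
  rw [NatRep.dρ_conj]
  exact (((pt_iff G g).1 hg).mul hξ).mul ((pt_iff G _).1 ((pts G R).inv_mem hg))

theorem conj_mem_lie {G : Subgroup (GL (Fin N) ℂ)} {g : GL (Fin N) ℂ} (hg : g ∈ G)
    {ξ : Mt N} (hξ : ξ ∈ lie G) : (g : Mt N) * ξ * ((g⁻¹ : GL (Fin N) ℂ) : Mt N) ∈ lie G :=
  mem_bcM_self.1 (conj_mem_bcM_lie (pt_of_mem hg) (mem_bcM_self.2 hξ))

theorem pres_dρ_of_lie (P : NatRep (Fin N) n) {G : Subgroup (GL (Fin N) ℂ)}
    {r : Submodule ℂ (n → ℂ)} (h : ∀ g ∈ G, P.ρ ℂ g ∈ presA r) {ξ : Mt N} (hξ : ξ ∈ lie G) :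
    P.dρ ℂ ξ ∈ presA r := by
  have := pres_of_pt P (A := G) h (mem_lie.1 hξ)
  rwa [NatRep.ρ_oneEps, pres_dn_iff, pres_self] at this

theorem logder_mem {G : Subgroup (GL (Fin N) ℂ)} {x : GL (Fin N) R} (hx : x ∈ pts G R)
    (D : Der R) (hD : ∀ c : ℂ, D (algebraMap ℂ R c) = 0) :
    ((x⁻¹ : GL (Fin N) R) : Matrix (Fin N) (Fin N) R) * D.mat (x : Matrix (Fin N) (Fin N) R) ∈
      bcM (lie G) R := by
  rw [mem_bcM_lie]
  have h1 : gmap D.toDual x ∈ pts G (DualNumber R) := Pt.map hx (D.toDualA hD)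
  have h2 : gmap (dualIn R) x ∈ pts G (DualNumber R) :=
    Pt.map hx (IsScalarTower.toAlgHom ℂ R (DualNumber R))
  have h3 := (pts G _).mul_mem ((pts G _).inv_mem h2) h1
  convert h3 using 1
  refine Units.ext ?_
  simp only [Units.val_mul, coe_gmap, coe_gmap_inv, map_dualIn, coe_oneEps, dn_mul, map_toDual]
  simp

/-- Specialisation: a point over a domain specialises to a complex point off a given
hypersurface. -/
theorem exists_specialization {σ Ω : Type} [Finite σ] [CommRing Ω] [IsDomain Ω] [Algebra ℂ Ω]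
    (ω : σ → Ω) {f : MvPolynomial σ ℂ} (hf : aeval ω f ≠ 0) :
    ∃ z : σ → ℂ, aeval z f ≠ 0 ∧ ∀ q : MvPolynomial σ ℂ, aeval ω q = 0 → aeval z q = 0 := by
  by_contra hcon
  push Not at hcon
  have hP : (RingHom.ker (aeval ω : MvPolynomial σ ℂ →ₐ[ℂ] Ω)).IsPrime := RingHom.ker_isPrime _
  have h1 := IsPrime.vanishingIdeal_zeroLocus (K := ℂ)
    (RingHom.ker (aeval ω : MvPolynomial σ ℂ →ₐ[ℂ] Ω))
  apply hf
  rw [← RingHom.mem_ker, ← h1, mem_vanishingIdeal_iff]
  intro z hz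
  by_contra h
  obtain ⟨q, hq, hq'⟩ := hcon z h
  exact hq' (hz q hq)

end Kol68
end

-- merged part: Pool.Agent.Work.MP_c53807_ag.Exp
section
/-!
Formal exponentials `exp (X ^ l a)` and linear differential equations over `R[[X]]`.
-/

open scoped Matrix PowerSeries

namespace Kol68

variable {R S : Type} [CommRing R] [Algebra ℂ R] [CommRing S] [Algebra ℂ S]
variable {m n p : Type}

/-- `d / dX`. -/
noncomputable def dX (R : Type) [CommRing R] : Der R⟦X⟧ :=
  Der.ofDerivation (PowerSeries.derivative R)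

omit [Algebra ℂ R] in
theorem coeff_dX (f : R⟦X⟧) (k : ℕ) :
    PowerSeries.coeff k (dX R f) = PowerSeries.coeff (k + 1) f * (k + 1) :=
  PowerSeries.coeff_derivative f k

theorem dX_algebraMap (c : ℂ) : dX R (algebraMap ℂ R⟦X⟧ c) = 0 := by
  rw [PowerSeries.algebraMap_apply]; exact PowerSeries.derivative_C

/-- The `k`-th coefficient, as a `ℂ`-linear map. -/
noncomputable def coL (R : Type) [CommRing R] [Algebra ℂ R] (k : ℕ) : R⟦X⟧ →ₗ[ℂ] R :=
  (PowerSeries.coeff k).restrictScalars ℂ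

/-- The matrix of `k`-th coefficients. -/
noncomputable def cM (k : ℕ) (Y : Matrix m n R⟦X⟧) : Matrix m n R := Y.map (PowerSeries.coeff k)

omit [Algebra ℂ R] in
@[simp] theorem cM_apply (k : ℕ) (Y : Matrix m n R⟦X⟧) (i : m) (j : n) :
    cM k Y i j = PowerSeries.coeff k (Y i j) := rfl

theorem cM_eq_map (k : ℕ) (Y : Matrix m n R⟦X⟧) : cM k Y = Y.map (coL R k) := rfl

omit [Algebra ℂ R] in
theorem cM_ext {Y Z : Matrix m n R⟦X⟧} (h : ∀ k, cM k Y = cM k Z) : Y = Z := by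
  ext i j k; exact congrFun (congrFun (h k) i) j

omit [Algebra ℂ R] in
theorem cM_add (k : ℕ) (Y Z : Matrix m n R⟦X⟧) : cM k (Y + Z) = cM k Y + cM k Z := by
  ext i j; simp

omit [Algebra ℂ R] in
theorem cM_sub (k : ℕ) (Y Z : Matrix m n R⟦X⟧) : cM k (Y - Z) = cM k Y - cM k Z := by
  ext i j; simp

omit [Algebra ℂ R] in
@[simp] theorem cM_zero (k : ℕ) : cM k (0 : Matrix m n R⟦X⟧) = 0 := by
  ext i j; simp

omit [Algebra ℂ R] in
theorem cM_mul [Fintype n] (k : ℕ) (Y : Matrix m n R⟦X⟧) (Z : Matrix n p R⟦X⟧) :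
    cM k (Y * Z) = ∑ ij ∈ Finset.HasAntidiagonal.antidiagonal k, cM ij.1 Y * cM ij.2 Z := by
  ext i j
  simp only [cM_apply, Matrix.mul_apply, map_sum, PowerSeries.coeff_mul, Matrix.sum_apply]
  rw [Finset.sum_comm]

omit [Algebra ℂ R] in
theorem cM_zero_mul [Fintype n] (Y : Matrix m n R⟦X⟧) (Z : Matrix n p R⟦X⟧) :
    cM 0 (Y * Z) = cM 0 Y * cM 0 Z := by
  rw [cM_mul]; simp

omit [Algebra ℂ R] in
theorem cM_one [DecidableEq n] (k : ℕ) :
    cM k (1 : Matrix n n R⟦X⟧) = if k = 0 then 1 else 0 := by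
  ext i j
  by_cases h : i = j <;> by_cases hk : k = 0 <;>
    simp [Matrix.one_apply, h, hk, PowerSeries.coeff_one]

omit [Algebra ℂ R] in
theorem cM_dX (k : ℕ) (Y : Matrix m n R⟦X⟧) :
    cM k ((dX R).mat Y) = ((k : R) + 1) • cM (k + 1) Y := by
  ext i j; simp [coeff_dX, mul_comm]

omit [Algebra ℂ R] in
theorem cM_map_C (k : ℕ) (a : Matrix m n R) :
    cM k (a.map (PowerSeries.C (R := R))) = if k = 0 then a else 0 := by
  ext i j
  by_cases hk : k = 0 <;> simp [hk, PowerSeries.coeff_C]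

omit [Algebra ℂ R] in
theorem cM_X_pow_smul (k l : ℕ) (Y : Matrix m n R⟦X⟧) :
    cM k ((PowerSeries.X ^ l : R⟦X⟧) • Y) = if l ≤ k then cM (k - l) Y else 0 := by
  ext i j
  simp only [cM_apply, Matrix.smul_apply, smul_eq_mul, PowerSeries.coeff_X_pow_mul']
  split_ifs <;> rfl

omit [Algebra ℂ R] in
theorem cM_C_smul (k : ℕ) (c : R) (Y : Matrix m n R⟦X⟧) :
    cM k ((PowerSeries.C c : R⟦X⟧) • Y) = c • cM k Y := by
  ext i j; simp

omit [Algebra ℂ R] in
theorem cM_mul_C [Fintype n] (k : ℕ) (Y : Matrix m n R⟦X⟧) (a : Matrix n p R) :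
    cM k (Y * a.map (PowerSeries.C (R := R))) = cM k Y * a := by
  ext i j; simp [Matrix.mul_apply]

omit [Algebra ℂ R] in
theorem cM_C_mul [Fintype n] (k : ℕ) (a : Matrix m n R) (Y : Matrix n p R⟦X⟧) :
    cM k (a.map (PowerSeries.C (R := R)) * Y) = a * cM k Y := by
  ext i j; simp [Matrix.mul_apply]

theorem cm_powerSeries (B : Matrix m n ℂ) :
    cm R⟦X⟧ B = (cm R B).map (PowerSeries.C (R := R)) := by
  ext i j : 2; simp [PowerSeries.algebraMap_apply]

theorem bcM_of_forall_map [Fintype m] [Fintype n] {s : Submodule ℂ (Matrix m n ℂ)} {ι : Type*}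
    (ψ : ι → R →ₗ[ℂ] S) (hψ : ∀ x, (∀ i, ψ i x = 0) → x = 0) {Y : Matrix m n R}
    (h : ∀ i, Y.map (ψ i) ∈ bcM s S) : Y ∈ bcM s R := by
  rw [← vec_mem_bc, mem_bc_iff_dot]
  intro l hl
  refine hψ _ fun i => ?_
  have := mem_bc_iff_dot.1 (vec_mem_bc.2 (h i)) l hl
  rw [← this]
  simp [dotProduct, lin_alg_mul]

theorem mem_bcM_powerSeries [Fintype m] [Fintype n] {s : Submodule ℂ (Matrix m n ℂ)}
    {Y : Matrix m n R⟦X⟧} : Y ∈ bcM s R⟦X⟧ ↔ ∀ k, cM k Y ∈ bcM s R :=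
  ⟨fun h k => bcM_map (coL R k) h, fun h => bcM_of_forall_map (coL R)
    (fun _ hx => PowerSeries.ext fun k => hx k) h⟩

theorem map_C_mem_bcM [Fintype m] [Fintype n] {s : Submodule ℂ (Matrix m n ℂ)} {a : Matrix m n R}
    (h : a ∈ bcM s R) : a.map (PowerSeries.C (R := R)) ∈ bcM s R⟦X⟧ :=
  mem_bcM_powerSeries.2 fun k => by
    rw [cM_map_C]; split_ifs
    · exact h
    · exact Submodule.zero_mem _

theorem mem_of_succ_smul_mem {W : Type*} [AddCommGroup W] [Module R W] (T : Submodule R W) (k : ℕ)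
    {y : W} (h : ((k : R) + 1) • y ∈ T) : y ∈ T := by
  have hk : ((k : ℂ) + 1) ≠ 0 := by exact_mod_cast k.succ_ne_zero
  have := T.smul_mem (algebraMap ℂ R ((k : ℂ) + 1)⁻¹) h
  rw [smul_smul] at this
  have e : algebraMap ℂ R ((k : ℂ) + 1)⁻¹ * ((k : R) + 1) = 1 := by
    have : ((k : R) + 1) = algebraMap ℂ R ((k : ℂ) + 1) := by simp
    rw [this, ← map_mul, inv_mul_cancel₀ hk, map_one]
  rwa [e, one_smul] at this

/-- Solutions of `Y' = Y c` stay in a submodule stable under the coefficients of `c`. -/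
theorem ode_mem_right [Fintype n] (T : Submodule R (Matrix m n R)) {Y : Matrix m n R⟦X⟧}
    {c : Matrix n n R⟦X⟧} (hc : ∀ k, ∀ y ∈ T, y * cM k c ∈ T) (h : (dX R).mat Y = Y * c)
    (h0 : cM 0 Y ∈ T) (k : ℕ) : cM k Y ∈ T := by
  induction k using Nat.strong_induction_on with
  | _ k ih =>
    rcases k with _ | k
    · exact h0
    · refine mem_of_succ_smul_mem T k ?_
      rw [← cM_dX, h, cM_mul]
      refine T.sum_mem fun ij hij => hc _ _ (ih _ ?_)
      have := Finset.HasAntidiagonal.mem_antidiagonal.1 hij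
      omega

theorem ode_mem_left [Fintype m] (T : Submodule R (Matrix m n R)) {Y : Matrix m n R⟦X⟧}
    {c : Matrix m m R⟦X⟧} (hc : ∀ k, ∀ y ∈ T, cM k c * y ∈ T) (h : (dX R).mat Y = c * Y)
    (h0 : cM 0 Y ∈ T) (k : ℕ) : cM k Y ∈ T := by
  induction k using Nat.strong_induction_on with
  | _ k ih =>
    rcases k with _ | k
    · exact h0
    · refine mem_of_succ_smul_mem T k ?_
      rw [← cM_dX, h, cM_mul]
      refine T.sum_mem fun ij hij => hc _ _ (ih _ ?_)
      have := Finset.HasAntidiagonal.mem_antidiagonal.1 hij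
      omega

theorem ode_unique_right [Fintype n] {Y Z : Matrix m n R⟦X⟧} {c : Matrix n n R⟦X⟧}
    (hY : (dX R).mat Y = Y * c) (hZ : (dX R).mat Z = Z * c) (h0 : cM 0 Y = cM 0 Z) : Y = Z := by
  rw [← sub_eq_zero]
  refine cM_ext fun k => ?_
  rw [cM_zero, ← Submodule.mem_bot R]
  refine ode_mem_right ⊥ (c := c) (fun k y hy => ?_) ?_ ?_ k
  · rw [(Submodule.mem_bot R).1 hy, Matrix.zero_mul]; exact Submodule.zero_mem _
  · rw [Der.mat_sub, hY, hZ, Matrix.sub_mul]
  · rw [cM_sub, h0, sub_self]; exact Submodule.zero_mem _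

variable [Fintype n] [DecidableEq n]

theorem ode_mem_bcA {A : Subalgebra ℂ (Matrix n n ℂ)} {Y c : Matrix n n R⟦X⟧}
    (hc : c ∈ bcA A R⟦X⟧) (h : (dX R).mat Y = Y * c) (h0 : cM 0 Y ∈ bcA A R) :
    Y ∈ bcA A R⟦X⟧ :=
  mem_bcM_powerSeries.2 (ode_mem_right (bcM (Subalgebra.toSubmodule A) R)
    (fun k _ hy => (bcA A R).mul_mem hy (mem_bcM_powerSeries.1 hc k)) h h0)

/-- The series `exp (X ^ l a)`. -/
noncomputable def expM (l : ℕ) (a : Matrix n n R) : Matrix n n R⟦X⟧ :=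
  Matrix.of fun i j => PowerSeries.mk fun k =>
    if l ∣ k then ((((k / l).factorial : ℂ)⁻¹ • a ^ (k / l)) i j) else 0

theorem cM_expM (l k : ℕ) (a : Matrix n n R) :
    cM k (expM l a) = if l ∣ k then ((k / l).factorial : ℂ)⁻¹ • a ^ (k / l) else 0 := by
  ext i j
  simp only [cM_apply, expM, Matrix.of_apply, PowerSeries.coeff_mk]
  split_ifs <;> rfl

theorem cM_zero_expM (l : ℕ) (a : Matrix n n R) : cM 0 (expM l a) = 1 := by
  simp [cM_expM]

theorem cM_expM_of_lt {l k : ℕ} (h0 : 0 < k) (h : k < l) (a : Matrix n n R) :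
    cM k (expM l a) = 0 := by
  rw [cM_expM, if_neg (Nat.not_dvd_of_pos_of_lt h0 h)]

theorem cM_expM_self {l : ℕ} (h : 0 < l) (a : Matrix n n R) : cM l (expM l a) = a := by
  simp [cM_expM, Nat.div_self h]

theorem expM_comm (l : ℕ) {a b : Matrix n n R} (h : Commute a b) :
    expM l a * b.map (PowerSeries.C (R := R)) = b.map (PowerSeries.C (R := R)) * expM l a := by
  refine cM_ext fun k => ?_
  rw [cM_mul_C, cM_C_mul, cM_expM]
  split_ifs
  · rw [smul_mul_assoc, mul_smul_comm, (h.pow_left _).eq]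
  · simp

/-- The coefficient `(l + 1) X ^ l a` of the differential equation of `exp (X ^ (l + 1) a)`. -/
noncomputable def expC (l : ℕ) (a : Matrix n n R) : Matrix n n R⟦X⟧ :=
  (PowerSeries.C ((l : R) + 1) * PowerSeries.X ^ l : R⟦X⟧) • a.map (PowerSeries.C (R := R))

theorem dX_expM (l : ℕ) (a : Matrix n n R) :
    (dX R).mat (expM (l + 1) a) = expM (l + 1) a * expC l a := by
  refine cM_ext fun k => ?_
  rw [cM_dX, expC, mul_smul_comm, mul_smul, cM_C_smul, cM_X_pow_smul, cM_mul_C, cM_expM, cM_expM]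
  by_cases hd : l + 1 ∣ k + 1
  · obtain ⟨j, hj⟩ := hd
    rcases j with _ | j
    · omega
    · have h1 : l ≤ k := by nlinarith
      have h2 : k - l = (l + 1) * j := by
        have : k + 1 = (l + 1) * j + (l + 1) := by rw [hj]; ring
        omega
      rw [if_pos ⟨_, hj⟩, if_pos h1, if_pos ⟨_, h2⟩, hj, h2, Nat.mul_div_cancel_left _ l.succ_pos,
        Nat.mul_div_cancel_left _ l.succ_pos, smul_mul_assoc, ← pow_succ]
      have e1 : ((k : R) + 1) = algebraMap ℂ R ((l + 1) * (j + 1)) := by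
        have : ((k + 1 : ℕ) : R) = (((l + 1) * (j + 1) : ℕ) : R) := by rw [hj]
        simpa using this
      have e2 : ((l : R) + 1) = algebraMap ℂ R (l + 1) := by simp
      rw [e1, e2, algebraMap_smul, algebraMap_smul, smul_smul, smul_smul]
      congr 1
      have : ((j : ℂ) + 1) ≠ 0 := by exact_mod_cast j.succ_ne_zero
      have h3 : (j.factorial : ℂ) ≠ 0 := by exact_mod_cast j.factorial_ne_zero
      rw [Nat.factorial_succ]; push_cast; field_simp
  · rw [if_neg hd, smul_zero]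
    split_ifs with h1 h2
    · exfalso; apply hd
      have : k + 1 = (k - l) + (l + 1) := by omega
      rw [this]; exact dvd_add h2 dvd_rfl
    · simp
    · simp

theorem expC_comm (l : ℕ) (a : Matrix n n R) :
    expM (l + 1) a * expC l a = expC l a * expM (l + 1) a := by
  rw [expC, mul_smul_comm, smul_mul_assoc, expM_comm _ (Commute.refl a)]

theorem expM_mul_neg (l : ℕ) (a : Matrix n n R) : expM (l + 1) a * expM (l + 1) (-a) = 1 := by
  refine ode_unique_right (c := 0) ?_ ?_ ?_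
  · have h : expC l (-a) = -expC l a := by
      rw [expC, expC, ← smul_neg]; congr 1; ext; simp
    rw [Der.mat_mul, dX_expM, dX_expM, expC_comm l (-a), h]
    simp [Matrix.mul_assoc]
  · rw [Der.mat_one, Matrix.mul_zero]
  · rw [cM_zero_mul, cM_zero_expM, cM_zero_expM, cM_one]; simp

/-- The unit `exp (X ^ (l + 1) a)`. -/
noncomputable def expU (l : ℕ) (a : Matrix n n R) : GL n R⟦X⟧ :=
  ⟨expM (l + 1) a, expM (l + 1) (-a), expM_mul_neg l a, by simpa using expM_mul_neg l (-a)⟩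

@[simp] theorem coe_expU (l : ℕ) (a : Matrix n n R) :
    (expU l a : Matrix n n R⟦X⟧) = expM (l + 1) a := rfl

@[simp] theorem coe_expU_inv (l : ℕ) (a : Matrix n n R) :
    (((expU l a)⁻¹ : GL n R⟦X⟧) : Matrix n n R⟦X⟧) = expM (l + 1) (-a) := rfl

theorem expU_inv (l : ℕ) (a : Matrix n n R) : (expU l a)⁻¹ = expU l (-a) := Units.ext rfl

theorem logder_expU (l : ℕ) (a : Matrix n n R) :
    (((expU l a)⁻¹ : GL n R⟦X⟧) : Matrix n n R⟦X⟧) * (dX R).mat (expU l a : Matrix n n R⟦X⟧) =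
      expC l a := by
  rw [coe_expU, dX_expM, ← coe_expU, ← Matrix.mul_assoc, Units.inv_mul, Matrix.one_mul]

variable {N : Type} [Fintype N] [DecidableEq N]

omit [Algebra ℂ R] in
theorem cM_zero_ρ (P : NatRep N n) (g : GL N R⟦X⟧) (h : cM 0 (g : Matrix N N R⟦X⟧) = 1) :
    cM 0 (P.ρ R⟦X⟧ g) = 1 := by
  have h1 := P.nat _ _ (PowerSeries.constantCoeff (R := R)) g
  have h2 : gmap (PowerSeries.constantCoeff (R := R)) g = 1 := Units.ext (by
    rw [Units.val_one, ← h]; ext i j; simp)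
  rw [h2, map_one] at h1
  rw [← h1]; ext i j; simp

theorem ρ_expU (P : NatRep N n) (l : ℕ) (a : Matrix N N R) :
    P.ρ R⟦X⟧ (expU l a) = expM (l + 1) (P.dρ R a) := by
  refine ode_unique_right (c := expC l (P.dρ R a)) ?_ (dX_expM _ _) ?_
  · rw [P.der, logder_expU, expC, expC, map_smul, P.dρ_map]
  · rw [cM_zero_ρ P _ (cM_zero_expM _ _), cM_zero_expM]

theorem expM_mem_bcA {A : Subalgebra ℂ (Matrix n n ℂ)} (l : ℕ) {a : Matrix n n R}
    (h : a ∈ bcA A R) : expM l a ∈ bcA A R⟦X⟧ :=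
  mem_bcM_powerSeries.2 fun k => by
    rw [cM_expM]
    split_ifs
    · rw [← algebraMap_smul R]
      exact Submodule.smul_mem _ _ ((bcA A R).pow_mem h _)
    · exact Submodule.zero_mem _

theorem expU_mem_pts {M : ℕ} {G : Subgroup (GL (Fin M) ℂ)} (l : ℕ)
    {a : Matrix (Fin M) (Fin M) R} (h : a ∈ bcM (lie G) R) : expU l a ∈ pts G R⟦X⟧ := by
  rw [mem_pts, pt_iff, ρ_expU]
  exact expM_mem_bcA _ ((repG G).dρ_mem_bcM (fun _ hξ => hξ) h)

end Kol68
end
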