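import Pool.Agent.Work.MP_c53807_ag.End
import Mathlib

-- merged part: Pool.Agent.Work.MP_c53807_ag.GT1
section
/-!
Generic descent of regularity along a regular map.
-/

open MvPolynomial Topology

namespace Kol68

namespace GT1Aux

theorem decomp {τ ρ : Type} (G : MvPolynomial (τ ⊕ ρ) ℂ) :
    ∃ (ι : Type) (_ : Fintype ι) (u : ι → MvPolynomial τ ℂ) (c : ι → MvPolynomial ρ ℂ),
      ∀ x y, eval (Sum.elim x y) G = ∑ i, eval x (u i) * eval y (c i) := by
  induction G using MvPolynomial.induction_on with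
  | C a => exact ⟨Unit, inferInstance, fun _ => C a, fun _ => 1, fun x y => by simp⟩
  | add p q hp hq =>
    obtain ⟨ι, _, u, c, h⟩ := hp
    obtain ⟨ι', _, u', c', h'⟩ := hq
    exact ⟨ι ⊕ ι', inferInstance, Sum.elim u u', Sum.elim c c', fun x y => by
      simp [h, h', Fintype.sum_sum_type]⟩
  | mul_X p j hp =>
    obtain ⟨ι, _, u, c, h⟩ := hp
    rcases j with j | j
    · refine ⟨ι, inferInstance, fun i => u i * X j, c, fun x y => ?_⟩
      rw [map_mul, h, Finset.sum_mul]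
      refine Finset.sum_congr rfl fun i _ => ?_
      simp only [map_mul, eval_X, Sum.elim_inl]
      ring
    · refine ⟨ι, inferInstance, u, fun i => c i * X j, fun x y => ?_⟩
      rw [map_mul, h, Finset.sum_mul]
      refine Finset.sum_congr rfl fun i _ => ?_
      simp only [map_mul, eval_X, Sum.elim_inr]
      ring

theorem exists_coord {K L ι : Type} [Field K] [AddCommGroup L] [Module K L] [Fintype ι]
    (c : ι → L) : ∃ T : L →ₗ[K] (ι → K), ∀ j, c j = ∑ i, T (c j) i • c i := by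
  classical
  let Φ : (ι → K) →ₗ[K] L := Fintype.linearCombination K c
  obtain ⟨g, hg⟩ := LinearMap.exists_rightInverse_of_surjective Φ.rangeRestrict
    (LinearMap.range_rangeRestrict Φ)
  obtain ⟨T, hT⟩ := LinearMap.exists_extend g
  refine ⟨T, fun j => ?_⟩
  have hj : c j ∈ LinearMap.range Φ := ⟨Pi.single j 1, by simp [Φ]⟩
  have h1 : T (c j) = g ⟨c j, hj⟩ := LinearMap.congr_fun hT ⟨c j, hj⟩
  have h2 : Φ (g ⟨c j, hj⟩) = c j := congrArg Subtype.val (LinearMap.congr_fun hg ⟨c j, hj⟩)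
  rw [h1]
  exact h2.symm.trans (Fintype.linearCombination_apply K c _)

theorem homog {σ L : Type} [Field L] [Algebra ℂ L] (w : σ → L) (i₀ : σ) (hw : w i₀ ≠ 0)
    (r : MvPolynomial σ ℂ) : ∃ M₀ : ℕ, ∀ M, M₀ ≤ M → ∃ a : MvPolynomial σ ℂ,
      a.IsHomogeneous M ∧ aeval w a = w i₀ ^ M * aeval (fun i => w i / w i₀) r := by
  induction r using MvPolynomial.induction_on with
  | C c =>
    refine ⟨0, fun M _ => ⟨C c * X i₀ ^ M, ?_, by simp [mul_comm]⟩⟩
    simpa using (isHomogeneous_C σ c).mul ((isHomogeneous_X ℂ i₀).pow M)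
  | add p q hp hq =>
    obtain ⟨M₁, h₁⟩ := hp
    obtain ⟨M₂, h₂⟩ := hq
    refine ⟨max M₁ M₂, fun M hM => ?_⟩
    obtain ⟨a, ha, ha'⟩ := h₁ M ((le_max_left _ _).trans hM)
    obtain ⟨b, hb, hb'⟩ := h₂ M ((le_max_right _ _).trans hM)
    exact ⟨a + b, ha.add hb, by rw [map_add, map_add, ha', hb', mul_add]⟩
  | mul_X p j hp =>
    obtain ⟨M₁, h₁⟩ := hp
    refine ⟨M₁ + 1, fun M hM => ?_⟩
    obtain ⟨M', rfl⟩ : ∃ M', M = M' + 1 := ⟨M - 1, by omega⟩
    obtain ⟨a, ha, ha'⟩ := h₁ M' (by omega)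
    refine ⟨a * X j, ha.mul (isHomogeneous_X ℂ j), ?_⟩
    rw [map_mul, map_mul, ha', aeval_X, aeval_X, pow_succ]
    field_simp

theorem common_den {σ L κ : Type} [Field L] [Algebra ℂ L] [Finite κ] (w : σ → L) (i₀ : σ)
    (hw : w i₀ ≠ 0) (z : κ → L)
    (hz : ∀ k, z k ∈ IntermediateField.adjoin ℂ (Set.range fun i => w i / w i₀)) :
    ∃ (e : ℕ) (D : MvPolynomial σ ℂ) (n : κ → MvPolynomial σ ℂ), D.IsHomogeneous e ∧
      (∀ k, (n k).IsHomogeneous e) ∧ aeval w D ≠ 0 ∧ ∀ k, aeval w (n k) = aeval w D * z k := by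
  classical
  have := Fintype.ofFinite κ
  have h1 : ∀ k, ∃ r s : MvPolynomial σ ℂ, aeval (fun i => w i / w i₀) s ≠ 0 ∧
      aeval (fun i => w i / w i₀) r = aeval (fun i => w i / w i₀) s * z k := fun k => by
    obtain ⟨r, s, h⟩ := (IntermediateField.mem_adjoin_range_iff ℂ _ _).1 (hz k)
    by_cases hs : aeval (fun i => w i / w i₀) s = 0
    · exact ⟨0, 1, by simp, by rw [h, hs]; simp⟩
    · exact ⟨r, s, hs, by rw [h, mul_div_cancel₀ _ hs]⟩
  choose r s hs hrs using h1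
  obtain ⟨M₁, hM₁⟩ := homog w i₀ hw (∏ k, s k)
  choose M₂ hM₂ using fun k => homog w i₀ hw (r k * ∏ l ∈ Finset.univ.erase k, s l)
  obtain ⟨D, hD, hD'⟩ := hM₁ (max M₁ (Finset.univ.sup M₂)) (le_max_left _ _)
  choose n hn hn' using fun k => hM₂ k (max M₁ (Finset.univ.sup M₂))
    ((Finset.le_sup (f := M₂) (Finset.mem_univ k)).trans (le_max_right _ _))
  refine ⟨_, D, n, hD, hn, ?_, fun k => ?_⟩
  · rw [hD', map_prod]
    exact mul_ne_zero (pow_ne_zero _ hw) (Finset.prod_ne_zero_iff.2 fun k _ => hs k)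
  · rw [hn', hD', map_mul, hrs, ← Finset.mul_prod_erase _ s (Finset.mem_univ k), map_mul]
    ring

theorem exists_generic {ρ : Type} {A : Set (ρ → ℂ)} (hI : AIrr A) :
    ∃ (L : Type) (_ : Field L) (_ : Algebra ℂ L) (ω : ρ → L),
      ∀ q : MvPolynomial ρ ℂ, aeval ω q = 0 ↔ ∀ y ∈ A, eval y q = 0 := by
  have := hI.isPrime
  let R := MvPolynomial ρ ℂ ⧸ vanishingIdeal ℂ A
  let L := FractionRing R
  let π : MvPolynomial ρ ℂ →ₐ[ℂ] L :=
    (IsScalarTower.toAlgHom ℂ R L).comp (Ideal.Quotient.mkₐ ℂ (vanishingIdeal ℂ A))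
  refine ⟨L, inferInstance, inferInstance, fun i => π (X i), fun q => ?_⟩
  have h1 : aeval (fun i => π (X i)) q = π q := (AlgHom.congr_fun (aeval_unique π) q).symm
  rw [h1]
  change algebraMap R L (Ideal.Quotient.mk _ q) = 0 ↔ _
  rw [map_eq_zero_iff _ (IsFractionRing.injective R L), Ideal.Quotient.eq_zero_iff_mem,
    mem_vanishingIdeal_iff]
  simp only [aeval_eq_eval]

theorem eval_aeval {σ ρ : Type} (y : ρ → ℂ) (P : σ → MvPolynomial ρ ℂ) (D : MvPolynomial σ ℂ) :
    eval y (aeval P D) = eval (evv y P) D := by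
  induction D using MvPolynomial.induction_on with
  | C c => simp
  | add p q hp hq => simp only [map_add, hp, hq]
  | mul_X p j hp => simp only [map_mul, hp, aeval_X, eval_X, evv_apply]

theorem aeval_aeval {σ ρ L : Type} [CommRing L] [Algebra ℂ L] (ω : ρ → L)
    (P : σ → MvPolynomial ρ ℂ) (D : MvPolynomial σ ℂ) :
    aeval ω (aeval P D) = aeval (fun i => aeval ω (P i)) D := by
  rw [← AlgHom.comp_apply, comp_aeval]

variable {ρ : Type} {V : Type} [TopologicalSpace V] [QP V] {A : Set (ρ → ℂ)} {π : (ρ → ℂ) → V}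

/-- A homogeneous identity that holds along one representative holds along the map. -/
theorem transfer (hI : AIrr A) (hπ : Reg A π) {P : QP.σ V → MvPolynomial ρ ℂ}
    (hP : ∀ y ∈ A, ∃ c : ℂ, evv y P = c • rp (π y)) {i₀ : QP.σ V}
    (h₀ : ∃ y ∈ A, eval y (P i₀) ≠ 0) {e : ℕ} (Φ : (QP.σ V → ℂ) → (ρ → ℂ) → ℂ)
    (hΦ : ∀ (c : ℂ) v y, Φ (c • v) y = c ^ e * Φ v y)
    (q : (QP.σ V → MvPolynomial ρ ℂ) → MvPolynomial ρ ℂ)
    (hq : ∀ P' y, eval y (q P') = Φ (evv y P') y) (h : ∀ y ∈ A, eval y (q P) = 0) :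
    ∀ y ∈ A, Φ (rp (π y)) y = 0 := by
  intro y₀ hy₀
  obtain ⟨P', hne, hP'⟩ := hπ y₀ hy₀
  have h1 : ∀ y ∈ A, eval y (P i₀) * eval y (q P') = 0 := fun y hy => by
    by_cases hy0 : eval y (P i₀) = 0
    · rw [hy0, zero_mul]
    obtain ⟨c, hc⟩ := hP y hy
    obtain ⟨c', hc'⟩ := hP' y hy
    have hc0 : c ≠ 0 := by
      rintro rfl
      exact hy0 (by simpa using congrFun hc i₀)
    have h2 := h y hy
    rw [hq, hc, hΦ] at h2
    have h3 : Φ (rp (π y)) y = 0 := (mul_eq_zero.1 h2).resolve_left (pow_ne_zero _ hc0)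
    have h4 : evv y P' = c' • rp (π y) := hc'
    rw [hq, h4, hΦ, h3, mul_zero, mul_zero]
  rcases hI.2 _ _ h1 with h2 | h2
  · obtain ⟨y, hy, hy0⟩ := h₀
    exact absurd (h2 y hy) hy0
  · obtain ⟨c', hc'⟩ := hP' y₀ hy₀
    have h4 : evv y₀ P' = c' • rp (π y₀) := hc'
    have hc0 : c' ≠ 0 := by
      rintro rfl
      exact hne (by simpa using h4)
    have h3 := h2 y₀ hy₀
    rw [hq, h4, hΦ] at h3
    exact (mul_eq_zero.1 h3).resolve_left (pow_ne_zero _ hc0)

/-- Ratios of a tuple whose line depends only on the image point are rational in the image. -/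
theorem ratio_mem [Finite ρ] (hA : ALC A) (hI : AIrr A) {P : QP.σ V → MvPolynomial ρ ℂ}
    (hP : ∀ y ∈ A, ∃ c : ℂ, evv y P = c • rp (π y)) {L : Type} [Field L] [Algebra ℂ L]
    {ω : ρ → L} (hω : ∀ q : MvPolynomial ρ ℂ, aeval ω q = 0 ↔ ∀ y ∈ A, eval y q = 0)
    {i₀ : QP.σ V} (h₀ : aeval ω (P i₀) ≠ 0) {G G₀ : MvPolynomial ρ ℂ} {g g₀ : V → ℂ}
    (hG : ∀ y ∈ A, ∃ c : ℂ, eval y G = c * g (π y) ∧ eval y G₀ = c * g₀ (π y))
    (hG₀ : aeval ω G₀ ≠ 0) : aeval ω G / aeval ω G₀ ∈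
      IntermediateField.adjoin ℂ (Set.range fun i => aeval ω (P i) / aeval ω (P i₀)) := by
  refine ConstAAux.mem_of_sep _ _ fun Ω _ _ _ s₁ s₂ hs => ?_
  have hinj : ∀ (s : L →ₐ[ℂ] Ω) (a : L), a ≠ 0 → s a ≠ 0 := fun s a ha =>
    (map_ne_zero_iff s s.toRingHom.injective).2 ha
  have hdiv : ∀ (s : L →ₐ[ℂ] Ω) (a b : L), b ≠ 0 → s (a / b) * s b = s a := fun s a b hb => by
    rw [← map_mul, div_mul_cancel₀ _ hb]
  have key : s₁ (aeval ω G) * s₂ (aeval ω G₀) = s₂ (aeval ω G) * s₁ (aeval ω G₀) := by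
    by_contra hne
    obtain ⟨y₀, hy₀⟩ := hI.1
    obtain ⟨q, hq0, hq⟩ := hA.exists_bas hy₀
    have hqω : aeval ω q ≠ 0 := fun h => hq0 ((hω q).1 h y₀ hy₀)
    let ω' : ρ ⊕ ρ → Ω := Sum.elim (fun j => s₁ (ω j)) (fun j => s₂ (ω j))
    let l : MvPolynomial ρ ℂ →ₐ[ℂ] MvPolynomial (ρ ⊕ ρ) ℂ := rename Sum.inl
    let r : MvPolynomial ρ ℂ →ₐ[ℂ] MvPolynomial (ρ ⊕ ρ) ℂ := rename Sum.inr
    have hl : ∀ p, aeval ω' (l p) = s₁ (aeval ω p) := fun p => by
      simp only [l, aeval_rename]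
      rw [← AlgHom.comp_apply, comp_aeval]; rfl
    have hr : ∀ p, aeval ω' (r p) = s₂ (aeval ω p) := fun p => by
      simp only [r, aeval_rename]
      rw [← AlgHom.comp_apply, comp_aeval]; rfl
    have hf : aeval ω' (l q * r q * l (P i₀) * r (P i₀) * (l G * r G₀ - r G * l G₀)) ≠ 0 := by
      simp only [map_mul, map_sub, hl, hr]
      exact mul_ne_zero (mul_ne_zero (mul_ne_zero (mul_ne_zero (hinj _ _ hqω) (hinj _ _ hqω))
        (hinj _ _ h₀)) (hinj _ _ h₀)) (sub_ne_zero.2 hne)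
    obtain ⟨z, hz, hzq⟩ := exists_specialization ω' hf
    have hl' : ∀ p, aeval z (l p) = eval (z ∘ Sum.inl) p := fun p => by
      simp only [l, aeval_rename, aeval_eq_eval]
    have hr' : ∀ p, aeval z (r p) = eval (z ∘ Sum.inr) p := fun p => by
      simp only [r, aeval_rename, aeval_eq_eval]
    simp only [map_mul, map_sub, hl', hr'] at hz
    have m₁ : z ∘ Sum.inl ∈ A := hq _ (fun p hp => by
      rw [← hl']; exact hzq _ (by rw [hl, (hω p).2 hp, map_zero])) fun h => hz (by simp [h])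
    have m₂ : z ∘ Sum.inr ∈ A := hq _ (fun p hp => by
      rw [← hr']; exact hzq _ (by rw [hr, (hω p).2 hp, map_zero])) fun h => hz (by simp [h])
    have e₁ : eval (z ∘ Sum.inl) (P i₀) ≠ 0 := fun h => hz (by simp [h])
    have e₂ : eval (z ∘ Sum.inr) (P i₀) ≠ 0 := fun h => hz (by simp [h])
    have hmin : ∀ i, eval (z ∘ Sum.inl) (P i) * eval (z ∘ Sum.inr) (P i₀) =
        eval (z ∘ Sum.inr) (P i) * eval (z ∘ Sum.inl) (P i₀) := fun i => by
      have := hzq (l (P i) * r (P i₀) - r (P i) * l (P i₀)) (by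
        simp only [map_mul, map_sub, hl, hr]
        rw [← hdiv s₁ _ _ h₀, ← hdiv s₂ (aeval ω (P i)) _ h₀,
          hs _ (IntermediateField.subset_adjoin ℂ _ ⟨i, rfl⟩)]
        ring)
      simp only [map_mul, map_sub, hl', hr'] at this
      exact sub_eq_zero.1 this
    obtain ⟨c₁, hc₁⟩ := hP _ m₁
    obtain ⟨c₂, hc₂⟩ := hP _ m₂
    have hc₁0 : c₁ ≠ 0 := by
      rintro rfl
      exact e₁ (by simpa using congrFun hc₁ i₀)
    have heq : π (z ∘ Sum.inl) = π (z ∘ Sum.inr) := by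
      refine eq_of_rp_smul (c := c₂ * eval (z ∘ Sum.inl) (P i₀) /
        (c₁ * eval (z ∘ Sum.inr) (P i₀))) (funext fun i => ?_)
      have a₁ : eval (z ∘ Sum.inl) (P i) = c₁ * rp (π (z ∘ Sum.inl)) i := congrFun hc₁ i
      have a₂ : eval (z ∘ Sum.inr) (P i) = c₂ * rp (π (z ∘ Sum.inr)) i := congrFun hc₂ i
      have a₃ := hmin i
      rw [a₁, a₂] at a₃
      rw [Pi.smul_apply, smul_eq_mul]
      field_simp
      linear_combination a₃
    obtain ⟨d₁, u₁, v₁⟩ := hG _ m₁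
    obtain ⟨d₂, u₂, v₂⟩ := hG _ m₂
    apply hz
    rw [u₁, u₂, v₁, v₂, heq]
    ring
  rw [← hdiv s₁ _ _ hG₀, ← hdiv s₂ (aeval ω G) _ hG₀] at key
  apply mul_right_cancel₀ (mul_ne_zero (hinj s₁ _ hG₀) (hinj s₂ _ hG₀))
  linear_combination key

theorem exists_smul_of_minor {μ : Type} {g n : μ → ℂ} (hg : g ≠ 0)
    (h : ∀ a b, g a * n b = g b * n a) : ∃ c : ℂ, n = c • g := by
  obtain ⟨a, ha⟩ := Function.ne_iff.1 hg
  have ha' : g a ≠ 0 := ha
  refine ⟨n a / g a, funext fun b => ?_⟩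
  rw [Pi.smul_apply, smul_eq_mul]
  field_simp
  linear_combination h a b

end GT1Aux

variable {ρ τ : Type} {V W : Type} [TopologicalSpace V] [QP V] [TopologicalSpace W] [QP W]

open GT1Aux in
theorem generic_descent [Finite ρ] [Finite τ] {A : Set (ρ → ℂ)} (hA : ALC A) (hI : AIrr A)
    {π : (ρ → ℂ) → V} (hπ : Reg A π) {B : Set (τ → ℂ)} {a : (τ → ℂ) → V → W}
    (h : Reg (aprod B A) fun z => a (z ∘ Sum.inl) (π (z ∘ Sum.inr))) :
    ∃ O : Set V, IsOpen O ∧ (O ∩ π '' A).Nonempty ∧ FamOn B (O ∩ π '' A) a := by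
  classical
  obtain ⟨y₀, hy₀⟩ := hI.1
  have : Nonempty V := ⟨π y₀⟩
  obtain ⟨L, _, _, ω, hω⟩ := exists_generic hI
  obtain ⟨P, hP0, hP⟩ := hπ y₀ hy₀
  replace hP : ∀ y ∈ A, ∃ c : ℂ, evv y P = c • rp (π y) := hP
  obtain ⟨i₀, hi₀⟩ := Function.ne_iff.1 hP0
  replace hi₀ : eval y₀ (P i₀) ≠ 0 := hi₀
  have hw : aeval ω (P i₀) ≠ 0 := fun h => hi₀ ((hω _).1 h y₀ hy₀)
  obtain ⟨s, hs, hcov⟩ := PReg.fg h
  replace hs : ∀ F ∈ s, ∀ x ∈ B, ∀ y ∈ A, ∃ c : ℂ,
      evv (Sum.elim x y) F = c • rp (a x (π y)) :=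
    fun F hF x hx y hy => hs F hF (Sum.elim x y) ⟨hx, hy⟩
  have := Fintype.ofFinite (QP.σ W)
  choose ι hι u c huc using fun k : s × QP.σ W => decomp (k.1.1 k.2)
  let K := IntermediateField.adjoin ℂ (Set.range fun i => aeval ω (P i) / aeval ω (P i₀))
  obtain ⟨T, hT⟩ := exists_coord (K := K) fun l : Σ k, ι k => aeval ω (c l.1 l.2)
  obtain ⟨e, D, n, hD, hn, hD0, hnD⟩ := common_den (fun i => aeval ω (P i)) i₀ hw
    (fun l : (Σ k, ι k) × (Σ k, ι k) => (T (aeval ω (c l.1.1 l.1.2)) l.2 : L))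
    fun l => (T _ l.2).2
  let Fx : (τ → ℂ) → s × QP.σ W → MvPolynomial ρ ℂ := fun x k => ∑ l, C (eval x (u k l)) * c k l
  let Nx : (τ → ℂ) → s × QP.σ W → (Σ k, ι k) → MvPolynomial (QP.σ V) ℂ := fun x k i =>
    ∑ l, C (eval x (u k l)) * n (⟨k, l⟩, i)
  have hFx : ∀ x y k, eval y (Fx x k) = eval (Sum.elim x y) (k.1.1 k.2) := fun x y k => by
    simp [Fx, huc]
  have hNx : ∀ x k i, (Nx x k i).IsHomogeneous e := fun x k i =>
    IsHomogeneous.sum _ _ _ fun l _ => by simpa using (isHomogeneous_C _ _).mul (hn _)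
  have hFω : ∀ x k, aeval ω (Fx x k) =
      ∑ l, (algebraMap ℂ K (eval x (u k l))) • aeval ω (c k l) := fun x k => by
    simp only [Fx, map_sum, map_mul, aeval_C, Algebra.smul_def]
    rfl
  have hNω : ∀ x k i, aeval (fun i => aeval ω (P i)) (Nx x k i) =
      aeval (fun i => aeval ω (P i)) D * (T (aeval ω (Fx x k)) i : L) := fun x k i => by
    rw [hFω]
    simp only [Nx, map_sum, map_mul, aeval_C, hnD, map_smul, Finset.sum_apply, Pi.smul_apply,
      smul_eq_mul, IntermediateField.coe_sum, Finset.mul_sum, MulMemClass.coe_mul]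
    refine Finset.sum_congr rfl fun l _ => ?_
    change _ = _ * (algebraMap ℂ L _ * _)
    ring
  have hspan : ∀ x k, aeval ω (Fx x k) =
      ∑ i, T (aeval ω (Fx x k)) i • aeval ω (c i.1 i.2) := fun x k => by
    conv_rhs => rw [hFω]
    simp only [map_sum, map_smul, Finset.sum_apply, Pi.smul_apply, smul_eq_mul, Finset.sum_smul,
      mul_smul]
    rw [Finset.sum_comm, hFω]
    refine Finset.sum_congr rfl fun l _ => ?_
    rw [← Finset.smul_sum, ← hT ⟨k, l⟩]
  have h1 : ∀ x k, ∀ y ∈ A, eval (rp (π y)) D * eval y (Fx x k) -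
      ∑ i, eval y (c i.1 i.2) * eval (rp (π y)) (Nx x k i) = 0 := fun x k => by
    refine transfer hI hπ hP ⟨y₀, hy₀, hi₀⟩ (e := e)
      (fun v y => eval v D * eval y (Fx x k) - ∑ i, eval y (c i.1 i.2) * eval v (Nx x k i))
      (fun t v y => ?_) (fun P' => aeval P' D * Fx x k - ∑ i, c i.1 i.2 * aeval P' (Nx x k i))
      (fun P' y => ?_) ((hω _).1 ?_)
    · simp only [eval_smul_hom hD, eval_smul_hom (hNx x k _), mul_sub, Finset.mul_sum]
      congr 1
      · ring
      · exact Finset.sum_congr rfl fun i _ => by ring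
    · simp only [map_sub, map_mul, map_sum, eval_aeval]
    · simp only [map_sub, map_mul, map_sum, aeval_aeval, hNω]
      conv_lhs => enter [1, 2]; rw [hspan]
      rw [Finset.mul_sum, sub_eq_zero]
      refine Finset.sum_congr rfl fun i _ => ?_
      rw [Algebra.smul_def]
      change _ * ((T _ i : L) * _) = _
      ring
  have h2 : ∀ x ∈ B, ∀ (j j' : s) (b b' : QP.σ W) (i : Σ k, ι k), ∀ y ∈ A,
      eval y (Fx x (j, b)) * eval (rp (π y)) (Nx x (j', b') i) -
        eval y (Fx x (j, b')) * eval (rp (π y)) (Nx x (j', b) i) = 0 := fun x hx j j' b b' i => by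
    refine transfer hI hπ hP ⟨y₀, hy₀, hi₀⟩ (e := e)
      (fun v y => eval y (Fx x (j, b)) * eval v (Nx x (j', b') i) -
        eval y (Fx x (j, b')) * eval v (Nx x (j', b) i))
      (fun t v y => ?_) (fun P' => Fx x (j, b) * aeval P' (Nx x (j', b') i) -
        Fx x (j, b') * aeval P' (Nx x (j', b) i))
      (fun P' y => ?_) ((hω _).1 ?_)
    · simp only [eval_smul_hom (hNx x _ _)]
      ring
    · simp only [map_sub, map_mul, eval_aeval]
    · simp only [map_sub, map_mul, aeval_aeval, hNω]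
      by_cases hz : ∀ b₀, aeval ω (Fx x (j, b₀)) = 0
      · simp [hz]
      push Not at hz
      obtain ⟨b₀, hb₀⟩ := hz
      have hr : ∀ b, ∃ r : K, aeval ω (Fx x (j, b)) = r • aeval ω (Fx x (j, b₀)) ∧
          aeval ω (Fx x (j', b)) = r • aeval ω (Fx x (j', b₀)) := fun b => by
        have hm := ratio_mem hA hI hP hω hw (G := Fx x (j, b)) (G₀ := Fx x (j, b₀))
          (g := fun v => rp (a x v) b) (g₀ := fun v => rp (a x v) b₀) (fun y hy => by
            obtain ⟨t, ht⟩ := hs j.1 j.2 x hx y hy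
            exact ⟨t, (hFx x y _).trans (congrFun ht b), (hFx x y _).trans (congrFun ht b₀)⟩) hb₀
        have hmin : aeval ω (Fx x (j, b) * Fx x (j', b₀) - Fx x (j, b₀) * Fx x (j', b)) = 0 :=
          (hω _).2 fun y hy => by
            obtain ⟨t, ht⟩ := hs j.1 j.2 x hx y hy
            obtain ⟨t', ht'⟩ := hs j'.1 j'.2 x hx y hy
            have a₁ : ∀ b, eval (Sum.elim x y) (j.1 b) = t * rp (a x (π y)) b := congrFun ht
            have a₂ : ∀ b, eval (Sum.elim x y) (j'.1 b) = t' * rp (a x (π y)) b := congrFun ht'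
            simp only [map_sub, map_mul, hFx, a₁, a₂]
            ring
        simp only [map_sub, map_mul] at hmin
        refine ⟨⟨_, hm⟩, ?_, ?_⟩
        · exact (div_mul_cancel₀ _ hb₀).symm
        · change _ = aeval ω (Fx x (j, b)) / aeval ω (Fx x (j, b₀)) * aeval ω (Fx x (j', b₀))
          field_simp
          linear_combination -hmin
      obtain ⟨r, hr₁, hr₂⟩ := hr b
      obtain ⟨r', hr₁', hr₂'⟩ := hr b'
      rw [hr₁, hr₂, hr₁', hr₂', map_smul, map_smul]
      simp only [Pi.smul_apply, smul_eq_mul, MulMemClass.coe_mul]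
      change (r : L) * _ * _ - (r' : L) * _ * _ = 0
      ring
  let N : s × QP.σ W → (Σ k, ι k) → MvPolynomial (τ ⊕ QP.σ V) ℂ := fun k i =>
    ∑ l, rename Sum.inl (u k l) * rename Sum.inr (n (⟨k, l⟩, i))
  have hN : ∀ z k i, eval z (N k i) = eval (z ∘ Sum.inr) (Nx (z ∘ Sum.inl) k i) := fun z k i => by
    simp [N, Nx, eval_rename]
  refine ⟨{v | eval (rp v) D ≠ 0}, isOpen_form hD, ?_, famOn_of_taut fun z₀ hz₀ => ?_⟩
  · by_contra hno
    apply hD0
    rw [← aeval_aeval, hω]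
    intro y hy
    obtain ⟨t, ht⟩ := hP y hy
    have : eval (rp (π y)) D = 0 := by
      by_contra hne
      exact hno ⟨π y, hne, y, hy, rfl⟩
    rw [eval_aeval, ht, eval_smul_hom hD, this, mul_zero]
  · obtain ⟨hx₀, _, ⟨hD₁, y₁, hy₁, rfl⟩, t₁, ht₁, e₁⟩ := hz₀
    obtain ⟨F, hF, hF0⟩ := hcov (Sum.elim (z₀ ∘ Sum.inl) y₁) ⟨hx₀, hy₁⟩
    obtain ⟨b, hb⟩ := Function.ne_iff.1 hF0
    have hb' : eval y₁ (Fx (z₀ ∘ Sum.inl) (⟨F, hF⟩, b)) ≠ 0 := by rw [hFx]; exact hb
    obtain ⟨i, hi⟩ : ∃ i, eval (rp (π y₁)) (Nx (z₀ ∘ Sum.inl) (⟨F, hF⟩, b) i) ≠ 0 := by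
      by_contra hno
      push Not at hno
      have := h1 (z₀ ∘ Sum.inl) (⟨F, hF⟩, b) y₁ hy₁
      simp only [hno, mul_zero, Finset.sum_const_zero, sub_zero] at this
      exact mul_ne_zero hD₁ hb' this
    refine ⟨fun b => N (⟨F, hF⟩, b) i, Function.ne_iff.2 ⟨b, ?_⟩, fun z hz => ?_⟩
    · change eval z₀ (N _ i) ≠ 0
      rw [hN, e₁, eval_smul_hom (hNx _ _ _)]
      exact mul_ne_zero (pow_ne_zero _ ht₁) hi
    · obtain ⟨hx, _, ⟨_, y, hy, rfl⟩, t, ht, e₂⟩ := hz
      obtain ⟨F', hF', hF0'⟩ := hcov (Sum.elim (z ∘ Sum.inl) y) ⟨hx, hy⟩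
      obtain ⟨d, hd⟩ := hs F' hF' _ hx y hy
      have hd0 : d ≠ 0 := by
        rintro rfl
        exact hF0' (by simpa using hd)
      have a₁ : ∀ b, eval (Sum.elim (z ∘ Sum.inl) y) (F' b) =
          d * rp (a (z ∘ Sum.inl) (π y)) b := congrFun hd
      change ∃ c : ℂ, _ = c • rp (a (z ∘ Sum.inl) (taut V (z ∘ Sum.inr)))
      rw [e₂, taut_smul _ ht]
      refine exists_smul_of_minor (rp_ne_zero _) fun b b' => ?_
      have := h2 _ hx ⟨F', hF'⟩ ⟨F, hF⟩ b b' i y hy
      rw [hFx, hFx, a₁, a₁] at this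
      simp only [evv_apply, hN, e₂, eval_smul_hom (hNx _ _ _)]
      apply mul_left_cancel₀ hd0
      linear_combination t ^ e * this

end Kol68
end

-- merged part: Pool.Agent.Work.MP_c53807_ag.GChar
section
/-!
Characters separate the points of a compact abelian group.
-/

namespace Kol68.GChar19

open MeasureTheory Filter Topology
open scoped InnerProductSpace ComplexConjugate

variable {A : Type} [CommGroup A] [TopologicalSpace A] [IsTopologicalGroup A] [CompactSpace A]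

/-- Translation operator. -/
noncomputable def U (b : A) : C(A, ℂ) →L[ℂ] C(A, ℂ) :=
  ContinuousMap.compCLM ℂ ℂ (ContinuousMap.mulRight b)

omit [CompactSpace A] in
theorem U_apply (b : A) (g : C(A, ℂ)) (x : A) : U b g x = g (x * b) := rfl

omit [CompactSpace A] in
theorem U_mul (b c : A) : (U (b * c) : C(A, ℂ) →L[ℂ] C(A, ℂ)) = U b * U c := by
  ext g x
  simp [U_apply, mul_assoc]

omit [CompactSpace A] in
theorem U_one : (U (1 : A) : C(A, ℂ) →L[ℂ] C(A, ℂ)) = 1 := by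
  ext g x
  simp [U_apply]

theorem norm_U_apply (b : A) (g : C(A, ℂ)) : ‖U b g‖ ≤ ‖g‖ :=
  (ContinuousMap.norm_le _ (norm_nonneg g)).2 fun x => g.norm_coe_le_norm (x * b)

theorem norm_U (b : A) : ‖(U b : C(A, ℂ) →L[ℂ] C(A, ℂ))‖ ≤ 1 :=
  ContinuousLinearMap.opNorm_le_bound _ zero_le_one fun g => by
    simpa using norm_U_apply b g

theorem continuous_U (g : C(A, ℂ)) : Continuous fun b : A => U b g :=
  ContinuousMap.continuous_of_continuous_uncurry _
    (g.continuous.comp (continuous_snd.mul continuous_fst))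

variable [MeasurableSpace A] [BorelSpace A] (μ : Measure A) [IsFiniteMeasure μ]

theorem integrable_U (h g : C(A, ℂ)) : Integrable (fun y => h y • U y g) μ :=
  (h.continuous.smul (continuous_U g)).integrable_of_hasCompactSupport
    (HasCompactSupport.of_compactSpace _)

/-- Convolution operators. -/
noncomputable def T : C(A, ℂ) →L[ℂ] C(A, ℂ) →L[ℂ] C(A, ℂ) :=
  LinearMap.mkContinuous₂
    (LinearMap.mk₂ ℂ (fun h g : C(A, ℂ) => ∫ y, h y • U y g ∂μ)
      (fun h k g => by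
        simp only [ContinuousMap.add_apply, add_smul]
        exact integral_add (integrable_U μ h g) (integrable_U μ k g))
      (fun c h g => by
        simp only [ContinuousMap.smul_apply, smul_assoc]
        exact integral_smul c _)
      (fun h g k => by
        simp only [map_add, smul_add]
        exact integral_add (integrable_U μ h g) (integrable_U μ h k))
      (fun c h g => by
        simp only [map_smul, smul_comm _ c]
        exact integral_smul c _))
    (μ.real Set.univ) fun h g => by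
      have := norm_integral_le_of_norm_le_const (μ := μ) (f := fun y => h y • U y g)
        (C := ‖h‖ * ‖g‖) (Eventually.of_forall fun y => by
          rw [norm_smul]
          exact mul_le_mul (h.norm_coe_le_norm y) (norm_U_apply y g) (norm_nonneg _)
            (norm_nonneg _))
      simp only [LinearMap.mk₂_apply]
      linarith

theorem T_apply (h g : C(A, ℂ)) : T μ h g = ∫ y, h y • U y g ∂μ := rfl

theorem map_T {F : Type} [NormedAddCommGroup F] [NormedSpace ℂ F] [CompleteSpace F]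
    (W : C(A, ℂ) →L[ℂ] F) (h g : C(A, ℂ)) : W (T μ h g) = ∫ y, h y • W (U y g) ∂μ := by
  rw [T_apply, ← W.integral_comp_comm (integrable_U μ h g)]
  simp only [map_smul]

theorem T_comm (W : C(A, ℂ) →L[ℂ] C(A, ℂ)) (hW : ∀ b : A, U b * W = W * U b) (h : C(A, ℂ)) :
    W * T μ h = T μ h * W := by
  ext1 g
  rw [ContinuousLinearMap.mul_apply, ContinuousLinearMap.mul_apply, map_T, T_apply]
  congr 1
  funext y
  rw [← ContinuousLinearMap.mul_apply, ← hW y, ContinuousLinearMap.mul_apply]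

theorem U_mul_T [μ.IsMulRightInvariant] (b : A) (h : C(A, ℂ)) :
    U b * T μ h = T μ (U b⁻¹ h) := by
  ext1 g
  rw [ContinuousLinearMap.mul_apply, map_T, T_apply,
    ← integral_mul_right_eq_self (fun y => (U b⁻¹ h) y • U y g) b]
  congr 1
  funext y
  rw [U_apply, mul_inv_cancel_right, mul_comm y b, U_mul, ContinuousLinearMap.mul_apply]

theorem inner_U [μ.IsMulRightInvariant] (y : A) (g k : C(A, ℂ)) :
    ⟪ContinuousMap.toLp 2 μ ℂ g, ContinuousMap.toLp 2 μ ℂ (U y k)⟫_ℂ =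
      ⟪ContinuousMap.toLp 2 μ ℂ (U y⁻¹ g), ContinuousMap.toLp 2 μ ℂ k⟫_ℂ := by
  rw [ContinuousMap.inner_toLp, ContinuousMap.inner_toLp,
    ← integral_mul_right_eq_self (fun x => k x * conj ((U y⁻¹ g) x)) y]
  simp only [U_apply, mul_inv_cancel_right]

theorem inner_T [μ.IsMulRightInvariant] [μ.IsInvInvariant] (h : C(A, ℂ))
    (hh : ∀ y, h y⁻¹ = conj (h y)) (g k : C(A, ℂ)) :
    ⟪ContinuousMap.toLp 2 μ ℂ g, ContinuousMap.toLp 2 μ ℂ (T μ h k)⟫_ℂ =
      ⟪ContinuousMap.toLp 2 μ ℂ (T μ h g), ContinuousMap.toLp 2 μ ℂ k⟫_ℂ := by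
  have h1 := map_T μ ((innerSL ℂ (ContinuousMap.toLp 2 μ ℂ g)).comp
    (ContinuousMap.toLp 2 μ ℂ)) h k
  have h2 := map_T μ ((innerSL ℂ (ContinuousMap.toLp 2 μ ℂ k)).comp
    (ContinuousMap.toLp 2 μ ℂ)) h g
  simp only [ContinuousLinearMap.comp_apply, innerSL_apply_apply, smul_eq_mul] at h1 h2
  rw [h1, ← inner_conj_symm, h2, ← integral_conj, ← integral_inv_eq_self]
  congr 1
  funext y
  rw [map_mul, inner_conj_symm, inner_U, inv_inv, hh]

theorem T_ne_zero [μ.IsOpenPosMeasure] (h : C(A, ℂ)) (hh : h ≠ 0) :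
    T μ h (star h) ≠ 0 := by
  intro e
  have h1 := map_T μ (ContinuousMap.evalCLM ℂ (1 : A)) h (star h)
  rw [e, map_zero] at h1
  simp only [ContinuousMap.evalCLM_apply, U_apply, one_mul, smul_eq_mul,
    ContinuousMap.star_apply] at h1
  have h2 := ContinuousMap.inner_toLp μ h h
  simp only [starRingEnd_apply] at h2
  rw [← h1, inner_self_eq_zero] at h2
  exact hh (ContinuousMap.toLp_injective μ (h2.trans (map_zero _).symm))

theorem pow_lower [μ.IsOpenPosMeasure] (S : C(A, ℂ) →L[ℂ] C(A, ℂ))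
    (hS : ∀ g k, ⟪ContinuousMap.toLp 2 μ ℂ g, ContinuousMap.toLp 2 μ ℂ (S k)⟫_ℂ =
      ⟪ContinuousMap.toLp 2 μ ℂ (S g), ContinuousMap.toLp 2 μ ℂ k⟫_ℂ)
    (g : C(A, ℂ)) (hg : S g ≠ 0) :
    ∃ κ c : ℝ, 0 < κ ∧ 0 < c ∧ ∀ n, κ * c ^ n ≤ ‖S ^ n‖ := by
  set J : C(A, ℂ) →L[ℂ] Lp ℂ 2 μ := ContinuousMap.toLp 2 μ ℂ with hJ
  have hinj : ∀ k, k ≠ 0 → 0 < ‖J k‖ := fun k hk => norm_pos_iff.2 fun e =>
    hk (ContinuousMap.toLp_injective μ (e.trans (map_zero _).symm))
  have hg0 : g ≠ 0 := fun e => hg (by rw [e, map_zero])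
  let v : ℕ → ℝ := fun n => ‖J ((S ^ n) g)‖
  have hv0 : 0 < v 0 := by simpa [v] using hinj g hg0
  have hv1 : 0 < v 1 := by simpa [v] using hinj _ hg
  have hconv : ∀ n, v (n + 1) * v (n + 1) ≤ v n * v (n + 2) := by
    intro n
    have h1 := hS ((S ^ n) g) ((S ^ (n + 1)) g)
    have e1 : S ((S ^ (n + 1)) g) = (S ^ (n + 2)) g := by
      rw [pow_succ' S (n + 1), ContinuousLinearMap.mul_apply]
    have e2 : S ((S ^ n) g) = (S ^ (n + 1)) g := by
      rw [pow_succ' S n, ContinuousLinearMap.mul_apply]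
    rw [e1, e2] at h1
    have h2 := norm_inner_le_norm (𝕜 := ℂ) (J ((S ^ n) g)) (J ((S ^ (n + 2)) g))
    rw [h1, inner_self_eq_norm_sq_to_K, norm_pow, RCLike.norm_ofReal, abs_norm, sq] at h2
    exact h2
  have hc : 0 < v 1 / v 0 := div_pos hv1 hv0
  have hstep : ∀ n, 0 < v n ∧ v 1 / v 0 * v n ≤ v (n + 1) := by
    intro n
    induction n with
    | zero => exact ⟨hv0, le_of_eq (by field_simp)⟩
    | succ n ih =>
      have h1 : 0 < v (n + 1) := lt_of_lt_of_le (mul_pos hc ih.1) ih.2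
      refine ⟨h1, le_of_mul_le_mul_left ?_ ih.1⟩
      have := mul_le_mul_of_nonneg_right ih.2 h1.le
      have := hconv n
      nlinarith
  have hpow : ∀ n, (v 1 / v 0) ^ n * v 0 ≤ v n := by
    intro n
    induction n with
    | zero => simp
    | succ n ih =>
      have := mul_le_mul_of_nonneg_left ih hc.le
      have := (hstep n).2
      rw [pow_succ]
      nlinarith
  have hup : ∀ n, v n ≤ ‖S ^ n‖ * (‖J‖ * ‖g‖) := fun n => by
    have h1 := J.le_opNorm ((S ^ n) g)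
    have h2 := mul_le_mul_of_nonneg_left ((S ^ n).le_opNorm g) (norm_nonneg J)
    calc v n ≤ ‖J‖ * (‖S ^ n‖ * ‖g‖) := h1.trans h2
      _ = _ := by ring
  have hpos : 0 < ‖J‖ * ‖g‖ := lt_of_lt_of_le (hinj g hg0) (J.le_opNorm g)
  refine ⟨v 0 / (‖J‖ * ‖g‖), v 1 / v 0, div_pos hv0 hpos, hc, fun n => ?_⟩
  rw [div_mul_eq_mul_div, div_le_iff₀ hpos, mul_comm]
  exact (hpow n).trans (hup n)

theorem exists_character {B : Type} [NormedCommRing B] [NormedAlgebra ℂ B] [CompleteSpace B]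
    (S : B) (κ c : ℝ) (hκ : 0 < κ) (hc : 0 < c) (h : ∀ n, κ * c ^ n ≤ ‖S ^ n‖) :
    ∃ φ : WeakDual.characterSpace ℂ B, φ S ≠ 0 := by
  by_contra hcon
  push Not at hcon
  have h0 : spectralRadius ℂ S = 0 := by
    simp only [spectralRadius, ENNReal.iSup_eq_zero]
    intro k hk
    obtain ⟨φ, hφ⟩ := WeakDual.CharacterSpace.mem_spectrum_iff_exists.1 hk
    rw [← hφ, hcon φ]
    simp
  have h1 := spectrum.pow_norm_pow_one_div_tendsto_nhds_spectralRadius S
  rw [h0] at h1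
  have h2 := h1.eventually (gt_mem_nhds (ENNReal.ofReal_pos.2 (half_pos hc)))
  have h3 := (tendsto_pow_atTop_nhds_zero_of_lt_one (r := (1 / 2 : ℝ)) (by norm_num)
    (by norm_num)).eventually (gt_mem_nhds hκ)
  obtain ⟨n, h4, h5, h6⟩ := (h2.and (h3.and (eventually_gt_atTop 0))).exists
  rw [ENNReal.ofReal_lt_ofReal_iff (half_pos hc)] at h4
  have h7 := pow_le_pow_left₀ (by positivity) h4.le n
  rw [one_div, Real.rpow_inv_natCast_pow (norm_nonneg _) h6.ne'] at h7
  have h8 : (c / 2) ^ n = (1 / 2) ^ n * c ^ n := by rw [← mul_pow]; congr 1; ring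
  have h9 := mul_lt_mul_of_pos_right h5 (pow_pos hc n)
  have := h n
  linarith

end Kol68.GChar19

namespace Kol68

open GChar19 MeasureTheory

theorem exists_char {A : Type} [CommGroup A] [TopologicalSpace A] [IsTopologicalGroup A]
    [CompactSpace A] [T2Space A] {a : A} (ha : a ≠ 1) :
    ∃ χ : A →* Circle, Continuous χ ∧ χ a ≠ 1 := by
  borelize A
  let μ : Measure A := Measure.haar
  obtain ⟨f0, hf1, hf2, -⟩ := exists_continuous_zero_one_of_isClosed (X := A)
    (s := {a}) (t := {1}) isClosed_singleton isClosed_singleton (by simpa using ha)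
  have hfa : f0 a = 0 := hf1 rfl
  have hfo : f0 1 = 1 := hf2 rfl
  let f : C(A, ℂ) := ⟨fun y => ((f0 y * f0 y⁻¹ : ℝ) : ℂ), by fun_prop⟩
  let h : C(A, ℂ) := f + f - U a⁻¹ f - U a f
  have hsym : ∀ y, h y⁻¹ = (starRingEnd ℂ) (h y) := by
    intro y
    simp only [h, f, ContinuousMap.sub_apply, ContinuousMap.add_apply, U_apply,
      ContinuousMap.coe_mk, map_sub, map_add, Complex.conj_ofReal, mul_inv, inv_inv]
    push_cast
    ring
  have hne : h ≠ 0 := by
    intro e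
    have := congrArg (fun g : C(A, ℂ) => g 1) e
    simp [h, f, U_apply, hfa, hfo] at this
  obtain ⟨κ, c, hκ, hc, hlow⟩ :=
    GChar19.pow_lower μ (T μ h) (inner_T μ h hsym) _ (GChar19.T_ne_zero μ h hne)
  let X : Set (C(A, ℂ) →L[ℂ] C(A, ℂ)) := Set.range U
  have hXX : X ⊆ X.centralizer := by
    rintro _ ⟨b, rfl⟩ _ ⟨b', rfl⟩
    rw [← U_mul, ← U_mul, mul_comm]
  let B : Subalgebra ℂ (C(A, ℂ) →L[ℂ] C(A, ℂ)) := Subalgebra.centralizer ℂ X.centralizer
  have hU : ∀ b : A, U b ∈ B := fun b => Set.subset_centralizer_centralizer ⟨b, rfl⟩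
  have hT : ∀ k, T μ k ∈ B := fun k W hW => T_comm μ W (fun b => hW _ ⟨b, rfl⟩) k
  letI : NormedCommRing B :=
    { (inferInstance : NormedRing B) with
      mul_comm := fun x y => Subtype.ext
        (y.2 x.1 (Set.centralizer_subset hXX x.2)) }
  haveI : CompleteSpace B := (Set.isClosed_centralizer X.centralizer).completeSpace_coe
  obtain ⟨φ, hφ⟩ := exists_character (B := B) ⟨T μ h, hT h⟩ κ c hκ hc hlow
  let u : A →* B :=
    { toFun := fun b => ⟨U b, hU b⟩
      map_one' := Subtype.ext U_one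
      map_mul' := fun b c => Subtype.ext (U_mul b c) }
  have hfac : (⟨T μ h, hT h⟩ : B) = (1 + 1 - u a - u a⁻¹) * ⟨T μ f, hT f⟩ := by
    apply Subtype.ext
    show T μ h = (1 + 1 - U a - U a⁻¹) * T μ f
    rw [sub_mul, sub_mul, add_mul, one_mul, U_mul_T, U_mul_T, inv_inv]
    simp only [h, map_sub, map_add]
  rw [hfac, map_mul] at hφ
  have hmul : ∀ b : A, φ (u b) * φ (u b⁻¹) = 1 := fun b => by
    rw [← map_mul, ← map_mul, mul_inv_cancel, map_one, map_one]
  have hle : ∀ b : A, ‖φ (u b)‖ ≤ 1 := fun b => by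
    have h1 := AlgHom.norm_apply_le_self_mul_norm_one φ (u b)
    have h2 : ‖u b‖ ≤ 1 := norm_U b
    have h3 : ‖(1 : B)‖ ≤ 1 := ContinuousLinearMap.norm_id_le
    exact h1.trans (mul_le_one₀ h2 (norm_nonneg _) h3)
  have hnorm : ∀ b : A, ‖φ (u b)‖ = 1 := fun b => by
    have h1 := congrArg norm (hmul b)
    rw [norm_mul, norm_one] at h1
    have := hle b
    have := hle b⁻¹
    have := norm_nonneg (φ (u b))
    nlinarith
  have hcont : Continuous fun b : A => φ (u b) := by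
    have e : (fun b : A => φ (u b)) =
        fun b => φ ⟨T μ (U b⁻¹ f), hT _⟩ / φ ⟨T μ f, hT f⟩ := by
      funext b
      rw [eq_div_iff (right_ne_zero_of_mul hφ), ← map_mul]
      congr 1
      exact Subtype.ext (U_mul_T μ b f)
    rw [e]
    exact ((map_continuous φ).comp (Continuous.subtype_mk
      ((T μ).continuous.comp ((continuous_U f).comp continuous_inv)) _)).div_const _
  refine ⟨{ toFun := fun b => ⟨φ (u b), mem_sphere_zero_iff_norm.2 (hnorm b)⟩
            map_one' := Circle.ext (by simp)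
            map_mul' := fun b c => Circle.ext (by simp) },
    Continuous.subtype_mk hcont _, fun e => ?_⟩
  have h1 : φ (u a) = 1 := congrArg (fun z : Circle => (z : ℂ)) e
  have h2 := hmul a
  rw [h1, one_mul] at h2
  refine left_ne_zero_of_mul hφ ?_
  rw [map_sub, map_sub, map_add, map_one, h1, h2]
  ring

end Kol68
end

-- merged part: Pool.Agent.Work.MP_c53807_ag.GEuc
section
/-!
The Euclidean topology.
-/

open MvPolynomial Topology

namespace Kol68

namespace EucAux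

variable {σ : Type}

/-- Projective space with the Euclidean topology. -/
def EPS (σ : Type) : Type := PS σ

noncomputable instance : TopologicalSpace (EPS σ) := euclid σ

/-- The quotient map from nonzero vectors. -/
noncomputable def mkE (v : {v : σ → ℂ // v ≠ 0}) : EPS σ := Projectivization.mk ℂ v.1 v.2

/-- The chosen vector over a point. -/
noncomputable def repE (x : EPS σ) : σ → ℂ := Projectivization.rep (K := ℂ) x

theorem repE_ne (x : EPS σ) : repE x ≠ 0 := Projectivization.rep_nonzero (K := ℂ) x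

theorem mkE_repE (x : EPS σ) : mkE ⟨repE x, repE_ne x⟩ = x :=
  Projectivization.mk_rep (K := ℂ) x

theorem surjective_mkE : Function.Surjective (mkE (σ := σ)) := fun x => ⟨_, mkE_repE x⟩

theorem mkE_eq_iff (v w : {v : σ → ℂ // v ≠ 0}) :
    mkE v = mkE w ↔ ∃ c : ℂ, c • w.1 = v.1 :=
  Projectivization.mk_eq_mk_iff' ℂ v.1 w.1 v.2 w.2

theorem repE_mkE (v : {v : σ → ℂ // v ≠ 0}) : ∃ c : ℂ, c ≠ 0 ∧ repE (mkE v) = c • v.1 := by
  obtain ⟨c, hc⟩ := (mkE_eq_iff ⟨repE (mkE v), repE_ne _⟩ v).1 (mkE_repE _)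
  refine ⟨c, ?_, hc.symm⟩
  rintro rfl
  exact repE_ne (mkE v) (by simpa using hc.symm)

theorem isQuotientMap_mkE : IsQuotientMap (mkE (σ := σ)) := ⟨⟨rfl⟩, surjective_mkE⟩

theorem continuous_mkE : Continuous (mkE (σ := σ)) := isQuotientMap_mkE.continuous

theorem isOpenMap_mkE : IsOpenMap (mkE (σ := σ)) := by
  intro O hO
  rw [← isQuotientMap_mkE.isOpen_preimage, isOpen_iff_mem_nhds]
  rintro v ⟨w, hw, e⟩
  obtain ⟨c, hc⟩ := (mkE_eq_iff w v).1 e
  have hc0 : c ≠ 0 := by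
    rintro rfl
    exact w.2 (by simpa using hc.symm)
  let s : {v : σ → ℂ // v ≠ 0} → {v : σ → ℂ // v ≠ 0} :=
    fun u => ⟨c • u.1, smul_ne_zero hc0 u.2⟩
  have hs : Continuous s := (continuous_subtype_val.const_smul c).subtype_mk _
  have hv : s v = w := Subtype.ext hc
  have : s ⁻¹' O ∈ 𝓝 v := hs.continuousAt.preimage_mem_nhds (hO.mem_nhds (hv ▸ hw))
  filter_upwards [this] with u hu
  exact ⟨s u, hu, (mkE_eq_iff _ _).2 ⟨c, rfl⟩⟩

theorem isOpenQuotientMap_mkE : IsOpenQuotientMap (mkE (σ := σ)) :=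
  ⟨surjective_mkE, continuous_mkE, isOpenMap_mkE⟩

theorem mkE_eq_iff_minor (v w : {v : σ → ℂ // v ≠ 0}) :
    mkE v = mkE w ↔ ∀ i j, v.1 i * w.1 j = v.1 j * w.1 i := by
  rw [mkE_eq_iff]
  constructor
  · rintro ⟨c, hc⟩ i j
    rw [← hc]
    simp only [Pi.smul_apply, smul_eq_mul]
    ring
  · intro h
    obtain ⟨j, hj⟩ := Function.ne_iff.1 w.2
    have hj' : w.1 j ≠ 0 := hj
    refine ⟨v.1 j / w.1 j, funext fun i => ?_⟩
    simp only [Pi.smul_apply, smul_eq_mul]
    rw [div_mul_eq_mul_div, ← h i j, mul_div_assoc, div_self hj', mul_one]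

instance : T2Space (EPS σ) := by
  rw [t2Space_iff_of_isOpenQuotientMap isOpenQuotientMap_mkE]
  have : {q : {v : σ → ℂ // v ≠ 0} × {v : σ → ℂ // v ≠ 0} | mkE q.1 = mkE q.2} =
      ⋂ i, ⋂ j, {q | q.1.1 i * q.2.1 j = q.1.1 j * q.2.1 i} := by
    ext q
    simp only [Set.mem_ofPred_eq, Set.mem_iInter, mkE_eq_iff_minor]
  rw [this]
  have h1 : ∀ i : σ, Continuous fun v : {v : σ → ℂ // v ≠ 0} => v.1 i :=
    fun i => (continuous_apply i).comp continuous_subtype_val
  exact isClosed_iInter fun i => isClosed_iInter fun j => isClosed_eq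
    (((h1 i).comp continuous_fst).mul ((h1 j).comp continuous_snd))
    (((h1 j).comp continuous_fst).mul ((h1 i).comp continuous_snd))

instance [Finite σ] : CompactSpace (EPS σ) := by
  have := Fintype.ofFinite σ
  let q : Metric.sphere (0 : σ → ℂ) 1 → EPS σ :=
    fun v => mkE ⟨v.1, ne_zero_of_mem_unit_sphere v⟩
  have hq : Continuous q := continuous_mkE.comp (continuous_subtype_val.subtype_mk _)
  have hs : Function.Surjective q := by
    intro x
    have h0 : ‖repE x‖ ≠ 0 := norm_ne_zero_iff.2 (repE_ne x)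
    refine ⟨⟨((‖repE x‖⁻¹ : ℝ) : ℂ) • repE x, ?_⟩, ?_⟩
    · rw [mem_sphere_zero_iff_norm, norm_smul, Complex.norm_real, norm_inv, norm_norm,
        inv_mul_cancel₀ h0]
    · exact Eq.trans ((mkE_eq_iff _ _).2 ⟨_, rfl⟩) (mkE_repE x)
  exact ⟨by rw [← hs.range_eq]; exact isCompact_range hq⟩

instance [Finite σ] : SecondCountableTopology (EPS σ) :=
  have : SecondCountableTopology {v : σ → ℂ // v ≠ 0} :=
    IsEmbedding.subtypeVal.secondCountableTopology
  isQuotientMap_mkE.secondCountableTopology isOpenMap_mkE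

/-- The identity map to the Zariski topology. -/
def toZ (x : EPS σ) : PS σ := x

theorem continuous_toZ : Continuous (toZ (σ := σ)) := by
  rw [continuous_iff_isClosed]
  intro Z hZ
  obtain ⟨S, hS, rfl⟩ := isClosed_ps_iff_hom.1 hZ
  rw [← isQuotientMap_mkE.isClosed_preimage]
  have : mkE ⁻¹' (toZ ⁻¹' {x : PS σ | ∀ p ∈ S, eval x.rep p = 0}) =
      ⋂ p ∈ S, {v | eval v.1 p = 0} := by
    ext v
    obtain ⟨c, hc, e⟩ := repE_mkE v
    have e' : (toZ (mkE v)).rep = c • v.1 := e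
    simp only [Set.mem_preimage, Set.mem_ofPred_eq, Set.mem_iInter, e']
    refine forall₂_congr fun p hp => ?_
    obtain ⟨n, hn⟩ := hS p hp
    rw [eval_smul_hom hn, mul_eq_zero, or_iff_right (pow_ne_zero n hc)]
  rw [this]
  exact isClosed_biInter fun p _ =>
    isClosed_eq ((MvPolynomial.continuous_eval p).comp continuous_subtype_val) continuous_const

/-- Continuous local sections of the quotient map. -/
theorem exists_sectionE (x₀ : EPS σ) : ∃ s : EPS σ → σ → ℂ, ContinuousAt s x₀ ∧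
    (∃ c : ℂ, c ≠ 0 ∧ s x₀ = c • repE x₀) ∧
    ∀ᶠ x in 𝓝 x₀, ∃ c : ℂ, c ≠ 0 ∧ s x = c • repE x := by
  obtain ⟨i, hi⟩ := Function.ne_iff.1 (repE_ne x₀)
  have hi' : repE x₀ i ≠ 0 := hi
  let s : EPS σ → σ → ℂ := fun x => (repE x i)⁻¹ • repE x
  have hs : s ∘ mkE = fun v => (v.1 i)⁻¹ • v.1 := by
    funext v
    obtain ⟨c, hc, e⟩ := repE_mkE v
    simp only [s, Function.comp_apply, e, Pi.smul_apply, smul_eq_mul, smul_smul, mul_inv_rev]
    rw [mul_assoc, inv_mul_cancel₀ hc, mul_one]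
  have hc : ContinuousAt s x₀ := by
    rw [← mkE_repE x₀, ← isOpenQuotientMap_mkE.continuousAt_comp_iff, hs]
    have h1 : Continuous fun v : {v : σ → ℂ // v ≠ 0} => v.1 i :=
      (continuous_apply i).comp continuous_subtype_val
    have h2 : ContinuousAt (fun v : {v : σ → ℂ // v ≠ 0} => (v.1 i)⁻¹) ⟨repE x₀, repE_ne x₀⟩ :=
      h1.continuousAt.inv₀ hi'
    exact h2.smul continuous_subtype_val.continuousAt
  refine ⟨s, hc, ⟨_, inv_ne_zero hi', rfl⟩, ?_⟩
  have h1 : ContinuousAt (fun x => s x i) x₀ := (continuous_apply i).continuousAt.comp hc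
  have h2 : s x₀ i ≠ 0 := by
    simp only [s, Pi.smul_apply, smul_eq_mul]
    exact mul_ne_zero (inv_ne_zero hi') hi'
  filter_upwards [h1.eventually_ne h2] with x hx
  refine ⟨_, ?_, rfl⟩
  intro h
  exact hx (by simp only [s, Pi.smul_apply, smul_eq_mul, h, zero_mul])

variable {V W U : Type} [TopologicalSpace V] [QP V] [TopologicalSpace W] [QP W]
  [TopologicalSpace U] [QP U]

/-- The embedding in projective space. -/
noncomputable def ιE (v : Euc V) : EPS (QP.σ V) := QP.ι (V := V) v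

theorem isEmbedding_ιE : IsEmbedding (ιE (V := V)) := ⟨⟨rfl⟩, (QP.emb (V := V)).injective⟩

/-- The identity map to the Zariski topology. -/
def toV (v : Euc V) : V := v

theorem continuous_toV : Continuous (toV (V := V)) :=
  QP.emb.isInducing.continuous_iff.2 (continuous_toZ.comp isEmbedding_ιE.continuous)

theorem exists_section (v₀ : Euc V) : ∃ s : Euc V → QP.σ V → ℂ, ContinuousAt s v₀ ∧
    (∃ c : ℂ, c ≠ 0 ∧ s v₀ = c • rp (toV v₀)) ∧
    ∀ᶠ v in 𝓝 v₀, ∃ c : ℂ, c ≠ 0 ∧ s v = c • rp (toV v) := by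
  obtain ⟨s, h1, h2, h3⟩ := exists_sectionE (ιE v₀)
  exact ⟨s ∘ ιE, h1.comp isEmbedding_ιE.continuous.continuousAt, h2,
    isEmbedding_ιE.continuous.continuousAt.eventually h3⟩

theorem freg_continuousOn {ρ : Type} {A : Set (ρ → ℂ)} {f : (ρ → ℂ) → ℂ} (h : FReg A f) :
    ContinuousOn f A := by
  intro y₀ hy
  obtain ⟨a, b, hb, e⟩ := h y₀ hy
  have h1 : ContinuousAt (fun y : ρ → ℂ => eval y a / eval y b) y₀ :=
    (MvPolynomial.continuous_eval a).continuousAt.div
      (MvPolynomial.continuous_eval b).continuousAt hb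
  have h2 : ∀ᶠ y in 𝓝 y₀, eval y b ≠ 0 :=
    (MvPolynomial.continuous_eval b).continuousAt.eventually_ne hb
  refine h1.continuousWithinAt.congr_of_eventuallyEq ?_ ?_
  · filter_upwards [self_mem_nhdsWithin, mem_nhdsWithin_of_mem_nhds h2] with y hy hy'
    rw [eq_div_iff hy', mul_comm, e y hy]
  · rw [eq_div_iff hb, mul_comm, e y₀ hy]

theorem reg_continuousOn {ρ : Type} {A : Set (ρ → ℂ)} {φ : (ρ → ℂ) → V} (h : Reg A φ) :
    @ContinuousOn (ρ → ℂ) (Euc V) _ _ φ A := by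
  intro y₀ hy
  obtain ⟨F, p, hp, e⟩ := h.lift hy
  have hne : ∀ y : bas A p, evv y.1 F ≠ 0 := by
    intro y
    obtain ⟨c, hc, e'⟩ := e y.1 y.2
    rw [e']
    exact smul_ne_zero hc (rp_ne_zero _)
  have h1 : @ContinuousOn (ρ → ℂ) (Euc V) _ _ φ (bas A p) := by
    rw [continuousOn_iff_continuous_domRestrict, isEmbedding_ιE.isInducing.continuous_iff]
    have h2 : Continuous fun y : bas A p => mkE ⟨evv y.1 F, hne y⟩ := by
      refine continuous_mkE.comp (Continuous.subtype_mk ?_ _)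
      exact continuous_pi fun i =>
        (MvPolynomial.continuous_eval (F i)).comp continuous_subtype_val
    refine h2.congr fun y => ?_
    obtain ⟨c, hc, e'⟩ := e y.1 y.2
    refine Eq.trans ?_ (mkE_repE _)
    exact (mkE_eq_iff _ _).2 ⟨c, e'.symm⟩
  refine (h1 y₀ ⟨hy, hp⟩).mono_of_mem_nhdsWithin ?_
  have h2 : ∀ᶠ y in 𝓝 y₀, eval y p ≠ 0 :=
    (MvPolynomial.continuous_eval p).continuousAt.eventually_ne hp
  filter_upwards [self_mem_nhdsWithin, mem_nhdsWithin_of_mem_nhds h2] with y hy hy'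
  exact ⟨hy, hy'⟩

theorem continuousOn_of_taut [Nonempty V] {T : Type} [TopologicalSpace T] {Y : Set V}
    {g : V → T} (h : ContinuousOn (fun y => g (taut V y)) (cone Y)) :
    @ContinuousOn (Euc V) T _ _ g Y := by
  intro v₀ hv
  obtain ⟨s, h1, ⟨c₀, hc₀, e₀⟩, h3⟩ := exists_section (V := V) v₀
  have hm : s v₀ ∈ cone Y := e₀ ▸ smul_mem_cone (V := V) hv hc₀
  have ht : Filter.Tendsto s (@nhdsWithin (Euc V) _ v₀ Y) (𝓝[cone Y] (s v₀)) := by
    refine tendsto_nhdsWithin_iff.2 ⟨h1.tendsto.mono_left nhdsWithin_le_nhds, ?_⟩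
    filter_upwards [self_mem_nhdsWithin, mem_nhdsWithin_of_mem_nhds h3] with v hv ⟨c, hc, e⟩
    exact e ▸ smul_mem_cone (V := V) hv hc
  have h4 := (h _ hm).tendsto.comp ht
  have e1 : taut V (s v₀) = v₀ := by rw [e₀]; exact taut_smul _ hc₀
  simp only [e1] at h4
  refine h4.congr' ?_
  filter_upwards [mem_nhdsWithin_of_mem_nhds h3] with v ⟨c, hc, e⟩
  simp only [Function.comp_apply, e]
  exact congrArg g (taut_smul _ hc)

theorem continuous_of_taut₂ [Nonempty V] [Nonempty W] {T : Type} [TopologicalSpace T]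
    {g : V → W → T}
    (h : ContinuousOn (fun z => g (taut V (z ∘ Sum.inl)) (taut W (z ∘ Sum.inr)))
      (aprod (cone (Set.univ : Set V)) (cone (Set.univ : Set W)))) :
    @Continuous (Euc V × Euc W) T _ _ fun p => g p.1 p.2 := by
  rw [continuous_iff_continuousAt]
  rintro ⟨v₀, w₀⟩
  obtain ⟨s, h1, ⟨c₀, hc₀, e₀⟩, h3⟩ := exists_section (V := V) v₀
  obtain ⟨s', h1', ⟨c₀', hc₀', e₀'⟩, h3'⟩ := exists_section (V := W) w₀
  let S : Euc V × Euc W → QP.σ V ⊕ QP.σ W → ℂ := fun p => Sum.elim (s p.1) (s' p.2)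
  have hS : ContinuousAt S (v₀, w₀) := by
    refine continuousAt_pi.2 ?_
    rintro (i | i)
    · exact ((continuous_apply i).continuousAt.comp h1).comp_of_eq continuousAt_fst rfl
    · exact ((continuous_apply i).continuousAt.comp h1').comp_of_eq continuousAt_snd rfl
  have hev : ∀ᶠ p in 𝓝 ((v₀, w₀) : Euc V × Euc W),
      (∃ c : ℂ, c ≠ 0 ∧ s p.1 = c • rp (toV p.1)) ∧
        ∃ c : ℂ, c ≠ 0 ∧ s' p.2 = c • rp (toV p.2) :=
    ((continuousAt_fst (p := (v₀, w₀))).eventually h3).and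
      ((continuousAt_snd (p := (v₀, w₀))).eventually h3')
  have hm : S (v₀, w₀) ∈ aprod (cone (Set.univ : Set V)) (cone (Set.univ : Set W)) :=
    elim_mem_aprod.2 ⟨e₀ ▸ smul_mem_cone (Set.mem_univ _) hc₀,
      e₀' ▸ smul_mem_cone (Set.mem_univ _) hc₀'⟩
  have ht : Filter.Tendsto S (𝓝 (v₀, w₀))
      (𝓝[aprod (cone (Set.univ : Set V)) (cone (Set.univ : Set W))] (S (v₀, w₀))) := by
    refine tendsto_nhdsWithin_iff.2 ⟨hS.tendsto, ?_⟩
    filter_upwards [hev] with p ⟨⟨c, hc, e⟩, ⟨c', hc', e'⟩⟩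
    exact elim_mem_aprod.2 ⟨e ▸ smul_mem_cone (Set.mem_univ _) hc,
      e' ▸ smul_mem_cone (Set.mem_univ _) hc'⟩
  have h4 := (h _ hm).tendsto.comp ht
  have e1 : taut V (S (v₀, w₀) ∘ Sum.inl) = v₀ := by
    change taut V (s v₀) = v₀
    rw [e₀]; exact taut_smul _ hc₀
  have e2 : taut W (S (v₀, w₀) ∘ Sum.inr) = w₀ := by
    change taut W (s' w₀) = w₀
    rw [e₀']; exact taut_smul _ hc₀'
  simp only [e1, e2] at h4
  refine h4.congr' ?_
  filter_upwards [hev] with p ⟨⟨c, hc, e⟩, ⟨c', hc', e'⟩⟩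
  change g (taut V (s p.1)) (taut W (s' p.2)) = g p.1 p.2
  rw [e, e', taut_smul _ hc, taut_smul _ hc']
  rfl

end EucAux

open EucAux

variable {V W U : Type} [TopologicalSpace V] [QP V] [TopologicalSpace W] [QP W]
  [TopologicalSpace U] [QP U]

instance Euc.t2Space : T2Space (Euc V) := isEmbedding_ιE.t2Space

instance Euc.locallyCompactSpace : LocallyCompactSpace (Euc V) :=
  isEmbedding_ιE.isInducing.locallyCompactSpace ((QP.lc (V := V)).preimage continuous_toZ)

instance Euc.secondCountableTopology : SecondCountableTopology (Euc V) :=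
  isEmbedding_ιE.secondCountableTopology

instance Euc.sigmaCompactSpace : SigmaCompactSpace (Euc V) :=
  sigmaCompactSpace_of_locallyCompact_secondCountable

theorem isClosed_euc {Y : Set V} (h : IsClosed Y) : @IsClosed (Euc V) _ Y :=
  h.preimage continuous_toV

theorem isCompact_euc {Y : Set V} (h : IsClosed (QP.ι '' Y)) : @IsCompact (Euc V) _ Y :=
  isEmbedding_ιE.isCompact_iff.2 (h.preimage continuous_toZ).isCompact

theorem Mor.continuous_euc {f : V → W} (h : Mor f) : @Continuous (Euc V) (Euc W) _ _ f := by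
  rcases isEmpty_or_nonempty V with hV | hV
  · have : IsEmpty (Euc V) := hV
    exact continuous_of_discreteTopology
  · exact continuousOn_univ.1 (continuousOn_of_taut (T := Euc W)
      (reg_continuousOn (h _ _ _ (reg_taut Set.univ))))

theorem Mor₂.continuous_euc {m : V → W → U} (h : Mor₂ m) :
    @Continuous (Euc V × Euc W) (Euc U) _ _ fun p => m p.1 p.2 := by
  rcases isEmpty_or_nonempty V with hV | hV
  · have : IsEmpty (Euc V) := hV
    exact continuous_of_discreteTopology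
  rcases isEmpty_or_nonempty W with hW | hW
  · have : IsEmpty (Euc W) := hW
    exact continuous_of_discreteTopology
  refine continuous_of_taut₂ (T := Euc U) (reg_continuousOn (h _ _ _ _ ?_ ?_))
  · exact (reg_taut Set.univ).comp (amor_comp _ Sum.inl) fun _ hz => hz.1
  · exact (reg_taut Set.univ).comp (amor_comp _ Sum.inr) fun _ hz => hz.2

/-- Regular maps are continuous for the Euclidean topologies. -/
theorem Reg.continuousOn_euc {ρ : Type} {A : Set (ρ → ℂ)} {φ : (ρ → ℂ) → V} (h : Reg A φ) :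
    @ContinuousOn (ρ → ℂ) (Euc V) _ _ φ A := reg_continuousOn h

/-- Regular functions are continuous for the Euclidean topology. -/
theorem FMorOn.continuousOn_euc {Y : Set V} {u : V → ℂ} (h : FMorOn Y u) :
    @ContinuousOn (Euc V) ℂ _ _ u Y := by
  rcases isEmpty_or_nonempty V with hV | hV
  · exact fun v _ => hV.elim v
  · exact continuousOn_of_taut (freg_continuousOn (h _ _ _ (reg_taut Y) fun _ hy => taut_mem hy))

instance Euc.isTopologicalGroup {G : Type} [Group G] [TopologicalSpace G] [AG G] :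
    IsTopologicalGroup (Euc G) where
  continuous_mul := (AG.mul_mor (G := G)).continuous_euc
  continuous_inv := (AG.inv_mor (G := G)).continuous_euc

end Kol68
end

-- merged part: Pool.Agent.Work.MP_c53807_ag.GLPC
section
/-!
An irreducible variety is locally path connected at some point.
-/

open MvPolynomial Topology

namespace Kol68

namespace LPC

open Filter

/-- A primitive element of a finite extension of domains. -/
theorem prim (B R : Type) [CommRing B] [IsDomain B] [IsIntegrallyClosed B] [CharZero B]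
    [CommRing R] [IsDomain R] [Algebra B R] [FaithfulSMul B R] [Module.Finite B R] :
    ∃ (s : R) (μ : Polynomial B), Polynomial.aeval s μ = 0 ∧
      Polynomial.aeval s (Polynomial.derivative μ) ≠ 0 ∧
      (∀ F : Polynomial B, Polynomial.aeval s F = 0 → μ ∣ F) ∧
      ∀ x : R, ∃ D : B, D ≠ 0 ∧ ∃ p : Polynomial B, algebraMap B R D * x = Polynomial.aeval s p := by
  let K := FractionRing B
  let L := FractionRing R
  letI : Algebra K L := FractionRing.liftAlgebra B L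
  haveI : FiniteDimensional K L := inferInstance
  obtain ⟨α, hα⟩ := Field.exists_primitive_element K L
  obtain ⟨⟨s, ⟨_, b, hb, rfl⟩⟩, hs⟩ :=
    IsLocalization.surj (Algebra.algebraMapSubmonoid R (nonZeroDivisors B)) α
  have hi : IsIntegral B s := Algebra.IsIntegral.isIntegral s
  refine ⟨s, minpoly B s, minpoly.aeval B s, fun h => ?_,
    fun F => minpoly.isIntegrallyClosed_dvd hi, fun x => ?_⟩
  · have h1 := minpoly.natDegree_pos hi
    have h2 := Polynomial.eq_zero_of_dvd_of_natDegree_lt (minpoly.isIntegrallyClosed_dvd hi h)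
      (Polynomial.natDegree_derivative_lt h1.ne')
    exact h1.ne' (Polynomial.natDegree_eq_zero_of_derivative_eq_zero h2)
  · have h1 : α ∈ Algebra.adjoin K {algebraMap R L s} := by
      have h0 : algebraMap B K b ≠ 0 :=
        IsFractionRing.to_map_ne_zero_of_mem_nonZeroDivisors hb
      have h2 : α = (algebraMap B K b)⁻¹ • algebraMap R L s := by
        rw [eq_inv_smul_iff₀ h0, algebraMap_smul, Algebra.smul_def, mul_comm,
          IsScalarTower.algebraMap_apply B R L]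
        exact hs
      rw [h2]
      exact Subalgebra.smul_mem _ (Algebra.self_mem_adjoin_singleton K _) _
    have h2 : algebraMap R L x ∈ Algebra.adjoin K {α} := by
      rw [← IntermediateField.adjoin_simple_toSubalgebra_of_isAlgebraic
        (Algebra.IsAlgebraic.isAlgebraic α), hα]
      trivial
    obtain ⟨D, hD⟩ := multiple_mem_adjoin_of_mem_localization_adjoin (nonZeroDivisors B) K
      {algebraMap R L s} _ (Algebra.adjoin_le (Set.singleton_subset_iff.2 h1) h2)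
    rw [Algebra.adjoin_singleton_eq_range_aeval] at hD
    obtain ⟨p, hp⟩ := hD
    refine ⟨D, nonZeroDivisors.coe_ne_zero D, p, IsFractionRing.injective R L ?_⟩
    rw [← Polynomial.aeval_algebraMap_apply, map_mul, ← IsScalarTower.algebraMap_apply,
      ← Algebra.smul_def]
    exact hp.symm

variable {σ κ : Type}

/-- Evaluation of a polynomial with polynomial coefficients. -/
noncomputable def ev (G : Polynomial (MvPolynomial κ ℂ)) (v : (κ → ℂ) × ℂ) : ℂ :=
  G.eval₂ (eval v.1) v.2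

/-- The parameters of a point. -/
noncomputable def par (τ : κ → MvPolynomial σ ℂ) (s : MvPolynomial σ ℂ) (y : σ → ℂ) :
    (κ → ℂ) × ℂ := (evv y τ, eval y s)

theorem alg [Finite σ] {A : Set (σ → ℂ)} (hI : AIrr A) :
    ∃ (d : ℕ) (μ : Polynomial (MvPolynomial (Fin d) ℂ)) (D : σ → MvPolynomial (Fin d) ℂ)
      (p : σ → Polynomial (MvPolynomial (Fin d) ℂ)) (τ : Fin d → MvPolynomial σ ℂ)
      (s : MvPolynomial σ ℂ),
      (∀ y ∈ A, ev μ (par τ s y) = 0 ∧
        ∀ i, eval (par τ s y).1 (D i) * y i = ev (p i) (par τ s y)) ∧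
      (∀ v, ev μ v = 0 → (∀ i, eval v.1 (D i) ≠ 0) → ∀ f, (∀ z ∈ A, eval z f = 0) →
        eval (fun i => ev (p i) v / eval v.1 (D i)) f = 0) ∧
      ∀ q, (∃ y ∈ A, eval y q ≠ 0) → ∃ y ∈ A, eval y q ≠ 0 ∧
        ev (Polynomial.derivative μ) (par τ s y) ≠ 0 ∧ ∀ i, eval (par τ s y).1 (D i) ≠ 0 := by
  classical
  haveI := Fintype.ofFinite σ
  haveI := hI.isPrime
  have hP : ∀ f, Ideal.Quotient.mk (vanishingIdeal ℂ A) f = 0 ↔ ∀ y ∈ A, eval y f = 0 := fun f => by
    rw [Ideal.Quotient.eq_zero_iff_mem, mem_vanishingIdeal_iff]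
    rfl
  obtain ⟨d, g, hg, hf⟩ :=
    exists_finite_inj_algHom_of_fg ℂ (MvPolynomial σ ℂ ⧸ vanishingIdeal ℂ A)
  letI := g.toRingHom.toAlgebra
  haveI : Module.Finite (MvPolynomial (Fin d) ℂ) (MvPolynomial σ ℂ ⧸ vanishingIdeal ℂ A) := hf
  haveI : FaithfulSMul (MvPolynomial (Fin d) ℂ) (MvPolynomial σ ℂ ⧸ vanishingIdeal ℂ A) :=
    (faithfulSMul_iff_algebraMap_injective _ _).2 hg
  obtain ⟨s, μ, h1, h2, h3, h4⟩ :=
    prim (MvPolynomial (Fin d) ℂ) (MvPolynomial σ ℂ ⧸ vanishingIdeal ℂ A)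
  choose D hD p hp using fun i => h4 (Ideal.Quotient.mk _ (X i))
  choose τ hτ using fun k => Ideal.Quotient.mk_surjective (g (X k))
  obtain ⟨s, rfl⟩ := Ideal.Quotient.mk_surjective s
  have hC : ∀ a : ℂ, algebraMap (MvPolynomial (Fin d) ℂ) _ (C a) =
      Ideal.Quotient.mk (vanishingIdeal ℂ A) (C a) := fun a => g.commutes a
  have key : ∀ y ∈ A, ∃ e : (MvPolynomial σ ℂ ⧸ vanishingIdeal ℂ A) →+* ℂ,
      (∀ f, e (Ideal.Quotient.mk _ f) = eval y f) ∧
      (∀ b, e (algebraMap (MvPolynomial (Fin d) ℂ) _ b) = eval (par τ s y).1 b) ∧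
      ∀ G, e (Polynomial.aeval (Ideal.Quotient.mk _ s) G) = ev G (par τ s y) := fun y hy => by
    let e : (MvPolynomial σ ℂ ⧸ vanishingIdeal ℂ A) →+* ℂ := Ideal.Quotient.lift _ (eval y)
      fun f hf => (hP f).1 (Ideal.Quotient.eq_zero_iff_mem.2 hf) y hy
    have e1 : ∀ f, e (Ideal.Quotient.mk _ f) = eval y f := fun f => rfl
    have e2 : e.comp (algebraMap (MvPolynomial (Fin d) ℂ) _) = eval (par τ s y).1 := by
      refine ringHom_ext (fun a => ?_) fun k => ?_
      · rw [RingHom.comp_apply, hC, e1, eval_C, eval_C]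
      · rw [RingHom.comp_apply, eval_X]
        exact (congrArg e (hτ k).symm).trans (e1 _)
    refine ⟨e, e1, fun b => RingHom.congr_fun e2 b, fun G => ?_⟩
    rw [Polynomial.aeval_def, Polynomial.hom_eval₂, e2, e1]
    rfl
  refine ⟨d, μ, D, p, τ, s, fun y hy => ?_, fun v hv hv' f hf => ?_, fun q ⟨y, hy, hq⟩ => ?_⟩
  · obtain ⟨e, e1, e2, e3⟩ := key y hy
    refine ⟨by rw [← e3, h1, map_zero], fun i => ?_⟩
    rw [← e3, ← hp, map_mul, e2, e1, eval_X]
  · have ind : ∀ f, ∃ (b : MvPolynomial (Fin d) ℂ) (F : Polynomial (MvPolynomial (Fin d) ℂ)),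
        eval v.1 b ≠ 0 ∧ algebraMap _ _ b * Ideal.Quotient.mk (vanishingIdeal ℂ A) f =
          Polynomial.aeval (Ideal.Quotient.mk (vanishingIdeal ℂ A) s) F ∧
        eval v.1 b * eval (fun i => ev (p i) v / eval v.1 (D i)) f = ev F v := fun f => by
      induction f using MvPolynomial.induction_on with
      | C a => exact ⟨1, Polynomial.C (C a), by simp, by simp [hC], by simp [ev]⟩
      | add f f' h h' =>
        obtain ⟨b, F, a1, a2, a3⟩ := h
        obtain ⟨b', F', b1, b2, b3⟩ := h'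
        refine ⟨b * b', Polynomial.C b' * F + Polynomial.C b * F', by simp [a1, b1], ?_, ?_⟩
        · simp only [map_add, map_mul, Polynomial.aeval_C, ← a2, ← b2]; ring
        · simp only [ev] at a3 b3 ⊢
          simp only [map_add, map_mul, Polynomial.eval₂_add, Polynomial.eval₂_mul,
            Polynomial.eval₂_C, ← a3, ← b3]
          ring
      | mul_X f i h =>
        obtain ⟨b, F, a1, a2, a3⟩ := h
        refine ⟨b * D i, F * p i, by simp [a1, hv' i], ?_, ?_⟩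
        · simp only [map_mul, ← a2, ← hp]; ring
        · have := hv' i
          simp only [ev] at a3 ⊢
          simp only [map_mul, Polynomial.eval₂_mul, eval_X, ← a3]
          field_simp
    obtain ⟨b, F, a1, a2, a3⟩ := ind f
    rw [(hP f).2 hf, mul_zero] at a2
    obtain ⟨F', rfl⟩ := h3 F a2.symm
    have : ev (μ * F') v = ev μ v * ev F' v := Polynomial.eval₂_mul _ _
    rw [this, hv, zero_mul] at a3
    exact (mul_eq_zero.1 a3).resolve_left a1
  · have a1 : Ideal.Quotient.mk (vanishingIdeal ℂ A) q *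
        Polynomial.aeval (Ideal.Quotient.mk (vanishingIdeal ℂ A) s) (Polynomial.derivative μ) *
        ∏ i, algebraMap (MvPolynomial (Fin d) ℂ) _ (D i) ≠ 0 :=
      mul_ne_zero (mul_ne_zero (fun h => hq ((hP q).1 h y hy)) h2)
        (Finset.prod_ne_zero_iff.2 fun i _ h => hD i (hg (h.trans (map_zero g).symm)))
    obtain ⟨r, hr⟩ := Ideal.Quotient.mk_surjective (Ideal.Quotient.mk (vanishingIdeal ℂ A) q *
        Polynomial.aeval (Ideal.Quotient.mk (vanishingIdeal ℂ A) s) (Polynomial.derivative μ) *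
        ∏ i, algebraMap (MvPolynomial (Fin d) ℂ) _ (D i))
    rw [← hr, Ne, hP] at a1
    push Not at a1
    obtain ⟨z, hz, a2⟩ := a1
    obtain ⟨e, e1, e2, e3⟩ := key z hz
    rw [← e1, hr, map_mul, map_mul, map_prod, e1, e3] at a2
    simp only [e2] at a2
    exact ⟨z, hz, left_ne_zero_of_mul (left_ne_zero_of_mul a2),
      right_ne_zero_of_mul (left_ne_zero_of_mul a2),
      fun i => Finset.prod_ne_zero_iff.1 (right_ne_zero_of_mul a2) i (Finset.mem_univ i)⟩

variable [Fintype κ]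

theorem analyticAt_ev (G : Polynomial (MvPolynomial κ ℂ)) (v : (κ → ℂ) × ℂ) :
    AnalyticAt ℂ (ev G) v := by
  induction G using Polynomial.induction_on' with
  | add p q hp hq =>
    have : ev (p + q) = ev p + ev q := funext fun _ => Polynomial.eval₂_add _ _
    rw [this]; exact hp.add hq
  | monomial n a =>
    have : ev (Polynomial.monomial n a) = fun v : (κ → ℂ) × ℂ => eval v.1 a * v.2 ^ n :=
      funext fun _ => Polynomial.eval₂_monomial _ _
    rw [this]
    exact ((AnalyticOnNhd.eval_mvPolynomial a v.1 (Set.mem_univ _)).comp analyticAt_fst).mul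
      (analyticAt_snd.pow n)

theorem continuous_ev (G : Polynomial (MvPolynomial κ ℂ)) : Continuous (ev G) :=
  continuous_iff_continuousAt.2 fun v => (analyticAt_ev G v).continuousAt

theorem implicit (G : Polynomial (MvPolynomial κ ℂ)) {u : (κ → ℂ) × ℂ}
    (h : ev (Polynomial.derivative G) u ≠ 0) :
    ∃ ψ : (κ → ℂ) → ℂ, (∃ N ∈ 𝓝 u.1, ContinuousOn ψ N) ∧
      (∀ᶠ t in 𝓝 u.1, ev G (t, ψ t) = ev G u) ∧ ∀ᶠ v in 𝓝 u, ev G v = ev G u → ψ v.1 = v.2 := by
  have h1 := (analyticAt_ev G u).hasStrictFDerivAt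
  have h2 : HasDerivAt (fun z => ev G (u.1, z)) (ev (Polynomial.derivative G) u) u.2 := by
    simpa only [ev, Polynomial.eval₂_eq_eval_map, Polynomial.derivative_map] using
      (G.map (eval u.1)).hasDerivAt u.2
  have h3 := (HasFDerivAt.comp (f := fun z => (u.1, z)) u.2 h1.hasFDerivAt
    (hasFDerivAt_prodMk_right u.1 u.2)).unique h2.hasFDerivAt
  have h4 : (fderiv ℂ (ev G) u ∘L ContinuousLinearMap.inr ℂ (κ → ℂ) ℂ).IsInvertible :=
    ⟨ContinuousLinearEquiv.unitsEquivAut ℂ (Units.mk0 _ h), by rw [h3]; ext; simp⟩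
  obtain ⟨K, N, hN, hK⟩ :=
    (h1.hasStrictFDerivAt_implicitFunctionOfProdDomain h4).exists_lipschitzOnWith
  exact ⟨_, ⟨N, hN, hK.continuousOn⟩, h1.eventually_apply_implicitFunctionOfProdDomain h4,
    (h1.eventually_apply_eq_iff_implicitFunctionOfProdDomain h4).mono fun v hv => hv.1⟩

theorem affine [Finite σ] {A : Set (σ → ℂ)} (hA : ALC A) (hI : AIrr A) :
    ∃ y₀ ∈ A, ∀ U ∈ 𝓝[A] y₀, ∃ W ∈ 𝓝[A] y₀, W ⊆ A ∩ U ∧ IsPathConnected W := by
  obtain ⟨d, μ, D, p, τ, s, h1, h2, h3⟩ := alg hI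
  obtain ⟨y₁, hy₁⟩ := hI.1
  obtain ⟨q, q1, q2⟩ := hA.exists_bas hy₁
  obtain ⟨y₀, hy₀, a1, a2, a3⟩ := h3 q ⟨y₁, hy₁, q1⟩
  obtain ⟨ψ, ⟨N, hN, c1⟩, c2, c3⟩ := implicit μ a2
  rw [(h1 y₀ hy₀).1] at c2 c3
  have cp : Continuous (par τ s) :=
    (continuous_pi fun k => continuous_eval (τ k)).prodMk (continuous_eval s)
  have hD : ∀ᶠ t in 𝓝 (par τ s y₀).1, ∀ i, eval t (D i) ≠ 0 :=
    eventually_all.2 fun i => (continuous_eval (D i)).continuousAt.eventually_ne (a3 i)
  let θ : (Fin d → ℂ) → σ → ℂ := fun t i => ev (p i) (t, ψ t) / eval t (D i)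
  have cθ : ContinuousOn θ (N ∩ {t | ∀ i, eval t (D i) ≠ 0}) :=
    continuousOn_pi.2 fun i => ((continuous_ev (p i)).comp_continuousOn
      (continuousOn_id.prodMk (c1.mono Set.inter_subset_left))).div
      (continuous_eval (D i)).continuousOn fun t ht => ht.2 i
  have sec : ∀ᶠ y in 𝓝[A] y₀, θ (par τ s y).1 = y := by
    filter_upwards [self_mem_nhdsWithin, mem_nhdsWithin_of_mem_nhds (cp.tendsto y₀ c3),
      mem_nhdsWithin_of_mem_nhds (cp.fst.tendsto y₀ hD)] with y hy k1 k2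
    funext i
    simp only [θ]
    rw [div_eq_iff (k2 i), k1 (h1 y hy).1, mul_comm]
    exact ((h1 y hy).2 i).symm
  have e0 : θ (par τ s y₀).1 = y₀ := sec.self_of_nhdsWithin hy₀
  have tθ : Tendsto θ (𝓝 (par τ s y₀).1) (𝓝 y₀) := by
    have := cθ.continuousAt (inter_mem hN hD)
    rwa [ContinuousAt, e0] at this
  have inA : ∀ᶠ t in 𝓝 (par τ s y₀).1, θ t ∈ A := by
    filter_upwards [c2, hD, tθ ((continuous_eval q).continuousAt.eventually_ne a1)] with t k1 k2 k3
    exact q2 _ (h2 (t, ψ t) k1 k2) k3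
  refine ⟨y₀, hy₀, fun U hU => ?_⟩
  obtain ⟨ε, hε, hb⟩ := Metric.mem_nhds_iff.1 (inter_mem (inter_mem hN hD)
    (inter_mem inA (tendsto_nhdsWithin_iff.2 ⟨tθ, inA⟩ hU)))
  refine ⟨θ '' Metric.ball (par τ s y₀).1 ε, ?_, ?_, ?_⟩
  · filter_upwards [sec, mem_nhdsWithin_of_mem_nhds
      (cp.fst.tendsto y₀ (Metric.ball_mem_nhds _ hε))] with y k1 k2
    exact ⟨_, k2, k1⟩
  · rintro _ ⟨t, ht, rfl⟩
    exact (hb ht).2
  · exact ((convex_ball _ _).isPathConnected ⟨_, Metric.mem_ball_self hε⟩).image'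
      (cθ.mono fun t ht => (hb ht).1)

end LPC

theorem exists_lpc (V : Type) [TopologicalSpace V] [QP V] [IrreducibleSpace V] :
    ∃ x : Euc V, ∀ U ∈ 𝓝 x, ∃ W ∈ 𝓝 x, W ⊆ U ∧ IsPathConnected W := by
  obtain ⟨y₀, hy₀, h⟩ := LPC.affine (alc_cone (V := V) isClosed_univ.isLocallyClosed)
    (airr_cone (IrreducibleSpace.isIrreducible_univ V))
  have ct := (reg_taut (V := V) Set.univ).continuousOn_euc
  obtain ⟨c, hc, e⟩ := taut_spec hy₀
  obtain ⟨j, hj⟩ := Function.ne_iff.1 (rp_ne_zero (taut V y₀))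
  have hj' : rp (taut V y₀) j ≠ 0 := hj
  have h0 : y₀ j ≠ 0 := by rw [e]; exact mul_ne_zero hc hj'
  refine ⟨taut V y₀, fun U hU => ?_⟩
  obtain ⟨W, w1, w2, w3⟩ := h _ (ct y₀ hy₀ hU)
  refine ⟨taut V '' W, ?_, ?_, w3.image' (ct.mono fun y hy => (w2 hy).1)⟩
  · have hO : {x : Euc V | eval (rp (V := V) x) (X j) ≠ 0} ∈ @nhds (Euc V) _ (taut V y₀) := by
      refine IsOpen.mem_nhds ?_ (by simpa using hj')
      have := isClosed_euc (isOpen_form (V := V) (isHomogeneous_X ℂ j)).isClosed_compl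
      exact (isClosed_compl_iff (X := Euc V)).1 this
    let s : Euc V → QP.σ V → ℂ := fun x i =>
      y₀ j * (eval (rp (V := V) x) (X i) / eval (rp (V := V) x) (X j))
    have s1 : ∀ x, s x = (y₀ j / rp (V := V) x j) • rp (V := V) x := fun x => by
      funext i
      simp only [s, eval_X, Pi.smul_apply, smul_eq_mul]
      ring
    have s2 : s (taut V y₀) = y₀ := by
      rw [s1]
      conv_rhs => rw [e]
      congr 1
      rw [div_eq_iff hj']
      exact congrFun e j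
    have s3 : Filter.Tendsto s (@nhds (Euc V) _ (taut V y₀)) (𝓝 y₀) := by
      have : ContinuousAt s (taut V y₀) := continuousAt_pi.2 fun i => continuousAt_const.mul
        ((fmorOn_ratio (isHomogeneous_X ℂ i) (isHomogeneous_X ℂ j)).continuousOn_euc.continuousAt
          hO)
      rwa [ContinuousAt, s2] at this
    have s4 : ∀ᶠ x in @nhds (Euc V) _ (taut V y₀), y₀ j / rp (V := V) x j ≠ 0 :=
      Filter.mem_of_superset hO fun x hx => div_ne_zero h0 (by simpa using hx)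
    have s5 : ∀ᶠ x in @nhds (Euc V) _ (taut V y₀), s x ∈ cone (Set.univ : Set V) :=
      s4.mono fun x hx => by rw [s1]; exact smul_mem_cone (V := V) (Set.mem_univ _) hx
    filter_upwards [s4, tendsto_nhdsWithin_iff.2 ⟨s3, s5⟩ w1] with x k1 k2
    exact ⟨s x, k2, by rw [s1]; exact taut_smul (V := V) _ k1⟩
  · rintro _ ⟨y, hy, rfl⟩
    exact (w2 hy).2

end Kol68
end
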