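import Mathlib
import Pool.Agent.Work.MP_c53807_ag.Exp

-- merged part: Pool.Agent.Work.MP_c53807_ag.Laurent
section
/-!
The field `KK = ℂ((u))`, with `t = u⁻¹`, the maps from `ℂ[[u]]` and `ℂ[t]`.
-/

open scoped PowerSeries Polynomial

namespace Kol68

/-- `ℂ((u))`. -/
def KK : Type := HahnSeries ℤ ℂ

noncomputable instance : Field KK := inferInstanceAs (Field (HahnSeries ℤ ℂ))

noncomputable instance : Algebra ℂ KK :=
  (HahnSeries.instAlgebra : Algebra ℂ (HahnSeries ℤ ℂ))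

/-- The underlying Hahn series. -/
def KK.hs (x : KK) : HahnSeries ℤ ℂ := x

/-- A Hahn series as an element of `KK`. -/
def KK.mk (x : HahnSeries ℤ ℂ) : KK := x

/-- The coefficient of `u ^ n`. -/
noncomputable def co (n : ℤ) : KK →ₗ[ℂ] ℂ where
  toFun x := x.hs.coeff n
  map_add' _ _ := HahnSeries.coeff_add
  map_smul' _ _ := HahnSeries.coeff_smul

theorem co_def (n : ℤ) (x : KK) : co n x = x.hs.coeff n := rfl

theorem KK.ext {x y : KK} (h : ∀ n, co n x = co n y) : x = y :=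
  HahnSeries.ext (funext h)

/-- `c u ^ n`. -/
noncomputable def sg (n : ℤ) (c : ℂ) : KK := KK.mk (HahnSeries.single n c)

theorem co_sg (n m : ℤ) (c : ℂ) : co m (sg n c) = if m = n then c else 0 := by
  have := HahnSeries.coeff_single (a := n) (b := m) (r := c)
  split_ifs at this ⊢ <;> exact this

theorem co_sg_mul (n m : ℤ) (c : ℂ) (x : KK) : co m (sg n c * x) = c * co (m - n) x :=
  HahnSeries.coeff_single_mul

theorem algebraMap_eq_sg (c : ℂ) : algebraMap ℂ KK c = sg 0 c := rfl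

theorem co_algebraMap (n : ℤ) (c : ℂ) : co n (algebraMap ℂ KK c) = if n = 0 then c else 0 :=
  co_sg 0 n c

theorem co_one (n : ℤ) : co n (1 : KK) = if n = 0 then 1 else 0 := by
  simpa using co_algebraMap n 1

theorem sg_mul_sg (n m : ℤ) (c e : ℂ) : sg n c * sg m e = sg (n + m) (c * e) :=
  HahnSeries.single_mul_single

/-- `t = u⁻¹`. -/
noncomputable def tt : KK := sg (-1) 1

theorem sg_zero_one : sg 0 1 = 1 := rfl

theorem tt_ne_zero : tt ≠ 0 := by
  intro h
  have := congrArg (co (-1)) h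
  simp [tt, co_sg] at this

theorem tt_zpow (k : ℤ) : tt ^ k = sg (-k) 1 := by
  have hn : ∀ n : ℕ, tt ^ n = sg (-n) 1 := by
    intro n
    induction n with
    | zero => simp [sg_zero_one]
    | succ n ih => rw [pow_succ, ih, tt, sg_mul_sg]; congr 1 <;> push_cast <;> ring
  rcases Int.eq_nat_or_neg k with ⟨n, rfl | rfl⟩
  · simpa using hn n
  · rw [zpow_neg, zpow_natCast, hn]
    apply inv_eq_of_mul_eq_one_right
    rw [sg_mul_sg]; simp [sg_zero_one]

theorem co_tt_zpow_mul (k n : ℤ) (x : KK) : co n (tt ^ k * x) = co (n + k) x := by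
  rw [tt_zpow, co_sg_mul]; simp

/-- `ℂ[[u]] → ℂ((u))`. -/
noncomputable def iO : ℂ⟦X⟧ →ₐ[ℂ] KK := HahnSeries.ofPowerSeriesAlg ℤ ℂ

/-- `ℂ[t] → ℂ((u))`, `t ↦ u⁻¹`. -/
noncomputable def iT : ℂ[X] →ₐ[ℂ] KK := Polynomial.aeval tt

theorem co_iO (n : ℤ) (f : ℂ⟦X⟧) :
    co n (iO f) = if n < 0 then 0 else PowerSeries.coeff n.toNat f := by
  have := PowerSeries.coeff_coe f n
  change (HahnSeries.ofPowerSeries ℤ ℂ f).coeff n = _
  rw [this]
  split_ifs with h
  · rfl
  · congr 2; omega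

theorem co_iO_nat (n : ℕ) (f : ℂ⟦X⟧) : co n (iO f) = PowerSeries.coeff n f := by
  rw [co_iO, if_neg (by omega)]; simp

theorem iO_X : iO PowerSeries.X = tt ^ (-1 : ℤ) := by
  rw [tt_zpow]; exact HahnSeries.ofPowerSeries_X

theorem iT_X : iT Polynomial.X = tt := by simp [iT]

theorem co_iT (n : ℤ) (p : ℂ[X]) :
    co n (iT p) = if 0 < n then 0 else p.coeff (-n).toNat := by
  induction p using Polynomial.induction_on' with
  | add p q hp hq => rw [map_add, map_add, hp, hq]; split_ifs <;> simp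
  | monomial k c =>
    have : iT (Polynomial.monomial k c) = sg (-k) c := by
      rw [iT, Polynomial.aeval_monomial, algebraMap_eq_sg, ← zpow_natCast, tt_zpow, sg_mul_sg]
      simp
    rw [this, co_sg, Polynomial.coeff_monomial]
    split_ifs <;> first | rfl | omega

theorem co_iT_nat (n : ℕ) (p : ℂ[X]) : co (-n) (iT p) = p.coeff n := by
  rw [co_iT, if_neg (by omega)]; simp

theorem iO_injective : Function.Injective iO := fun f g h => by
  ext n; rw [← co_iO_nat, ← co_iO_nat, h]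

theorem iT_injective : Function.Injective iT := fun f g h => by
  ext n; rw [← co_iT_nat, ← co_iT_nat, h]

/-- `x ∈ u^a ℂ[[u]]`. -/
def Ord (a : ℤ) (x : KK) : Prop := ∀ n : ℤ, n < a → co n x = 0

/-- `x ∈ ℂ[t]`. -/
def InT (x : KK) : Prop := ∀ n : ℤ, 0 < n → co n x = 0

theorem Ord.mono {a b : ℤ} {x : KK} (h : Ord a x) (hab : b ≤ a) : Ord b x :=
  fun n hn => h n (by omega)

theorem ord_zero (a : ℤ) : Ord a 0 := fun _ _ => map_zero _

theorem Ord.add {a : ℤ} {x y : KK} (hx : Ord a x) (hy : Ord a y) : Ord a (x + y) :=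
  fun n hn => by rw [map_add, hx n hn, hy n hn, add_zero]

theorem Ord.neg {a : ℤ} {x : KK} (hx : Ord a x) : Ord a (-x) :=
  fun n hn => by rw [map_neg, hx n hn, neg_zero]

theorem Ord.sub {a : ℤ} {x y : KK} (hx : Ord a x) (hy : Ord a y) : Ord a (x - y) :=
  fun n hn => by rw [map_sub, hx n hn, hy n hn, sub_zero]

theorem Ord.smul {a : ℤ} {x : KK} (c : ℂ) (hx : Ord a x) : Ord a (c • x) :=
  fun n hn => by rw [map_smul, hx n hn, smul_zero]

theorem ord_sum {ι : Type*} {a : ℤ} (s : Finset ι) (f : ι → KK) (h : ∀ i ∈ s, Ord a (f i)) :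
    Ord a (∑ i ∈ s, f i) :=
  fun n hn => by rw [map_sum]; exact Finset.sum_eq_zero fun i hi => h i hi n hn

theorem co_mul (x y : KK) (n : ℤ) : co n (x * y) =
    ∑ ij ∈ Finset.antidiagonal x.hs.isPWO_support y.hs.isPWO_support n,
      co ij.1 x * co ij.2 y :=
  HahnSeries.coeff_mul

theorem Ord.mul {a b : ℤ} {x y : KK} (hx : Ord a x) (hy : Ord b y) : Ord (a + b) (x * y) := by
  intro n hn
  rw [co_mul]
  refine Finset.sum_eq_zero fun ij hij => ?_
  rw [Finset.mem_antidiagonal] at hij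
  by_cases h : ij.1 < a
  · rw [hx _ h, zero_mul]
  · rw [hy _ (by omega), mul_zero]

theorem Ord.co_mul {a b : ℤ} {x y : KK} (hx : Ord a x) (hy : Ord b y) :
    co (a + b) (x * y) = co a x * co b y := by
  rw [Kol68.co_mul, Finset.sum_eq_single (a, b)]
  · intro ij hij hne
    rw [Finset.mem_antidiagonal] at hij
    by_cases h : ij.1 < a
    · rw [hx _ h, zero_mul]
    · by_cases h' : ij.2 < b
      · rw [hy _ h', mul_zero]
      · exact absurd (Prod.ext (by omega) (by omega)) hne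
  · intro h
    rw [Finset.mem_antidiagonal] at h
    by_contra hne
    exact h ⟨left_ne_zero_of_mul hne, right_ne_zero_of_mul hne, rfl⟩

theorem ord_tt_mul_iff {a k : ℤ} {x : KK} : Ord a (tt ^ k * x) ↔ Ord (a + k) x := by
  constructor
  · intro h n hn
    have := h (n - k) (by omega)
    rwa [co_tt_zpow_mul, sub_add_cancel] at this
  · intro h n hn
    rw [co_tt_zpow_mul]; exact h _ (by omega)

theorem ord_algebraMap (c : ℂ) : Ord 0 (algebraMap ℂ KK c) :=
  fun n hn => by rw [co_algebraMap, if_neg (by omega)]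

theorem ord_one : Ord 0 1 := by simpa using ord_algebraMap 1

theorem ord_tt_zpow (k : ℤ) : Ord (-k) (tt ^ k) := by
  have : Ord (-k) (tt ^ k * 1) := ord_tt_mul_iff.2 (by simpa using ord_one)
  simpa using this

theorem co_tt_zpow (k : ℤ) : co (-k) (tt ^ k) = 1 := by
  rw [tt_zpow, co_sg, if_pos rfl]

theorem ord_prod {ι : Type*} (s : Finset ι) (a : ι → ℤ) (f : ι → KK)
    (h : ∀ i ∈ s, Ord (a i) (f i)) : Ord (∑ i ∈ s, a i) (∏ i ∈ s, f i) := by
  classical
  induction s using Finset.induction_on with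
  | empty => simpa using ord_one
  | insert i s hi ih =>
    rw [Finset.sum_insert hi, Finset.prod_insert hi]
    exact (h i (by simp)).mul (ih fun j hj => h j (by simp [hj]))

theorem exists_ord (x : KK) : ∃ a, Ord a x :=
  ⟨x.hs.order, fun _ hn => HahnSeries.coeff_eq_zero_of_lt_order hn⟩

theorem ord_iO (f : ℂ⟦X⟧) : Ord 0 (iO f) := fun n hn => by rw [co_iO, if_pos hn]

theorem Ord.exists_iO {x : KK} (h : Ord 0 x) : ∃ f, iO f = x :=
  ⟨PowerSeries.mk fun n => co n x, KK.ext fun n => by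
    rw [co_iO]
    split_ifs with hn
    · exact (h n hn).symm
    · rw [PowerSeries.coeff_mk]; congr 2; omega⟩

theorem inT_iT (p : ℂ[X]) : InT (iT p) := fun n hn => by rw [co_iT, if_pos hn]

theorem ord_iT (p : ℂ[X]) {e : ℕ} (h : p.natDegree ≤ e) : Ord (-e) (iT p) := fun n hn => by
  rw [co_iT]
  split_ifs
  · rfl
  · exact Polynomial.coeff_eq_zero_of_natDegree_lt (by omega)

theorem natDegree_le_of_ord (p : ℂ[X]) {e : ℕ} (h : Ord (-e) (iT p)) : p.natDegree ≤ e := by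
  rw [Polynomial.natDegree_le_iff_coeff_eq_zero]
  intro n hn
  rw [← co_iT_nat]; exact h _ (by omega)

/-- Every Laurent series is a polynomial in `t` plus an element of `u ℂ[[u]]`. -/
theorem exists_split (x : KK) : ∃ p : ℂ[X], Ord 1 (x - iT p) ∧
    ∀ n : ℕ, p.coeff n = co (-n) x := by
  obtain ⟨a, ha⟩ := exists_ord x
  have hc : ∀ n : ℕ, (∑ k ∈ Finset.range ((-a).toNat + 1),
      Polynomial.monomial k (co (-k) x)).coeff n = co (-n) x := by
    intro n
    rw [Polynomial.finsetSum_coeff, Finset.sum_eq_single n]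
    · simp
    · intro k _ hk; rw [Polynomial.coeff_monomial, if_neg hk]
    · intro h
      rw [Finset.mem_range] at h
      rw [ha _ (by omega)]; simp
  refine ⟨_, fun n hn => ?_, hc⟩
  rw [map_sub, co_iT, if_neg (by omega), hc]
  have : -(((-n).toNat : ℕ) : ℤ) = n := by omega
  rw [this, sub_self]

theorem InT.exists_iT {x : KK} (h : InT x) : ∃ p, iT p = x := by
  obtain ⟨p, hp, -⟩ := exists_split x
  refine ⟨p, KK.ext fun n => ?_⟩
  by_cases hn : n < 1
  · have := hp n hn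
    rw [map_sub, sub_eq_zero] at this
    exact this.symm
  · rw [h n (by omega), inT_iT p n (by omega)]

theorem eq_zero_of_ord_one {p : ℂ[X]} (h : Ord 1 (iT p)) : p = 0 := by
  ext n; rw [← co_iT_nat, h _ (by omega)]; simp

theorem eq_C_of_ord_zero {p : ℂ[X]} (h : Ord 0 (iT p)) : p = Polynomial.C (p.coeff 0) := by
  apply Polynomial.eq_C_of_natDegree_le_zero
  exact natDegree_le_of_ord p (e := 0) (by simpa using h)

theorem eq_zero_of_forall_ord {x : KK} (h : ∀ a, Ord a x) : x = 0 :=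
  KK.ext fun n => by rw [h (n + 1) n (by omega), map_zero]

/-- `x` has `u`-adic valuation `a`. -/
def HasVal (a : ℤ) (x : KK) : Prop := Ord a x ∧ co a x ≠ 0

theorem HasVal.mul {a b : ℤ} {x y : KK} (hx : HasVal a x) (hy : HasVal b y) :
    HasVal (a + b) (x * y) :=
  ⟨hx.1.mul hy.1, by rw [hx.1.co_mul hy.1]; exact mul_ne_zero hx.2 hy.2⟩

theorem HasVal.unique {a b : ℤ} {x : KK} (ha : HasVal a x) (hb : HasVal b x) : a = b := by
  by_contra h
  rcases lt_or_gt_of_ne h with h | h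
  · exact ha.2 (hb.1 a h)
  · exact hb.2 (ha.1 b h)

theorem HasVal.le {a b : ℤ} {x : KK} (ha : HasVal a x) (hb : Ord b x) : b ≤ a := by
  by_contra h
  exact ha.2 (hb a (by omega))

theorem HasVal.ne_zero {a : ℤ} {x : KK} (ha : HasVal a x) : x ≠ 0 := by
  rintro rfl; exact ha.2 (map_zero _)

theorem exists_hasVal {x : KK} (hx : x ≠ 0) : ∃ a, HasVal a x :=
  ⟨x.hs.order, fun _ hn => HahnSeries.coeff_eq_zero_of_lt_order hn,
    fun h => hx (HahnSeries.coeff_order_eq_zero.1 h)⟩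

theorem hasVal_tt_zpow (k : ℤ) : HasVal (-k) (tt ^ k) :=
  ⟨ord_tt_zpow k, by rw [co_tt_zpow]; exact one_ne_zero⟩

theorem hasVal_one : HasVal 0 1 := ⟨ord_one, by simp [co_one]⟩

theorem hasVal_zero_of_mul_eq_one {x y : KK} (hx : Ord 0 x) (hy : Ord 0 y) (h : x * y = 1) :
    HasVal 0 x := by
  refine ⟨hx, fun h0 => ?_⟩
  have := hx.co_mul hy
  rw [h, h0, zero_mul, add_zero, co_one] at this
  simp at this

theorem hasVal_prod {ι : Type*} (s : Finset ι) (a : ι → ℤ) (f : ι → KK)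
    (h : ∀ i ∈ s, HasVal (a i) (f i)) : HasVal (∑ i ∈ s, a i) (∏ i ∈ s, f i) := by
  classical
  induction s using Finset.induction_on with
  | empty => simpa using hasVal_one
  | insert i s hi ih =>
    rw [Finset.sum_insert hi, Finset.prod_insert hi]
    exact (h i (by simp)).mul (ih fun j hj => h j (by simp [hj]))

end Kol68
end

-- merged part: Pool.Agent.Work.MP_c53807_ag.Loop
section
/-!
Loops: diagonalisable matrices, `t ^ d`, coboundaries, coefficientwise derivations.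
-/

open scoped Matrix PowerSeries Polynomial

namespace Kol68

variable {R S : Type} [CommRing R] [Algebra ℂ R] [CommRing S] [Algebra ℂ S]
variable {m n p : Type}

section Diag

variable [Fintype n] [DecidableEq n] {N : Type} [Fintype N] [DecidableEq N]

/-- `Q diag(δ) Q⁻¹` with `δ` in a `ℂ`-algebra. -/
noncomputable def dgR (Q : GL n ℂ) (δ : n → R) : Matrix n n R :=
  cm R (Q : Matrix n n ℂ) * Matrix.diagonal δ * cm R ((Q⁻¹ : GL n ℂ) : Matrix n n ℂ)

/-- `Q diag(δ) Q⁻¹`. -/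
noncomputable abbrev dg (Q : GL n ℂ) (δ : n → ℂ) : Matrix n n ℂ := dgR Q δ

theorem dg_eq (Q : GL n ℂ) (δ : n → ℂ) :
    dg Q δ = (Q : Matrix n n ℂ) * Matrix.diagonal δ * ((Q⁻¹ : GL n ℂ) : Matrix n n ℂ) := rfl

theorem cm_inv_mul (Q : GL n ℂ) :
    cm R ((Q⁻¹ : GL n ℂ) : Matrix n n ℂ) * cm R (Q : Matrix n n ℂ) = 1 := by
  rw [← cm_mul, Units.inv_mul, cm_one]

theorem cm_mul_inv (Q : GL n ℂ) :
    cm R (Q : Matrix n n ℂ) * cm R ((Q⁻¹ : GL n ℂ) : Matrix n n ℂ) = 1 := by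
  rw [← cm_mul, Units.mul_inv, cm_one]

theorem dgR_mul (Q : GL n ℂ) (δ ε : n → R) : dgR Q δ * dgR Q ε = dgR Q (δ * ε) := by
  simp only [dgR, Matrix.mul_assoc]
  rw [← Matrix.mul_assoc (cm R ((Q⁻¹ : GL n ℂ) : Matrix n n ℂ)), cm_inv_mul, Matrix.one_mul,
    ← Matrix.mul_assoc (Matrix.diagonal δ), Matrix.diagonal_mul_diagonal]
  rfl

theorem dgR_one (Q : GL n ℂ) : dgR Q (1 : n → R) = 1 := by
  have : Matrix.diagonal (1 : n → R) = 1 := Matrix.diagonal_one
  rw [dgR, this, Matrix.mul_one, cm_mul_inv]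

theorem dgR_add (Q : GL n ℂ) (δ ε : n → R) : dgR Q (δ + ε) = dgR Q δ + dgR Q ε := by
  have : Matrix.diagonal (δ + ε) = Matrix.diagonal δ + Matrix.diagonal ε :=
    (Matrix.diagonal_add δ ε).symm
  rw [dgR, dgR, dgR, this, Matrix.mul_add, Matrix.add_mul]

theorem dgR_smul (Q : GL n ℂ) (c : R) (δ : n → R) : dgR Q (c • δ) = c • dgR Q δ := by
  rw [dgR, dgR, Matrix.diagonal_smul, Matrix.mul_smul, Matrix.smul_mul]

theorem dgR_zero (Q : GL n ℂ) : dgR Q (0 : n → R) = 0 := by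
  simpa using dgR_smul Q (0 : R) 0

theorem dgR_map (ψ : R →ₗ[ℂ] S) (Q : GL n ℂ) (δ : n → R) :
    (dgR Q δ).map ψ = dgR Q (ψ ∘ δ) := by
  rw [dgR, dgR, map_mul_cm, map_cm_mul, Matrix.diagonal_map (map_zero ψ)]; rfl

theorem cm_dg (Q : GL n ℂ) (δ : n → ℂ) : cm R (dg Q δ) = dgR Q (cv R δ) :=
  dgR_map (Algebra.linearMap ℂ R) Q δ

/-- The weights of a representation evaluated on a cocharacter. -/
def wtS (P : NatRep N n) {A : Type} [AddCommGroup A] (δ : N → A) : n → A :=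
  fun j => ∑ i, P.wt j i • δ i

theorem map_wtS (P : NatRep N n) {A B : Type} [AddCommGroup A] [AddCommGroup B] (f : A →+ B)
    (δ : N → A) : f ∘ wtS P δ = wtS P (f ∘ δ) := by
  ext j; simp [wtS]

theorem dρ_dg (P : NatRep N n) (Q : GL N ℂ) (δ : N → ℂ) :
    P.dρ ℂ (dg Q δ) = dg (P.ρU ℂ Q) (wtS P δ) := by
  rw [dg_eq, P.dρ_conj, P.dρ_diagonal, dg_eq]
  congr 3
  ext j; simp [wtS]

/-- `t` as a unit. -/
noncomputable def tU : KKˣ := Units.mk0 tt tt_ne_zero

/-- The loop `t ^ d` for `d = Q diag(a) Q⁻¹`. -/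
noncomputable def tp (Q : GL n ℂ) (a : n → ℤ) : GL n KK :=
  gmap (algebraMap ℂ KK) Q * diagU (fun i => tU ^ a i) * (gmap (algebraMap ℂ KK) Q)⁻¹

theorem coe_tp (Q : GL n ℂ) (a : n → ℤ) :
    (tp Q a : Matrix n n KK) = dgR Q fun i => tt ^ a i := by
  simp only [tp, Units.val_mul, coe_diagU, Units.val_zpow_eq_zpow_val]; rfl

theorem coe_tp_inv (Q : GL n ℂ) (a : n → ℤ) :
    (((tp Q a)⁻¹ : GL n KK) : Matrix n n KK) = dgR Q fun i => tt ^ (-a i) := by
  simp only [tp, mul_inv_rev, inv_inv, Units.val_mul, coe_diagU_inv, ← zpow_neg,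
    Units.val_zpow_eq_zpow_val, ← Matrix.mul_assoc]; rfl

theorem ρ_tp (P : NatRep N n) (Q : GL N ℂ) (a : N → ℤ) :
    P.ρU KK (tp Q a) = tp (P.ρU ℂ Q) (wtS P a) := by
  refine Units.ext ?_
  rw [coe_tp, NatRep.coe_ρU, tp, map_mul, map_mul, ← gmap_inv, P.ρ_const, P.ρ_const, P.diag, dgR]
  congr 3
  ext j
  simp only [← zpow_mul]
  rw [← ofAdd_sum_zpow, Units.val_zpow_eq_zpow_val]
  congr 1
  simp [wtS, mul_comm]

end Diag

/-- All entries lie in `u ^ a ℂ[[u]]`. -/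
def MOrd (a : ℤ) (Y : Matrix m n KK) : Prop := ∀ i j, Ord a (Y i j)

/-- All entries lie in `ℂ[t]`. -/
def MT (Y : Matrix m n KK) : Prop := ∀ i j, InT (Y i j)

theorem MOrd.mul [Fintype n] {a b : ℤ} {Y : Matrix m n KK} {Z : Matrix n p KK} (hY : MOrd a Y)
    (hZ : MOrd b Z) : MOrd (a + b) (Y * Z) := fun i j => by
  rw [Matrix.mul_apply]; exact ord_sum _ _ fun k _ => (hY i k).mul (hZ k j)

theorem MOrd.mul₀ [Fintype n] {Y : Matrix m n KK} {Z : Matrix n p KK} (hY : MOrd 0 Y)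
    (hZ : MOrd 0 Z) : MOrd 0 (Y * Z) := by simpa using hY.mul hZ

theorem MOrd.add {a : ℤ} {Y Z : Matrix m n KK} (hY : MOrd a Y) (hZ : MOrd a Z) :
    MOrd a (Y + Z) := fun i j => (hY i j).add (hZ i j)

theorem MOrd.sub {a : ℤ} {Y Z : Matrix m n KK} (hY : MOrd a Y) (hZ : MOrd a Z) :
    MOrd a (Y - Z) := fun i j => (hY i j).sub (hZ i j)

theorem MOrd.neg {a : ℤ} {Y : Matrix m n KK} (hY : MOrd a Y) : MOrd a (-Y) :=
  fun i j => (hY i j).neg

theorem MOrd.smul {a : ℤ} {Y : Matrix m n KK} (c : ℂ) (hY : MOrd a Y) : MOrd a (c • Y) :=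
  fun i j => (hY i j).smul c

theorem MOrd.mono {a b : ℤ} {Y : Matrix m n KK} (hY : MOrd a Y) (h : b ≤ a) : MOrd b Y :=
  fun i j => (hY i j).mono h

theorem mOrd_zero (a : ℤ) : MOrd a (0 : Matrix m n KK) := fun _ _ => ord_zero a

theorem mOrd_cm (B : Matrix m n ℂ) : MOrd 0 (cm KK B) := fun _ _ => ord_algebraMap _

theorem mOrd_iO (Y : Matrix m n ℂ⟦X⟧) : MOrd 0 (Y.map iO) := fun _ _ => ord_iO _

theorem MOrd.exists_iO {Y : Matrix m n KK} (h : MOrd 0 Y) :
    ∃ Z : Matrix m n ℂ⟦X⟧, Z.map iO = Y := by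
  choose Z hZ using fun i j => (h i j).exists_iO
  exact ⟨Matrix.of Z, Matrix.ext hZ⟩

theorem exists_mOrd [Fintype m] [Fintype n] (Y : Matrix m n KK) : ∃ a : ℕ, MOrd (-a) Y := by
  choose a ha using fun ij : m × n => exists_ord (Y ij.1 ij.2)
  refine ⟨Finset.univ.sup fun ij => (-a ij).toNat, fun i j => (ha (i, j)).mono ?_⟩
  have : (-a (i, j)).toNat ≤ Finset.univ.sup fun ij => (-a ij).toNat :=
    Finset.le_sup (f := fun ij => (-a ij).toNat) (Finset.mem_univ (i, j))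
  omega

theorem MOrd.det [Fintype n] [DecidableEq n] {a : ℤ} {Y : Matrix n n KK} (h : MOrd a Y) :
    Ord (Fintype.card n * a) Y.det := by
  rw [Matrix.det_apply]
  refine ord_sum _ _ fun σ _ => ?_
  have h1 := ord_prod Finset.univ (fun _ => a) (fun i => Y (σ i) i) fun i _ => h _ _
  rw [Finset.sum_const, Finset.card_univ, nsmul_eq_mul] at h1
  rcases Int.units_eq_one_or (Equiv.Perm.sign σ) with e | e <;> rw [e]
  · simpa using h1
  · simpa using h1.neg

theorem mT_iT (Y : Matrix m n ℂ[X]) : MT (Y.map iT) := fun _ _ => inT_iT _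

theorem MT.exists_iT {Y : Matrix m n KK} (h : MT Y) : ∃ Z : Matrix m n ℂ[X], Z.map iT = Y := by
  choose Z hZ using fun i j => (h i j).exists_iT
  exact ⟨Matrix.of Z, Matrix.ext hZ⟩

theorem map_iT_mul [Fintype n] (Y : Matrix m n ℂ[X]) (Z : Matrix n p ℂ[X]) :
    (Y * Z).map iT = Y.map iT * Z.map iT := Matrix.map_mul (f := (iT : ℂ[X] →+* KK))

theorem map_iO_mul [Fintype n] (Y : Matrix m n ℂ⟦X⟧) (Z : Matrix n p ℂ⟦X⟧) :
    (Y * Z).map iO = Y.map iO * Z.map iO := Matrix.map_mul (f := (iO : ℂ⟦X⟧ →+* KK))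

theorem MT.mul [Fintype n] {Y : Matrix m n KK} {Z : Matrix n p KK} (hY : MT Y) (hZ : MT Z) :
    MT (Y * Z) := by
  obtain ⟨Y, rfl⟩ := hY.exists_iT
  obtain ⟨Z, rfl⟩ := hZ.exists_iT
  rw [← map_iT_mul]; exact mT_iT _

theorem MT.add {Y Z : Matrix m n KK} (hY : MT Y) (hZ : MT Z) : MT (Y + Z) := fun i j k hk => by
  rw [Matrix.add_apply, map_add, hY i j k hk, hZ i j k hk, add_zero]

theorem MT.smul {Y : Matrix m n KK} (c : ℂ) (hY : MT Y) : MT (c • Y) := fun i j k hk => by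
  rw [Matrix.smul_apply, map_smul, hY i j k hk, smul_zero]

theorem MT.neg {Y : Matrix m n KK} (hY : MT Y) : MT (-Y) := by simpa using hY.smul (-1)

theorem MT.sub {Y Z : Matrix m n KK} (hY : MT Y) (hZ : MT Z) : MT (Y - Z) := by
  rw [sub_eq_add_neg]; exact hY.add hZ.neg

theorem mT_zero : MT (0 : Matrix m n KK) := fun _ _ _ _ => map_zero _

theorem mT_cm (B : Matrix m n ℂ) : MT (cm KK B) := by
  rw [← cm_map iT]; exact mT_iT _

/-- `A⁻¹ M(ℂ[[u]]) A + M(ℂ[t])`. -/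
noncomputable def Cob [Fintype n] [DecidableEq n] (A : GL n KK) : Submodule ℂ (Matrix n n KK) where
  carrier := {Y | ∃ a b, MOrd 0 a ∧ MT b ∧
    Y = ((A⁻¹ : GL n KK) : Matrix n n KK) * a * (A : Matrix n n KK) + b}
  add_mem' := by
    rintro _ _ ⟨a, b, ha, hb, rfl⟩ ⟨a', b', ha', hb', rfl⟩
    exact ⟨a + a', b + b', ha.add ha', hb.add hb', by
      rw [Matrix.mul_add, Matrix.add_mul]; abel⟩
  zero_mem' := ⟨0, 0, mOrd_zero 0, mT_zero, by simp⟩
  smul_mem' := by
    rintro c _ ⟨a, b, ha, hb, rfl⟩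
    exact ⟨c • a, c • b, ha.smul c, hb.smul c, by simp⟩

theorem mem_Cob [Fintype n] [DecidableEq n] {A : GL n KK} {Y : Matrix n n KK} :
    Y ∈ Cob A ↔ ∃ a b, MOrd 0 a ∧ MT b ∧
      Y = ((A⁻¹ : GL n KK) : Matrix n n KK) * a * (A : Matrix n n KK) + b := Iff.rfl

section Ders

variable (D : Der ℂ)

/-- The coefficientwise derivation of `ℂ((u))`. -/
noncomputable def DK : Der KK where
  toFun :=
    { toFun := fun x => KK.mk (x.hs.map D.toFun)
      map_zero' := KK.ext fun n => map_zero D.toFun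
      map_add' := fun x y => KK.ext fun n => map_add D.toFun (co n x) (co n y) }
  leib x y := KK.ext fun n => by
    have h1 : co n (x * KK.mk (y.hs.map D.toFun)) =
        ∑ ij ∈ Finset.antidiagonal x.hs.isPWO_support y.hs.isPWO_support n,
          co ij.1 x * D (co ij.2 y) :=
      HahnSeries.coeff_mul_right' y.hs.isPWO_support
        (HahnSeries.support_map_subset y.hs D.toFun.toZeroHom)
    have h2 : co n (KK.mk (x.hs.map D.toFun) * y) =
        ∑ ij ∈ Finset.antidiagonal x.hs.isPWO_support y.hs.isPWO_support n,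
          D (co ij.1 x) * co ij.2 y :=
      HahnSeries.coeff_mul_left' x.hs.isPWO_support
        (HahnSeries.support_map_subset x.hs D.toFun.toZeroHom)
    change D (co n (x * y)) = co n (x * KK.mk (y.hs.map D.toFun) + KK.mk (x.hs.map D.toFun) * y)
    rw [map_add, h1, h2, co_mul, map_sum, ← Finset.sum_add_distrib]
    exact Finset.sum_congr rfl fun ij _ => D.leib _ _

theorem co_DK (k : ℤ) (x : KK) : co k (DK D x) = D (co k x) := rfl

/-- The coefficientwise derivation of `ℂ[[u]]`. -/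
noncomputable def DO : Der ℂ⟦X⟧ where
  toFun :=
    { toFun := fun f => PowerSeries.mk fun k => D (PowerSeries.coeff k f)
      map_zero' := by ext; simp
      map_add' := fun x y => by ext; simp }
  leib x y := by
    ext k
    simp [PowerSeries.coeff_mul, D.leib, Finset.sum_add_distrib]

theorem coeff_DO (k : ℕ) (f : ℂ⟦X⟧) :
    PowerSeries.coeff k (DO D f) = D (PowerSeries.coeff k f) :=
  PowerSeries.coeff_mk k fun k => D (PowerSeries.coeff k f)

theorem DK_iO (f : ℂ⟦X⟧) : DK D (iO f) = iO (DO D f) := KK.ext fun k => by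
  rw [co_DK, co_iO, co_iO, coeff_DO]; split_ifs <;> simp

theorem exists_DT (f : ℂ[X]) : ∃ g : ℂ[X], ∀ k, g.coeff k = D (f.coeff k) :=
  ⟨∑ k ∈ f.support, Polynomial.monomial k (D (f.coeff k)), fun k => by
    rw [Polynomial.finsetSum_coeff, Finset.sum_eq_single k]
    · simp
    · intro j _ hj; rw [Polynomial.coeff_monomial, if_neg hj]
    · intro h; rw [Polynomial.notMem_support_iff.1 h]; simp⟩

/-- The coefficientwise derivative of a polynomial. -/
noncomputable def DT₀ (f : ℂ[X]) : ℂ[X] := Classical.choose (exists_DT D f)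

theorem coeff_DT₀ (k : ℕ) (f : ℂ[X]) : (DT₀ D f).coeff k = D (f.coeff k) :=
  Classical.choose_spec (exists_DT D f) k

/-- The coefficientwise derivation of `ℂ[t]`. -/
noncomputable def DT : Der ℂ[X] where
  toFun :=
    { toFun := DT₀ D
      map_zero' := by ext; simp [coeff_DT₀]
      map_add' := fun x y => by ext; simp [coeff_DT₀] }
  leib x y := by
    ext k
    simp [coeff_DT₀, Polynomial.coeff_mul, D.leib, Finset.sum_add_distrib]

theorem coeff_DT (k : ℕ) (f : ℂ[X]) : (DT D f).coeff k = D (f.coeff k) := coeff_DT₀ D k f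

theorem DK_iT (f : ℂ[X]) : DK D (iT f) = iT (DT D f) := KK.ext fun k => by
  rw [co_DK, co_iT, co_iT, coeff_DT]; split_ifs <;> simp

theorem DK_algebraMap (c : ℂ) : DK D (algebraMap ℂ KK c) = algebraMap ℂ KK (D c) :=
  KK.ext fun k => by rw [co_DK, co_algebraMap, co_algebraMap]; split_ifs <;> simp

theorem DK_tt_zpow (k : ℤ) : DK D (tt ^ k) = 0 := KK.ext fun j => by
  rw [co_DK, tt_zpow, co_sg]; split_ifs <;> simp [D.map_one']

theorem Ord.DK {a : ℤ} {x : KK} (h : Ord a x) : Ord a (DK D x) := fun k hk => by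
  rw [co_DK, h k hk, map_zero]

theorem InT.DK {x : KK} (h : InT x) : InT (DK D x) := fun k hk => by
  rw [co_DK, h k hk, map_zero]

theorem D_eval (f : ℂ[X]) (y : ℂ) :
    D (f.eval y) = (DT D f).eval y + f.derivative.eval y * D y := by
  induction f using Polynomial.induction_on' with
  | add p q hp hq => simp [hp, hq]; ring
  | monomial k c =>
    have h : DT D (Polynomial.monomial k c) = Polynomial.monomial k (D c) := by
      ext j; rw [coeff_DT, Polynomial.coeff_monomial, Polynomial.coeff_monomial]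
      split_ifs <;> simp
    rw [h, Polynomial.eval_monomial, Polynomial.eval_monomial, D.leib,
      Polynomial.derivative_monomial, Polynomial.eval_monomial]
    rcases k with _ | k
    · simp [D.map_one']
    · rw [D.map_pow_succ]; simp; ring

theorem DT_derivative (f : ℂ[X]) : DT D f.derivative = (DT D f).derivative := by
  ext k
  have h : D ((k : ℂ) + 1) = 0 := by
    have h1 : ∀ j : ℕ, D (j : ℂ) = 0 := fun j => by
      induction j with
      | zero => simp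
      | succ j ih => rw [Nat.cast_succ, map_add, ih, D.map_one', add_zero]
    rw [map_add, h1, D.map_one', add_zero]
  rw [coeff_DT, Polynomial.coeff_derivative, Polynomial.coeff_derivative, coeff_DT, D.leib, h]
  ring

/-- `D` kills the set `C`. -/
def Der.KillsSet (C : Set ℂ) : Prop := ∀ c ∈ C, D c = 0

/-- The entries of `B` lie in `C`. -/
def EntriesIn (C : Set ℂ) (B : Matrix m n ℂ) : Prop := ∀ i j, B i j ∈ C

theorem kills_DK {C : Set ℂ} (hD : D.KillsSet C) {B : Matrix m n ℂ} (hB : EntriesIn C B) :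
    (DK D).Kills B := by
  ext i j : 2
  change DK D (algebraMap ℂ KK (B i j)) = 0
  rw [DK_algebraMap, hD _ (hB i j), map_zero]

end Ders

variable {N : Type} [Fintype N] [DecidableEq N]

/-- The group generated by the `exp (u ^ (l + 1) ξ)`, `ξ ∈ h`. -/
noncomputable def expG (h : Submodule ℂ (Matrix N N ℂ)) : Subgroup (GL N ℂ⟦X⟧) :=
  Subgroup.closure {g | ∃ l : ℕ, ∃ ξ ∈ h, g = expU l ξ}

/-- The span of the logarithmic derivatives `γ⁻¹ D γ` lying in `h(K)`, over the derivations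
killing `C`. -/
noncomputable def logSpan (h : Submodule ℂ (Matrix N N ℂ)) (C : Set ℂ) (γ : GL N KK) :
    Submodule ℂ (Matrix N N KK) :=
  Submodule.span ℂ {c | c ∈ bcM h KK ∧ ∃ D : Der ℂ, D.KillsSet C ∧
    c = ((γ⁻¹ : GL N KK) : Matrix N N KK) * (DK D).mat (γ : Matrix N N KK)}

/-- `s(K) ⊆ W + γ⁻¹ s(ℂ[[u]]) γ + s(ℂ[t])`. -/
def Decomp (s : Submodule ℂ (Matrix N N ℂ)) (γ : GL N KK) (W : Set (Matrix N N KK)) : Prop :=
  ∀ ζ ∈ bcM s KK, ∃ c ∈ W, ∃ a b : Matrix N N KK, a ∈ bcM s KK ∧ MOrd 0 a ∧ b ∈ bcM s KK ∧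
    MT b ∧ ζ = c + ((γ⁻¹ : GL N KK) : Matrix N N KK) * a * (γ : Matrix N N KK) + b

/-- The loop `t ^ d η`. -/
noncomputable def loop (Q : GL N ℂ) (a : N → ℤ) (η : GL N ℂ⟦X⟧) : GL N KK :=
  tp Q a * gmap (iO : ℂ⟦X⟧ →+* KK) η

/-- The associative algebra generated by the image of `h` in a representation. -/
noncomputable def envA [Fintype n] [DecidableEq n] (P : NatRep N n)
    (h : Submodule ℂ (Matrix N N ℂ)) : Subalgebra ℂ (Matrix n n ℂ) :=
  Algebra.adjoin ℂ (P.dρ ℂ '' (h : Set (Matrix N N ℂ)))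

theorem conj_mem_of_pres {s : Submodule ℂ (Matrix N N ℂ)} {g : GL N R}
    (hg : Pres (vs s) ((adRep N).ρ R g)) {ζ : Matrix N N R} (hζ : ζ ∈ bcM s R) :
    (g : Matrix N N R) * ζ * ((g⁻¹ : GL N R) : Matrix N N R) ∈ bcM s R := by
  rw [← vec_mem_bc, ← adRep_mulVec]; exact hg.mulVec (vec_mem_bc.2 hζ)

theorem pres_ad_iff {s : Submodule ℂ (Matrix N N ℂ)} {g : GL N R} :
    Pres (vs s) ((adRep N).ρ R g) ↔ ∀ x ∈ s,
      (g : Matrix N N R) * cm R x * ((g⁻¹ : GL N R) : Matrix N N R) ∈ bcM s R := by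
  refine ⟨fun h x hx => conj_mem_of_pres h (cm_mem_bcM hx), fun h => pres_iff_cv.2 ?_⟩
  rintro _ ⟨x, hx, rfl⟩
  change _ *ᵥ vec R (cm R x) ∈ _
  rw [adRep_mulVec, vec_mem_bc]; exact h x hx

theorem ad_mem_presA_iff {s : Submodule ℂ (Matrix N N ℂ)} {ξ : Matrix N N ℂ} :
    (adRep N).dρ ℂ ξ ∈ presA (vs s) ↔ ∀ x ∈ s, ξ * x - x * ξ ∈ s := by
  constructor
  · intro h x hx
    rw [← vec_mem_vs, ← adRep_dρ_mulVec]; exact h _ (vec_mem_vs.2 hx)
  · rintro h _ ⟨x, hx, rfl⟩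
    change _ *ᵥ vec ℂ x ∈ _
    rw [adRep_dρ_mulVec, vec_mem_vs]; exact h x hx

/-- The exponential of a nilpotent matrix. -/
noncomputable def nexp {e : Matrix N N R} (he : IsNilpotent e) : GL N R :=
  letI : Module ℚ (Matrix N N R) := Module.compHom _ (algebraMap ℚ ℂ)
  ⟨IsNilpotent.exp e, IsNilpotent.exp (-e), IsNilpotent.exp_mul_exp_neg_self he,
    IsNilpotent.exp_neg_mul_exp_self he⟩

theorem coe_nexp {e : Matrix N N R} (he : IsNilpotent e) {k : ℕ} (hk : e ^ k = 0) :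
    (nexp he : Matrix N N R) = ∑ i ∈ Finset.range k, ((i.factorial : ℂ)⁻¹) • e ^ i := by
  let _ : Module ℚ (Matrix N N R) := Module.compHom _ (algebraMap ℚ ℂ)
  change IsNilpotent.exp e = _
  rw [IsNilpotent.exp_eq_sum hk]
  refine Finset.sum_congr rfl fun i _ => ?_
  change (algebraMap ℚ ℂ (i.factorial : ℚ)⁻¹) • e ^ i = _
  simp

theorem nexp_inv {e : Matrix N N R} (he : IsNilpotent e) : (nexp he)⁻¹ = nexp he.neg :=
  Units.ext rfl

/-- The group generated by the `exp (c e)`, `c ∈ ℂ((u))`, `e ∈ s` nilpotent. -/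
noncomputable def uniG (s : Submodule ℂ (Matrix N N ℂ)) : Subgroup (GL N KK) :=
  Subgroup.closure {g | ∃ (c : KK) (e : Matrix N N ℂ) (he : IsNilpotent (c • cm KK e)),
    e ∈ s ∧ IsNilpotent e ∧ g = nexp he}

/-- The bundle of `γ` twisted by `O(-1)` has no sections. -/
def NoSec (γ : GL N KK) : Prop :=
  ∀ q : N → ℂ[X], (∀ i, Ord 1 (((γ : Matrix N N KK) *ᵥ (iT ∘ q)) i)) → q = 0

end Kol68
end

-- merged part: Pool.Agent.Work.MP_c53807_ag.Spec
section
/-!
Jordan decomposition, replicas and traces on invariant subspaces.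
-/

open scoped Matrix PowerSeries Polynomial

namespace Kol68

variable {n k N : Type} [Fintype n] [DecidableEq n] [Fintype k] [DecidableEq k] [Fintype N]
  [DecidableEq N]

namespace SpecAux

/-- `δ ↦ Q diag(δ) Q⁻¹` as an algebra map. -/
noncomputable def dgA (Q : GL n ℂ) : (n → ℂ) →ₐ[ℂ] Matrix n n ℂ :=
  AlgHom.ofLinearMap
    { toFun := dg Q, map_add' := dgR_add Q, map_smul' := dgR_smul Q }
    (dgR_one Q) fun a b => (dgR_mul Q a b).symm

theorem dgA_apply (Q : GL n ℂ) (δ : n → ℂ) : dgA Q δ = dg Q δ := rfl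

theorem aeval_dg (Q : GL n ℂ) (δ : n → ℂ) (p : ℂ[X]) :
    Polynomial.aeval (dg Q δ) p = dg Q fun i => p.eval (δ i) := by
  rw [← dgA_apply, Polynomial.aeval_algHom_apply, dgA_apply]
  congr 1
  ext i
  rw [Polynomial.aeval_fn_apply, Polynomial.coe_aeval_eq_eval]

theorem eq_zero_of_dg (Q : GL n ℂ) {δ : n → ℂ} (h : dg Q δ = 0) : δ = 0 := by
  have h1 := congrArg (fun M => ((Q⁻¹ : GL n ℂ) : Matrix n n ℂ) * M * (Q : Matrix n n ℂ)) h
  simp only [dg_eq, Matrix.mul_assoc, Units.inv_mul, Matrix.mul_one, Matrix.mul_zero,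
    Matrix.zero_mul] at h1
  rw [← Matrix.mul_assoc, Units.inv_mul, Matrix.one_mul] at h1
  ext i
  simpa using congrFun (congrFun h1 i) i

theorem exists_interp (s : Finset ℂ) (ψ : ℂ → ℂ) : ∃ p : ℂ[X], ∀ c ∈ s, p.eval c = ψ c :=
  ⟨Lagrange.interpolate s id ψ, fun _ hc =>
    Lagrange.eval_interpolate_at_node (v := id) ψ (Set.injOn_id _) hc⟩

theorem exists_aeval (Q : GL n ℂ) (δ : n → ℂ) (ψ : ℂ → ℂ) :
    ∃ p : ℂ[X], (∀ i, p.eval (δ i) = ψ (δ i)) ∧ Polynomial.aeval (dg Q δ) p = dg Q (ψ ∘ δ) := by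
  classical
  obtain ⟨p, hp⟩ := exists_interp (Finset.univ.image δ) ψ
  have h : ∀ i, p.eval (δ i) = ψ (δ i) := fun i => hp _ (Finset.mem_image_of_mem _ (by simp))
  refine ⟨p, h, ?_⟩
  rw [aeval_dg]
  congr 1
  ext i
  exact h i

theorem comp_mem_adjoin (Q : GL n ℂ) (δ : n → ℂ) (ψ : ℂ → ℂ) :
    dg Q (ψ ∘ δ) ∈ Algebra.adjoin ℂ {dg Q δ} := by
  obtain ⟨p, -, hp⟩ := exists_aeval Q δ ψ
  rw [← hp]
  exact Polynomial.aeval_mem_adjoin_singleton ℂ _

/-- The squarefree polynomial vanishing on a finite set. -/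
noncomputable def van (s : Finset ℂ) : ℂ[X] := ∏ c ∈ s, (Polynomial.X - Polynomial.C c)

theorem van_squarefree (s : Finset ℂ) : Squarefree (van s) :=
  (Polynomial.separable_prod_X_sub_C_iff'.2 fun _ _ _ _ h => h).squarefree

theorem eval_van {s : Finset ℂ} {c : ℂ} : (van s).eval c = 0 ↔ c ∈ s := by
  simp [van, Polynomial.eval_prod, Finset.prod_eq_zero_iff, sub_eq_zero]

theorem aeval_van (Q : GL n ℂ) (δ : n → ℂ) {s : Finset ℂ} (h : ∀ i, δ i ∈ s) :
    Polynomial.aeval (dg Q δ) (van s) = 0 := by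
  rw [aeval_dg, ← dgR_zero Q]
  congr 1
  ext i
  exact eval_van.2 (h i)

theorem isSemisimple_of_van {M : Matrix n n ℂ} {s : Finset ℂ}
    (h : Polynomial.aeval M (van s) = 0) :
    Module.End.IsSemisimple (Matrix.toLinAlgEquiv' M : Module.End ℂ (n → ℂ)) := by
  refine Module.End.isSemisimple_of_squarefree_aeval_eq_zero (van_squarefree s) ?_
  rw [Polynomial.aeval_algHom_apply, h, map_zero]

theorem isSemisimple_dg (Q : GL n ℂ) (δ : n → ℂ) :
    Module.End.IsSemisimple (Matrix.toLinAlgEquiv' (dg Q δ) : Module.End ℂ (n → ℂ)) := by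
  classical
  exact isSemisimple_of_van (aeval_van Q δ (s := Finset.univ.image δ)
    fun i => Finset.mem_image_of_mem _ (by simp))

theorem exists_dg {M : Matrix n n ℂ}
    (h : Module.End.IsSemisimple (Matrix.toLinAlgEquiv' M : Module.End ℂ (n → ℂ))) :
    ∃ (Q : GL n ℂ) (δ : n → ℂ), M = dg Q δ := by
  let E : Set (n → ℂ) := {v | ∃ c : ℂ, M *ᵥ v = c • v}
  have hE : Submodule.span ℂ E = ⊤ := by
    rw [eq_top_iff, ← h.iSup_eigenspace_eq_top]
    refine iSup_le fun c v hv => Submodule.subset_span ⟨c, ?_⟩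
    simpa using Module.End.mem_eigenspace_iff.1 hv
  obtain ⟨b, hbE, hsp, hli⟩ := exists_linearIndependent ℂ E
  let B₀ : Module.Basis b ℂ (n → ℂ) := Module.Basis.mk hli (by simp [hsp, hE])
  let B : Module.Basis n ℂ (n → ℂ) := B₀.reindex (B₀.indexEquiv (Pi.basisFun ℂ n))
  have hB : ∀ j, B j ∈ E := fun j => by
    simp only [B, B₀, Module.Basis.reindex_apply, Module.Basis.mk_apply]
    exact hbE (Subtype.prop _)
  choose δ hδ using hB
  let Q : GL n ℂ := ⟨(Pi.basisFun ℂ n).toMatrix B, B.toMatrix (Pi.basisFun ℂ n),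
    Module.Basis.toMatrix_mul_toMatrix_flip _ _, Module.Basis.toMatrix_mul_toMatrix_flip _ _⟩
  refine ⟨Q, δ, ?_⟩
  have hQ : M * (Q : Matrix n n ℂ) = (Q : Matrix n n ℂ) * Matrix.diagonal δ := by
    ext i j
    have := congrFun (hδ j) i
    simp only [Matrix.mulVec, dotProduct, Pi.smul_apply, smul_eq_mul] at this
    simp [Q, Matrix.mul_apply, Module.Basis.toMatrix_apply, Matrix.diagonal_apply, this, mul_comm]
  rw [dg_eq, ← hQ, Matrix.mul_assoc, Units.mul_inv, Matrix.mul_one]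

theorem symm_mem_adjoin {M : Matrix n n ℂ} {s : Module.End ℂ (n → ℂ)}
    (h : s ∈ Algebra.adjoin ℂ {(Matrix.toLinAlgEquiv' M : Module.End ℂ (n → ℂ))}) :
    Matrix.toLinAlgEquiv'.symm s ∈ Algebra.adjoin ℂ {M} := by
  rw [Algebra.adjoin_singleton_eq_range_aeval] at h
  obtain ⟨p, rfl⟩ := h
  change Matrix.toLinAlgEquiv'.symm (Polynomial.aeval _ p) ∈ _
  rw [Polynomial.aeval_algHom_apply, AlgEquiv.symm_apply_apply]
  exact Polynomial.aeval_mem_adjoin_singleton ℂ _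

theorem dg_mem_adjoin (Q : GL n ℂ) (δ : n → ℂ) {ν : Matrix n n ℂ} (hν : IsNilpotent ν)
    (hc : Commute ν (dg Q δ)) : dg Q δ ∈ Algebra.adjoin ℂ {dg Q δ + ν} := by
  obtain ⟨a, ha, s, hs, han, hss, h⟩ := Module.End.exists_isNilpotent_isSemisimple
    (f := (Matrix.toLinAlgEquiv' (dg Q δ + ν) : Module.End ℂ (n → ℂ)))
  have hcm : Commute a s := Algebra.commute_of_mem_adjoin_singleton_of_commute hs
    (Algebra.commute_of_mem_adjoin_singleton_of_commute ha (Commute.refl _)).symm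
  have h2 := (Module.End.isNilpotent_isSemisimple_unique han hss
    (hν.map Matrix.toLinAlgEquiv') (isSemisimple_dg Q δ) hcm (hc.map Matrix.toLinAlgEquiv')
    (by rw [← h, map_add, add_comm])).2
  have h3 := symm_mem_adjoin hs
  rwa [h2, AlgEquiv.symm_apply_apply] at h3

theorem comp_mem_adjoin' (Q : GL n ℂ) (δ : n → ℂ) {ν : Matrix n n ℂ} (hν : IsNilpotent ν)
    (hc : Commute ν (dg Q δ)) (ψ : ℂ → ℂ) : dg Q (ψ ∘ δ) ∈ Algebra.adjoin ℂ {dg Q δ + ν} :=
  Algebra.adjoin_le (by simpa using dg_mem_adjoin Q δ hν hc) (comp_mem_adjoin Q δ ψ)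

theorem exists_poly {m p : Type} (Y : Matrix m p ℂ⟦X⟧) (e : ℕ) (h : ∀ l, e ≤ l → cM l Y = 0) :
    ∃ A : Matrix m p ℂ[X], A.map Polynomial.coeToPowerSeries.ringHom = Y := by
  refine ⟨Y.map (PowerSeries.trunc e), ?_⟩
  ext i j l
  simp only [Matrix.map_apply, Polynomial.coeToPowerSeries.ringHom_apply, Polynomial.coeff_coe,
    PowerSeries.coeff_trunc]
  split_ifs with hl
  · rfl
  · exact (congrFun (congrFun (h l (by omega)) i) j).symm

theorem map_coe_injective {m p : Type} : Function.Injective fun A : Matrix m p ℂ[X] =>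
    A.map (Polynomial.coeToPowerSeries.ringHom (R := ℂ)) := fun _ _ h =>
  Matrix.ext fun i j => Polynomial.coe_injective ℂ (congrFun (congrFun h i) j)

theorem trOn_idem {r : Submodule ℂ (n → ℂ)} {E : Matrix n n ℂ} (hE : E * E = E)
    (hr : E ∈ presA r) : ∃ m : ℕ, m ≤ Fintype.card n ∧ trOn r (Matrix.toLin' E) = m := by
  have hf : ∀ y ∈ r, Matrix.toLin' E y ∈ r := fun y hy => hr y hy
  have he : IsIdempotentElem ((Matrix.toLin' E).restrict hf) := by
    refine LinearMap.ext fun y => Subtype.ext ?_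
    change E *ᵥ (E *ᵥ (y : n → ℂ)) = E *ᵥ (y : n → ℂ)
    rw [Matrix.mulVec_mulVec, hE]
  have := Module.Free.of_divisionRing ℂ (LinearMap.range ((Matrix.toLin' E).restrict hf))
  have := Module.Free.of_divisionRing ℂ (LinearMap.ker ((Matrix.toLin' E).restrict hf))
  refine ⟨_, ?_, by rw [trOn_eq_restrict hf, (LinearMap.IsIdempotentElem.isProj_range _ he).trace]⟩
  refine (Submodule.finrank_le _).trans ((Submodule.finrank_le r).trans ?_)
  simp

theorem exists_mult (Q : GL n ℂ) (δ : n → ℂ) {r : Submodule ℂ (n → ℂ)} (h : dg Q δ ∈ presA r) :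
    ∃ m : ℂ → ℕ, (∀ c, m c ≤ Fintype.card n) ∧ ∀ ψ : ℂ → ℂ,
      trOn r (Matrix.toLin' (dg Q (ψ ∘ δ))) = ∑ c ∈ Finset.univ.image δ, m c • ψ c := by
  classical
  let ind : ℂ → ℂ → ℂ := fun c x => if x = c then 1 else 0
  have hE : ∀ c, ∃ m : ℕ, m ≤ Fintype.card n ∧
      trOn r (Matrix.toLin' (dg Q (ind c ∘ δ))) = m := fun c => by
    refine trOn_idem ?_ (Algebra.adjoin_le (by simpa using h) (comp_mem_adjoin Q δ (ind c)))
    rw [dgR_mul]
    congr 1
    ext i
    simp only [ind, Pi.mul_apply, Function.comp_apply]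
    split_ifs <;> simp
  choose m hm hm' using hE
  refine ⟨m, hm, fun ψ => ?_⟩
  have h1 : ψ ∘ δ = ∑ c ∈ Finset.univ.image δ, ψ c • (ind c ∘ δ) := by
    ext i
    simp [ind, Finset.sum_apply]
  rw [h1, ← dgA_apply, map_sum, map_sum, trOn_sum]
  refine Finset.sum_congr rfl fun c _ => ?_
  rw [map_smul, map_smul, trOn_smul, dgA_apply, hm', nsmul_eq_mul, mul_comm]

theorem trOn_jordan (Q : GL n ℂ) (δ : n → ℂ) {ν : Matrix n n ℂ} (hν : IsNilpotent ν)
    (hc : Commute ν (dg Q δ)) {r : Submodule ℂ (n → ℂ)} (h : dg Q δ + ν ∈ presA r) :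
    dg Q δ ∈ presA r ∧
      trOn r (Matrix.toLin' (dg Q δ + ν)) = trOn r (Matrix.toLin' (dg Q δ)) := by
  have h1 : dg Q δ ∈ presA r := Algebra.adjoin_le (by simpa using h) (dg_mem_adjoin Q δ hν hc)
  have h2 : ν ∈ presA r := by simpa using (presA r).sub_mem h h1
  refine ⟨h1, ?_⟩
  rw [map_add, trOn_add, trOn_of_isNilpotent (f := Matrix.toLin' ν) (fun y hy => h2 y hy)
    (hν.map Matrix.toLinAlgEquiv'), add_zero]

theorem π_aeval {r₁ r₂ : Submodule ℂ (n → ℂ)} (T : SQ r₁ r₂ k) {M : Matrix n n ℂ}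
    (h₁ : M ∈ presA r₁) (h₂ : M ∈ presA r₂) (p : ℂ[X]) :
    T.π (Polynomial.aeval M p) = Polynomial.aeval (T.π M) p := by
  have hp : ∀ e : ℕ, T.π (M ^ e) = T.π M ^ e := fun e => by
    induction e with
    | zero => simp [T.π_one]
    | succ e ih =>
      rw [pow_succ', T.π_mul (pres_self.2 h₁) (pres_self.2 ((presA r₂).pow_mem h₂ e)), ih,
        pow_succ']
  induction p using Polynomial.induction_on' with
  | add p q hp hq => rw [map_add, map_add, T.π_add, hp, hq]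
  | monomial e c =>
    rw [Polynomial.aeval_monomial, Polynomial.aeval_monomial, ← Algebra.smul_def,
      ← Algebra.smul_def, T.π_smul, hp]

theorem floor_re_intCast (j : ℤ) : ⌊(j : ℂ).re⌋ = j := by simp

end SpecAux

open SpecAux

theorem exists_jordan (ξ : Matrix n n ℂ) : ∃ (Q : GL n ℂ) (δ : n → ℂ) (ν : Matrix n n ℂ),
    IsNilpotent ν ∧ Commute ν (dg Q δ) ∧ ξ = dg Q δ + ν := by
  obtain ⟨a, ha, s, hs, han, hss, h⟩ := Module.End.exists_isNilpotent_isSemisimple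
    (f := (Matrix.toLinAlgEquiv' ξ : Module.End ℂ (n → ℂ)))
  have hcm : Commute a s := Algebra.commute_of_mem_adjoin_singleton_of_commute hs
    (Algebra.commute_of_mem_adjoin_singleton_of_commute ha (Commute.refl _)).symm
  obtain ⟨Q, δ, hQ⟩ := exists_dg (M := Matrix.toLinAlgEquiv'.symm s) (by simpa using hss)
  refine ⟨Q, δ, Matrix.toLinAlgEquiv'.symm a, han.map _, ?_, ?_⟩
  · rw [← hQ]; exact hcm.map _
  · rw [← hQ, ← map_add, add_comm, ← h, AlgEquiv.symm_apply_apply]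

theorem NatRep.dρ_isNilpotent (P : NatRep N n) {ν : Matrix N N ℂ} (h : IsNilpotent ν) :
    IsNilpotent (P.dρ ℂ ν) := by
  have key : ∀ {μ : Matrix N N ℂ}, IsNilpotent μ → ∃ A : Matrix N N ℂ[X],
      A.map Polynomial.coeToPowerSeries.ringHom = expM 1 μ := by
    rintro μ ⟨e, he⟩
    refine exists_poly _ e fun l hl => ?_
    rw [cM_expM, if_pos (one_dvd l), Nat.div_one, pow_eq_zero_of_le hl he, smul_zero]
  obtain ⟨A, hA⟩ := key h
  obtain ⟨B, hB⟩ := key h.neg
  have hAB : A * B = 1 := map_coe_injective (by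
    simp only [Matrix.map_mul, hA, hB]
    rw [Matrix.map_one _ (map_zero _) (map_one _)]
    exact expM_mul_neg 0 ν)
  have hBA : B * A = 1 := mul_eq_one_comm.1 hAB
  let g : GL N ℂ[X] := ⟨A, B, hAB, hBA⟩
  have hg : gmap Polynomial.coeToPowerSeries.ringHom g = expU 0 ν := Units.ext hA
  have h1 := P.nat _ _ Polynomial.coeToPowerSeries.ringHom g
  rw [hg, ρ_expU] at h1
  let D : ℕ := (Finset.univ.sup fun ij : n × n => (P.ρ ℂ[X] g ij.1 ij.2).natDegree) + 1
  have h2 : cM D (expM (0 + 1) (P.dρ ℂ ν)) = 0 := by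
    rw [← h1]
    ext i j
    simp only [cM_apply, Matrix.map_apply, Polynomial.coeToPowerSeries.ringHom_apply,
      Polynomial.coeff_coe, Matrix.zero_apply]
    refine Polynomial.coeff_eq_zero_of_natDegree_lt (Nat.lt_succ_of_le ?_)
    exact Finset.le_sup (f := fun ij : n × n => (P.ρ ℂ[X] g ij.1 ij.2).natDegree)
      (Finset.mem_univ (i, j))
  rw [cM_expM, zero_add, if_pos (one_dvd D), Nat.div_one, smul_eq_zero] at h2
  refine ⟨D, h2.resolve_left (inv_ne_zero ?_)⟩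
  exact_mod_cast D.factorial_ne_zero

theorem dgR_mem_bcA {R : Type} [CommRing R] [Algebra ℂ R] (Q : GL n ℂ) (δ : n → ℂ)
    {ν : Matrix n n ℂ} (hν : IsNilpotent ν) (hc : Commute ν (dg Q δ)) (φ : ℂ → R) :
    dgR Q (φ ∘ δ) ∈ bcA (Algebra.adjoin ℂ {dg Q δ + ν}) R := by
  intro χ
  rw [dgR_map]
  exact comp_mem_adjoin' Q δ hν hc (χ ∘ φ)

theorem dgR_int_mem_bcA {R : Type} [CommRing R] [Algebra ℂ R] (Q : GL n ℂ) (w : n → ℤ)
    (φ : ℤ → R) :
    dgR Q (φ ∘ w) ∈ bcA (Algebra.adjoin ℂ {dg Q fun i => (w i : ℂ)}) R := by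
  have h := dgR_mem_bcA Q (fun i => (w i : ℂ)) IsNilpotent.zero (Commute.zero_left _)
    fun c => φ ⌊c.re⌋
  rw [add_zero] at h
  convert h using 2
  ext i
  simp

/-- Replicas. -/
theorem exists_replica (ξ : Matrix N N ℂ) : ∃ (Q : GL N ℂ) (δ : N → ℂ), ∀ (f : ℂ →+ ℂ) (n : Type)
    [Fintype n] [DecidableEq n] (P : NatRep N n),
    P.dρ ℂ (dg Q (f ∘ δ)) ∈ Algebra.adjoin ℂ {P.dρ ℂ ξ} ∧
      ∀ r, P.dρ ℂ ξ ∈ presA r → trOn r (Matrix.toLin' (P.dρ ℂ (dg Q (f ∘ δ)))) =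
        f (trOn r (Matrix.toLin' (P.dρ ℂ ξ))) := by
  obtain ⟨Q, δ, ν, hν, hc, rfl⟩ := exists_jordan ξ
  refine ⟨Q, δ, fun f n _ _ P => ?_⟩
  have hν' := P.dρ_isNilpotent hν
  have hc' : Commute (P.dρ ℂ ν) (dg (P.ρU ℂ Q) (wtS P δ)) := by
    have := P.dρ_lie ν (dg Q δ)
    rw [hc.eq, sub_self, map_zero, dρ_dg, eq_comm, sub_eq_zero] at this
    exact this
  rw [map_add, dρ_dg, dρ_dg, ← map_wtS]
  refine ⟨comp_mem_adjoin' _ _ hν' hc' f, fun r hr => ?_⟩
  obtain ⟨h1, h2⟩ := trOn_jordan _ _ hν' hc' hr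
  obtain ⟨m, -, hm⟩ := exists_mult _ _ h1
  have h3 := hm id
  rw [Function.id_comp] at h3
  rw [h2, h3, hm, map_sum]
  simp only [map_nsmul, id]

theorem finite_trOn (M : Matrix n n ℂ) :
    {c | ∃ r, M ∈ presA r ∧ c = trOn r (Matrix.toLin' M)}.Finite := by
  classical
  obtain ⟨Q, δ, ν, hν, hc, rfl⟩ := exists_jordan M
  refine (Set.finite_range fun m : Finset.univ.image δ → Fin (Fintype.card n + 1) =>
    ∑ c, (m c : ℕ) • (c : ℂ)).subset ?_
  rintro _ ⟨r, hr, rfl⟩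
  obtain ⟨h1, h2⟩ := trOn_jordan _ _ hν hc hr
  obtain ⟨m, hm, hm'⟩ := exists_mult _ _ h1
  have h3 := hm' id
  rw [Function.id_comp] at h3
  refine ⟨fun c => ⟨m c, Nat.lt_succ_of_le (hm c)⟩, ?_⟩
  rw [h2, h3]
  exact Finset.sum_coe_sort (Finset.univ.image δ) fun c => m c • c

theorem trOn_dg_int (Q : GL n ℂ) (w : n → ℤ) (r : Submodule ℂ (n → ℂ))
    (h : (dg Q fun i => (w i : ℂ)) ∈ presA r) :
    ∃ c : ℤ, trOn r (Matrix.toLin' (dg Q fun i => (w i : ℂ))) = c := by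
  obtain ⟨m, -, hm⟩ := exists_mult _ _ h
  have h1 := hm fun c => (⌊c.re⌋ : ℤ)
  have h2 : ((fun c : ℂ => ((⌊c.re⌋ : ℤ) : ℂ)) ∘ fun i => (w i : ℂ)) = fun i => (w i : ℂ) := by
    ext i; simp
  rw [h2] at h1
  refine ⟨∑ c ∈ Finset.univ.image fun i => (w i : ℂ), m c • ⌊c.re⌋, ?_⟩
  rw [h1]
  simp

/-- The matrix induced on a subquotient by an integral diagonalisable matrix. -/
theorem exists_π_dg {r₁ r₂ : Submodule ℂ (n → ℂ)} (T : SQ r₁ r₂ k) (Q : GL n ℂ) (w : n → ℤ)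
    (h₁ : (dg Q fun i => (w i : ℂ)) ∈ presA r₁) (h₂ : (dg Q fun i => (w i : ℂ)) ∈ presA r₂) :
    ∃ (Q' : GL k ℂ) (w' : k → ℤ), ∀ (R : Type) [CommRing R] [Algebra ℂ R] (φ : ℤ → R),
      T.π (dgR Q (φ ∘ w)) = dgR Q' (φ ∘ w') := by
  classical
  let s : Finset ℂ := Finset.univ.image fun i => (w i : ℂ)
  have h0 : Polynomial.aeval (T.π (dg Q fun i => (w i : ℂ))) (van s) = 0 := by
    rw [← π_aeval T h₁ h₂, aeval_van Q _ (s := s) fun i =>
      Finset.mem_image_of_mem _ (Finset.mem_univ i), T.π_zero]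
  obtain ⟨Q', δ, hδ⟩ := exists_dg (isSemisimple_of_van h0)
  rw [hδ, aeval_dg] at h0
  have hs : ∀ j, ∃ i, (w i : ℂ) = δ j := fun j => by
    simpa [s] using eval_van.1 (congrFun (eq_zero_of_dg Q' h0) j)
  choose a ha using hs
  refine ⟨Q', w ∘ a, fun R _ _ φ => ?_⟩
  ext i j
  rw [← sub_eq_zero]
  refine eq_zero_of_forall_dual fun χ => ?_
  obtain ⟨p, hp, hp'⟩ := exists_aeval Q (fun i => (w i : ℂ)) fun c => χ (φ ⌊c.re⌋)
  have h3 : (T.π (dgR Q (φ ∘ w))).map χ = (dgR Q' (φ ∘ w ∘ a)).map χ := by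
    have e1 : χ ∘ φ ∘ w = (fun c : ℂ => χ (φ ⌊c.re⌋)) ∘ fun i => (w i : ℂ) := by
      ext i; simp
    rw [T.π_map, dgR_map, dgR_map, e1]
    change T.π (dg Q _) = dg Q' _
    rw [← hp', π_aeval T h₁ h₂, hδ, aeval_dg]
    congr 1
    ext j
    rw [← ha j, hp]
    simp
  rw [map_sub, sub_eq_zero]
  exact congrFun (congrFun h3 i) j

end Kol68
end

-- merged part: Pool.Agent.Work.MP_c53807_ag.Det
section
/-!
Valuations of determinants on subquotients.
-/

open scoped Matrix PowerSeries Polynomial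

namespace Kol68

variable {n k N : Type} [Fintype n] [DecidableEq n] [Fintype k] [DecidableEq k] [Fintype N]
  [DecidableEq N]

/-- Rank factorisation of an idempotent matrix. -/
theorem exists_rank_of_idem {F : Type} [Field F] (ε : Matrix k k F) (h : ε * ε = ε) :
    ∃ r : ℕ, ε.trace = r ∧ ∀ c : F, (1 + (c - 1) • ε).det = c ^ r := by
  let f : (k → F) →ₗ[F] (k → F) := Matrix.toLin' ε
  have hf : ∀ y, f (f y) = f y := fun y => by
    simp only [f, Matrix.toLin'_apply, Matrix.mulVec_mulVec, h]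
  let r := Module.finrank F (LinearMap.range f)
  let e : LinearMap.range f ≃ₗ[F] (Fin r → F) := LinearEquiv.ofFinrankEq _ _ (by simp [r])
  let Bl : (Fin r → F) →ₗ[F] (k → F) := (LinearMap.range f).subtype ∘ₗ e.symm.toLinearMap
  let Ll : (k → F) →ₗ[F] (Fin r → F) := e.toLinearMap ∘ₗ f.rangeRestrict
  have h1 : LinearMap.toMatrix' Bl * LinearMap.toMatrix' Ll = ε := by
    rw [← LinearMap.toMatrix'_comp, ← LinearMap.toMatrix'_toLin' ε]
    congr 1
    refine LinearMap.ext fun y => ?_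
    simp [Bl, Ll, f]
  have h2 : LinearMap.toMatrix' Ll * LinearMap.toMatrix' Bl = 1 := by
    rw [← LinearMap.toMatrix'_comp, ← LinearMap.toMatrix'_id]
    congr 1
    refine LinearMap.ext fun z => ?_
    have h3 : f.rangeRestrict ((e.symm z : LinearMap.range f) : k → F) = e.symm z := by
      obtain ⟨y, hy⟩ := (e.symm z).2
      exact Subtype.ext (by
        change f ((e.symm z : LinearMap.range f) : k → F) = _
        rw [← hy, hf])
    simp [Bl, Ll, h3]
  refine ⟨r, ?_, fun c => ?_⟩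
  · rw [← h1, Matrix.trace_mul_comm, h2, Matrix.trace_one]; simp
  · rw [← h1, ← Matrix.smul_mul, Matrix.det_one_add_mul_comm, Matrix.mul_smul, h2]
    have : (1 : Matrix (Fin r) (Fin r) F) + (c - 1) • (1 : Matrix (Fin r) (Fin r) F) =
        c • (1 : Matrix (Fin r) (Fin r) F) := by
      rw [sub_smul, one_smul]; abel
    rw [this, Matrix.det_smul]; simp

theorem HasVal.pow {a : ℤ} {x : KK} (h : HasVal a x) (i : ℕ) : HasVal (i * a) (x ^ i) := by
  induction i with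
  | zero => simpa using hasVal_one
  | succ i ih =>
    have := ih.mul h
    rw [← pow_succ] at this
    have e : ((i + 1 : ℕ) : ℤ) * a = i * a + a := by push_cast; ring
    rwa [e]

/-- An element whose powers have bounded poles has no pole. -/
theorem ord_zero_of_pow {x : KK} {M : ℤ} (h : ∀ i : ℕ, Ord M (x ^ i)) : Ord 0 x := by
  by_cases hx : x = 0
  · rw [hx]; exact ord_zero 0
  obtain ⟨v, hv⟩ := exists_hasVal hx
  refine hv.1.mono ?_
  by_contra hneg
  have h1 := (hv.pow (M.natAbs + 1)).le (h _)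
  have h2 : ((M.natAbs + 1 : ℕ) : ℤ) * v ≤ ((M.natAbs + 1 : ℕ) : ℤ) * (-1) :=
    mul_le_mul_of_nonneg_left (by omega) (by positivity)
  omega

theorem ord_det_q (A : Subalgebra KK (Matrix n n KK)) (L : Matrix k n KK) (B : Matrix n k KK)
    (h1 : L * B = 1) (hq : ∀ X ∈ A, ∀ Y ∈ A, L * (X * Y) * B = (L * X * B) * (L * Y * B))
    {X : Matrix n n KK} (hX : X ∈ A) (h0 : MOrd 0 X) : Ord 0 (L * X * B).det := by
  obtain ⟨a, ha⟩ := exists_mOrd L
  obtain ⟨b, hb⟩ := exists_mOrd B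
  have hp : ∀ i : ℕ, MOrd 0 (X ^ i) ∧ L * X ^ i * B = (L * X * B) ^ i := by
    intro i
    induction i with
    | zero =>
      refine ⟨?_, by simpa using h1⟩
      simpa using mOrd_cm (1 : Matrix n n ℂ)
    | succ i ih =>
      refine ⟨by rw [pow_succ]; exact ih.1.mul₀ h0, ?_⟩
      rw [pow_succ, hq _ (A.pow_mem hX i) _ hX, ih.2, pow_succ]
  refine ord_zero_of_pow (M := Fintype.card k * (-(a : ℤ) + 0 + -(b : ℤ))) fun i => ?_
  rw [← Matrix.det_pow, ← (hp i).2]
  exact ((ha.mul (hp i).1).mul hb).det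

theorem hasVal_det_q_unit (A : Subalgebra KK (Matrix n n KK)) (L : Matrix k n KK)
    (B : Matrix n k KK) (h1 : L * B = 1)
    (hq : ∀ X ∈ A, ∀ Y ∈ A, L * (X * Y) * B = (L * X * B) * (L * Y * B))
    (η : GL n ℂ⟦X⟧) (hη : (η : Matrix n n ℂ⟦X⟧).map iO ∈ A) :
    HasVal 0 (L * (η : Matrix n n ℂ⟦X⟧).map iO * B).det := by
  have hi : ((η⁻¹ : GL n ℂ⟦X⟧) : Matrix n n ℂ⟦X⟧).map iO ∈ A :=
    inv_mem_subalgebra A (gmap (iO : ℂ⟦X⟧ →+* KK) η) hη
  refine hasVal_zero_of_mul_eq_one (ord_det_q A L B h1 hq hη (mOrd_iO _))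
    (ord_det_q A L B h1 hq hi (mOrd_iO _)) ?_
  rw [← Matrix.det_mul, ← hq _ hη _ hi, ← map_iO_mul, Units.mul_inv,
    Matrix.map_one _ (map_zero _) (map_one _), Matrix.mul_one, h1, Matrix.det_one]

theorem exists_det_dgR (A : Subalgebra KK (Matrix n n KK)) (L : Matrix k n KK)
    (B : Matrix n k KK) (h1 : L * B = 1)
    (hq : ∀ X ∈ A, ∀ Y ∈ A, L * (X * Y) * B = (L * X * B) * (L * Y * B))
    (Q : GL n ℂ) (w : n → ℤ) (hE : ∀ φ : ℤ → KK, dgR Q (φ ∘ w) ∈ A) :
    ∃ r : ℤ → ℕ, ∀ φ : ℤ → KK,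
      (L * dgR Q (φ ∘ w) * B).trace = ∑ j ∈ Finset.univ.image w, φ j * r j ∧
      (L * dgR Q (φ ∘ w) * B).det = ∏ j ∈ Finset.univ.image w, φ j ^ r j := by
  let ind : ℤ → ℤ → KK := fun j x => if x = j then 1 else 0
  have hid : ∀ j, (L * dgR Q (ind j ∘ w) * B) * (L * dgR Q (ind j ∘ w) * B) =
      L * dgR Q (ind j ∘ w) * B := by
    intro j
    rw [← hq _ (hE _) _ (hE _), dgR_mul]
    congr 3
    ext i
    by_cases h : w i = j <;> simp [ind, h]
  choose r hr1 hr2 using fun j => exists_rank_of_idem _ (hid j)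
  let Ψ : (ℤ → KK) →* KK :=
    { toFun := fun φ => (L * dgR Q (φ ∘ w) * B).det
      map_one' := by
        have : (1 : ℤ → KK) ∘ w = 1 := rfl
        rw [this, dgR_one, Matrix.mul_one, h1, Matrix.det_one]
      map_mul' := fun φ ψ => by
        rw [← Matrix.det_mul, ← hq _ (hE _) _ (hE _), dgR_mul]; rfl }
  let Λ : (n → KK) →ₗ[KK] KK :=
    { toFun := fun δ => (L * dgR Q δ * B).trace
      map_add' := fun δ ε => by
        rw [dgR_add, Matrix.mul_add, Matrix.add_mul, Matrix.trace_add]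
      map_smul' := fun c δ => by
        rw [dgR_smul, Matrix.mul_smul, Matrix.smul_mul, Matrix.trace_smul]; rfl }
  refine ⟨r, fun φ => ⟨?_, ?_⟩⟩
  · have e : φ ∘ w = ∑ j ∈ Finset.univ.image w, φ j • (ind j ∘ w) := by
      ext i
      rw [Finset.sum_apply, Finset.sum_eq_single (w i)]
      · simp [ind]
      · intro j _ hj; simp [ind, hj.symm]
      · intro h; exact absurd (Finset.mem_image_of_mem w (Finset.mem_univ i)) h
    change Λ (φ ∘ w) = _
    rw [e, map_sum]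
    refine Finset.sum_congr rfl fun j _ => ?_
    rw [map_smul, smul_eq_mul, ← hr1 j]; rfl
  · have e : φ ∘ w = (∏ j ∈ Finset.univ.image w, (1 + (φ j - 1) • ind j)) ∘ w := by
      ext i
      rw [Function.comp_apply, Function.comp_apply, Finset.prod_apply,
        Finset.prod_eq_single (w i)]
      · simp [ind]
      · intro j _ hj; simp [ind, hj.symm]
      · intro h; exact absurd (Finset.mem_image_of_mem w (Finset.mem_univ i)) h
    rw [e]
    change Ψ _ = _
    rw [map_prod]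
    refine Finset.prod_congr rfl fun j _ => ?_
    rw [← hr2 j]
    change (L * dgR Q ((1 + (φ j - 1) • ind j) ∘ w) * B).det = _
    have e2 : (1 + (φ j - 1) • ind j) ∘ w = 1 + (φ j - 1) • (ind j ∘ w) := rfl
    rw [e2, dgR_add, dgR_smul, dgR_one, Matrix.mul_add, Matrix.add_mul, Matrix.mul_one, h1,
      Matrix.mul_smul, Matrix.smul_mul]

theorem hasVal_det_q (A : Subalgebra KK (Matrix n n KK)) (L : Matrix k n KK) (B : Matrix n k KK)
    (h1 : L * B = 1) (hq : ∀ X ∈ A, ∀ Y ∈ A, L * (X * Y) * B = (L * X * B) * (L * Y * B))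
    (Q : GL n ℂ) (w : n → ℤ) (hE : ∀ φ : ℤ → KK, dgR Q (φ ∘ w) ∈ A) :
    ∃ c : ℤ, (L * cm KK (dg Q fun i => (w i : ℂ)) * B).trace = algebraMap ℂ KK c ∧
      ∀ (m : ℤ) (η : GL n ℂ⟦X⟧), (η : Matrix n n ℂ⟦X⟧).map iO ∈ A →
        HasVal (-(m * c)) (L * (loop Q (m • w) η : Matrix n n KK) * B).det := by
  obtain ⟨r, hr⟩ := exists_det_dgR A L B h1 hq Q w hE
  refine ⟨∑ j ∈ Finset.univ.image w, j * r j, ?_, fun m η hη => ?_⟩
  · have e : cv KK (fun i => (w i : ℂ)) = (fun j : ℤ => (j : KK)) ∘ w := by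
      ext i; simp
    rw [cm_dg, e, (hr _).1, map_intCast]
    push_cast; rfl
  · have e : (loop Q (m • w) η : Matrix n n KK) =
        dgR Q ((fun j : ℤ => tt ^ (m * j)) ∘ w) * (η : Matrix n n ℂ⟦X⟧).map iO := by
      rw [loop, Units.val_mul, coe_tp]; rfl
    rw [e, hq _ (hE _) _ hη, Matrix.det_mul, (hr _).2]
    have h2 := (hasVal_prod (Finset.univ.image w) (fun j => (r j : ℤ) * -(m * j))
      (fun j => (tt ^ (m * j)) ^ r j) fun j _ => (hasVal_tt_zpow (m * j)).pow (r j)).mul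
      (hasVal_det_q_unit A L B h1 hq η hη)
    have e2 : -(m * ∑ j ∈ Finset.univ.image w, j * (r j : ℤ)) =
        ∑ j ∈ Finset.univ.image w, (r j : ℤ) * -(m * j) + 0 := by
      rw [add_zero, Finset.mul_sum, ← Finset.sum_neg_distrib]
      exact Finset.sum_congr rfl fun j _ => by ring
    rwa [e2]

theorem hasVal_det_π {r₁ r₂ : Submodule ℂ (n → ℂ)} (T : SQ r₁ r₂ k) (Q : GL n ℂ) (w : n → ℤ)
    (h₁ : (dg Q fun i => (w i : ℂ)) ∈ presA r₁) (h₂ : (dg Q fun i => (w i : ℂ)) ∈ presA r₂)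
    (m : ℤ) (η : GL n ℂ⟦X⟧) (hη₁ : Pres r₁ (η : Matrix n n ℂ⟦X⟧))
    (hη₂ : Pres r₂ (η : Matrix n n ℂ⟦X⟧)) (c : ℤ)
    (hc : trOn r₂ (Matrix.toLin' (dg Q fun i => (w i : ℂ))) -
      trOn r₁ (Matrix.toLin' (dg Q fun i => (w i : ℂ))) = c) :
    HasVal (-(m * c)) (T.π (loop Q (m • w) η : Matrix n n KK)).det := by
  obtain ⟨c', hc', hv⟩ := hasVal_det_q (bcA (presA r₁) KK ⊓ bcA (presA r₂) KK) (cm KK T.L)
    (cm KK T.B) T.LB' (fun X hX Y hY => T.π_mul (M := X) (M' := Y) hX.1 hY.2) Q w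
    (fun φ => ⟨bcA_mono (Algebra.adjoin_le (by simpa using h₁)) (dgR_int_mem_bcA Q w φ),
      bcA_mono (Algebra.adjoin_le (by simpa using h₂)) (dgR_int_mem_bcA Q w φ)⟩)
  have e : c' = c := by
    change (T.π (cm KK (dg Q fun i => (w i : ℂ)))).trace = _ at hc'
    rw [T.π_cm, trace_cm, T.trace_π h₁ h₂, hc] at hc'
    exact_mod_cast ((algebraMap ℂ KK).injective hc').symm
  rw [← e]
  exact hv m η ⟨hη₁.map iO.toLinearMap, hη₂.map iO.toLinearMap⟩

theorem det_updateRow_one {F : Type} [CommRing F] (i : k) (v : k → F) :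
    ((1 : Matrix k k F).updateRow i v).det = v i := by
  rw [← Matrix.cramer_transpose_apply, Matrix.transpose_one, Matrix.cramer_one]; rfl

theorem row_lemma {F : Type} [Field F] [Algebra ℂ F] (Y : Matrix n k F) (L₀ : Matrix k n ℂ)
    (h : (cm F L₀ * Y).det ≠ 0) (l : n → ℂ)
    (hl : ∀ i, (cm F (L₀.updateRow i l) * Y).det = 0) : cv F l ᵥ* Y = 0 := by
  have hu : IsUnit (cm F L₀ * Y).det := isUnit_iff_ne_zero.2 h
  have h1 : cv F l ᵥ* (Y * (cm F L₀ * Y)⁻¹) = 0 := by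
    ext i
    have e : cm F (L₀.updateRow i l) = (cm F L₀).updateRow i (cv F l) := Matrix.map_updateRow _
    have h2 : (cm F (L₀.updateRow i l) * (Y * (cm F L₀ * Y)⁻¹)).det = 0 := by
      rw [← Matrix.mul_assoc, Matrix.det_mul, hl i, zero_mul]
    rw [e, Matrix.updateRow_mul, ← Matrix.mul_assoc, Matrix.mul_nonsing_inv _ hu,
      det_updateRow_one] at h2
    exact h2
  have h3 := congrArg (· ᵥ* (cm F L₀ * Y)) h1
  simpa only [Matrix.vecMul_vecMul, Matrix.mul_assoc, Matrix.nonsing_inv_mul _ hu,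
    Matrix.mul_one, Matrix.zero_vecMul] using h3

theorem det_map_iT (Y : Matrix k k ℂ[X]) : (Y.map iT).det = iT Y.det :=
  ((iT : ℂ[X] →+* KK).map_det Y).symm

/-- A subbundle of degree zero of a trivial bundle is constant. -/
theorem pres_of_val_zero {r : Submodule ℂ (n → ℂ)} (T : SQ ⊥ r k) (A : GL n KK)
    (hA : Pres r (A : Matrix n n KK)) (hv : HasVal 0 (T.π (A : Matrix n n KK)).det)
    (P : GL n ℂ[X]) (hP0 : (P : Matrix n n ℂ[X]).map (Polynomial.eval 0) = 1) (κ : GL n ℂ⟦X⟧)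
    (h : (A : Matrix n n KK) * (P : Matrix n n ℂ[X]).map iT = (κ : Matrix n n ℂ⟦X⟧).map iO) :
    Pres r (P : Matrix n n ℂ[X]) := by
  set P' : Matrix n n ℂ[X] := ((P⁻¹ : GL n ℂ[X]) : Matrix n n ℂ[X]) with hP'
  set κ' : Matrix n n ℂ⟦X⟧ := ((κ⁻¹ : GL n ℂ⟦X⟧) : Matrix n n ℂ⟦X⟧) with hκ'
  have h1 : P'.map iT = κ'.map iO * (A : Matrix n n KK) := by
    have e1 : κ'.map iO * (κ : Matrix n n ℂ⟦X⟧).map iO = 1 := by
      rw [← map_iO_mul, hκ', Units.inv_mul, Matrix.map_one _ (map_zero _) (map_one _)]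
    have e2 : (P : Matrix n n ℂ[X]).map iT * P'.map iT = 1 := by
      rw [← map_iT_mul, hP', Units.mul_inv, Matrix.map_one _ (map_zero _) (map_one _)]
    calc P'.map iT = κ'.map iO * (κ : Matrix n n ℂ⟦X⟧).map iO * P'.map iT := by
          rw [e1, Matrix.one_mul]
      _ = _ := by rw [← h, Matrix.mul_assoc, Matrix.mul_assoc, e2, Matrix.mul_one]
  have h0 : P'.map (Polynomial.evalRingHom 0) = 1 := by
    have e : ((P : Matrix n n ℂ[X]) * P').map (Polynomial.evalRingHom 0) = 1 := by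
      rw [hP', Units.mul_inv, Matrix.map_one _ (map_zero _) (map_one _)]
    have e' : (P : Matrix n n ℂ[X]).map (Polynomial.evalRingHom 0) = 1 := hP0
    rwa [Matrix.map_mul, e', Matrix.one_mul] at e
  have key : ∀ L' : Matrix k n ℂ,
      (cm KK L' * (P'.map iT * cm KK T.B)).det = algebraMap ℂ KK (L' * T.B).det := by
    intro L'
    have e1 : cm KK L' * (P'.map iT * cm KK T.B) = (cm ℂ[X] L' * P' * cm ℂ[X] T.B).map iT := by
      rw [map_iT_mul, map_iT_mul, cm_map, cm_map, Matrix.mul_assoc]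
    have e2 : Ord 0 (cm KK L' * (P'.map iT * cm KK T.B)).det := by
      rw [h1, Matrix.mul_assoc, T.mul_B hA, ← Matrix.mul_assoc, ← Matrix.mul_assoc,
        Matrix.det_mul]
      have := (((mOrd_cm L').mul₀ (mOrd_iO κ')).mul₀ (mOrd_cm T.B)).det
      simpa using this.mul hv.1
    rw [e1, det_map_iT] at e2 ⊢
    rw [eq_C_of_ord_zero e2, Polynomial.coeff_zero_eq_eval_zero]
    have e3 : Polynomial.eval 0 (cm ℂ[X] L' * P' * cm ℂ[X] T.B).det = (L' * T.B).det := by
      have e4 : ∀ {a b : Type} (Z : Matrix a b ℂ),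
          (cm ℂ[X] Z).map (Polynomial.evalRingHom 0) = Z := fun Z => by
        ext i j; simp
      have := (Polynomial.evalRingHom (0 : ℂ)).map_det (cm ℂ[X] L' * P' * cm ℂ[X] T.B)
      rw [RingHom.mapMatrix_apply, Matrix.map_mul, Matrix.map_mul, h0, e4, e4,
        Matrix.mul_one] at this
      exact this
    rw [e3]
    exact iT.commutes _
  have hP'' : Pres r (P'.map iT) := by
    refine pres_iff_cv.2 fun b hb => mem_bc_iff_dot.2 fun l hl => ?_
    have hrow := row_lemma (P'.map iT * cm KK T.B) T.L (by rw [key, T.LB]; simp) l (fun i => by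
      have e : l ᵥ* T.B = 0 := by
        ext j
        have := hl _ (T.B_mem (Pi.single j 1))
        rwa [Matrix.dotProduct_mulVec, dotProduct_single, mul_one] at this
      rw [key, Matrix.updateRow_mul, T.LB, det_updateRow_one, e]; simp)
    have hb' : b = T.B *ᵥ (T.L *ᵥ b) := by
      have := T.dec b hb
      rwa [Submodule.mem_bot, sub_eq_zero] at this
    rw [hb', ← cm_mulVec, Matrix.mulVec_mulVec, Matrix.dotProduct_mulVec, hrow, zero_dotProduct]
  have h5 : Pres r P' := Pres.of_map iT.toLinearMap iT_injective hP''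
  simpa using Pres.inv (g := P⁻¹) h5

/-- A constant subbundle of a trivial bundle has degree zero. -/
theorem val_zero_of_pres {r : Submodule ℂ (n → ℂ)} (T : SQ ⊥ r k) (A : GL n KK)
    (hA : Pres r (A : Matrix n n KK)) (P : GL n ℂ[X]) (hP : Pres r (P : Matrix n n ℂ[X]))
    (κ : GL n ℂ⟦X⟧)
    (h : (A : Matrix n n KK) * (P : Matrix n n ℂ[X]).map iT = (κ : Matrix n n ℂ⟦X⟧).map iO) :
    HasVal 0 (T.π (A : Matrix n n KK)).det := by
  have hP' : Pres r ((P : Matrix n n ℂ[X]).map iT) := hP.map iT.toLinearMap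
  have hκ : Pres r ((κ : Matrix n n ℂ⟦X⟧).map iO) := h ▸ hA.mul hP'
  have h1 : HasVal 0 (T.π ((κ : Matrix n n ℂ⟦X⟧).map iO)).det :=
    hasVal_det_q_unit (bcA (presA r) KK) (cm KK T.L) (cm KK T.B) T.LB'
      (fun X _ Y hY => T.π_mul (M := X) (M' := Y) (pres_bot X) hY) κ hκ
  have h2 : HasVal 0 (T.π ((P : Matrix n n ℂ[X]).map iT)).det := by
    have hu : IsUnit (T.π (P : Matrix n n ℂ[X])).det :=
      (Matrix.isUnit_iff_isUnit_det _).1 (T.πU P (pres_bot _) hP).isUnit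
    obtain ⟨c, hc, e⟩ := Polynomial.isUnit_iff.1 hu
    rw [← T.π_mapA, det_map_iT, ← e]
    have : iT (Polynomial.C c) = algebraMap ℂ KK c := iT.commutes c
    rw [this]
    exact ⟨ord_algebraMap c, by rw [co_algebraMap, if_pos rfl]; exact hc.ne_zero⟩
  rw [← h, T.π_mul (pres_bot _) hP', Matrix.det_mul] at h1
  obtain ⟨v, hv⟩ := exists_hasVal (left_ne_zero_of_mul h1.ne_zero)
  have := (hv.mul h2).unique h1
  rw [add_zero] at this
  rwa [this] at hv

end Kol68
end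

-- merged part: Pool.Agent.Work.MP_c53807_ag.Birkhoff
section
open scoped PowerSeries Polynomial Matrix

namespace Kol68

namespace BirkAux

variable {n : Type} [Fintype n] [DecidableEq n]

/-- `A` has a Birkhoff factorisation. -/
def Fac (A : Matrix n n KK) : Prop :=
  ∃ (k : GL n ℂ⟦X⟧) (p : GL n ℂ[X]) (a : n → ℤ),
    A = (k : Matrix n n ℂ⟦X⟧).map iO * Matrix.diagonal (fun i => tt ^ a i) *
      (p : Matrix n n ℂ[X]).map iT

theorem Fac.of_mul {A : Matrix n n KK} (E : GL n ℂ[X])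
    (h : Fac (A * (E : Matrix n n ℂ[X]).map iT)) : Fac A := by
  obtain ⟨k, p, a, h⟩ := h
  refine ⟨k, p * E⁻¹, a, ?_⟩
  have e1 : ∀ M N : Matrix n n ℂ[X], (M * N).map iT = M.map iT * N.map iT := fun M N =>
    Matrix.map_mul (f := (iT : ℂ[X] →+* KK))
  rw [Units.val_mul, e1, ← Matrix.mul_assoc, ← h, Matrix.mul_assoc, ← e1, Units.mul_inv,
    Matrix.map_one _ (map_zero _) (map_one _), Matrix.mul_one]

theorem ord_det {A : Matrix n n KK} {a : n → ℤ} (h : ∀ i j, Ord (-a j) (A i j)) :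
    Ord (-∑ j, a j) A.det := by
  rw [Matrix.det_apply', ← Finset.sum_neg_distrib]
  refine ord_sum _ _ fun σ _ => ?_
  have h1 := (ord_algebraMap ((Equiv.Perm.sign σ : ℤ) : ℂ)).mul
    (ord_prod Finset.univ (fun j => -a j) (fun j => A (σ j) j) fun j _ => h _ j)
  rw [zero_add, map_intCast] at h1
  exact h1

theorem fac_of_det {A : Matrix n n KK} {a : n → ℤ} (h : ∀ i j, Ord (-a j) (A i j))
    (hc : (Matrix.of fun i j => co (-a j) (A i j)).det ≠ 0) : Fac A := by
  have h1 : ∀ i j, ∃ f, iO f = tt ^ (-a j) * A i j := fun i j =>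
    Ord.exists_iO (ord_tt_mul_iff.2 (by simpa using h i j))
  choose f hf using h1
  have h2 : IsUnit (Matrix.of f).det := by
    rw [PowerSeries.isUnit_iff_constantCoeff, RingHom.map_det, isUnit_iff_ne_zero]
    convert hc using 2
    ext i j
    have := co_iO_nat 0 (f i j)
    rw [hf, co_tt_zpow_mul] at this
    simpa using this.symm
  refine ⟨Matrix.GeneralLinearGroup.mk'' _ h2, 1, a, ?_⟩
  rw [Units.val_one, Matrix.map_one _ (map_zero _) (map_one _), Matrix.mul_one]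
  ext i j
  rw [Matrix.mul_diagonal, Matrix.map_apply]
  change _ = iO (f i j) * _
  rw [hf, mul_comm, ← mul_assoc, ← zpow_add₀ tt_ne_zero]
  simp

theorem fac_aux (m : ℕ) : ∀ (A : Matrix n n KK) (v : ℤ) (a : n → ℤ), HasVal v A.det →
    (∀ i j, Ord (-a j) (A i j)) → ∑ j, a j + v < m → Fac A := by
  induction m with
  | zero =>
    intro A v a hv h hm
    have := hv.le (ord_det h)
    omega
  | succ m ih =>
    intro A v a hv h hm
    by_cases hc : (Matrix.of fun i j => co (-a j) (A i j)).det = 0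
    swap
    · exact fac_of_det h hc
    obtain ⟨l, hl0, hl⟩ := Matrix.exists_mulVec_eq_zero_iff.2 hc
    obtain ⟨j0, hj0, hmax⟩ := Finset.exists_max_image (Finset.univ.filter fun j => l j ≠ 0) a (by
      obtain ⟨j, hj⟩ := Function.ne_iff.1 hl0
      exact ⟨j, Finset.mem_filter.2 ⟨Finset.mem_univ _, hj⟩⟩)
    have hl1 : l j0 ≠ 0 := (Finset.mem_filter.1 hj0).2
    set E : Matrix n n ℂ[X] := Matrix.updateCol 1 j0
      fun j => Polynomial.C (l j) * Polynomial.X ^ (a j0 - a j).toNat with hE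
    have hdet : E.det = Polynomial.C (l j0) := by
      rw [hE, ← Matrix.cramer_apply, Matrix.cramer_one]
      simp
    have hu : IsUnit E.det := by
      rw [hdet]
      exact Polynomial.isUnit_C.2 (isUnit_iff_ne_zero.2 hl1)
    refine Fac.of_mul (Matrix.GeneralLinearGroup.mk'' E hu) ?_
    change Fac (A * E.map iT)
    refine ih _ v (Function.update a j0 (a j0 - 1)) ?_ (fun i j => ?_) ?_
    · have e1 : (E.map iT).det = algebraMap ℂ KK (l j0) := by
        have := (iT : ℂ[X] →+* KK).map_det E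
        rw [hdet] at this
        change _ = (E.map iT).det at this
        rw [← this]
        exact iT.commutes (l j0)
      rw [Matrix.det_mul, e1]
      have := hv.mul (b := 0) ⟨ord_algebraMap (l j0), by simpa [co_algebraMap] using hl1⟩
      rwa [add_zero] at this
    · rw [Matrix.mul_apply]
      by_cases hj : j = j0
      · subst hj
        rw [Function.update_self]
        have e2 : ∀ k N, co N (A i k * (E.map iT) k j) = l k * co (N + (a j - a k)) (A i k) := by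
          intro k N
          by_cases hk : l k = 0
          · simp [hE, hk]
          · have h3 := hmax k (Finset.mem_filter.2 ⟨Finset.mem_univ _, hk⟩)
            have e3 : (E.map iT) k j = l k • tt ^ (a j - a k) := by
              simp only [hE, Matrix.map_apply, Matrix.updateCol_self, map_mul, map_pow, iT_X]
              rw [Algebra.smul_def, ← zpow_natCast, Int.toNat_of_nonneg (by omega)]
              congr 1
              exact iT.commutes (l k)
            rw [e3, mul_smul_comm, map_smul, mul_comm, co_tt_zpow_mul, smul_eq_mul]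
        intro N hN
        rw [map_sum]
        simp only [e2]
        by_cases hN' : N = -a j
        · have := congrFun hl i
          simp only [Matrix.mulVec, dotProduct, Matrix.of_apply, Pi.zero_apply] at this
          rw [← this]
          refine Finset.sum_congr rfl fun k _ => ?_
          rw [mul_comm, hN']
          congr 3
          ring
        · exact Finset.sum_eq_zero fun k _ => by rw [h i k _ (by omega), mul_zero]
      · rw [Function.update_of_ne hj, Finset.sum_eq_single j]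
        · simpa [hE, Matrix.updateCol_ne hj] using h i j
        · intro k _ hk
          simp [hE, Matrix.updateCol_ne hj, Matrix.one_apply_ne hk]
        · simp
    · rw [Finset.sum_update_of_mem (Finset.mem_univ _)]
      rw [← Finset.add_sum_erase _ _ (Finset.mem_univ j0), Finset.erase_eq] at hm
      push_cast at hm
      omega

end BirkAux

/-- Birkhoff factorisation. -/
theorem birkhoff {n : Type} [Fintype n] [DecidableEq n] (A : GL n KK) :
    ∃ (k : GL n ℂ⟦X⟧) (p : GL n ℂ[X]) (a : n → ℤ),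
      (A : Matrix n n KK) = (k : Matrix n n ℂ⟦X⟧).map iO * Matrix.diagonal (fun i => tt ^ a i) *
        (p : Matrix n n ℂ[X]).map iT := by
  obtain ⟨v, hv⟩ := exists_hasVal (x := (A : Matrix n n KK).det) (Matrix.GeneralLinearGroup.det_ne_zero A)
  choose b hb using fun ij : n × n => exists_ord ((A : Matrix n n KK) ij.1 ij.2)
  obtain ⟨c, hc⟩ := (Set.finite_range b).bddBelow
  exact BirkAux.fac_aux ((∑ _j : n, -c + v).toNat + 1) _ v (fun _ => -c) hv
    (fun i j => (hb (i, j)).mono (by simpa using hc ⟨(i, j), rfl⟩)) (by omega)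

end Kol68
end

-- merged part: Pool.Agent.Work.MP_c53807_ag.RigA1
section
/-!
Cartan subalgebras through a semisimple element, weight bases and root triples.
-/

open LieAlgebra LieModule Module
open scoped Matrix

namespace Kol68.RigA

section Lie

variable {L : Type} [LieRing L] [LieAlgebra ℂ L]

/-- The centraliser of an element. -/
def cent (d : L) : LieSubalgebra ℂ L where
  carrier := {y | ⁅d, y⁆ = 0}
  add_mem' {a b} ha hb := by
    simp only [Set.mem_ofPred_eq] at ha hb ⊢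
    rw [lie_add, ha, hb, add_zero]
  zero_mem' := lie_zero d
  smul_mem' c y hy := by
    simp only [Set.mem_ofPred_eq] at hy ⊢
    rw [lie_smul, hy, smul_zero]
  lie_mem' {a b} ha hb := by
    simp only [Set.mem_ofPred_eq] at ha hb ⊢
    rw [leibniz_lie, ha, hb, zero_lie, lie_zero, add_zero]

theorem mem_cent {d y : L} : y ∈ cent d ↔ ⁅d, y⁆ = 0 := Iff.rfl

variable [Module.Finite ℂ L]

theorem exists_cartan (d : L) (hd : ∀ y : L, ⁅d, ⁅d, y⁆⁆ = 0 → ⁅d, y⁆ = 0) :
    ∃ H : LieSubalgebra ℂ L, H.IsCartanSubalgebra ∧ d ∈ H := by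
  obtain ⟨x, hx⟩ := exists_isCartanSubalgebra_engel ℂ (cent d)
  set H' := LieSubalgebra.engel ℂ x
  have hdc : d ∈ cent d := mem_cent.2 (lie_self d)
  have hdH : (⟨d, hdc⟩ : cent d) ∈ H' := by
    rw [← hx.self_normalizing, LieSubalgebra.mem_normalizer_iff]
    intro y _
    have : ⁅(⟨d, hdc⟩ : cent d), y⁆ = 0 := Subtype.ext y.2
    rw [this]; exact H'.zero_mem
  refine ⟨H'.map (cent d).incl, ⟨?_, ?_⟩, ⟨_, hdH, rfl⟩⟩
  · exact (H'.equivMapOfInjective (cent d).incl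
      Subtype.val_injective).nilpotent_iff_equiv_nilpotent.1 hx.nilpotent
  · refine le_antisymm (fun y hy => ?_) (LieSubalgebra.le_normalizer _)
    rw [LieSubalgebra.mem_normalizer_iff'] at hy
    obtain ⟨z, -, hz⟩ := hy d ⟨_, hdH, rfl⟩
    have hy1 : y ∈ cent d := by
      refine hd y ?_
      rw [← hz]; exact z.2
    refine ⟨⟨y, hy1⟩, ?_, rfl⟩
    change (⟨y, hy1⟩ : cent d) ∈ H'
    rw [← hx.self_normalizing, LieSubalgebra.mem_normalizer_iff']
    intro u hu
    obtain ⟨v, hv, hv'⟩ := hy u ⟨u, hu, rfl⟩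
    have : ⁅u, (⟨y, hy1⟩ : cent d)⁆ = v := Subtype.ext hv'.symm
    rw [this]; exact hv

variable {M : Type} [AddCommGroup M] [Module ℂ M] [LieRingModule L M] [LieModule ℂ L M]
  [Module.Finite ℂ M]

omit [Module.Finite ℂ L] in
theorem int_of_triple {h e f : L} (t : IsSl2Triple h e f) (he : IsNilpotent (toEnd ℂ L M e))
    {c : ℂ} {v : M} (hv : v ≠ 0) (hc : v ∈ (toEnd ℂ L M h).maxGenEigenspace c) :
    ∃ k : ℤ, c = k := by
  have h1 : (toEnd ℂ L M h).HasEigenvalue c := by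
    have : (toEnd ℂ L M h).HasUnifEigenvalue c ⊤ := by
      intro h0
      apply hv
      have : v ∈ (toEnd ℂ L M h).genEigenspace c ⊤ := hc
      rwa [h0, Submodule.mem_bot] at this
    exact Module.End.HasUnifEigenvalue.lt (by norm_num) this
  obtain ⟨m, hm⟩ := h1.exists_hasEigenvector
  have hex : ∃ k : ℕ, ((toEnd ℂ L M e) ^ k) m = 0 := by
    obtain ⟨k, hk⟩ := he
    exact ⟨k, by rw [hk]; rfl⟩
  obtain ⟨k, hk, hk'⟩ := Nat.exists_not_and_succ_of_not_zero_of_exists hm.2 hex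
  have P : t.HasPrimitiveVectorWith (((toEnd ℂ L M e) ^ k) m) (c + 2 * k) :=
    { ne_zero := hk
      lie_h := t.lie_h_pow_toEnd_e hm.apply_eq_smul k
      lie_e := by rwa [IsSl2Triple.lie_e_pow_toEnd_e k] }
  obtain ⟨j, hj⟩ := P.exists_nat
  exact ⟨j - 2 * k, by push_cast; linear_combination hj⟩

omit [Module.Finite ℂ L] in
theorem exists_basis_weight (H : LieSubalgebra ℂ L) [LieRing.IsNilpotent H] {n : Type}
    [Fintype n] (hn : Fintype.card n = finrank ℂ M) :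
    ∃ (b : Basis n ℂ M) (μ : n → H →ₗ[ℂ] ℂ),
      ∀ (x : H) (i : n), b i ∈ (toEnd ℂ L M x).maxGenEigenspace (μ i x) := by
  classical
  obtain ⟨B, hB, hsp, hli⟩ := exists_linearIndependent ℂ
    (⋃ χ : Weight ℂ H M, (genWeightSpace M (χ : H → ℂ) : Set M))
  have htop : Submodule.span ℂ B = ⊤ := by
    rw [hsp, Submodule.span_iUnion]
    have := iSup_genWeightSpace_eq_top' ℂ H M
    rw [← LieSubmodule.toSubmodule_inj, LieSubmodule.iSup_toSubmodule,
      LieSubmodule.top_toSubmodule] at this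
    rw [← this]
    exact iSup_congr fun χ => Submodule.span_eq (genWeightSpace M (χ : H → ℂ)).toSubmodule
  let b₀ : Basis B ℂ M := Basis.mk hli (by rw [Subtype.range_coe, htop])
  have : Finite B := hli.finite
  let _ : Fintype B := Fintype.ofFinite B
  have e : B ≃ n := Fintype.equivOfCardEq (by rw [hn, finrank_eq_card_basis b₀])
  have hχ : ∀ i : n, ∃ χ : Weight ℂ H M, (e.symm i : M) ∈ genWeightSpace M (χ : H → ℂ) :=
    fun i => by simpa using hB (e.symm i).2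
  choose χ hχ using hχ
  refine ⟨b₀.reindex e, fun i => (χ i).toLinear, fun x i => ?_⟩
  rw [Basis.reindex_apply, Basis.mk_apply, Module.End.mem_maxGenEigenspace]
  exact (mem_genWeightSpace M _ _).1 (hχ i) x

theorem exists_triples [IsKilling ℂ L] (H : LieSubalgebra ℂ L) [H.IsCartanSubalgebra] :
    ∃ S : Set H, Submodule.span ℂ S = ⊤ ∧ ∀ h ∈ S, ∃ e f : L, IsSl2Triple (h : L) e f ∧
      IsNilpotent (toEnd ℂ L M e) ∧ IsNilpotent (toEnd ℂ L M f) := by
  refine ⟨{x | ∃ α : Weight ℂ H L, α.IsNonZero ∧ x = IsKilling.coroot α}, ?_, ?_⟩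
  · have := IsKilling.biSup_corootSpace_eq_top H
    rw [← LieSubmodule.toSubmodule_inj, LieSubmodule.top_toSubmodule] at this
    rw [eq_top_iff, ← this]
    simp only [LieSubmodule.iSup_toSubmodule, IsKilling.coe_corootSpace_eq_span_singleton]
    refine iSup₂_le fun α hα => Submodule.span_mono ?_
    rintro _ rfl
    exact ⟨α, hα, rfl⟩
  · rintro _ ⟨α, hα, rfl⟩
    obtain ⟨h, e, f, t, he, hf⟩ := IsKilling.exists_isSl2Triple_of_weight_isNonZero hα
    have := t.h_eq_coroot hα he hf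
    subst this
    exact ⟨e, f, t, isNilpotent_toEnd_of_mem_rootSpace M H hα he,
      isNilpotent_toEnd_of_mem_rootSpace M H (neg_ne_zero.2 hα) hf⟩

end Lie

attribute [local instance 100] LieRing.ofAssociativeRing

variable {n : Type} [Fintype n] [DecidableEq n]

/-- The `j`-th column of `Q` is a generalised eigenvector of `x` for `a j`. -/
def Cols (Q : GL n ℂ) (x : Matrix n n ℂ) (a : n → ℂ) : Prop :=
  ∀ j, (Q : Matrix n n ℂ) *ᵥ Pi.single j 1 ∈
    Module.End.maxGenEigenspace (Matrix.toLin' x : Module.End ℂ (n → ℂ)) (a j)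

theorem lie_data [Nonempty n] (s : Submodule ℂ (Matrix n n ℂ))
    (hs : ∀ x ∈ s, ∀ y ∈ s, x * y - y * x ∈ s)
    (hirr : ∀ W : Submodule ℂ (n → ℂ), (∀ x ∈ s, ∀ v ∈ W, x *ᵥ v ∈ W) → W = ⊥ ∨ W = ⊤)
    (htr : ∀ x ∈ s, x.trace = 0) (d : Matrix n n ℂ) (hd : d ∈ s)
    (hss : ∀ y : Matrix n n ℂ, d * (d * y - y * d) - (d * y - y * d) * d = 0 →
      d * y - y * d = 0) :
    ∃ (V : Type) (_ : AddCommGroup V) (_ : Module ℂ V) (ι : V → Matrix n n ℂ) (d' : V)
      (Q : GL n ℂ) (μ : n → V →ₗ[ℂ] ℂ) (S : Set V), ι d' = d ∧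
      (∀ x, Cols Q (ι x) fun i => μ i x) ∧ Submodule.span ℂ S = ⊤ ∧
      ∀ h ∈ S, (∀ i, ∃ k : ℤ, μ i h = k) ∧ ∃ e ∈ s, ∃ f ∈ s, IsNilpotent e ∧ IsNilpotent f ∧
        e * f - f * e = ι h ∧ ι h * e - e * ι h = 2 • e ∧ ι h * f - f * ι h = -(2 • f) := by
  let L : LieSubalgebra ℂ (Matrix n n ℂ) := { s with lie_mem' := fun {x y} hx hy => hs x hx y hy }
  have hfin : Module.Finite ℂ L := inferInstanceAs (Module.Finite ℂ s)
  have hI : LieModule.IsIrreducible ℂ L (n → ℂ) := LieModule.IsIrreducible.mk fun N hN => by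
    rcases hirr N.toSubmodule (fun x hx v hv => N.lie_mem (x := (⟨x, hx⟩ : L)) hv) with h | h
    · exact absurd ((LieSubmodule.toSubmodule_eq_bot N).1 h) hN
    · exact (LieSubmodule.toSubmodule_eq_top N).1 h
  have hE : ∀ x : L, toEnd ℂ L (n → ℂ) x = Matrix.toLin' (x : Matrix n n ℂ) := fun x => by
    ext v i; simp
  have hR : HasTrivialRadical ℂ L :=
    hasTrivialRadical_of_isIrreducible_of_isFaithful ℂ L (n → ℂ) fun x => by
      rw [hE, Matrix.trace_toLin'_eq]; exact htr x x.2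
  obtain ⟨H, hH, hdH⟩ := exists_cartan (L := L) ⟨d, hd⟩ fun y hy =>
    Subtype.ext (hss y (congrArg Subtype.val hy))
  obtain ⟨b, μ, hb⟩ := exists_basis_weight (M := n → ℂ) H (n := n) (by simp)
  obtain ⟨S, hS, hS'⟩ := exists_triples (M := n → ℂ) H
  let Q : GL n ℂ := ⟨(Pi.basisFun ℂ n).toMatrix b, b.toMatrix (Pi.basisFun ℂ n),
    Basis.toMatrix_mul_toMatrix_flip _ _, Basis.toMatrix_mul_toMatrix_flip _ _⟩
  have hQ : ∀ j, (Q : Matrix n n ℂ) *ᵥ Pi.single j 1 = b j := fun j => by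
    ext i; simp [Q, Basis.toMatrix_apply]
  have hnil : ∀ x : L, IsNilpotent (toEnd ℂ L (n → ℂ) x) → IsNilpotent (x : Matrix n n ℂ) :=
    fun x hx => by
      rw [hE] at hx
      exact (IsNilpotent.map_iff (f := Matrix.toLinAlgEquiv' (R := ℂ) (n := n))
        (Matrix.toLinAlgEquiv' (R := ℂ) (n := n)).injective).1 hx
  refine ⟨H, inferInstance, inferInstance, fun x => ((x : L) : Matrix n n ℂ), ⟨_, hdH⟩, Q, μ, S,
    rfl, fun x j => ?_, hS, fun h hh => ?_⟩
  · rw [hQ, ← hE]; exact hb x j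
  · obtain ⟨e, f, t, he, hf⟩ := hS' h hh
    refine ⟨fun i => int_of_triple t he (b.ne_zero i) (hb h i), e, e.2, f, f.2, hnil e he,
      hnil f hf, congrArg Subtype.val t.lie_e_f, congrArg Subtype.val t.lie_h_e_nsmul,
      congrArg Subtype.val t.lie_h_f_nsmul⟩

end Kol68.RigA
end

-- merged part: Pool.Agent.Work.MP_c53807_ag.RigA
section
/-!
A power of the loop `t ^ d` is a product of unipotent loops.
-/

open scoped Matrix PowerSeries Polynomial

namespace Kol68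

namespace RigA

variable {n : Type} [Fintype n] [DecidableEq n]

/-- The generalised eigenspace of a matrix. -/
noncomputable abbrev GE (x : Matrix n n ℂ) (c : ℂ) : Submodule ℂ (n → ℂ) :=
  Module.End.maxGenEigenspace (Matrix.toLin' x : Module.End ℂ (n → ℂ)) c

theorem mulVec_mem (A : Matrix n n ℂ) (T : Submodule ℂ (n → ℂ)) (z : n → ℂ)
    (h : ∀ j, z j ≠ 0 → A *ᵥ Pi.single j 1 ∈ T) : A *ᵥ z ∈ T := by
  have e : z = ∑ j, z j • (Pi.single j 1 : n → ℂ) := by
    ext i; simp [Finset.sum_apply, Pi.single_apply]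
  rw [e, Matrix.mulVec_sum]
  refine T.sum_mem fun j _ => ?_
  rw [Matrix.mulVec_smul]
  by_cases hj : z j = 0
  · rw [hj, zero_smul]; exact T.zero_mem
  · exact T.smul_mem _ (h j hj)

theorem coord_eq_zero {Q : GL n ℂ} {x : Matrix n n ℂ} {a : n → ℂ} (hQ : Cols Q x a) {c : ℂ}
    {v : n → ℂ} (hv : v ∈ GE x c) {i : n} (hi : a i ≠ c) :
    (((Q⁻¹ : GL n ℂ) : Matrix n n ℂ) *ᵥ v) i = 0 := by
  classical
  set y := ((Q⁻¹ : GL n ℂ) : Matrix n n ℂ) *ᵥ v with hy
  let z : n → ℂ := fun j => if a j = a i then y j else 0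
  have hv' : (Q : Matrix n n ℂ) *ᵥ y = v := by
    rw [hy, Matrix.mulVec_mulVec, Units.mul_inv, Matrix.one_mulVec]
  have h1 : (Q : Matrix n n ℂ) *ᵥ z ∈ GE x (a i) := mulVec_mem _ _ _ fun j hj => by
    have : a j = a i := by
      by_contra h; exact hj (if_neg h)
    rw [← this]; exact hQ j
  have h2 : (Q : Matrix n n ℂ) *ᵥ (y - z) ∈ ⨆ c', ⨆ (_ : c' ≠ a i), GE x c' :=
    mulVec_mem _ _ _ fun j hj => by
      have : a j ≠ a i := by
        intro h; apply hj; simp [z, h]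
      exact Submodule.mem_iSup_of_mem (a j) (Submodule.mem_iSup_of_mem this (hQ j))
  have h3 : v ∈ ⨆ c', ⨆ (_ : c' ≠ a i), GE x c' :=
    Submodule.mem_iSup_of_mem c (Submodule.mem_iSup_of_mem hi.symm hv)
  have h4 : (Q : Matrix n n ℂ) *ᵥ z ∈ ⨆ c', ⨆ (_ : c' ≠ a i), GE x c' := by
    have := Submodule.sub_mem _ h3 h2
    rwa [Matrix.mulVec_sub, hv', sub_sub_cancel] at this
  have h5 : (Q : Matrix n n ℂ) *ᵥ z = 0 :=
    Submodule.disjoint_def.1 (Module.End.independent_maxGenEigenspace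
      (Matrix.toLin' x : Module.End ℂ (n → ℂ)) (a i)) _ h1 h4
  have h6 : z = 0 := by
    have := congrArg (fun u => ((Q⁻¹ : GL n ℂ) : Matrix n n ℂ) *ᵥ u) h5
    simpa [Matrix.mulVec_mulVec] using this
  simpa [z] using congrFun h6 i

theorem mulVec_mem_GE {x x' M : Matrix n n ℂ} {c c' ε : ℂ}
    (h : x' * M - c' • M = ε • (M * x - c • M)) {v : n → ℂ} (hv : v ∈ GE x c) :
    M *ᵥ v ∈ GE x' c' := by
  rw [Module.End.mem_maxGenEigenspace] at hv ⊢
  obtain ⟨k, hk⟩ := hv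
  refine ⟨k, ?_⟩
  have key : ∀ (k : ℕ) (v : n → ℂ),
      (((Matrix.toLin' x' : Module.End ℂ (n → ℂ)) - c' • 1) ^ k) (M *ᵥ v) =
        ε ^ k • M *ᵥ ((((Matrix.toLin' x : Module.End ℂ (n → ℂ)) - c • 1) ^ k) v) := by
    intro k
    induction k with
    | zero => intro v; simp
    | succ k ih =>
      intro v
      have h1 : ((Matrix.toLin' x' : Module.End ℂ (n → ℂ)) - c' • 1) (M *ᵥ v) =
          ε • M *ᵥ (((Matrix.toLin' x : Module.End ℂ (n → ℂ)) - c • 1) v) := by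
        have := congrArg (· *ᵥ v) h
        simpa [Matrix.sub_mulVec, Matrix.smul_mulVec, Matrix.mulVec_sub, Matrix.mulVec_smul,
          Matrix.mulVec_mulVec] using this
      rw [pow_succ, Module.End.mul_apply, h1, map_smul, ih, pow_succ, pow_succ,
        Module.End.mul_apply, smul_smul, mul_comm]
  rw [key, hk, Matrix.mulVec_zero, smul_zero]

theorem dgR_comm {Q₁ Q₂ : GL n ℂ} {x₁ : Matrix n n ℂ} {a₁ : n → ℂ} (h₁ : Cols Q₁ x₁ a₁)
    (M : Matrix n n ℂ) (σ : n → ℂ)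
    (hM : ∀ j, M *ᵥ ((Q₂ : Matrix n n ℂ) *ᵥ Pi.single j 1) ∈ GE x₁ (σ j)) (δ ε : n → KK)
    (h : ∀ i j, a₁ i = σ j → δ i = ε j) : dgR Q₁ δ * cm KK M = cm KK M * dgR Q₂ ε := by
  set M' := ((Q₁⁻¹ : GL n ℂ) : Matrix n n ℂ) * M * (Q₂ : Matrix n n ℂ) with hM'
  have e1 : Matrix.diagonal δ * cm KK M' = cm KK M' * Matrix.diagonal ε := by
    ext i j
    rw [Matrix.diagonal_mul, Matrix.mul_diagonal, mul_comm]
    by_cases hij : a₁ i = σ j
    · rw [h i j hij]
    · have := coord_eq_zero h₁ (hM j) hij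
      rw [Matrix.mulVec_mulVec, Matrix.mulVec_mulVec, ← hM', Matrix.mulVec_single_one] at this
      have h0 : M' i j = 0 := this
      rw [cm_apply, h0, map_zero, zero_mul, zero_mul]
  have e2 : M = (Q₁ : Matrix n n ℂ) * M' * ((Q₂⁻¹ : GL n ℂ) : Matrix n n ℂ) := by
    rw [hM']
    simp only [← Matrix.mul_assoc, Units.mul_inv, Matrix.one_mul]
    rw [Matrix.mul_assoc, Units.mul_inv, Matrix.mul_one]
  rw [e2, cm_mul, cm_mul, dgR, dgR]
  simp only [Matrix.mul_assoc]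
  rw [← Matrix.mul_assoc (cm KK ((Q₁⁻¹ : GL n ℂ) : Matrix n n ℂ)), cm_inv_mul, Matrix.one_mul,
    ← Matrix.mul_assoc (cm KK ((Q₂⁻¹ : GL n ℂ) : Matrix n n ℂ)), cm_inv_mul, Matrix.one_mul,
    ← Matrix.mul_assoc (Matrix.diagonal δ), e1, Matrix.mul_assoc]

theorem exp_mul_eq {x y y₁ y₂ : Matrix n n ℂ} (hx : IsNilpotent x) (h₁ : x * y - y * x = y₁)
    (h₂ : x * y₁ - y₁ * x = y₂) (h₃ : x * y₂ - y₂ * x = 0) :
    IsNilpotent.exp x * y = (y + y₁ + (2 : ℂ)⁻¹ • y₂) * IsNilpotent.exp x := by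
  obtain ⟨k, hk⟩ := id hx
  have hk' : (-x) ^ k = 0 := by rw [neg_pow, hk, mul_zero]
  let A : Module.End ℂ (Matrix n n ℂ) := LinearMap.mulLeft ℂ x
  let B : Module.End ℂ (Matrix n n ℂ) := LinearMap.mulRight ℂ (-x)
  have hA : A ^ k = 0 := by rw [LinearMap.pow_mulLeft, hk, LinearMap.mulLeft_zero_eq_zero]
  have hB : B ^ k = 0 := by rw [LinearMap.pow_mulRight, hk', LinearMap.mulRight_zero_eq_zero]
  have hAB : Commute A B := LinearMap.commute_mulLeft_right x (-x)
  have eA : ∀ z, IsNilpotent.exp A z = IsNilpotent.exp x * z := fun z => by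
    rw [IsNilpotent.exp_eq_sum hA, IsNilpotent.exp_eq_sum hk, Finset.sum_mul, LinearMap.sum_apply]
    refine Finset.sum_congr rfl fun i _ => ?_
    rw [LinearMap.smul_apply, LinearMap.pow_mulLeft, LinearMap.mulLeft_apply, smul_mul_assoc]
  have eB : ∀ z, IsNilpotent.exp B z = z * IsNilpotent.exp (-x) := fun z => by
    rw [IsNilpotent.exp_eq_sum hB, IsNilpotent.exp_eq_sum hk', Finset.mul_sum, LinearMap.sum_apply]
    refine Finset.sum_congr rfl fun i _ => ?_
    rw [LinearMap.smul_apply, LinearMap.pow_mulRight, LinearMap.mulRight_apply, mul_smul_comm]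
  have hD : ∀ z, (A + B) z = x * z - z * x := fun z => by
    simp [A, B, sub_eq_add_neg]
  have h3 : ((A + B) ^ 3) • y = 0 := by
    change ((A + B) ^ 3) y = 0
    rw [pow_three, Module.End.mul_apply, Module.End.mul_apply, hD y, h₁, hD y₁, h₂, hD, h₃]
  have h4 := IsNilpotent.exp_smul_eq_sum h3 (hAB.isNilpotent_add ⟨k, hA⟩ ⟨k, hB⟩)
  rw [IsNilpotent.exp_add_of_commute hAB ⟨k, hA⟩ ⟨k, hB⟩] at h4
  have h5 : IsNilpotent.exp x * (y * IsNilpotent.exp (-x)) = y + y₁ + (2 : ℂ)⁻¹ • y₂ := by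
    rw [← eB, ← eA]
    refine h4.trans ?_
    have e2 : ((A + B) ^ 2) • y = y₂ := by
      change ((A + B) ^ 2) y = _
      rw [pow_two, Module.End.mul_apply, hD y, h₁, hD, h₂]
    have e1 : ((A + B) ^ 1) • y = y₁ := by
      change ((A + B) ^ 1) y = _
      rw [pow_one, hD, h₁]
    rw [Finset.sum_range_succ, Finset.sum_range_succ, Finset.sum_range_one, e1, e2, pow_zero,
      one_smul]
    ext i j
    simp [Rat.smul_def]
  rw [← h5, Matrix.mul_assoc, Matrix.mul_assoc, IsNilpotent.exp_neg_mul_exp_self hx,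
    Matrix.mul_one]

theorem weyl_mul {h e f : Matrix n n ℂ} (he : IsNilpotent e) (hf : IsNilpotent f)
    (hef : e * f - f * e = h) (hhe : h * e - e * h = 2 • e) (hhf : h * f - f * h = -(2 • f)) :
    IsNilpotent.exp e * IsNilpotent.exp (-f) * IsNilpotent.exp e * h =
      -h * (IsNilpotent.exp e * IsNilpotent.exp (-f) * IsNilpotent.exp e) := by
  have hhe' : e * h = h * e - (e + e) := by rw [← two_nsmul, ← hhe]; abel
  have hhf' : f * h = h * f + (f + f) := by
    rw [← two_nsmul, ← neg_neg (2 • f), ← hhf]; abel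
  have hef' : f * e = e * f - h := by rw [← hef]; abel
  have s1 := exp_mul_eq (y := h) (y₁ := -(e + e)) (y₂ := 0) he (by rw [hhe']; abel)
    (by noncomm_ring) (by simp)
  have s2 := exp_mul_eq (y := h - (e + e)) (y₁ := -(f + f) - (h + h)) (y₂ := (2 : ℂ) • (f + f))
    hf.neg (by simp only [neg_mul, mul_neg, mul_sub, sub_mul, mul_add, add_mul, hhf', hef']; abel)
    (by
      rw [two_smul]
      simp only [neg_mul, mul_neg, mul_sub, sub_mul, mul_add, add_mul, hhf']; abel)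
    (by rw [two_smul]; noncomm_ring)
  have s3 := exp_mul_eq (y := -h - (e + e)) (y₁ := e + e) (y₂ := 0) he
    (by simp only [neg_mul, mul_neg, mul_sub, sub_mul, mul_add, add_mul, hhe']; abel)
    (by noncomm_ring) (by simp)
  have t1 : h + -(e + e) + (2 : ℂ)⁻¹ • (0 : Matrix n n ℂ) = h - (e + e) := by
    rw [smul_zero]; abel
  have t2 : h - (e + e) + (-(f + f) - (h + h)) + (2 : ℂ)⁻¹ • (2 : ℂ) • (f + f) =
      -h - (e + e) := by
    rw [smul_smul, inv_mul_cancel₀ two_ne_zero, one_smul]; abel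
  have t3 : -h - (e + e) + (e + e) + (2 : ℂ)⁻¹ • (0 : Matrix n n ℂ) = -h := by
    rw [smul_zero]; abel
  rw [t1] at s1; rw [t2] at s2; rw [t3] at s3
  rw [Matrix.mul_assoc, s1, ← Matrix.mul_assoc, Matrix.mul_assoc (IsNilpotent.exp e), s2,
    ← Matrix.mul_assoc, s3]
  simp only [Matrix.mul_assoc]

theorem nil_smul {e : Matrix n n ℂ} (he : IsNilpotent e) (c : KK) : IsNilpotent (c • cm KK e) := by
  obtain ⟨k, hk⟩ := he
  exact ⟨k, by rw [smul_pow, ← cm_pow, hk, cm_zero, smul_zero]⟩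

theorem coe_nexp_one {e : Matrix n n ℂ} (he : IsNilpotent e) :
    (nexp (nil_smul he 1) : Matrix n n KK) = cm KK (IsNilpotent.exp e) := by
  obtain ⟨k, hk⟩ := id he
  rw [coe_nexp _ (k := k) (by rw [one_smul, ← cm_pow, hk, cm_zero]), IsNilpotent.exp_eq_sum hk,
    cm_sum]
  refine Finset.sum_congr rfl fun i _ => ?_
  have e1 : ((i.factorial : ℚ)⁻¹ • e ^ i) = ((i.factorial : ℂ)⁻¹) • e ^ i := by
    ext a b
    simp [Rat.smul_def]
  rw [one_smul, ← cm_pow, e1, cm_smul, algebraMap_smul]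

theorem mul_nexp {T a b : Matrix n n KK} (ha : IsNilpotent a) (hb : IsNilpotent b)
    (h : T * a = b * T) : T * (nexp ha : Matrix n n KK) = (nexp hb : Matrix n n KK) * T := by
  obtain ⟨k, hk⟩ := id ha
  obtain ⟨l, hl⟩ := id hb
  rw [coe_nexp ha (k := k + l) (by rw [pow_add, hk, zero_mul]),
    coe_nexp hb (k := k + l) (by rw [pow_add, hl, mul_zero]), Finset.mul_sum, Finset.sum_mul]
  refine Finset.sum_congr rfl fun i _ => ?_
  rw [mul_smul_comm, smul_mul_assoc, (SemiconjBy.pow_right h i).eq]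

theorem nexp_mem {s : Submodule ℂ (Matrix n n ℂ)} {e : Matrix n n ℂ} (he : IsNilpotent e)
    (hs : e ∈ s) (c : KK) : nexp (nil_smul he c) ∈ uniG s :=
  Subgroup.subset_closure ⟨c, e, nil_smul he c, hs, he, rfl⟩

theorem conj_nexp_mem {s : Submodule ℂ (Matrix n n ℂ)} {e : Matrix n n ℂ} (he : IsNilpotent e)
    (hs : e ∈ s) (T : GL n KK) (τ : KK)
    (h : (T : Matrix n n KK) * cm KK e = τ • (cm KK e * (T : Matrix n n KK))) :
    T * nexp (nil_smul he 1) * T⁻¹ ∈ uniG s := by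
  have : T * nexp (nil_smul he 1) * T⁻¹ = nexp (nil_smul he τ) := by
    rw [mul_inv_eq_iff_eq_mul]
    refine Units.ext ?_
    rw [Units.val_mul, Units.val_mul]
    exact mul_nexp _ _ (by rw [one_smul, h, smul_mul_assoc])
  rw [this]; exact nexp_mem he hs τ

theorem tp_add (Q : GL n ℂ) (a b : n → ℤ) : tp Q (a + b) = tp Q a * tp Q b := by
  refine Units.ext ?_
  rw [Units.val_mul, coe_tp, coe_tp, coe_tp, dgR_mul]
  congr 1
  ext i
  simp [zpow_add₀ tt_ne_zero]

theorem tp_zero (Q : GL n ℂ) : tp Q 0 = 1 := by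
  have := tp_add Q 0 0
  rw [add_zero] at this
  exact (mul_eq_left.1 this.symm)

theorem tp_neg (Q : GL n ℂ) (a : n → ℤ) : tp Q (-a) = (tp Q a)⁻¹ := by
  rw [eq_inv_iff_mul_eq_one, ← tp_add, neg_add_cancel, tp_zero]

theorem tp_two_mem {s : Submodule ℂ (Matrix n n ℂ)} {h e f : Matrix n n ℂ} (hes : e ∈ s)
    (hfs : f ∈ s) (he : IsNilpotent e) (hf : IsNilpotent f)
    (hef : e * f - f * e = h) (hhe : h * e - e * h = 2 • e) (hhf : h * f - f * h = -(2 • f))
    {Q : GL n ℂ} {a : n → ℤ} (hQ : Cols Q h fun i => (a i : ℂ)) : tp Q (a + a) ∈ uniG s := by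
  have shift : ∀ (M : Matrix n n ℂ) (k : ℤ), h * M - M * h = (k : ℂ) • M →
      (tp Q a : Matrix n n KK) * cm KK M = tt ^ k • (cm KK M * (tp Q a : Matrix n n KK)) := by
    intro M k hM
    rw [coe_tp, ← mul_smul_comm, ← dgR_smul]
    refine dgR_comm hQ M (fun j => (a j : ℂ) + k) (fun j => mulVec_mem_GE (ε := 1) ?_ (hQ j)) _ _
      fun i j hij => ?_
    · rw [add_smul, ← hM, one_smul]; abel
    · have : a i = a j + k := by exact_mod_cast hij
      rw [this, zpow_add₀ tt_ne_zero, mul_comm]; rfl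
  have h1 := conj_nexp_mem he hes (tp Q a) _
    (shift e 2 (by rw [hhe, two_nsmul]; push_cast; rw [two_smul]))
  have h2 := conj_nexp_mem hf.neg (s.neg_mem hfs) (tp Q a) _
    (shift (-f) (-2) (by
      rw [mul_neg, neg_mul, neg_sub_neg, ← neg_sub, hhf, two_nsmul]
      push_cast; rw [neg_smul_neg, two_smul, neg_neg]))
  set W : GL n KK := nexp (nil_smul he 1) * nexp (nil_smul hf.neg 1) * nexp (nil_smul he 1)
    with hW
  have hWs : W ∈ uniG s := mul_mem (mul_mem (nexp_mem he hes 1) (nexp_mem hf.neg (s.neg_mem hfs) 1))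
    (nexp_mem he hes 1)
  have hW' : tp Q a * W * (tp Q a)⁻¹ ∈ uniG s := by
    have := mul_mem (mul_mem h1 h2) h1
    convert this using 1
    rw [hW]; group
  have hc : (W : Matrix n n KK) =
      cm KK (IsNilpotent.exp e * IsNilpotent.exp (-f) * IsNilpotent.exp e) := by
    rw [hW, Units.val_mul, Units.val_mul, coe_nexp_one he, coe_nexp_one hf.neg, cm_mul,
      cm_mul]
  have hTW : tp Q a * W = W * (tp Q a)⁻¹ := by
    refine Units.ext ?_
    rw [Units.val_mul (tp Q a), Units.val_mul W, coe_tp_inv, coe_tp, hc]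
    refine dgR_comm hQ _ (fun j => -(a j : ℂ)) (fun j => mulVec_mem_GE (ε := -1) ?_ (hQ j)) _ _
      fun i j hij => ?_
    · rw [weyl_mul he hf hef hhe hhf]; simp [add_comm]
    · have : a i = -a j := by exact_mod_cast hij
      rw [this]
  have : tp Q (a + a) = tp Q a * W * (tp Q a)⁻¹ * W⁻¹ := by
    rw [tp_add, mul_assoc (tp Q a) W, ← hTW]; group
  rw [this]
  exact mul_mem hW' (inv_mem hWs)

omit [Fintype n] [DecidableEq n] in
theorem exists_nsmul_mem (Λ : AddSubgroup (n → ℤ)) {V : Type} [AddCommGroup V] [Module ℂ V]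
    (μ : n → V →ₗ[ℂ] ℂ) (S : Set V) (hS : Submodule.span ℂ S = ⊤)
    (h : ∀ x ∈ S, ∃ a : n → ℤ, a + a ∈ Λ ∧ ∀ i, μ i x = a i) (d : V) (w : n → ℤ)
    (hw : ∀ i, μ i d = w i) : ∃ r : ℕ, 0 < r ∧ (r : ℤ) • w ∈ Λ := by
  have key : ∀ x ∈ Submodule.span ℂ S, ∀ g : ℂ →ₗ[ℚ] ℚ,
      ∃ r : ℕ, 0 < r ∧ ∃ a ∈ Λ, ∀ i, (r : ℚ) * g (μ i x) = a i := by
    intro x hx
    induction hx using Submodule.span_induction with
    | mem x hx =>
      intro g
      obtain ⟨a, ha, ha'⟩ := h x hx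
      refine ⟨2 * (g 1).den, by have := (g 1).den_pos; omega, (g 1).num • (a + a),
        Λ.zsmul_mem ha _, fun i => ?_⟩
      have e1 : g (a i : ℂ) = a i * g 1 := by
        have : (a i : ℂ) = (a i : ℚ) • (1 : ℂ) := by simp [Rat.smul_def]
        rw [this, map_smul, smul_eq_mul]
      have e2 := Rat.mul_den_eq_num (g 1)
      rw [ha', e1]
      simp only [Pi.smul_apply, Pi.add_apply, smul_eq_mul]
      push_cast
      rw [← e2]; ring
    | zero => exact fun g => ⟨1, one_pos, 0, Λ.zero_mem, fun i => by simp⟩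
    | add x y _ _ hx hy =>
      intro g
      obtain ⟨r, hr, a, ha, ha'⟩ := hx g
      obtain ⟨r', hr', b, hb, hb'⟩ := hy g
      refine ⟨r * r', Nat.mul_pos hr hr', (r' : ℤ) • a + (r : ℤ) • b,
        Λ.add_mem (Λ.zsmul_mem ha _) (Λ.zsmul_mem hb _), fun i => ?_⟩
      simp only [map_add, Pi.smul_apply, Pi.add_apply, smul_eq_mul]
      push_cast
      rw [← ha', ← hb']; ring
    | smul c x _ hx =>
      intro g
      obtain ⟨r, hr, a, ha, ha'⟩ := hx (g ∘ₗ LinearMap.mulLeft ℚ c)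
      exact ⟨r, hr, a, ha, fun i => by rw [← ha' i, map_smul]; rfl⟩
  obtain ⟨g, hg⟩ := Module.Projective.exists_dual_eq_one ℚ (one_ne_zero (α := ℂ))
  obtain ⟨r, hr, a, ha, ha'⟩ := key d (hS ▸ Submodule.mem_top) g
  refine ⟨r, hr, ?_⟩
  convert ha using 1
  ext i
  have e1 : g (w i : ℂ) = w i := by
    have : (w i : ℂ) = (w i : ℚ) • (1 : ℂ) := by simp [Rat.smul_def]
    rw [this, map_smul, hg, smul_eq_mul, mul_one]
  have := ha' i
  rw [hw, e1] at this
  simp only [Pi.smul_apply, smul_eq_mul]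
  exact_mod_cast this

theorem cols_dg (Q : GL n ℂ) (δ : n → ℂ) : Cols Q (dg Q δ) δ := fun j => by
  rw [Module.End.mem_maxGenEigenspace]
  refine ⟨1, ?_⟩
  have : dg Q δ *ᵥ ((Q : Matrix n n ℂ) *ᵥ Pi.single j 1) =
      δ j • ((Q : Matrix n n ℂ) *ᵥ Pi.single j 1) := by
    rw [Matrix.mulVec_mulVec, dg_eq, Matrix.mul_assoc, Units.inv_mul, Matrix.mul_one,
      ← Matrix.mulVec_mulVec, Matrix.diagonal_mulVec_single, ← Matrix.mulVec_smul]
    congr 1
    ext i; simp [Pi.single_apply]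
  rw [pow_one, LinearMap.sub_apply, Matrix.toLin'_apply, this]
  simp

theorem dg_ad_ad (Q : GL n ℂ) (δ : n → ℂ) (y : Matrix n n ℂ)
    (h : dg Q δ * (dg Q δ * y - y * dg Q δ) - (dg Q δ * y - y * dg Q δ) * dg Q δ = 0) :
    dg Q δ * y - y * dg Q δ = 0 := by
  have key : ∀ z : Matrix n n ℂ, ((Q⁻¹ : GL n ℂ) : Matrix n n ℂ) * (dg Q δ * z - z * dg Q δ) *
      (Q : Matrix n n ℂ) = Matrix.of fun i j => (δ i - δ j) *
        (((Q⁻¹ : GL n ℂ) : Matrix n n ℂ) * z * (Q : Matrix n n ℂ)) i j := by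
    intro z
    have : ((Q⁻¹ : GL n ℂ) : Matrix n n ℂ) * (dg Q δ * z - z * dg Q δ) * (Q : Matrix n n ℂ) =
        Matrix.diagonal δ * (((Q⁻¹ : GL n ℂ) : Matrix n n ℂ) * z * (Q : Matrix n n ℂ)) -
          (((Q⁻¹ : GL n ℂ) : Matrix n n ℂ) * z * (Q : Matrix n n ℂ)) * Matrix.diagonal δ := by
      rw [dg_eq, Matrix.mul_sub, Matrix.sub_mul]
      simp only [← Matrix.mul_assoc, Units.inv_mul, Matrix.one_mul]
      rw [Matrix.mul_assoc _ ((Q⁻¹ : GL n ℂ) : Matrix n n ℂ) (Q : Matrix n n ℂ), Units.inv_mul,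
        Matrix.mul_one]
    rw [this]
    ext i j
    rw [Matrix.sub_apply, Matrix.diagonal_mul, Matrix.mul_diagonal, Matrix.of_apply]; ring
  have h1 := key (dg Q δ * y - y * dg Q δ)
  rw [h, key y, Matrix.mul_zero, Matrix.zero_mul] at h1
  have h2 : ((Q⁻¹ : GL n ℂ) : Matrix n n ℂ) * (dg Q δ * y - y * dg Q δ) * (Q : Matrix n n ℂ) =
      0 := by
    rw [key y]
    ext i j
    have := congrFun (congrFun h1 i) j
    simp only [Matrix.zero_apply, Matrix.of_apply] at this ⊢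
    rcases mul_eq_zero.1 this.symm with h0 | h0
    · rw [h0, zero_mul]
    · exact h0
  have h3 := congrArg (fun z => (Q : Matrix n n ℂ) * z * ((Q⁻¹ : GL n ℂ) : Matrix n n ℂ)) h2
  simp only [← Matrix.mul_assoc, Units.mul_inv, Matrix.one_mul, Matrix.mul_zero,
    Matrix.zero_mul] at h3
  rwa [Matrix.mul_assoc, Units.mul_inv, Matrix.mul_one] at h3

end RigA

open RigA

variable {n k N : Type} [Fintype n] [DecidableEq n] [Fintype k] [DecidableEq k] [Fintype N]
  [DecidableEq N]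

/-- A power of the loop `t ^ d` is a product of unipotent loops. -/
theorem tp_mem_uniG (s : Submodule ℂ (Matrix n n ℂ)) (hs : ∀ x ∈ s, ∀ y ∈ s, x * y - y * x ∈ s)
    (hirr : ∀ W : Submodule ℂ (n → ℂ), (∀ x ∈ s, x ∈ presA W) → W = ⊥ ∨ W = ⊤)
    (htr : ∀ x ∈ s, x.trace = 0) (Q : GL n ℂ) (w : n → ℤ)
    (hd : (dg Q fun i => (w i : ℂ)) ∈ s) : ∃ r : ℕ, 0 < r ∧ tp Q ((r : ℤ) • w) ∈ uniG s := by
  rcases isEmpty_or_nonempty n with hn | hn
  · refine ⟨1, one_pos, ?_⟩
    have : tp Q (((1 : ℕ) : ℤ) • w) = 1 := Units.ext (Subsingleton.elim _ _)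
    rw [this]; exact one_mem _
  obtain ⟨V, _, _, ι, d, Q', μ, S, hιd, hcols, hS, hS'⟩ :=
    lie_data s hs hirr htr _ hd (dg_ad_ad Q _)
  have hc := hcols d
  rw [hιd] at hc
  have hw : ∀ i, ∃ k : ℤ, μ i d = k := fun i => by
    by_contra! hne
    have h0 : ((Q⁻¹ : GL n ℂ) : Matrix n n ℂ) *ᵥ ((Q' : Matrix n n ℂ) *ᵥ Pi.single i 1) = 0 :=
      funext fun j => coord_eq_zero (cols_dg Q _) (hc i) (hne (w j)).symm
    have h1 := congrArg (fun u => ((Q'⁻¹ : GL n ℂ) : Matrix n n ℂ) *ᵥ ((Q : Matrix n n ℂ) *ᵥ u)) h0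
    simp only [Matrix.mulVec_mulVec, ← Matrix.mul_assoc, Matrix.mulVec_zero] at h1
    rw [Matrix.mul_assoc _ (Q : Matrix n n ℂ), Units.mul_inv, Matrix.mul_one, Units.inv_mul,
      Matrix.one_mulVec] at h1
    simpa using congrFun h1 i
  choose w' hw' using hw
  let Λ : AddSubgroup (n → ℤ) :=
    { carrier := {a | tp Q' a ∈ uniG s}
      add_mem' := fun {a b} ha hb => by
        change tp Q' (a + b) ∈ uniG s
        rw [tp_add]; exact mul_mem ha hb
      zero_mem' := by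
        change tp Q' 0 ∈ uniG s
        rw [tp_zero]; exact one_mem _
      neg_mem' := fun {a} ha => by
        change tp Q' (-a) ∈ uniG s
        rw [tp_neg]; exact inv_mem ha }
  obtain ⟨r, hr, hΛ⟩ := exists_nsmul_mem Λ μ S hS (fun x hx => by
    obtain ⟨hint, e, hes, f, hfs, he, hf, hef, hhe, hhf⟩ := hS' x hx
    choose a ha using hint
    refine ⟨a, tp_two_mem hes hfs he hf hef hhe hhf ?_, ha⟩
    simpa only [ha] using hcols x) d w' hw'
  refine ⟨r, hr, ?_⟩
  have : tp Q ((r : ℤ) • w) = tp Q' ((r : ℤ) • w') := by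
    refine Units.ext ?_
    have := dgR_comm (Q₂ := Q') (cols_dg Q fun i => (w i : ℂ)) 1 (fun j => μ j d)
      (fun j => by rw [Matrix.one_mulVec]; exact hc j) (fun i => tt ^ ((r : ℤ) • w) i)
      (fun i => tt ^ ((r : ℤ) • w') i) fun i j hij => by
        have : w i = w' j := by
          rw [hw'] at hij; exact_mod_cast hij
        simp [this]
    rwa [cm_one, Matrix.mul_one, Matrix.one_mul, ← coe_tp, ← coe_tp] at this
  rw [this]; exact hΛ

end Kol68
end

-- merged part: Pool.Agent.Work.MP_c53807_ag.RigB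
section
open scoped Matrix PowerSeries Polynomial

namespace Kol68

variable {n k N : Type} [Fintype n] [DecidableEq n] [Fintype k] [DecidableEq k] [Fintype N]
  [DecidableEq N]

attribute [local instance 100] LieRing.ofAssociativeRing in
theorem traceForm_nondeg (s : Submodule ℂ (Matrix n n ℂ))
    (hs : ∀ x ∈ s, ∀ y ∈ s, x * y - y * x ∈ s)
    (hirr : ∀ W : Submodule ℂ (n → ℂ), (∀ x ∈ s, x ∈ presA W) → W = ⊥ ∨ W = ⊤)
    (htr : ∀ x ∈ s, x.trace = 0) {x : Matrix n n ℂ} (hx : x ∈ s)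
    (h : ∀ y ∈ s, (x * y).trace = 0) : x = 0 := by
  rcases isEmpty_or_nonempty n with hn | hn
  · exact Subsingleton.elim _ _
  let L : LieSubalgebra ℂ (Matrix n n ℂ) := { s with lie_mem' := fun {a b} ha hb => hs a ha b hb }
  have irr : LieModule.IsIrreducible ℂ L (n → ℂ) := LieModule.IsIrreducible.mk fun W hW => by
    rcases hirr W.toSubmodule (fun y hy b hb => W.lie_mem (x := ⟨y, hy⟩) hb) with e | e
    · exact absurd ((LieSubmodule.toSubmodule_eq_bot W).1 e) hW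
    · exact (LieSubmodule.toSubmodule_eq_top W).1 e
  have tE : ∀ y : L, LieModule.toEnd ℂ L (n → ℂ) y = Matrix.toLin' (y : Matrix n n ℂ) :=
    fun y => rfl
  have rad : LieAlgebra.HasTrivialRadical ℂ L :=
    LieAlgebra.hasTrivialRadical_of_isIrreducible_of_isFaithful ℂ L (n → ℂ) fun y => by
      rw [tE, Matrix.trace_toLin'_eq]
      exact htr _ y.2
  let I : LieIdeal ℂ L :=
    { carrier := {a | ∀ y ∈ s, ((a : Matrix n n ℂ) * y).trace = 0}
      add_mem' := fun {a b} ha hb y hy => by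
        change (((a : Matrix n n ℂ) + b) * y).trace = 0
        rw [add_mul, Matrix.trace_add, ha y hy, hb y hy, add_zero]
      zero_mem' := fun y _ => by simp
      smul_mem' := fun c a ha y hy => by
        change ((c • (a : Matrix n n ℂ)) * y).trace = 0
        rw [smul_mul_assoc, Matrix.trace_smul, ha y hy, smul_zero]
      lie_mem := fun {a b} hb y hy => by
        have := hb _ (hs y hy a a.2)
        change (((a : Matrix n n ℂ) * b - b * a) * y).trace = 0
        rw [← this, sub_mul, mul_sub, Matrix.trace_sub, Matrix.trace_sub, mul_assoc,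
          Matrix.trace_mul_comm (a : Matrix n n ℂ), mul_assoc, mul_assoc] }
  have t0 : LieModule.traceForm ℂ I (n → ℂ) = 0 := by
    ext a b
    change LinearMap.trace ℂ _ (Matrix.toLin' (a.1 : Matrix n n ℂ) ∘ₗ
      Matrix.toLin' (b.1 : Matrix n n ℂ)) = 0
    rw [← Matrix.toLin'_mul, Matrix.trace_toLin'_eq]
    exact a.2 _ b.1.2
  have nil := LieModule.isNilpotent_derivedSeries_of_traceForm_eq_zero t0
  have e1 : (⁅I, I⁆ : LieIdeal ℂ L) = ⊥ := by
    have nil' : LieModule.IsNilpotent (⁅I, I⁆ : LieIdeal ℂ L) (n → ℂ) := by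
      rw [LieModule.isNilpotent_iff_forall' (R := ℂ)] at nil ⊢
      rintro ⟨a, ha⟩
      refine nil ⟨⟨a, LieSubmodule.lie_le_left I I ha⟩, ?_⟩
      rw [LieIdeal.derivedSeries_eq_derivedSeriesOfIdeal_comap, LieIdeal.mem_comap]
      simpa using ha
    have := LieModule.nontrivial_max_triv_of_isNilpotent ℂ (⁅I, I⁆ : LieIdeal ℂ L) (n → ℂ)
    obtain ⟨⟨v, hv⟩, hv0⟩ := exists_ne
      (0 : LieModule.maxTrivSubmodule ℂ (⁅I, I⁆ : LieIdeal ℂ L) (n → ℂ))
    let W : LieSubmodule ℂ L (n → ℂ) :=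
      { carrier := {w | ∀ a ∈ (⁅I, I⁆ : LieIdeal ℂ L), ⁅a, w⁆ = 0}
        add_mem' := fun {u w} hu hw a ha => by rw [lie_add, hu a ha, hw a ha, add_zero]
        zero_mem' := fun a _ => lie_zero a
        smul_mem' := fun c w hw a ha => by rw [lie_smul, hw a ha, smul_zero]
        lie_mem := fun {y w} hw a ha => by
          rw [leibniz_lie, hw a ha, lie_zero, add_zero]
          exact hw _ (lie_mem_left ℂ L _ a y ha) }
    have hW : W = ⊤ := (irr.eq_bot_or_eq_top W).resolve_left fun e => by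
      have : v ∈ W := fun a ha => (LieModule.mem_maxTrivSubmodule ℂ _ _ v).1 hv ⟨a, ha⟩
      rw [e, LieSubmodule.mem_bot] at this
      exact hv0 (Subtype.ext this)
    rw [LieSubmodule.eq_bot_iff]
    intro a ha
    refine Subtype.ext (Matrix.toLin'.injective (LinearMap.ext fun w => ?_))
    have : w ∈ W := hW ▸ LieSubmodule.mem_top w
    simpa using this a ha
  have e2 := (LieAlgebra.hasTrivialRadical_iff_no_abelian_ideals ℂ L).1 rad I
    ((LieSubmodule.lie_abelian_iff_lie_self_eq_bot I).2 e1)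
  have : (⟨x, hx⟩ : L) ∈ I := h
  rw [e2, LieSubmodule.mem_bot] at this
  exact congrArg Subtype.val this

namespace RigBAux

variable {R : Type} [CommRing R] [Algebra ℂ R]

omit [DecidableEq n] in
theorem trace_map (φ : R →ₗ[ℂ] ℂ) (Y : Matrix n n R) : (Y.map φ).trace = φ Y.trace := by
  simp [Matrix.trace]

/-- The orthogonal complement for the trace form. -/
def orth (s : Submodule ℂ (Matrix n n ℂ)) : Submodule ℂ (Matrix n n ℂ) where
  carrier := {z | ∀ y ∈ s, (z * y).trace = 0}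
  add_mem' {a b} ha hb y hy := by rw [add_mul, Matrix.trace_add, ha y hy, hb y hy, add_zero]
  zero_mem' y _ := by simp
  smul_mem' c a ha y hy := by rw [smul_mul_assoc, Matrix.trace_smul, ha y hy, smul_zero]

theorem mem_bcM_orth {s : Submodule ℂ (Matrix n n ℂ)} {Z : Matrix n n R} :
    Z ∈ bcM (orth s) R ↔ ∀ Y ∈ bcM s R, (Z * Y).trace = 0 := by
  have e : ∀ (φ : R →ₗ[ℂ] ℂ) (b : Matrix n n ℂ), φ (Z * cm R b).trace = (Z.map φ * b).trace :=
    fun φ b => by rw [← trace_map, map_mul_cm, cm_self]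
  constructor
  · intro h Y hY
    exact (Submodule.mem_bot R).1 (bcM_lin (Matrix.traceLinearMap n R R ∘ₗ LinearMap.mulLeft R Z) ⊥
      (fun b hb => (Submodule.mem_bot R).2 (eq_zero_of_forall_dual fun φ =>
        (e φ b).trans (h φ b hb))) hY)
  · intro h φ b hb
    rw [← e, h _ (cm_mem_bcM hb), map_zero]

theorem exists_pr (s : Submodule ℂ (Matrix n n ℂ))
    (hnd : ∀ x ∈ s, (∀ y ∈ s, (x * y).trace = 0) → x = 0) :
    ∃ p : Matrix n n ℂ →ₗ[ℂ] Matrix n n ℂ, ∀ Y, p Y ∈ s ∧ Y - p Y ∈ orth s := by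
  let B : LinearMap.BilinForm ℂ (Matrix n n ℂ) :=
    (LinearMap.mul ℂ (Matrix n n ℂ)).compr₂ (Matrix.traceLinearMap n ℂ ℂ)
  have hB : ∀ x y, B x y = (x * y).trace := fun _ _ => rfl
  have e : B.orthogonal s = orth s := by
    ext z
    rw [LinearMap.BilinForm.mem_orthogonal_iff]
    refine forall₂_congr fun y _ => ?_
    change (y * z).trace = 0 ↔ _
    rw [Matrix.trace_mul_comm]
  have hc : IsCompl s (orth s) := by
    rw [← e, LinearMap.BilinForm.isCompl_orthogonal_iff_disjoint (fun x y h => by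
      rwa [hB, Matrix.trace_mul_comm]), e, Submodule.disjoint_def]
    exact hnd
  refine ⟨s.subtype ∘ₗ s.projectionOnto _ hc, fun Y => ⟨(s.projectionOnto _ hc Y).2, ?_⟩⟩
  obtain ⟨a, ha, b, hb, rfl⟩ := Submodule.mem_sup.1 (hc.sup_eq_top ▸ Submodule.mem_top : Y ∈ _)
  have e1 := Submodule.projectionOnto_apply_left hc ⟨a, ha⟩
  have e2 := Submodule.projectionOnto_apply_right hc ⟨b, hb⟩
  simp only at e1 e2
  simpa [e1, e2] using hb

theorem exists_bc (p : Matrix n n ℂ →ₗ[ℂ] Matrix n n ℂ) :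
    ∃ q : Matrix n n R → Matrix n n R, ∀ (φ : R →ₗ[ℂ] ℂ) (Y : Matrix n n R),
      (q Y).map φ = p (Y.map φ) := by
  let P := LinearMap.toMatrix'
    ((vec ℂ).toLinearMap ∘ₗ p ∘ₗ (vec (m := n) (n := n) ℂ).symm.toLinearMap)
  refine ⟨fun Y => (vec R).symm (cm R P *ᵥ vec R Y), fun φ Y => (vec ℂ).injective ?_⟩
  change φ ∘ (cm R P *ᵥ vec R Y) = _
  rw [comp_cm_mulVec, cm_self, LinearMap.toMatrix'_mulVec]
  rfl

end RigBAux

open RigBAux in
theorem decomp_of_cob (s : Submodule ℂ (Matrix n n ℂ))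
    (hnd : ∀ x ∈ s, (∀ y ∈ s, (x * y).trace = 0) → x = 0) (γ : GL n KK)
    (hγ : Pres (vs s) ((adRep n).ρ KK γ)) (hcob : ∀ ζ ∈ bcM s KK, ζ ∈ Cob γ) :
    Decomp s γ {0} := by
  obtain ⟨p, hp⟩ := exists_pr s hnd
  obtain ⟨q, hq⟩ := exists_bc (R := KK) p
  have q1 : ∀ Y, q Y ∈ bcM s KK := fun Y φ => by rw [hq]; exact (hp _).1
  have q2 : ∀ Y, Y - q Y ∈ bcM (orth s) KK := fun Y φ => by
    rw [Matrix.map_sub _ (map_sub φ), hq]
    exact (hp _).2
  have q3 : ∀ (m : ℤ) (Y : Matrix n n KK), (∀ i j, co m (Y i j) = 0) →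
      ∀ i j, co m (q Y i j) = 0 := fun m Y h i j => by
    have e : Y.map (co m) = 0 := Matrix.ext h
    have := hq (co m) Y
    rw [e, map_zero] at this
    exact congrFun (congrFun this i) j
  have hγ' : Pres (vs s) ((adRep n).ρ KK γ⁻¹) := Pres.inv (g := (adRep n).ρU KK γ) hγ
  intro ζ hζ
  obtain ⟨a, b, ha, hb, e⟩ := hcob ζ hζ
  refine ⟨0, rfl, q a, q b, q1 a, fun i j m hm => q3 m a (fun i j => ha i j m hm) i j, q1 b,
    fun i j m hm => q3 m b (fun i j => hb i j m hm) i j, ?_⟩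
  rw [zero_add, ← sub_eq_zero]
  have m1 : ζ - (((γ⁻¹ : GL n KK) : Matrix n n KK) * q a * (γ : Matrix n n KK) + q b) ∈
      bcM s KK := (bcM s KK).sub_mem hζ ((bcM s KK).add_mem (conj_mem_of_pres hγ' (q1 a)) (q1 b))
  have m2 : ζ - (((γ⁻¹ : GL n KK) : Matrix n n KK) * q a * (γ : Matrix n n KK) + q b) ∈
      bcM (orth s) KK := by
    have : ζ - (((γ⁻¹ : GL n KK) : Matrix n n KK) * q a * (γ : Matrix n n KK) + q b) =
        ((γ⁻¹ : GL n KK) : Matrix n n KK) * (a - q a) * (γ : Matrix n n KK) + (b - q b) := by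
      rw [e, mul_sub, sub_mul]
      abel
    rw [this]
    refine Submodule.add_mem _ (mem_bcM_orth.2 fun Y hY => ?_) (q2 b)
    rw [← mem_bcM_orth.1 (q2 a) _ (conj_mem_of_pres hγ hY), mul_assoc, mul_assoc,
      Matrix.trace_mul_comm, mul_assoc]
  ext i j
  exact eq_zero_of_forall_dual fun φ => congrFun (congrFun (hnd _ (m1 φ) (m2 φ)) i) j

theorem pres_ad_of_mem_uniG (s : Submodule ℂ (Matrix n n ℂ))
    (hs : ∀ x ∈ s, ∀ y ∈ s, x * y - y * x ∈ s) {γ : GL n KK} (hγ : γ ∈ uniG s) :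
    Pres (vs s) ((adRep n).ρ KK γ) := by
  induction hγ using Subgroup.closure_induction with
  | one => rw [map_one]; exact pres_one
  | mul a b _ _ ha hb => rw [map_mul]; exact ha.mul hb
  | inv a _ ha => exact Pres.inv (g := (adRep n).ρU KK a) ha
  | mem g hg =>
    obtain ⟨c, e, he, hes, -, rfl⟩ := hg
    have hm : c • cm KK e ∈ bcM s KK := Submodule.smul_mem _ _ (cm_mem_bcM hes)
    generalize c • cm KK e = a at he hm
    obtain ⟨K, hK⟩ := id he
    have hK' : (-a) ^ K = 0 := by rw [neg_pow, hK, mul_zero]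
    have h1 : Pres (vs s) ((adRep n).ρ KK⟦X⟧ (expU 0 a)) := by
      rw [ρ_expU]
      exact expM_mem_bcA _ ((adRep n).dρ_mem_bcM (s' := Subalgebra.toSubmodule (presA (vs s)))
        (fun ξ hξ => ad_mem_presA_iff.2 (hs ξ hξ)) hm)
    refine pres_ad_iff.2 fun x hx => ?_
    let f : ℕ → ℕ → Matrix n n KK := fun i j =>
      ((i.factorial : ℂ)⁻¹ • a ^ i) * cm KK x * ((j.factorial : ℂ)⁻¹ • (-a) ^ j)
    have h2 : ∀ m, ∑ i ∈ Finset.range (m + 1), f i (m - i) ∈ bcM s KK := fun m => by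
      have := mem_bcM_powerSeries.1 (pres_ad_iff.1 h1 x hx) m
      rw [expU_inv, coe_expU, coe_expU, cM_mul, cm_powerSeries,
        Finset.Nat.sum_antidiagonal_eq_sum_range_succ_mk] at this
      simpa [cM_mul_C, cM_expM, f] using this
    have h3 := (bcM s KK).sum_mem (t := Finset.range (K + K)) fun m _ => h2 m
    rw [Finset.sum_range_diag_flip] at h3
    rw [nexp_inv, coe_nexp he hK, coe_nexp he.neg hK', Finset.sum_mul, Finset.sum_mul_sum]
    convert h3 using 1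
    rw [Finset.sum_range_add, Finset.sum_eq_zero (s := Finset.range K) (f := fun i =>
      ∑ j ∈ Finset.range (K + K - (K + i)), f (K + i) j) fun i _ => Finset.sum_eq_zero fun j _ => by
        simp only [f, pow_add, hK, zero_mul, smul_zero], add_zero]
    refine Finset.sum_congr rfl fun i hi => ?_
    rw [Finset.mem_range] at hi
    rw [show K + K - i = K + (K - i) by omega, Finset.sum_range_add,
      Finset.sum_eq_zero (s := Finset.range (K - i)) fun j _ => by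
        simp only [f, pow_add, hK', zero_mul, smul_zero, mul_zero], add_zero]

end Kol68
end

-- merged part: Pool.Agent.Work.MP_c53807_ag.RigC1
section
/-!
Polynomial families joining a unipotent loop to the identity.
-/

open scoped Matrix PowerSeries Polynomial

namespace Kol68.RigC

variable {n : Type} [Fintype n] [DecidableEq n]
variable {R S : Type} [CommRing R] [Algebra ℂ R] [CommRing S] [Algebra ℂ S]

/-- The points of the normaliser of `s`. -/
def normG (s : Submodule ℂ (Matrix n n ℂ)) (R : Type) [CommRing R] [Algebra ℂ R] :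
    Subgroup (GL n R) where
  carrier := {g | Pres (vs s) ((adRep n).ρ R g)}
  mul_mem' {a b} ha hb := by
    change Pres _ _
    rw [map_mul]; exact Pres.mul ha hb
  one_mem' := by
    change Pres _ _
    rw [map_one]; exact pres_one
  inv_mem' {a} ha := Pres.inv (g := (adRep n).ρU R a) ha

variable {s : Submodule ℂ (Matrix n n ℂ)}

theorem normG_map (f : R →+* S) (ψ : R →ₗ[ℂ] S) (h : ∀ x, ψ x = f x) {g : GL n R}
    (hg : g ∈ normG s R) : gmap f g ∈ normG s S := by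
  change Pres _ _
  rw [← (adRep n).nat, ← funext h]; exact Pres.map hg ψ

theorem normG_of_map (f : R →+* S) (ψ : R →ₗ[ℂ] S) (h : ∀ x, ψ x = f x)
    (hf : Function.Injective ψ) {g : GL n R} (hg : gmap f g ∈ normG s S) : g ∈ normG s R := by
  change Pres _ _ at hg
  rw [← (adRep n).nat, ← funext h] at hg
  exact Pres.of_map ψ hf hg

theorem conj_inv_mem {g : GL n R} (hg : g ∈ normG s R) {ζ : Matrix n n R} (hζ : ζ ∈ bcM s R) :
    ((g⁻¹ : GL n R) : Matrix n n R) * ζ * (g : Matrix n n R) ∈ bcM s R :=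
  conj_mem_of_pres (g := g⁻¹) ((normG s R).inv_mem hg) hζ

/-- Formal families normalising `s` whose logarithmic derivative lies in `s`. -/
def goodG (s : Submodule ℂ (Matrix n n ℂ)) (R : Type) [CommRing R] [Algebra ℂ R] :
    Subgroup (GL n R⟦X⟧) where
  carrier := {g | g ∈ normG s R⟦X⟧ ∧ ((g⁻¹ : GL n R⟦X⟧) : Matrix n n R⟦X⟧) *
    (dX R).mat (g : Matrix n n R⟦X⟧) ∈ bcM s R⟦X⟧}
  mul_mem' {a b} ha hb := by
    refine ⟨(normG s _).mul_mem ha.1 hb.1, ?_⟩
    have h := (bcM s R⟦X⟧).add_mem hb.2 (conj_inv_mem hb.1 ha.2)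
    rw [mul_inv_rev, Units.val_mul, Units.val_mul, Der.mat_mul, Matrix.mul_add]
    simpa only [Matrix.mul_assoc, Units.inv_mul_cancel_left] using h
  one_mem' := ⟨(normG s _).one_mem, by
    rw [Units.val_one, Der.mat_one, Matrix.mul_zero]; exact Submodule.zero_mem _⟩
  inv_mem' {a} ha := by
    refine ⟨(normG s _).inv_mem ha.1, ?_⟩
    have h := (bcM s R⟦X⟧).neg_mem (conj_mem_of_pres ha.1 ha.2)
    rw [inv_inv, Der.mat_inv, Matrix.mul_neg]
    simpa only [Matrix.mul_assoc] using h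

omit [Algebra ℂ R] in
theorem dX_map_C {m p : Type} (a : Matrix m p R) :
    (dX R).mat (a.map (PowerSeries.C (R := R))) = 0 :=
  cM_ext fun k => by rw [cM_dX, cM_map_C, if_neg k.succ_ne_zero, smul_zero, cM_zero]

theorem C_mem_goodG {g : GL n R} (hg : g ∈ normG s R) :
    gmap (PowerSeries.C (R := R)) g ∈ goodG s R :=
  ⟨normG_map _ (((IsScalarTower.toAlgHom ℂ R R⟦X⟧)).toLinearMap) (fun _ => rfl) hg, by
    rw [coe_gmap, dX_map_C, Matrix.mul_zero]; exact Submodule.zero_mem _⟩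

theorem expU_mem_goodG (hs : ∀ x ∈ s, ∀ y ∈ s, x * y - y * x ∈ s) {x : Matrix n n R}
    (hx : x ∈ bcM s R) : expU 0 x ∈ goodG s R := by
  refine ⟨?_, ?_⟩
  · change Pres _ _
    rw [ρ_expU]
    exact expM_mem_bcA _ ((adRep n).dρ_mem_bcM (fun ξ hξ => ad_mem_presA_iff.2 (hs ξ hξ)) hx)
  · rw [logder_expU]
    exact Submodule.smul_mem _ _ (map_C_mem_bcM hx)

theorem gmap_nexp (f : R →ₐ[ℂ] S) {e : Matrix n n R} (he : IsNilpotent e) {e' : Matrix n n S}
    (he' : IsNilpotent e') (h : e.map f = e') : gmap (f : R →+* S) (nexp he) = nexp he' := by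
  obtain ⟨k, hk⟩ := id he
  have h1 : f.mapMatrix e = e' := h
  have hk' : e' ^ k = 0 := by rw [← h1, ← map_pow, hk, map_zero]
  refine Units.ext ?_
  change f.mapMatrix (nexp he : Matrix n n R) = _
  rw [coe_nexp he hk, coe_nexp he' hk', map_sum]
  simp only [map_smul, map_pow, h1]

/-- `R[X] → R[[X]]`. -/
noncomputable def cP (R : Type) [CommRing R] [Algebra ℂ R] : R[X] →ₐ[ℂ] R⟦X⟧ :=
  { Polynomial.coeToPowerSeries.ringHom with
    commutes' := fun c => by
      change ((Polynomial.C (algebraMap ℂ R c) : R[X]) : R⟦X⟧) = _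
      rw [Polynomial.coe_C, PowerSeries.algebraMap_apply] }

theorem cP_apply (p : R[X]) : cP R p = (p : R⟦X⟧) := rfl

/-- Evaluation at a point. -/
noncomputable def eP (a : R) : R[X] →ₐ[ℂ] R := (Polynomial.aeval a).restrictScalars ℂ

theorem eP_apply (a : R) (p : R[X]) : eP a p = p.eval a := by simp [eP]

omit [Fintype n] [DecidableEq n] in
theorem map_eP (a : R) (x : Matrix n n R) :
    ((Polynomial.X : R[X]) • x.map Polynomial.C).map (eP a) = a • x := by
  ext i j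
  simp only [Matrix.map_apply, Matrix.smul_apply, smul_eq_mul, eP_apply, Polynomial.eval_mul,
    Polynomial.eval_X, Polynomial.eval_C]

omit [Algebra ℂ R] in
theorem nil_X {x : Matrix n n R} (hx : IsNilpotent x) :
    IsNilpotent ((Polynomial.X : R[X]) • x.map Polynomial.C) :=
  (hx.map (Polynomial.C (R := R)).mapMatrix).smul _

theorem gmap_cP {x : Matrix n n R} (hx : IsNilpotent x) :
    gmap (cP R : R[X] →+* R⟦X⟧) (nexp (nil_X hx)) = expU 0 x := by
  obtain ⟨k, hk⟩ := id hx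
  have e : ∀ i, ((PowerSeries.X : R⟦X⟧) • x.map (PowerSeries.C (R := R))) ^ i =
      (PowerSeries.X ^ i : R⟦X⟧) • (x ^ i).map (PowerSeries.C (R := R)) := fun i => by
    rw [smul_pow]; congr 1
    exact (map_pow (PowerSeries.C (R := R)).mapMatrix x i).symm
  have hk' : ((PowerSeries.X : R⟦X⟧) • x.map (PowerSeries.C (R := R))) ^ k = 0 := by
    rw [e, hk, Matrix.map_zero _ (map_zero _), smul_zero]
  have hn : IsNilpotent ((PowerSeries.X : R⟦X⟧) • x.map (PowerSeries.C (R := R))) := ⟨k, hk'⟩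
  rw [gmap_nexp (cP R) (nil_X hx) hn (Matrix.ext fun i j => by
    simp only [Matrix.map_apply, Matrix.smul_apply, smul_eq_mul, cP_apply, Polynomial.coe_mul,
      Polynomial.coe_X, Polynomial.coe_C])]
  refine Units.ext (cM_ext fun l => ?_)
  rw [coe_nexp _ hk', coe_expU, cM_expM, if_pos (by simp)]
  have h1 : ∀ (i : ℕ) (c : ℂ), cM l (c • ((PowerSeries.X : R⟦X⟧) •
      x.map (PowerSeries.C (R := R))) ^ i) = if l = i then c • x ^ i else 0 := fun i c => by
    have : ∀ Y : Matrix n n R⟦X⟧, cM l (c • Y) = c • cM l Y := fun Y => by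
      ext a b; exact map_smul (coL R l) c _
    rw [this, e, cM_X_pow_smul, cM_map_C]
    split_ifs <;> first | rfl | omega | simp
  have h2 : ∀ (t : Finset ℕ) (f : ℕ → Matrix n n R⟦X⟧),
      cM l (∑ i ∈ t, f i) = ∑ i ∈ t, cM l (f i) := fun t f => by
    ext a b; simp [Matrix.sum_apply]
  simp only [h2, h1, Finset.sum_ite_eq, Finset.mem_range, zero_add, Nat.div_one]
  split_ifs with h
  · rfl
  · rw [pow_eq_zero_of_le (not_lt.1 h) hk, smul_zero]

theorem nexp_mem_normG (hs : ∀ x ∈ s, ∀ y ∈ s, x * y - y * x ∈ s) {x : Matrix n n R}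
    (hx : x ∈ bcM s R) (he : IsNilpotent x) : nexp he ∈ normG s R := by
  rw [← gmap_nexp (eP 1) (nil_X he) he (by rw [map_eP, one_smul])]
  refine normG_map _ (eP 1).toLinearMap (fun _ => rfl)
    (normG_of_map (cP R : R[X] →+* R⟦X⟧) (cP R).toLinearMap (fun _ => rfl)
      (Polynomial.coe_injective R) ?_)
  rw [gmap_cP he]
  exact (expU_mem_goodG hs hx).1

theorem gmap_eP_C (a : R) (g : GL n R) :
    gmap (eP a : R[X] →+* R) (gmap Polynomial.C g) = g :=
  Units.ext (by ext i j; simp [eP_apply])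

theorem gmap_cP_C (g : GL n R) :
    gmap (cP R : R[X] →+* R⟦X⟧) (gmap Polynomial.C g) = gmap (PowerSeries.C (R := R)) g :=
  Units.ext (by ext i j : 2; simp [cP_apply])

theorem exists_family (hs : ∀ x ∈ s, ∀ y ∈ s, x * y - y * x ∈ s) {γ : GL n KK}
    (h : γ ∈ uniG s) : ∃ Γ : GL n KK[X], gmap (cP KK : KK[X] →+* KK⟦X⟧) Γ ∈ goodG s KK ∧
      gmap (eP (-1 : KK) : KK[X] →+* KK) Γ = 1 ∧ gmap (eP (0 : KK) : KK[X] →+* KK) Γ = γ := by
  induction h using Subgroup.closure_induction with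
  | mem g hg =>
    obtain ⟨c, e, he, hes, -, rfl⟩ := hg
    have hx : c • cm KK e ∈ bcM s KK := Submodule.smul_mem _ _ (cm_mem_bcM hes)
    refine ⟨gmap Polynomial.C (nexp he) * nexp (nil_X he), ?_, ?_, ?_⟩
    · rw [gmap_mul, gmap_cP he, gmap_cP_C]
      exact (goodG s KK).mul_mem (C_mem_goodG (nexp_mem_normG hs hx he)) (expU_mem_goodG hs hx)
    · rw [gmap_mul, gmap_eP_C, gmap_nexp (eP (-1)) (nil_X he) he.neg (by
        rw [map_eP, neg_smul, one_smul]), ← nexp_inv he, mul_inv_cancel]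
    · rw [gmap_mul, gmap_eP_C, gmap_nexp (eP 0) (nil_X he) IsNilpotent.zero (by
        rw [map_eP, zero_smul])]
      have : nexp (IsNilpotent.zero : IsNilpotent (0 : Matrix n n KK)) = 1 :=
        Units.ext (by rw [coe_nexp _ (pow_one _)]; simp)
      rw [this, mul_one]
  | one => exact ⟨1, by rw [gmap_one]; exact one_mem _, gmap_one _, gmap_one _⟩
  | mul a b _ _ ha hb =>
    obtain ⟨A, a1, a2, a3⟩ := ha
    obtain ⟨B, b1, b2, b3⟩ := hb
    exact ⟨A * B, by rw [gmap_mul]; exact mul_mem a1 b1, by rw [gmap_mul, a2, b2, mul_one],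
      by rw [gmap_mul, a3, b3]⟩
  | inv a _ ha =>
    obtain ⟨A, a1, a2, a3⟩ := ha
    exact ⟨A⁻¹, by rw [gmap_inv]; exact inv_mem a1, by rw [gmap_inv, a2, inv_one],
      by rw [gmap_inv, a3]⟩

end Kol68.RigC
end

-- merged part: Pool.Agent.Work.MP_c53807_ag.RigC2
section
/-!
Formal lifting of sections along a good family, and the determinant argument.
-/

open scoped Matrix PowerSeries Polynomial

namespace Kol68.RigC

variable {n m p : Type}

section Series

variable {R : Type} [CommRing R]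

/-- The series with given coefficients. -/
noncomputable def mkM (f : ℕ → Matrix m p R) : Matrix m p R⟦X⟧ :=
  Matrix.of fun i j => PowerSeries.mk fun k => f k i j

theorem cM_mkM (f : ℕ → Matrix m p R) (k : ℕ) : cM k (mkM f) = f k := by
  ext i j; simp [mkM]

theorem cM_X_zero (Y : Matrix m p R⟦X⟧) : cM 0 ((PowerSeries.X : R⟦X⟧) • Y) = 0 := by
  ext i j; simp

theorem cM_X_succ (k : ℕ) (Y : Matrix m p R⟦X⟧) :
    cM (k + 1) ((PowerSeries.X : R⟦X⟧) • Y) = cM k Y := by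
  ext i j; simp [PowerSeries.coeff_succ_X_mul]

theorem mkM_eq (f : ℕ → Matrix m p R) : mkM f = (f 0).map (PowerSeries.C (R := R)) +
    (PowerSeries.X : R⟦X⟧) • mkM fun k => f (k + 1) :=
  cM_ext fun k => by
    rw [cM_add, cM_map_C, cM_mkM]
    rcases k with _ | k
    · rw [cM_X_zero]; simp
    · rw [cM_X_succ, cM_mkM]; simp

theorem eq_zero_of_shift (E : ℕ → Matrix m p R⟦X⟧)
    (h : ∀ j, E j = (PowerSeries.X : R⟦X⟧) • E (j + 1)) : E 0 = 0 := by
  have : ∀ k j, cM k (E j) = 0 := fun k => by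
    induction k with
    | zero => intro j; rw [h, cM_X_zero]
    | succ k ih => intro j; rw [h, cM_X_succ, ih]
  exact cM_ext fun k => by rw [this, cM_zero]

variable [Algebra ℂ R] [Fintype m]

/-- The coefficients of the solution of `Y' = c Y`. -/
noncomputable def odeCo (c : ℕ → Matrix m m R) (y : Matrix m p R) : ℕ → Matrix m p R
  | 0 => y
  | k + 1 => ((k : ℂ) + 1)⁻¹ • ∑ i : Fin (k + 1), c (k - i) * odeCo c y i
  decreasing_by exact i.2

omit [Fintype m] in
theorem succ_smul_eq (k : ℕ) (Y : Matrix m p R) : ((k : R) + 1) • Y = ((k : ℂ) + 1) • Y := by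
  rw [← algebraMap_smul R ((k : ℂ) + 1)]; simp

theorem exists_ode (c : Matrix m m R⟦X⟧) (y : Matrix m p R) :
    ∃ Y : Matrix m p R⟦X⟧, cM 0 Y = y ∧ (dX R).mat Y = c * Y := by
  refine ⟨mkM (odeCo (fun k => cM k c) y), by rw [cM_mkM, odeCo], cM_ext fun k => ?_⟩
  have hk : ((k : ℂ) + 1) ≠ 0 := by exact_mod_cast k.succ_ne_zero
  rw [cM_dX, cM_mkM, odeCo, succ_smul_eq, smul_smul, mul_inv_cancel₀ hk, one_smul, cM_mul,
    ← Finset.Nat.sum_antidiagonal_swap, Finset.Nat.sum_antidiagonal_eq_sum_range_succ_mk,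
    Finset.sum_range]
  simp only [Prod.fst_swap, Prod.snd_swap, cM_mkM]

theorem ode_mem (T : Submodule ℂ (Matrix m p R)) {Y : Matrix m p R⟦X⟧} {c : Matrix m m R⟦X⟧}
    (hc : ∀ k, ∀ y ∈ T, cM k c * y ∈ T) (h : (dX R).mat Y = c * Y) (h0 : cM 0 Y ∈ T) (k : ℕ) :
    cM k Y ∈ T := by
  induction k using Nat.strong_induction_on with
  | _ k ih =>
    rcases k with _ | k
    · exact h0
    · have hk : ((k : ℂ) + 1) ≠ 0 := by exact_mod_cast k.succ_ne_zero
      rw [← T.smul_mem_iff hk, ← succ_smul_eq, ← cM_dX, h, cM_mul]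
      refine T.sum_mem fun ij hij => hc _ _ (ih _ ?_)
      have := Finset.HasAntidiagonal.mem_antidiagonal.1 hij
      omega

end Series

/-- Matrices over `u ^ a ℂ[[u]]`. -/
def ordS (m p : Type) (a : ℤ) : Submodule ℂ (Matrix m p KK) where
  carrier := {Y | MOrd a Y}
  add_mem' := MOrd.add
  zero_mem' := mOrd_zero a
  smul_mem' c _ h := h.smul c

/-- Matrices over `ℂ[t]`. -/
def polS (m p : Type) : Submodule ℂ (Matrix m p KK) where
  carrier := {Y | MT Y}
  add_mem' := MT.add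
  zero_mem' := mT_zero
  smul_mem' c _ h := h.smul c

variable [Fintype n] [DecidableEq n] {s : Submodule ℂ (Matrix n n ℂ)}

theorem decomp_step {Δ : GL n KK⟦X⟧} (hΔ : Δ ∈ normG s KK⟦X⟧)
    (hdec : Decomp s (gmap PowerSeries.constantCoeff Δ) {0}) (ζ : bcM s KK⟦X⟧) :
    ∃ (a b : Matrix n n KK) (ζ' : bcM s KK⟦X⟧), MOrd 0 a ∧ MT b ∧
      (ζ : Matrix n n KK⟦X⟧) = ((Δ⁻¹ : GL n KK⟦X⟧) : Matrix n n KK⟦X⟧) *
        a.map (PowerSeries.C (R := KK)) * (Δ : Matrix n n KK⟦X⟧) +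
        b.map (PowerSeries.C (R := KK)) + (PowerSeries.X : KK⟦X⟧) • (ζ' : Matrix n n KK⟦X⟧) := by
  obtain ⟨c, hc, a, b, ha, ha', hb, hb', e⟩ := hdec _ (mem_bcM_powerSeries.1 ζ.2 0)
  rw [Set.mem_singleton_iff.1 hc, zero_add] at e
  set r := (ζ : Matrix n n KK⟦X⟧) - (((Δ⁻¹ : GL n KK⟦X⟧) : Matrix n n KK⟦X⟧) *
    a.map (PowerSeries.C (R := KK)) * (Δ : Matrix n n KK⟦X⟧) +
    b.map (PowerSeries.C (R := KK))) with hr
  have h1 : r ∈ bcM s KK⟦X⟧ := Submodule.sub_mem _ ζ.2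
    (Submodule.add_mem _ (conj_inv_mem hΔ (map_C_mem_bcM ha)) (map_C_mem_bcM hb))
  have h0 : ∀ Y : Matrix n n KK⟦X⟧, cM 0 Y = Y.map PowerSeries.constantCoeff := fun Y => by
    ext i j; simp
  have h2 : cM 0 r = 0 := by
    rw [hr, cM_sub, cM_add, cM_zero_mul, cM_zero_mul, cM_map_C, cM_map_C, if_pos rfl, if_pos rfl,
      e, h0, h0, sub_eq_zero]
    rfl
  refine ⟨a, b, ⟨mkM fun k => cM (k + 1) r, mem_bcM_powerSeries.2 fun k => ?_⟩, ha', hb', ?_⟩
  · rw [cM_mkM]; exact mem_bcM_powerSeries.1 h1 _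
  · rw [← sub_eq_iff_eq_add', ← hr]
    refine cM_ext fun k => ?_
    rcases k with _ | k
    · rw [h2, cM_X_zero]
    · rw [cM_X_succ, cM_mkM]

theorem decomp_series {Δ : GL n KK⟦X⟧} (hΔ : Δ ∈ normG s KK⟦X⟧)
    (hdec : Decomp s (gmap PowerSeries.constantCoeff Δ) {0}) (ζ : bcM s KK⟦X⟧) :
    ∃ a b : Matrix n n KK⟦X⟧, (∀ k, MOrd 0 (cM k a)) ∧ (∀ k, MT (cM k b)) ∧
      (ζ : Matrix n n KK⟦X⟧) =
        ((Δ⁻¹ : GL n KK⟦X⟧) : Matrix n n KK⟦X⟧) * a * (Δ : Matrix n n KK⟦X⟧) + b := by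
  choose A B F hA hB hF using decomp_step hΔ hdec
  refine ⟨mkM fun k => A (F^[0 + k] ζ), mkM fun k => B (F^[0 + k] ζ),
    fun k => by rw [cM_mkM]; exact hA _, fun k => by rw [cM_mkM]; exact hB _, ?_⟩
  rw [← sub_eq_zero]
  refine eq_zero_of_shift (fun j => (F^[j] ζ : Matrix n n KK⟦X⟧) -
    (((Δ⁻¹ : GL n KK⟦X⟧) : Matrix n n KK⟦X⟧) * (mkM fun k => A (F^[j + k] ζ)) *
      (Δ : Matrix n n KK⟦X⟧) + mkM fun k => B (F^[j + k] ζ))) fun j => ?_
  have e : ∀ k, j + (k + 1) = j + 1 + k := fun k => by omega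
  rw [hF (F^[j] ζ), mkM_eq fun k => A (F^[j + k] ζ), mkM_eq fun k => B (F^[j + k] ζ),
    Function.iterate_succ_apply']
  have e1 : ∀ G : bcM s KK⟦X⟧ → Matrix n n KK, (fun k => G (F^[j + (k + 1)] ζ)) =
      fun k => G (F^[j + 1 + k] ζ) := fun G => funext fun k => by rw [e]
  rw [e1, e1]
  simp only [add_zero, Matrix.mul_add, Matrix.add_mul, Matrix.mul_smul, Matrix.smul_mul,
    smul_sub, smul_add]
  abel

/-- A section of the special member lifts to the formal family. -/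
theorem exists_lift {Δ : GL n KK⟦X⟧} (hΔ : Δ ∈ goodG s KK)
    (hdec : Decomp s (gmap PowerSeries.constantCoeff Δ) {0}) {y : Matrix n p KK} (hy : MT y)
    (hy' : MOrd 1 (cM 0 (Δ : Matrix n n KK⟦X⟧) * y)) :
    ∃ Y : Matrix n p KK⟦X⟧, cM 0 Y = y ∧ (∀ k, MT (cM k Y)) ∧
      ∀ k, MOrd 1 (cM k ((Δ : Matrix n n KK⟦X⟧) * Y)) := by
  obtain ⟨a, b, ha, hb, e⟩ := decomp_series hΔ.1 hdec ⟨_, hΔ.2⟩
  obtain ⟨Y, h0, hY⟩ := exists_ode (-b) y
  refine ⟨Y, h0, ode_mem (polS n p) (fun k z hz => ?_) hY (by rw [h0]; exact hy),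
    ode_mem (ordS n p 1) (c := a) (fun k z hz => ?_) ?_ (by rw [cM_zero_mul, h0]; exact hy')⟩
  · have : cM k (-b) = -cM k b := by ext i j; simp
    rw [this]
    exact (hb k).neg.mul hz
  · exact ((ha k).mul hz).mono (by omega)
  · have e2 := congrArg ((Δ : Matrix n n KK⟦X⟧) * ·) e
    simp only [Matrix.mul_add, Matrix.mul_assoc, Units.mul_inv_cancel_left] at e2
    rw [Der.mat_mul, hY, e2, Matrix.add_mul, Matrix.neg_mul, Matrix.mul_neg, Matrix.mul_assoc,
      Matrix.mul_assoc]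
    abel

/-- A linear functional applied to the coefficients of a polynomial. -/
noncomputable def lam (φ : KK →ₗ[ℂ] ℂ) : KK[X] →ₗ[ℂ] ℂ[X] :=
  Polynomial.lsum fun k => Polynomial.monomial k ∘ₗ φ

theorem lam_monomial (φ : KK →ₗ[ℂ] ℂ) (k : ℕ) (a : KK) :
    lam φ (Polynomial.monomial k a) = Polynomial.monomial k (φ a) := by
  simp [lam, Polynomial.sum_monomial_index]

theorem coeff_lam (φ : KK →ₗ[ℂ] ℂ) (q : KK[X]) (k : ℕ) : (lam φ q).coeff k = φ (q.coeff k) := by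
  induction q using Polynomial.induction_on' with
  | add a b ha hb => simp [ha, hb]
  | monomial j a =>
    rw [lam_monomial, Polynomial.coeff_monomial, Polynomial.coeff_monomial]
    split_ifs <;> simp

theorem eval_lam (φ : KK →ₗ[ℂ] ℂ) (q : KK[X]) : (lam φ q).eval (-1) = φ (q.eval (-1)) := by
  induction q using Polynomial.induction_on' with
  | add a b ha hb => simp [ha, hb]
  | monomial j a =>
    rw [lam_monomial, Polynomial.eval_monomial, Polynomial.eval_monomial]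
    have : (-1 : KK) ^ j = algebraMap ℂ KK ((-1) ^ j) := by simp
    rw [this, lin_mul_alg]; rfl

theorem exists_ord_poly (q : KK[X]) : ∃ M : ℕ, ∀ k, Ord (-M) (q.coeff k) := by
  induction q using Polynomial.induction_on' with
  | add a b ha hb =>
    obtain ⟨M, hM⟩ := ha
    obtain ⟨M', hM'⟩ := hb
    exact ⟨M + M', fun k => by
      rw [Polynomial.coeff_add]
      exact ((hM k).mono (by omega)).add ((hM' k).mono (by omega))⟩
  | monomial j a =>
    obtain ⟨c, hc⟩ := exists_ord a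
    refine ⟨(-c).toNat, fun k => ?_⟩
    rw [Polynomial.coeff_monomial]
    split_ifs
    · exact hc.mono (by omega)
    · exact ord_zero _

theorem eq_sum_tt {x : KK} {M : ℕ} (h1 : InT x) (h2 : Ord (-M + 1) x) :
    x = ∑ l : Fin M, co (-(l : ℕ)) x • tt ^ ((l : ℕ) : ℤ) := by
  refine KK.ext fun k => ?_
  simp only [map_sum, map_smul, tt_zpow, co_sg, smul_eq_mul, mul_ite, mul_one, mul_zero]
  by_cases h : -(M : ℤ) < k ∧ k ≤ 0
  · rw [Finset.sum_eq_single (⟨(-k).toNat, by omega⟩ : Fin M)]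
    · have : -(((-k).toNat : ℕ) : ℤ) = k := by omega
      simp only [this, if_true]
    · intro l _ hl
      rw [if_neg]
      intro hk
      exact hl (Fin.ext (by simp only; omega))
    · simp
  · rw [Finset.sum_eq_zero fun l _ => if_neg (by have := l.2; omega)]
    by_cases h3 : 0 < k
    · exact h1 k h3
    · exact h2 k (by omega)

/-- A polynomial family that is trivial at `-1` has no formal twisted sections at `0`. -/
theorem eq_zero_of_family (P : GL n KK[X]) (hP : gmap (eP (-1 : KK) : KK[X] →+* KK) P = 1)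
    {Y : Matrix n p KK⟦X⟧} (h1 : ∀ k, MT (cM k Y))
    (h2 : ∀ k, MOrd 1 (cM k ((gmap (cP KK : KK[X] →+* KK⟦X⟧) P : Matrix n n KK⟦X⟧) * Y))) :
    cM 0 Y = 0 := by
  obtain ⟨M, hM⟩ : ∃ M : ℕ, ∀ k, MOrd (-M)
      (cM k (((gmap (cP KK : KK[X] →+* KK⟦X⟧) P)⁻¹ : GL n KK⟦X⟧) : Matrix n n KK⟦X⟧)) := by
    choose a ha using fun ij : n × n =>
      exists_ord_poly (((P⁻¹ : GL n KK[X]) : Matrix n n KK[X]) ij.1 ij.2)
    refine ⟨Finset.univ.sup a, fun k i j => ?_⟩
    have h3 : a (i, j) ≤ Finset.univ.sup a := Finset.le_sup (Finset.mem_univ (i, j))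
    have h4 := (ha (i, j) k).mono (b := -(Finset.univ.sup a : ℕ)) (by omega)
    rwa [← Polynomial.coeff_coe] at h4
  have h3 : ∀ k, MOrd (-M + 1) (cM k Y) := fun k => by
    rw [← Matrix.one_mul Y, ← Units.inv_mul (gmap (cP KK : KK[X] →+* KK⟦X⟧) P), Matrix.mul_assoc,
      cM_mul]
    exact (ordS n p _).sum_mem fun ij _ => (hM _).mul (h2 _)
  let Φ : Matrix (Fin M × n) (Fin M × n) ℂ[X] := Matrix.of fun a b =>
    lam (co (-(a.1 : ℕ)) ∘ₗ LinearMap.mulRight ℂ (tt ^ ((b.1 : ℕ) : ℤ)))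
      ((P : Matrix n n KK[X]) a.2 b.2)
  have hΦ : (Polynomial.evalRingHom (-1)).mapMatrix Φ = 1 := by
    ext ⟨k, i⟩ ⟨l, j⟩
    have h4 : ((P : Matrix n n KK[X]) i j).eval (-1) = (1 : Matrix n n KK) i j := by
      rw [← eP_apply]; exact congrArg (fun g : GL n KK => (g : Matrix n n KK) i j) hP
    simp only [Φ, RingHom.mapMatrix_apply, Matrix.map_apply, Matrix.of_apply,
      Polynomial.coe_evalRingHom, eval_lam, h4, Matrix.one_apply, LinearMap.comp_apply,
      LinearMap.mulRight_apply, Prod.mk.injEq, Fin.ext_iff, ite_mul, one_mul, zero_mul]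
    by_cases hij : i = j
    · rw [if_pos hij, tt_zpow, co_sg]
      simp [hij]
    · simp [hij]
  have hdet : (Polynomial.coeToPowerSeries.ringHom.mapMatrix Φ).det ≠ 0 := by
    rw [← RingHom.map_det]
    intro h
    have h5 : Φ.det = 0 := Polynomial.coe_eq_zero_iff.1 h
    have h6 := (Polynomial.evalRingHom (-1 : ℂ)).map_det Φ
    rw [hΦ, h5] at h6
    simp at h6
  ext i j
  have h7 := Matrix.eq_zero_of_mulVec_eq_zero hdet
    (v := fun b => PowerSeries.mk fun k => co (-(b.1 : ℕ)) (cM k Y b.2 j)) (by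
      ext ⟨k, i⟩ r
      have h8 := h2 r i j (-(k : ℕ)) (by omega)
      rw [cM_mul, Matrix.sum_apply, map_sum] at h8
      simp only [Matrix.mulVec, dotProduct, map_sum, PowerSeries.coeff_mul, Pi.zero_apply,
        map_zero]
      rw [Finset.sum_comm, ← h8]
      refine Finset.sum_congr rfl fun ab _ => ?_
      rw [Matrix.mul_apply, map_sum, Fintype.sum_prod_type, Finset.sum_comm]
      refine Finset.sum_congr rfl fun c _ => ?_
      conv_rhs => rw [eq_sum_tt (h1 ab.2 c j) (h3 ab.2 c j), Finset.mul_sum, map_sum]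
      refine Finset.sum_congr rfl fun l _ => ?_
      rw [mul_smul_comm, map_smul, smul_eq_mul, mul_comm, PowerSeries.coeff_mk]
      congr 1
      change PowerSeries.coeff ab.1 ((Φ (k, i) (l, c) : ℂ[X]) : ℂ⟦X⟧) =
        co _ (PowerSeries.coeff ab.1 (((P : Matrix n n KK[X]) i c : KK[X]) : KK⟦X⟧) * _)
      rw [Polynomial.coeff_coe, Polynomial.coeff_coe]
      exact coeff_lam _ _ _)
  rw [eq_sum_tt (h1 0 i j) (h3 0 i j)]
  refine Finset.sum_eq_zero fun l _ => ?_
  have h9 := congrArg (PowerSeries.coeff 0) (congrFun h7 (l, i))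
  rw [PowerSeries.coeff_mk, Pi.zero_apply, map_zero] at h9
  rw [h9, zero_smul]

end Kol68.RigC
end

-- merged part: Pool.Agent.Work.MP_c53807_ag.RigC
section
open scoped Matrix PowerSeries Polynomial

namespace Kol68

variable {n k N : Type} [Fintype n] [DecidableEq n] [Fintype k] [DecidableEq k] [Fintype N]
  [DecidableEq N]

open RigC in
/-- A rigid bundle joined to the trivial one by unipotent loops has no twisted sections. -/
theorem noSec_of_decomp (s : Submodule ℂ (Matrix n n ℂ))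
    (hs : ∀ x ∈ s, ∀ y ∈ s, x * y - y * x ∈ s) (γ₁ : GL n KK) (h₁ : γ₁ ∈ uniG s)
    (η : GL n ℂ⟦X⟧) (hη : Pres (vs s) ((adRep n).ρ ℂ⟦X⟧ η))
    (hdec : Decomp s (γ₁ * gmap (iO : ℂ⟦X⟧ →+* KK) η) {0}) :
    NoSec (γ₁ * gmap (iO : ℂ⟦X⟧ →+* KK) η) := by
  obtain ⟨Γ, g1, g2, g3⟩ := exists_family hs h₁
  set η' := gmap (iO : ℂ⟦X⟧ →+* KK) η with hη'
  have hn : η' ∈ normG s KK := normG_map _ iO.toLinearMap (fun _ => rfl) hη
  set Δ := gmap (cP KK : KK[X] →+* KK⟦X⟧) Γ * gmap (PowerSeries.C (R := KK)) η' with hΔ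
  have h1 : Δ ∈ goodG s KK := mul_mem g1 (C_mem_goodG hn)
  have h2 : gmap PowerSeries.constantCoeff Δ = γ₁ * η' := by
    have e1 : gmap PowerSeries.constantCoeff (gmap (cP KK : KK[X] →+* KK⟦X⟧) Γ) = γ₁ := by
      rw [← g3]
      refine Units.ext (Matrix.ext fun i j => ?_)
      change PowerSeries.constantCoeff (((Γ : Matrix n n KK[X]) i j : KK[X]) : KK⟦X⟧) =
        eP 0 ((Γ : Matrix n n KK[X]) i j)
      rw [eP_apply, Polynomial.constantCoeff_coe, Polynomial.coeff_zero_eq_eval_zero]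
    have e2 : gmap PowerSeries.constantCoeff (gmap (PowerSeries.C (R := KK)) η') = η' :=
      Units.ext (Matrix.ext fun i j => PowerSeries.constantCoeff_C _)
    rw [hΔ, gmap_mul, e1, e2]
  have h3 : cM 0 (Δ : Matrix n n KK⟦X⟧) = ((γ₁ * η' : GL n KK) : Matrix n n KK) := by
    rw [← h2]; ext i j; simp
  intro q hq
  obtain ⟨Y, y0, y1, y2⟩ := exists_lift h1 (h2 ▸ hdec)
    (y := Matrix.of fun i (_ : Unit) => iT (q i)) (fun i _ => inT_iT _)
    (by rw [h3]; exact fun i _ => hq i)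
  have h4 := eq_zero_of_family (gmap Polynomial.C η'⁻¹ * (Γ * gmap Polynomial.C η'))
    (by rw [gmap_mul, gmap_mul, g2, gmap_eP_C, gmap_eP_C, one_mul, inv_mul_cancel]) y1 fun l => by
      rw [gmap_mul, gmap_mul, gmap_cP_C, gmap_cP_C, ← hΔ, Units.val_mul, Matrix.mul_assoc,
        coe_gmap, cM_C_mul]
      exact ((mOrd_iO ((η⁻¹ : GL n ℂ⟦X⟧) : Matrix n n ℂ⟦X⟧)).mul (y2 l)).mono (by omega)
  rw [y0] at h4
  funext i
  exact iT_injective ((congrFun (congrFun h4 i) ()).trans (map_zero iT).symm)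

end Kol68
end

-- merged part: Pool.Agent.Work.MP_c53807_ag.Rigid
section
open scoped Matrix PowerSeries Polynomial

namespace Kol68

variable {n k N : Type} [Fintype n] [DecidableEq n] [Fintype k] [DecidableEq k] [Fintype N]
  [DecidableEq N]

namespace RigidAux

/-- The traceless part of `s + ℂ 1`. -/
noncomputable def tl (s : Submodule ℂ (Matrix n n ℂ)) : Submodule ℂ (Matrix n n ℂ) :=
  (s ⊔ ℂ ∙ (1 : Matrix n n ℂ)) ⊓ LinearMap.ker (Matrix.traceLinearMap n ℂ ℂ)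

theorem mem_tl {s : Submodule ℂ (Matrix n n ℂ)} {x : Matrix n n ℂ} :
    x ∈ tl s ↔ (∃ a ∈ s, ∃ c : ℂ, a + c • (1 : Matrix n n ℂ) = x) ∧ x.trace = 0 := by
  rw [tl, Submodule.mem_inf, Submodule.mem_sup, LinearMap.mem_ker]
  refine and_congr_left fun _ => exists_congr fun a => and_congr_right fun _ => ⟨?_, ?_⟩
  · rintro ⟨z, hz, e⟩
    obtain ⟨c, rfl⟩ := Submodule.mem_span_singleton.1 hz
    exact ⟨c, e⟩
  · rintro ⟨c, e⟩
    exact ⟨_, Submodule.mem_span_singleton.2 ⟨c, rfl⟩, e⟩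

theorem pres_tl {R : Type} [CommRing R] [Algebra ℂ R] {s : Submodule ℂ (Matrix n n ℂ)}
    {g : GL n R} (hg : Pres (vs s) ((adRep n).ρ R g)) : Pres (vs (tl s)) ((adRep n).ρ R g) := by
  refine pres_ad_iff.2 fun x hx => ?_
  obtain ⟨⟨a, ha, c, rfl⟩, h0⟩ := mem_tl.1 hx
  refine mem_bcM_inf.2 ⟨?_, fun φ => ?_⟩
  · rw [cm_add, mul_add, add_mul]
    refine Submodule.add_mem _ (bcM_mono le_sup_left (pres_ad_iff.1 hg a ha)) ?_
    rw [cm_smul, cm_one, mul_smul_comm, smul_mul_assoc, mul_one, Units.mul_inv, ← cm_one (R := R)]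
    exact Submodule.smul_mem _ _
      (cm_mem_bcM (Submodule.mem_sup_right (Submodule.mem_span_singleton_self _)))
  · rw [LinearMap.mem_ker, Matrix.traceLinearMap_apply, RigBAux.trace_map, Matrix.trace_mul_comm,
      ← mul_assoc, Units.inv_mul, one_mul, trace_cm, h0, map_zero, map_zero]

theorem tp_add (Q : GL n ℂ) (a b : n → ℤ) : tp Q (a + b) = tp Q a * tp Q b := by
  refine Units.ext ?_
  rw [Units.val_mul, coe_tp, coe_tp, coe_tp, dgR_mul]
  congr 1
  ext i
  exact zpow_add₀ tt_ne_zero _ _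

theorem tp_nsmul (Q : GL n ℂ) (a : n → ℤ) (m : ℕ) : tp Q ((m : ℤ) • a) = tp Q a ^ m := by
  induction m with
  | zero =>
    refine Units.ext ?_
    rw [coe_tp, pow_zero, Units.val_one, ← dgR_one Q]
    congr 1
    ext i
    simp
  | succ m ih => rw [Nat.cast_succ, add_smul, one_smul, tp_add, ih, pow_succ]

theorem smul_one_mem_cob (γ : GL n KK) (c : KK) : c • (1 : Matrix n n KK) ∈ Cob γ := by
  obtain ⟨p, hp, -⟩ := exists_split c
  refine mem_Cob.2 ⟨(c - iT p) • 1, iT p • 1, fun i j => ?_, fun i j => ?_, ?_⟩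
  · rw [Matrix.smul_apply, Matrix.one_apply]
    split_ifs
    · rw [smul_eq_mul, mul_one]
      exact hp.mono zero_le_one
    · rw [smul_zero]
      exact ord_zero 0
  · rw [Matrix.smul_apply, Matrix.one_apply]
    split_ifs
    · rw [smul_eq_mul, mul_one]
      exact inT_iT p
    · rw [smul_zero]
      exact fun _ _ => map_zero _
  · rw [mul_smul_comm, smul_mul_assoc, mul_one, Units.inv_mul, ← add_smul, sub_add_cancel]

end RigidAux

open RigidAux in
theorem rigid (s : Submodule ℂ (Matrix n n ℂ)) (hs : ∀ x ∈ s, ∀ y ∈ s, x * y - y * x ∈ s)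
    (hirr : ∀ W : Submodule ℂ (n → ℂ), (∀ x ∈ s, x ∈ presA W) → W = ⊥ ∨ W = ⊤)
    (Q : GL n ℂ) (w : n → ℤ) (hd : (dg Q fun i => (w i : ℂ)) ∈ s)
    (htr : (dg Q fun i => (w i : ℂ)).trace = 0) :
    ∃ r : ℕ, 0 < r ∧ ∀ (m : ℕ) (η : GL n ℂ⟦X⟧), r ∣ m → Pres (vs s) ((adRep n).ρ ℂ⟦X⟧ η) →
      (∀ ζ ∈ bcM s KK, ζ ∈ Cob (loop Q ((m : ℤ) • w) η)) → NoSec (loop Q ((m : ℤ) • w) η) := by
  rcases isEmpty_or_nonempty n with hn | hn
  · exact ⟨1, one_pos, fun _ _ _ _ _ q _ => Subsingleton.elim _ _⟩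
  have hs0 : ∀ x ∈ tl s, ∀ y ∈ tl s, x * y - y * x ∈ tl s := fun x hx y hy => by
    obtain ⟨⟨a, ha, c, rfl⟩, -⟩ := mem_tl.1 hx
    obtain ⟨⟨b, hb, d, rfl⟩, -⟩ := mem_tl.1 hy
    refine mem_tl.2 ⟨⟨_, hs a ha b hb, 0, ?_⟩, ?_⟩
    · simp only [add_mul, mul_add, smul_mul_assoc, mul_smul_comm, one_mul, mul_one, zero_smul,
        smul_add, smul_comm c d]
      abel
    · rw [Matrix.trace_sub, Matrix.trace_mul_comm, sub_self]
  have hirr0 : ∀ W : Submodule ℂ (n → ℂ), (∀ x ∈ tl s, x ∈ presA W) → W = ⊥ ∨ W = ⊤ :=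
    fun W hW => hirr W fun x hx => by
      have h1 : x + (-(x.trace / Fintype.card n)) • (1 : Matrix n n ℂ) ∈ tl s :=
        mem_tl.2 ⟨⟨x, hx, _, rfl⟩, by
          have : (Fintype.card n : ℂ) ≠ 0 := Nat.cast_ne_zero.2 Fintype.card_ne_zero
          rw [Matrix.trace_add, Matrix.trace_smul, Matrix.trace_one, smul_eq_mul, neg_mul,
            div_mul_cancel₀ _ this, add_neg_cancel]⟩
      simpa using (presA W).sub_mem (hW _ h1)
        ((presA W).smul_mem (presA W).one_mem (-(x.trace / Fintype.card n)))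
  have htr0 : ∀ x ∈ tl s, x.trace = 0 := fun x hx => (mem_tl.1 hx).2
  obtain ⟨r, hr, h1⟩ := tp_mem_uniG (tl s) hs0 hirr0 htr0 Q w
    (mem_tl.2 ⟨⟨_, hd, 0, by simp⟩, htr⟩)
  refine ⟨r, hr, ?_⟩
  rintro _ η ⟨m, rfl⟩ hη hcob
  have h2 : tp Q (((r * m : ℕ) : ℤ) • w) ∈ uniG (tl s) := by
    rw [Nat.cast_mul, mul_comm, mul_smul, tp_nsmul]
    exact pow_mem h1 m
  refine noSec_of_decomp (tl s) hs0 _ h2 η (pres_tl hη) (decomp_of_cob (tl s)
    (fun x hx h => traceForm_nondeg (tl s) hs0 hirr0 htr0 hx h) _ ?_ fun ζ hζ => ?_)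
  · rw [map_mul]
    refine (pres_ad_of_mem_uniG _ hs0 h2).mul ?_
    rw [← (adRep n).nat]
    exact (pres_tl hη).map iO.toLinearMap
  · have : ζ ∈ bcM s KK ⊔ KK ∙ (1 : Matrix n n KK) := bcM_le (s := tl s) (fun x hx => by
      obtain ⟨⟨a, ha, c, rfl⟩, -⟩ := mem_tl.1 hx
      rw [cm_add, cm_smul, cm_one]
      exact Submodule.add_mem_sup (cm_mem_bcM ha)
        (Submodule.smul_mem _ _ (Submodule.mem_span_singleton_self _))) hζ
    obtain ⟨a, ha, b, hb, rfl⟩ := Submodule.mem_sup.1 this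
    obtain ⟨c, rfl⟩ := Submodule.mem_span_singleton.1 hb
    exact Submodule.add_mem _ (hcob a ha) (smul_one_mem_cob _ c)

end Kol68
end
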