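import Pool.Agent.Work.MP_c53807_ag.End
import Pool.Agent.Work.MP_c53807_ag.Exp
import Pool.Agent.Work.MP_c53807_ag.Rigid

-- merged part: Pool.Agent.Work.MP_c53807_ag.ConstC
section
open scoped Matrix LinearAlgebra.Projectivization

namespace Kol68

variable {N : ℕ}

namespace ConstC

theorem gmap_self (g : GL (Fin N) ℂ) : gmap (algebraMap ℂ ℂ) g = g := Units.ext (by
  ext i j; rfl)

theorem gmap_const {R S : Type} [CommRing R] [Algebra ℂ R] [CommRing S] [Algebra ℂ S]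
    (f : R →ₐ[ℂ] S) (g : GL (Fin N) ℂ) :
    gmap (f : R →+* S) (gmap (algebraMap ℂ R) g) = gmap (algebraMap ℂ S) g := Units.ext (by
  ext i j
  exact f.commutes _)

theorem gmap_toDual {R : Type} [CommRing R] (D : Der R) (w : GL (Fin N) R) :
    gmap D.toDual w = gmap (dualIn R) w *
      oneEps (((w⁻¹ : GL (Fin N) R) : Matrix (Fin N) (Fin N) R) *
        D.mat (w : Matrix (Fin N) (Fin N) R)) := by
  refine Units.ext ?_
  simp only [Units.val_mul, coe_gmap, map_dualIn, coe_oneEps, dn_mul, map_toDual]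
  simp [← Matrix.mul_assoc]

theorem det_unit {R : Type} [CommRing R] (g : GL (Fin N) R) :
    IsUnit (g : Matrix (Fin N) (Fin N) R).det :=
  (Matrix.isUnit_iff_isUnit_det _).1 g.isUnit

/-- On a point of the stabiliser over a field the translated function takes a constant value. -/
theorem mem_range (G : Subgroup (GL (Fin N) ℂ)) (v : Fin N → ℂ) (φ : NatFun N)
    (hφ : ∀ (L : Type) [Field L] [Algebra ℂ L], ∀ g ∈ pts G L, ∀ ξ ∈ bcM (hS G v) L,
      (φ.f (DualNumber L) (gmap (dualIn L) g * oneEps ξ)).snd = 0)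
    {L : Type} [Field L] [Algebra ℂ L] {x : GL (Fin N) L} (hx : x ∈ pts (stabG G v) L)
    {g₀ : GL (Fin N) ℂ} (hg₀ : g₀ ∈ G) :
    ∃ c : ℂ, φ.f L (gmap (algebraMap ℂ L) g₀ * x) = algebraMap ℂ L c := by
  set w : GL (Fin N) L := gmap (algebraMap ℂ L) g₀ * x with hw
  have hwG : w ∈ pts G L :=
    (pts G L).mul_mem (pt_const hg₀) (Pt.mono (stabG_le G v) hx)
  by_cases halg : IsAlgebraic ℂ (φ.f L w)
  · have hint : IsIntegral ℂ (φ.f L w) := halg.isIntegral
    obtain ⟨c, hc⟩ := minpoly.mem_range_of_degree_eq_one ℂ (φ.f L w)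
      (IsAlgClosed.degree_eq_one_of_irreducible ℂ (minpoly.irreducible hint))
    exact ⟨c, hc.symm⟩
  · exfalso
    obtain ⟨E, hE⟩ := exists_derivation (k := ℂ) (φ.f L w) halg
    let D : Der L := Der.ofDerivation E
    have hD : ∀ c : ℂ, D (algebraMap ℂ L c) = 0 := fun c => E.map_algebraMap c
    have h1 := φ.nat L (DualNumber L) (D.toDualA hD) w
    have h2 : gmap ((D.toDualA hD : L →ₐ[ℂ] DualNumber L) : L →+* DualNumber L) w =
        gmap D.toDual w := rfl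
    have h0 : D.mat ((gmap (algebraMap ℂ L) g₀ : GL (Fin N) L) : Matrix (Fin N) (Fin N) L) = 0 := by
      ext i j; exact hD _
    have h3 : ((w⁻¹ : GL (Fin N) L) : Matrix (Fin N) (Fin N) L) *
        D.mat (w : Matrix (Fin N) (Fin N) L) =
        ((x⁻¹ : GL (Fin N) L) : Matrix (Fin N) (Fin N) L) *
          D.mat (x : Matrix (Fin N) (Fin N) L) := by
      rw [hw, mul_inv_rev, Units.val_mul, Units.val_mul, D.mat_mul, h0, Matrix.zero_mul, add_zero,
        Matrix.mul_assoc, ← Matrix.mul_assoc _ _ (D.mat _), Units.inv_mul, Matrix.one_mul]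
    rw [h2, gmap_toDual, h3] at h1
    have h4 := hφ L w hwG _ (bcM_mono (lie_stabG_le G v) (logder_mem hx D hD))
    rw [← h1] at h4
    have h5 : E (φ.f L w) = 0 := h4
    rw [hE] at h5
    exact one_ne_zero h5

/-- A left translate of a regular function minus a constant. -/
noncomputable def shift (φ : NatFun N) (g₀ : GL (Fin N) ℂ) (c : ℂ) : NatFun N where
  f R _ _ z := φ.f R (gmap (algebraMap ℂ R) g₀ * z) - algebraMap ℂ R c
  nat R S _ _ _ _ f z := by
    rw [map_sub, φ.nat, gmap_mul, gmap_const, f.commutes]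

/-- The translated function is constant on each irreducible closed subset of the stabiliser. -/
theorem const_on_prime (G : Subgroup (GL (Fin N) ℂ)) (v : Fin N → ℂ) (φ : NatFun N)
    (hφ : ∀ (L : Type) [Field L] [Algebra ℂ L], ∀ g ∈ pts G L, ∀ ξ ∈ bcM (hS G v) L,
      (φ.f (DualNumber L) (gmap (dualIn L) g * oneEps ξ)).snd = 0)
    (P : Ideal (PM N)) [hP : P.IsPrime] (hI : vanI (stabG G v : Set (GL (Fin N) ℂ)) ≤ P)
    (hdet : (genM N).det ∉ P) {g₀ : GL (Fin N) ℂ} (hg₀ : g₀ ∈ G) :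
    ∃ c : ℂ, ∀ z : GL (Fin N) ℂ, (∀ p ∈ P, ev (z : Mt N) p = 0) → φ.f ℂ (g₀ * z) = c := by
  let L := FractionRing (PM N ⧸ P)
  let θ : PM N →ₐ[ℂ] L :=
    (IsScalarTower.toAlgHom ℂ (PM N ⧸ P) L).comp (Ideal.Quotient.mkₐ ℂ P)
  have hθ : ∀ p, θ p = 0 ↔ p ∈ P := fun p => by
    change algebraMap (PM N ⧸ P) L (Ideal.Quotient.mk P p) = 0 ↔ _
    rw [map_eq_zero_iff _ (IsFractionRing.injective (PM N ⧸ P) L), Ideal.Quotient.eq_zero_iff_mem]
  have hev : ∀ p, ev ((genM N).map θ) p = θ p := fun p => by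
    rw [← map_ev, ev_genM]
  have hu : IsUnit ((genM N).map θ) := by
    rw [Matrix.isUnit_iff_isUnit_det, ← ev_det, hev, isUnit_iff_ne_zero]
    exact fun h => hdet ((hθ _).1 h)
  have hx : hu.unit ∈ pts (stabG G v) L := fun p hp => by
    rw [IsUnit.unit_spec, hev]; exact (hθ p).2 (hI hp)
  obtain ⟨c, hc⟩ := mem_range G v φ hφ hx hg₀
  refine ⟨c, fun z hz => ?_⟩
  obtain ⟨k, p, hp⟩ := (shift φ g₀ c).univ
  have h1 := hp L hu.unit
  have h2 : (shift φ g₀ c).f L hu.unit = 0 := sub_eq_zero.2 hc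
  rw [h2, zero_mul, IsUnit.unit_spec, hev] at h1
  have h3 := hp ℂ z
  rw [hz p ((hθ p).1 h1.symm)] at h3
  have h4 : (shift φ g₀ c).f ℂ z = 0 := ((det_unit z).pow k).mul_left_eq_zero.1 h3
  have h5 := sub_eq_zero.1 h4
  rwa [gmap_self] at h5

/-- The right translates of the function by the stabiliser, as functions on the group. -/
noncomputable def tr (G : Subgroup (GL (Fin N) ℂ)) (v : Fin N → ℂ) (φ : NatFun N)
    (z : stabG G v) : G → ℂ := fun g => φ.f ℂ (g * z)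

theorem finite_tr (G : Subgroup (GL (Fin N) ℂ)) (v : Fin N → ℂ) (φ : NatFun N)
    (hφ : ∀ (L : Type) [Field L] [Algebra ℂ L], ∀ g ∈ pts G L, ∀ ξ ∈ bcM (hS G v) L,
      (φ.f (DualNumber L) (gmap (dualIn L) g * oneEps ξ)).snd = 0) :
    (Set.range (tr G v φ)).Finite := by
  have hex : ∀ z : stabG G v, ∃ P ∈ (vanI (stabG G v : Set (GL (Fin N) ℂ))).minimalPrimes,
      P ≤ RingHom.ker (ev ((z : GL (Fin N) ℂ) : Mt N)) := fun z => by
    have : (RingHom.ker (ev ((z : GL (Fin N) ℂ) : Mt N))).IsPrime := RingHom.ker_isPrime _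
    exact Ideal.exists_minimalPrimes_le fun p hp => hp z z.2
  choose m hm hm' using hex
  have hfin : (vanI (stabG G v : Set (GL (Fin N) ℂ))).minimalPrimes.Finite :=
    Ideal.finite_minimalPrimes_of_isNoetherianRing _ _
  have hfac : Function.FactorsThrough (tr G v φ) m := by
    intro z z' hzz
    funext g
    have : (m z).IsPrime := (hm z).1.1
    have hdet : (genM N).det ∉ m z := fun h => by
      have h1 : ev ((z : GL (Fin N) ℂ) : Mt N) (genM N).det = 0 := hm' z h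
      rw [ev_det] at h1
      exact (det_unit (z : GL (Fin N) ℂ)).ne_zero h1
    obtain ⟨c, hc⟩ := const_on_prime G v φ hφ (m z) (hm z).1.2 hdet g.2
    exact (hc z fun p hp => hm' z hp).trans (hc z' fun p hp => hm' z' (hzz ▸ hp)).symm
  obtain ⟨e, he⟩ := (Function.factorsThrough_iff _).1 hfac
  refine (hfin.image e).subset ?_
  rintro _ ⟨z, rfl⟩
  exact ⟨m z, hm z, by rw [he]; rfl⟩

/-- The product of the differences of a constant and finitely many right translates. -/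
noncomputable def prodFun (φ : NatFun N) {ι : Type} (T : Finset ι) (z : ι → GL (Fin N) ℂ)
    (c : ℂ) : NatFun N where
  f R _ _ g := ∏ i ∈ T, (algebraMap ℂ R c - φ.f R (g * gmap (algebraMap ℂ R) (z i)))
  nat R S _ _ _ _ f g := by
    rw [map_prod]
    refine Finset.prod_congr rfl fun i _ => ?_
    rw [map_sub, φ.nat, gmap_mul, gmap_const, f.commutes]

/-- A regular function with finitely many values on an irreducible group is constant. -/
theorem const_of_finite (G : Subgroup (GL (Fin N) ℂ))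
    (hirr : (vanI (G : Set (GL (Fin N) ℂ))).IsPrime) (φ : NatFun N) {ι : Type} (T : Finset ι)
    (a : ι → ℂ) (h : ∀ g ∈ G, ∏ i ∈ T, (φ.f ℂ g - a i) = 0) : ∀ g ∈ G, φ.f ℂ g = φ.f ℂ 1 := by
  obtain ⟨k, p, hp⟩ := φ.univ
  have key : ∀ (g : GL (Fin N) ℂ) (i : ι),
      ev (g : Mt N) (p - MvPolynomial.C (a i) * (genM N).det ^ k) =
        (φ.f ℂ g - a i) * (g : Mt N).det ^ k := fun g i => by
    rw [map_sub, map_mul, map_pow, ev_det, ← hp, sub_mul]
    congr 2
    exact (ev (g : Mt N)).commutes (a i)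
  have h1 : ∏ i ∈ T, (p - MvPolynomial.C (a i) * (genM N).det ^ k) ∈
      vanI (G : Set (GL (Fin N) ℂ)) := fun g hg => by
    rw [map_prod, Finset.prod_congr rfl fun i _ => key g i, Finset.prod_mul_distrib, h g hg,
      zero_mul]
  obtain ⟨i, -, hi⟩ := Ideal.IsPrime.prod_mem_iff.1 h1
  have h2 : ∀ g ∈ G, φ.f ℂ g = a i := fun g hg => by
    have h3 := hi g hg
    rw [key] at h3
    exact sub_eq_zero.1 (((det_unit g).pow k).mul_left_eq_zero.1 h3)
  exact fun g hg => (h2 g hg).trans (h2 1 G.one_mem).symm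

end ConstC

open ConstC in
theorem epi_of_nondegenerate (G : Subgroup (GL (Fin N) ℂ))
    (hG : GLClosed (G : Set (GL (Fin N) ℂ))) (hirr : (vanI (G : Set (GL (Fin N) ℂ))).IsPrime)
    (x₀ : ℙ ℂ (Fin N → ℂ)) (Z : Set (ℙ ℂ (Fin N → ℂ))) (hZ : Subvariety Z)
    (hZX : Z ⊆ orbit G x₀) (hnd : ¬ Degenerate G x₀ Z) : Epi G x₀.rep := by
  classical
  intro φ hφ
  have hfin := finite_tr G x₀.rep φ hφ
  let T := hfin.toFinset
  have hT : ∀ f, f ∈ T ↔ ∃ z, tr G x₀.rep φ z = f := fun f => hfin.mem_toFinset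
  let z : (G → ℂ) → GL (Fin N) ℂ := fun f =>
    if h : ∃ y, tr G x₀.rep φ y = f then (h.choose : GL (Fin N) ℂ) else 1
  have hz : ∀ f ∈ T, ∀ g : G, φ.f ℂ (g * z f) = f g := fun f hf g => by
    have h := (hT f).1 hf
    have h1 : z f = (h.choose : GL (Fin N) ℂ) := dif_pos h
    rw [h1]
    exact congrFun h.choose_spec g
  have hval : ∀ (c : ℂ) (g : G), (prodFun φ T z c).f ℂ g = ∏ f ∈ T, (c - f g) := fun c g =>
    Finset.prod_congr rfl fun f hf => by rw [gmap_self, hz f hf]; rfl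
  have hmap : ∀ (x : stabG G x₀.rep), ∀ f ∈ T,
      (fun g : G => f (g * ⟨x, stabG_le G _ x.2⟩)) ∈ T := fun x f hf => by
    obtain ⟨y, rfl⟩ := (hT f).1 hf
    refine (hT _).2 ⟨x * y, ?_⟩
    funext g
    simp only [tr, Subgroup.coe_mul, mul_assoc]
  have hinv : ∀ c : ℂ, ∀ g ∈ G, ∀ x ∈ stabG G x₀.rep,
      (prodFun φ T z c).f ℂ (g * x) = (prodFun φ T z c).f ℂ g := fun c g hg x hx => by
    have e1 := hval c (⟨g, hg⟩ * ⟨x, stabG_le G _ hx⟩)
    have e2 := hval c ⟨g, hg⟩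
    refine e1.trans (Eq.trans ?_ e2.symm)
    refine Finset.prod_nbij' (fun f g => f (g * ⟨x, stabG_le G _ hx⟩))
      (fun f g => f (g * ⟨x⁻¹, stabG_le G _ ((stabG G _).inv_mem hx)⟩))
      (fun f hf => hmap ⟨x, hx⟩ f hf) (fun f hf => hmap ⟨x⁻¹, (stabG G _).inv_mem hx⟩ f hf)
      (fun f _ => ?_) (fun f _ => ?_) (fun f _ => rfl)
    · funext g; exact congrArg f (Subtype.ext (by simp))
    · funext g; exact congrArg f (Subtype.ext (by simp))
  refine const_of_finite G hirr φ T (fun f => f 1) fun g hg => ?_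
  have h1 := const_of_invariant G hG hirr x₀ Z hZ hZX hnd _ (hinv (φ.f ℂ g)) g hg
  have e1 := hval (φ.f ℂ g) ⟨g, hg⟩
  have e2 := hval (φ.f ℂ g) 1
  refine e2.symm.trans (h1.symm.trans (e1.trans ?_))
  refine Finset.prod_eq_zero ((hT _).2 ⟨1, rfl⟩) ?_
  simp [tr]

end Kol68
end

-- merged part: Pool.Agent.Work.MP_c53807_ag.LowBasic
section
open scoped Matrix

namespace Kol68

variable {N : ℕ}

theorem core_le (a p : Submodule ℂ (Mt N)) : core a p ≤ p := sSup_le fun _ hr => hr.1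

theorem stab_core (a p : Submodule ℂ (Mt N)) : Stab a (core a p) := by
  intro x hx y hy
  have : core a p ≤ (core a p).comap (adM x) :=
    sSup_le fun r hr z hz => (le_sSup hr : r ≤ core a p) (hr.2 x hx z hz)
  exact this hy

theorem le_core {a p r : Submodule ℂ (Mt N)} (h : r ≤ p) (hs : Stab a r) : r ≤ core a p :=
  le_sSup ⟨h, hs⟩

theorem trOn_of_maps_le {V : Type*} [AddCommGroup V] [Module ℂ V] [FiniteDimensional ℂ V]
    {r₁ r₂ : Submodule ℂ V} (hle : r₁ ≤ r₂) {f : V →ₗ[ℂ] V} (h : ∀ y ∈ r₂, f y ∈ r₁) :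
    trOn r₂ f = trOn r₁ f := by
  have h1 : f ∘ₗ pj r₂ = pj r₁ ∘ₗ (f ∘ₗ pj r₂) := by
    ext y
    exact ((isPj_pj r₁).2 _ (h _ ((isPj_pj r₂).1 y))).symm
  have h2 : (f ∘ₗ pj r₂) ∘ₗ pj r₁ = f ∘ₗ pj r₁ := by
    ext y
    simp only [LinearMap.comp_apply]
    rw [(isPj_pj r₂).2 _ (hle ((isPj_pj r₁).1 y))]
  rw [trOn, h1, LinearMap.trace_comp_comm', h2, trOn]

theorem adM_jacobi (x y z : Mt N) :
    adM x (adM y z) = adM (adM x y) z + adM y (adM x z) := by
  simp only [adM_apply]; noncomm_ring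

theorem trOn_adM_adM {r : Submodule ℂ (Mt N)} {x y : Mt N} (hx : ∀ z ∈ r, adM x z ∈ r)
    (hy : ∀ z ∈ r, adM y z ∈ r) : trOn r (adM (adM x y)) = 0 := by
  have : adM (adM x y) = adM x ∘ₗ adM y - adM y ∘ₗ adM x := by
    refine LinearMap.ext fun z => ?_
    rw [LinearMap.sub_apply, LinearMap.comp_apply, LinearMap.comp_apply, adM_jacobi x y z]
    abel
  rw [this, trOn_sub, trOn_comm hx hy, sub_self]

theorem adM_swap (x y : Mt N) : adM x y = -adM y x := by
  simp only [adM_apply]; abel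

theorem adM_self (x : Mt N) : adM x x = 0 := by
  simp only [adM_apply]; abel

theorem adM_add_left (x y z : Mt N) : adM (x + y) z = adM x z + adM y z := by
  simp only [adM_apply]; noncomm_ring

theorem adM_sub_left (x y z : Mt N) : adM (x - y) z = adM x z - adM y z := by
  simp only [adM_apply]; noncomm_ring

theorem adM_smul_left (c : ℂ) (x z : Mt N) : adM (c • x) z = c • adM x z := by
  simp only [adM_apply, smul_sub, smul_mul_assoc, mul_smul_comm]

theorem adM_pow_succ (f x : Mt N) (i : ℕ) : (adM f ^ (i + 1)) x = (adM f ^ i) (adM f x) := by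
  rw [pow_succ, Module.End.mul_apply]

theorem adM_pow_succ' (f x : Mt N) (i : ℕ) : (adM f ^ (i + 1)) x = adM f ((adM f ^ i) x) := by
  rw [pow_succ', Module.End.mul_apply]

/-- Degrees add under the bracket. -/
theorem deg_adM {d x y : Mt N} {k l : ℂ} (hx : adM d x = k • x) (hy : adM d y = l • y) :
    adM d (adM x y) = (k + l) • adM x y := by
  rw [adM_jacobi, hx, hy, adM_smul_left, map_smul, add_smul]

theorem deg_pow {d f x : Mt N} {k l : ℂ} (hf : adM d f = k • f) (hx : adM d x = l • x) (i : ℕ) :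
    adM d ((adM f ^ i) x) = (i * k + l) • (adM f ^ i) x := by
  induction i with
  | zero => simpa using hx
  | succ i ih =>
    rw [adM_pow_succ', deg_adM hf ih]
    congr 1
    push_cast; ring

theorem Stab.pow_mem {a r : Submodule ℂ (Mt N)} (h : Stab a r) {f x : Mt N} (hf : f ∈ a)
    (hx : x ∈ r) (i : ℕ) : (adM f ^ i) x ∈ r := by
  induction i with
  | zero => simpa using hx
  | succ i ih => rw [adM_pow_succ']; exact h f hf _ ih

/-- Codimension-one criterion for membership in the core: if `a = p + ℂ f` with `p` a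
subalgebra, and `s` is `a`-stable, then an `x ∈ s` all of whose `(ad f) ^ i x` lie in `p` is in
the largest `a`-stable subspace of `s ⊓ p`. -/
theorem mem_core_of_iter {a p s : Submodule ℂ (Mt N)} {f : Mt N} (hp : Stab p p)
    (ha : Stab a a) (hap : a = p ⊔ ℂ ∙ f) (hs : Stab a s) {x : Mt N} (hx : x ∈ s)
    (hi : ∀ i : ℕ, (adM f ^ i) x ∈ p) : x ∈ core a (s ⊓ p) := by
  let T : Submodule ℂ (Mt N) := s ⊓ ⨅ i : ℕ, p.comap (adM f ^ i)
  have mT : ∀ y, y ∈ T ↔ y ∈ s ∧ ∀ i : ℕ, (adM f ^ i) y ∈ p := by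
    intro y; simp [T, Submodule.mem_iInf]
  have fa : f ∈ a := by
    rw [hap]; exact Submodule.mem_sup_right (Submodule.mem_span_singleton_self f)
  have pa : p ≤ a := by rw [hap]; exact le_sup_left
  have dec : ∀ y ∈ a, ∃ q ∈ p, ∃ c : ℂ, y = q + c • f := by
    intro y hy
    rw [hap] at hy
    obtain ⟨q, hq, b, hb, rfl⟩ := Submodule.mem_sup.1 hy
    obtain ⟨c, rfl⟩ := Submodule.mem_span_singleton.1 hb
    exact ⟨q, hq, c, rfl⟩
  have fT : ∀ y ∈ T, adM f y ∈ T := by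
    intro y hy
    rw [mT] at hy ⊢
    exact ⟨hs f fa y hy.1, fun i => by rw [← adM_pow_succ]; exact hy.2 _⟩
  have key : ∀ i : ℕ, ∀ q ∈ p, ∀ y ∈ T, (adM f ^ i) (adM q y) ∈ p := by
    intro i
    induction i with
    | zero =>
      intro q hq y hy
      simpa using hp q hq y (by simpa using ((mT y).1 hy).2 0)
    | succ i ih =>
      intro q hq y hy
      obtain ⟨q', hq', c, e⟩ := dec _ (ha f fa q (pa hq))
      rw [adM_pow_succ, adM_jacobi, e, adM_add_left, adM_smul_left, map_add, map_add, map_smul]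
      exact p.add_mem (p.add_mem (ih q' hq' y hy) (p.smul_mem _ (((mT _).1 (fT y hy)).2 i)))
        (ih q hq _ (fT y hy))
  refine le_core (r := T) (fun y hy => Submodule.mem_inf.2
    ⟨((mT y).1 hy).1, by simpa using ((mT y).1 hy).2 0⟩) ?_
    ((mT x).2 ⟨hx, hi⟩)
  intro y hy z hz
  obtain ⟨q, hq, c, rfl⟩ := dec y hy
  rw [adM_add_left, adM_smul_left]
  exact T.add_mem ((mT _).2 ⟨hs q (pa hq) z ((mT z).1 hz).1, fun i => key i q hq z hz⟩)
    (T.smul_mem _ (fT z hz))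

theorem eq_sup_of_finrank {V : Type*} [AddCommGroup V] [Module ℂ V] [FiniteDimensional ℂ V]
    {r g : Submodule ℂ V} (hrg : r ≤ g) (hdim : Module.finrank ℂ g = Module.finrank ℂ r + 1)
    {f : V} (hf : f ∈ g) (hfr : f ∉ r) : g = r ⊔ ℂ ∙ f := by
  symm
  refine Submodule.eq_of_le_of_finrank_le
    (sup_le hrg ((Submodule.span_singleton_le_iff_mem _ _).2 hf)) ?_
  have : r < r ⊔ ℂ ∙ f := lt_of_le_of_ne le_sup_left fun h =>
    hfr (h ▸ Submodule.mem_sup_right (Submodule.mem_span_singleton_self f))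
  have := Submodule.finrank_lt_finrank_of_lt this
  omega

theorem nilp_of_strict (a : Fin N → ℤ) (y : Mt N) (hy : ∀ i j, y i j ≠ 0 → a i < a j) :
    IsNilpotent y := by
  have key : ∀ m : ℕ, ∀ i j, (y ^ m) i j ≠ 0 → a i + m ≤ a j := by
    intro m
    induction m with
    | zero =>
      intro i j h
      have : i = j := by
        by_contra c
        exact h (by simp [Matrix.one_apply_ne c])
      simp [this]
    | succ m ih =>
      intro i j h
      rw [pow_succ, Matrix.mul_apply] at h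
      obtain ⟨k, -, hk⟩ := Finset.exists_ne_zero_of_sum_ne_zero h
      have h1 := ih i k (left_ne_zero_of_mul hk)
      have h2 := hy k j (right_ne_zero_of_mul hk)
      push_cast; omega
  refine ⟨2 * (∑ i, (a i).natAbs) + 1, ?_⟩
  ext i j
  by_contra h
  have h1 := key _ i j h
  have b : ∀ i, (a i).natAbs ≤ ∑ i, (a i).natAbs := fun i =>
    Finset.single_le_sum (f := fun i => (a i).natAbs) (fun _ _ => Nat.zero_le _) (Finset.mem_univ i)
  have := b i
  have := b j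
  omega

theorem toLin'_adM (x y : Mt N) : Matrix.toLin' (adM x y) =
    Matrix.toLin' x ∘ₗ Matrix.toLin' y - Matrix.toLin' y ∘ₗ Matrix.toLin' x := by
  rw [adM_apply, map_sub, Matrix.toLin'_mul, Matrix.toLin'_mul]

theorem adM_mulVec (x y : Mt N) (w : Fin N → ℂ) :
    adM x y *ᵥ w = x *ᵥ (y *ᵥ w) - y *ᵥ (x *ᵥ w) := by
  rw [adM_apply, Matrix.sub_mulVec, Matrix.mulVec_mulVec, Matrix.mulVec_mulVec]

theorem trOn_toLin'_adM {g : Submodule ℂ (Mt N)} {W : Submodule ℂ (Fin N → ℂ)} (hW : StabV g W)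
    {x y : Mt N} (hx : x ∈ g) (hy : y ∈ g) : trOn W (Matrix.toLin' (adM x y)) = 0 := by
  rw [toLin'_adM, trOn_sub, trOn_comm (fun w hw => hW x hx w hw) (fun w hw => hW y hy w hw),
    sub_self]

/-- The flag generated by a vector. -/
noncomputable def flag (g : Submodule ℂ (Mt N)) (v : Fin N → ℂ) : ℕ → Submodule ℂ (Fin N → ℂ)
  | 0 => ⊥
  | n + 1 => (ℂ ∙ v) ⊔ ⨆ x ∈ g, (flag g v n).map (Matrix.toLin' x)

theorem flag_step {g : Submodule ℂ (Mt N)} {v : Fin N → ℂ} {n : ℕ} {x : Mt N} (hx : x ∈ g)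
    {w : Fin N → ℂ} (hw : w ∈ flag g v n) : x *ᵥ w ∈ flag g v (n + 1) := by
  refine Submodule.mem_sup_right ?_
  exact (le_iSup₂_of_le (f := fun x (_ : x ∈ g) => (flag g v n).map (Matrix.toLin' x)) x hx le_rfl)
    (Submodule.mem_map_of_mem hw)

theorem flag_mono (g : Submodule ℂ (Mt N)) (v : Fin N → ℂ) : Monotone (flag g v) := by
  refine monotone_nat_of_le_succ fun n => ?_
  induction n with
  | zero => exact bot_le
  | succ n ih =>
    exact sup_le_sup_left (iSup₂_mono fun x _ => Submodule.map_mono ih) _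

/-- Invariance lemma: the character of an ideal with eigenvector `v` kills commutators. -/
theorem lie_lemma {g J : Submodule ℂ (Mt N)} {v : Fin N → ℂ} (hv : v ≠ 0) (hJ : J ≤ g)
    (hs : Stab g J) (he : ∀ j ∈ J, ∃ c : ℂ, j *ᵥ v = c • v) {j x : Mt N} (hj : j ∈ J)
    (hx : x ∈ g) : adM x j *ᵥ v = 0 := by
  have A : ∀ n : ℕ, ∀ j ∈ J, ∀ c : ℂ, j *ᵥ v = c • v → ∀ w ∈ flag g v (n + 1),
      j *ᵥ w - c • w ∈ flag g v n := by
    intro n
    induction n with
    | zero =>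
      intro j _ c hc
      have : flag g v 1 ≤ (flag g v 0).comap (Matrix.toLin' j - c • LinearMap.id) := by
        refine sup_le ((Submodule.span_singleton_le_iff_mem _ _).2 (by simp [hc])) ?_
        refine iSup₂_le fun x _ => ?_
        simp [flag]
      exact fun w hw => this hw
    | succ n ih =>
      intro j hj c hc
      have : flag g v (n + 2) ≤ (flag g v (n + 1)).comap (Matrix.toLin' j - c • LinearMap.id) := by
        refine sup_le ((Submodule.span_singleton_le_iff_mem _ _).2 (by simp [hc])) ?_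
        refine iSup₂_le fun x hx => ?_
        rintro _ ⟨w, hw, rfl⟩
        obtain ⟨c', hc'⟩ := he _ (hs x hx j hj)
        have e : j *ᵥ (x *ᵥ w) - c • (x *ᵥ w) =
            x *ᵥ (j *ᵥ w - c • w) - ((adM x j *ᵥ w - c' • w) + c' • w) := by
          rw [adM_mulVec, Matrix.mulVec_sub, Matrix.mulVec_smul]; abel
        change j *ᵥ (x *ᵥ w) - c • (x *ᵥ w) ∈ flag g v (n + 1)
        rw [e]
        exact Submodule.sub_mem _ (flag_step hx (ih j hj c hc w hw))
          (Submodule.add_mem _ (flag_mono g v (Nat.le_succ n) (ih _ (hs x hx j hj) c' hc' w hw))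
            (Submodule.smul_mem _ _ hw))
      exact fun w hw => this hw
  obtain ⟨c, hc⟩ := he _ (hs x hx j hj)
  have B : ∀ n : ℕ, trOn (flag g v n) (Matrix.toLin' (adM x j) - c • LinearMap.id) = 0 := by
    intro n
    induction n with
    | zero => exact trOn_bot _
    | succ n ih =>
      rw [trOn_of_maps_le (flag_mono g v (Nat.le_succ n)) (fun w hw => A n _ (hs x hx j hj) c hc w hw),
        ih]
  obtain ⟨n, hn⟩ := monotone_stabilizes_iff_noetherian.2 inferInstance ⟨flag g v, flag_mono g v⟩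
  have e1 : flag g v n = flag g v (n + 1) := hn (n + 1) (Nat.le_succ n)
  have st : StabV g (flag g v n) := fun y hy w hw => by rw [e1]; exact flag_step hy hw
  have vm : v ∈ flag g v n := by
    rw [e1]; exact Submodule.mem_sup_left (Submodule.mem_span_singleton_self v)
  have B' := B n
  rw [trOn_sub, trOn_toLin'_adM st hx (hJ hj), trOn_smul, trOn_id, zero_sub, neg_eq_zero,
    mul_eq_zero] at B'
  rcases B' with h | h
  · rw [hc, h, zero_smul]
  · exfalso
    have : flag g v n = ⊥ := Submodule.finrank_eq_zero.1 (by exact_mod_cast h)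
    rw [this] at vm
    exact hv vm

namespace LowData

variable (D : LowData N)

theorem h_le : D.h ≤ D.g := fun x hx => ((D.mem_h x).1 hx).1

theorem h_lie : Stab D.h D.h := by
  intro x hx y hy
  obtain ⟨x1, c, hc⟩ := (D.mem_h x).1 hx
  obtain ⟨y1, c', hc'⟩ := (D.mem_h y).1 hy
  refine (D.mem_h _).2 ⟨D.g_lie x x1 y y1, 0, ?_⟩
  rw [adM_mulVec, hc, hc', Matrix.mulVec_smul, Matrix.mulVec_smul, hc, hc', smul_comm, sub_self,
    zero_smul]

/-- Coordinates in the eigenbasis of `d`. -/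
noncomputable def cj (x : Mt N) : Mt N := ((D.Q⁻¹ : GL (Fin N) ℂ) : Mt N) * x * (D.Q : Mt N)

theorem cj_eq (x : Mt N) : (D.Q : Mt N) * D.cj x * ((D.Q⁻¹ : GL (Fin N) ℂ) : Mt N) = x := by
  simp only [cj, ← mul_assoc, Units.mul_inv, one_mul]
  rw [mul_assoc, Units.mul_inv, mul_one]

theorem cj_conj (y : Mt N) : D.cj ((D.Q : Mt N) * y * ((D.Q⁻¹ : GL (Fin N) ℂ) : Mt N)) = y := by
  simp only [cj, ← mul_assoc, Units.inv_mul, one_mul]
  rw [mul_assoc, Units.inv_mul, mul_one]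

theorem cj_mul (x y : Mt N) : D.cj (x * y) = D.cj x * D.cj y := by
  simp only [cj, ← mul_assoc]
  rw [mul_assoc _ (D.Q : Mt N) ((D.Q⁻¹ : GL (Fin N) ℂ) : Mt N), Units.mul_inv, mul_one]

theorem cj_ad (x : Mt N) (i j : Fin N) :
    D.cj (adM D.d x) i j = ((D.a i : ℂ) - D.a j) * D.cj x i j := by
  have e : D.cj (adM D.d x) = D.cj D.d * D.cj x - D.cj x * D.cj D.d := by
    rw [← cj_mul, ← cj_mul, adM_apply, cj, mul_sub, sub_mul]; rfl
  have e2 : D.cj D.d = Matrix.diagonal fun i => (D.a i : ℂ) := by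
    conv_lhs => rw [D.d_eq]
    exact D.cj_conj _
  rw [e, e2, Matrix.sub_apply, Matrix.diagonal_mul, Matrix.mul_diagonal]
  ring

theorem cj_deg {x : Mt N} {μ : ℂ} (hx : adM D.d x = μ • x) {i j : Fin N} (h : D.cj x i j ≠ 0) :
    μ = ((D.a i - D.a j : ℤ) : ℂ) := by
  have e := D.cj_ad x i j
  rw [hx, cj, mul_smul_comm, smul_mul_assoc, Matrix.smul_apply, smul_eq_mul] at e
  push_cast
  exact mul_right_cancel₀ h e

/-- An `ad d`-stable subspace is spanned by homogeneous elements of integral degree. -/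
theorem hom_ind {r r' : Submodule ℂ (Mt N)} (hr : ∀ y ∈ r, adM D.d y ∈ r)
    (h : ∀ (k : ℤ) (x : Mt N), x ∈ r → adM D.d x = (k : ℂ) • x → x ∈ r') : r ≤ r' := by
  have top : ⨆ μ, Module.End.genEigenspace (adM D.d) μ 1 = ⊤ := by
    rw [eq_top_iff]
    intro x _
    rw [← D.cj_eq x, Matrix.matrix_eq_sum_single (D.cj x)]
    simp only [Finset.mul_sum, Finset.sum_mul]
    refine Submodule.sum_mem _ fun i _ => Submodule.sum_mem _ fun j _ => ?_
    refine Submodule.mem_iSup_of_mem ((D.a i : ℂ) - D.a j) ?_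
    refine Module.End.mem_eigenspace_iff.2 ?_
    rw [← D.cj_eq (adM D.d _), ← smul_mul_assoc, ← mul_smul_comm]
    congr 2
    ext k l
    rw [cj_ad, cj_conj, Matrix.smul_apply, smul_eq_mul]
    by_cases c : i = k ∧ j = l
    · rw [c.1, c.2]
    · rw [Matrix.single_apply_of_ne _ _ _ _ _ c, mul_zero, mul_zero]
  rw [Submodule.eq_iSup_inf_genEigenspace 1 hr top]
  refine iSup_le fun μ x hx => ?_
  by_cases c : x = 0
  · rw [c]; exact r'.zero_mem
  · have e : adM D.d x = μ • x := Module.End.mem_eigenspace_iff.1 hx.2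
    obtain ⟨i, j, hij⟩ : ∃ i j, D.cj x i j ≠ 0 := by
      by_contra hc
      push Not at hc
      apply c
      rw [← D.cj_eq x, show D.cj x = 0 from Matrix.ext hc, mul_zero, zero_mul]
    exact h _ x hx.1 (D.cj_deg e hij ▸ e)

theorem nilp_cj {x : Mt N} (h : IsNilpotent (D.cj x)) : IsNilpotent x := by
  obtain ⟨n, hn⟩ := h
  refine ⟨n, ?_⟩
  rw [← D.cj_eq x, Units.conj_pow, hn, mul_zero, zero_mul]

theorem cj_span {S : Set (Mt N)} {x : Mt N} (hx : x ∈ Submodule.span ℂ S) {i j : Fin N}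
    (h : ∀ y ∈ S, D.cj y i j = 0) : D.cj x i j = 0 := by
  induction hx using Submodule.span_induction with
  | mem y hy => exact h y hy
  | zero => simp [cj]
  | add y z _ _ hy hz =>
    rw [cj, mul_add, add_mul, Matrix.add_apply]
    exact (congrArg₂ (· + ·) hy hz).trans (add_zero 0)
  | smul c y _ hy =>
    rw [cj, mul_smul_comm, smul_mul_assoc, Matrix.smul_apply]
    exact (congrArg (c • ·) hy).trans (smul_zero c)

theorem nilp_neg {x : Mt N}
    (hx : x ∈ Submodule.span ℂ {y | ∃ k : ℤ, k < 0 ∧ adM D.d y = (k : ℂ) • y}) :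
    IsNilpotent x := by
  refine D.nilp_cj (nilp_of_strict D.a _ fun i j h => ?_)
  by_contra c
  refine h (D.cj_span hx ?_)
  rintro y ⟨k, hk, e⟩
  by_contra c2
  have : k = D.a i - D.a j := by exact_mod_cast D.cj_deg e c2
  omega

theorem nilp_pos {x : Mt N}
    (hx : x ∈ Submodule.span ℂ {y | ∃ k : ℤ, 0 < k ∧ adM D.d y = (k : ℂ) • y}) :
    IsNilpotent x := by
  refine D.nilp_cj (nilp_of_strict (fun i => -D.a i) _ fun i j h => ?_)
  by_contra c
  refine h (D.cj_span hx ?_)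
  rintro y ⟨k, hk, e⟩
  by_contra c2
  have : k = D.a i - D.a j := by exact_mod_cast D.cj_deg e c2
  omega

theorem exists_hom {r r' : Submodule ℂ (Mt N)} (hr : ∀ y ∈ r, adM D.d y ∈ r) (h : ¬ r ≤ r') :
    ∃ (k : ℤ) (x : Mt N), x ∈ r ∧ adM D.d x = (k : ℂ) • x ∧ x ∉ r' := by
  by_contra c
  push Not at c
  exact h (D.hom_ind hr c)

theorem stab_sup_hom {r : Submodule ℂ (Mt N)} (hr : ∀ y ∈ r, adM D.d y ∈ r) {x : Mt N} {k : ℂ}
    (hx : adM D.d x = k • x) : ∀ y ∈ r ⊔ ℂ ∙ x, adM D.d y ∈ r ⊔ ℂ ∙ x := by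
  intro y hy
  obtain ⟨a, ha, b, hb, rfl⟩ := Submodule.mem_sup.1 hy
  obtain ⟨c, rfl⟩ := Submodule.mem_span_singleton.1 hb
  rw [map_add, map_smul, hx]
  exact Submodule.add_mem_sup (hr a ha) (Submodule.smul_mem _ _
    (Submodule.smul_mem _ _ (Submodule.mem_span_singleton_self x)))

theorem hom_chain {r₁ r₂ : Submodule ℂ (Mt N)} (hle : r₁ ≤ r₂)
    (h₁ : ∀ y ∈ r₁, adM D.d y ∈ r₁) (h₂ : ∀ y ∈ r₂, adM D.d y ∈ r₂)
    (P : Submodule ℂ (Mt N) → Prop) (h0 : P r₁)
    (hs : ∀ (r r' : Submodule ℂ (Mt N)) (k : ℤ) (x : Mt N), x ∈ r₂ → adM D.d x = (k : ℂ) • x →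
      x ∉ r₁ → trOn r' (adM D.d) = trOn r (adM D.d) + k → P r → P r') : P r₂ := by
  have key : ∀ m : ℕ, ∀ r, r₁ ≤ r → r ≤ r₂ → (∀ y ∈ r, adM D.d y ∈ r) → P r →
      Module.finrank ℂ r₂ ≤ Module.finrank ℂ r + m → P r₂ := by
    intro m
    induction m with
    | zero =>
      intro r _ b _ p e
      rwa [← Submodule.eq_of_le_of_finrank_le b e]
    | succ m ih =>
      intro r a b s p e
      by_cases c : r₂ ≤ r
      · rwa [← le_antisymm b c]
      · obtain ⟨k, x, x1, x2, x3⟩ := D.exists_hom h₂ c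
        have lt : r < r ⊔ ℂ ∙ x := lt_of_le_of_ne le_sup_left fun h =>
          x3 (h ▸ Submodule.mem_sup_right (Submodule.mem_span_singleton_self x))
        have := Submodule.finrank_lt_finrank_of_lt lt
        refine ih (r ⊔ ℂ ∙ x) (a.trans le_sup_left)
          (sup_le b ((Submodule.span_singleton_le_iff_mem _ _).2 x1)) (D.stab_sup_hom s x2)
          (hs r _ k x x1 x2 (fun h => x3 (a h)) (trOn_step s x3 (by simp [x2])) p) (by omega)
  exact key _ r₁ le_rfl hle h₁ h0 (Nat.le_add_left _ _)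

theorem trOn_pos_of {r₁ r₂ : Submodule ℂ (Mt N)} (hle : r₁ ≤ r₂)
    (h₁ : ∀ y ∈ r₁, adM D.d y ∈ r₁) (h₂ : ∀ y ∈ r₂, adM D.d y ∈ r₂)
    (h : ∀ (k : ℤ) (x : Mt N), x ∈ r₂ → adM D.d x = (k : ℂ) • x → x ∉ r₁ → 0 < k) :
    r₁ = r₂ ∨ ∃ n : ℕ, 0 < n ∧ trOn r₂ (adM D.d) = trOn r₁ (adM D.d) + n := by
  refine D.hom_chain hle h₁ h₂
    (fun r => r₁ = r ∨ ∃ n : ℕ, 0 < n ∧ trOn r (adM D.d) = trOn r₁ (adM D.d) + n) (Or.inl rfl) ?_
  intro r r' k x x1 x2 x3 e p
  obtain ⟨m, rfl⟩ := Int.eq_ofNat_of_zero_le (h k x x1 x2 x3).le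
  have m0 : 0 < m := by exact_mod_cast h _ x x1 x2 x3
  right
  rcases p with rfl | ⟨n, -, p⟩
  · exact ⟨m, m0, by rw [e]; simp⟩
  · exact ⟨n + m, by omega, by rw [e, p]; push_cast; ring⟩

theorem trOn_eq_of_deg_zero {r₁ r₂ : Submodule ℂ (Mt N)} (hle : r₁ ≤ r₂)
    (h₁ : ∀ y ∈ r₁, adM D.d y ∈ r₁) (h₂ : ∀ y ∈ r₂, adM D.d y ∈ r₂)
    (h : ∀ (k : ℤ) (x : Mt N), x ∈ r₂ → adM D.d x = (k : ℂ) • x → x ∉ r₁ → k = 0) :
    trOn r₂ (adM D.d) = trOn r₁ (adM D.d) := by
  refine D.hom_chain hle h₁ h₂ (fun r => trOn r (adM D.d) = trOn r₁ (adM D.d)) rfl ?_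
  intro r r' k x x1 x2 x3 e p
  rw [e, p, h k x x1 x2 x3]; simp

theorem v_mem : D.v ∈ D.V' := Submodule.mem_sInf.2 fun _ hW => hW.1

theorem stabV : StabV D.g D.V' := fun x hx w hw =>
  Submodule.mem_sInf.2 fun W hW => hW.2 x hx w (Submodule.mem_sInf.1 hw W hW)

/-- The largest ideal of `g` inside `h` acts by scalars on `V'`. -/
theorem core_scalar {j : Mt N} (hj : j ∈ core D.g D.h) :
    ∃ c : ℂ, ∀ w ∈ D.V', j *ᵥ w = c • w := by
  have he : ∀ j ∈ core D.g D.h, ∃ c : ℂ, j *ᵥ D.v = c • D.v :=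
    fun j hj => ((D.mem_h j).1 (core_le _ _ hj)).2
  let W : Submodule ℂ (Fin N → ℂ) :=
    { carrier := {w | ∀ j ∈ core D.g D.h, ∀ c : ℂ, j *ᵥ D.v = c • D.v → j *ᵥ w = c • w}
      add_mem' := fun {a b} ha hb j hj c hc => by
        rw [Matrix.mulVec_add, ha j hj c hc, hb j hj c hc, smul_add]
      zero_mem' := fun j _ c _ => by simp
      smul_mem' := fun a w hw j hj c hc => by
        rw [Matrix.mulVec_smul, hw j hj c hc, smul_comm] }
  have hW : D.V' ≤ W := sInf_le ⟨fun _ _ _ hc => hc, fun x hx w hw j hj c hc => by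
    have a := hw _ (stab_core _ _ x hx j hj) 0 (by
      rw [zero_smul]
      exact lie_lemma D.hv ((core_le _ _).trans D.h_le) (stab_core _ _) he hj hx)
    rw [adM_mulVec, zero_smul, sub_eq_zero, hw j hj c hc, Matrix.mulVec_smul] at a
    exact a.symm⟩
  obtain ⟨c, hc⟩ := he j hj
  exact ⟨c, fun w hw => hW hw j hj c hc⟩

theorem core_zero {j : Mt N} (hj : j ∈ core D.g D.h)
    (hj' : j ∈ Submodule.span ℂ {z | ∃ x ∈ D.g, ∃ y ∈ D.g, z = adM x y}) :
    ∀ w ∈ D.V', j *ᵥ w = 0 := by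
  obtain ⟨c, hc⟩ := D.core_scalar hj
  have t0 : trOn D.V' (Matrix.toLin' j) = 0 := by
    clear hc hj
    induction hj' using Submodule.span_induction with
    | mem y hy =>
      obtain ⟨x, hx, z, hz, rfl⟩ := hy
      exact trOn_toLin'_adM D.stabV hx hz
    | zero => rw [map_zero, trOn_zero]
    | add y z _ _ hy hz => rw [map_add, trOn_add, hy, hz, add_zero]
    | smul c y _ hy => rw [map_smul, trOn_smul, hy, mul_zero]
  rw [trOn_congr (g := c • LinearMap.id) (fun w hw => hc w hw), trOn_smul, trOn_id,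
    mul_eq_zero] at t0
  rcases t0 with h | h
  · intro w hw
    rw [hc w hw, h, zero_smul]
  · exfalso
    have : D.V' = ⊥ := Submodule.finrank_eq_zero.1 (by exact_mod_cast h)
    have vm := D.v_mem
    rw [this] at vm
    exact D.hv vm

/-- The finishing lemma. -/
theorem good_of {E F : Mt N} (hE : E ∈ D.h) (hF : F ∈ D.g) (nE : IsNilpotent E)
    (nF : IsNilpotent F) (hFh : F ∉ D.h) (hH : adM E F ∈ D.h)
    (hHF : adM (adM E F) F + (2 : ℂ) • F ∈ core D.g D.h)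
    (hF' : F ∈ Submodule.span ℂ {z | ∃ x ∈ D.g, ∃ y ∈ D.g, z = adM x y})
    (hgen : ∀ k : Submodule ℂ (Mt N), D.h ≤ k → k ≤ D.g → F ∈ k → Stab k k → k = D.g) :
    D.Good := by
  have E0 : E *ᵥ D.v = 0 := by
    obtain ⟨-, c, hc⟩ := (D.mem_h E).1 hE
    obtain ⟨n, hn⟩ := nE
    have : ∀ m : ℕ, E ^ m *ᵥ D.v = c ^ m • D.v := by
      intro m
      induction m with
      | zero => simp
      | succ m ih => rw [pow_succ', ← Matrix.mulVec_mulVec, ih, Matrix.mulVec_smul, hc, smul_smul,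
          pow_succ]
    have h := this n
    rw [hn, Matrix.zero_mulVec] at h
    rw [hc, eq_zero_of_pow_eq_zero ((smul_eq_zero.1 h.symm).resolve_right D.hv), zero_smul]
  obtain ⟨-, lam, hl⟩ := (D.mem_h _).1 hH
  have z := D.core_zero hHF (Submodule.add_mem _
    (Submodule.subset_span ⟨_, D.h_le hH, _, hF, rfl⟩) (Submodule.smul_mem _ _ hF'))
  have mV : ∀ k : ℕ, F ^ k *ᵥ D.v ∈ D.V' := by
    intro k
    induction k with
    | zero => simpa using D.v_mem
    | succ k ih => rw [pow_succ', ← Matrix.mulVec_mulVec]; exact D.stabV F hF _ ih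
  have hw : ∀ k : ℕ, adM E F *ᵥ (F ^ k *ᵥ D.v) = (lam - 2 * k) • (F ^ k *ᵥ D.v) := by
    intro k
    induction k with
    | zero => simpa using hl
    | succ k ih =>
      have t := z _ (mV k)
      rw [Matrix.add_mulVec, adM_mulVec (adM E F), ih, Matrix.smul_mulVec, Matrix.mulVec_smul] at t
      rw [pow_succ', ← Matrix.mulVec_mulVec]
      push_cast
      linear_combination (norm := module) t
  refine ⟨E, F, D.h_le hE, hF, nE, nF, hFh, E0, ⟨lam, fun k => ?_⟩, hgen⟩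
  induction k with
  | zero =>
    have t := hl
    rw [adM_mulVec, E0, Matrix.mulVec_zero, sub_zero] at t
    simpa using t
  | succ k ih =>
    have t := hw (k + 1)
    rw [adM_mulVec, ih, Matrix.mulVec_smul, Matrix.mulVec_mulVec D.v F (F ^ k), ← pow_succ',
      Matrix.mulVec_mulVec D.v F (F ^ (k + 1)), ← pow_succ'] at t
    push_cast at t ⊢
    linear_combination (norm := module) t

/-- Line analysis: `r` is a subalgebra of codimension one in `g` containing `h`. -/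
theorem line {r : Submodule ℂ (Mt N)} (hhr : D.h ≤ r) (hrg : r ≤ D.g) (hr : Stab r r)
    (hdim : Module.finrank ℂ D.g = Module.finrank ℂ r + 1) :
    ∃ (a : ℤ) (e f : Mt N), 0 < a ∧ f ∈ D.g ∧ f ∉ r ∧ e ∈ r ∧
      adM D.d f = (-a : ℂ) • f ∧ adM D.d e = (a : ℂ) • e ∧
      adM e f - (2 / a : ℂ) • D.d ∈ core D.g r ∧
      r = core D.g r ⊔ (ℂ ∙ D.d) ⊔ (ℂ ∙ e) := by
  have dr : D.d ∈ r := hhr D.d_mem
  have dg : D.d ∈ D.g := hrg dr
  have sr : ∀ y ∈ r, adM D.d y ∈ r := hr _ dr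
  have sg : ∀ y ∈ D.g, adM D.d y ∈ D.g := D.g_lie _ dg
  have ne : ¬ D.g ≤ r := fun h => by
    rw [le_antisymm hrg h] at hdim; omega
  obtain ⟨n, n0, hn⟩ := (D.tr_pos r hrg fun x hx => hr x (hhr hx)).resolve_left
    fun h => ne (D.no_ideal r hhr hrg h).ge
  have n0' : (n : ℂ) ≠ 0 := by exact_mod_cast n0.ne'
  have deg : ∀ (k : ℤ) (x : Mt N), x ∈ D.g → adM D.d x = (k : ℂ) • x → x ∉ r → k = -n := by
    intro k x x1 x2 x3
    have t := trOn_step sr x3 (k := k) (by simp [x2])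
    rw [← eq_sup_of_finrank hrg hdim x1 x3, D.tr_ideal _ le_rfl D.g_lie, hn] at t
    have : ((n + k : ℤ) : ℂ) = 0 := by push_cast; exact t.symm
    have : (n : ℤ) + k = 0 := by exact_mod_cast this
    omega
  obtain ⟨k, f, fg, fd, fr⟩ := D.exists_hom sg ne
  rw [deg k f fg fd fr] at fd
  have gs := eq_sup_of_finrank hrg hdim fg fr
  have dec : ∀ y ∈ D.g, ∃ q ∈ r, ∃ c : ℂ, y = q + c • f := by
    intro y hy
    rw [gs] at hy
    obtain ⟨q, hq, b, hb, rfl⟩ := Submodule.mem_sup.1 hy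
    obtain ⟨c, rfl⟩ := Submodule.mem_span_singleton.1 hb
    exact ⟨q, hq, c, rfl⟩
  have crit : ∀ (k : ℤ) (x : Mt N), x ∈ D.g → adM D.d x = (k : ℂ) • x →
      (∀ i : ℕ, k = (i - 1) * n → (adM f ^ i) x ∈ r) → x ∈ core D.g r := by
    intro k x x1 x2 x3
    have := mem_core_of_iter hr D.g_lie gs D.g_lie x1 fun i => by
      by_contra c
      have t := deg (i * (-n) + k) _ (D.g_lie.pow_mem fg x1 i)
        (by rw [deg_pow fd x2 i]; push_cast; rfl) c
      exact c (x3 i (by linear_combination t))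
    rwa [inf_eq_right.2 hrg] at this
  have Kr := core_le D.g r
  have Ks := stab_core D.g r
  have sK : ∀ y ∈ core D.g r, adM D.d y ∈ core D.g r := Ks _ dg
  have tK : trOn (core D.g r) (adM D.d) = 0 := D.tr_ideal _ (Kr.trans hrg) Ks
  have n1 : (0 : ℤ) < n := by exact_mod_cast n0
  have fdd : adM f D.d = (n : ℂ) • f := by
    rw [adM_swap, fd]; push_cast; rw [neg_smul, neg_neg]
  obtain ⟨e0, e0g, e0d, e0r⟩ : ∃ e0 ∈ D.g, adM D.d e0 = (n : ℂ) • e0 ∧ (adM f ^ 2) e0 ∉ r := by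
    by_contra c
    push Not at c
    have := D.trOn_eq_of_deg_zero Kr sK sr fun k x x1 x2 x3 => by
      by_contra k0
      refine x3 (crit k x (hrg x1) x2 fun i hi => ?_)
      match i with
      | 0 => simpa using x1
      | 1 => exact absurd (by simpa using hi) k0
      | i + 2 =>
        rw [add_comm, pow_add, Module.End.mul_apply]
        refine c _ (D.g_lie.pow_mem fg (hrg x1) i) ?_
        rw [deg_pow fd x2 i, hi]
        congr 1
        push_cast; ring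
    rw [hn, tK] at this
    exact n0' this
  obtain ⟨q, hq, c, hc⟩ := dec _ (D.g_lie.pow_mem fg e0g 2)
  have c0 : c ≠ 0 := by
    rintro rfl
    exact e0r (by rw [hc, zero_smul, add_zero]; exact hq)
  obtain ⟨e, eg, ed, q', hq', he⟩ : ∃ e ∈ D.g, adM D.d e = (n : ℂ) • e ∧
      ∃ q' ∈ r, adM f (adM f e) = q' - (2 : ℂ) • f := by
    refine ⟨(-2 / c) • e0, D.g.smul_mem _ e0g, by rw [map_smul, e0d, smul_comm],
      (-2 / c) • q, r.smul_mem _ hq, ?_⟩
    rw [sq, Module.End.mul_apply] at hc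
    rw [map_smul, map_smul, hc, smul_add, smul_smul, div_mul_cancel₀ _ c0, neg_smul,
      sub_eq_add_neg]
  have er : e ∈ r := by
    by_contra h
    have := deg n e eg (by exact_mod_cast ed) h
    omega
  have zero : ∀ x ∈ D.g, adM D.d x = 0 → adM f x ∈ r → x ∈ core D.g r := by
    intro x x1 x2 x3
    refine crit 0 x x1 (by simpa using x2) fun i hi => ?_
    have : (i : ℤ) - 1 = 0 := (mul_eq_zero.1 hi.symm).resolve_right n1.ne'
    have : i = 1 := by omega
    simpa [this] using x3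
  refine ⟨n, e, f, n1, fg, fr, er, by exact_mod_cast fd, by exact_mod_cast ed, ?_, ?_⟩
  · refine zero _ (D.g.sub_mem (D.g_lie e eg f fg) (D.g.smul_mem _ dg)) ?_ ?_
    · rw [map_sub, map_smul, adM_self, deg_adM ed fd]; simp
    · rw [map_sub, map_smul, fdd, adM_swap e f, map_neg, he, smul_smul]
      push_cast
      rw [div_mul_cancel₀ _ n0']
      simpa using hq'
  · have s1 := D.stab_sup_hom sK (x := D.d) (k := 0) (by rw [adM_self, zero_smul])
    have t1 : trOn (core D.g r ⊔ ℂ ∙ D.d) (adM D.d) = 0 := by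
      by_cases c : D.d ∈ core D.g r
      · rw [sup_eq_left.2 ((Submodule.span_singleton_le_iff_mem _ _).2 c), tK]
      · rw [trOn_step sK c (k := 0) (by simp [adM_self]), tK, add_zero]
    have e1 : e ∉ core D.g r ⊔ ℂ ∙ D.d := by
      intro h
      obtain ⟨κ, hκ, b, hb, h⟩ := Submodule.mem_sup.1 h
      obtain ⟨c, rfl⟩ := Submodule.mem_span_singleton.1 hb
      have a1 : (n : ℂ) • e ∈ core D.g r := by
        rw [← ed, ← h, map_add, map_smul, adM_self, smul_zero, add_zero]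
        exact sK _ hκ
      have a2 := Kr (Ks f fg _ (Ks f fg _ ((Submodule.smul_mem_iff _ n0').1 a1)))
      rw [he] at a2
      have a3 := r.sub_mem hq' a2
      rw [sub_sub_cancel] at a3
      exact fr ((Submodule.smul_mem_iff _ two_ne_zero).1 a3)
    have t2 := trOn_step s1 e1 (k := n) (by simp [ed])
    have le1 : core D.g r ⊔ (ℂ ∙ D.d) ⊔ (ℂ ∙ e) ≤ r :=
      sup_le (sup_le Kr ((Submodule.span_singleton_le_iff_mem _ _).2 dr))
        ((Submodule.span_singleton_le_iff_mem _ _).2 er)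
    rcases D.trOn_pos_of le1 (D.stab_sup_hom s1 ed) sr (fun k x x1 x2 x3 => by
      by_contra k0
      refine x3 (Submodule.mem_sup_left ?_)
      rcases (not_lt.1 k0).eq_or_lt with rfl | k0
      · obtain ⟨q, hq, c, hc⟩ := dec _ (D.g_lie f fg x (hrg x1))
        have := zero (x - (c / n) • D.d) (D.g.sub_mem (hrg x1) (D.g.smul_mem _ dg))
          (by rw [map_sub, map_smul, adM_self, x2]; simp)
          (by rw [map_sub, map_smul, fdd, hc, smul_smul, div_mul_cancel₀ _ n0']; simpa using hq)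
        have t := Submodule.add_mem_sup this
          (Submodule.smul_mem _ (c / n) (Submodule.mem_span_singleton_self D.d))
        rwa [sub_add_cancel] at t
      · refine Submodule.mem_sup_left (crit k x (hrg x1) x2 fun i hi => ?_)
        rcases Nat.eq_zero_or_pos i with rfl | i0
        · simpa using x1
        · exfalso
          have : (0 : ℤ) ≤ (i - 1) * n := mul_nonneg (by omega) n1.le
          omega) with h | ⟨m, m0, h⟩
    · exact h.symm
    · exfalso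
      rw [hn, t2, t1, zero_add, left_eq_add] at h
      exact m0.ne' (by exact_mod_cast h)

theorem low_one (hdim : Module.finrank ℂ D.g = Module.finrank ℂ D.h + 1) : D.Good := by
  obtain ⟨a, e, f, a0, fg, fh, eh, fd, ed, z, -⟩ := D.line le_rfl D.h_le D.h_lie hdim
  have a0' : (a : ℂ) ≠ 0 := by exact_mod_cast a0.ne'
  have dg := D.h_le D.d_mem
  refine D.good_of eh fg (D.nilp_pos (Submodule.subset_span ⟨a, a0, ed⟩))
    (D.nilp_neg (Submodule.subset_span ⟨-a, by omega, by exact_mod_cast fd⟩)) fh ?_ ?_ ?_ ?_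
  · have := D.h.add_mem (core_le _ _ z) (D.h.smul_mem (2 / a : ℂ) D.d_mem)
    rwa [sub_add_cancel] at this
  · have t := (core D.g D.h).neg_mem (stab_core _ _ f fg _ z)
    rw [← adM_swap, adM_sub_left, adM_smul_left, fd, smul_smul] at t
    convert t using 1
    rw [sub_eq_add_neg, ← neg_smul]
    congr 2
    field_simp
  · have : f = (-1 / a : ℂ) • adM D.d f := by
      rw [fd, smul_smul]
      have : (-1 / a * -a : ℂ) = 1 := by field_simp
      rw [this, one_smul]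
    rw [this]
    exact Submodule.smul_mem _ _ (Submodule.subset_span ⟨_, dg, _, fg, rfl⟩)
  · intro k k1 k2 k3 _
    refine le_antisymm k2 ?_
    rw [eq_sup_of_finrank D.h_le hdim fg fh]
    exact sup_le k1 ((Submodule.span_singleton_le_iff_mem _ _).2 k3)

end LowData

end Kol68
end

-- merged part: Pool.Agent.Work.MP_c53807_ag.Pos
section
/-!
Consequences of epimorphicity: stable subspaces.
-/

open scoped Matrix

namespace Kol68

variable {N : ℕ} {n k : Type} [Fintype n] [DecidableEq n] [Fintype k] [DecidableEq k]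

namespace NatFun

/-- Constants. -/
def const (c : ℂ) : NatFun N := ⟨fun R _ _ _ => algebraMap ℂ R c, fun _ _ _ _ _ _ φ _ => φ.commutes c⟩

/-- Differences. -/
def sub (φ ψ : NatFun N) : NatFun N :=
  ⟨fun R _ _ g => φ.f R g - ψ.f R g, fun _ _ _ _ _ _ f g => by rw [map_sub, φ.nat, ψ.nat]⟩

/-- Products. -/
def mul (φ ψ : NatFun N) : NatFun N :=
  ⟨fun R _ _ g => φ.f R g * ψ.f R g, fun _ _ _ _ _ _ f g => by rw [map_mul, φ.nat, ψ.nat]⟩

/-- Finite products of powers. -/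
def prodPow {ι : Type} [Fintype ι] (φ : ι → NatFun N) (a : ι → ℕ) : NatFun N :=
  ⟨fun R _ _ g => ∏ i, (φ i).f R g ^ a i, fun _ _ _ _ _ _ f g => by
    simp only [map_prod, map_pow, (φ _).nat]⟩

theorem mul_eq_zero {A : Set (GL (Fin N) ℂ)} (hirr : (vanI A).IsPrime) (φ ψ : NatFun N)
    (h : ∀ g ∈ A, φ.f ℂ g * ψ.f ℂ g = 0) : (∀ g ∈ A, φ.f ℂ g = 0) ∨ ∀ g ∈ A, ψ.f ℂ g = 0 := by
  obtain ⟨k, p, hp⟩ := φ.univ
  obtain ⟨l, q, hq⟩ := ψ.univ
  have hd : ∀ g : GL (Fin N) ℂ, (g : Mt N).det ≠ 0 := fun g =>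
    ((Matrix.isUnit_iff_isUnit_det _).1 g.isUnit).ne_zero
  have : p * q ∈ vanI A := fun g hg => by
    rw [map_mul, ← hp, ← hq, mul_mul_mul_comm, h g hg, zero_mul]
  refine (hirr.mem_or_mem this).imp (fun h g hg => ?_) (fun h g hg => ?_)
  · have := hp ℂ g
    rw [h g hg] at this
    exact (_root_.mul_eq_zero.1 this).resolve_right (pow_ne_zero _ (hd g))
  · have := hq ℂ g
    rw [h g hg] at this
    exact (_root_.mul_eq_zero.1 this).resolve_right (pow_ne_zero _ (hd g))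

theorem const_of_finite {A : Set (GL (Fin N) ℂ)} (hirr : (vanI A).IsPrime) (φ : NatFun N)
    {S : Set ℂ} (hS : S.Finite) (h : ∀ g ∈ A, φ.f ℂ g ∈ S) :
    ∀ g ∈ A, ∀ g' ∈ A, φ.f ℂ g = φ.f ℂ g' := by
  have key : ∀ s : Finset ℂ, ∀ ψ : NatFun N, (∀ g ∈ A, ψ.f ℂ g * ∏ c ∈ s, (φ.f ℂ g - c) = 0) →
      (∀ g ∈ A, ψ.f ℂ g = 0) ∨ ∃ c, ∀ g ∈ A, φ.f ℂ g = c := by
    intro s
    induction s using Finset.induction_on with
    | empty => intro ψ h; left; simpa using h
    | insert c s hc ih =>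
      intro ψ h
      rcases ih (ψ.mul (φ.sub (const c))) (fun g hg => by
        have := h g hg
        rw [Finset.prod_insert hc, ← mul_assoc] at this
        exact this) with h' | h'
      · rcases mul_eq_zero hirr ψ (φ.sub (const c)) h' with h'' | h''
        · exact Or.inl h''
        · exact Or.inr ⟨c, fun g hg => sub_eq_zero.1 (h'' g hg)⟩
      · exact Or.inr h'
  intro g hg g' hg'
  rcases key hS.toFinset (const 1) (fun g hg => by
    rw [Finset.prod_eq_zero (hS.mem_toFinset.2 (h g hg)) (sub_self _), mul_zero]) with h' | ⟨c, hc⟩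
  · exact absurd (h' g hg) one_ne_zero
  · rw [hc g hg, hc g' hg']

end NatFun

/-- The ideal generated by the stabiliser. -/
noncomputable def g1 (G : Subgroup (GL (Fin N) ℂ)) (v : Fin N → ℂ) : Submodule ℂ (Mt N) :=
  Submodule.span ℂ {x | ∃ g ∈ G, ∃ ξ ∈ hS G v,
    x = (g : Mt N) * ξ * ((g⁻¹ : GL (Fin N) ℂ) : Mt N)}

variable {G : Subgroup (GL (Fin N) ℂ)} {v : Fin N → ℂ}

theorem hS_le_g1 : hS G v ≤ g1 G v := fun x hx =>
  Submodule.subset_span ⟨1, G.one_mem, x, hx, by simp⟩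

theorem g1_le_lie : g1 G v ≤ lie G := Submodule.span_le.2 <| by
  rintro _ ⟨g, hg, ξ, hξ, rfl⟩; exact conj_mem_lie hg hξ.1

theorem g1_le_of_conj {r : Submodule ℂ (Mt N)} (h : hS G v ≤ r)
    (hr : ∀ g ∈ G, (adRep (Fin N)).ρ ℂ g ∈ presA (vs r)) : g1 G v ≤ r := Submodule.span_le.2 <| by
  rintro _ ⟨g, hg, ξ, hξ, rfl⟩
  exact mem_bcM_self.1 (conj_mem_of_pres (pres_self.2 (hr g hg)) (mem_bcM_self.2 (h hξ)))

theorem ad_pres_g1 {g : GL (Fin N) ℂ} (hg : g ∈ G) :
    (adRep (Fin N)).ρ ℂ g ∈ presA (vs (g1 G v)) := by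
  rw [← pres_self, pres_ad_iff]
  intro x hx
  rw [mem_bcM_self, cm_self]
  induction hx using Submodule.span_induction with
  | mem y hy =>
    obtain ⟨g', hg', ξ, hξ, rfl⟩ := hy
    exact Submodule.subset_span ⟨g * g', G.mul_mem hg hg', ξ, hξ, by simp [Matrix.mul_assoc]⟩
  | zero => simp
  | add x y _ _ hx hy => rw [Matrix.mul_add, Matrix.add_mul]; exact Submodule.add_mem _ hx hy
  | smul c x _ hx => rw [Matrix.mul_smul, Matrix.smul_mul]; exact Submodule.smul_mem _ _ hx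

theorem stab_lie_g1 : Stab (lie G) (g1 G v) := fun _ hx =>
  ad_mem_presA_iff.1 (pres_dρ_of_lie _ (fun _ hg => ad_pres_g1 hg) hx)

theorem stab_g1 : Stab (g1 G v) (g1 G v) := fun x hx => stab_lie_g1 x (g1_le_lie hx)

theorem stab_hS : Stab (hS G v) (hS G v) := fun x hx y hy =>
  ⟨lie_stab G x hx.1 y hy.1,
    Subalgebra.sub_mem (presA (ℂ ∙ v)) (Subalgebra.mul_mem _ hx.2 hy.2)
      (Subalgebra.mul_mem _ hy.2 hx.2)⟩

section Trace

variable (P : NatRep (Fin N) n) {r : Submodule ℂ (n → ℂ)} (T : SQ ⊥ r k)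

/-- The trace of a conjugate on a subspace. -/
noncomputable def trFun (M : Matrix n n ℂ) : NatFun N where
  f R _ _ g := (T.π (P.ρ R g * cm R M * P.ρ R g⁻¹)).trace
  nat R S _ _ _ _ φ g := by
    rw [← gmap_inv, ← P.nat, ← P.nat, ← cm_map φ]
    have : (P.ρ R g * cm R M * P.ρ R g⁻¹).map φ =
        (P.ρ R g).map φ * (cm R M).map φ * (P.ρ R g⁻¹).map φ := by
      rw [Matrix.map_mul, Matrix.map_mul]
    erw [← this, ← T.π_mapA]
    simp [Matrix.trace]

theorem trace_conj (hirr : (vanI (G : Set (GL (Fin N) ℂ))).IsPrime)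
    (hr : ∀ x ∈ g1 G v, P.dρ ℂ x ∈ presA r) {L : Type} [CommRing L] [Algebra ℂ L]
    {g : GL (Fin N) L} (hg : g ∈ pts G L) {ξ : Matrix (Fin N) (Fin N) L}
    (hξ : ξ ∈ bcM (hS G v) L) :
    (T.π (P.ρ L g * P.dρ L ξ * P.ρ L g⁻¹)).trace = (T.π (P.dρ L ξ)).trace := by
  let F : Matrix (Fin N) (Fin N) L →ₗ[L] L :=
    Matrix.traceLinearMap k L L ∘ₗ T.πL L ∘ₗ
      (LinearMap.mulRight L (P.ρ L g⁻¹) ∘ₗ LinearMap.mulLeft L (P.ρ L g) - LinearMap.id) ∘ₗ
      P.dρ L
  have hF : ∀ ζ, F ζ = (T.π (P.ρ L g * P.dρ L ζ * P.ρ L g⁻¹)).trace - (T.π (P.dρ L ζ)).trace :=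
    fun ζ => by
      rw [← Matrix.trace_sub, ← T.π_sub]; rfl
  rw [← sub_eq_zero, ← hF, ← Submodule.mem_bot L]
  refine bcM_lin F ⊥ (fun x hx => ?_) hξ
  rw [Submodule.mem_bot, hF, P.dρ_cm, T.π_cm, trace_cm]
  refine ((trFun P T (P.dρ ℂ x)).sub (NatFun.const (T.π (P.dρ ℂ x)).trace)).vanish
    (A := G) (fun y hy => ?_) hg
  have h0 : ∀ y ∈ G, (trFun P T (P.dρ ℂ x)).f ℂ y ∈
      {c | ∃ r, P.dρ ℂ x ∈ presA r ∧ c = trOn r (Matrix.toLin' (P.dρ ℂ x))} := ?_
  · have h1 := NatFun.const_of_finite hirr (trFun P T (P.dρ ℂ x)) (finite_trOn (P.dρ ℂ x))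
      h0 y hy 1 G.one_mem
    change (trFun P T (P.dρ ℂ x)).f ℂ y - _ = 0
    rw [h1]
    simp [trFun, NatFun.const]
  · intro y hy
    let e : (n → ℂ) ≃ₗ[ℂ] (n → ℂ) :=
      (Matrix.GeneralLinearGroup.toLin (P.ρU ℂ y)).toLinearEquiv
    have he : ∀ z, e z = P.ρ ℂ y *ᵥ z := fun _ => rfl
    have hc : P.ρ ℂ y * P.dρ ℂ x * P.ρ ℂ y⁻¹ ∈ presA r := by
      rw [← P.dρ_conj]
      exact hr _ (Submodule.subset_span ⟨y, hy, x, hx, rfl⟩)
    have hcomm : ∀ z, Matrix.toLin' (P.ρ ℂ y * P.dρ ℂ x * P.ρ ℂ y⁻¹) (e z) =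
        e (Matrix.toLin' (P.dρ ℂ x) z) := fun z => by
      simp only [he, Matrix.toLin'_apply, Matrix.mulVec_mulVec]
      rw [Matrix.mul_assoc, P.ρ_inv_mul, Matrix.mul_one]
    have hst : ∀ z ∈ r.comap e.toLinearMap, Matrix.toLin' (P.dρ ℂ x) z ∈ r.comap e.toLinearMap :=
      fun z hz => by
        change e _ ∈ r
        rw [← hcomm]; exact hc _ hz
    refine ⟨r.comap e.toLinearMap, hst, ?_⟩
    rw [← trOn_equiv e hst hcomm, Submodule.map_comap_eq_of_surjective e.surjective,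
      ← T.trace_π_bot hc]
    rfl

/-- A minor of `ρ(g)` along the subspace. -/
noncomputable def detFun (l : Matrix k n ℂ) : NatFun N where
  f R _ _ g := (cm R l * P.ρ R g * cm R T.B).det
  nat R S _ _ _ _ φ g := by
    rw [AlgHom.map_det, AlgHom.mapMatrix_apply, ← P.nat]
    congr 1
    exact (map_mul_cm φ.toLinearMap _ _).trans (by rw [map_cm_mul]; rfl)

/-- A minor of `ρ(g⁻¹)` along the subspace. -/
noncomputable def detInv (l : Matrix k n ℂ) : NatFun N where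
  f R _ _ g := (detFun P T l).f R g⁻¹
  nat R S _ _ _ _ φ g := by rw [(detFun P T l).nat, gmap_inv]

end Trace

/-- `x = a (1 + ε τ)`. -/
def LogD {L : Type} [CommRing L] (x : DualNumber L) (τ : L) : Prop := x.snd = x.fst * τ

theorem LogD.mul {L : Type} [CommRing L] {x y : DualNumber L} {τ σ : L} (hx : LogD x τ)
    (hy : LogD y σ) : LogD (x * y) (τ + σ) := by
  unfold LogD at *
  simp [hx, hy]; ring

theorem logD_prodPow {L ι : Type} [CommRing L] (s : Finset ι) (x : ι → DualNumber L) (τ : ι → L)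
    (a : ι → ℕ) (h : ∀ i, LogD (x i) (τ i)) :
    LogD (∏ i ∈ s, x i ^ a i) (∑ i ∈ s, a i * τ i) := by
  classical
  have hp : ∀ (y : DualNumber L) (σ : L) (m : ℕ), LogD y σ → LogD (y ^ m) (m * σ) := by
    intro y σ m hy
    induction m with
    | zero => simp [LogD]
    | succ m ih => rw [pow_succ, Nat.cast_succ, add_mul, one_mul]; exact ih.mul hy
  induction s using Finset.induction_on with
  | empty => simp [LogD]
  | insert i s hi ih =>
    rw [Finset.prod_insert hi, Finset.sum_insert hi]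
    exact (hp _ _ _ (h i)).mul ih

theorem logD_detFun (P : NatRep (Fin N) n) {r : Submodule ℂ (n → ℂ)} (T : SQ ⊥ r k)
    (l : Matrix k n ℂ) {L : Type} [CommRing L] [Algebra ℂ L] (g : GL (Fin N) L)
    {ξ : Matrix (Fin N) (Fin N) L} (hξ : Pres r (P.dρ L ξ)) :
    LogD ((detFun P T l).f _ (gmap (dualIn L) g * oneEps ξ)) (T.π (P.dρ L ξ)).trace := by
  have h1 : ∀ {a b : Type} (X : Matrix a b ℂ), cm (DualNumber L) X = dn (cm L X) 0 :=
    fun _ => rfl
  have h2 : (detFun P T l).f _ (gmap (dualIn L) g * oneEps ξ) =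
      (dn (cm L l * P.ρ L g * cm L T.B) 0 * dn 1 (T.π (P.dρ L ξ))).det := by
    change (cm (DualNumber L) l * P.ρ (DualNumber L) (gmap (dualIn L) g * oneEps ξ) *
      cm (DualNumber L) T.B).det = _
    rw [map_mul, P.ρ_dualIn, P.ρ_oneEps, h1, h1]
    simp only [dn_mul, Matrix.mul_one, Matrix.mul_zero, Matrix.zero_mul, add_zero, zero_add,
      Matrix.mul_assoc, T.mul_B hξ]
  rw [h2, Matrix.det_mul, det_dn, ← map_dualIn, ← RingHom.mapMatrix_apply, ← RingHom.map_det]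
  simp [LogD, TrivSqZeroExt.algebraMap_eq_inl]

/-- A subspace of a representation. -/
structure Sub (N : ℕ) where
  n : Type
  [fin : Fintype n]
  [dec : DecidableEq n]
  P : NatRep (Fin N) n
  r : Submodule ℂ (n → ℂ)

attribute [instance] Sub.fin Sub.dec

namespace Sub

variable (S : Sub N)

/-- Stability under a space of matrices. -/
def St (s : Submodule ℂ (Mt N)) : Prop := ∀ ξ ∈ s, S.P.dρ ℂ ξ ∈ presA S.r

/-- Stability under the group. -/
def GSt (G : Subgroup (GL (Fin N) ℂ)) : Prop := ∀ g ∈ G, S.P.ρ ℂ g ∈ presA S.r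

/-- The trace functional. -/
noncomputable def χ : Mt N →ₗ[ℂ] ℂ where
  toFun ξ := trOn S.r (Matrix.toLin' (S.P.dρ ℂ ξ))
  map_add' a b := by rw [map_add, map_add, trOn_add]
  map_smul' c a := by rw [map_smul, map_smul, trOn_smul]; rfl

theorem χ_apply (ξ : Mt N) : S.χ ξ = trOn S.r (Matrix.toLin' (S.P.dρ ℂ ξ)) := rfl

variable {S}

theorem St.mono {s s' : Submodule ℂ (Mt N)} (h : S.St s) (hs : s' ≤ s) : S.St s' :=
  fun ξ hξ => h ξ (hs hξ)

theorem GSt.st (h : S.GSt G) : S.St (lie G) := fun _ hξ => pres_dρ_of_lie S.P h hξ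

theorem St.pres {s : Submodule ℂ (Mt N)} (h : S.St s) {L : Type} [CommRing L] [Algebra ℂ L]
    {ξ : Matrix (Fin N) (Fin N) L} (hξ : ξ ∈ bcM s L) : Pres S.r (S.P.dρ L ξ) :=
  S.P.dρ_mem_bcM (s' := Subalgebra.toSubmodule (presA S.r)) h hξ

theorem χ_lie {x y : Mt N} (hx : S.P.dρ ℂ x ∈ presA S.r) (hy : S.P.dρ ℂ y ∈ presA S.r) :
    S.χ (x * y - y * x) = 0 := by
  rw [χ_apply, S.P.dρ_lie, map_sub, trOn_sub, Matrix.toLin'_mul, Matrix.toLin'_mul,
    trOn_comm (fun z hz => hx z hz) (fun z hz => hy z hz), sub_self]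

theorem trace_π_bc {s : Submodule ℂ (Mt N)} {ι : Type} [Fintype ι] (S : ι → Sub N)
    {k : ι → Type} [∀ i, Fintype (k i)] [∀ i, DecidableEq (k i)]
    (T : ∀ i, SQ ⊥ (S i).r (k i)) (hS : ∀ i, (S i).St s) (a : ι → ℕ) {L : Type} [CommRing L]
    [Algebra ℂ L] :
    ∃ F : Matrix (Fin N) (Fin N) L →ₗ[L] L,
      (∀ ξ, F ξ = ∑ i, a i * ((T i).π ((S i).P.dρ L ξ)).trace) ∧
      ∀ x ∈ s, F (cm L x) = algebraMap ℂ L (∑ i, a i * (S i).χ x) := by
  refine ⟨∑ i, (a i : L) • (Matrix.traceLinearMap _ L L ∘ₗ (T i).πL L ∘ₗ (S i).P.dρ L),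
    fun ξ => by simp [SQ.πL], fun x hx => ?_⟩
  simp only [LinearMap.coe_sum, Finset.sum_apply, LinearMap.smul_apply, LinearMap.comp_apply,
    map_sum, map_mul, map_natCast, smul_eq_mul]
  refine Finset.sum_congr rfl fun i _ => ?_
  rw [NatRep.dρ_cm, χ_apply, ← (T i).trace_π_bot (hS i x hx), ← trace_cm, ← SQ.π_cm]
  rfl

end Sub

theorem lemmaU (hirr : (vanI (G : Set (GL (Fin N) ℂ))).IsPrime) (epi : Epi G v) {ι κ : Type}
    [Fintype ι] [Fintype κ] (S : ι → Sub N) (S' : κ → Sub N) (hS₁ : ∀ i, (S i).St (hS G v))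
    (hS₂ : ∀ j, (S' j).St (g1 G v)) (a : ι → ℕ) (b : κ → ℕ)
    (rel : ∀ ξ ∈ hS G v, ∑ i, a i * (S i).χ ξ = ∑ j, b j * (S' j).χ ξ) (i₀ : ι) (ha : 0 < a i₀) :
    (S i₀).GSt G := by
  classical
  let T := fun i => Classical.choice (exists_SQ (bot_le : ⊥ ≤ (S i).r))
  let T' := fun j => Classical.choice (exists_SQ (bot_le : ⊥ ≤ (S' j).r))
  have key : ∀ (l : ∀ i, Matrix _ (S i).n ℂ) (l' : ∀ j, Matrix _ (S' j).n ℂ), ∀ g ∈ G,
      ((NatFun.prodPow (fun i => detFun (S i).P (T i) (l i)) a).mul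
        (NatFun.prodPow (fun j => detInv (S' j).P (T' j) (l' j)) b)).f ℂ g =
      ((NatFun.prodPow (fun i => detFun (S i).P (T i) (l i)) a).mul
        (NatFun.prodPow (fun j => detInv (S' j).P (T' j) (l' j)) b)).f ℂ 1 := by
    intro l l'
    refine epi _ fun L _ _ g hg ξ hξ => ?_
    have h1 := logD_prodPow Finset.univ _ _ a fun i =>
      logD_detFun (S i).P (T i) (l i) g ((hS₁ i).pres hξ)
    have hinv : (gmap (dualIn L) g * oneEps ξ)⁻¹ = gmap (dualIn L) g⁻¹ *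
        oneEps (-((g : Matrix (Fin N) (Fin N) L) * ξ *
          ((g⁻¹ : GL (Fin N) L) : Matrix (Fin N) (Fin N) L))) := by
      rw [mul_inv_rev, oneEps_inv, ← gmap_inv]
      refine Units.ext ?_
      simp only [Units.val_mul, coe_gmap, map_dualIn, coe_oneEps, dn_mul]
      simp [← Matrix.mul_assoc]
    have hc : -((g : Matrix (Fin N) (Fin N) L) * ξ *
        ((g⁻¹ : GL (Fin N) L) : Matrix (Fin N) (Fin N) L)) ∈ bcM (g1 G v) L :=
      Submodule.neg_mem _ (conj_mem_of_pres (pres_of_pt _ (fun _ h => ad_pres_g1 h) hg)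
        (bcM_mono hS_le_g1 hξ))
    have h2 := logD_prodPow Finset.univ _ _ b fun j =>
      logD_detFun (S' j).P (T' j) (l' j) g⁻¹ ((hS₂ j).pres hc)
    rw [← hinv] at h2
    have h3 := h1.mul h2
    obtain ⟨F, hF, hF'⟩ := Sub.trace_π_bc S T hS₁ a (L := L)
    obtain ⟨F', hG, hG'⟩ := Sub.trace_π_bc S' T' (fun j => (hS₂ j).mono hS_le_g1) b (L := L)
    have h4 : (F - F') ξ ∈ (⊥ : Submodule L L) := bcM_lin (F - F') ⊥ (fun x hx => by
      rw [LinearMap.sub_apply, hF' x hx, hG' x hx, rel x hx, sub_self]; exact Submodule.zero_mem _)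
      hξ
    rw [Submodule.mem_bot, LinearMap.sub_apply, hF, hG] at h4
    have h5 : ∀ j, ((T' j).π ((S' j).P.dρ L (-((g : Matrix (Fin N) (Fin N) L) * ξ *
        ((g⁻¹ : GL (Fin N) L) : Matrix (Fin N) (Fin N) L))))).trace =
        -((T' j).π ((S' j).P.dρ L ξ)).trace := fun j => by
      rw [map_neg, ← trace_conj (S' j).P (T' j) hirr (hS₂ j) hg hξ, NatRep.dρ_conj,
        ← Matrix.trace_neg]
      exact congrArg _ (map_neg ((T' j).πL L) _)
    simp only [h5, mul_neg, Finset.sum_neg_distrib, ← sub_eq_add_neg, h4] at h3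
    exact h3.trans (mul_zero _)
  intro g hg b₀ hb₀
  rw [← mem_bc_self, mem_bc_iff_dot]
  intro l hl
  have hrow := row_lemma (F := ℂ) ((S i₀).P.ρ ℂ g * (T i₀).B) ((T i₀).L * (S i₀).P.ρ ℂ g⁻¹)
    (by rw [cm_self, Matrix.mul_assoc, ← Matrix.mul_assoc ((S i₀).P.ρ ℂ g⁻¹), NatRep.ρ_inv_mul,
      Matrix.one_mul, (T i₀).LB]; simp) l (fun t => ?_)
  · have h1 := eq_zero_of_mem_bc_bot (R := ℂ) (mem_bc_self.2 ((T i₀).dec b₀ hb₀))
    rw [sub_eq_zero] at h1
    rw [h1, Matrix.mulVec_mulVec, Matrix.mulVec_mulVec, ← Matrix.mulVec_mulVec,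
      Matrix.dotProduct_mulVec, hrow, zero_dotProduct]
  · have h1 := key (Function.update (fun i => (T i).L * (S i).P.ρ ℂ g⁻¹) i₀
      (((T i₀).L * (S i₀).P.ρ ℂ g⁻¹).updateRow t l)) (fun j => (T' j).L * (S' j).P.ρ ℂ g) g hg
    simp only [NatFun.mul, NatFun.prodPow, detFun, detInv, cm_self] at h1
    rw [Finset.prod_eq_single i₀, Finset.prod_eq_one, Finset.prod_eq_zero (Finset.mem_univ i₀),
      zero_mul, mul_one, Function.update_self] at h1
    · rw [cm_self, ← Matrix.mul_assoc]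
      exact pow_eq_zero_iff ha.ne' |>.1 h1
    · rw [Function.update_self, map_one, Matrix.mul_one, Matrix.det_eq_zero_of_row_eq_zero t,
        zero_pow ha.ne']
      intro j
      have := hl _ ((T i₀).B_mem (Pi.single j 1))
      simpa [Matrix.mul_apply, dotProduct] using this
    · intro j _
      rw [Matrix.mul_assoc (T' j).L, NatRep.ρ_mul_inv, Matrix.mul_one, (T' j).LB]; simp
    · intro i _ hi
      rw [Function.update_of_ne hi, Matrix.mul_assoc (T i).L, NatRep.ρ_inv_mul, Matrix.mul_one,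
        (T i).LB]
      simp
    · simp

/-- A subspace stable under the ideal generated by the stabiliser is stable under the group. -/
theorem gst_of_st (hirr : (vanI (G : Set (GL (Fin N) ℂ))).IsPrime) (epi : Epi G v) (S : Sub N)
    (h : S.St (g1 G v)) : S.GSt G :=
  lemmaU hirr epi (ι := Unit) (κ := Unit) (fun _ => S) (fun _ => S)
    (fun _ => h.mono hS_le_g1) (fun _ => h) (fun _ => 1) (fun _ => 1) (fun _ _ => rfl) ()
    one_pos

end Kol68
end

-- merged part: Pool.Agent.Work.MP_c53807_ag.SL2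
section
/-!
The rational normal curve attached to an `sl₂`-pair.
-/

open scoped Matrix PowerSeries Polynomial LinearAlgebra.Projectivization

namespace Kol68

variable {N : ℕ}

namespace SL2Aux

/-- Polynomials as power series. -/
noncomputable abbrev toPS : ℂ[X] →ₐ[ℂ] ℂ⟦X⟧ := Polynomial.coeToPowerSeries.algHom (R := ℂ) ℂ

theorem exists_poly {ξ : Mt N} (h : IsNilpotent ξ) : ∃ A : Matrix (Fin N) (Fin N) ℂ[X],
    A.map (toPS : ℂ[X] →+* ℂ⟦X⟧) = expM (0 + 1) ξ := by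
  obtain ⟨e, he⟩ := h
  refine ⟨(expM (0 + 1) ξ).map (PowerSeries.trunc e), ?_⟩
  ext i j l
  change PowerSeries.coeff l (PowerSeries.map (algebraMap ℂ ℂ)
    ((PowerSeries.trunc e (expM (0 + 1) ξ i j) : ℂ[X]) : ℂ⟦X⟧)) = _
  rw [PowerSeries.coeff_map, Polynomial.coeff_coe, PowerSeries.coeff_trunc]
  split_ifs with hl
  · rfl
  · have h1 := congrFun (congrFun (cM_expM (0 + 1) l ξ) i) j
    rw [cM_apply] at h1
    rw [h1]
    simp [pow_eq_zero_of_le (not_lt.1 hl) he]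

theorem alg_inj : Function.Injective toPS := by
  intro p q h
  ext l
  have := congrArg (PowerSeries.coeff l) h
  simpa [Polynomial.coeToPowerSeries.algHom_apply] using this

theorem exists_U {ξ : Mt N} (h : IsNilpotent ξ) : ∃ U : GL (Fin N) ℂ[X],
    gmap (toPS : ℂ[X] →+* ℂ⟦X⟧) U = expU 0 ξ := by
  obtain ⟨A, hA⟩ := exists_poly h
  obtain ⟨B, hB⟩ := exists_poly h.neg
  have inj : Function.Injective fun Y : Matrix (Fin N) (Fin N) ℂ[X] =>
      Y.map (toPS : ℂ[X] →+* ℂ⟦X⟧) := fun _ _ e =>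
    Matrix.ext fun i j => alg_inj (congrFun (congrFun e i) j)
  refine ⟨⟨A, B, inj ?_, inj ?_⟩, Units.ext hA⟩
  · simp only
    rw [Matrix.map_mul, hA, hB, expM_mul_neg, Matrix.map_one _ (map_zero _) (map_one _)]
  · simp only
    rw [Matrix.map_mul, hA, hB, Matrix.map_one _ (map_zero _) (map_one _)]
    simpa using expM_mul_neg 0 (-ξ)

/-- The truncated exponential applied to a vector. -/
noncomputable def ex (ξ : Mt N) (n : ℕ) (y : ℂ) (w : Fin N → ℂ) : Fin N → ℂ :=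
  ∑ k ∈ Finset.range (n + 1), (y ^ k * (k.factorial : ℂ)⁻¹) • (ξ ^ k *ᵥ w)

section
variable {ξ : Mt N} {U : GL (Fin N) ℂ[X]}
  (hU : gmap (toPS : ℂ[X] →+* ℂ⟦X⟧) U = expU 0 ξ)
include hU

theorem coeff_U (k : ℕ) (i j : Fin N) :
    ((U : Matrix _ _ ℂ[X]) i j).coeff k = (k.factorial : ℂ)⁻¹ * (ξ ^ k) i j := by
  have h1 := congrFun (congrFun (congrArg (fun g : GL (Fin N) ℂ⟦X⟧ =>
    cM k (g : Matrix _ _ ℂ⟦X⟧)) hU) i) j
  simp only [coe_expU, cM_expM] at h1
  simpa [coe_gmap, Polynomial.coeToPowerSeries.algHom_apply] using h1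

theorem coeff_vec (w : Fin N → ℂ) (k : ℕ) :
    (fun i => (((U : Matrix _ _ ℂ[X]) *ᵥ cv ℂ[X] w) i).coeff k)
      = (k.factorial : ℂ)⁻¹ • (ξ ^ k *ᵥ w) := by
  ext i
  simp [Matrix.mulVec, dotProduct, coeff_U hU, Finset.mul_sum,
    mul_assoc]

theorem natDegree_vec {w : Fin N → ℂ} {n : ℕ} (hw : ξ ^ (n + 1) *ᵥ w = 0) (i : Fin N) :
    (((U : Matrix _ _ ℂ[X]) *ᵥ cv ℂ[X] w) i).natDegree ≤ n := by
  rw [Polynomial.natDegree_le_iff_coeff_eq_zero]
  intro k hk
  obtain ⟨j, rfl⟩ : ∃ j, k = j + (n + 1) := ⟨k - (n + 1), by omega⟩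
  have := congrFun (coeff_vec hU w (j + (n + 1))) i
  rw [this, pow_add, ← Matrix.mulVec_mulVec, hw]
  simp

theorem eval_vec {w : Fin N → ℂ} {n : ℕ} (hw : ξ ^ (n + 1) *ᵥ w = 0) (y : ℂ) :
    (fun i => (((U : Matrix _ _ ℂ[X]) *ᵥ cv ℂ[X] w) i).eval y) = ex ξ n y w := by
  ext i
  rw [Polynomial.eval_eq_sum_range' (Nat.lt_succ_of_le (natDegree_vec hU hw i)), ex,
    Finset.sum_apply]
  refine Finset.sum_congr rfl fun k _ => ?_
  rw [congrFun (coeff_vec hU w k) i]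
  simp only [Pi.smul_apply, smul_eq_mul]
  ring

theorem evU_vec {w : Fin N → ℂ} {n : ℕ} (hw : ξ ^ (n + 1) *ᵥ w = 0) (y : ℂ) :
    (evU y U : Mt N) *ᵥ w = ex ξ n y w := by
  rw [← eval_mulVec, eval_vec hU hw]

theorem deriv_vec {w : Fin N → ℂ} {n : ℕ} (hw : ξ ^ (n + 1) *ᵥ w = 0) (y : ℂ) :
    (fun i => (((U : Matrix _ _ ℂ[X]) *ᵥ cv ℂ[X] w) i).derivative.eval y) = ξ *ᵥ ex ξ n y w := by
  ext i
  have hd : (((U : Matrix _ _ ℂ[X]) *ᵥ cv ℂ[X] w) i).derivative.natDegree < n + 1 :=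
    Nat.lt_succ_of_le ((Polynomial.natDegree_derivative_le _).trans
      ((Nat.sub_le _ _).trans (natDegree_vec hU hw i)))
  rw [Polynomial.eval_eq_sum_range' hd, ex, Matrix.mulVec_sum, Finset.sum_apply]
  refine Finset.sum_congr rfl fun k _ => ?_
  rw [Polynomial.coeff_derivative, congrFun (coeff_vec hU w (k + 1)) i, Matrix.mulVec_smul,
    Matrix.mulVec_mulVec, ← pow_succ']
  simp only [Pi.smul_apply, smul_eq_mul, Nat.factorial_succ]
  have h1 : ((k : ℂ) + 1) ≠ 0 := by exact_mod_cast k.succ_ne_zero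
  have h2 : (k.factorial : ℂ) ≠ 0 := by exact_mod_cast k.factorial_ne_zero
  push_cast
  field_simp

theorem evU_zero : evU 0 U = 1 := by
  refine Units.ext ?_
  ext i j
  rw [coe_evU, Matrix.map_apply, ← Polynomial.coeff_zero_eq_eval_zero, coeff_U hU]
  simp

theorem U_mem {G : Subgroup (GL (Fin N) ℂ)} (h : ξ ∈ lie G) : U ∈ pts G ℂ[X] :=
  Pt.of_map toPS alg_inj
    (by rw [hU]; exact expU_mem_pts 0 (mem_bcM_self.2 h))

theorem mem_lie_of_U {K : Subgroup (GL (Fin N) ℂ)} (h : U ∈ pts K ℂ[X]) : ξ ∈ lie K := by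
  refine mem_lie_of_expU ?_
  rw [← hU]
  exact Pt.map h toPS

end

theorem pow_ex {ξ : Mt N} {w : Fin N → ℂ} {m : ℕ} (hw : ξ ^ (m + 1 + 1) *ᵥ w = 0) (y : ℂ) :
    ξ ^ m *ᵥ ex ξ (m + 1) y w = ξ ^ m *ᵥ w + y • (ξ ^ (m + 1) *ᵥ w) := by
  rw [ex, Matrix.mulVec_sum, Finset.sum_range_succ', Finset.sum_range_succ',
    Finset.sum_eq_zero]
  · simp [Matrix.mulVec_smul, Matrix.mulVec_mulVec, pow_succ, add_comm]
  · intro k _
    rw [Matrix.mulVec_smul, Matrix.mulVec_mulVec, ← pow_add,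
      show m + (k + 1 + 1) = k + (m + 1 + 1) by ring, pow_add ξ, ← Matrix.mulVec_mulVec, hw]
    simp

theorem pow_ex' {ξ : Mt N} {w : Fin N → ℂ} {m : ℕ} (hw : ξ ^ (m + 1 + 1) *ᵥ w = 0) (y : ℂ) :
    ξ ^ (m + 1) *ᵥ ex ξ (m + 1) y w = ξ ^ (m + 1) *ᵥ w := by
  rw [pow_succ' ξ m, ← Matrix.mulVec_mulVec, pow_ex hw, Matrix.mulVec_add, Matrix.mulVec_smul,
    Matrix.mulVec_mulVec, Matrix.mulVec_mulVec, ← pow_succ', ← pow_succ', hw]
  simp

theorem pow_E {E F : Mt N} {v : Fin N → ℂ} {n : ℕ}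
    (h : ∀ k : ℕ, E *ᵥ (F ^ (k + 1) *ᵥ v) = ((k + 1) * ((n : ℂ) - k)) • (F ^ k *ᵥ v)) (j : ℕ) :
    ∀ i : ℕ, j + i = n → E ^ j *ᵥ (F ^ n *ᵥ v)
      = ((n.factorial : ℂ) * j.factorial * (i.factorial : ℂ)⁻¹) • (F ^ i *ᵥ v) := by
  induction j with
  | zero =>
    intro i hi
    have h2 : (n.factorial : ℂ) ≠ 0 := by exact_mod_cast n.factorial_ne_zero
    rw [zero_add] at hi
    subst hi
    simp [h2]
  | succ j ih =>
    intro i hi
    rw [pow_succ' E j, ← Matrix.mulVec_mulVec, ih (i + 1) (by omega), Matrix.mulVec_smul, h,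
      smul_smul]
    congr 1
    have h1 : ((i : ℂ) + 1) ≠ 0 := by exact_mod_cast i.succ_ne_zero
    have h2 : (i.factorial : ℂ) ≠ 0 := by exact_mod_cast i.factorial_ne_zero
    have h3 : (n : ℂ) = j + 1 + i := by rw [← hi]; push_cast; ring
    rw [Nat.factorial_succ, Nat.factorial_succ, h3]
    push_cast
    field_simp
    ring

theorem ex_E {E F : Mt N} {v : Fin N → ℂ} {n : ℕ}
    (h : ∀ k : ℕ, E *ᵥ (F ^ (k + 1) *ᵥ v) = ((k + 1) * ((n : ℂ) - k)) • (F ^ k *ᵥ v)) :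
    ex E n 1 ((n.factorial : ℂ)⁻¹ • (F ^ n *ᵥ v)) = ex F n 1 v := by
  rw [ex, ex, ← Finset.sum_range_reflect]
  refine Finset.sum_congr rfl fun k hk => ?_
  have hk' := Finset.mem_range.1 hk
  rw [Matrix.mulVec_smul, pow_E h (n + 1 - 1 - k) k (by omega), smul_smul, smul_smul]
  congr 1
  have h1 : (n.factorial : ℂ) ≠ 0 := by exact_mod_cast n.factorial_ne_zero
  have h2 : ((n + 1 - 1 - k).factorial : ℂ) ≠ 0 := by exact_mod_cast Nat.factorial_ne_zero _
  have h3 : (k.factorial : ℂ) ≠ 0 := by exact_mod_cast k.factorial_ne_zero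
  simp only [one_pow]
  field_simp

end SL2Aux

open SL2Aux

theorem low_curve {G : Subgroup (GL (Fin N) ℂ)} (hG : GLClosed (G : Set (GL (Fin N) ℂ)))
    (x₀ : ℙ ℂ (Fin N → ℂ)) (D : LowData N) (hg : D.g ≤ lie G) (hh : D.h = hS G x₀.rep)
    (hv : D.v = x₀.rep) (good : D.Good) : GoodCurve G x₀ D.g := by
  classical
  obtain ⟨E, F, hE, hF, nE, nF, hFh, hEv, ⟨lam, hlam⟩, hgen⟩ := good
  rw [hv] at hEv hlam
  have hFv : F *ᵥ x₀.rep ≠ 0 := fun h0 =>
    hFh ((D.mem_h F).2 ⟨hF, 0, by rw [hv, h0, zero_smul]⟩)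
  have hex : ∃ k : ℕ, F ^ (k + 1 + 1) *ᵥ x₀.rep = 0 := by
    obtain ⟨e, he⟩ := nF
    exact ⟨e, by rw [pow_eq_zero_of_le (by omega) he, Matrix.zero_mulVec]⟩
  obtain ⟨m, hm0, hm1⟩ : ∃ m : ℕ, F ^ (m + 1 + 1) *ᵥ x₀.rep = 0 ∧ F ^ (m + 1) *ᵥ x₀.rep ≠ 0 := by
    refine ⟨Nat.find hex, Nat.find_spec hex, ?_⟩
    rcases h : Nat.find hex with _ | k
    · simpa using hFv
    · exact Nat.find_min hex (by omega)
  have hl : lam = ((m + 1 : ℕ) : ℂ) := by
    have h1 := hlam (m + 1)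
    rw [hm0, Matrix.mulVec_zero, eq_comm, smul_eq_zero] at h1
    have h2 : (((m + 1 : ℕ) : ℂ) + 1) ≠ 0 := by exact_mod_cast (m + 1).succ_ne_zero
    have h3 := (mul_eq_zero.1 (h1.resolve_right hm1)).resolve_left h2
    exact sub_eq_zero.1 h3
  rw [hl] at hlam
  obtain ⟨U, hU⟩ := exists_U nF
  obtain ⟨V, hV⟩ := exists_U nE
  have hfac : ∀ k : ℕ, (k.factorial : ℂ)⁻¹ ≠ 0 := fun k =>
    inv_ne_zero (by exact_mod_cast k.factorial_ne_zero)
  have hkill : ∀ j : ℕ, F ^ (j + 1) *ᵥ (F ^ (m + 1) *ᵥ x₀.rep) = 0 := fun j => by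
    rw [Matrix.mulVec_mulVec, ← pow_add, show j + 1 + (m + 1) = j + (m + 1 + 1) by ring, pow_add,
      ← Matrix.mulVec_mulVec, hm0, Matrix.mulVec_zero]
  refine goodCurve_of_poly hG x₀ U (U_mem hU (hg hF)) (evU_zero hU) _ rfl (m + 1) (by omega)
    (natDegree_vec hU hm0) (w := (evU 1 V)⁻¹ * evU 1 U)
    (G.mul_mem (G.inv_mem (evU_mem hG (U_mem hV (hg hE)) 1)) (evU_mem hG (U_mem hU (hg hF)) 1))
    one_ne_zero ?_ ?_ ?_ ?_ ?_ ?_
  · have h1 : E ^ (m + 1 + 1) *ᵥ ((((m + 1).factorial : ℂ))⁻¹ • (F ^ (m + 1) *ᵥ x₀.rep)) = 0 := by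
      rw [Matrix.mulVec_smul, pow_succ' E (m + 1), ← Matrix.mulVec_mulVec,
        pow_E hlam (m + 1) 0 rfl, Matrix.mulVec_smul, pow_zero, Matrix.one_mulVec, hEv]
      simp
    rw [coeff_vec hU, one_smul, Units.val_mul, ← Matrix.mulVec_mulVec, evU_vec hU hm0,
      ← ex_E hlam, ← evU_vec hV h1, Matrix.mulVec_mulVec, Units.inv_mul, Matrix.one_mulVec]
  · intro x y c h
    rw [eval_vec hU hm0, eval_vec hU hm0] at h
    have h1 := congrArg (fun z => F ^ (m + 1) *ᵥ z) h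
    simp only [Matrix.mulVec_smul, pow_ex' hm0] at h1
    have hc : c = 1 := by
      have : (1 - c) • (F ^ (m + 1) *ᵥ x₀.rep) = 0 := by rw [sub_smul, one_smul, ← h1, sub_self]
      exact (sub_eq_zero.1 ((smul_eq_zero.1 this).resolve_right hm1)).symm
    have h2 := congrArg (fun z => F ^ m *ᵥ z) h
    simp only [hc, one_smul, pow_ex hm0, add_right_inj] at h2
    exact smul_left_injective ℂ hm1 h2
  · intro y c h
    rw [eval_vec hU hm0, coeff_vec hU] at h
    have h1 := congrArg (fun z => F ^ (m + 1) *ᵥ z) h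
    simp only [Matrix.mulVec_smul, pow_ex' hm0, hkill m, smul_zero] at h1
    exact hm1 h1
  · intro y c h
    rw [eval_vec hU hm0, deriv_vec hU hm0] at h
    have h1 := congrArg (fun z => F ^ (m + 1) *ᵥ z) h
    have h2 : F ^ (m + 1) *ᵥ (F *ᵥ ex F (m + 1) y x₀.rep) = 0 := by
      rw [Matrix.mulVec_mulVec, ← pow_succ, pow_succ' F (m + 1), ← Matrix.mulVec_mulVec,
        pow_ex' hm0, Matrix.mulVec_mulVec, ← pow_succ', hm0]
    simp only [Matrix.mulVec_smul, pow_ex' hm0, h2] at h1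
    have hc : c = 0 := (smul_eq_zero.1 h1.symm).resolve_right hm1
    have h3 := congrArg (fun z => F ^ m *ᵥ z) h
    simp only [hc, zero_smul, Matrix.mulVec_zero] at h3
    rw [Matrix.mulVec_mulVec, ← pow_succ, pow_ex' hm0] at h3
    exact hm1 h3
  · intro c h
    rw [coeff_vec hU, coeff_vec hU, Nat.add_sub_cancel] at h
    have h1 := congrArg (fun z => F ^ (0 + 1) *ᵥ z) h
    simp only [Matrix.mulVec_smul, hkill 0, smul_zero] at h1
    rw [Matrix.mulVec_mulVec, ← pow_add, show 0 + 1 + m = m + 1 by ring] at h1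
    exact hm1 ((smul_eq_zero.1 h1).resolve_left (hfac m))
  · intro K hK hUK
    have h1 := hgen (lie K ⊓ D.g) (le_inf (hh ▸ hK) fun x hx => ((D.mem_h x).1 hx).1) inf_le_right
      ⟨mem_lie_of_U hU hUK, hF⟩
      fun x hx y hy => ⟨lie_stab K x hx.1 y hy.1, D.g_lie x hx.2 y hy.2⟩
    rw [← h1]
    exact inf_le_left

end Kol68
end
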