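import Pool.Agent.Work.MP_c53807_ag.LowBasic

open scoped Matrix

namespace Kol68.IrrAux

/-- `2 × 2` matrices. -/
abbrev M2 : Type := Matrix (Fin 2) (Fin 2) ℂ

theorem par {w v : Fin 2 → ℂ} (hw : w ≠ 0) (h : w 0 * v 1 = w 1 * v 0) : ∃ c : ℂ, v = c • w := by
  by_cases h0 : w 0 = 0
  · have h1 : w 1 ≠ 0 := fun h1 => hw (by ext i; fin_cases i <;> simp [h0, h1])
    refine ⟨v 1 / w 1, ?_⟩
    rw [h0, zero_mul] at h
    have h2 := (mul_eq_zero.1 h.symm).resolve_left h1
    ext i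
    fin_cases i
    · simp [h0, h2]
    · simp [h1]
  · refine ⟨v 0 / w 0, ?_⟩
    ext i
    fin_cases i
    · simp [h0]
    · simp only [Fin.mk_one, Pi.smul_apply, smul_eq_mul]
      field_simp
      linear_combination h

theorem eig_of {D : M2} {w : Fin 2 → ℂ} (hw : w ≠ 0)
    (h : w 0 * (D 1 0 * w 0 + D 1 1 * w 1) = w 1 * (D 0 0 * w 0 + D 0 1 * w 1)) :
    ∃ c : ℂ, D *ᵥ w = c • w :=
  par hw (by simpa [Matrix.mulVec, dotProduct, Fin.sum_univ_two] using h)

theorem eq_top (S : Submodule ℂ M2) (h1 : (1 : M2) ∈ S)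
    (hc : ∀ A ∈ S, ∀ B ∈ S, A * B - B * A ∈ S)
    (hi : ∀ w : Fin 2 → ℂ, w ≠ 0 → ¬ ∀ A ∈ S, ∃ c : ℂ, A *ᵥ w = c • w) : S = ⊤ := by
  by_cases c1 : ∃ A ∈ S, ∃ B ∈ S, ((A * B - B * A) * (A * B - B * A)).trace ≠ 0
  · obtain ⟨A, hA, B, hB, h⟩ := c1
    rw [eq_top_iff]
    intro T _
    obtain ⟨C, hC⟩ : ∃ C, C = A * B - B * A := ⟨_, rfl⟩
    have hCS : C ∈ S := hC ▸ hc A hA B hB
    rw [← hC] at h
    have key : (C * C).trace • T = (((C * C).trace * T.trace - (T * (B * C - C * B)).trace * A.trace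
        - (T * (C * A - A * C)).trace * B.trace) / 2) • (1 : M2) +
        (T * (B * C - C * B)).trace • A + (T * (C * A - A * C)).trace • B + (T * C).trace • C := by
      subst hC
      ext i j
      fin_cases i <;> fin_cases j <;>
        simp [Matrix.trace_fin_two, Matrix.mul_apply, Fin.sum_univ_two] <;> ring
    refine (S.smul_mem_iff h).1 ?_
    rw [key]
    exact S.add_mem (S.add_mem (S.add_mem (S.smul_mem _ h1) (S.smul_mem _ hA)) (S.smul_mem _ hB))
      (S.smul_mem _ hCS)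
  exfalso
  push Not at c1
  by_cases c2 : ∃ A ∈ S, ∃ B ∈ S, A * B - B * A ≠ 0
  · obtain ⟨A, hA, B, hB, h⟩ := c2
    have h2 := c1 A hA B hB
    have hCS := hc A hA B hB
    have h3 : (A * B - B * A) 1 1 = -(A * B - B * A) 0 0 := by
      simp [Matrix.mul_apply, Fin.sum_univ_two]
      ring
    generalize A * B - B * A = C at h h2 hCS h3
    have h4 : C 0 0 ^ 2 + C 0 1 * C 1 0 = 0 := by
      simp only [Matrix.trace_fin_two, Matrix.mul_apply, Fin.sum_univ_two, h3] at h2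
      linear_combination h2 / 2
    have h5 : ∀ D ∈ S, C 0 0 * (D 0 0 - D 1 1) + C 0 1 * D 1 0 + C 1 0 * D 0 1 = 0 := by
      intro D hD
      have h6 := c1 C hCS D hD
      simp only [Matrix.trace_fin_two, Matrix.mul_apply, Fin.sum_univ_two, h3,
        Matrix.sub_apply] at h6
      refine pow_eq_zero_iff (two_ne_zero) |>.1 ?_
      linear_combination h6 / 2 + ((D 0 0 - D 1 1) ^ 2 + 4 * D 0 1 * D 1 0) * h4
    by_cases h7 : (![C 0 1, -C 0 0] : Fin 2 → ℂ) = 0
    · have e1 : C 0 1 = 0 := by simpa using congrFun h7 0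
      have e2 : C 0 0 = 0 := by simpa using congrFun h7 1
      have e3 : C 1 0 ≠ 0 := fun e3 => h (by
        ext i j
        fin_cases i <;> fin_cases j <;> simp [e1, e2, e3, h3])
      refine hi ![0, 1] (by simp) fun D hD => eig_of (by simp) ?_
      have := h5 D hD
      simp only [e1, e2, zero_mul, zero_add, mul_eq_zero, e3, false_or] at this
      simp [this]
    · refine hi _ h7 fun D hD => eig_of h7 ?_
      simp only [Matrix.cons_val_zero, Matrix.cons_val_one]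
      linear_combination C 0 1 * h5 D hD - D 0 1 * h4
  · push Not at c2
    obtain ⟨A, hA, h⟩ : ∃ A ∈ S, A 1 0 ≠ 0 := by
      by_contra h
      push Not at h
      exact hi ![1, 0] (by simp) fun D hD => eig_of (by simp) (by simp [h D hD])
    obtain ⟨s, hs⟩ := IsAlgClosed.exists_pow_nat_eq ((A 0 0 - A 1 1) ^ 2 + 4 * A 0 1 * A 1 0)
      (n := 2) two_pos
    have hw : (![(A 0 0 - A 1 1 + s) / 2, A 1 0] : Fin 2 → ℂ) ≠ 0 := fun e =>
      h (by simpa using congrFun e 1)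
    refine hi _ hw fun D hD => eig_of hw ?_
    have e := c2 A hA D hD
    have e1 := congrFun (congrFun e 0) 0
    have e2 := congrFun (congrFun e 1) 0
    simp only [Matrix.mul_apply, Fin.sum_univ_two, Matrix.sub_apply, Matrix.zero_apply] at e1 e2
    simp only [Matrix.cons_val_zero, Matrix.cons_val_one]
    linear_combination D 1 0 / 4 * hs - (A 0 0 - A 1 1 + s) / 2 * e2 + A 1 0 * e1

variable {N : ℕ}

/-- Coordinates on `g / h`. -/
structure Frame (D : LowData N) where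
  π : Mt N →ₗ[ℂ] (Fin 2 → ℂ)
  x : Fin 2 → Mt N
  x_mem : ∀ i, x i ∈ D.g
  π_x : ∀ i, π (x i) = Pi.single i 1
  mem_iff : ∀ y ∈ D.g, y ∈ D.h ↔ π y = 0

theorem exists_frame (D : LowData N) (hdim : Module.finrank ℂ D.g = Module.finrank ℂ D.h + 2) :
    Nonempty (Frame D) := by
  have e1 : Module.finrank ℂ (D.h.comap D.g.subtype) = Module.finrank ℂ D.h :=
    (Submodule.comapSubtypeEquivOfLe D.h_le).finrank_eq
  have e2 := (D.h.comap D.g.subtype).finrank_quotient_add_finrank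
  have e3 : Module.finrank ℂ (D.g ⧸ D.h.comap D.g.subtype) = Module.finrank ℂ (Fin 2 → ℂ) := by
    rw [Module.finrank_fin_fun]
    omega
  let e := LinearEquiv.ofFinrankEq _ _ e3
  obtain ⟨π, hπ⟩ := LinearMap.exists_extend (e.toLinearMap ∘ₗ (D.h.comap D.g.subtype).mkQ)
  have hπ' : ∀ y : D.g, π y = e ((D.h.comap D.g.subtype).mkQ y) := fun y =>
    LinearMap.congr_fun hπ y
  have hs : ∀ i : Fin 2, ∃ y : D.g, π y = Pi.single i 1 := fun i => by
    obtain ⟨y, hy⟩ := (D.h.comap D.g.subtype).mkQ_surjective (e.symm (Pi.single i 1))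
    exact ⟨y, by rw [hπ', hy, LinearEquiv.apply_symm_apply]⟩
  choose x hx using hs
  refine ⟨⟨π, fun i => x i, fun i => (x i).2, hx, fun y hy => ?_⟩⟩
  rw [hπ' ⟨y, hy⟩, LinearEquiv.map_eq_zero_iff, Submodule.mkQ_apply,
    Submodule.Quotient.mk_eq_zero]
  rfl

namespace Frame

variable {D : LowData N} (F : Frame D)

/-- The isotropy representation. -/
noncomputable def M : Mt N →ₗ[ℂ] M2 where
  toFun y := Matrix.of fun i j => F.π (adM y (F.x j)) i
  map_add' y z := by ext i j; simp [adM_add_left]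
  map_smul' c y := by ext i j; simp [adM_smul_left]

theorem π_sum (w : Fin 2 → ℂ) : F.π (∑ i, w i • F.x i) = w := by
  rw [map_sum]
  simp only [map_smul, F.π_x]
  ext i
  fin_cases i <;> simp

theorem sum_mem (w : Fin 2 → ℂ) : ∑ i, w i • F.x i ∈ D.g :=
  D.g.sum_mem fun i _ => D.g.smul_mem _ (F.x_mem i)

theorem sub_mem {w : Mt N} (hw : w ∈ D.g) : w - ∑ i, F.π w i • F.x i ∈ D.h :=
  (F.mem_iff _ (D.g.sub_mem hw (F.sum_mem _))).2 (by rw [map_sub, F.π_sum, sub_self])

theorem π_ad {y w : Mt N} (hy : y ∈ D.h) (hw : w ∈ D.g) : F.π (adM y w) = F.M y *ᵥ F.π w := by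
  have h1 := D.h_lie y hy _ (F.sub_mem hw)
  have h2 := (F.mem_iff _ (D.h_le h1)).1 h1
  rw [map_sub, map_sub, sub_eq_zero] at h2
  rw [h2]
  ext i
  simp [M, Matrix.mulVec, dotProduct, mul_comm]

theorem M_ad {y z : Mt N} (hy : y ∈ D.h) (hz : z ∈ D.h) :
    F.M (adM y z) = F.M y * F.M z - F.M z * F.M y := by
  refine Matrix.ext_of_mulVec_single fun j => ?_
  have h := congrArg F.π (adM_jacobi y z (F.x j))
  rw [map_add, F.π_ad hy (D.g_lie _ (D.h_le hz) _ (F.x_mem j)),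
    F.π_ad hz (D.g_lie _ (D.h_le hy) _ (F.x_mem j)), F.π_ad (D.h_lie y hy z hz) (F.x_mem j),
    F.π_ad hy (F.x_mem j), F.π_ad hz (F.x_mem j), F.π_x, Matrix.mulVec_mulVec,
    Matrix.mulVec_mulVec] at h
  rw [Matrix.sub_mulVec, h, add_sub_cancel_right]

theorem tr_eq {y : Mt N} (hy : y ∈ D.h) :
    trOn D.g (adM y) = trOn D.h (adM y) + (F.M y).trace := by
  let E : Mt N →ₗ[ℂ] Mt N := ∑ i, ((LinearMap.proj i ∘ₗ F.π) ∘ₗ adM y).smulRight (F.x i)
  have hE : ∀ w, E w = ∑ i, F.π (adM y w) i • F.x i := fun w => by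
    simp [E]
  have e1 : trOn D.g (adM y - E) = trOn D.h (adM y) := by
    rw [trOn_of_maps_le D.h_le (fun w hw => by
      rw [LinearMap.sub_apply, hE]
      exact F.sub_mem (D.g_lie y (D.h_le hy) w hw))]
    refine trOn_congr fun w hw => ?_
    have h1 := D.h_lie y hy w hw
    rw [LinearMap.sub_apply, hE, (F.mem_iff _ (D.h_le h1)).1 h1]
    simp
  have e2 : trOn D.g E = (F.M y).trace := by
    rw [trOn_sum, Matrix.trace]
    refine Finset.sum_congr rfl fun i _ => ?_
    have : (((LinearMap.proj i ∘ₗ F.π) ∘ₗ adM y).smulRight (F.x i)) ∘ₗ pj D.g =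
        ((((LinearMap.proj i : (Fin 2 → ℂ) →ₗ[ℂ] ℂ) ∘ₗ F.π) ∘ₗ adM y) ∘ₗ pj D.g).smulRight (F.x i) :=
      rfl
    rw [trOn, this, LinearMap.trace_smulRight]
    simp [(isPj_pj D.g).2 _ (F.x_mem i), M]
  rw [← e1, ← e2, trOn_sub, sub_add_cancel]

theorem sup_eq_top (hirr : ∀ r, D.h ≤ r → r ≤ D.g → Stab D.h r → r = D.h ∨ r = D.g) :
    D.h.map F.M ⊔ (ℂ ∙ (1 : M2)) = ⊤ := by
  have dec : ∀ A ∈ D.h.map F.M ⊔ (ℂ ∙ (1 : M2)), ∃ y ∈ D.h, ∃ c : ℂ, A = F.M y + c • 1 := by
    intro A hA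
    obtain ⟨_, ⟨y, hy, rfl⟩, b, hb, rfl⟩ := Submodule.mem_sup.1 hA
    obtain ⟨c, rfl⟩ := Submodule.mem_span_singleton.1 hb
    exact ⟨y, hy, c, rfl⟩
  refine eq_top _ (Submodule.mem_sup_right (Submodule.mem_span_singleton_self _)) ?_ ?_
  · intro A hA B hB
    obtain ⟨y, hy, c, rfl⟩ := dec A hA
    obtain ⟨z, hz, c', rfl⟩ := dec B hB
    refine Submodule.mem_sup_left ⟨_, D.h_lie y hy z hz, ?_⟩
    rw [F.M_ad hy hz]
    simp only [add_mul, mul_add, smul_mul_assoc, mul_smul_comm, one_mul, mul_one]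
    module
  · intro w hw h
    rcases hirr (D.g ⊓ (ℂ ∙ w).comap F.π) (fun y hy => ⟨D.h_le hy, by
      simp [(F.mem_iff y (D.h_le hy)).1 hy]⟩) inf_le_left (fun y hy z hz => by
        refine ⟨D.g_lie y (D.h_le hy) z hz.1, ?_⟩
        obtain ⟨c, hc⟩ := Submodule.mem_span_singleton.1 hz.2
        obtain ⟨c', hc'⟩ := h (F.M y) (Submodule.mem_sup_left ⟨y, hy, rfl⟩)
        change F.π (adM y z) ∈ ℂ ∙ w
        rw [F.π_ad hy hz.1, ← hc, Matrix.mulVec_smul, hc']
        exact Submodule.smul_mem _ _ (Submodule.smul_mem _ _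
          (Submodule.mem_span_singleton_self w))) with e | e
    · have h1 : ∑ i, w i • F.x i ∈ D.h := by
        rw [← e]
        refine ⟨F.sum_mem w, ?_⟩
        change F.π _ ∈ ℂ ∙ w
        rw [F.π_sum]
        exact Submodule.mem_span_singleton_self w
      exact hw (by rw [← F.π_sum w, (F.mem_iff _ (F.sum_mem w)).1 h1])
    · have h1 : ∀ i, ∃ c : ℂ, c • w = Pi.single i 1 := fun i => by
        have := F.x_mem i
        rw [← e] at this
        rw [← F.π_x]
        exact Submodule.mem_span_singleton.1 this.2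
      obtain ⟨c0, h0⟩ := h1 0
      obtain ⟨c1, h1⟩ := h1 1
      have a1 := congrFun h0 0
      have a2 := congrFun h0 1
      have a3 := congrFun h1 0
      have a4 := congrFun h1 1
      simp only [Pi.smul_apply, smul_eq_mul, Pi.single_eq_same, ne_eq, one_ne_zero,
        not_false_eq_true, Pi.single_eq_of_ne, zero_ne_one] at a1 a2 a3 a4
      have : (1 : ℂ) = 0 := by
        linear_combination (c1 * w 0) * a2 - (c1 * w 1) * a1 - a4
      exact one_ne_zero this

end Frame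

/-- Iterated brackets, innermost first. -/
noncomputable def app : List (Mt N) → Mt N →ₗ[ℂ] Mt N
  | [] => LinearMap.id
  | x :: l => app l ∘ₗ adM x

theorem mem_core {g h : Submodule ℂ (Mt N)} {G : Set (Mt N)} (hh : Stab h h) (hg : Stab g g)
    (hle : h ≤ g) (hG : ∀ x ∈ G, x ∈ g) (dec : ∀ y ∈ g, ∃ q ∈ h, ∃ x ∈ G, y = q + x) {y : Mt N}
    (hy : ∀ l : List (Mt N), (∀ x ∈ l, x ∈ G) → app l y ∈ h) : y ∈ core g h := by
  let T : Submodule ℂ (Mt N) := ⨅ l : {l : List (Mt N) // ∀ x ∈ l, x ∈ G}, h.comap (app l.1)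
  have mT : ∀ y, y ∈ T ↔ ∀ l : List (Mt N), (∀ x ∈ l, x ∈ G) → app l y ∈ h := by
    intro y
    simp [T, Submodule.mem_iInf]
  have fT : ∀ x ∈ G, ∀ y ∈ T, adM x y ∈ T := by
    intro x hx y hy
    rw [mT] at hy ⊢
    intro l hl
    exact hy (x :: l) (by simpa [hx] using hl)
  have key : ∀ l : List (Mt N), (∀ x ∈ l, x ∈ G) → ∀ q ∈ h, ∀ y ∈ T, app l (adM q y) ∈ h := by
    intro l
    induction l with
    | nil => exact fun _ q hq y hy => hh q hq y ((mT y).1 hy [] (by simp))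
    | cons x l ih =>
      intro hl q hq y hy
      have hx := hl x (by simp)
      have hl' : ∀ x ∈ l, x ∈ G := fun z hz => hl z (by simp [hz])
      obtain ⟨q', hq', x', hx', e⟩ := dec _ (hg x (hG x hx) q (hle hq))
      change app l (adM x (adM q y)) ∈ h
      rw [adM_jacobi, e, adM_add_left, map_add, map_add]
      exact h.add_mem (h.add_mem (ih hl' q' hq' y hy) ((mT _).1 (fT x' hx' y hy) l hl'))
        (ih hl' q hq _ (fT x hx y hy))
  refine le_core (r := T) (fun y hy => (mT y).1 hy [] (by simp)) ?_ ((mT y).2 hy)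
  intro y hy z hz
  obtain ⟨q, hq, x, hx, rfl⟩ := dec y hy
  rw [adM_add_left]
  exact T.add_mem ((mT _).2 fun l hl => key l hl q hq z hz) (fT x hx z hz)

end Kol68.IrrAux

namespace Kol68.LowData

open IrrAux

variable {N : ℕ} (D : LowData N)

theorem regrade (hdim : Module.finrank ℂ D.g = Module.finrank ℂ D.h + 2)
    (hirr : ∀ r, D.h ≤ r → r ≤ D.g → Stab D.h r → r = D.h ∨ r = D.g) :
    ∃ z ∈ Submodule.span ℂ {z | ∃ x ∈ D.h, ∃ y ∈ D.h, z = adM x y}, ∃ n : ℕ, 0 < n ∧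
      ∀ x ∈ D.g, adM (D.d - z) x + (n / 2 : ℂ) • x ∈ D.h := by
  obtain ⟨F⟩ := exists_frame D hdim
  have top := F.sup_eq_top hirr
  set Z := Submodule.span ℂ {z | ∃ x ∈ D.h, ∃ y ∈ D.h, z = adM x y} with hZ
  have Zh : Z ≤ D.h := Submodule.span_le.2 (by
    rintro _ ⟨x, hx, y, hy, rfl⟩
    exact D.h_lie x hx y hy)
  have com : ∀ A B : M2, A * B - B * A ∈ Z.map F.M := by
    intro A B
    obtain ⟨_, ⟨y, hy, rfl⟩, b, hb, rfl⟩ := Submodule.mem_sup.1 (top ▸ Submodule.mem_top : A ∈ _)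
    obtain ⟨c, rfl⟩ := Submodule.mem_span_singleton.1 hb
    obtain ⟨_, ⟨z, hz, rfl⟩, b, hb, rfl⟩ := Submodule.mem_sup.1 (top ▸ Submodule.mem_top : B ∈ _)
    obtain ⟨c', rfl⟩ := Submodule.mem_span_singleton.1 hb
    refine ⟨_, Submodule.subset_span ⟨y, hy, z, hz, rfl⟩, ?_⟩
    rw [F.M_ad hy hz]
    simp only [add_mul, mul_add, smul_mul_assoc, mul_smul_comm, one_mul, mul_one]
    module
  obtain ⟨z, hz, ez⟩ : F.M D.d - ((F.M D.d).trace / 2) • (1 : M2) ∈ Z.map F.M := by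
    generalize F.M D.d = T
    have : T - (T.trace / 2) • (1 : M2) =
        (!![1, 0; 0, 0] * !![0, T 0 1; -T 1 0, 0] - !![0, T 0 1; -T 1 0, 0] * !![1, 0; 0, 0]) +
        (!![0, (T 0 0 - T 1 1) / 2; 0, 0] * !![0, 0; 1, 0] -
          !![0, 0; 1, 0] * !![0, (T 0 0 - T 1 1) / 2; 0, 0]) := by
      ext i j
      fin_cases i <;> fin_cases j <;> simp [Matrix.trace_fin_two] <;> ring
    rw [this]
    exact Submodule.add_mem _ (com _ _) (com _ _)
  obtain ⟨n, n0, hn⟩ := (D.tr_pos D.h D.h_le D.h_lie).resolve_left fun h => by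
    rw [← D.no_ideal D.h le_rfl D.h_le h] at hdim
    omega
  have tr := F.tr_eq D.d_mem
  rw [D.tr_ideal _ le_rfl D.g_lie, hn] at tr
  refine ⟨z, hz, n, n0, fun x hx => ?_⟩
  have hd := D.h.sub_mem D.d_mem (Zh hz)
  rw [F.mem_iff _ (D.g.add_mem (D.g_lie _ (D.h_le hd) x hx) (D.g.smul_mem _ hx)), map_add,
    F.π_ad hd hx, map_sub, ez, sub_sub_cancel, Matrix.smul_mulVec, Matrix.one_mulVec, map_smul,
    ← add_smul, show (F.M D.d).trace / 2 + n / 2 = 0 by linear_combination -tr / 2, zero_smul]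

theorem low_two_irr (hdim : Module.finrank ℂ D.g = Module.finrank ℂ D.h + 2)
    (hirr : ∀ r, D.h ≤ r → r ≤ D.g → Stab D.h r → r = D.h ∨ r = D.g)
    {a : ℕ} (ha : 0 < a) (hsc : ∀ x ∈ D.g, adM D.d x + (a : ℂ) • x ∈ D.h) : D.Good := by
  obtain ⟨F⟩ := exists_frame D hdim
  have a0 : (a : ℂ) ≠ 0 := by exact_mod_cast ha.ne'
  have dg := D.h_le D.d_mem
  have πd : ∀ x ∈ D.g, F.π (adM D.d x) = -(a : ℂ) • F.π x := fun x hx => by
    have := (F.mem_iff _ (D.h_le (hsc x hx))).1 (hsc x hx)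
    rw [map_add, map_smul] at this
    linear_combination (norm := module) this
  have Md : F.M D.d = -(a : ℂ) • (1 : M2) := by
    refine Matrix.ext_of_mulVec_single fun j => ?_
    rw [← F.π_x, ← F.π_ad D.d_mem (F.x_mem j), πd _ (F.x_mem j), Matrix.smul_mulVec,
      Matrix.one_mulVec]
  have top : D.h.map F.M = ⊤ := by
    rw [← F.sup_eq_top hirr, left_eq_sup, Submodule.span_singleton_le_iff_mem]
    refine ⟨(-1 / a : ℂ) • D.d, D.h.smul_mem _ D.d_mem, ?_⟩
    rw [map_smul, Md, smul_smul, show (-1 / a * -a : ℂ) = 1 by field_simp, one_smul]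
  have deg : ∀ (k : ℂ) (x : Mt N), x ∈ D.g → adM D.d x = k • x → k ≠ -a → x ∈ D.h := by
    intro k x x1 x2 x3
    have := πd x x1
    rw [x2, map_smul, ← sub_eq_zero, ← sub_smul, smul_eq_zero] at this
    exact (F.mem_iff x x1).2 (this.resolve_left (sub_ne_zero.2 x3))
  have M0 : ∀ (k : ℂ) (y : Mt N), y ∈ D.h → adM D.d y = k • y → k ≠ 0 → F.M y = 0 := by
    intro k y y1 y2 y3
    have := F.M_ad D.d_mem y1
    rw [y2, map_smul, Md] at this
    simp only [smul_mul_assoc, mul_smul_comm, one_mul, mul_one, sub_self] at this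
    exact (smul_eq_zero.1 this).resolve_left y3
  let G : Submodule ℂ (Mt N) := D.g ⊓ Module.End.eigenspace (adM D.d) (-a : ℂ)
  have mG : ∀ x, x ∈ G ↔ x ∈ D.g ∧ adM D.d x = -(a : ℂ) • x := fun x => by
    simp only [G, Submodule.mem_inf, Module.End.mem_eigenspace_iff]
  have dec : ∀ y ∈ D.g, ∃ q ∈ D.h, ∃ x ∈ (G : Set (Mt N)), y = q + x := by
    intro y hy
    have : D.g ≤ D.h ⊔ G := D.hom_ind (D.g_lie _ dg) fun k x x1 x2 => by
      by_cases hk : (k : ℂ) = -a
      · exact Submodule.mem_sup_right ((mG x).2 ⟨x1, hk ▸ x2⟩)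
      · exact Submodule.mem_sup_left (deg k x x1 x2 hk)
    obtain ⟨q, hq, x, hx, e⟩ := Submodule.mem_sup.1 (this hy)
    exact ⟨q, hq, x, hx, e.symm⟩
  have appd : ∀ l : List (Mt N), (∀ x ∈ l, x ∈ (G : Set (Mt N))) → ∀ (k : ℂ) (y : Mt N), y ∈ D.g →
      adM D.d y = k • y → app l y ∈ D.g ∧ adM D.d (app l y) = (k - l.length * a) • app l y := by
    intro l
    induction l with
    | nil => exact fun _ k y y1 y2 => ⟨y1, by simpa [app] using y2⟩
    | cons x l ih =>
      intro hl k y y1 y2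
      obtain ⟨x1, x2⟩ := (mG x).1 (hl x (by simp))
      obtain ⟨h1, h2⟩ := ih (fun z hz => hl z (by simp [hz])) _ _ (D.g_lie x x1 y y1)
        (deg_adM x2 y2)
      refine ⟨h1, h2.trans ?_⟩
      congr 1
      simp only [List.length_cons]
      push_cast
      ring
  have crit : ∀ (k : ℂ) (y : Mt N), y ∈ D.g → adM D.d y = k • y →
      (∀ l : List (Mt N), (∀ x ∈ l, x ∈ (G : Set (Mt N))) → k = (l.length - 1) * a →
        app l y ∈ D.h) → y ∈ core D.g D.h := by
    intro k y y1 y2 y3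
    refine mem_core D.h_lie D.g_lie D.h_le (fun x hx => ((mG x).1 hx).1) dec fun l hl => ?_
    by_contra c
    obtain ⟨h1, h2⟩ := appd l hl k y y1 y2
    refine c (y3 l hl ?_)
    by_contra c'
    exact c (deg _ _ h1 h2 fun e => c' (by linear_combination e))
  have low : ∀ y ∈ D.h, adM D.d y = -(a : ℂ) • y → y ∈ core D.g D.h := by
    intro y y1 y2
    refine crit _ y (D.h_le y1) y2 fun l _ hl => ?_
    have : (l.length : ℂ) = 0 := mul_right_cancel₀ a0 (by linear_combination -hl)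
    have : l = [] := List.length_eq_zero_iff.1 (by exact_mod_cast this)
    subst this
    exact y1
  have Jh := core_le D.g D.h
  have Js := stab_core D.g D.h
  have aa : (a : ℂ) ≠ -a := fun e => a0 (by linear_combination e / 2)
  obtain ⟨e, eg, ed, x, hx, y, hy, hxy⟩ : ∃ e ∈ D.g, adM D.d e = (a : ℂ) • e ∧
      ∃ x ∈ G, ∃ y ∈ G, adM y (adM x e) ∉ D.h := by
    by_contra c
    push Not at c
    have two : ∀ l : List (Mt N), (∀ x ∈ l, x ∈ (G : Set (Mt N))) → 2 ≤ l.length →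
        ∀ y ∈ D.g, adM D.d y = ((l.length - 1) * a : ℂ) • y → app l y ∈ D.h := by
      intro l
      induction l with
      | nil => simp
      | cons x l ih =>
        intro hl h2 y y1 y2
        obtain ⟨x1, x2⟩ := (mG x).1 (hl x (by simp))
        by_cases h3 : 2 ≤ l.length
        · refine ih (fun z hz => hl z (by simp [hz])) h3 _ (D.g_lie x x1 y y1)
            ((deg_adM x2 y2).trans ?_)
          congr 1
          simp only [List.length_cons]
          push_cast
          ring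
        · obtain ⟨z, rfl⟩ := List.length_eq_one_iff.1
            (show l.length = 1 by simp only [List.length_cons] at h2; omega)
          refine c y y1 (y2.trans ?_) x (hl x (by simp)) z (hl z (by simp))
          congr 1
          simp only [List.length_cons, List.length_nil]
          push_cast
          ring
    have t1 := D.trOn_eq_of_deg_zero Jh (Js _ dg) (D.h_lie _ D.d_mem) fun k y y1 y2 y3 => by
      by_contra k0
      refine y3 (crit k y (D.h_le y1) y2 fun l hl hk => ?_)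
      match l, hl, hk with
      | [], _, _ => exact y1
      | [x], _, hk => exact absurd (by simpa using hk) k0
      | x :: z :: l, hl, hk => exact two _ hl (by simp) y (D.h_le y1) (hk ▸ y2)
    have t2 := F.tr_eq D.d_mem
    rw [t1, D.tr_ideal _ le_rfl D.g_lie, D.tr_ideal _ (Jh.trans D.h_le) Js, Md] at t2
    simp only [Matrix.trace_fin_two, Matrix.smul_apply, Matrix.one_apply_eq, smul_eq_mul] at t2
    exact a0 (by linear_combination t2 / 2)
  have eh : e ∈ D.h := deg _ e eg ed aa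
  obtain ⟨x, hx, hY⟩ : ∃ x ∈ G, adM x (adM x e) ∉ D.h := by
    by_contra c
    push Not at c
    obtain ⟨x1, x2⟩ := (mG x).1 hx
    obtain ⟨y1, y2⟩ := (mG y).1 hy
    have h1 := D.h_lie _ (deg _ _ (D.g_lie x x1 y y1) (deg_adM x2 y2)
      fun e => a0 (by linear_combination -e)) e eh
    have h2 := D.h.sub_mem (D.h.sub_mem (D.h.sub_mem (c _ (G.add_mem hx hy)) (c x hx)) (c y hy)) h1
    refine hxy ((D.h.smul_mem_iff (two_ne_zero' ℂ)).1 ?_)
    convert h2 using 1
    simp only [adM_add_left, map_add]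
    rw [adM_jacobi x y e]
    module
  obtain ⟨x1, x2⟩ := (mG x).1 hx
  have xh : x ∉ D.h := fun h => hY (D.h_lie x h _ (D.h_lie x h e eh))
  have πx : F.π x ≠ 0 := fun h => xh ((F.mem_iff x x1).2 h)
  have Yg : adM x (adM x e) ∈ D.g := D.g_lie x x1 _ (D.g_lie x x1 e eg)
  obtain ⟨E, Eh, Ed, c, c0, hc⟩ : ∃ E ∈ D.h, adM D.d E = (a : ℂ) • E ∧
      ∃ c : ℂ, c ≠ 0 ∧ F.π (adM x (adM x E)) = c • F.π x := by
    by_cases hp : F.π x 0 * F.π (adM x (adM x e)) 1 = F.π x 1 * F.π (adM x (adM x e)) 0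
    · obtain ⟨c, hc⟩ := par πx hp
      refine ⟨e, eh, ed, c, ?_, hc⟩
      rintro rfl
      exact hY ((F.mem_iff _ Yg).2 (by rw [hc, zero_smul]))
    · obtain ⟨z', hz', ez'⟩ : (Matrix.of fun i j => F.π x i * ![-F.π x 1, F.π x 0] j : M2) ∈
          D.h.map F.M := top ▸ Submodule.mem_top
      have : D.h ≤ (D.h ⊓ LinearMap.ker (adM D.d)) ⊔ LinearMap.ker F.M :=
        D.hom_ind (D.h_lie _ D.d_mem) fun k y y1 y2 => by
          by_cases hk : (k : ℂ) = 0
          · exact Submodule.mem_sup_left ⟨y1, by simpa [hk] using y2⟩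
          · exact Submodule.mem_sup_right (M0 k y y1 y2 hk)
      obtain ⟨z, ⟨zh, zd⟩, j, hj, rfl⟩ := Submodule.mem_sup.1 (this hz')
      rw [map_add, LinearMap.mem_ker.1 hj, add_zero] at ez'
      have zd' : adM D.d z = (0 : ℂ) • z := by simpa using zd
      have zx : adM z x ∈ core D.g D.h := by
        refine low _ ((F.mem_iff _ (D.g_lie z (D.h_le zh) x x1)).2 ?_)
          (by simpa using deg_adM zd' x2)
        rw [F.π_ad zh x1, ez']
        ext i
        simp [Matrix.mulVec, dotProduct, Fin.sum_univ_two]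
        ring
      refine ⟨adM z e, D.h_lie z zh e eh, by simpa using deg_adM zd' ed, _, sub_ne_zero.2 hp, ?_⟩
      have j1 := Jh (Js _ (D.g_lie x x1 e eg) _ zx)
      have j2 := Jh (Js x x1 _ (Js e eg _ zx))
      have e1 : adM x (adM x (adM z e)) =
          adM z (adM x (adM x e)) + adM (adM x e) (adM z x) + adM x (adM e (adM z x)) := by
        simp only [adM_apply]
        noncomm_ring
      rw [e1, map_add, map_add, (F.mem_iff _ (D.h_le j1)).1 j1, (F.mem_iff _ (D.h_le j2)).1 j2,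
        add_zero, add_zero, F.π_ad zh Yg, ez']
      ext i
      simp [Matrix.mulVec, dotProduct, Fin.sum_univ_two]
      ring
  have Ed' : adM D.d ((-2 / c) • E) = (a : ℂ) • (-2 / c) • E := by rw [map_smul, Ed, smul_comm]
  have Eh' := D.h.smul_mem (-2 / c) Eh
  have Hg := D.g_lie _ (D.h_le Eh') x x1
  have Hd := deg_adM Ed' x2
  refine D.good_of Eh' x1 (D.nilp_pos (Submodule.subset_span ⟨a, by exact_mod_cast ha, Ed'⟩))
    (D.nilp_neg (Submodule.subset_span ⟨-a, by omega, by exact_mod_cast x2⟩)) xh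
    (deg _ _ Hg Hd (by simpa using a0)) (low _ ?_ ?_) ?_ ?_
  · rw [F.mem_iff _ (D.g.add_mem (D.g_lie _ Hg x x1) (D.g.smul_mem _ x1)), adM_swap,
      adM_swap _ x, map_neg, neg_neg, map_add, map_smul, map_smul, map_smul, map_smul, hc,
      smul_smul, ← add_smul, div_mul_cancel₀ _ c0, neg_add_cancel, zero_smul]
  · rw [map_add, deg_adM Hd x2, map_smul, x2]
    module
  · have : x = (-1 / a : ℂ) • adM D.d x := by
      rw [x2, smul_smul, show (-1 / a * -a : ℂ) = 1 by field_simp, one_smul]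
    rw [this]
    exact Submodule.smul_mem _ _ (Submodule.subset_span ⟨_, dg, _, x1, rfl⟩)
  · intro k k1 k2 k3 k4
    exact (hirr k k1 k2 fun y hy => k4 y (k1 hy)).resolve_left fun h => xh (h ▸ k3)

end Kol68.LowData
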