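import Pool.Agent.Work.MP_c53807_ag.LowBasic

-- merged part: Pool.Agent.Work.MP_c53807_ag.LowRed1
section
open scoped Matrix

namespace Kol68

variable {N : ℕ}

theorem dec_sup {V : Type*} [AddCommGroup V] [Module ℂ V] {a p : Submodule ℂ V} {f : V}
    (hap : a = p ⊔ ℂ ∙ f) {y : V} (hy : y ∈ a) : ∃ q ∈ p, ∃ c : ℂ, y = q + c • f := by
  rw [hap] at hy
  obtain ⟨q, hq, b, hb, rfl⟩ := Submodule.mem_sup.1 hy
  obtain ⟨c, rfl⟩ := Submodule.mem_span_singleton.1 hb
  exact ⟨q, hq, c, rfl⟩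

theorem mem_sup_span {V : Type*} [AddCommGroup V] [Module ℂ V] {p : Submodule ℂ V} {f q : V}
    (hq : q ∈ p) (c : ℂ) : q + c • f ∈ p ⊔ ℂ ∙ f :=
  Submodule.add_mem_sup hq (Submodule.smul_mem _ _ (Submodule.mem_span_singleton_self f))

theorem mem_core_of_iter' {a p t : Submodule ℂ (Mt N)} {f : Mt N} (hp : Stab p t)
    (ha : Stab a a) (hap : a = p ⊔ ℂ ∙ f) {x : Mt N}
    (hi : ∀ i : ℕ, (adM f ^ i) x ∈ t) : x ∈ core a t := by
  let T : Submodule ℂ (Mt N) := ⨅ i : ℕ, t.comap (adM f ^ i)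
  have mT : ∀ y, y ∈ T ↔ ∀ i : ℕ, (adM f ^ i) y ∈ t := by
    intro y; simp [T, Submodule.mem_iInf]
  have fa : f ∈ a := by
    rw [hap]; exact Submodule.mem_sup_right (Submodule.mem_span_singleton_self f)
  have pa : p ≤ a := by rw [hap]; exact le_sup_left
  have fT : ∀ y ∈ T, adM f y ∈ T := by
    intro y hy
    rw [mT] at hy ⊢
    exact fun i => by rw [← adM_pow_succ]; exact hy _
  have key : ∀ i : ℕ, ∀ q ∈ p, ∀ y ∈ T, (adM f ^ i) (adM q y) ∈ t := by
    intro i
    induction i with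
    | zero =>
      intro q hq y hy
      simpa using hp q hq y (by simpa using (mT y).1 hy 0)
    | succ i ih =>
      intro q hq y hy
      obtain ⟨q', hq', c, e⟩ := dec_sup hap (ha f fa q (pa hq))
      rw [adM_pow_succ, adM_jacobi, e, adM_add_left, adM_smul_left, map_add, map_add, map_smul]
      exact t.add_mem (t.add_mem (ih q' hq' y hy) (t.smul_mem _ ((mT _).1 (fT y hy) i)))
        (ih q hq _ (fT y hy))
  refine le_core (r := T) (fun y hy => by simpa using (mT y).1 hy 0) ?_ ((mT x).2 hi)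
  intro y hy z hz
  obtain ⟨q, hq, c, rfl⟩ := dec_sup hap hy
  rw [adM_add_left, adM_smul_left]
  exact T.add_mem ((mT _).2 fun i => key i q hq z hz) (T.smul_mem _ (fT z hz))

theorem Stab.right {a r : Submodule ℂ (Mt N)} (h : Stab a r) {x y : Mt N} (hx : x ∈ a)
    (hy : y ∈ r) : adM y x ∈ r := by
  rw [adM_swap]; exact r.neg_mem (h x hx y hy)

namespace LowData

/-- The data of the reducible case. -/
structure Red (D : LowData N) where
  r : Submodule ℂ (Mt N)
  a : ℤ
  b : ℤ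
  e : Mt N
  f : Mt N
  t : Mt N
  a0 : 0 < a
  hr : D.h ≤ r
  rg : r ≤ D.g
  rr : Stab r r
  fg : f ∈ D.g
  fr : f ∉ r
  eh : e ∈ D.h
  fd : adM D.d f = (-a : ℂ) • f
  ed : adM D.d e = (a : ℂ) • e
  z : adM e f - (2 / a : ℂ) • D.d ∈ core D.g r
  req : r = core D.g r ⊔ (ℂ ∙ D.d) ⊔ (ℂ ∙ e)
  tn : t ∈ core D.g r
  th : t ∉ D.h
  td : adM D.d t = (-b : ℂ) • t
  gs : D.g = r ⊔ ℂ ∙ f
  rs : r = D.h ⊔ ℂ ∙ t
  degg : ∀ (k : ℤ) (x : Mt N), x ∈ D.g → adM D.d x = (k : ℂ) • x → x ∉ r → k = -a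
  degr : ∀ (k : ℤ) (x : Mt N), x ∈ r → adM D.d x = (k : ℂ) • x → x ∉ D.h → k = -b
  trm : trOn (core D.g r ⊓ D.h) (adM D.d) = b

variable (D : LowData N)

theorem exists_red (hdim : Module.finrank ℂ D.g = Module.finrank ℂ D.h + 2)
    {r : Submodule ℂ (Mt N)} (hhr : D.h < r) (hrg : r < D.g) (hr : Stab D.h r) :
    Nonempty D.Red := by
  have d1 := Submodule.finrank_lt_finrank_of_lt hhr
  have d2 := Submodule.finrank_lt_finrank_of_lt hrg
  have e1 : Module.finrank ℂ r = Module.finrank ℂ D.h + 1 := by omega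
  have e2 : Module.finrank ℂ D.g = Module.finrank ℂ r + 1 := by omega
  obtain ⟨t0, t0r, t0h⟩ := SetLike.exists_of_lt hhr
  have rr : Stab r r := by
    intro x hx y hy
    obtain ⟨q, hq, c, rfl⟩ := dec_sup (eq_sup_of_finrank hhr.le e1 t0r t0h) hx
    obtain ⟨q', hq', c', e⟩ := dec_sup (eq_sup_of_finrank hhr.le e1 t0r t0h) hy
    rw [adM_add_left, adM_smul_left]
    refine r.add_mem (hr q hq y hy) (r.smul_mem _ ?_)
    rw [e, map_add, map_smul, adM_self, smul_zero, add_zero]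
    exact hr.right hq' t0r
  obtain ⟨a, e, f, a0, fg, fr, er, fd, ed, z, req⟩ := D.line hhr.le hrg.le rr e2
  have dh := D.d_mem
  have sr : ∀ y ∈ r, adM D.d y ∈ r := hr _ dh
  have sh : ∀ y ∈ D.h, adM D.d y ∈ D.h := D.h_lie _ dh
  have trg : ∀ (k : ℂ) (x : Mt N), x ∈ D.g → adM D.d x = k • x → x ∉ r →
      trOn r (adM D.d) + k = 0 := by
    intro k x x1 x2 x3
    rw [← trOn_step sr x3 (k := k) (by simp [x2]), ← eq_sup_of_finrank hrg.le e2 x1 x3,
      D.tr_ideal _ le_rfl D.g_lie]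
  have trr : ∀ (k : ℂ) (x : Mt N), x ∈ r → adM D.d x = k • x → x ∉ D.h →
      trOn D.h (adM D.d) + k = trOn r (adM D.d) := by
    intro k x x1 x2 x3
    rw [← trOn_step sh x3 (k := k) (by simp [x2]), ← eq_sup_of_finrank hhr.le e1 x1 x3]
  have t1 := trg _ f fg fd fr
  have eh : e ∈ D.h := by
    by_contra c
    have t2 := trr _ e er ed c
    rcases D.tr_pos D.h D.h_le D.h_lie with h | ⟨n, n0, h⟩
    · exact (hhr.trans hrg).ne (D.no_ideal _ le_rfl D.h_le h)
    · have : (n : ℂ) = 0 := by rw [← h]; linear_combination t2 + t1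
      exact n0.ne' (by exact_mod_cast this)
  have nh : ¬ core D.g r ≤ D.h := by
    intro c
    refine hhr.not_ge ?_
    rw [req]
    exact sup_le (sup_le c ((Submodule.span_singleton_le_iff_mem _ _).2 dh))
      ((Submodule.span_singleton_le_iff_mem _ _).2 eh)
  have sn : ∀ y ∈ core D.g r, adM D.d y ∈ core D.g r := stab_core _ _ _ (D.h_le dh)
  obtain ⟨k, t, tn, td, th⟩ := D.exists_hom sn nh
  have tr := core_le _ _ tn
  have rs := eq_sup_of_finrank hhr.le e1 tr th
  have t2 := trr _ t tr td th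
  refine ⟨⟨r, a, -k, e, f, t, a0, hhr.le, hrg.le, rr, fg, fr, eh, fd, ed, z, req, tn, th,
    by simpa using td, eq_sup_of_finrank hrg.le e2 fg fr, rs, ?_, ?_, ?_⟩⟩
  · intro l x x1 x2 x3
    have t3 := trg _ x x1 x2 x3
    have : (l : ℂ) = ((-a : ℤ) : ℂ) := by push_cast; linear_combination t3 - t1
    exact_mod_cast this
  · intro l x x1 x2 x3
    have t3 := trr _ x x1 x2 x3
    have : (l : ℂ) = k := by linear_combination t3 - t2
    rw [neg_neg]
    exact_mod_cast this
  · have ns : core D.g r = (core D.g r ⊓ D.h) ⊔ ℂ ∙ t := by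
      refine le_antisymm (fun x hx => ?_)
        (sup_le inf_le_left ((Submodule.span_singleton_le_iff_mem _ _).2 tn))
      obtain ⟨q, hq, c, e⟩ := dec_sup rs (core_le _ _ hx)
      rw [e]
      refine mem_sup_span (Submodule.mem_inf.2 ⟨?_, hq⟩) c
      rw [eq_sub_of_add_eq e.symm]
      exact Submodule.sub_mem _ hx (Submodule.smul_mem _ _ tn)
    have t3 := trOn_step (r := core D.g r ⊓ D.h) (f := adM D.d)
      (fun y hy => ⟨sn y hy.1, sh y hy.2⟩) (x := t) (fun h => th h.2) (k := k) (by simp [td])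
    rw [← ns, D.tr_ideal _ ((core_le _ _).trans hrg.le) (stab_core _ _)] at t3
    push_cast
    linear_combination -t3

namespace Red

variable {D} (R : D.Red)

theorem a0' : (R.a : ℂ) ≠ 0 := by exact_mod_cast R.a0.ne'

theorem ng : core D.g R.r ≤ D.g := (core_le _ _).trans R.rg

theorem tg : R.t ∈ D.g := R.ng R.tn

theorem tr : R.t ∈ R.r := core_le _ _ R.tn

theorem eg : R.e ∈ D.g := D.h_le R.eh

theorem decn {x : Mt N} (hx : x ∈ core D.g R.r) :
    ∃ q, q ∈ core D.g R.r ∧ q ∈ D.h ∧ ∃ c : ℂ, x = q + c • R.t := by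
  obtain ⟨q, hq, c, e⟩ := dec_sup R.rs (core_le _ _ hx)
  refine ⟨q, ?_, hq, c, e⟩
  rw [eq_sub_of_add_eq e.symm]
  exact Submodule.sub_mem _ hx (Submodule.smul_mem _ _ R.tn)

theorem Jn : core D.g D.h ≤ core D.g R.r := le_core ((core_le _ _).trans R.hr) (stab_core _ _)

theorem nh {k : ℤ} {x : Mt N} (hx : x ∈ core D.g R.r) (hd : adM D.d x = (k : ℂ) • x)
    (hk : k ≠ -R.b) : x ∈ D.h := by
  by_contra c
  exact hk (R.degr k x (core_le _ _ hx) hd c)

theorem stab_m : Stab D.h (core D.g R.r ⊓ D.h) := fun x hx y hy =>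
  ⟨stab_core _ _ x (D.h_le hx) y hy.1, D.h_lie x hx y hy.2⟩

theorem gen {k : Submodule ℂ (Mt N)} (h1 : D.h ≤ k) (h2 : k ≤ D.g) (ht : R.t ∈ k) (hf : R.f ∈ k) :
    k = D.g := by
  refine le_antisymm h2 ?_
  rw [R.gs, R.rs]
  exact sup_le (sup_le h1 ((Submodule.span_singleton_le_iff_mem _ _).2 ht))
    ((Submodule.span_singleton_le_iff_mem _ _).2 hf)

theorem b_ne : R.b ≠ 0 := by
  intro b0
  have dg := D.h_le D.d_mem
  have ms : Stab D.g (core D.g R.r ⊓ D.h) := by
    refine (D.tr_pos _ (inf_le_right.trans D.h_le) R.stab_m).resolve_right ?_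
    rintro ⟨n, n0, h⟩
    rw [R.trm, b0] at h
    exact n0.ne' (by exact_mod_cast h.symm)
  have mJ : core D.g R.r ⊓ D.h ≤ core D.g D.h := le_core inf_le_right ms
  have Js := stab_core D.g D.h
  have ns := stab_core D.g R.r
  have td : adM D.d R.t = (0 : ℂ) • R.t := by simpa [b0] using R.td
  have a0 := R.a0
  have gt : ∀ x ∈ D.g, adM x R.t ∈ core D.g D.h := by
    have : D.g ≤ (core D.g D.h).comap (-adM R.t) := by
      have c : ∀ x, adM x R.t ∈ core D.g D.h → x ∈ (core D.g D.h).comap (-adM R.t) := by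
        intro x hx
        rwa [Submodule.mem_comap, LinearMap.neg_apply, ← adM_swap]
      conv_lhs => rw [R.gs, R.req]
      refine sup_le (sup_le (sup_le (fun x hx => c x ?_) ?_) ?_) ?_
      · obtain ⟨q, q1, q2, s, rfl⟩ := R.decn hx
        rw [adM_add_left, adM_smul_left, adM_self, smul_zero, add_zero]
        exact Js.right R.tg (mJ ⟨q1, q2⟩)
      · refine (Submodule.span_singleton_le_iff_mem _ _).2 (c _ ?_)
        rw [td, zero_smul]; exact Submodule.zero_mem _
      · refine (Submodule.span_singleton_le_iff_mem _ _).2 (c _ (mJ ⟨ns _ R.eg _ R.tn, ?_⟩))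
        exact R.nh (k := R.a) (ns _ R.eg _ R.tn) (by simpa using deg_adM R.ed td) (by omega)
      · refine (Submodule.span_singleton_le_iff_mem _ _).2 (c _ (mJ ⟨ns _ R.fg _ R.tn, ?_⟩))
        exact R.nh (k := -R.a) (ns _ R.fg _ R.tn) (by simpa using deg_adM R.fd td) (by omega)
    intro x hx
    have := this hx
    rwa [Submodule.mem_comap, LinearMap.neg_apply, ← adM_swap] at this
  have gn : ∀ x ∈ D.g, ∀ y ∈ core D.g R.r, adM x y ∈ core D.g D.h := by
    intro x hx y hy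
    obtain ⟨q, q1, q2, s, rfl⟩ := R.decn hy
    rw [map_add, map_smul]
    exact Submodule.add_mem _ (Js x hx q (mJ ⟨q1, q2⟩)) (Submodule.smul_mem _ _ (gt x hx))
  obtain ⟨j, j1, j2, c, hc⟩ := R.decn R.z
  by_cases c0 : c = 0
  · rw [c0, zero_smul, add_zero] at hc
    have fs : R.f ∈ D.h ⊔ ℂ ∙ R.f := Submodule.mem_sup_right (Submodule.mem_span_singleton_self _)
    have rf : ∀ y ∈ R.r, adM y R.f ∈ D.h ⊔ ℂ ∙ R.f := by
      intro y hy
      obtain ⟨y1, hy1, β, rfl⟩ := dec_sup R.req hy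
      obtain ⟨ν, hν, α, rfl⟩ := dec_sup rfl hy1
      rw [adM_add_left, adM_add_left, adM_smul_left, adM_smul_left, R.fd, adM_swap ν]
      refine Submodule.add_mem _ (Submodule.add_mem _ (Submodule.mem_sup_left
        (Submodule.neg_mem _ (core_le _ _ (gn _ R.fg _ hν))))
        (Submodule.smul_mem _ _ (Submodule.smul_mem _ _ fs)))
        (Submodule.smul_mem _ _ (Submodule.mem_sup_left ?_))
      rw [eq_add_of_sub_eq hc]
      exact D.h.add_mem j2 (D.h.smul_mem _ D.d_mem)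
    have := D.no_ideal (D.h ⊔ ℂ ∙ R.f) le_sup_left
      (sup_le D.h_le ((Submodule.span_singleton_le_iff_mem _ _).2 R.fg)) (by
        intro x hx y hy
        obtain ⟨y1, hy1, γ, rfl⟩ := dec_sup rfl hy
        obtain ⟨x1, hx1, β, rfl⟩ := dec_sup R.gs hx
        rw [map_add, map_smul, adM_add_left, adM_add_left, adM_smul_left, adM_smul_left, adM_self,
          smul_zero, add_zero, adM_swap R.f]
        refine Submodule.add_mem _ (Submodule.add_mem _ ?_ (Submodule.smul_mem _ _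
          (Submodule.neg_mem _ (rf _ (R.hr hy1))))) (Submodule.smul_mem _ _ (rf _ hx1))
        obtain ⟨x2, hx2, α, rfl⟩ := dec_sup R.rs hx1
        rw [adM_add_left, adM_smul_left, adM_swap R.t]
        exact Submodule.mem_sup_left (D.h.add_mem (D.h_lie _ hx2 _ hy1) (D.h.smul_mem _
          (D.h.neg_mem (core_le _ _ (gt _ (D.h_le hy1)))))))
    obtain ⟨q, hq, γ, e⟩ := dec_sup this.symm R.tg
    by_cases γ0 : γ = 0
    · exact R.th (by rw [e, γ0, zero_smul, add_zero]; exact hq)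
    · refine R.fr ((Submodule.smul_mem_iff _ γ0).1 ?_)
      rw [eq_sub_of_add_eq' e.symm]
      exact Submodule.sub_mem _ R.tr (R.hr hq)
  · set ν := adM R.e R.f - (2 / R.a : ℂ) • D.d with hν
    have νg : ν ∈ D.g := R.ng R.z
    have com : ∀ x ∈ D.g, ∀ w ∈ D.V', x *ᵥ (ν *ᵥ w) = ν *ᵥ (x *ᵥ w) := by
      intro x hx w hw
      have := D.core_zero (gn x hx ν R.z) (Submodule.subset_span ⟨x, hx, ν, νg, rfl⟩) w hw
      rwa [adM_mulVec, sub_eq_zero] at this
    have inj : ∀ μ : ℂ, μ ≠ 0 → ∀ w ∈ D.V', ν *ᵥ w = μ • w → w = 0 := by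
      intro μ μ0 w hw e
      let W : Submodule ℂ (Fin N → ℂ) := D.V' ⊓ LinearMap.ker (Matrix.toLin' ν - μ • LinearMap.id)
      have mW : ∀ u, u ∈ W ↔ u ∈ D.V' ∧ ν *ᵥ u = μ • u := by
        intro u; simp [W, sub_eq_zero]
      have st : StabV D.g W := fun x hx u hu => (mW _).2 ⟨D.stabV x hx u ((mW u).1 hu).1, by
        rw [← com x hx u ((mW u).1 hu).1, ((mW u).1 hu).2, Matrix.mulVec_smul]⟩
      have t1 : trOn W (Matrix.toLin' ν) = 0 := by
        rw [hν, map_sub, map_smul, trOn_sub, trOn_smul, trOn_toLin'_adM st R.eg R.fg, D.tr_V W st]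
        simp
      rw [trOn_congr (g := μ • LinearMap.id) (fun u hu => ((mW u).1 hu).2), trOn_smul, trOn_id,
        mul_eq_zero] at t1
      have : W = ⊥ := Submodule.finrank_eq_zero.1 (by exact_mod_cast t1.resolve_left μ0)
      have m := (mW w).2 ⟨hw, e⟩
      rwa [this] at m
    have H : adM R.e R.f = (2 / R.a : ℂ) • D.d + ν := by rw [hν]; abel
    have a0' := R.a0'
    have mV : ∀ k : ℕ, ∀ w ∈ D.V', R.f ^ k *ᵥ w ∈ D.V' := by
      intro k w hw
      induction k with
      | zero => simpa using hw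
      | succ k ih => rw [pow_succ', ← Matrix.mulVec_mulVec]; exact D.stabV _ R.fg _ ih
    have Hf : ∀ k : ℕ, ∀ w ∈ D.V', adM R.e R.f *ᵥ (R.f ^ k *ᵥ w) =
        R.f ^ k *ᵥ (adM R.e R.f *ᵥ w) - (2 * k : ℂ) • (R.f ^ k *ᵥ w) := by
      intro k w hw
      induction k with
      | zero => simp
      | succ k ih =>
        have t : ∀ u ∈ D.V', adM R.e R.f *ᵥ (R.f *ᵥ u) =
            R.f *ᵥ (adM R.e R.f *ᵥ u) - (2 : ℂ) • (R.f *ᵥ u) := by
          intro u hu
          have s := adM_mulVec D.d R.f u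
          rw [R.fd, Matrix.smul_mulVec] at s
          rw [H, Matrix.add_mulVec, Matrix.add_mulVec, Matrix.smul_mulVec, Matrix.smul_mulVec,
            Matrix.mulVec_add, Matrix.mulVec_smul, com _ R.fg u hu, eq_add_of_sub_eq s.symm,
            smul_add, smul_smul, show (2 / R.a * -R.a : ℂ) = -2 by field_simp]
          module
        rw [pow_succ', ← Matrix.mulVec_mulVec, ← Matrix.mulVec_mulVec, t _ (mV k w hw), ih,
          Matrix.mulVec_sub, Matrix.mulVec_smul]
        push_cast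
        module
    have ef : ∀ k : ℕ, ∀ w ∈ D.V', R.e *ᵥ w = 0 → R.e *ᵥ (R.f ^ (k + 1) *ᵥ w) =
        (k + 1 : ℂ) • (R.f ^ k *ᵥ (adM R.e R.f *ᵥ w - (k : ℂ) • w)) := by
      intro k w hw e0
      induction k with
      | zero => simp [adM_mulVec, e0]
      | succ k ih =>
        have t := Hf (k + 1) w hw
        rw [adM_mulVec, ih, Matrix.mulVec_smul, Matrix.mulVec_mulVec _ R.f (R.f ^ k), ← pow_succ',
          Matrix.mulVec_mulVec w R.f (R.f ^ (k + 1)), ← pow_succ', Matrix.mulVec_sub,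
          Matrix.mulVec_smul] at t
        rw [Matrix.mulVec_sub, Matrix.mulVec_smul]
        push_cast at t ⊢
        linear_combination (norm := module) t
    obtain ⟨-, l, hl⟩ := (D.mem_h _).1 D.d_mem
    have P : ∀ k : ℕ, ∀ w ∈ D.V', R.e *ᵥ w = 0 → D.d *ᵥ w = l • w → R.f ^ k *ᵥ w = 0 →
        ν *ᵥ w = 0 ∧ (w = 0 ∨ ∃ i : ℕ, i < k ∧ 2 / R.a * l = i) := by
      intro k
      induction k with
      | zero =>
        intro w _ _ _ h
        have : w = 0 := by simpa using h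
        simp [this]
      | succ k ih =>
        intro w hw e0 d0 h
        have t := ef k w hw e0
        rw [h, Matrix.mulVec_zero, H, Matrix.add_mulVec, Matrix.smul_mulVec, d0] at t
        have k1 : (k + 1 : ℂ) ≠ 0 := by exact_mod_cast k.succ_ne_zero
        have t2 := (smul_eq_zero.1 t.symm).resolve_left k1
        have νw := D.stabV ν νg w hw
        obtain ⟨p1, p2⟩ := ih _ (D.V'.sub_mem (D.V'.add_mem (D.V'.smul_mem _ (D.V'.smul_mem _ hw))
          νw) (D.V'.smul_mem _ hw))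
          (by simp [Matrix.mulVec_sub, Matrix.mulVec_add, Matrix.mulVec_smul, com _ R.eg w hw, e0])
          (by
            simp only [Matrix.mulVec_sub, Matrix.mulVec_add, Matrix.mulVec_smul, com _ dg w hw, d0]
            module) t2
        by_cases c : (2 / R.a * l : ℂ) = k
        · refine ⟨?_, Or.inr ⟨k, k.lt_succ_self, c⟩⟩
          rcases p2 with p2 | ⟨i, i1, i2⟩
          · rw [smul_smul, c] at p2
            linear_combination (norm := module) p2
          · rw [c] at i2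
            have : k = i := by exact_mod_cast i2
            omega
        · have c' : (k - 2 / R.a * l : ℂ) ≠ 0 := sub_ne_zero.2 (Ne.symm c)
          refine ⟨inj _ c' _ νw ?_, ?_⟩
          · simp only [Matrix.mulVec_sub, Matrix.mulVec_add, Matrix.mulVec_smul] at p1
            linear_combination (norm := module) p1
          · rcases p2 with p2 | ⟨i, i1, i2⟩
            · exact Or.inl (inj _ c' _ hw (by linear_combination (norm := module) p2))
            · exact Or.inr ⟨i, by omega, i2⟩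
    obtain ⟨m, hm⟩ := D.nilp_neg (x := R.f)
      (Submodule.subset_span ⟨-R.a, by omega, by exact_mod_cast R.fd⟩)
    have e0 : R.e *ᵥ D.v = 0 := by
      obtain ⟨-, c, hc⟩ := (D.mem_h _).1 R.eh
      obtain ⟨n, hn⟩ := D.nilp_pos (x := R.e) (Submodule.subset_span ⟨R.a, a0, R.ed⟩)
      have : ∀ m : ℕ, R.e ^ m *ᵥ D.v = c ^ m • D.v := by
        intro m
        induction m with
        | zero => simp
        | succ m ih => rw [pow_succ', ← Matrix.mulVec_mulVec, ih, Matrix.mulVec_smul, hc, smul_smul,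
            pow_succ]
      have h := this n
      rw [hn, Matrix.zero_mulVec] at h
      rw [hc, eq_zero_of_pow_eq_zero ((smul_eq_zero.1 h.symm).resolve_right D.hv), zero_smul]
    have := (P m D.v D.v_mem e0 hl (by rw [hm, Matrix.zero_mulVec])).1
    have νh : ν ∈ D.h := (D.mem_h _).2 ⟨νg, 0, by rw [this, zero_smul]⟩
    refine R.th ((Submodule.smul_mem_iff _ c0).1 ?_)
    rw [eq_sub_of_add_eq' hc.symm]
    exact D.h.sub_mem νh j2

theorem b_pos : 0 < R.b := by
  rcases D.tr_pos _ (inf_le_right.trans D.h_le) R.stab_m with h | ⟨n, n0, h⟩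
  · have := D.tr_ideal _ (inf_le_right.trans D.h_le) h
    rw [R.trm] at this
    exact absurd (by exact_mod_cast this) R.b_ne
  · rw [R.trm] at h
    have : R.b = n := by exact_mod_cast h
    omega

end Red

end LowData

end Kol68
end

-- merged part: Pool.Agent.Work.MP_c53807_ag.LowRed
section
open scoped Matrix

namespace Kol68.LowData

variable {N : ℕ}

theorem comm_of_deg (D : LowData N) {x : Mt N} {k : ℂ} (hx : x ∈ D.g) (hk : k ≠ 0)
    (hd : adM D.d x = k • x) :
    x ∈ Submodule.span ℂ {z | ∃ x ∈ D.g, ∃ y ∈ D.g, z = adM x y} := by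
  refine (Submodule.smul_mem_iff _ hk).1 ?_
  rw [← hd]
  exact Submodule.subset_span ⟨_, D.h_le D.d_mem, _, hx, rfl⟩

namespace Red

variable {D : LowData N} (R : D.Red)

/-- The largest `r`-stable subspace of `n ⊓ h`. -/
noncomputable def K : Submodule ℂ (Mt N) := core R.r (core D.g R.r ⊓ D.h)

theorem b0' : (R.b : ℂ) ≠ 0 := by exact_mod_cast R.b_ne

theorem Kn {x : Mt N} (hx : x ∈ R.K) : x ∈ core D.g R.r := (core_le _ _ hx).1

theorem Kh {x : Mt N} (hx : x ∈ R.K) : x ∈ D.h := (core_le _ _ hx).2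

theorem Ks : Stab R.r R.K := stab_core _ _

theorem JK : core D.g D.h ≤ R.K :=
  le_core (le_inf R.Jn (core_le _ _)) fun x hx => stab_core _ _ x (R.rg hx)

theorem td' : adM D.d R.t = ((-R.b : ℤ) : ℂ) • R.t := by exact_mod_cast R.td

theorem fd' : adM D.d R.f = ((-R.a : ℤ) : ℂ) • R.f := by exact_mod_cast R.fd

theorem crit {k : ℤ} {x : Mt N} (x1 : x ∈ core D.g R.r) (x2 : adM D.d x = (k : ℂ) • x)
    (x3 : ∀ i : ℕ, k = (i - 1) * R.b → (adM R.t ^ i) x ∈ D.h) : x ∈ R.K := by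
  refine mem_core_of_iter D.h_lie R.rr R.rs (fun y hy => stab_core _ _ y (R.rg hy)) x1 fun i => ?_
  by_contra c
  have t := R.degr (i * (-R.b) + k) _ (core_le _ _ ((stab_core _ _).pow_mem R.tg x1 i))
    (by rw [deg_pow R.td x2 i]; push_cast; rfl) c
  exact c (x3 i (by linear_combination t))

theorem neg_K {k : ℤ} {x : Mt N} (x1 : x ∈ core D.g R.r) (xh : x ∈ D.h)
    (x2 : adM D.d x = (k : ℂ) • x) (hk : k < 0) : x ∈ R.K := by
  refine R.crit x1 x2 fun i hi => ?_
  rcases Nat.eq_zero_or_pos i with rfl | i0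
  · simpa using xh
  · exfalso
    have : (0 : ℤ) ≤ (i - 1) * R.b := mul_nonneg (by omega) R.b_pos.le
    omega

theorem zero_K {x : Mt N} (x1 : x ∈ core D.g R.r) (x2 : adM D.d x = 0)
    (x3 : adM R.t x ∈ D.h) : x ∈ R.K := by
  refine R.crit (k := 0) x1 (by simpa using x2) fun i hi => ?_
  have : (i : ℤ) - 1 = 0 := (mul_eq_zero.1 hi.symm).resolve_right R.b_ne
  have : i = 1 := by omega
  simpa [this] using x3

/-- Homogeneous elements of `n` of degree `-b`. -/
theorem dec_K {x : Mt N} (x1 : x ∈ core D.g R.r) (x2 : adM D.d x = (-R.b : ℂ) • x) :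
    ∃ q ∈ R.K, ∃ c : ℂ, x = q + c • R.t := by
  obtain ⟨q, q1, q2, c, e⟩ := R.decn x1
  refine ⟨q, R.neg_K (k := -R.b) q1 q2 ?_ (by have := R.b_pos; omega), c, e⟩
  rw [eq_sub_of_add_eq e.symm, map_sub, map_smul, x2, R.td]
  push_cast
  module

theorem caseA {e0 : Mt N} (e0n : e0 ∈ core D.g R.r) (e0d : adM D.d e0 = (R.b : ℂ) • e0)
    (e0h : (adM R.t ^ 2) e0 ∉ D.h) : D.Good := by
  have ns := stab_core D.g R.r
  have Js := stab_core D.g D.h
  have dg := D.h_le D.d_mem
  have b0 := R.b_pos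
  have a0 := R.a0
  have b0' := R.b0'
  have a0' := R.a0'
  have tg := R.tg
  obtain ⟨q0, hq0, c, hc⟩ := R.dec_K (ns.pow_mem tg e0n 2) (by
    rw [deg_pow R.td e0d 2]; congr 1; push_cast; ring)
  obtain c0 : c ≠ 0 := by
    rintro rfl
    exact e0h (by rw [hc, zero_smul, add_zero]; exact R.Kh hq0)
  obtain ⟨e2, en, ed, q, hq, he⟩ : ∃ e2 ∈ core D.g R.r, adM D.d e2 = (R.b : ℂ) • e2 ∧
      ∃ q ∈ R.K, adM R.t (adM R.t e2) = q - (2 : ℂ) • R.t := by
    refine ⟨(-2 / c) • e0, Submodule.smul_mem _ _ e0n, by rw [map_smul, e0d, smul_comm],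
      (-2 / c) • q0, Submodule.smul_mem _ _ hq0, ?_⟩
    rw [sq, Module.End.mul_apply] at hc
    rw [map_smul, map_smul, hc, smul_add, smul_smul, div_mul_cancel₀ _ c0, neg_smul,
      sub_eq_add_neg]
  obtain ⟨h2, hh2⟩ : ∃ h2, h2 = adM e2 R.t := ⟨_, rfl⟩
  have eg := R.ng en
  have hn : h2 ∈ core D.g R.r := hh2 ▸ ns _ eg _ R.tn
  have hg := R.ng hn
  have hd : adM D.d h2 = 0 := by rw [hh2, deg_adM ed R.td]; simp
  have hh : h2 ∈ D.h := R.nh (k := 0) hn (by simpa using hd) (by omega)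
  have eh : e2 ∈ D.h := R.nh en ed (by omega)
  obtain th2 : adM R.t h2 = (2 : ℂ) • R.t - q := by
    rw [hh2, adM_swap e2, map_neg, he, neg_sub]
  have tK : R.t ∉ R.K := fun h => R.th (R.Kh h)
  have sK : ∀ y ∈ R.K, adM D.d y ∈ R.K := R.Ks _ (R.hr D.d_mem)
  have s1 := D.stab_sup_hom sK (x := h2) (k := 0) (by rw [hd, zero_smul])
  obtain t1 : trOn (R.K ⊔ ℂ ∙ h2) (adM D.d) = trOn R.K (adM D.d) := by
    by_cases c : h2 ∈ R.K
    · rw [sup_eq_left.2 ((Submodule.span_singleton_le_iff_mem _ _).2 c)]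
    · rw [trOn_step sK c (k := 0) (by simp [hd]), add_zero]
  obtain eK : e2 ∉ R.K := by
    intro h
    have a2 := R.Ks _ R.tr _ (R.Ks _ R.tr _ h)
    rw [he] at a2
    have a3 := R.K.sub_mem hq a2
    rw [sub_sub_cancel] at a3
    exact tK ((Submodule.smul_mem_iff _ two_ne_zero).1 a3)
  obtain hK : h2 ∉ R.K := by
    intro h
    have a2 := R.K.add_mem (R.Ks _ R.tr _ h) hq
    rw [th2, sub_add_cancel] at a2
    exact tK ((Submodule.smul_mem_iff _ two_ne_zero).1 a2)
  obtain e1 : e2 ∉ R.K ⊔ ℂ ∙ h2 := by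
    intro h
    obtain ⟨κ, hκ, s, h⟩ := dec_sup rfl h
    refine eK ((Submodule.smul_mem_iff _ b0').1 ?_)
    rw [← ed, h, map_add, map_smul, hd, smul_zero, add_zero]
    exact sK _ hκ
  have t2 := trOn_step s1 e1 (k := R.b) (by simp [ed])
  have le1 : R.K ⊔ (ℂ ∙ h2) ⊔ (ℂ ∙ e2) ≤ core D.g R.r ⊓ D.h :=
    sup_le (sup_le (core_le _ _) ((Submodule.span_singleton_le_iff_mem _ _).2 ⟨hn, hh⟩))
      ((Submodule.span_singleton_le_iff_mem _ _).2 ⟨en, eh⟩)
  have Kg : R.K ≤ D.g := fun x hx => R.ng (R.Kn hx)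
  have tp := D.tr_pos R.K Kg fun x hx => R.Ks x (R.hr hx)
  obtain ⟨meq, KJ⟩ : R.K ⊔ (ℂ ∙ h2) ⊔ (ℂ ∙ e2) = core D.g R.r ⊓ D.h ∧ R.K ≤ core D.g D.h := by
    clear * - N D R h2 e2 le1 s1 ed ns tg hn hd q th2 hq tp t1 t2 Kg c hc
    rcases D.trOn_pos_of le1 (D.stab_sup_hom s1 ed) (R.stab_m _ D.d_mem) (fun k x x1 x2 x3 => by
      by_contra k0
      refine x3 (Submodule.mem_sup_left ?_)
      rcases (not_lt.1 k0).eq_or_lt with rfl | k0
      · obtain ⟨q', -, q2, c, hc⟩ := R.decn (ns _ tg x x1.1)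
        have := R.zero_K (x := x - (c / 2) • h2) (Submodule.sub_mem _ x1.1 (Submodule.smul_mem _ _ hn))
          (by rw [map_sub, map_smul, hd, x2]; simp)
          (by
            rw [map_sub, map_smul, th2, hc]
            convert D.h.add_mem q2 (D.h.smul_mem (c / 2) (R.Kh hq)) using 1
            module)
        have t := mem_sup_span (f := h2) this (c / 2)
        rwa [sub_add_cancel] at t
      · exact Submodule.mem_sup_left (R.neg_K x1.1 x1.2 x2 k0)) with h | ⟨m, m0, h⟩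
    · refine ⟨h, le_core (fun x hx => R.Kh hx) (tp.resolve_right ?_)⟩
      rintro ⟨n, n0, hn⟩
      rw [h, R.trm, t1, hn, right_eq_add] at t2
      exact n0.ne' (by exact_mod_cast t2)
    · exfalso
      rw [R.trm, t2, t1] at h
      rcases tp with s | ⟨n, n0, hn⟩
      · rw [D.tr_ideal _ Kg s, zero_add, left_eq_add] at h
        exact m0.ne' (by exact_mod_cast h)
      · rw [hn] at h
        have : ((n + m : ℕ) : ℂ) = 0 := by push_cast; linear_combination -h
        have : n + m = 0 := by exact_mod_cast this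
        omega
  set J := core D.g D.h with hJ
  have qJ := KJ hq
  obtain indep : ∀ α β γ : ℂ, α • h2 + β • e2 + γ • R.t ∈ J → α = 0 ∧ β = 0 ∧ γ = 0 := by
    clear * - N J h2 e2 D R Js dg eK b0' hd ed tK hK c
    intro α β γ h
    have h1 := Js _ dg _ h
    have h2' := Js _ dg _ h1
    simp only [map_add, map_smul, hd, ed, R.td, smul_zero, zero_add] at h1 h2'
    obtain β0 : β = 0 := by
      by_contra c
      refine eK (R.JK ((Submodule.smul_mem_iff _ (mul_ne_zero (mul_ne_zero two_ne_zero c)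
        (mul_ne_zero b0' b0'))).1 ?_))
      convert J.add_mem (J.smul_mem (R.b : ℂ) h1) h2' using 1
      module
    obtain γ0 : γ = 0 := by
      by_contra c
      refine tK (R.JK ((Submodule.smul_mem_iff _ (mul_ne_zero c b0')).1 ?_))
      convert J.neg_mem h1 using 1
      rw [β0]; module
    refine ⟨?_, β0, γ0⟩
    by_contra c
    refine hK (R.JK ((Submodule.smul_mem_iff _ c).1 ?_))
    simpa [β0, γ0] using h
  obtain decN : ∀ (k : ℂ) (x : Mt N), x ∈ core D.g R.r → adM D.d x = k • x →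
      ∃ j ∈ J, ∃ α β γ : ℂ, x = j + α • h2 + β • e2 + γ • R.t ∧
        k * α = 0 ∧ (k - R.b) * β = 0 ∧ (k + R.b) * γ = 0 := by
    clear * - N D R J h2 e2 meq KJ indep hd ed Js dg
    intro k x x1 x2
    obtain ⟨y, y1, y2, γ, e⟩ := R.decn x1
    obtain ⟨y', hy', β, e'⟩ := dec_sup meq.symm (Submodule.mem_inf.2 ⟨y1, y2⟩)
    obtain ⟨j, hj, α, e''⟩ := dec_sup rfl hy'
    rw [e', e''] at e
    refine ⟨j, KJ hj, α, β, γ, e, indep _ _ _ ?_⟩
    rw [e] at x2
    simp only [map_add, map_smul, hd, ed, R.td, smul_zero] at x2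
    convert J.sub_mem (Js _ dg _ (KJ hj)) (J.smul_mem k (KJ hj)) using 1
    linear_combination (norm := module) -x2
  have ht : adM h2 R.t = q - (2 : ℂ) • R.t := by rw [adM_swap, th2, neg_sub]
  obtain ⟨j2, hj2, he2⟩ : ∃ j ∈ J, adM h2 e2 = j + (2 : ℂ) • e2 := by
    clear * - N J h2 e2 D R decN ns hg en hd ed indep q hh2 ht b0' Js tg eg qJ
    obtain ⟨j, hj, α, β, γ, e, a1, -, a3⟩ := decN R.b _ (ns _ hg _ en)
      (by simpa using deg_adM (k := 0) (by simpa using hd) ed)
    rw [(mul_eq_zero.1 a1).resolve_left b0', (mul_eq_zero.1 a3).resolve_left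
      (by rw [← two_mul]; exact mul_ne_zero two_ne_zero b0'), zero_smul, zero_smul, add_zero,
      add_zero] at e
    have jac := adM_jacobi h2 e2 R.t
    rw [← hh2, adM_self, e, ht, adM_add_left, adM_smul_left, map_sub, map_smul, ← hh2] at jac
    have := (indep (β - 2) 0 0 (by
      convert J.neg_mem (J.add_mem (Js.right tg hj) (Js _ eg _ qJ)) using 1
      linear_combination (norm := module) -jac)).1
    exact ⟨j, hj, by rw [e, sub_eq_zero.1 this]⟩
  obtain comm : ∀ (k : ℂ) (y : Mt N), y ∈ D.g → adM D.d y = k • y → k ≠ 0 → adM y h2 ∈ J →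
      ∀ x ∈ core D.g R.r, adM y x ∈ J := by
    clear * - N D J h2 e2 R decN ns en ed indep q j2 ht he2 Js hg qJ eg hj2 tg meq KJ
    intro k y y1 y2 k0 y3
    have y4 : adM h2 y ∈ J := by rw [adM_swap]; exact J.neg_mem y3
    obtain ye : adM y e2 ∈ J := by
      obtain ⟨j, hj, α, β, γ, e, -, a2, -⟩ := decN _ _ (ns _ y1 _ en) (deg_adM y2 ed)
      have β0 : β = 0 := (mul_eq_zero.1 a2).resolve_left (by simpa using k0)
      have jac := adM_jacobi h2 y e2
      rw [he2, map_add, map_smul, e] at jac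
      simp only [map_add, map_smul, adM_self, ht, β0, zero_smul, smul_zero, map_zero] at jac
      obtain ⟨x1, -, x3⟩ := indep (2 * α) 0 (4 * γ) (by
        clear * - N J α h2 e2 γ D R j q y j2 jac Js hg hj qJ eg y4 y1 hj2
        convert J.sub_mem (J.sub_mem (J.sub_mem (J.add_mem (Js _ hg _ hj) (J.smul_mem γ qJ))
          (Js.right eg y4)) (Js _ y1 _ hj2)) (J.smul_mem 2 hj) using 1
        linear_combination (norm := module) -jac)
      rw [e, β0, (mul_eq_zero.1 x1).resolve_left two_ne_zero,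
        (mul_eq_zero.1 x3).resolve_left (by norm_num)]
      simpa using hj
    obtain yt : adM y R.t ∈ J := by
      obtain ⟨j, hj, α, β, γ, e, -, -, a3⟩ := decN _ _ (ns _ y1 _ R.tn) (deg_adM y2 R.td)
      have γ0 : γ = 0 := (mul_eq_zero.1 a3).resolve_left (by simpa using k0)
      have jac := adM_jacobi h2 y R.t
      rw [ht, map_sub, map_smul, e] at jac
      simp only [map_add, map_smul, adM_self, he2, γ0, zero_smul, smul_zero, map_zero] at jac
      obtain ⟨x1, x2, -⟩ := indep (2 * α) (4 * β) 0 (by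
        clear * - N J α h2 β e2 D R y q j j2 jac Js tg y4 y1 qJ hg hj hj2
        convert J.sub_mem (J.sub_mem (J.sub_mem (J.add_mem (Js.right tg y4) (Js _ y1 _ qJ))
          (Js _ hg _ hj)) (J.smul_mem β hj2)) (J.smul_mem 2 hj) using 1
        linear_combination (norm := module) jac)
      rw [e, γ0, (mul_eq_zero.1 x1).resolve_left two_ne_zero,
        (mul_eq_zero.1 x2).resolve_left (by norm_num)]
      simpa using hj
    intro x hx
    obtain ⟨y, y1', y2', γ, e⟩ := R.decn hx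
    obtain ⟨y', hy', β, e'⟩ := dec_sup meq.symm (Submodule.mem_inf.2 ⟨y1', y2'⟩)
    obtain ⟨j, hj, α, e''⟩ := dec_sup rfl hy'
    rw [e, e', e'']
    simp only [map_add, map_smul]
    exact J.add_mem (J.add_mem (J.add_mem (Js _ y1 _ (KJ hj)) (J.smul_mem _ y3))
      (J.smul_mem _ ye)) (J.smul_mem _ yt)
  have hd0 : adM D.d h2 = (0 : ℂ) • h2 := by clear * - N D h2 hd; simpa using hd
  have ab : (R.a : ℂ) + R.b ≠ 0 := by exact_mod_cast (by omega : R.a + R.b ≠ 0)
  obtain ⟨s, f'd, f'h⟩ : ∃ s : ℂ, adM D.d (R.f - s • R.t) = (-R.a : ℂ) • (R.f - s • R.t) ∧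
      adM (R.f - s • R.t) h2 ∈ J := by
    clear * - N J D R h2 e2 decN ns hn hd0 a0' ab q th2 qJ
    obtain ⟨j, hj, α, β, γ, e, a1, a2, a3⟩ := decN _ _ (ns _ R.fg _ hn) (deg_adM R.fd hd0)
    have α0 : α = 0 := (mul_eq_zero.1 a1).resolve_left (by simpa using a0')
    have β0 : β = 0 := (mul_eq_zero.1 a2).resolve_left fun h => ab (by linear_combination -h)
    refine ⟨γ / 2, ?_, ?_⟩
    · rw [map_sub, map_smul, R.fd, R.td]
      linear_combination (norm := module) (a3 / 2) • R.t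
    · rw [adM_sub_left, adM_smul_left, e, th2, α0, β0]
      convert J.add_mem hj (J.smul_mem (γ / 2) qJ) using 1
      module
  obtain ⟨u, e'd, e'h⟩ : ∃ u : ℂ, adM D.d (R.e + u • e2) = (R.a : ℂ) • (R.e + u • e2) ∧
      adM (R.e + u • e2) h2 ∈ J := by
    clear * - N J D R h2 e2 decN ns hn hd0 a0' ab ed j2 he2 hj2 eg
    obtain ⟨j, hj, α, β, γ, e, a1, a2, a3⟩ := decN _ _ (ns _ R.eg _ hn) (deg_adM R.ed hd0)
    have α0 : α = 0 := (mul_eq_zero.1 a1).resolve_left (by simpa using a0')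
    have γ0 : γ = 0 := (mul_eq_zero.1 a3).resolve_left fun h => ab (by linear_combination h)
    refine ⟨β / 2, ?_, ?_⟩
    · rw [map_add, map_smul, R.ed, ed]
      linear_combination (norm := module) (-a2 / 2) • e2
    · rw [adM_add_left, adM_smul_left, e, adM_swap e2, he2, α0, γ0]
      convert J.sub_mem hj (J.smul_mem (β / 2) hj2) using 1
      module
  obtain ⟨f', hf'⟩ : ∃ f', f' = R.f - s • R.t := ⟨_, rfl⟩
  obtain ⟨e', he'⟩ : ∃ e', e' = R.e + u • e2 := ⟨_, rfl⟩
  rw [← hf'] at f'd f'h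
  rw [← he'] at e'd e'h
  have f'g : f' ∈ D.g := hf' ▸ D.g.sub_mem R.fg (D.g.smul_mem _ tg)
  have e'h' : e' ∈ D.h := he' ▸ D.h.add_mem R.eh (D.h.smul_mem _ eh)
  have e'g := D.h_le e'h'
  have cf := comm _ f' f'g f'd (neg_ne_zero.2 a0') f'h
  have ce := comm _ e' e'g e'd a0' e'h
  obtain ⟨ν, νn, hν⟩ : ∃ ν ∈ core D.g R.r, adM e' f' = (2 / R.a : ℂ) • D.d + ν := by
    clear * - N D R e' f' s hf' u e2 he' ns en e'g
    refine ⟨adM e' f' - (2 / R.a : ℂ) • D.d, ?_, by abel⟩
    rw [hf', map_sub, map_smul, he', adM_add_left, adM_smul_left, ← he']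
    convert Submodule.sub_mem _ (Submodule.add_mem _ R.z (Submodule.smul_mem _ u
      (ns.right R.fg en))) (Submodule.smul_mem _ s (ns _ e'g _ R.tn)) using 1
    abel
  obtain efh : adM e' f' ∈ D.h := by
    clear * - N D ν e' f' R e'd f'd hν νn b0
    obtain νd : adM D.d ν = ((0 : ℤ) : ℂ) • ν := by
      have := deg_adM e'd f'd
      rw [hν, map_add, map_smul, adM_self] at this
      simpa using this
    rw [hν]
    exact D.h.add_mem (D.h.smul_mem _ D.d_mem) (R.nh νn νd (by omega))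
  obtain EF : adM (e' + e2) (f' + R.t) = adM e' f' + h2 + (adM e' R.t - adM f' e2) := by
    rw [adM_add_left, map_add, map_add, ← hh2, adM_swap e2 f']; abel
  have j0 : adM e' R.t - adM f' e2 ∈ J := J.sub_mem (ce _ R.tn) (cf _ en)
  have Fg : f' + R.t ∈ D.g := D.g.add_mem f'g tg
  have hf2 : adM h2 f' ∈ J := by rw [adM_swap]; exact J.neg_mem f'h
  refine D.good_of (E := e' + e2) (F := f' + R.t) (D.h.add_mem e'h' eh) Fg
    (D.nilp_pos (Submodule.add_mem _ (Submodule.subset_span ⟨R.a, a0, e'd⟩)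
      (Submodule.subset_span ⟨R.b, b0, ed⟩)))
    (D.nilp_neg (Submodule.add_mem _
      (Submodule.subset_span ⟨-R.a, by omega, by exact_mod_cast f'd⟩)
      (Submodule.subset_span ⟨-R.b, by omega, R.td'⟩))) ?_ ?_ ?_ ?_ ?_
  · intro h
    refine R.fr ?_
    have := R.r.add_mem (R.hr h) (R.r.smul_mem (s - 1) R.tr)
    convert this using 1
    rw [hf']; module
  · rw [EF]
    exact D.h.add_mem (D.h.add_mem efh hh) (core_le _ _ j0)
  · have x1 : adM (adM e' f') R.t ∈ J := by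
      have jac := adM_jacobi e' f' R.t
      rw [eq_sub_iff_add_eq.2 jac.symm]
      exact J.sub_mem (Js _ e'g _ (cf _ R.tn)) (Js _ f'g _ (ce _ R.tn))
    obtain x2 : adM (adM e' f') f' + (2 : ℂ) • f' ∈ J := by
      clear * - N J e' f' D R ν hν f'd a0' cf νn
      rw [hν, adM_add_left, adM_smul_left, f'd, smul_smul,
        show (2 / R.a * -R.a : ℂ) = -2 by field_simp, adM_swap ν]
      convert J.neg_mem (cf _ νn) using 1
      module
    rw [EF, adM_add_left, adM_add_left, map_add, map_add, ht]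
    convert J.add_mem (J.add_mem (J.add_mem (J.add_mem x1 x2) hf2) qJ) (Js.right Fg j0) using 1
    module
  · exact Submodule.add_mem _ (D.comm_of_deg f'g (neg_ne_zero.2 a0') f'd)
      (D.comm_of_deg tg (neg_ne_zero.2 b0') R.td)
  · intro k k1 k2 k3 k4
    obtain tk : R.t ∈ k := by
      have x := k4 _ (k1 hh) _ k3
      rw [map_add, ht] at x
      refine (Submodule.smul_mem_iff _ (two_ne_zero (α := ℂ))).1 ?_
      convert k.sub_mem (k.add_mem (k1 (core_le _ _ hf2)) (k1 (R.Kh hq))) x using 1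
      module
    refine R.gen k1 k2 tk ?_
    convert k.add_mem k3 (k.smul_mem (s - 1) tk) using 1
    rw [hf']; module

theorem caseB (hB : ∀ y ∈ core D.g R.r, adM D.d y = (R.b : ℂ) • y → (adM R.t ^ 2) y ∈ D.h) :
    D.Good := by
  have ns := stab_core D.g R.r
  have Js := stab_core D.g D.h
  have dg := D.h_le D.d_mem
  have b0 := R.b_pos
  have a0 := R.a0
  have b0' := R.b0'
  have a0' := R.a0'
  have tg := R.tg
  have tK : R.t ∉ R.K := fun h => R.th (R.Kh h)
  have sK : ∀ y ∈ R.K, adM D.d y ∈ R.K := R.Ks _ (R.hr D.d_mem)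
  have nz : ∀ (k : ℤ) (x : Mt N), x ∈ core D.g R.r → x ∈ D.h → adM D.d x = (k : ℂ) • x → k ≠ 0 →
      x ∈ R.K := by
    intro k x x1 xh x2 k0
    refine R.crit x1 x2 fun i hi => ?_
    match i with
    | 0 => simpa using xh
    | 1 => exact absurd (by simpa using hi) k0
    | i + 2 =>
      rw [add_comm, pow_add, Module.End.mul_apply]
      refine hB _ (ns.pow_mem tg x1 i) ?_
      rw [deg_pow R.td x2 i, hi]
      congr 1
      push_cast; ring
  set A := R.K ⊔ ℂ ∙ R.t with hA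
  have KA : R.K ≤ A := le_sup_left
  have tA : R.t ∈ A := Submodule.mem_sup_right (Submodule.mem_span_singleton_self _)
  have An : A ≤ core D.g R.r :=
    sup_le (fun x hx => R.Kn hx) ((Submodule.span_singleton_le_iff_mem _ _).2 R.tn)
  have Ag : A ≤ D.g := An.trans R.ng
  have AhK : ∀ x ∈ A, x ∈ D.h → x ∈ R.K := by
    intro x hx xh
    obtain ⟨q, hq, c, e⟩ := dec_sup hA hx
    by_cases c0 : c = 0
    · rw [e, c0, zero_smul, add_zero]; exact hq
    · refine absurd ((Submodule.smul_mem_iff _ c0).1 ?_) R.th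
      rw [eq_sub_of_add_eq' e.symm]
      exact D.h.sub_mem xh (R.Kh hq)
  have nzA : ∀ (k : ℤ) (x : Mt N), x ∈ core D.g R.r → adM D.d x = (k : ℂ) • x → k ≠ 0 → x ∈ A := by
    intro k x x1 x2 k0
    by_cases c : k = -R.b
    · obtain ⟨q, hq, s, rfl⟩ := R.dec_K x1 (by rw [x2, c]; push_cast; rfl)
      exact mem_sup_span hq s
    · exact KA (nz k x x1 (R.nh x1 x2 c) x2 k0)
  have B1 : ∀ y ∈ D.h, adM D.d y = (R.b : ℂ) • y → adM R.t (adM y R.t) ∈ D.h := by
    intro y yh yd
    obtain ⟨z, hz⟩ : ∃ z, z = adM y R.t := ⟨_, rfl⟩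
    rw [← hz]
    have zn : z ∈ core D.g R.r := hz ▸ ns _ (D.h_le yh) _ R.tn
    have zd : adM D.d z = (0 : ℂ) • z := by rw [hz, deg_adM yd R.td]; simp
    have zh : z ∈ D.h := R.nh (k := 0) zn (by simpa using zd) (by omega)
    have zg := R.ng zn
    obtain ⟨q, hq, c, hc⟩ := R.dec_K (ns _ tg _ zn) (by simpa using deg_adM R.td zd)
    have t1 : trOn (core D.g R.r) (adM z) = 0 :=
      hz ▸ trOn_adM_adM (ns _ (D.h_le yh)) (ns _ tg)
    have t2 : trOn R.K (adM z) = 0 := hz ▸ trOn_adM_adM (R.Ks _ (R.hr yh)) (R.Ks _ R.tr)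
    have t3 := trOn_step (R.Ks _ (R.hr zh)) tK (k := -c) (by
      rw [adM_swap, hc]
      convert R.K.neg_mem hq using 1
      module)
    have t4 : trOn (core D.g R.r) (adM z) = trOn A (adM z) := by
      refine trOn_of_maps_le An (D.hom_ind (r' := A.comap (adM z)) (ns _ dg) fun k x x1 x2 => ?_)
      have xd : adM D.d (adM z x) = (k : ℂ) • adM z x := by simpa using deg_adM zd x2
      by_cases k0 : k = 0
      · refine KA (R.zero_K (ns _ zg _ x1) (by simpa [k0] using xd) ?_)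
        have xh := R.nh x1 x2 (by omega)
        obtain ⟨q', -, q2, c', hc'⟩ := R.decn (ns _ tg _ x1)
        rw [adM_jacobi, hc, hc', adM_add_left, adM_smul_left, hc', map_add, map_smul, adM_swap z R.t,
          hc]
        convert D.h.add_mem (D.h.add_mem (D.h_lie _ (R.Kh hq) _ xh) (D.h.smul_mem c q2))
          (D.h.sub_mem (D.h_lie _ zh _ q2) (D.h.smul_mem c' (R.Kh hq))) using 1
        module
      · exact nzA k _ (ns _ zg _ x1) xd k0
    rw [← hA, ← t4, t1, t2, zero_add, eq_comm, neg_eq_zero] at t3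
    rw [hc, t3, zero_smul, add_zero]
    exact R.Kh hq
  have hAs : Stab D.h A := by
    have : D.h ≤ A.comap (adM R.t) := by
      refine D.hom_ind (D.h_lie _ D.d_mem) fun k y y1 y2 => ?_
      have yn := ns.right (D.h_le y1) R.tn
      have yd : adM D.d (adM R.t y) = ((k - R.b : ℤ) : ℂ) • adM R.t y := by
        rw [deg_adM R.td y2]; congr 1; push_cast; ring
      by_cases c : k = R.b
      · refine KA (R.zero_K yn (by simpa [c] using yd) ?_)
        rw [adM_swap R.t y, map_neg]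
        exact D.h.neg_mem (B1 y y1 (c ▸ y2))
      · exact nzA _ _ yn yd (by omega)
    intro y hy x hx
    obtain ⟨q, hq, c, rfl⟩ := dec_sup hA hx
    rw [map_add, map_smul, adM_swap y R.t]
    exact A.add_mem (KA (R.Ks _ (R.hr hy) _ hq)) (A.smul_mem _ (A.neg_mem (this hy)))
  have trA : trOn A (adM D.d) = 0 := by
    have t1 := D.trOn_eq_of_deg_zero (r₁ := R.K) (core_le _ _) sK (R.stab_m _ D.d_mem)
      fun k x x1 x2 x3 => by
        by_contra k0
        exact x3 (nz k x x1.1 x1.2 x2 k0)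
    rw [hA, trOn_step sK tK (k := -R.b) (by simp [R.td]), ← t1, R.trm, add_neg_cancel]
  have As : Stab D.g A := by
    refine (D.tr_pos A Ag hAs).resolve_right ?_
    rintro ⟨n, n0, h⟩
    rw [trA] at h
    exact n0.ne' (by exact_mod_cast h.symm)
  set J := core D.g D.h with hJ
  have AA : ∀ x ∈ A, ∀ y ∈ A, adM x y ∈ J := by
    have : Submodule.span ℂ {z | ∃ x ∈ A, ∃ y ∈ A, z = adM x y} ≤ J := by
      refine le_core (Submodule.span_le.2 ?_) ?_
      · rintro _ ⟨x, hx, y, hy, rfl⟩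
        obtain ⟨q, hq, c, e⟩ := dec_sup hA hx
        obtain ⟨q', hq', c', rfl⟩ := dec_sup hA hy
        refine R.Kh ?_
        rw [map_add, map_smul]
        refine R.K.add_mem (R.Ks _ (core_le _ _ (An hx)) _ hq') (R.K.smul_mem _ ?_)
        rw [e, adM_add_left, adM_smul_left, adM_self, smul_zero, add_zero]
        exact R.Ks.right R.tr hq
      · intro u hu
        refine fun z hz => Submodule.mem_comap.1 (Submodule.span_le.2 ?_ hz)
        rintro _ ⟨x, hx, y, hy, rfl⟩
        rw [SetLike.mem_coe, Submodule.mem_comap, adM_jacobi]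
        exact Submodule.add_mem _ (Submodule.subset_span ⟨_, As u hu x hx, _, hy, rfl⟩)
          (Submodule.subset_span ⟨_, hx, _, As u hu y hy, rfl⟩)
    exact fun x hx y hy => this (Submodule.subset_span ⟨x, hx, y, hy, rfl⟩)
  have critJ : ∀ x, (∀ i : ℕ, (adM R.f ^ i) x ∈ R.K) → x ∈ J := fun x hx =>
    le_core (fun y hy => R.Kh (core_le _ _ hy)) (stab_core _ _)
      (mem_core_of_iter' R.Ks D.g_lie R.gs hx)
  have critJ' : ∀ (k : ℤ) (x : Mt N), x ∈ A → adM D.d x = (k : ℂ) • x →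
      (∀ i : ℕ, k - i * R.a = -R.b → (adM R.f ^ i) x ∈ D.h) → x ∈ J := by
    intro k x x1 x2 x3
    refine critJ x fun i => AhK _ (As.pow_mem R.fg x1 i) ?_
    by_cases c : k - i * R.a = -R.b
    · exact x3 i c
    · refine R.nh (An (As.pow_mem R.fg x1 i)) ?_ c
      rw [deg_pow R.fd x2 i]; congr 1; push_cast; ring
  obtain ⟨ζ, hζ⟩ : ∃ ζ, ζ = adM R.e R.f - (2 / R.a : ℂ) • D.d := ⟨_, rfl⟩
  have ζn : ζ ∈ core D.g R.r := hζ ▸ R.z
  have ζg := R.ng ζn
  have ζd : adM D.d ζ = (0 : ℂ) • ζ := by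
    rw [hζ, map_sub, map_smul, adM_self, deg_adM R.ed R.fd]; simp
  have ζA : ζ ∈ A := by
    obtain ⟨q, hq, c, hc⟩ := R.dec_K (ns _ ζg _ R.tn) (by simpa using deg_adM ζd R.td)
    have fζ : adM R.f ζ ∈ A :=
      nzA (-R.a) _ (ns _ R.fg _ ζn) (by simpa using deg_adM R.fd ζd) (by omega)
    have φK : ∀ μ ∈ A, adM ζ μ - c • μ ∈ R.K := by
      intro μ hμ
      obtain ⟨x, hx, s, rfl⟩ := dec_sup hA hμ
      rw [map_add, map_smul, hc]
      convert R.K.add_mem (R.K.sub_mem (R.Ks _ (core_le _ _ ζn) _ hx) (R.K.smul_mem c hx))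
        (R.K.smul_mem s hq) using 1
      module
    have φi : ∀ i : ℕ, ∀ μ ∈ A, (adM R.f ^ i) (adM ζ μ - c • μ) ∈ R.K := by
      intro i
      induction i with
      | zero => simpa using φK
      | succ i ih =>
        intro μ hμ
        rw [adM_pow_succ, map_sub, map_smul, adM_jacobi, add_sub_assoc, map_add]
        exact R.K.add_mem (R.JK (Js.pow_mem R.fg (AA _ fζ _ hμ) i)) (ih _ (As _ R.fg _ hμ))
    have JA : J ≤ A := R.JK.trans KA
    have t1 := trOn_of_maps_le JA (f := adM ζ - c • LinearMap.id)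
      fun μ hμ => critJ _ fun i => φi i μ hμ
    have t2 : ∀ I : Submodule ℂ (Mt N), I ≤ D.g → Stab D.g I → trOn I (adM ζ) = 0 := by
      intro I I1 I2
      have : adM ζ = adM (adM R.e R.f) - (2 / R.a : ℂ) • adM D.d :=
        LinearMap.ext fun x => by
          rw [hζ, adM_sub_left, adM_smul_left]; rfl
      rw [this, trOn_sub, trOn_smul, trOn_adM_adM (I2 _ R.eg) (I2 _ R.fg), D.tr_ideal I I1 I2]
      simp
    rw [trOn_sub, trOn_sub, trOn_smul, trOn_smul, trOn_id, trOn_id, t2 A Ag As,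
      t2 J (JA.trans Ag) Js] at t1
    have lt : Module.finrank ℂ J < Module.finrank ℂ A :=
      Submodule.finrank_lt_finrank_of_lt (lt_of_le_of_ne JA fun h => tK (R.JK (h.ge tA)))
    have c0 : c = 0 := by
      by_contra c0
      have : (Module.finrank ℂ A : ℂ) = Module.finrank ℂ J :=
        mul_left_cancel₀ c0 (by linear_combination -t1)
      exact lt.ne' (by exact_mod_cast this)
    refine KA (R.zero_K ζn (by simpa using ζd) ?_)
    rw [adM_swap, hc, c0, zero_smul, add_zero]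
    exact D.h.neg_mem (R.Kh hq)
  have μA : ∀ k : ℕ, (adM R.e ^ k) R.t ∈ A := As.pow_mem R.eg tA
  have μd : ∀ k : ℕ, adM D.d ((adM R.e ^ k) R.t) = (k * R.a + -R.b : ℂ) • (adM R.e ^ k) R.t :=
    deg_pow R.ed R.td
  have step : ∀ k : ℕ, adM R.f ((adM R.e ^ (k + 1)) R.t) = adM R.e (adM R.f ((adM R.e ^ k) R.t)) -
      (2 * k - 2 * R.b / R.a : ℂ) • (adM R.e ^ k) R.t - adM ζ ((adM R.e ^ k) R.t) := by
    intro k
    rw [adM_pow_succ', adM_jacobi, adM_swap R.f R.e, eq_add_of_sub_eq hζ.symm, ← neg_one_smul ℂ,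
      adM_smul_left, adM_add_left, adM_smul_left, μd, smul_smul,
      show (2 / R.a * (k * R.a + -R.b) : ℂ) = 2 * k - 2 * R.b / R.a by field_simp; ring]
    module
  have fμ : ∀ k : ℕ, adM R.f ((adM R.e ^ (k + 1)) R.t) -
      ((k + 1) * (2 * R.b / R.a - k) : ℂ) • (adM R.e ^ k) R.t ∈ J := by
    intro k
    induction k with
    | zero =>
      have f0 : adM R.f R.t ∈ J := critJ' (-R.a + -R.b) _ (As _ R.fg _ tA)
        (by exact_mod_cast deg_adM R.fd R.td) fun i hi => by
          exfalso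
          have : (0 : ℤ) ≤ i * R.a := by positivity
          omega
      rw [step]
      convert J.sub_mem (Js _ R.eg _ f0) (AA _ ζA _ tA) using 1
      simp only [pow_zero, Module.End.one_apply]
      push_cast
      module
    | succ k ih =>
      rw [step]
      have t := Js _ R.eg _ ih
      rw [map_sub, map_smul, ← adM_pow_succ'] at t
      convert J.sub_mem t (AA _ ζA _ (μA (k + 1))) using 1
      push_cast
      module
  obtain ⟨E, Eh, Ed, EJ⟩ : ∃ E ∈ D.h, adM D.d E = (R.a : ℂ) • E ∧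
      adM E R.f - (2 / R.a : ℂ) • D.d ∈ J := by
    by_cases c : ζ ∈ J
    · exact ⟨R.e, R.eh, R.ed, hζ ▸ c⟩
    · obtain ⟨i, hi⟩ : ∃ i : ℕ, 0 - i * R.a = -R.b := by
        by_contra hc
        exact c (critJ' 0 ζ ζA (by simpa using ζd) fun i hi => absurd ⟨i, hi⟩ hc)
      have i0 : 0 < i := by
        rcases Nat.eq_zero_or_pos i with rfl | h
        · simp at hi; omega
        · exact h
      have bi : (R.b : ℂ) = i * R.a := by exact_mod_cast (by omega : R.b = i * R.a)
      have nu : (2 * R.b / R.a : ℂ) = 2 * i := by rw [bi]; field_simp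
      have κ : ∀ k : ℕ, k ≤ i → ∃ κ : ℂ, κ ≠ 0 ∧
          (adM R.f ^ k) ((adM R.e ^ k) R.t) - κ • R.t ∈ J := by
        intro k
        induction k with
        | zero => exact fun _ => ⟨1, one_ne_zero, by simp⟩
        | succ k ih =>
          intro hk
          obtain ⟨κ, κ0, hκ⟩ := ih (by omega)
          have c1 : ((k + 1) * (2 * R.b / R.a - k) : ℂ) ≠ 0 := by
            rw [nu]
            refine mul_ne_zero (by exact_mod_cast k.succ_ne_zero) (sub_ne_zero.2 ?_)
            exact_mod_cast (by omega : 2 * i ≠ k)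
          refine ⟨_ * κ, mul_ne_zero c1 κ0, ?_⟩
          have t := Js.pow_mem R.fg (fμ k) k
          rw [map_sub, map_smul, ← adM_pow_succ] at t
          convert J.add_mem t (J.smul_mem ((k + 1) * (2 * R.b / R.a - k) : ℂ) hκ) using 1
          module
      obtain ⟨κ, κ0, hκ⟩ := κ i le_rfl
      obtain ⟨q, hq, γ, hγ⟩ := dec_sup hA (As.pow_mem R.fg ζA i)
      have z1 : ζ - (γ / κ) • (adM R.e ^ i) R.t ∈ J := by
        refine critJ' 0 _ (A.sub_mem ζA (A.smul_mem _ (μA i)))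
          (by rw [map_sub, map_smul, ζd, μd, bi]; simp) fun l hl => ?_
        have : l = i := by
          have : (l : ℤ) * R.a = i * R.a := by omega
          exact_mod_cast mul_right_cancel₀ a0.ne' this
        rw [this, map_sub, map_smul, hγ]
        convert D.h.sub_mem (R.Kh hq) (D.h.smul_mem (γ / κ) (core_le _ _ hκ)) using 1
        rw [smul_sub, smul_smul, div_mul_cancel₀ _ κ0]
        abel
      have c1 : ((i + 1) * (2 * R.b / R.a - i) : ℂ) ≠ 0 := by
        rw [nu]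
        refine mul_ne_zero (by exact_mod_cast i.succ_ne_zero) (sub_ne_zero.2 ?_)
        exact_mod_cast (by omega : 2 * i ≠ i)
      have εd : adM D.d ((adM R.e ^ (i + 1)) R.t) = (R.a : ℂ) • (adM R.e ^ (i + 1)) R.t := by
        rw [μd, bi]; congr 1; push_cast; ring
      have fi := fμ i
      generalize ((i + 1) * (2 * R.b / R.a - i) : ℂ) = c2 at c1 fi
      refine ⟨R.e + (γ / κ / c2) • (adM R.e ^ (i + 1)) R.t,
        D.h.add_mem R.eh (D.h.smul_mem _ (R.nh (An (μA _)) εd (by omega))), ?_, ?_⟩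
      · rw [map_add, map_smul, R.ed, εd]; module
      · rw [adM_add_left, adM_smul_left, adM_swap ((adM R.e ^ (i + 1)) R.t) R.f,
          eq_add_of_sub_eq hζ.symm]
        convert J.sub_mem z1 (J.smul_mem (γ / κ / c2) fi) using 1
        rw [smul_sub, smul_smul, div_mul_cancel₀ _ c1]
        module
  have Eg := D.h_le Eh
  refine D.good_of Eh R.fg (D.nilp_pos (Submodule.subset_span ⟨R.a, a0, Ed⟩))
    (D.nilp_neg (Submodule.subset_span ⟨-R.a, by omega, R.fd'⟩)) (fun h => R.fr (R.hr h)) ?_ ?_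
    (D.comm_of_deg R.fg (neg_ne_zero.2 a0') R.fd) ?_
  · have := D.h.add_mem (core_le _ _ EJ) (D.h.smul_mem (2 / R.a : ℂ) D.d_mem)
    rwa [sub_add_cancel] at this
  · have t := Js.right R.fg EJ
    rw [adM_sub_left, adM_smul_left, R.fd, smul_smul,
      show (2 / R.a * -R.a : ℂ) = -2 by field_simp] at t
    convert t using 1
    module
  · intro k k1 k2 k3 k4
    refine R.gen k1 k2 ?_ k3
    have m1 : (adM R.e ^ (0 + 1)) R.t ∈ D.h :=
      R.nh (k := R.a + -R.b) (An (μA _)) (by rw [μd]; simp) (by omega)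
    have t := k.sub_mem (k4 _ k3 _ (k1 m1)) (k1 (core_le _ _ (fμ 0)))
    rw [sub_sub_cancel] at t
    refine (Submodule.smul_mem_iff _ ?_).1 t
    simp [a0', b0']

end Red

variable (D : LowData N)

theorem low_two_red (hdim : Module.finrank ℂ D.g = Module.finrank ℂ D.h + 2)
    {r : Submodule ℂ (Mt N)} (hhr : D.h < r) (hrg : r < D.g) (hr : Stab D.h r) : D.Good := by
  obtain ⟨R⟩ := D.exists_red hdim hhr hrg hr
  by_cases c : ∀ y ∈ core D.g R.r, adM D.d y = (R.b : ℂ) • y → (adM R.t ^ 2) y ∈ D.h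
  · exact R.caseB c
  · push Not at c
    obtain ⟨y, y1, y2, y3⟩ := c
    exact R.caseA y1 y2 y3

end Kol68.LowData
end
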