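import Pool.Agent.Work.MP_c53807_ag.Rigid
import Pool.Agent.Work.MP_c53807_ag.Fields

open scoped Matrix PowerSeries Polynomial

namespace Kol68

variable {n k N : Type} [Fintype n] [DecidableEq n] [Fintype k] [DecidableEq k] [Fintype N]
  [DecidableEq N]

theorem logder_mem_Cob (D : Der ℂ) (A : GL n KK) :
    ((A⁻¹ : GL n KK) : Matrix n n KK) * (DK D).mat (A : Matrix n n KK) ∈ Cob A := by
  obtain ⟨g, p, a, hA⟩ := birkhoff A
  set K : Matrix n n KK := (g : Matrix n n ℂ⟦X⟧).map iO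
  set Ki : Matrix n n KK := ((g⁻¹ : GL n ℂ⟦X⟧) : Matrix n n ℂ⟦X⟧).map iO
  set P : Matrix n n KK := (p : Matrix n n ℂ[X]).map iT
  set Pi : Matrix n n KK := ((p⁻¹ : GL n ℂ[X]) : Matrix n n ℂ[X]).map iT
  set T : Matrix n n KK := Matrix.diagonal fun i => tt ^ a i
  have hK : Ki * K = 1 := by
    rw [← map_iO_mul, Units.inv_mul]; exact Matrix.map_one _ (map_zero _) (map_one _)
  have hP : P * Pi = 1 := by
    rw [← map_iT_mul, Units.mul_inv]; exact Matrix.map_one _ (map_zero _) (map_one _)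
  have hT : (DK D).mat T = 0 := by
    ext i j : 2
    by_cases h : i = j
    · subst h; simp [T, DK_tt_zpow]
    · simp [T, h]
  refine ⟨(DK D).mat K * Ki, Pi * (DK D).mat P,
    MOrd.mul₀ (fun i j => (ord_iO _).DK D) (mOrd_iO _),
    MT.mul (mT_iT _) (fun i j => (inT_iT _).DK D), ?_⟩
  have h1 : (DK D).mat (A : Matrix n n KK) = (DK D).mat K * Ki * (A : Matrix n n KK) +
      (A : Matrix n n KK) * (Pi * (DK D).mat P) := by
    rw [hA, Der.mat_mul, Der.mat_mul, hT, Matrix.mul_zero, zero_add, add_comm]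
    refine congrArg₂ (· + ·) ?_ ?_
    · simp only [Matrix.mul_assoc]
      rw [← Matrix.mul_assoc Ki, hK, Matrix.one_mul]
    · simp only [Matrix.mul_assoc]
      rw [← Matrix.mul_assoc P, hP, Matrix.one_mul]
  rw [h1, Matrix.mul_add, ← Matrix.mul_assoc _ (A : Matrix n n KK), Units.inv_mul, Matrix.one_mul,
    ← Matrix.mul_assoc]

theorem cM_zero_of_mem_expG {h : Submodule ℂ (Matrix N N ℂ)} {η : GL N ℂ⟦X⟧} (hη : η ∈ expG h) :
    cM 0 (η : Matrix N N ℂ⟦X⟧) = 1 := by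
  induction hη using Subgroup.closure_induction with
  | mem x hx => obtain ⟨l, ξ, -, rfl⟩ := hx; exact cM_zero_expM _ _
  | one => simp [cM_one]
  | mul x y _ _ hx hy => rw [Units.val_mul, cM_zero_mul, hx, hy, mul_one]
  | inv x _ hx =>
    have := cM_zero_mul (x : Matrix N N ℂ⟦X⟧) ((x⁻¹ : GL N ℂ⟦X⟧) : Matrix N N ℂ⟦X⟧)
    rw [Units.mul_inv, hx, one_mul, cM_one, if_pos rfl] at this
    exact this.symm

theorem ρ_mem_envA (P : NatRep N n) {h : Submodule ℂ (Matrix N N ℂ)} {η : GL N ℂ⟦X⟧}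
    (hη : η ∈ expG h) : P.ρ ℂ⟦X⟧ η ∈ bcA (envA P h) ℂ⟦X⟧ := by
  induction hη using Subgroup.closure_induction with
  | mem x hx =>
    obtain ⟨l, ξ, hξ, rfl⟩ := hx
    rw [ρ_expU]
    exact expM_mem_bcA _ (cm_mem_bcA (R := ℂ) (Algebra.subset_adjoin ⟨ξ, hξ, rfl⟩))
  | one => rw [map_one]; exact Subalgebra.one_mem _
  | mul x y _ _ hx hy => rw [map_mul]; exact Subalgebra.mul_mem _ hx hy
  | inv x _ hx => exact inv_mem_subalgebra _ (P.ρU _ x) hx

theorem ρ_loop (P : NatRep N n) (Q : GL N ℂ) (a : N → ℤ) (η : GL N ℂ⟦X⟧) :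
    P.ρU KK (loop Q a η) = loop (P.ρU ℂ Q) (wtS P a) (P.ρU ℂ⟦X⟧ η) := by
  rw [loop, loop, map_mul, ρ_tp]
  congr 1
  exact Units.ext (P.nat _ _ _ η).symm

theorem ρ_loop_mem_envA (P : NatRep N n) {h : Submodule ℂ (Matrix N N ℂ)} (Q : GL N ℂ) (a : N → ℤ)
    (hd : (dg Q fun i => (a i : ℂ)) ∈ h) (m : ℤ) {η : GL N ℂ⟦X⟧} (hη : η ∈ expG h) :
    P.ρ KK (loop Q (m • a) η) ∈ bcA (envA P h) KK := by
  rw [← P.coe_ρU, ρ_loop, loop, Units.val_mul]
  refine Subalgebra.mul_mem _ ?_ (bcM_map iO.toLinearMap (ρ_mem_envA P hη))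
  have h1 := dgR_int_mem_bcA (P.ρU ℂ Q) (wtS P a) fun z => tt ^ (m * z)
  have h2 : (fun i => tt ^ wtS P (m • a) i) = (fun z => tt ^ (m * z)) ∘ wtS P a := by
    funext j
    simp only [Function.comp_apply, wtS, Finset.mul_sum, Pi.smul_apply, smul_eq_mul]
    congr 1
    exact Finset.sum_congr rfl fun i _ => by ring
  rw [coe_tp, h2]
  refine bcA_mono (Algebra.adjoin_mono ?_) h1
  rintro _ rfl
  refine ⟨_, hd, ?_⟩
  rw [dρ_dg]
  congr 1
  funext j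
  simp [wtS]

namespace GenAux

theorem der_natCast (D : Der ℂ) (j : ℕ) : D (j : ℂ) = 0 := by
  induction j with
  | zero => simp
  | succ j ih => rw [Nat.cast_succ, map_add, ih, D.map_one', add_zero]

theorem der_inv_natCast (D : Der ℂ) {j : ℕ} (hj : j ≠ 0) : D (j : ℂ)⁻¹ = 0 := by
  have h0 : (j : ℂ) ≠ 0 := by exact_mod_cast hj
  have h := D.leib j (j : ℂ)⁻¹
  rw [mul_inv_cancel₀ h0, D.map_one', der_natCast, zero_mul, add_zero] at h
  exact (mul_eq_zero.1 h.symm).resolve_left h0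

omit [Fintype N] [DecidableEq N] in
theorem cM_DO (D : Der ℂ) (j : ℕ) (Y : Matrix N N ℂ⟦X⟧) :
    cM j ((DO D).mat Y) = D.mat (cM j Y) := by
  ext i i'; exact coeff_DO D j _

/-- `u ^ (l + 1) ξ`. -/
noncomputable def mon (l : ℕ) (ξ : Matrix N N ℂ) : Matrix N N ℂ⟦X⟧ :=
  (PowerSeries.X ^ (l + 1) : ℂ⟦X⟧) • ξ.map (PowerSeries.C (R := ℂ))

omit [Fintype N] [DecidableEq N] in
theorem cM_mon (j l : ℕ) (ξ : Matrix N N ℂ) : cM j (mon l ξ) = if j = l + 1 then ξ else 0 := by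
  rw [mon, cM_X_pow_smul, cM_map_C]
  split_ifs <;> first | rfl | omega

omit [Fintype N] [DecidableEq N] in
theorem cM_smul (j : ℕ) (c : ℂ) (Y : Matrix N N ℂ⟦X⟧) : cM j (c • Y) = c • cM j Y := by
  ext i i'; simp

theorem DO_expM (D : Der ℂ) (l : ℕ) (s : ℂ) {ξ : Matrix N N ℂ} (hξ : D.mat ξ = 0) :
    (DO D).mat (expM (l + 1) (s • ξ)) = D s • (expM (l + 1) (s • ξ) * mon l ξ) := by
  have hp : ∀ j : ℕ, D.mat (ξ ^ j) = 0 := fun j => by
    induction j with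
    | zero => rw [pow_zero, D.mat_one]
    | succ j ih => rw [pow_succ, D.mat_mul, ih, hξ]; simp
  refine cM_ext fun j => ?_
  rw [cM_DO, cM_smul, mon, mul_smul_comm, cM_X_pow_smul, cM_mul_C, cM_expM, cM_expM]
  by_cases hd : l + 1 ∣ j
  · obtain ⟨i, rfl⟩ := hd
    rw [if_pos (dvd_mul_right _ _), Nat.mul_div_cancel_left _ l.succ_pos, smul_pow, smul_smul,
      D.mat_smul, hp, smul_zero, zero_add, D.leib, der_inv_natCast D i.factorial_ne_zero, zero_mul,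
      add_zero]
    rcases i with _ | i
    · simp [D.map_one']
    · have h2 : (l + 1) * (i + 1) - (l + 1) = (l + 1) * i := by
        rw [mul_add, mul_one, Nat.add_sub_cancel]
      rw [if_pos (Nat.le_mul_of_pos_right _ i.succ_pos), h2, if_pos (dvd_mul_right _ _),
        Nat.mul_div_cancel_left _ l.succ_pos, D.map_pow_succ, smul_pow, smul_smul, smul_mul_assoc,
        ← pow_succ, smul_smul]
      congr 1
      have : ((i : ℂ) + 1) ≠ 0 := by exact_mod_cast i.succ_ne_zero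
      have h3 : (i.factorial : ℂ) ≠ 0 := by exact_mod_cast i.factorial_ne_zero
      rw [Nat.factorial_succ]; push_cast; field_simp
  · rw [if_neg hd]
    have h0 : D.mat (0 : Matrix N N ℂ) = 0 := by ext; simp
    rw [h0]
    split_ifs with h1 h2
    · exfalso; apply hd
      have : j = (j - (l + 1)) + (l + 1) := by omega
      rw [this]; exact dvd_add h2 dvd_rfl
    · simp
    · simp

/-- The logarithmic derivative. -/
noncomputable def lg (D : Der ℂ) (η : GL N ℂ⟦X⟧) : Matrix N N ℂ⟦X⟧ :=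
  ((η⁻¹ : GL N ℂ⟦X⟧) : Matrix N N ℂ⟦X⟧) * (DO D).mat (η : Matrix N N ℂ⟦X⟧)

theorem lg_step (D : Der ℂ) (l : ℕ) (s : ℂ) {ξ : Matrix N N ℂ} (hξ : D.mat ξ = 0)
    (η : GL N ℂ⟦X⟧) : lg D (expU l (s • ξ) * η) = lg D η +
      D s • (((η⁻¹ : GL N ℂ⟦X⟧) : Matrix N N ℂ⟦X⟧) * mon l ξ * (η : Matrix N N ℂ⟦X⟧)) := by
  have h := DO_expM D l s hξ
  rw [← coe_expU] at h
  rw [lg, lg, mul_inv_rev, Units.val_mul, Units.val_mul, Der.mat_mul, h, Matrix.mul_add]
  simp only [Matrix.mul_assoc, Matrix.mul_smul, Matrix.smul_mul, Units.inv_mul_cancel_left]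

/-- The span of the logarithmic derivatives. -/
noncomputable def W (C : Set ℂ) (η : GL N ℂ⟦X⟧) : Submodule ℂ (Matrix N N ℂ⟦X⟧) :=
  Submodule.span ℂ {c | ∃ D : Der ℂ, D.KillsSet C ∧ c = lg D η}

/-- The elements of `h[[u]]` divisible by `u ^ (l + 1)`. -/
noncomputable def F (h : Submodule ℂ (Matrix N N ℂ)) (l : ℕ) : Submodule ℂ (Matrix N N ℂ⟦X⟧) where
  carrier := {y | y ∈ bcM h ℂ⟦X⟧ ∧ ∀ j ≤ l, cM j y = 0}
  add_mem' ha hb := ⟨Submodule.add_mem _ ha.1 hb.1, fun j hj => by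
    rw [cM_add, ha.2 j hj, hb.2 j hj, add_zero]⟩
  zero_mem' := ⟨Submodule.zero_mem _, fun j _ => cM_zero j⟩
  smul_mem' c y hy := ⟨((bcM h ℂ⟦X⟧).restrictScalars ℂ).smul_mem c hy.1, fun j hj => by
    rw [cM_smul, hy.2 j hj, smul_zero]⟩

variable {h : Submodule ℂ (Matrix N N ℂ)}

theorem envA_le (hh : ∀ x ∈ h, ∀ y ∈ h, x * y - y * x ∈ h) :
    envA (adRep N) h ≤ presA (vs h) :=
  Algebra.adjoin_le (by rintro _ ⟨ξ, hξ, rfl⟩; exact ad_mem_presA_iff.2 (hh ξ hξ))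

omit [DecidableEq N] in
theorem mon_mem (l : ℕ) {ξ : Matrix N N ℂ} (hξ : ξ ∈ h) : mon l ξ ∈ bcM h ℂ⟦X⟧ :=
  Submodule.smul_mem _ _ (map_C_mem_bcM (mem_bcM_self.2 hξ))

theorem step (hh : ∀ x ∈ h, ∀ y ∈ h, x * y - y * x ∈ h) {C : Set ℂ} (hC : C.Countable)
    {η : GL N ℂ⟦X⟧} (hη : η ∈ expG h) (hl : ∀ D : Der ℂ, D.KillsSet C → lg D η ∈ bcM h ℂ⟦X⟧)
    (l : ℕ) {ξ : Matrix N N ℂ} (hξ : ξ ∈ h) (hξC : EntriesIn C ξ) :
    ∃ η' ∈ expG h, (∀ D : Der ℂ, D.KillsSet C → lg D η' ∈ bcM h ℂ⟦X⟧) ∧ W C η ≤ W C η' ∧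
      mon l ξ ∈ W C η' ⊔ F h (l + 1) := by
  obtain ⟨s, E, hs, hE⟩ := exists_der_complex (C ∪ Set.range fun q : ℕ × N × N =>
    PowerSeries.coeff q.1 ((η : Matrix N N ℂ⟦X⟧) q.2.1 q.2.2)) (hC.union (Set.countable_range _))
  set w := ((η⁻¹ : GL N ℂ⟦X⟧) : Matrix N N ℂ⟦X⟧) * mon l ξ * (η : Matrix N N ℂ⟦X⟧) with hw
  have hwh : w ∈ bcM h ℂ⟦X⟧ := by
    have := conj_mem_of_pres (g := η⁻¹)
      (bcA_mono (envA_le hh) (ρ_mem_envA (adRep N) ((expG h).inv_mem hη))) (mon_mem l hξ)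
    rwa [inv_inv] at this
  have hst : ∀ D : Der ℂ, D.KillsSet C → lg D (expU l (s • ξ) * η) = lg D η + D s • w :=
    fun D hD => lg_step D l s (Matrix.ext fun i j => hD _ (hξC i j)) η
  have hEC : (Der.ofDerivation E).KillsSet C := fun c hc => hE c (Or.inl hc)
  have hwW : w ∈ W C (expU l (s • ξ) * η) := by
    refine Submodule.subset_span ⟨_, hEC, ?_⟩
    have h0 : (DO (Der.ofDerivation E)).mat (η : Matrix N N ℂ⟦X⟧) = 0 := by
      ext i j e
      rw [Der.mat_apply, coeff_DO, Der.ofDerivation_apply, hE _ (Or.inr ⟨(e, i, j), rfl⟩)]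
      simp
    rw [hst _ hEC, lg, h0, Der.ofDerivation_apply, hs]
    simp
  refine ⟨expU l (s • ξ) * η, (expG h).mul_mem
    (Subgroup.subset_closure ⟨l, _, h.smul_mem s hξ, rfl⟩) hη, fun D hD => ?_, ?_, ?_⟩
  · rw [hst D hD]
    exact Submodule.add_mem _ (hl D hD) (((bcM h ℂ⟦X⟧).restrictScalars ℂ).smul_mem _ hwh)
  · refine Submodule.span_le.2 ?_
    rintro _ ⟨D, hD, rfl⟩
    rw [eq_sub_of_add_eq (hst D hD).symm]
    exact Submodule.sub_mem _ (Submodule.subset_span ⟨D, hD, rfl⟩) (Submodule.smul_mem _ _ hwW)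
  · rw [← add_sub_cancel w (mon l ξ)]
    refine Submodule.add_mem_sup hwW ⟨Submodule.sub_mem _ (mon_mem l hξ) hwh, fun j hj => ?_⟩
    rw [cM_sub, cM_mon, hw, mon, Matrix.mul_smul, Matrix.smul_mul, cM_X_pow_smul]
    split_ifs with h1 h2 h2
    · rw [h1, Nat.sub_self, cM_zero_mul, cM_zero_mul, cM_zero_of_mem_expG hη,
        cM_zero_of_mem_expG ((expG h).inv_mem hη), cM_map_C]
      simp
    · omega
    · omega
    · simp

theorem steps (hh : ∀ x ∈ h, ∀ y ∈ h, x * y - y * x ∈ h) {C : Set ℂ} (hC : C.Countable)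
    (s : Finset (ℕ × Matrix N N ℂ)) (hs : ∀ p ∈ s, p.2 ∈ h ∧ EntriesIn C p.2) :
    ∃ η ∈ expG h, (∀ D : Der ℂ, D.KillsSet C → lg D η ∈ bcM h ℂ⟦X⟧) ∧
      ∀ p ∈ s, mon p.1 p.2 ∈ W C η ⊔ F h (p.1 + 1) := by
  classical
  induction s using Finset.induction_on with
  | empty =>
    refine ⟨1, Subgroup.one_mem _, fun D _ => ?_, by simp⟩
    rw [lg, Units.val_one, Der.mat_one, Matrix.mul_zero]
    exact Submodule.zero_mem _
  | insert p s _ ih =>
    obtain ⟨η, hη, hl, hp⟩ := ih fun q hq => hs q (Finset.mem_insert_of_mem hq)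
    obtain ⟨h1, h2⟩ := hs p (Finset.mem_insert_self _ _)
    obtain ⟨η', hη', hl', hW, hm⟩ := step hh hC hη hl p.1 h1 h2
    refine ⟨η', hη', hl', fun q hq => ?_⟩
    rcases Finset.mem_insert.1 hq with rfl | hq
    · exact hm
    · exact sup_le_sup_right hW _ (hp q hq)

theorem F_zero_le {V : Submodule ℂ (Matrix N N ℂ⟦X⟧)} {S : Set (Matrix N N ℂ)}
    (hS : Submodule.span ℂ S = h) (M : ℕ) (hV : ∀ l < M, ∀ ξ ∈ S, mon l ξ ∈ V ⊔ F h (l + 1)) :
    F h 0 ≤ V ⊔ F h M := by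
  induction M with
  | zero => exact le_sup_right
  | succ M ih =>
    refine (ih fun l hl => hV l (by omega)).trans (sup_le le_sup_left fun y hy => ?_)
    have h1 : ∀ ξ ∈ Submodule.span ℂ S, mon M ξ ∈ V ⊔ F h (M + 1) := fun ξ hξ => by
      induction hξ using Submodule.span_induction with
      | mem x hx => exact hV M (by omega) x hx
      | zero =>
        have : mon M (0 : Matrix N N ℂ) = 0 := cM_ext fun j => by simp [cM_mon]
        rw [this]; exact Submodule.zero_mem _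
      | add x y _ _ hx hy =>
        have : mon M (x + y) = mon M x + mon M y := cM_ext fun j => by
          rw [cM_add, cM_mon, cM_mon, cM_mon]; split_ifs <;> simp
        rw [this]; exact Submodule.add_mem _ hx hy
      | smul c x _ hx =>
        have : mon M (c • x) = c • mon M x := cM_ext fun j => by
          rw [cM_smul, cM_mon, cM_mon]; split_ifs <;> simp
        rw [this]; exact Submodule.smul_mem _ _ hx
    have h2 : cM (M + 1) y ∈ h := mem_bcM_self.1 (mem_bcM_powerSeries.1 hy.1 _)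
    rw [← add_sub_cancel (mon M (cM (M + 1) y)) y]
    refine Submodule.add_mem _ (h1 _ (hS ▸ h2)) (Submodule.mem_sup_right
      ⟨Submodule.sub_mem _ hy.1 (mon_mem M h2), fun j hj => ?_⟩)
    rw [cM_sub, cM_mon]
    split_ifs with h3
    · rw [h3, sub_self]
    · rw [hy.2 j (by omega), sub_zero]

/-- The part of positive order of a Laurent series. -/
noncomputable def tr : KK →ₗ[ℂ] ℂ⟦X⟧ where
  toFun x := PowerSeries.mk fun j => if j = 0 then 0 else co j x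
  map_add' x y := by ext j; simp only [PowerSeries.coeff_mk, map_add]; split_ifs <;> simp
  map_smul' c x := by
    ext j; simp only [PowerSeries.coeff_mk, map_smul]; split_ifs <;> simp

theorem coeff_tr (j : ℕ) (x : KK) :
    PowerSeries.coeff j (tr x) = if j = 0 then 0 else co j x :=
  PowerSeries.coeff_mk j fun j => if j = 0 then 0 else co j x

theorem inT_sub_tr (x : KK) : InT (x - iO (tr x)) := fun j hj => by
  rw [map_sub, co_iO, if_neg (by omega), coeff_tr, if_neg (by omega),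
    Int.toNat_of_nonneg hj.le, sub_self]

theorem lg_loop (D : Der ℂ) {C : Set ℂ} (hD : D.KillsSet C) {Q : GL N ℂ}
    (h1 : EntriesIn C (Q : Matrix N N ℂ)) (h2 : EntriesIn C ((Q⁻¹ : GL N ℂ) : Matrix N N ℂ))
    (a : N → ℤ) (η : GL N ℂ⟦X⟧) :
    (lg D η).map iO = (((loop Q a η)⁻¹ : GL N KK) : Matrix N N KK) *
      (DK D).mat (loop Q a η : Matrix N N KK) := by
  have hT : (DK D).mat (Matrix.diagonal fun i => tt ^ a i) = 0 := by
    ext i j : 2
    by_cases h : i = j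
    · subst h; simp [DK_tt_zpow]
    · simp [h]
  have ht : (DK D).mat (tp Q a : Matrix N N KK) = 0 := by
    rw [coe_tp, dgR, Der.mat_mul, Der.mat_mul, kills_DK D hD h1, kills_DK D hD h2, hT]
    simp
  rw [loop, mul_inv_rev, Units.val_mul, Units.val_mul, Der.mat_mul, ht, Matrix.zero_mul, add_zero,
    Matrix.mul_assoc, Units.inv_mul_cancel_left, lg, map_iO_mul]
  congr 1
  ext i j : 2
  exact (DK_iO D _).symm

end GenAux

open GenAux in
/-- The generic loop. -/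
theorem exists_generic (h : Submodule ℂ (Matrix N N ℂ)) (hh : ∀ x ∈ h, ∀ y ∈ h, x * y - y * x ∈ h)
    (Q : GL N ℂ) (a : N → ℤ) (hd : (dg Q fun i => (a i : ℂ)) ∈ h) (m : ℤ) (C : Set ℂ)
    (hC : C.Countable) :
    ∃ η ∈ expG h, Decomp h (loop Q (m • a) η) (logSpan h C (loop Q (m • a) η)) := by
  classical
  obtain ⟨S, hS⟩ : h.FG := IsNoetherian.noetherian h
  set S' : Finset (Matrix N N ℂ) :=
    insert (Q : Matrix N N ℂ) (insert ((Q⁻¹ : GL N ℂ) : Matrix N N ℂ) S)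
  set C0 : Set ℂ := C ∪ ⋃ B ∈ (S' : Set (Matrix N N ℂ)), Set.range fun q : N × N => B q.1 q.2
  have hC0 : C0.Countable :=
    hC.union (S'.countable_toSet.biUnion fun _ _ => Set.countable_range _)
  have hE : ∀ B ∈ S', EntriesIn C0 B := fun B hB i j =>
    Or.inr (Set.mem_biUnion hB ⟨(i, j), rfl⟩)
  obtain ⟨A1, hA1⟩ := exists_mOrd (tp Q (m • a) : Matrix N N KK)
  obtain ⟨A2, hA2⟩ := exists_mOrd (((tp Q (m • a))⁻¹ : GL N KK) : Matrix N N KK)
  obtain ⟨η, hη, hl, hp⟩ := steps hh hC0 (Finset.range (A1 + A2) ×ˢ S) fun p hp => by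
    have h1 := (Finset.mem_product.1 hp).2
    exact ⟨hS ▸ Submodule.subset_span h1, hE _ (by simp [S', h1])⟩
  have hF := F_zero_le (V := W C0 η) hS (A1 + A2) fun l hl ξ hξ =>
    hp (l, ξ) (Finset.mem_product.2 ⟨Finset.mem_range.2 hl, hξ⟩)
  refine ⟨η, hη, fun ζ hζ => ?_⟩
  set γ := loop Q (m • a) η with hγ
  have hy : ζ.map tr ∈ F h 0 := ⟨bcM_map tr hζ, fun j hj => by
    ext i i'
    rw [cM_apply, Matrix.map_apply, coeff_tr, if_pos (by omega)]; rfl⟩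
  obtain ⟨w, hw, f, hf, hwf⟩ := Submodule.mem_sup.1 (hF hy)
  have hW : W C0 η ≤ (logSpan h C γ).comap iO.toLinearMap.mapMatrix := by
    refine Submodule.span_le.2 ?_
    rintro _ ⟨D, hD, rfl⟩
    exact Submodule.subset_span ⟨bcM_map iO.toLinearMap (hl D hD), D,
      fun c hc => hD c (Or.inl hc),
      lg_loop D hD (hE _ (by simp [S'])) (hE _ (by simp [S'])) _ η⟩
  have hf1 : MOrd ((A1 + A2 : ℕ) + 1) (f.map iO) := fun i j e he => by
    rw [Matrix.map_apply, co_iO]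
    split_ifs with h0
    · rfl
    · exact congrFun (congrFun (hf.2 e.toNat (by omega)) i) j
  refine ⟨w.map iO, hW hw, (γ : Matrix N N KK) * f.map iO * ((γ⁻¹ : GL N KK) : Matrix N N KK),
    ζ - (ζ.map tr).map iO, conj_mem_of_pres
      (bcA_mono (envA_le hh) (ρ_loop_mem_envA (adRep N) Q a hd m hη))
      (bcM_map iO.toLinearMap hf.1), ?_,
    Submodule.sub_mem _ hζ (bcM_map iO.toLinearMap hy.1), fun i j => inT_sub_tr _, ?_⟩
  · rw [hγ, loop, mul_inv_rev, Units.val_mul, Units.val_mul]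
    exact (((hA1.mul (mOrd_iO _)).mul hf1).mul ((mOrd_iO _).mul hA2)).mono (by push_cast; omega)
  · simp only [Matrix.mul_assoc, Units.inv_mul_cancel_left, Units.inv_mul, Matrix.mul_one]
    rw [← hwf, Matrix.map_add _ (map_add iO)]
    abel

theorem π_dρ_mem_Cob (P : NatRep N n) {r₁ r₂ : Submodule ℂ (n → ℂ)} (T : SQ r₁ r₂ k)
    {h s : Submodule ℂ (Matrix N N ℂ)} (hs : h ≤ s) (hs₁ : ∀ ξ ∈ s, P.dρ ℂ ξ ∈ presA r₁)
    (hs₂ : ∀ ξ ∈ s, P.dρ ℂ ξ ∈ presA r₂) (γ : GL N KK) (hγ₁ : Pres r₁ (P.ρ KK γ))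
    (hγ₂ : Pres r₂ (P.ρ KK γ)) {C : Set ℂ} (hB : EntriesIn C T.B) (hL : EntriesIn C T.L)
    (hdec : Decomp s γ (logSpan h C γ)) (A : GL k KK)
    (hA : (A : Matrix k k KK) = T.π (P.ρ KK γ)) {ζ : Matrix N N KK} (hζ : ζ ∈ bcM s KK) :
    T.π (P.dρ KK ζ) ∈ Cob A := by
  obtain ⟨c, hc, a, b, ha, ha0, -, hb0, rfl⟩ := hdec ζ hζ
  have p₁ : ∀ x ∈ bcM s KK, Pres r₁ (P.dρ KK x) := fun x hx =>
    P.dρ_mem_bcM (s' := Subalgebra.toSubmodule (presA r₁)) hs₁ hx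
  have p₂ : ∀ x ∈ bcM s KK, Pres r₂ (P.dρ KK x) := fun x hx =>
    P.dρ_mem_bcM (s' := Subalgebra.toSubmodule (presA r₂)) hs₂ hx
  have hi₁ : Pres r₁ (P.ρ KK γ⁻¹) := Pres.inv (g := P.ρU KK γ) hγ₁
  have hAi : ((A⁻¹ : GL k KK) : Matrix k k KK) = T.π (P.ρ KK γ⁻¹) :=
    Units.inv_eq_of_mul_eq_one_left (by rw [hA, ← T.π_mul hi₁ hγ₂, P.ρ_inv_mul, T.π_one])
  have hsp : logSpan h C γ ≤ (Cob A).comap ((T.πL KK ∘ₗ P.dρ KK).restrictScalars ℂ) := by
    refine Submodule.span_le.2 ?_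
    rintro x ⟨hx, D, hD, e⟩
    have h1 := logder_mem_Cob D A
    have h2 : (DK D).mat (A : Matrix k k KK) = (A : Matrix k k KK) * T.π (P.dρ KK x) := by
      rw [hA, (DK D).mat_π T (kills_DK D hD hB) (kills_DK D hD hL), P.der, ← e,
        T.π_mul hγ₁ (p₂ x (bcM_mono hs hx))]
    rw [h2, Units.inv_mul_cancel_left] at h1
    exact h1
  rw [map_add, map_add, T.π_add, T.π_add, add_assoc]
  refine Submodule.add_mem _ (hsp hc) ⟨T.π (P.dρ KK a), T.π (P.dρ KK b), ?_, ?_, ?_⟩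
  · obtain ⟨Z, rfl⟩ := ha0.exists_iO
    have := P.dρ_map (iO : ℂ⟦X⟧ →+* KK) Z
    erw [← this, ← T.π_mapA iO]
    exact mOrd_iO _
  · obtain ⟨Z, rfl⟩ := hb0.exists_iT
    have := P.dρ_map (iT : ℂ[X] →+* KK) Z
    erw [← this, ← T.π_mapA iT]
    exact mT_iT _
  · have h1 := P.dρ_conj γ⁻¹ a
    rw [inv_inv] at h1
    rw [h1, T.π_mul (hi₁.mul (p₁ a ha)) hγ₂, T.π_mul hi₁ (p₂ a ha), hAi, hA]

end Kol68
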