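import Pool.Agent.Work.MP_c53807_ag.Rigid
import Pool.Agent.Work.MP_c53807_ag.Gen
import Pool.Agent.Work.MP_c53807_ag.LowBasic

-- merged part: Pool.Agent.Work.MP_c53807_ag.Gap
section
open scoped Matrix PowerSeries Polynomial

namespace Kol68

variable {n k N : Type} [Fintype n] [DecidableEq n] [Fintype k] [DecidableEq k] [Fintype N]
  [DecidableEq N]

namespace GapAux

theorem iT_mul_inv (p : GL k ℂ[X]) :
    (p : Matrix k k ℂ[X]).map iT * ((p⁻¹ : GL k ℂ[X]) : Matrix k k ℂ[X]).map iT = 1 := by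
  rw [← map_iT_mul, Units.mul_inv]; exact Matrix.map_one _ (map_zero _) (map_one _)

theorem iO_mul_inv (p : GL k ℂ⟦X⟧) :
    (p : Matrix k k ℂ⟦X⟧).map iO * ((p⁻¹ : GL k ℂ⟦X⟧) : Matrix k k ℂ⟦X⟧).map iO = 1 := by
  rw [← map_iO_mul, Units.mul_inv]; exact Matrix.map_one _ (map_zero _) (map_one _)

theorem diag_mul_neg (a : k → ℤ) :
    Matrix.diagonal (fun i => tt ^ a i) * Matrix.diagonal (fun i => tt ^ (-a i)) =
      (1 : Matrix k k KK) := by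
  rw [Matrix.diagonal_mul_diagonal, ← Matrix.diagonal_one]
  congr 1
  funext i
  rw [← zpow_add₀ tt_ne_zero, add_neg_cancel, zpow_zero]

theorem map_mulA {R S : Type} [CommRing R] [Algebra ℂ R] [CommRing S] [Algebra ℂ S]
    {a b c : Type} [Fintype b] (ψ : R →ₐ[ℂ] S) (Y : Matrix a b R) (Z : Matrix b c R) :
    (Y * Z).map ψ = Y.map ψ * Z.map ψ := Matrix.map_mul (f := (ψ : R →+* S))

theorem map_oneA {R S : Type} [CommRing R] [Algebra ℂ R] [CommRing S] [Algebra ℂ S]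
    {a : Type} [DecidableEq a] (ψ : R →ₐ[ℂ] S) : (1 : Matrix a a R).map ψ = 1 :=
  Matrix.map_one _ (map_zero _) (map_one _)

theorem trace_mapA {R S : Type} [CommRing R] [Algebra ℂ R] [CommRing S] [Algebra ℂ S]
    {a : Type} [Fintype a] (ψ : R →ₐ[ℂ] S) (Y : Matrix a a R) :
    (Y.map ψ).trace = ψ Y.trace := by
  simp [Matrix.trace]

/-- The selection matrix of a set of indices. -/
def sel (P : k → Prop) (R : Type) [CommRing R] : Matrix {j // P j} k R :=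
  Matrix.of fun s j => if s.1 = j then 1 else 0

omit [Fintype k] in
theorem sel_apply {P : k → Prop} {R : Type} [CommRing R] (s : {j // P j}) (j : k) :
    sel P R s j = if s.1 = j then 1 else 0 := rfl

theorem sel_mul {P : k → Prop} {R b : Type} [CommRing R] (Z : Matrix k b R) (s : {j // P j})
    (i : b) : (sel P R * Z) s i = Z s.1 i := by
  simp [sel_apply, Matrix.mul_apply]

theorem mul_sel_t {P : k → Prop} {R b : Type} [CommRing R] (Z : Matrix b k R) (s : {j // P j})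
    (i : b) : (Z * (sel P R)ᵀ) i s = Z i s.1 := by
  simp [sel_apply, Matrix.mul_apply]

theorem mul_sel {P : k → Prop} [DecidablePred P] {R b : Type} [CommRing R]
    (Z : Matrix b {j // P j} R) (i : b) (j : k) :
    (Z * sel P R) i j = if h : P j then Z i ⟨j, h⟩ else 0 := by
  rw [Matrix.mul_apply]
  split_ifs with h
  · rw [Finset.sum_eq_single ⟨j, h⟩]
    · simp [sel_apply]
    · intro s _ hs
      have : s.1 ≠ j := fun e => hs (Subtype.ext e)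
      simp [sel_apply, this]
    · simp
  · refine Finset.sum_eq_zero fun s _ => ?_
    have : s.1 ≠ j := fun e => h (e ▸ s.2)
    simp [sel_apply, this]

theorem sel_mul_t {P : k → Prop} {R : Type} [CommRing R] :
    sel P R * (sel P R)ᵀ = 1 := by
  ext s s'
  rw [sel_mul, Matrix.transpose_apply]
  by_cases h : s = s'
  · subst h; simp [sel_apply]
  · have : s'.1 ≠ s.1 := fun e => h (Subtype.ext e.symm)
    simp [sel_apply, this, Matrix.one_apply_ne h]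

theorem sel_blk {P : k → Prop} [DecidablePred P] {R : Type} [CommRing R] (Z : Matrix k k R)
    (h : ∀ j i, P j → ¬ P i → Z j i = 0) :
    sel P R * Z = (sel P R * Z * (sel P R)ᵀ) * sel P R := by
  ext s i
  rw [mul_sel, sel_mul]
  split_ifs with hi
  · rw [mul_sel_t, sel_mul]
  · exact h _ _ s.2 hi

theorem sel_diag {P : k → Prop} [DecidablePred P] {R : Type} [CommRing R] (d : k → R) :
    sel P R * Matrix.diagonal d = Matrix.diagonal (fun s : {j // P j} => d s.1) * sel P R := by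
  ext s i
  rw [sel_mul, Matrix.diagonal_mul]
  by_cases h : s.1 = i
  · subst h; simp [sel_apply]
  · simp [sel_apply, h]

omit [Fintype k] in
theorem sel_map {P : k → Prop} {R S : Type} [CommRing R] [Algebra ℂ R] [CommRing S] [Algebra ℂ S]
    (ψ : R →ₐ[ℂ] S) : (sel P R).map ψ = sel P S := by
  ext s i
  by_cases h : s.1 = i
  · subst h; simp [sel_apply]
  · simp [sel_apply, h]

/-- The matrices that descend along `L`. -/
def desc {r₁ r₂ : Submodule ℂ (n → ℂ)} (T : SQ r₁ r₂ k) {I : Type} [Fintype I] [DecidableEq I]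
    (L : Matrix I k KK) : Subalgebra KK (Matrix n n KK) where
  carrier := {X | Pres r₁ X ∧ Pres r₂ X ∧ ∃ Z : Matrix I I KK, L * T.π X = Z * L}
  mul_mem' := by
    rintro X Y ⟨hX₁, hX₂, Z, hZ⟩ ⟨hY₁, hY₂, W, hW⟩
    refine ⟨hX₁.mul hY₁, hX₂.mul hY₂, Z * W, ?_⟩
    rw [T.π_mul hX₁ hY₂, ← Matrix.mul_assoc, hZ, Matrix.mul_assoc, hW, Matrix.mul_assoc]
  add_mem' := by
    rintro X Y ⟨hX₁, hX₂, Z, hZ⟩ ⟨hY₁, hY₂, W, hW⟩
    refine ⟨Subalgebra.add_mem _ hX₁ hY₁, Subalgebra.add_mem _ hX₂ hY₂, Z + W, ?_⟩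
    rw [T.π_add, Matrix.mul_add, hZ, hW, Matrix.add_mul]
  algebraMap_mem' c := by
    refine ⟨Subalgebra.algebraMap_mem _ c, Subalgebra.algebraMap_mem _ c, c • 1, ?_⟩
    rw [Algebra.algebraMap_eq_smul_one, T.π_smul, T.π_one, Matrix.mul_smul, Matrix.smul_mul,
      Matrix.mul_one, Matrix.one_mul]

theorem bcA_le_of {𝒩 : Set (Matrix n n ℂ)} (S : Subalgebra KK (Matrix n n KK))
    (h : ∀ Y ∈ 𝒩, cm KK Y ∈ S) {X : Matrix n n KK} (hX : X ∈ bcA (Algebra.adjoin ℂ 𝒩) KK) :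
    X ∈ S := by
  refine bcM_le (T := Subalgebra.toSubmodule S) (fun b hb => ?_) (mem_bcA.1 hX)
  change cm KK b ∈ S
  change b ∈ Algebra.adjoin ℂ 𝒩 at hb
  induction hb using Algebra.adjoin_induction with
  | mem x hx => exact h x hx
  | algebraMap c =>
    rw [Algebra.algebraMap_eq_smul_one, cm_smul, cm_one]
    exact S.smul_mem S.one_mem _
  | add x y _ _ hx hy => rw [cm_add]; exact S.add_mem hx hy
  | mul x y _ _ hx hy => rw [cm_mul]; exact S.mul_mem hx hy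

theorem exists_gap (a : k → ℤ) {i₀ : k} (h : 0 ≤ a i₀) :
    ∃ c : ℤ, -(Fintype.card k : ℤ) ≤ c ∧ c ≤ -1 ∧ ∀ i, a i ≠ c := by
  by_contra hcon
  push Not at hcon
  have hsub : Finset.Icc (-(Fintype.card k : ℤ)) (-1) ⊆ (Finset.univ.erase i₀).image a := by
    intro c hc
    rw [Finset.mem_Icc] at hc
    obtain ⟨i, hi⟩ := hcon c hc.1 hc.2
    refine Finset.mem_image.2 ⟨i, Finset.mem_erase.2 ⟨?_, Finset.mem_univ _⟩, hi⟩
    rintro rfl
    omega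
  have h1 := (Finset.card_le_card hsub).trans Finset.card_image_le
  rw [Finset.card_erase_of_mem (Finset.mem_univ _), Finset.card_univ, Int.card_Icc] at h1
  have h2 : 0 < Fintype.card k := Fintype.card_pos_iff.2 ⟨i₀⟩
  omega

end GapAux

open GapAux

theorem cob_entry (A : GL k KK) (κ : GL k ℂ⟦X⟧) (p : GL k ℂ[X]) (a : k → ℤ)
    (hA : (A : Matrix k k KK) = (κ : Matrix k k ℂ⟦X⟧).map iO *
      Matrix.diagonal (fun i => tt ^ a i) * (p : Matrix k k ℂ[X]).map iT)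
    (Y : Matrix k k ℂ) (hY : ∀ l : ℕ, tt ^ (-(l + 1 : ℤ)) • cm KK Y ∈ Cob A) {i j : k}
    (h : a i + 2 ≤ a j) :
    ((p : Matrix k k ℂ[X]) * cm ℂ[X] Y * ((p⁻¹ : GL k ℂ[X]) : Matrix k k ℂ[X])) j i = 0 := by
  set K := (κ : Matrix k k ℂ⟦X⟧).map iO with hK
  set K' := ((κ⁻¹ : GL k ℂ⟦X⟧) : Matrix k k ℂ⟦X⟧).map iO with hK'
  set P := (p : Matrix k k ℂ[X]).map iT with hP
  set P' := ((p⁻¹ : GL k ℂ[X]) : Matrix k k ℂ[X]).map iT with hP'
  set D : Matrix k k KK := Matrix.diagonal (fun i => tt ^ a i) with hD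
  set D' : Matrix k k KK := Matrix.diagonal (fun i => tt ^ (-a i)) with hD'
  have hPP : P * P' = 1 := iT_mul_inv p
  have hKK : K * K' = 1 := iO_mul_inv κ
  have hDD : D * D' = 1 := diag_mul_neg a
  have hinv : ((A⁻¹ : GL k KK) : Matrix k k KK) = P' * D' * K' := by
    apply Units.inv_eq_of_mul_eq_one_right
    rw [hA]
    calc K * D * P * (P' * D' * K') = K * (D * ((P * P') * D')) * K' := by
          simp only [Matrix.mul_assoc]
      _ = 1 := by rw [hPP, Matrix.one_mul, hDD, Matrix.mul_one, hKK]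
  ext l
  obtain ⟨α, β, hα, hβ, e⟩ := mem_Cob.1 (hY l)
  have e2 : tt ^ (-(l + 1 : ℤ)) • (P * cm KK Y * P') = D' * (K' * α * K) * D + P * β * P' := by
    rw [← Matrix.smul_mul, ← Matrix.mul_smul, e, hinv, hA, Matrix.mul_add, Matrix.add_mul]
    congr 1
    calc P * (P' * D' * K' * α * (K * D * P)) * P'
        = (P * P') * D' * (K' * α * K) * D * (P * P') := by simp only [Matrix.mul_assoc]
      _ = _ := by rw [hPP, Matrix.one_mul, Matrix.mul_one]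
  have hγ : MOrd 0 (K' * α * K) := ((mOrd_iO _).mul₀ hα).mul₀ (mOrd_iO _)
  have hβ' : MT (P * β * P') := ((mT_iT _).mul hβ).mul (mT_iT _)
  have e3 := congrArg (fun M => co 1 (M j i)) e2
  simp only [Matrix.smul_apply, smul_eq_mul, Matrix.add_apply, map_add] at e3
  rw [hβ' j i 1 one_pos, add_zero, hD, hD', Matrix.mul_diagonal, Matrix.diagonal_mul,
    mul_comm _ (tt ^ a i), co_tt_zpow_mul, co_tt_zpow_mul, co_tt_zpow_mul,
    hγ j i _ (by omega)] at e3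
  have e4 : P * cm KK Y * P' =
      ((p : Matrix k k ℂ[X]) * cm ℂ[X] Y * ((p⁻¹ : GL k ℂ[X]) : Matrix k k ℂ[X])).map iT := by
    rw [map_iT_mul, map_iT_mul, cm_map]
  have e5 : (1 : ℤ) + -(l + 1 : ℤ) = -(l : ℤ) := by ring
  rw [e4, e5, Matrix.map_apply, co_iT_nat] at e3
  rw [e3, Polynomial.coeff_zero]

namespace GapAux

/-- The core of the gap argument, for an abstract polynomial quotient map. -/
theorem gap_core {r₁ r₂ : Submodule ℂ (n → ℂ)} (T : SQ r₁ r₂ k) (𝒩 : Set (Matrix n n ℂ))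
    (h₁ : ∀ Y ∈ 𝒩, Y ∈ presA r₁) (h₂ : ∀ Y ∈ 𝒩, Y ∈ presA r₂) (Q : GL n ℂ) (w : n → ℤ)
    (hd : (dg Q fun i => (w i : ℂ)) ∈ Algebra.adjoin ℂ 𝒩) (η : GL n ℂ⟦X⟧)
    (hη : (η : Matrix n n ℂ⟦X⟧) ∈ bcA (Algebra.adjoin ℂ 𝒩) ℂ⟦X⟧) (m : ℤ)
    (hpos : ∀ r, r₁ ≤ r → r < r₂ → (∀ Y ∈ 𝒩, Y ∈ presA r) → ∃ c : ℕ, 0 < c ∧
      trOn r₂ (Matrix.toLin' (dg Q fun i => (w i : ℂ))) -
        trOn r (Matrix.toLin' (dg Q fun i => (w i : ℂ))) = -(c : ℂ))
    {I : Type} [Fintype I] [DecidableEq I] [Nonempty I] (L : Matrix I k ℂ[X]) (B : Matrix k I ℂ[X])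
    (hLB : L * B = 1)
    (hN : ∀ Y ∈ 𝒩, ∃ z : Matrix I I ℂ[X], L * cm ℂ[X] (T.π Y) = z * L) :
    ∃ (c : ℕ) (Z : Matrix I I KK), 0 < c ∧ HasVal (m * c) Z.det ∧
      L.map iT * T.π (loop Q (m • w) η : Matrix n n KK) = Z * L.map iT := by
  set d : Matrix n n ℂ := dg Q fun i => (w i : ℂ) with hdd
  have hLB' : L.map iT * B.map iT = 1 := by rw [← map_iT_mul, hLB, map_oneA]
  let S := desc T (L.map iT)
  have hS : ∀ X ∈ bcA (Algebra.adjoin ℂ 𝒩) KK, X ∈ S := fun X hX => by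
    refine bcA_le_of S (fun Y hY => ⟨pres_cm (h₁ Y hY), pres_cm (h₂ Y hY), ?_⟩) hX
    obtain ⟨z, hz⟩ := hN Y hY
    refine ⟨z.map iT, ?_⟩
    rw [T.π_cm, ← map_iT_mul, ← hz, map_iT_mul, cm_map]
  have hq0 : ∀ X : Matrix n n KK, L.map iT * cm KK T.L * X * (cm KK T.B * B.map iT) =
      L.map iT * T.π X * B.map iT := fun X => by
    simp only [SQ.π, Matrix.mul_assoc]
  have hE : ∀ φ : ℤ → KK, dgR Q (φ ∘ w) ∈ S := fun φ =>
    hS _ (bcA_mono (Algebra.adjoin_le (Set.singleton_subset_iff.2 hd)) (dgR_int_mem_bcA Q w φ))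
  have hηS : (η : Matrix n n ℂ⟦X⟧).map iO ∈ S := hS _ (bcM_map iO.toLinearMap hη)
  obtain ⟨c', htr, hval⟩ := hasVal_det_q S (L.map iT * cm KK T.L) (cm KK T.B * B.map iT)
    (by rw [Matrix.mul_assoc, ← Matrix.mul_assoc (cm KK T.L), T.LB', Matrix.one_mul, hLB'])
    (by
      rintro X ⟨hX₁, -, Z, hZ⟩ Y ⟨-, hY₂, -⟩
      rw [hq0, hq0, hq0, T.π_mul hX₁ hY₂, ← Matrix.mul_assoc, hZ, Matrix.mul_assoc Z _ (B.map iT),
        hLB', Matrix.mul_one]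
      simp only [Matrix.mul_assoc]) Q w hE
  have hloop : (loop Q (m • w) η : Matrix n n KK) ∈ S := by
    rw [loop, Units.val_mul, coe_tp]
    exact S.mul_mem (hE fun z => tt ^ (m * z)) hηS
  obtain ⟨-, -, Z, hZ⟩ := hloop
  have hv := hval m η hηS
  rw [hq0, hZ, Matrix.mul_assoc, hLB', Matrix.mul_one] at hv
  let ev : ℂ[X] →ₐ[ℂ] ℂ := Polynomial.aeval (0 : ℂ)
  have hLB0 : L.map ev * B.map ev = 1 := by rw [← map_mulA, hLB, map_oneA]
  let U : SQ (LinearMap.ker (Matrix.toLin' (L.map ev))) ⊤ I :=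
    { B := B.map ev
      L := L.map ev
      le := le_top
      LB := hLB0
      B_mem := fun _ => trivial
      L_ker := fun y hy => hy
      dec := fun y _ => by
        change L.map ev *ᵥ (y - B.map ev *ᵥ (L.map ev *ᵥ y)) = 0
        rw [Matrix.mulVec_sub, Matrix.mulVec_mulVec (L.map ev *ᵥ y), hLB0, Matrix.one_mulVec,
          sub_self] }
  have hr : ∀ Y ∈ 𝒩, Y ∈ presA (T.lift (LinearMap.ker (Matrix.toLin' (L.map ev)))) := by
    intro Y hY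
    refine T.mem_presA_lift (h₁ Y hY) (h₂ Y hY) fun y hy => ?_
    obtain ⟨z, hz⟩ := hN Y hY
    have h0 := congrArg (fun M => M.map ev) hz
    simp only [map_mulA, cm_map, cm_self] at h0
    change L.map ev *ᵥ (T.π Y *ᵥ y) = 0
    change L.map ev *ᵥ y = 0 at hy
    rw [Matrix.mulVec_mulVec, h0, ← Matrix.mulVec_mulVec, hy, Matrix.mulVec_zero]
  have hlt : T.lift (LinearMap.ker (Matrix.toLin' (L.map ev))) < r₂ := by
    refine lt_of_le_of_ne (T.lift_le _) fun e => ?_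
    have h0 := LinearMap.ker_eq_top.1 (T.eq_top_of_lift e)
    rw [LinearEquiv.map_eq_zero_iff] at h0
    rw [h0, Matrix.zero_mul] at hLB0
    exact zero_ne_one hLB0
  obtain ⟨c, hc, hce⟩ := hpos _ (T.le_lift _) hlt hr
  have htr0 := (T.comp U).trace_π (M := d) (Algebra.adjoin_le (S := presA _) hr hd)
    (Algebra.adjoin_le (S := presA _) h₂ hd)
  rw [hce] at htr0
  have hπ : (T.comp U).π d = (L * cm ℂ[X] (T.π d) * B).map ev := by
    rw [map_mulA, map_mulA, cm_map]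
    simp only [SQ.π, SQ.comp, U, cm_self, Matrix.mul_assoc]
  have htr1 : (L * cm ℂ[X] (T.π d) * B).trace = algebraMap ℂ ℂ[X] c' := by
    apply iT_injective
    rw [AlgHom.commutes, ← htr, hq0, T.π_cm, ← cm_map iT, ← map_iT_mul, ← map_iT_mul,
      trace_mapA]
  have htr2 : ((L * cm ℂ[X] (T.π d) * B).map ev).trace = (c' : ℂ) := by
    rw [trace_mapA, htr1, AlgHom.commutes]; rfl
  rw [hπ, htr2] at htr0
  have hc' : c' = -(c : ℤ) := by exact_mod_cast htr0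
  refine ⟨c, Z, hc, ?_, hZ⟩
  rwa [hc', mul_neg, neg_neg] at hv

end GapAux

/-- The gap argument. -/
theorem ample {r₁ r₂ : Submodule ℂ (n → ℂ)} (T : SQ r₁ r₂ k) (𝒩 : Set (Matrix n n ℂ))
    (h₁ : ∀ Y ∈ 𝒩, Y ∈ presA r₁) (h₂ : ∀ Y ∈ 𝒩, Y ∈ presA r₂) (Q : GL n ℂ) (w : n → ℤ)
    (hd : (dg Q fun i => (w i : ℂ)) ∈ Algebra.adjoin ℂ 𝒩) (η : GL n ℂ⟦X⟧)
    (hη : (η : Matrix n n ℂ⟦X⟧) ∈ bcA (Algebra.adjoin ℂ 𝒩) ℂ⟦X⟧) (m : ℕ)
    (hm : Fintype.card k ^ 2 ≤ m) (A : GL k KK)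
    (hA : (A : Matrix k k KK) = T.π (loop Q ((m : ℤ) • w) η : Matrix n n KK))
    (hcob : ∀ Y ∈ 𝒩, ∀ l : ℕ, tt ^ (-(l + 1 : ℤ)) • cm KK (T.π Y) ∈ Cob A)
    (hpos : ∀ r, r₁ ≤ r → r < r₂ → (∀ Y ∈ 𝒩, Y ∈ presA r) → ∃ c : ℕ, 0 < c ∧
      trOn r₂ (Matrix.toLin' (dg Q fun i => (w i : ℂ))) -
        trOn r (Matrix.toLin' (dg Q fun i => (w i : ℂ))) = -(c : ℂ))
    (κ : GL k ℂ⟦X⟧) (p : GL k ℂ[X]) (a : k → ℤ)
    (hfac : (A : Matrix k k KK) = (κ : Matrix k k ℂ⟦X⟧).map iO *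
      Matrix.diagonal (fun i => tt ^ a i) * (p : Matrix k k ℂ[X]).map iT) :
    ∀ i, a i ≤ -1 := by
  intro i₀
  by_contra hi
  obtain ⟨g, hg1, hg2, hg⟩ := exists_gap a (i₀ := i₀) (by omega)
  let P : k → Prop := fun j => g < a j
  have : Nonempty {j // P j} := ⟨⟨i₀, by change g < a i₀; omega⟩⟩
  let L : Matrix {j // P j} k ℂ[X] := sel P ℂ[X] * (p : Matrix k k ℂ[X])
  let B : Matrix k {j // P j} ℂ[X] := ((p⁻¹ : GL k ℂ[X]) : Matrix k k ℂ[X]) * (sel P ℂ[X])ᵀ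
  have hLB : L * B = 1 := by
    rw [Matrix.mul_assoc, ← Matrix.mul_assoc (p : Matrix k k ℂ[X]), Units.mul_inv, Matrix.one_mul,
      sel_mul_t]
  have hN : ∀ Y ∈ 𝒩, ∃ z : Matrix {j // P j} {j // P j} ℂ[X], L * cm ℂ[X] (T.π Y) = z * L := by
    intro Y hY
    have hb := sel_blk (P := P) ((p : Matrix k k ℂ[X]) * cm ℂ[X] (T.π Y) *
      ((p⁻¹ : GL k ℂ[X]) : Matrix k k ℂ[X])) fun j i hj hi' =>
        cob_entry A κ p a hfac _ (hcob Y hY) (by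
          have := hg i
          change g < a j at hj
          change ¬ g < a i at hi'
          omega)
    refine ⟨sel P ℂ[X] * ((p : Matrix k k ℂ[X]) * cm ℂ[X] (T.π Y) *
      ((p⁻¹ : GL k ℂ[X]) : Matrix k k ℂ[X])) * (sel P ℂ[X])ᵀ, ?_⟩
    rw [← Matrix.mul_assoc _ (sel P ℂ[X]), ← hb]
    simp only [L, Matrix.mul_assoc, Units.inv_mul, Matrix.mul_one]
  obtain ⟨c, Z, hc, hv, hZ⟩ := gap_core T 𝒩 h₁ h₂ Q w hd η hη m hpos L B hLB hN
  set K := (κ : Matrix k k ℂ⟦X⟧).map iO with hK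
  set K' := ((κ⁻¹ : GL k ℂ⟦X⟧) : Matrix k k ℂ⟦X⟧).map iO with hK'
  set D : Matrix k k KK := Matrix.diagonal (fun i => tt ^ a i) with hD
  set D' : Matrix k k KK := Matrix.diagonal (fun i => tt ^ (-a i)) with hD'
  have hKK : K * K' = 1 := iO_mul_inv κ
  have hDD : D * D' = 1 := diag_mul_neg a
  have hPP := iT_mul_inv p
  have hL : L.map iT = sel P KK * (p : Matrix k k ℂ[X]).map iT := by rw [map_iT_mul, sel_map]
  have e1 : L.map iT = Z * Matrix.diagonal (fun s : {j // P j} => tt ^ (-a s.1)) *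
      (sel P KK * K') := by
    have h0 := congrArg
      (fun M => M * (((p⁻¹ : GL k ℂ[X]) : Matrix k k ℂ[X]).map iT * D' * K')) hZ
    rw [← hA, hfac] at h0
    calc L.map iT = L.map iT * (K * (D * (((p : Matrix k k ℂ[X]).map iT *
          ((p⁻¹ : GL k ℂ[X]) : Matrix k k ℂ[X]).map iT) * D')) * K') := by
          rw [hPP, Matrix.one_mul, hDD, Matrix.mul_one, hKK, Matrix.mul_one]
      _ = Z * L.map iT * (((p⁻¹ : GL k ℂ[X]) : Matrix k k ℂ[X]).map iT * D' * K') := by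
          rw [← h0]; simp only [Matrix.mul_assoc]
      _ = Z * (sel P KK * (((p : Matrix k k ℂ[X]).map iT *
          ((p⁻¹ : GL k ℂ[X]) : Matrix k k ℂ[X]).map iT) * D')) * K' := by
          rw [hL]; simp only [Matrix.mul_assoc]
      _ = _ := by
          rw [hPP, Matrix.one_mul, hD', sel_diag]; simp only [Matrix.mul_assoc]
  let ev : ℂ[X] →ₐ[ℂ] ℂ := Polynomial.aeval (0 : ℂ)
  have hLB0 : L.map ev * B.map ev = 1 := by rw [← map_mulA, hLB, map_oneA]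
  have e2 : (L * cm ℂ[X] (B.map ev)).map iT =
      Z * Matrix.diagonal (fun s : {j // P j} => tt ^ (-a s.1)) *
        (sel P KK * K' * cm KK (B.map ev)) := by
    rw [map_iT_mul, cm_map, e1]; simp only [Matrix.mul_assoc]
  have o1 : HasVal (∑ s : {j // P j}, a s.1)
      (Matrix.diagonal (fun s : {j // P j} => tt ^ (-a s.1))).det := by
    rw [Matrix.det_diagonal]
    exact hasVal_prod _ _ _ fun s _ => by simpa using hasVal_tt_zpow (-a s.1)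
  have o2 : Ord 0 (sel P KK * K' * cm KK (B.map ev)).det := by
    have h0 : MOrd 0 (sel P KK) := by
      rw [← sel_map (Algebra.ofId ℂ KK)]; exact mOrd_cm _
    simpa using ((h0.mul₀ (mOrd_iO _)).mul₀ (mOrd_cm (B.map ev))).det
  have o3 := (hv.1.mul o1.1).mul o2
  rw [← Matrix.det_mul, ← Matrix.det_mul, ← e2] at o3
  have e3 : ((L * cm ℂ[X] (B.map ev)).map iT).det = iT (L * cm ℂ[X] (B.map ev)).det :=
    (AlgHom.map_det iT _).symm
  have hsum : (Fintype.card {j // P j} : ℤ) * (g + 1) ≤ ∑ s : {j // P j}, a s.1 := by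
    have := Finset.card_nsmul_le_sum Finset.univ (fun s : {j // P j} => a s.1) (g + 1)
      fun s _ => s.2
    rwa [Finset.card_univ, nsmul_eq_mul] at this
  have hcard : (Fintype.card {j // P j} : ℤ) ≤ Fintype.card k := by
    exact_mod_cast Fintype.card_subtype_le P
  have hk : (1 : ℤ) ≤ Fintype.card k := by
    exact_mod_cast Fintype.card_pos_iff.2 ⟨i₀⟩
  have hm' : (Fintype.card k : ℤ) ^ 2 ≤ m := by exact_mod_cast hm
  have hc' : (1 : ℤ) ≤ c := by exact_mod_cast hc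
  have hge : 1 ≤ (m : ℤ) * c + ∑ s : {j // P j}, a s.1 + 0 := by
    have a1 : (m : ℤ) ≤ m * c := le_mul_of_one_le_right (Nat.cast_nonneg _) hc'
    have a2 : (Fintype.card k : ℤ) * (g + 1) ≤ Fintype.card {j // P j} * (g + 1) :=
      mul_le_mul_of_nonpos_right hcard (by omega)
    have a3 : (Fintype.card k : ℤ) * (1 - Fintype.card k) ≤ Fintype.card k * (g + 1) :=
      mul_le_mul_of_nonneg_left (by omega) (by omega)
    nlinarith
  rw [e3] at o3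
  have z := eq_zero_of_ord_one (o3.mono hge)
  have z2 := congrArg ev z
  rw [AlgHom.map_det, map_zero] at z2
  change ((L * cm ℂ[X] (B.map ev)).map ev).det = 0 at z2
  rw [map_mulA, cm_map, cm_self, hLB0, Matrix.det_one] at z2
  exact one_ne_zero z2

end Kol68
end

-- merged part: Pool.Agent.Work.MP_c53807_ag.Triv
section
/-!
Ampleness of the tangent bundle and triviality of the vector bundle of a generic loop.
-/

open scoped Matrix PowerSeries Polynomial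

namespace Kol68

variable {N : ℕ} {n k : Type} [Fintype n] [DecidableEq n] [Fintype k] [DecidableEq k]

theorem trOn_vs {r : Submodule ℂ (Mt N)} {x : Mt N} (h : ∀ y ∈ r, adM x y ∈ r) :
    trOn (vs r) (Matrix.toLin' ((adRep (Fin N)).dρ ℂ x)) = trOn r (adM x) :=
  trOn_equiv (vec ℂ) h fun y => adRep_dρ_mulVec x y

theorem vs_comap (r : Submodule ℂ (Fin N × Fin N → ℂ)) :
    vs (r.comap (vec (m := Fin N) (n := Fin N) ℂ).toLinearMap) = r :=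
  Submodule.map_comap_eq_of_surjective (vec ℂ).surjective r

theorem vs_injective : Function.Injective (vs : Submodule ℂ (Mt N) → _) :=
  Submodule.map_injective_of_injective (vec ℂ).injective

theorem vs_le_iff {r s : Submodule ℂ (Mt N)} : vs r ≤ vs s ↔ r ≤ s :=
  ⟨fun h _ hx => vec_mem_vs.1 (h (vec_mem_vs.2 hx)), vs_mono⟩

theorem wtS_smul (P : NatRep (Fin N) n) (m : ℤ) (a : Fin N → ℤ) :
    wtS P (m • a) = m • wtS P a := by
  ext j; simp [wtS, Finset.mul_sum, mul_left_comm]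

theorem dρ_dg_int (P : NatRep (Fin N) n) (Q : GL (Fin N) ℂ) (a : Fin N → ℤ) :
    P.dρ ℂ (dg Q fun i => (a i : ℂ)) = dg (P.ρU ℂ Q) fun j => ((wtS P a j : ℤ) : ℂ) := by
  rw [dρ_dg]
  congr 1
  exact (map_wtS P (Int.castAddHom ℂ) a).symm

theorem ρ_loop' (P : NatRep (Fin N) n) (Q : GL (Fin N) ℂ) (a : Fin N → ℤ) (m : ℤ)
    (η : GL (Fin N) ℂ⟦X⟧) : P.ρ KK (loop Q (m • a) η) =
      (loop (P.ρU ℂ Q) (m • wtS P a) (P.ρU ℂ⟦X⟧ η) : Matrix n n KK) := by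
  rw [← wtS_smul, ← ρ_loop]; rfl

theorem envA_le {P : NatRep (Fin N) n} {h : Submodule ℂ (Mt N)} {r : Submodule ℂ (n → ℂ)}
    (hr : ∀ ξ ∈ h, P.dρ ℂ ξ ∈ presA r) : envA P h ≤ presA r :=
  Algebra.adjoin_le (by rintro _ ⟨ξ, hξ, rfl⟩; exact hr ξ hξ)

theorem Decomp.trans {g h : Submodule ℂ (Mt N)} (hg : h ≤ g) {γ : GL (Fin N) KK}
    {W : Set (Matrix (Fin N) (Fin N) KK)} (h₁ : Decomp g γ (bcM h KK)) (h₂ : Decomp h γ W) :
    Decomp g γ W := by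
  intro ζ hζ
  obtain ⟨c, hc, a, b, ha, ha', hb, hb', rfl⟩ := h₁ ζ hζ
  obtain ⟨c', hc', a₁, b₁, ha₁, ha₁', hb₁, hb₁', rfl⟩ := h₂ c hc
  refine ⟨c', hc', a₁ + a, b₁ + b, Submodule.add_mem _ (bcM_mono hg ha₁) ha, ha₁'.add ha',
    Submodule.add_mem _ (bcM_mono hg hb₁) hb, hb₁'.add hb', ?_⟩
  rw [Matrix.mul_add, Matrix.add_mul]; abel

theorem logSpan_anti {h : Submodule ℂ (Mt N)} {C C' : Set ℂ} (hC : C ⊆ C') (γ : GL (Fin N) KK) :
    logSpan h C' γ ≤ logSpan h C γ :=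
  Submodule.span_mono (by
    rintro c ⟨hc, D, hD, e⟩; exact ⟨hc, D, fun x hx => hD x (hC hx), e⟩)

theorem Decomp.mono {g : Submodule ℂ (Mt N)} {γ : GL (Fin N) KK}
    {W W' : Set (Matrix (Fin N) (Fin N) KK)} (hW : W ⊆ W') (h : Decomp g γ W) :
    Decomp g γ W' := fun ζ hζ => by
  obtain ⟨c, hc, rest⟩ := h ζ hζ
  exact ⟨c, hW hc, rest⟩

theorem ord_mulVec {a b : ℤ} {m : Type} {Y : Matrix m n KK} {y : n → KK} (hY : MOrd a Y)
    (hy : ∀ i, Ord b (y i)) (i : m) : Ord (a + b) ((Y *ᵥ y) i) :=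
  ord_sum _ _ fun j _ => (hY i j).mul (hy j)

theorem iT_mulVec {m : Type} (Y : Matrix m n ℂ[X]) (y : n → ℂ[X]) :
    iT ∘ (Y *ᵥ y) = Y.map iT *ᵥ (iT ∘ y) := by
  ext i : 1; simp [Matrix.mulVec, dotProduct]

theorem map_iT_inv_mul (p : GL n ℂ[X]) :
    ((p⁻¹ : GL n ℂ[X]) : Matrix n n ℂ[X]).map iT * (p : Matrix n n ℂ[X]).map iT = 1 := by
  rw [← map_iT_mul, Units.inv_mul, Matrix.map_one _ (map_zero _) (map_one _)]

theorem map_iT_mul_inv (p : GL n ℂ[X]) :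
    (p : Matrix n n ℂ[X]).map iT * ((p⁻¹ : GL n ℂ[X]) : Matrix n n ℂ[X]).map iT = 1 := by
  rw [← map_iT_mul, Units.mul_inv, Matrix.map_one _ (map_zero _) (map_one _)]

theorem map_iO_inv_mul (p : GL n ℂ⟦X⟧) :
    ((p⁻¹ : GL n ℂ⟦X⟧) : Matrix n n ℂ⟦X⟧).map iO * (p : Matrix n n ℂ⟦X⟧).map iO = 1 := by
  rw [← map_iO_mul, Units.inv_mul, Matrix.map_one _ (map_zero _) (map_one _)]

theorem map_iO_mul_inv (p : GL n ℂ⟦X⟧) :
    (p : Matrix n n ℂ⟦X⟧).map iO * ((p⁻¹ : GL n ℂ⟦X⟧) : Matrix n n ℂ⟦X⟧).map iO = 1 := by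
  rw [← map_iO_mul, Units.mul_inv, Matrix.map_one _ (map_zero _) (map_one _)]

theorem exists_vec_split (A : GL k KK) (κ : GL k ℂ⟦X⟧) (p : GL k ℂ[X]) (a : k → ℤ)
    (hA : (A : Matrix k k KK) = (κ : Matrix k k ℂ⟦X⟧).map iO *
      Matrix.diagonal (fun i => tt ^ a i) * (p : Matrix k k ℂ[X]).map iT) (ha : ∀ i, a i ≤ 1)
    (y : k → KK) : ∃ (z : k → KK) (q : k → ℂ[X]), (∀ i, Ord 0 (z i)) ∧
      y = ((A⁻¹ : GL k KK) : Matrix k k KK) *ᵥ z + iT ∘ q := by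
  choose q hq _ using fun i => exists_split (((p : Matrix k k ℂ[X]).map iT *ᵥ y) i)
  refine ⟨(A : Matrix k k KK) *ᵥ (y - iT ∘ (((p⁻¹ : GL k ℂ[X]) : Matrix k k ℂ[X]) *ᵥ q)),
    ((p⁻¹ : GL k ℂ[X]) : Matrix k k ℂ[X]) *ᵥ q, fun i => ?_, ?_⟩
  · rw [hA, ← Matrix.mulVec_mulVec, Matrix.mulVec_sub, iT_mulVec,
      Matrix.mulVec_mulVec (iT ∘ q), map_iT_mul_inv, Matrix.one_mulVec, ← Matrix.mulVec_mulVec]
    have := ord_mulVec (b := 0) (mOrd_iO (κ : Matrix k k ℂ⟦X⟧)) (y := Matrix.diagonal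
      (fun i => tt ^ a i) *ᵥ ((p : Matrix k k ℂ[X]).map iT *ᵥ y - iT ∘ q)) (fun j => by
        rw [Matrix.mulVec_diagonal, ord_tt_mul_iff]
        exact (hq j).mono (by have := ha j; omega)) i
    simpa using this
  · rw [Matrix.mulVec_mulVec, Units.inv_mul, Matrix.one_mulVec, sub_add_cancel]

theorem exists_trivialization (γ : GL n KK) (h : NoSec γ)
    (hv : HasVal 0 (γ : Matrix n n KK).det) : ∃ (P : GL n ℂ[X]) (κ : GL n ℂ⟦X⟧),
      (P : Matrix n n ℂ[X]).map (Polynomial.eval 0) = 1 ∧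
      (γ : Matrix n n KK) * (P : Matrix n n ℂ[X]).map iT = (κ : Matrix n n ℂ⟦X⟧).map iO := by
  obtain ⟨κ, p, a, hA⟩ := birkhoff γ
  have h1 : (γ : Matrix n n KK) * ((p⁻¹ : GL n ℂ[X]) : Matrix n n ℂ[X]).map iT =
      (κ : Matrix n n ℂ⟦X⟧).map iO * Matrix.diagonal (fun i => tt ^ a i) := by
    rw [hA, Matrix.mul_assoc, map_iT_mul_inv, Matrix.mul_one]
  have ha : ∀ i, 0 ≤ a i := fun i => by
    by_contra hi
    have h2 := h (((p⁻¹ : GL n ℂ[X]) : Matrix n n ℂ[X]) *ᵥ Pi.single i 1) fun j => by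
      rw [iT_mulVec, Matrix.mulVec_mulVec, h1, ← Matrix.mulVec_mulVec]
      have := ord_mulVec (b := 1) (mOrd_iO (κ : Matrix n n ℂ⟦X⟧)) (y := Matrix.diagonal
        (fun i => tt ^ a i) *ᵥ (iT ∘ Pi.single i 1)) (fun l => by
          rw [Matrix.mulVec_diagonal]
          by_cases hl : l = i
          · subst hl
            simpa using (ord_tt_zpow (a l)).mono (by omega)
          · simpa [hl] using ord_zero 1) j
      simpa using this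
    have h3 := congrArg (fun y => ((p : Matrix n n ℂ[X]) *ᵥ y) i) h2
    simp only [Matrix.mulVec_mulVec, Units.mul_inv, Matrix.one_mulVec] at h3
    simp at h3
  have hκ : HasVal 0 ((κ : Matrix n n ℂ⟦X⟧).map iO).det :=
    hasVal_zero_of_mul_eq_one (y := (((κ⁻¹ : GL n ℂ⟦X⟧) : Matrix n n ℂ⟦X⟧).map iO).det)
      (by simpa only [mul_zero] using (mOrd_iO (κ : Matrix n n ℂ⟦X⟧)).det)
      (by simpa only [mul_zero] using (mOrd_iO ((κ⁻¹ : GL n ℂ⟦X⟧) : Matrix n n ℂ⟦X⟧)).det)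
      (by rw [← Matrix.det_mul, map_iO_mul_inv, Matrix.det_one])
  have hp : HasVal 0 (((p⁻¹ : GL n ℂ[X]) : Matrix n n ℂ[X]).map iT).det := by
    obtain ⟨c, hc, e⟩ := Polynomial.isUnit_iff.1
      ((Matrix.isUnit_iff_isUnit_det _).1 (p⁻¹).isUnit)
    rw [← AlgHom.mapMatrix_apply, ← AlgHom.map_det, ← e, Polynomial.C_eq_algebraMap,
      AlgHom.commutes]
    exact ⟨ord_algebraMap c, by rw [co_algebraMap, if_pos rfl]; exact hc.ne_zero⟩
  have h4 := hv.mul hp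
  rw [← Matrix.det_mul, h1, Matrix.det_mul, Matrix.det_diagonal] at h4
  have h5 := h4.unique (hκ.mul (hasVal_prod Finset.univ _ _ fun i _ => hasVal_tt_zpow (a i)))
  rw [Finset.sum_neg_distrib, add_zero, zero_add, eq_comm, neg_eq_zero,
    Finset.sum_eq_zero_iff_of_nonneg fun i _ => ha i] at h5
  have h6 : Matrix.diagonal (fun i => tt ^ a i) = 1 := by
    rw [← Matrix.diagonal_one]; congr 1; ext i : 1; rw [h5 i (Finset.mem_univ i), zpow_zero]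
  rw [h6, Matrix.mul_one] at h1
  let p₀ : GL n ℂ := gmap (Polynomial.evalRingHom 0) p
  refine ⟨p⁻¹ * gmap (algebraMap ℂ ℂ[X]) p₀, κ * gmap (algebraMap ℂ ℂ⟦X⟧) p₀, ?_, ?_⟩
  · have h7 : gmap (Polynomial.evalRingHom 0) (gmap (algebraMap ℂ ℂ[X]) p₀) = p₀ :=
      Units.ext (by ext i j; simp)
    have h8 : gmap (Polynomial.evalRingHom (0 : ℂ)) (p⁻¹ * gmap (algebraMap ℂ ℂ[X]) p₀) = 1 := by
      rw [gmap_mul, h7, gmap_inv, inv_mul_cancel]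
    exact congrArg Units.val h8
  · rw [Units.val_mul, Units.val_mul, map_iT_mul, map_iO_mul, ← Matrix.mul_assoc, h1]
    congr 1
    exact (cm_map iT _).trans (cm_map iO _).symm

namespace LowData

variable (D : LowData N)

theorem d_eq' : D.d = dg D.Q fun i => (D.a i : ℂ) := D.d_eq

theorem dg_mem : (dg D.Q fun i => (D.a i : ℂ)) ∈ D.h := D.d_eq' ▸ D.d_mem

/-- The loop `t ^ (m d) η`. -/
noncomputable abbrev γ (m : ℕ) (η : GL (Fin N) ℂ⟦X⟧) : GL (Fin N) KK := loop D.Q ((m : ℤ) • D.a) η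

variable {D}

theorem pres_γ (P : NatRep (Fin N) n) {r : Submodule ℂ (n → ℂ)}
    (hr : ∀ ξ ∈ D.h, P.dρ ℂ ξ ∈ presA r) (m : ℕ) {η : GL (Fin N) ℂ⟦X⟧} (hη : η ∈ expG D.h) :
    Pres r (P.ρ KK (D.γ m η)) :=
  bcA_mono (envA_le hr) (ρ_loop_mem_envA P D.Q D.a D.dg_mem m hη)

theorem pres_η (P : NatRep (Fin N) n) {r : Submodule ℂ (n → ℂ)}
    (hr : ∀ ξ ∈ D.h, P.dρ ℂ ξ ∈ presA r) {η : GL (Fin N) ℂ⟦X⟧} (hη : η ∈ expG D.h) :
    Pres r (P.ρ ℂ⟦X⟧ η) := bcA_mono (envA_le hr) (ρ_mem_envA P hη)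

theorem hasVal_γ (P : NatRep (Fin N) n) {r₁ r₂ : Submodule ℂ (n → ℂ)} (T : SQ r₁ r₂ k)
    (h₁ : ∀ ξ ∈ D.h, P.dρ ℂ ξ ∈ presA r₁) (h₂ : ∀ ξ ∈ D.h, P.dρ ℂ ξ ∈ presA r₂) (m : ℕ)
    {η : GL (Fin N) ℂ⟦X⟧} (hη : η ∈ expG D.h) (c : ℤ)
    (hc : trOn r₂ (Matrix.toLin' (P.dρ ℂ D.d)) - trOn r₁ (Matrix.toLin' (P.dρ ℂ D.d)) = c) :
    HasVal (-(m * c)) (T.π (P.ρ KK (D.γ m η))).det := by
  rw [ρ_loop']
  rw [D.d_eq', dρ_dg_int] at hc
  refine hasVal_det_π T (P.ρU ℂ D.Q) (wtS P D.a) ?_ ?_ m (P.ρU ℂ⟦X⟧ η) (pres_η P h₁ hη)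
    (pres_η P h₂ hη) c hc
  · rw [← dρ_dg_int]; exact h₁ _ D.dg_mem
  · rw [← dρ_dg_int]; exact h₂ _ D.dg_mem

theorem ad_h : ∀ ξ ∈ D.h, (adRep (Fin N)).dρ ℂ ξ ∈ presA (vs D.h) :=
  fun ξ hξ => ad_mem_presA_iff.2 (D.h_lie ξ hξ)

theorem ad_g : ∀ ξ ∈ D.h, (adRep (Fin N)).dρ ℂ ξ ∈ presA (vs D.g) :=
  fun ξ hξ => ad_mem_presA_iff.2 (D.g_lie ξ (D.h_le hξ))

/-- The matrix of the loop on `g / h`. -/
noncomputable def tanA (T : SQ (vs D.h) (vs D.g) k) (m : ℕ) {η : GL (Fin N) ℂ⟦X⟧}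
    (hη : η ∈ expG D.h) : GL k KK :=
  T.πU ((adRep (Fin N)).ρU KK (D.γ m η)) (pres_γ _ ad_h m hη) (pres_γ _ ad_g m hη)

theorem amp (T : SQ (vs D.h) (vs D.g) k) {m : ℕ} (hm : Fintype.card k ^ 2 ≤ m)
    {η : GL (Fin N) ℂ⟦X⟧} (hη : η ∈ expG D.h) {C : Set ℂ} (hB : EntriesIn C T.B)
    (hL : EntriesIn C T.L) (hdec : Decomp D.h (D.γ m η) (logSpan D.h C (D.γ m η)))
    (κ : GL k ℂ⟦X⟧) (p : GL k ℂ[X]) (a : k → ℤ)
    (hfac : (tanA T m hη : Matrix k k KK) = (κ : Matrix k k ℂ⟦X⟧).map iO *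
      Matrix.diagonal (fun i => tt ^ a i) * (p : Matrix k k ℂ[X]).map iT) : ∀ i, a i ≤ -1 := by
  refine ample T ((adRep (Fin N)).dρ ℂ '' (D.h : Set (Mt N))) ?_ ?_ ((adRep (Fin N)).ρU ℂ D.Q)
    (wtS (adRep (Fin N)) D.a) ?_ ((adRep (Fin N)).ρU ℂ⟦X⟧ η) (ρ_mem_envA _ hη) m hm
    (tanA T m hη) ?_ ?_ ?_ κ p a hfac
  · rintro _ ⟨ξ, hξ, rfl⟩; exact ad_h ξ hξ
  · rintro _ ⟨ξ, hξ, rfl⟩; exact ad_g ξ hξ
  · rw [← dρ_dg_int]; exact Algebra.subset_adjoin ⟨_, D.dg_mem, rfl⟩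
  · rw [← ρ_loop']; rfl
  · rintro _ ⟨ξ, hξ, rfl⟩ l
    have := π_dρ_mem_Cob (adRep (Fin N)) T le_rfl ad_h ad_g (D.γ m η) (pres_γ _ ad_h m hη)
      (pres_γ _ ad_g m hη) hB hL hdec (tanA T m hη) rfl
      (Submodule.smul_mem _ (tt ^ (-(l + 1 : ℤ))) (cm_mem_bcM hξ))
    rwa [map_smul, T.π_smul, NatRep.dρ_cm, T.π_cm] at this
  · intro r h₁ h₂ h₃
    rw [← vs_comap r] at h₁ h₂ h₃ ⊢
    set r₀ := r.comap (vec (m := Fin N) (n := Fin N) ℂ).toLinearMap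
    have hst : Stab D.h r₀ := fun ξ hξ => ad_mem_presA_iff.1 (h₃ _ ⟨ξ, hξ, rfl⟩)
    have hle : r₀ ≤ D.g := vs_le_iff.1 h₂.le
    rw [← dρ_dg_int, ← D.d_eq', trOn_vs (hst _ D.d_mem), trOn_vs (D.g_lie _ (D.h_le D.d_mem)),
      D.tr_ideal _ le_rfl D.g_lie]
    rcases D.tr_pos r₀ hle hst with h | ⟨c, hc, e⟩
    · exact absurd (congrArg vs (D.no_ideal r₀ (vs_le_iff.1 h₁) hle h)) h₂.ne
    · exact ⟨c, hc, by rw [e, zero_sub]⟩

theorem decomp_g (T : SQ (vs D.h) (vs D.g) k) {m : ℕ} {η : GL (Fin N) ℂ⟦X⟧} (hη : η ∈ expG D.h)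
    (κ : GL k ℂ⟦X⟧) (p : GL k ℂ[X]) (a : k → ℤ)
    (hfac : (tanA T m hη : Matrix k k KK) = (κ : Matrix k k ℂ⟦X⟧).map iO *
      Matrix.diagonal (fun i => tt ^ a i) * (p : Matrix k k ℂ[X]).map iT) (ha : ∀ i, a i ≤ 1) :
    Decomp D.g (D.γ m η) (bcM D.h KK) := by
  intro ζ hζ
  obtain ⟨z, q, hz, e⟩ := exists_vec_split _ κ p a hfac ha (cm KK T.L *ᵥ vec KK ζ)
  let x := (vec KK).symm (cm KK T.B *ᵥ z)
  let y := (vec KK).symm (cm KK T.B *ᵥ (iT ∘ q))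
  have hx : x ∈ bcM D.g KK := vec_mem_bc.1 (T.B_mem' z)
  have hy : y ∈ bcM D.g KK := vec_mem_bc.1 (T.B_mem' _)
  have hp := (pres_γ (adRep (Fin N)) ad_g m hη).inv (g := (adRep (Fin N)).ρU KK (D.γ m η))
  have hp' := (pres_γ (adRep (Fin N)) ad_h m hη).inv (g := (adRep (Fin N)).ρU KK (D.γ m η))
  have hc := conj_mem_of_pres (g := (D.γ m η)⁻¹) hp hx
  rw [inv_inv] at hc
  refine ⟨ζ - (((D.γ m η)⁻¹ : GL (Fin N) KK) : Matrix _ _ KK) * x * (D.γ m η : Matrix _ _ KK) - y,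
    ?_, x, y, hx, fun i j => ?_, hy, fun i j => ?_, by abel⟩
  · refine vec_mem_bc.1 (T.mem_of_L_eq_zero
      (vec_mem_bc.2 (Submodule.sub_mem _ (Submodule.sub_mem _ hζ hc) hy)) ?_)
    have h1 := adRep_mulVec (D.γ m η)⁻¹ x
    rw [inv_inv] at h1
    rw [map_sub, map_sub, ← h1, Matrix.mulVec_sub, Matrix.mulVec_sub, e]
    erw [T.L_mulVec hp' (vec_mem_bc.2 hx)]
    simp only [x, y, LinearEquiv.apply_symm_apply, Matrix.mulVec_mulVec, T.LB', Matrix.mul_assoc,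
      Matrix.mul_one, Matrix.one_mulVec]
    rw [sub_sub, sub_eq_zero]
    rfl
  · change Ord 0 ((cm KK T.B *ᵥ z) (i, j))
    simpa using ord_mulVec (mOrd_cm T.B) hz (i, j)
  · change InT ((cm KK T.B *ᵥ (iT ∘ q)) (i, j))
    rw [← cm_map iT, ← iT_mulVec]
    exact inT_iT _

theorem series (r : Submodule ℂ (Fin N → ℂ)) (hr : StabV D.g r) :
    ∃ C : Set ℂ, C.Finite ∧ ∃ ρ : ℕ, 0 < ρ ∧ ∀ (m : ℕ) (η : GL (Fin N) ℂ⟦X⟧), ρ ∣ m →
      η ∈ expG D.h → Decomp D.g (D.γ m η) (logSpan D.h C (D.γ m η)) →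
      ∀ q : Fin N → ℂ[X], iT ∘ q ∈ bc r KK →
        (∀ i, Ord 1 ((((D.γ m η : GL (Fin N) KK) : Matrix (Fin N) (Fin N) KK) *ᵥ (iT ∘ q)) i)) →
          q = 0 := by
  induction hd : Module.finrank ℂ r using Nat.strong_induction_on generalizing r with
  | _ d ih =>
  by_cases hb : r = ⊥
  · subst hb
    refine ⟨∅, Set.finite_empty, 1, one_pos, fun m η _ _ _ q hq _ => ?_⟩
    ext i : 1
    exact iT_injective ((congrFun (eq_zero_of_mem_bc_bot hq) i).trans (map_zero _).symm)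
  obtain ⟨r', ⟨hr'lt, hr'⟩, hmax⟩ := (wellFounded_gt (α := Submodule ℂ (Fin N → ℂ))).has_min
    {r' | r' < r ∧ StabV D.g r'}
    ⟨⊥, bot_lt_iff_ne_bot.2 hb, fun x _ w hw => by simp [(Submodule.mem_bot ℂ).1 hw]⟩
  obtain ⟨C₁, hC₁, ρ₁, hρ₁, H₁⟩ := ih _ (hd ▸ Submodule.finrank_lt_finrank_of_lt hr'lt) r' hr' rfl
  obtain ⟨T⟩ := exists_SQ hr'lt.le
  have g₁ : ∀ ξ ∈ D.g, ξ ∈ presA r' := hr'
  have g₂ : ∀ ξ ∈ D.g, ξ ∈ presA r := hr
  have h₁ : ∀ ξ ∈ D.h, (stdRep (Fin N)).dρ ℂ ξ ∈ presA r' := fun ξ hξ => g₁ ξ (D.h_le hξ)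
  have h₂ : ∀ ξ ∈ D.h, (stdRep (Fin N)).dρ ℂ ξ ∈ presA r := fun ξ hξ => g₂ ξ (D.h_le hξ)
  obtain ⟨Q', w', hQ'⟩ := exists_π_dg T D.Q D.a (h₁ _ D.dg_mem) (h₂ _ D.dg_mem)
  have hπd : T.π D.d = dg Q' fun i => (w' i : ℂ) := by
    rw [D.d_eq']; exact hQ' ℂ Int.cast
  refine (rigid (D.g.map (T.πL ℂ)) ?_ ?_ Q' w' ⟨D.d, D.h_le D.d_mem, hπd⟩ ?_).elim
    fun ρ₂ ⟨hρ₂, H₂⟩ => ?_
  rotate_left 3
  · refine ⟨C₁ ∪ (Set.range (fun ij : _ × _ => T.B ij.1 ij.2) ∪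
      Set.range (fun ij : _ × _ => T.L ij.1 ij.2)),
      hC₁.union ((Set.finite_range _).union (Set.finite_range _)), ρ₁ * ρ₂, Nat.mul_pos hρ₁ hρ₂,
      fun m η hm hη hdec q hq hord => ?_⟩
    refine H₁ m η (dvd_of_mul_right_dvd hm) hη
      (hdec.mono (logSpan_anti Set.subset_union_left _)) q ?_ hord
    have p₁ : Pres r' ((D.γ m η : GL (Fin N) KK) : Matrix (Fin N) (Fin N) KK) :=
      pres_γ (stdRep (Fin N)) h₁ m hη
    have p₂ : Pres r ((D.γ m η : GL (Fin N) KK) : Matrix (Fin N) (Fin N) KK) :=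
      pres_γ (stdRep (Fin N)) h₂ m hη
    have e₁ : Pres r' (η : Matrix (Fin N) (Fin N) ℂ⟦X⟧) := pres_η (stdRep (Fin N)) h₁ hη
    have e₂ : Pres r (η : Matrix (Fin N) (Fin N) ℂ⟦X⟧) := pres_η (stdRep (Fin N)) h₂ hη
    have hloop : (loop Q' ((m : ℤ) • w') (T.πU η e₁ e₂) : Matrix _ _ KK) =
        T.π (D.γ m η : Matrix _ _ KK) := by
      have t₁ : Pres r' (tp D.Q ((m : ℤ) • D.a) : Matrix _ _ KK) := by
        simpa [loop, gmap_one] using pres_γ (stdRep (Fin N)) h₁ m (Subgroup.one_mem _)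
      have t₂ : Pres r (gmap (iO : ℂ⟦X⟧ →+* KK) η : Matrix (Fin N) (Fin N) KK) :=
        e₂.map iO.toLinearMap
      rw [γ, loop, loop, Units.val_mul, Units.val_mul, T.π_mul t₁ t₂, coe_tp, coe_tp]
      congr 1
      · exact (hQ' KK fun j => tt ^ ((m : ℤ) * j)).symm
      · exact T.π_mapA iO _
    have hns := H₂ m (T.πU η e₁ e₂) (dvd_of_mul_left_dvd hm) ?_ ?_
    · refine T.mem_of_L_eq_zero hq ?_
      have := hns (cm ℂ[X] T.L *ᵥ q) fun i => by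
        rw [iT_mulVec, cm_map, hloop, ← T.L_mulVec p₁ hq]
        simpa using ord_mulVec (mOrd_cm T.L) hord i
      rw [← cm_map iT, ← iT_mulVec, this]
      ext i : 1; simp
    · rw [pres_ad_iff]
      rintro _ ⟨x, hx, rfl⟩
      have hc := conj_mem_of_pres (pres_η _ ad_g hη) (cm_mem_bcM (R := ℂ⟦X⟧) hx)
      change T.π (η : Matrix _ _ ℂ⟦X⟧) * cm _ (T.π x) * T.π _ ∈ _
      rw [← T.π_cm, ← T.π_mul e₁ (pres_cm (g₂ x hx)),
        ← T.π_mul (e₁.mul (pres_cm (g₁ x hx))) e₂.inv]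
      intro φ
      rw [T.π_map]
      exact ⟨_, hc φ, rfl⟩
    · intro ζ hζ
      obtain ⟨ζ', hζ', rfl⟩ : ζ ∈ (bcM D.g KK).map (T.πL KK) := bcM_le (by
        rintro _ ⟨x, hx, rfl⟩; exact ⟨cm KK x, cm_mem_bcM hx, T.π_cm x⟩) hζ
      exact π_dρ_mem_Cob (stdRep (Fin N)) T D.h_le g₁ g₂ (D.γ m η) p₁ p₂
        (fun i j => Or.inr (Or.inl ⟨(i, j), rfl⟩)) (fun i j => Or.inr (Or.inr ⟨(i, j), rfl⟩))
        hdec _ hloop hζ'
  · rintro _ ⟨x, hx, rfl⟩ _ ⟨y, hy, rfl⟩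
    refine ⟨_, D.g_lie x hx y hy, ?_⟩
    change T.π (x * y - y * x) = T.π x * T.π y - T.π y * T.π x
    rw [T.π_sub, T.π_mul (pres_self.2 (g₁ x hx)) (pres_self.2 (g₂ y hy)),
      T.π_mul (pres_self.2 (g₁ y hy)) (pres_self.2 (g₂ x hx))]
  · intro W hW
    have hst : StabV D.g (T.lift W) := fun x hx =>
      T.mem_presA_lift (g₁ x hx) (g₂ x hx) (hW _ ⟨x, hx, rfl⟩)
    rcases (T.lift_le W).eq_or_lt with h | h
    · exact Or.inr (T.eq_top_of_lift h)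
    · rcases (T.le_lift W).eq_or_lt with h' | h'
      · exact Or.inl (T.eq_bot_of_lift h'.symm)
      · exact absurd h' (hmax _ ⟨h, hst⟩)
  · rw [← hπd, T.trace_π (g₁ _ (D.h_le D.d_mem)) (g₂ _ (D.h_le D.d_mem)), D.tr_V r hr,
      D.tr_V r' hr', sub_zero]

end LowData

end Kol68
end
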