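import Pool.Agent.Work.MP_c53807_ag.Rigid
import Pool.Agent.Work.MP_c53807_ag.Triv
import Pool.Agent.Work.MP_c53807_ag.End
import Pool.Agent.Work.MP_c53807_ag.LowBasic
import Pool.Agent.Work.MP_c53807_ag.Fields
import Pool.Agent.Work.MP_c53807_ag.LowRed
import Pool.Agent.Work.MP_c53807_ag.LowIrr
import Pool.Agent.Work.MP_c53807_ag.Defs

-- merged part: Pool.Agent.Work.MP_c53807_ag.Emb
section
open scoped Matrix Polynomial

namespace Kol68

variable {N : ℕ}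

/-- The span of the coefficientwise derivatives and the constant linear transforms of `F`. -/
noncomputable def varS (F : Fin N → ℂ[X]) : Submodule ℂ (Fin N → ℂ[X]) :=
  Submodule.span ℂ ({R | ∃ D : Der ℂ, R = DT D ∘ F} ∪ {R | ∃ ξ : Mt N, R = cm ℂ[X] ξ *ᵥ F})

namespace EmbAux

open Polynomial

/-- A linear form applied to every coordinate. -/
noncomputable def cw (l : ℂ[X] →ₗ[ℂ] ℂ) : (Fin N → ℂ[X]) →ₗ[ℂ] (Fin N → ℂ) := l.compLeft (Fin N)

theorem cw_apply (l : ℂ[X] →ₗ[ℂ] ℂ) (R : Fin N → ℂ[X]) (j : Fin N) : cw l R j = l (R j) := rfl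

theorem mem_of_varS {F : Fin N → ℂ[X]} (l : ℂ[X] →ₗ[ℂ] ℂ) (U : Submodule ℂ (Fin N → ℂ))
    (h0 : ∀ j, l (F j) = 0) (hD : ∀ D : Der ℂ, cw l (DT D ∘ F) ∈ U) {R : Fin N → ℂ[X]}
    (hR : R ∈ varS F) : cw l R ∈ U := by
  refine (Submodule.span_le (p := U.comap (cw l))).mpr ?_ hR
  rintro _ (⟨D, rfl⟩ | ⟨ξ, rfl⟩)
  · exact hD D
  · have : cw l (cm ℂ[X] ξ *ᵥ F) = 0 := by
      ext i
      simp [cw_apply, cm, Matrix.mulVec, dotProduct, ← smul_eq_C_mul, h0]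
    show cw l _ ∈ U
    rw [this]
    exact U.zero_mem

theorem not_indep {ι : Type} [Fintype ι] (hι : 3 ≤ Fintype.card ι) {v : Option ι → Fin N → ℂ}
    (hv : LinearIndependent ℂ v) (w : Fin 3 → Fin N → ℂ)
    (h : ∀ o, v o ∈ Submodule.span ℂ (Set.range w)) : False := by
  have h1 := Submodule.finrank_mono (Submodule.span_le.mpr (Set.range_subset_iff.mpr h))
  have h2 := finrank_range_le_card (R := ℂ) w
  rw [finrank_span_eq_card hv, Fintype.card_option] at h1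
  rw [Set.finrank, Fintype.card_fin] at h2
  omega

theorem mem3 (w : Fin 3 → Fin N → ℂ) {x : Fin N → ℂ} (a b c : ℂ)
    (h : ∀ j, x j = a * w 0 j + b * w 1 j + c * w 2 j) : x ∈ Submodule.span ℂ (Set.range w) := by
  have : x = a • w 0 + b • w 1 + c • w 2 := funext h
  rw [this]
  refine add_mem (add_mem ?_ ?_) ?_ <;>
    exact Submodule.smul_mem _ _ (Submodule.subset_span ⟨_, rfl⟩)

theorem mem3' (w : Fin 3 → Fin N → ℂ) {x z : Fin N → ℂ} (hz : z ∈ Submodule.span ℂ (Set.range w))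
    (d a b c : ℂ) (h : ∀ j, x j = d * z j + (a * w 0 j + b * w 1 j + c * w 2 j)) :
    x ∈ Submodule.span ℂ (Set.range w) := by
  have : x = d • z + fun j => a * w 0 j + b * w 1 j + c * w 2 j := funext h
  rw [this]
  exact add_mem (Submodule.smul_mem _ _ hz) (mem3 w a b c fun _ => rfl)

end EmbAux

open EmbAux Polynomial in
theorem emb {ι : Type} [Fintype ι] (hι : 3 ≤ Fintype.card ι) (F : Fin N → ℂ[X]) (e : ℕ)
    (S : ι → Fin N → ℂ[X])
    (ha : ∀ y : ℂ, LinearIndependent ℂ fun (o : Option ι) (j : Fin N) => (o.elim F S j).eval y)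
    (hb : ∀ i (q : ℂ[X]), q.natDegree ≤ 1 → ∃ μ : ℂ[X], q • S i - μ • F ∈ varS F)
    (hc : ∀ i, ∃ (μ : ℂ[X]) (ν : ℂ), S i - μ • F ∈ varS F ∧
      (fun j => ((S i - μ • F) j).coeff e) = ν • fun j => (F j).coeff e)
    (hd : ∃ R ∈ varS F, ∃ (ν ν' : ℂ) (W : Fin N → ℂ),
      (fun j => (R j).coeff e) = ν • (fun j => (F j).coeff e) ∧
      (fun j => (R j).coeff (e - 1)) =
        W + ν • (fun j => (F j).coeff (e - 1)) + ν' • (fun j => (F j).coeff e) ∧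
      ∀ c : ℂ, W ≠ c • fun j => (F j).coeff e) :
    (∀ x y c : ℂ, (fun i => (F i).eval x) = c • (fun i => (F i).eval y) → x = y) ∧
    (∀ y c : ℂ, (fun i => (F i).eval y) ≠ c • (fun i => (F i).coeff e)) ∧
    (∀ y c : ℂ, (fun i => (F i).derivative.eval y) ≠ c • (fun i => (F i).eval y)) ∧
    (∀ c : ℂ, (fun i => (F i).coeff (e - 1)) ≠ c • (fun i => (F i).coeff e)) := by
  refine ⟨fun x y c h => by_contra fun hxy => ?_, fun y c h => ?_, fun y c h => ?_, fun c h => ?_⟩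
  · have h' : ∀ j, (F j).eval x = c * (F j).eval y := congrFun h
    refine not_indep hι (ha x) ![fun j => (F j).eval y, fun j => (F j).derivative.eval x,
      fun j => (F j).derivative.eval y] ?_
    rintro (_ | i)
    · exact mem3 _ c 0 0 fun j => by simp [h']
    · obtain ⟨μ, hμ⟩ := hb i (X - C y) (natDegree_X_sub_C_le y)
      have hz := mem_of_varS (leval x - c • leval y) _ (fun j => by simp [h']) (fun D =>
        mem3 ![fun j => (F j).eval y, fun j => (F j).derivative.eval x,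
          fun j => (F j).derivative.eval y] (D c) (-D x) (c * D y) fun j => by
            have := congrArg D (h' j)
            rw [D.leib, D_eval, D_eval] at this
            simp [cw_apply]
            linear_combination this) hμ
      have hne : x - y ≠ 0 := sub_ne_zero.mpr hxy
      refine mem3' _ hz (x - y)⁻¹ ((x - y)⁻¹ * c * (μ.eval x - μ.eval y)) 0 0 fun j => ?_
      simp [cw_apply, h']
      field_simp
      ring
  · have h' : ∀ j, (F j).eval y = c * (F j).coeff e := congrFun h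
    refine not_indep hι (ha y) ![fun j => (F j).coeff e, fun j => (F j).derivative.eval y, 0] ?_
    rintro (_ | i)
    · exact mem3 _ c 0 0 fun j => by simp [h']
    · obtain ⟨μ, ν, hμ, hν⟩ := hc i
      have hz := mem_of_varS (leval y - c • lcoeff ℂ e) _ (fun j => by simp [h']) (fun D =>
        mem3 ![fun j => (F j).coeff e, fun j => (F j).derivative.eval y, 0] (D c) (-D y) 0
          fun j => by
            have := congrArg D (h' j)
            rw [D.leib, D_eval] at this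
            simp [cw_apply, coeff_DT]
            linear_combination this) hμ
      refine mem3' _ hz 1 (c * (μ.eval y + ν)) 0 0 fun j => ?_
      have := congrFun hν j
      simp [cw_apply, h'] at this ⊢
      linear_combination c * this
  · have h' : ∀ j, (F j).derivative.eval y = c * (F j).eval y := congrFun h
    refine not_indep hι (ha y) ![fun j => (F j).eval y, fun j => (F j).derivative.derivative.eval y,
      0] ?_
    rintro (_ | i)
    · exact mem3 _ 1 0 0 fun j => by simp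
    · obtain ⟨μ, hμ⟩ := hb i (X - C y) (natDegree_X_sub_C_le y)
      have hz := mem_of_varS (leval y ∘ₗ derivative - c • leval y) _ (fun j => by simp [h'])
        (fun D => mem3 ![fun j => (F j).eval y, fun j => (F j).derivative.derivative.eval y, 0]
          (D c + c * c * D y) (-D y) 0 fun j => by
            have := congrArg D (h' j)
            rw [D.leib, D_eval, D_eval, DT_derivative, h'] at this
            simp [cw_apply]
            linear_combination this) hμ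
      refine mem3' _ hz 1 (μ.derivative.eval y) 0 0 fun j => ?_
      simp [cw_apply, h']
      ring
  · have h' : ∀ j, (F j).coeff (e - 1) = c * (F j).coeff e := congrFun h
    obtain ⟨R, hR, ν, ν', W, h1, h2, h3⟩ := hd
    have hz := mem_of_varS (lcoeff ℂ (e - 1) - c • lcoeff ℂ e) (ℂ ∙ fun j => (F j).coeff e)
      (fun j => by simp [h']) (fun D => Submodule.mem_span_singleton.mpr ⟨D c, funext fun j => by
        have := congrArg D (h' j)
        rw [D.leib] at this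
        simp [cw_apply, coeff_DT]
        linear_combination -this⟩) hR
    obtain ⟨a, hA⟩ := Submodule.mem_span_singleton.mp hz
    refine h3 (a - ν') (funext fun j => ?_)
    have a1 := congrFun h1 j
    have a2 := congrFun h2 j
    have a3 := congrFun hA j
    simp [cw_apply, h'] at a1 a2 a3 ⊢
    linear_combination -a2 - a3 + c * a1

end Kol68
end

-- merged part: Pool.Agent.Work.MP_c53807_ag.Sec
section
/-!
Sections of the tangent bundle come from deformations of the loop.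
-/

open scoped Matrix PowerSeries Polynomial

namespace Kol68

variable {N : ℕ} {n k : Type} [Fintype n] [DecidableEq n] [Fintype k] [DecidableEq k]

/-- Matrices over `ℂ((u))`. -/
abbrev MK (N : ℕ) : Type := Matrix (Fin N) (Fin N) KK

/-- Matrices over `ℂ[t]`. -/
abbrev MX (N : ℕ) : Type := Matrix (Fin N) (Fin N) ℂ[X]

/-- `ℂ[t] → ℂ((u))` on invertible matrices. -/
noncomputable abbrev gT (P : GL n ℂ[X]) : GL n KK := gmap (iT : ℂ[X] →+* KK) P

/-- `ℂ[[u]] → ℂ((u))` on invertible matrices. -/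
noncomputable abbrev gO (P : GL n ℂ⟦X⟧) : GL n KK := gmap (iO : ℂ⟦X⟧ →+* KK) P

theorem coe_gT (P : GL n ℂ[X]) : (gT P : Matrix n n KK) = (P : Matrix n n ℂ[X]).map iT := rfl

theorem coe_gO (P : GL n ℂ⟦X⟧) : (gO P : Matrix n n KK) = (P : Matrix n n ℂ⟦X⟧).map iO := rfl

theorem coe_gT_inv (P : GL n ℂ[X]) : (((gT P)⁻¹ : GL n KK) : Matrix n n KK) =
    ((P⁻¹ : GL n ℂ[X]) : Matrix n n ℂ[X]).map iT := rfl

theorem coe_gO_inv (P : GL n ℂ⟦X⟧) : (((gO P)⁻¹ : GL n KK) : Matrix n n KK) =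
    ((P⁻¹ : GL n ℂ⟦X⟧) : Matrix n n ℂ⟦X⟧).map iO := rfl

theorem exists_smul_of_pres {R : Type} [CommRing R] [Algebra ℂ R] {v : n → ℂ} {M : Matrix n n R}
    (h : Pres (ℂ ∙ v) M) : ∃ c : R, M *ᵥ cv R v = c • cv R v := by
  have h1 := pres_iff_cv.1 h v (Submodule.mem_span_singleton_self v)
  have h2 := bc_le (T := R ∙ cv R v) (fun b hb => by
    obtain ⟨c, rfl⟩ := Submodule.mem_span_singleton.1 hb
    rw [cv_smul]
    exact Submodule.smul_mem _ _ (Submodule.mem_span_singleton_self _)) h1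
  obtain ⟨c, hc⟩ := Submodule.mem_span_singleton.1 h2
  exact ⟨c, hc.symm⟩

theorem iT_cv (v : n → ℂ) : iT ∘ cv ℂ[X] v = cv KK v := by
  ext i : 1; exact iT.commutes _

theorem MOrd.exists_cm {m p : Type} {Y : Matrix m p ℂ[X]} (h : MOrd 0 (Y.map iT)) :
    ∃ ξ : Matrix m p ℂ, Y = cm ℂ[X] ξ :=
  ⟨Y.map fun f => f.coeff 0, Matrix.ext fun i j => eq_C_of_ord_zero (h i j)⟩

theorem natDegree_le_of_mem_varS {F : Fin N → ℂ[X]} {e : ℕ} (hF : ∀ i, (F i).natDegree ≤ e)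
    {R : Fin N → ℂ[X]} (hR : R ∈ varS F) (i : Fin N) : (R i).natDegree ≤ e := by
  simp only [Polynomial.natDegree_le_iff_coeff_eq_zero] at hF ⊢
  induction hR using Submodule.span_induction with
  | mem x hx =>
    rcases hx with ⟨D, rfl⟩ | ⟨ξ, rfl⟩
    · intro l hl
      rw [Function.comp_apply, coeff_DT, hF i l hl, map_zero]
    · intro l hl
      simp [Matrix.mulVec, dotProduct, hF _ l hl]
  | zero => simp
  | add x y _ _ hx hy => intro l hl; simp [hx l hl, hy l hl]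
  | smul c x _ hx => intro l hl; simp [hx l hl]

theorem logSpan_split {h : Submodule ℂ (Mt N)} {v : Fin N → ℂ} {C : Set ℂ} (hv : ∀ i, v i ∈ C)
    {γ : GL (Fin N) KK} {P : GL (Fin N) ℂ[X]} {κ : GL (Fin N) ℂ⟦X⟧} (hP : γ * gT P = gO κ)
    {c : Matrix (Fin N) (Fin N) KK} (hc : c ∈ logSpan h C γ) :
    ∃ (a : Matrix (Fin N) (Fin N) KK) (Y : Matrix (Fin N) (Fin N) ℂ[X]), MOrd 0 a ∧
      (((gT P)⁻¹ : GL (Fin N) KK) : MK N) * c * (gT P : MK N) = a - Y.map iT ∧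
      Y *ᵥ (((P⁻¹ : GL (Fin N) ℂ[X]) : MX N) *ᵥ cv ℂ[X] v) ∈
        varS (((P⁻¹ : GL (Fin N) ℂ[X]) : MX N) *ᵥ cv ℂ[X] v) := by
  induction hc using Submodule.span_induction with
  | mem x hx =>
    obtain ⟨-, D, hD, rfl⟩ := hx
    refine ⟨(((gO κ)⁻¹ : GL (Fin N) KK) : MK N) * (DK D).mat (gO κ : MK N),
      ((P⁻¹ : GL (Fin N) ℂ[X]) : MX N) * (DT D).mat (P : MX N),
      (mOrd_iO _).mul₀ fun i j => (ord_iO _).DK D, ?_, ?_⟩
    · have h1 : ((DT D).mat (P : MX N)).map iT = (DK D).mat (gT P : MK N) := by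
        ext i j : 2; exact (DK_iT D _).symm
      rw [map_iT_mul, h1, ← coe_gT_inv, ← hP, mul_inv_rev, Units.val_mul, Units.val_mul,
        Der.mat_mul, Matrix.mul_add]
      simp only [Matrix.mul_assoc, Units.inv_mul_cancel_left, add_sub_cancel_left]
    · have h1 := (DT D).comp_mulVec ((P⁻¹ : GL (Fin N) ℂ[X]) : MX N) (cv ℂ[X] v)
      have h2 : DT D ∘ cv ℂ[X] v = 0 := by
        ext i l
        simp [coeff_DT, Polynomial.coeff_C, apply_ite D, hD _ (hv i)]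
      rw [h2, Matrix.mulVec_zero, zero_add, Der.mat_inv, Matrix.neg_mulVec,
        ← Matrix.mulVec_mulVec, ← neg_eq_iff_eq_neg] at h1
      rw [← h1]
      exact Submodule.neg_mem _ (Submodule.subset_span (Or.inl ⟨D, rfl⟩))
  | zero => exact ⟨0, 0, mOrd_zero 0, by simp, by simp⟩
  | add x y _ _ hx hy =>
    obtain ⟨a, Y, h₁, h₂, h₃⟩ := hx
    obtain ⟨a', Y', h₁', h₂', h₃'⟩ := hy
    refine ⟨a + a', Y + Y', h₁.add h₁', ?_, by
      rw [Matrix.add_mulVec]; exact Submodule.add_mem _ h₃ h₃'⟩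
    rw [Matrix.mul_add, Matrix.add_mul, h₂, h₂', Matrix.map_add _ (map_add iT)]; abel
  | smul c x _ hx =>
    obtain ⟨a, Y, h₁, h₂, h₃⟩ := hx
    refine ⟨c • a, c • Y, h₁.smul c, ?_, by
      rw [Matrix.smul_mulVec]; exact Submodule.smul_mem _ _ h₃⟩
    rw [Matrix.mul_smul, Matrix.smul_mul, h₂, smul_sub, Matrix.map_smul _ _ (map_smul iT c)]

theorem section_lemma {h : Submodule ℂ (Mt N)} {v : Fin N → ℂ}
    (hh : h ≤ Subalgebra.toSubmodule (presA (ℂ ∙ v))) {C : Set ℂ} (hv : ∀ i, v i ∈ C)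
    {γ : GL (Fin N) KK} (hdec : Decomp h γ (logSpan h C γ)) {P : GL (Fin N) ℂ[X]}
    {κ : GL (Fin N) ℂ⟦X⟧} (hP : γ * gT P = gO κ) {F : Fin N → ℂ[X]}
    (hF : F = ((P⁻¹ : GL (Fin N) ℂ[X]) : MX N) *ᵥ cv ℂ[X] v)
    (σ : Matrix (Fin N) (Fin N) ℂ[X]) {a₀ : Matrix (Fin N) (Fin N) KK} (ha₀ : MOrd 0 a₀)
    (hσ : σ.map iT - ((γ⁻¹ : GL (Fin N) KK) : MK N) * a₀ * (γ : MK N) ∈
      bcM h KK) :
    ∃ (μ : ℂ[X]) (ν : KK),
      ((P⁻¹ : GL (Fin N) ℂ[X]) : MX N) *ᵥ (σ *ᵥ cv ℂ[X] v) - μ • F ∈ varS F ∧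
      iT ∘ (((P⁻¹ : GL (Fin N) ℂ[X]) : MX N) *ᵥ (σ *ᵥ cv ℂ[X] v) - μ • F) =
        (((gO κ)⁻¹ : GL (Fin N) KK) : MK N) *ᵥ (a₀ *ᵥ ((γ : MK N) *ᵥ cv KK v)) +
          ν • (iT ∘ F) := by
  obtain ⟨c, hc, a, b, ha, ha', hb, hb', e⟩ := hdec _ hσ
  obtain ⟨b, rfl⟩ := hb'.exists_iT
  obtain ⟨μ, hμ⟩ := exists_smul_of_pres
    (bcM_mono hh (bcM_of_map iT.toLinearMap iT_injective hb))
  obtain ⟨ν, hν⟩ := exists_smul_of_pres (bcM_mono hh (Submodule.sub_mem _ hσ hb))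
  obtain ⟨a', Y, h₁, h₂, h₃⟩ := logSpan_split hv hP hc
  have h4 : ((P⁻¹ : GL (Fin N) ℂ[X]) : MX N) *ᵥ (σ *ᵥ cv ℂ[X] v) - μ • F =
      ((P⁻¹ : GL (Fin N) ℂ[X]) : MX N) *ᵥ ((σ - b) *ᵥ cv ℂ[X] v) := by
    rw [Matrix.sub_mulVec, Matrix.mulVec_sub, hμ, Matrix.mulVec_smul, hF]
  have h5 : (((gO κ)⁻¹ : GL (Fin N) KK) : MK N) =
      (((gT P)⁻¹ : GL (Fin N) KK) : MK N) * ((γ⁻¹ : GL (Fin N) KK) : MK N) := by
    rw [← hP, mul_inv_rev, Units.val_mul]
  refine ⟨μ, ν, ?_, ?_⟩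
  · obtain ⟨ξ, hξ⟩ := MOrd.exists_cm (Y := ((P⁻¹ : GL (Fin N) ℂ[X]) : MX N) * (σ - b) *
        (P : MX N) + Y) (by
      have h6 : (σ - b).map iT = c + ((γ⁻¹ : GL (Fin N) KK) : MK N) * (a₀ + a) *
          (γ : MK N) := by
        rw [Matrix.map_sub _ (map_sub iT), sub_eq_iff_eq_add.1 e, Matrix.mul_add, Matrix.add_mul]
        abel
      have h7 : (gO κ : Matrix (Fin N) (Fin N) KK) = (γ : MK N) * (gT P : MK N) := by
        rw [← hP, Units.val_mul]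
      rw [Matrix.map_add _ (map_add iT), map_iT_mul, map_iT_mul, h6, ← coe_gT_inv, ← coe_gT,
        Matrix.mul_add, Matrix.add_mul, h₂, ← Matrix.mul_assoc, ← Matrix.mul_assoc, ← h5,
        Matrix.mul_assoc _ (γ : MK N), ← h7, add_right_comm, sub_add_cancel]
      exact h₁.add (((mOrd_iO _).mul₀ (ha₀.add ha')).mul₀ (mOrd_iO _)))
    have h8 := congrArg (· *ᵥ F) hξ
    simp only [Matrix.add_mulVec] at h8
    rw [← eq_sub_iff_add_eq, hF, Matrix.mulVec_mulVec, Units.mul_inv_cancel_right,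
      ← Matrix.mulVec_mulVec, ← hF] at h8
    rw [h4, h8]
    exact Submodule.sub_mem _ (Submodule.subset_span (Or.inr ⟨ξ, rfl⟩)) (hF ▸ h₃)
  · rw [h4, hF, iT_mulVec, iT_mulVec, iT_mulVec, iT_cv, ← coe_gT_inv, ← Matrix.mulVec_smul, ← hν,
      h5, ← Matrix.mulVec_mulVec, ← Matrix.mulVec_add, Matrix.map_sub _ (map_sub iT)]
    congr 1
    rw [Matrix.mulVec_mulVec, Matrix.mulVec_mulVec, ← Matrix.add_mulVec]
    congr 1
    abel

/-- The matrix with coordinates `z` in the subquotient. -/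
def SQ.liftM {h g : Submodule ℂ (Mt N)} (T : SQ (vs h) (vs g) k) (R : Type) [CommRing R]
    [Algebra ℂ R] : (k → R) →ₗ[R] Matrix (Fin N) (Fin N) R :=
  (vec R).symm.toLinearMap ∘ₗ (cm R T.B).mulVecLin

namespace SQ

variable {h g : Submodule ℂ (Mt N)} (T : SQ (vs h) (vs g) k)
variable {R S : Type} [CommRing R] [Algebra ℂ R] [CommRing S] [Algebra ℂ S]

theorem vec_liftM (z : k → R) : vec R (T.liftM R z) = cm R T.B *ᵥ z := rfl

theorem liftM_map (ψ : R →ₗ[ℂ] S) (z : k → R) : (T.liftM R z).map ψ = T.liftM S (ψ ∘ z) :=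
  (vec S).injective (comp_cm_mulVec ψ T.B z)

theorem liftM_mem (z : k → R) : T.liftM R z ∈ bcM g R := vec_mem_bc.1 (T.B_mem' z)

theorem mOrd_liftM {j : ℤ} {z : k → KK} (hz : ∀ i, Ord j (z i)) : MOrd j (T.liftM KK z) :=
  fun a b => by
    have := ord_mulVec (mOrd_cm T.B) hz (a, b)
    rwa [zero_add] at this

theorem eq_zero_of_liftM_mem {z : k → ℂ} (hz : T.liftM ℂ z ∈ h) : z = 0 := by
  have := T.L_ker _ (vec_mem_vs.2 hz)
  rwa [vec_liftM, cm_self, Matrix.mulVec_mulVec, T.LB, Matrix.one_mulVec] at this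

theorem liftM_sub_mem {γ : GL (Fin N) R} (h₁ : Pres (vs h) ((adRep (Fin N)).ρ R γ))
    (h₂ : Pres (vs g) ((adRep (Fin N)).ρ R γ)) (z : k → R) :
    T.liftM R z - ((γ⁻¹ : GL (Fin N) R) : Matrix (Fin N) (Fin N) R) *
      T.liftM R (T.π ((adRep (Fin N)).ρ R γ) *ᵥ z) * (γ : Matrix (Fin N) (Fin N) R) ∈ bcM h R := by
  have hp := h₂.inv (g := (adRep (Fin N)).ρU R γ)
  have hp' := h₁.inv (g := (adRep (Fin N)).ρU R γ)
  rw [NatRep.coe_ρU_inv] at hp hp'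
  have hc := conj_mem_of_pres (g := γ⁻¹) hp (T.liftM_mem (T.π ((adRep (Fin N)).ρ R γ) *ᵥ z))
  have h3 := adRep_mulVec γ⁻¹ (T.liftM R (T.π ((adRep (Fin N)).ρ R γ) *ᵥ z))
  rw [inv_inv] at hc h3
  refine vec_mem_bc.1 (T.mem_of_L_eq_zero
    (vec_mem_bc.2 (Submodule.sub_mem _ (T.liftM_mem z) hc)) ?_)
  rw [map_sub, ← h3, Matrix.mulVec_sub, T.L_mulVec hp' (vec_mem_bc.2 (T.liftM_mem _)), vec_liftM,
    vec_liftM, Matrix.mulVec_mulVec, Matrix.mulVec_mulVec _ (cm R T.L), T.LB', Matrix.one_mulVec,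
    Matrix.one_mulVec, Matrix.mulVec_mulVec, ← T.π_mul hp' h₂, NatRep.ρ_inv_mul, T.π_one,
    Matrix.one_mulVec, sub_self]

end SQ

theorem ord_zero_of_mul {e : ℤ} {ν x : KK} (hx : HasVal e x) (h : Ord e (ν * x)) : Ord 0 ν := by
  by_cases h0 : ν = 0
  · rw [h0]; exact ord_zero 0
  · obtain ⟨b, hb⟩ := exists_hasVal h0
    have := (hb.mul hx).le h
    exact hb.1.mono (by omega)

theorem co_mul_succ {e : ℤ} {ν x : KK} (hν : Ord 0 ν) (hx : Ord e x) :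
    co (e + 1) (ν * x) = co 0 ν * co (e + 1) x + co 1 ν * co e x := by
  have h1 : Ord 1 (ν - algebraMap ℂ KK (co 0 ν)) := fun l hl => by
    rw [map_sub, co_algebraMap]
    split_ifs with h
    · rw [h, sub_self]
    · rw [hν l (by omega), sub_zero]
  have h2 := h1.co_mul hx
  rw [sub_mul, map_sub, map_sub, co_algebraMap, if_neg one_ne_zero, sub_zero, ← Algebra.smul_def,
    map_smul, smul_eq_mul, add_comm 1 e, sub_eq_iff_eq_add] at h2
  rw [h2, add_comm]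

theorem triv_rep {M : Type} [Fintype M] [DecidableEq M] (ρ : NatRep M n) {γ : GL M KK}
    {P : GL M ℂ[X]} {κ : GL M ℂ⟦X⟧} (h : γ * gT P = gO κ) :
    ρ.ρ KK γ * (ρ.ρ ℂ[X] P).map iT = (ρ.ρ ℂ⟦X⟧ κ).map iO := by
  have h1 := ρ.nat _ _ (iT : ℂ[X] →+* KK) P
  have h2 := ρ.nat _ _ (iO : ℂ⟦X⟧ →+* KK) κ
  rw [RingHom.coe_coe] at h1 h2
  rw [h1, h2, ← map_mul, h]

end Kol68
end

-- merged part: Pool.Agent.Work.MP_c53807_ag.High
section
/-!
The curve of a generic loop when the orbit has dimension at least three.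
-/

open scoped Matrix PowerSeries Polynomial LinearAlgebra.Projectivization

namespace Kol68

variable {N : ℕ} {n k : Type} [Fintype n] [DecidableEq n] [Fintype k] [DecidableEq k]

theorem one_le_deg {ι : Type} (i : ι) (F : Fin N → ℂ[X]) (e : ℕ)
    (hdeg : ∀ j, (F j).natDegree ≤ e) (S : ι → Fin N → ℂ[X])
    (ha : LinearIndependent ℂ fun (o : Option ι) (j : Fin N) => (o.elim F S j).eval 1)
    (hb : ∃ μ : ℂ[X], (Polynomial.X : ℂ[X]) • S i - μ • F ∈ varS F) : 1 ≤ e := by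
  by_contra he
  obtain rfl : e = 0 := by omega
  obtain ⟨μ, hμ⟩ := hb
  have key : ∀ f : ℂ[X], f.natDegree ≤ 0 → f.eval 0 = f.eval 1 := fun f hf => by
    rw [Polynomial.eq_C_of_natDegree_le_zero hf]; simp
  have h1 := ha.comp ![none, some i] (by
    intro a b; fin_cases a <;> fin_cases b <;> simp)
  have h2 : (fun (o : Option ι) (j : Fin N) => (o.elim F S j).eval 1) ∘ ![none, some i] =
      ![fun j => (F j).eval 1, fun j => (S i j).eval 1] := by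
    ext a : 1; fin_cases a <;> rfl
  rw [h2, LinearIndependent.pair_iff] at h1
  refine one_ne_zero (h1 (μ.eval 0 - μ.eval 1) 1 ?_).2
  ext j
  have h3 := key _ (natDegree_le_of_mem_varS hdeg hμ j)
  have h4 := key _ (hdeg j)
  simp only [Pi.sub_apply, Pi.smul_apply, smul_eq_mul, Polynomial.eval_sub, Polynomial.eval_mul,
    Polynomial.eval_X, h4] at h3
  simp only [Pi.add_apply, Pi.smul_apply, smul_eq_mul, Pi.zero_apply]
  linear_combination -h3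

/-- The trivial subquotient. -/
def SQ.top (n : Type) [Fintype n] [DecidableEq n] : SQ (⊥ : Submodule ℂ (n → ℂ)) ⊤ n where
  B := 1
  L := 1
  le := bot_le
  LB := Matrix.mul_one _
  B_mem _ := trivial
  L_ker y hy := by simpa using hy
  dec y _ := by simp

theorem co_mulVec {a b : ℤ} {m : Type} {Y : Matrix m n KK} {y : n → KK} (hY : MOrd a Y)
    (hy : ∀ i, Ord b (y i)) :
    co (a + b) ∘ (Y *ᵥ y) = Y.map (co a) *ᵥ (co b ∘ y) := by
  ext i
  simp only [Function.comp_apply, Matrix.mulVec, dotProduct, map_sum, Matrix.map_apply]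
  exact Finset.sum_congr rfl fun j _ => (hY i j).co_mul (hy j)

theorem co_cv (v : n → ℂ) : co 0 ∘ cv KK v = v := by
  ext i; simp [co_algebraMap]

theorem ord_cv (v : n → ℂ) (i : n) : Ord 0 (cv KK v i) := ord_algebraMap _

/-- The constant term. -/
noncomputable abbrev g0 (κ : GL n ℂ⟦X⟧) : GL n ℂ := gmap (PowerSeries.constantCoeff (R := ℂ)) κ

theorem map_co_gO (κ : GL n ℂ⟦X⟧) : ((κ : Matrix n n ℂ⟦X⟧).map iO).map (co 0) =
    (g0 κ : Matrix n n ℂ) := by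
  ext i j
  exact (co_iO_nat 0 _).trans (PowerSeries.coeff_zero_eq_constantCoeff_apply _)

namespace LowData

variable {D : LowData N} {m : ℕ} {η : GL (Fin N) ℂ⟦X⟧} {P : GL (Fin N) ℂ[X]}
  {κ : GL (Fin N) ℂ⟦X⟧}

theorem pres_triv (ρ : NatRep (Fin N) n) {r : Submodule ℂ (n → ℂ)}
    (hr : ∀ ξ ∈ D.h, ρ.dρ ℂ ξ ∈ presA r) (hη : η ∈ expG D.h) (hP0 : evU 0 P = 1)
    (hP : D.γ m η * gT P = gO κ) (h0 : trOn r (Matrix.toLin' (ρ.dρ ℂ D.d)) = 0) :
    Pres r (ρ.ρ ℂ[X] P) := by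
  obtain ⟨T⟩ := exists_SQ (bot_le : ⊥ ≤ r)
  have h1 := hasVal_γ ρ T (fun ξ _ => pres_self.1 (pres_bot _)) hr m hη 0
    (by rw [h0, trOn_bot]; simp)
  rw [mul_zero, neg_zero] at h1
  refine pres_of_val_zero T (ρ.ρU KK (D.γ m η)) (pres_γ ρ hr m hη) h1 (ρ.ρU ℂ[X] P) ?_
    (ρ.ρU ℂ⟦X⟧ κ) (triv_rep ρ hP)
  have h2 := ρ.nat _ _ (Polynomial.evalRingHom 0) P
  rw [show gmap _ P = 1 from hP0, map_one] at h2
  exact h2

theorem tr_eq_zero (ρ : NatRep (Fin N) n) {r : Submodule ℂ (n → ℂ)}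
    (hr : ∀ ξ ∈ D.h, ρ.dρ ℂ ξ ∈ presA r) (hη : η ∈ expG D.h) (hm : 0 < m)
    (hP : D.γ m η * gT P = gO κ) (hp : Pres r (ρ.ρ ℂ[X] P)) {c : ℕ}
    (h0 : trOn r (Matrix.toLin' (ρ.dρ ℂ D.d)) = c) : c = 0 := by
  obtain ⟨T⟩ := exists_SQ (bot_le : ⊥ ≤ r)
  have h1 := hasVal_γ ρ T (fun ξ _ => pres_self.1 (pres_bot _)) hr m hη c
    (by rw [h0, trOn_bot]; simp)
  have h2 := h1.unique (val_zero_of_pres T (ρ.ρU KK (D.γ m η)) (pres_γ ρ hr m hη) (ρ.ρU ℂ[X] P) hp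
    (ρ.ρU ℂ⟦X⟧ κ) (triv_rep ρ hP))
  rw [neg_eq_zero, mul_eq_zero] at h2
  omega

theorem h_le_pres : D.h ≤ Subalgebra.toSubmodule (presA (ℂ ∙ D.v)) :=
  fun ξ hξ => mem_presA_span.2 ((D.mem_h ξ).1 hξ).2

theorem eq_zero_of_liftM (T : SQ (vs D.h) (vs D.g) k) {z : k → ℂ} {c : ℂ}
    (h : T.liftM ℂ z *ᵥ D.v = c • D.v) : z = 0 :=
  T.eq_zero_of_liftM_mem ((D.mem_h _).2 ⟨mem_bcM_self.1 (T.liftM_mem z), c, h⟩)

theorem g_le_lie {G K : Subgroup (GL (Fin N) ℂ)}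
    (hgG : ∀ g ∈ G, (adRep (Fin N)).ρ ℂ g ∈ presA (vs D.g)) (hη : η ∈ expG D.h) (hm : 0 < m)
    (hP : D.γ m η * gT P = gO κ) (hPG : P ∈ pts G ℂ[X]) (hK : D.h ≤ lie K)
    (hPK : P ∈ pts K ℂ[X]) : D.g ≤ lie K := by
  have h1 : Stab D.h (lie K ⊓ D.g) := fun x hx y hy =>
    ⟨lie_stab K x (hK hx) y hy.1, D.g_lie x (D.h_le hx) y hy.2⟩
  rcases D.tr_pos _ inf_le_right h1 with h | ⟨c, hc, h⟩
  · exact inf_eq_right.1 (D.no_ideal _ (le_inf hK D.h_le) inf_le_right h)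
  · refine absurd (tr_eq_zero (adRep (Fin N)) (r := vs (lie K ⊓ D.g))
      (fun ξ hξ => ad_mem_presA_iff.2 (h1 ξ hξ)) hη hm hP (pres_ad_iff.2 fun x hx => ?_)
      ((trOn_vs (h1 _ D.d_mem)).trans h)) hc.ne'
    exact mem_bcM_inf.2 ⟨conj_mem_bcM_lie hPK (cm_mem_bcM hx.1),
      conj_mem_of_pres (pres_of_pt _ hgG hPG) (cm_mem_bcM hx.2)⟩

theorem embeds (T : SQ (vs D.h) (vs D.g) k) (hk : 3 ≤ Fintype.card k) (hη : η ∈ expG D.h)
    {C : Set ℂ} (hv : ∀ i, D.v i ∈ C) (hdec : Decomp D.h (D.γ m η) (logSpan D.h C (D.γ m η)))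
    (κ' : GL k ℂ⟦X⟧) (p : GL k ℂ[X]) (a : k → ℤ)
    (hfac : (tanA T m hη : Matrix k k KK) = (κ' : Matrix k k ℂ⟦X⟧).map iO *
      Matrix.diagonal (fun i => tt ^ a i) * (p : Matrix k k ℂ[X]).map iT) (ha : ∀ i, a i ≤ -1)
    (hP : D.γ m η * gT P = gO κ) (F : Fin N → ℂ[X])
    (hF : F = ((P⁻¹ : GL (Fin N) ℂ[X]) : MX N) *ᵥ cv ℂ[X] D.v) :
    ∃ (e : ℕ) (c₀ : ℂ), 1 ≤ e ∧ (∀ i, (F i).natDegree ≤ e) ∧ c₀ ≠ 0 ∧
      (fun i => (F i).coeff e) = c₀ • ((((g0 κ)⁻¹ : GL (Fin N) ℂ) : Mt N) *ᵥ D.v) ∧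
      (∀ x y c : ℂ, (fun i => (F i).eval x) = c • (fun i => (F i).eval y) → x = y) ∧
      (∀ y c : ℂ, (fun i => (F i).eval y) ≠ c • (fun i => (F i).coeff e)) ∧
      (∀ y c : ℂ, (fun i => (F i).derivative.eval y) ≠ c • (fun i => (F i).eval y)) ∧
      (∀ c : ℂ, (fun i => (F i).coeff (e - 1)) ≠ c • (fun i => (F i).coeff e)) := by
  obtain ⟨c, hc⟩ := exists_smul_of_pres (pres_γ (stdRep (Fin N)) h_le_pres m hη)
  rw [stdRep_ρ] at hc
  have hκ : MOrd 0 (((gO κ)⁻¹ : GL (Fin N) KK) : MK N) := mOrd_iO _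
  have hκ0 : (((gO κ)⁻¹ : GL (Fin N) KK) : MK N).map (co 0) =
      (((g0 κ)⁻¹ : GL (Fin N) ℂ) : Mt N) := map_co_gO κ⁻¹
  have hFc : iT ∘ F = c • ((((gO κ)⁻¹ : GL (Fin N) KK) : MK N) *ᵥ cv KK D.v) := by
    rw [hF, iT_mulVec, iT_cv, ← coe_gT_inv, ← Matrix.mulVec_smul, ← hc, Matrix.mulVec_mulVec, ← hP,
      mul_inv_rev, Units.val_mul, Units.inv_mul_cancel_right]
  have hc0 : c ≠ 0 := by
    rintro rfl
    have h1 := congrArg (fun y => co 0 ∘ ((((D.γ m η)⁻¹ : GL (Fin N) KK) : MK N) *ᵥ y)) hc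
    simp only [Matrix.mulVec_mulVec, Units.inv_mul, Matrix.one_mulVec, zero_smul,
      Matrix.mulVec_zero, co_cv] at h1
    exact D.hv (h1.trans (by ext; simp))
  obtain ⟨b, hb⟩ := exists_hasVal hc0
  have hw : ∀ {j : ℤ} {y : Fin N → KK}, (∀ i, Ord j (y i)) →
      (∀ i, Ord (b + j) ((c • ((((gO κ)⁻¹ : GL (Fin N) KK) : MK N) *ᵥ y)) i)) ∧
      co (b + j) ∘ (c • ((((gO κ)⁻¹ : GL (Fin N) KK) : MK N) *ᵥ y)) =
        co b c • ((((g0 κ)⁻¹ : GL (Fin N) ℂ) : Mt N) *ᵥ (co j ∘ y)) := fun {j y} hy => by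
    have h1 := ord_mulVec hκ hy
    have h2 := co_mulVec hκ hy
    rw [zero_add] at h1 h2
    refine ⟨fun i => hb.1.mul (h1 i), ?_⟩
    rw [← hκ0, ← h2]
    ext i
    exact hb.1.co_mul (h1 i)
  obtain ⟨hF₁, hF₂⟩ := hw (ord_cv D.v)
  rw [add_zero, ← hFc] at hF₁ hF₂
  rw [co_cv] at hF₂
  obtain ⟨i₀, hi₀⟩ := Function.ne_iff.1
    (hF₂ ▸ smul_ne_zero hb.2 (mulVec_ne_zero (g0 κ)⁻¹ D.hv) : co b ∘ iT ∘ F ≠ 0)
  obtain ⟨e, rfl⟩ : ∃ e : ℕ, b = -e := by
    refine ⟨(-b).toNat, ?_⟩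
    by_contra h
    exact hi₀ (inT_iT _ b (by omega))
  have hdeg : ∀ i, (F i).natDegree ≤ e := fun i => natDegree_le_of_ord _ (hF₁ i)
  have hcoe : ∀ (l : ℕ) (R : Fin N → ℂ[X]), (fun i => (R i).coeff l) = co (-l) ∘ iT ∘ R :=
    fun l R => funext fun i => (co_iT_nat l _).symm
  let z : k → k → ℂ[X] := fun i => ((p⁻¹ : GL k ℂ[X]) : Matrix k k ℂ[X]) *ᵥ Pi.single i 1
  let S : k → Fin N → ℂ[X] := fun i =>
    ((P⁻¹ : GL (Fin N) ℂ[X]) : MX N) *ᵥ (T.liftM ℂ[X] (z i) *ᵥ cv ℂ[X] D.v)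
  have hsec : ∀ (i : k) (q : ℂ[X]), Ord 0 (tt ^ a i * iT q) → ∃ (μ : ℂ[X]) (ν : KK),
      q • S i - μ • F ∈ varS F ∧ iT ∘ (q • S i - μ • F) =
        c • ((((gO κ)⁻¹ : GL (Fin N) KK) : MK N) *ᵥ (T.liftM KK ((κ' : Matrix k k ℂ⟦X⟧).map iO *ᵥ
          Pi.single i (tt ^ a i * iT q)) *ᵥ cv KK D.v)) + ν • (iT ∘ F) := by
    intro i q hq
    have h1 := T.liftM_sub_mem (pres_γ _ ad_h m hη) (pres_γ _ ad_g m hη) (iT ∘ (q • z i))
    have h2 : T.π ((adRep (Fin N)).ρ KK (D.γ m η)) *ᵥ (iT ∘ (q • z i)) =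
        (κ' : Matrix k k ℂ⟦X⟧).map iO *ᵥ Pi.single i (tt ^ a i * iT q) := by
      change (tanA T m hη : Matrix k k KK) *ᵥ _ = _
      rw [hfac, ← Matrix.mulVec_smul, iT_mulVec, Matrix.mulVec_mulVec, Matrix.mul_assoc,
        map_iT_mul_inv, Matrix.mul_one, ← Matrix.mulVec_mulVec]
      congr 1
      ext j : 1
      rw [Matrix.mulVec_diagonal]
      by_cases h : j = i <;> simp [h]
    rw [h2] at h1
    erw [← T.liftM_map iT.toLinearMap] at h1
    obtain ⟨μ, ν, h₃, h₄⟩ := section_lemma h_le_pres hv hdec hP hF _ (T.mOrd_liftM fun j => by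
      simpa using ord_mulVec (mOrd_iO (κ' : Matrix k k ℂ⟦X⟧)) (b := 0)
        (y := Pi.single i (tt ^ a i * iT q)) (fun l => by
          by_cases h : l = i
          · simpa [h] using hq
          · simpa [h] using ord_zero 0) j) h1
    rw [map_smul, Matrix.smul_mulVec, Matrix.mulVec_smul] at h₃ h₄
    rw [hc, Matrix.mulVec_smul, Matrix.mulVec_smul] at h₄
    exact ⟨μ, ν, h₃, h₄⟩
  have hsec' : ∀ (i : k) (q : ℂ[X]), Ord 1 (tt ^ a i * iT q) → ∃ (μ : ℂ[X]) (ν ν' : ℂ),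
      q • S i - μ • F ∈ varS F ∧
      co (-e) ∘ iT ∘ (q • S i - μ • F) = ν • co (-e) ∘ iT ∘ F ∧
      co (-e + 1) ∘ iT ∘ (q • S i - μ • F) = co (-e) c • ((((g0 κ)⁻¹ : GL (Fin N) ℂ) : Mt N) *ᵥ
        (T.liftM ℂ ((g0 κ' : Matrix k k ℂ) *ᵥ Pi.single i (co 1 (tt ^ a i * iT q))) *ᵥ D.v)) +
        ν • co (-e + 1) ∘ iT ∘ F + ν' • co (-e) ∘ iT ∘ F := by
    intro i q hq
    obtain ⟨μ, ν, h₁, h₂⟩ := hsec i q (hq.mono zero_le_one)
    have h3 : ∀ l, Ord 1 ((Pi.single i (tt ^ a i * iT q) : k → KK) l) := fun l => by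
      by_cases h : l = i
      · simpa [h] using hq
      · simpa [h] using ord_zero 1
    have h4 := ord_mulVec (mOrd_iO (κ' : Matrix k k ℂ⟦X⟧)) h3
    have h5 := co_mulVec (mOrd_iO (κ' : Matrix k k ℂ⟦X⟧)) h3
    rw [zero_add] at h4 h5
    have h6 := ord_mulVec (T.mOrd_liftM h4) (ord_cv D.v)
    have h7 := co_mulVec (T.mOrd_liftM h4) (ord_cv D.v)
    rw [add_zero] at h6 h7
    obtain ⟨h8, h9⟩ := hw h6
    have h10 : co 1 ∘ (Pi.single i (tt ^ a i * iT q) : k → KK) =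
        Pi.single i (co 1 (tt ^ a i * iT q)) := by
      ext l; by_cases h : l = i <;> simp [h]
    rw [h7, co_cv, T.liftM_map, h5, map_co_gO, h10] at h9
    have hν : Ord 0 ν := ord_zero_of_mul ⟨hF₁ i₀, hi₀⟩ (by
      have := (ord_iT _ (natDegree_le_of_mem_varS hdeg h₁ i₀)).sub ((h8 i₀).mono (by omega))
      rw [show iT _ = _ from congrFun h₂ i₀, Pi.add_apply, add_sub_cancel_left] at this
      exact this)
    refine ⟨μ, co 0 ν, co 1 ν, h₁, ?_, ?_⟩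
    · rw [h₂]
      ext j
      have := hν.co_mul (hF₁ j)
      rw [zero_add] at this
      rw [Function.comp_apply, Pi.add_apply, map_add, h8 j _ (by omega), zero_add]
      exact this
    · rw [h₂, ← h9, add_assoc]
      ext j
      rw [Function.comp_apply, Pi.add_apply, map_add]
      exact congrArg _ (co_mul_succ hν (hF₁ j))
  have hind : ∀ y : ℂ,
      LinearIndependent ℂ fun (o : Option k) (j : Fin N) => (o.elim F S j).eval y := fun y => by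
    rw [Fintype.linearIndependent_iff]
    intro g hg
    let ψ := (Polynomial.aeval y : ℂ[X] →ₐ[ℂ] ℂ)
    have e₁ : ∀ (w : Fin N → ℂ[X]), ψ ∘ (((P⁻¹ : GL (Fin N) ℂ[X]) : MX N) *ᵥ w) =
        (((evU y P)⁻¹ : GL (Fin N) ℂ) : Mt N) *ᵥ (ψ ∘ w) := fun w =>
      funext fun i => RingHom.map_mulVec (ψ : ℂ[X] →+* ℂ) _ _ i
    have e₂ : (fun j => (F j).eval y) = (((evU y P)⁻¹ : GL (Fin N) ℂ) : Mt N) *ᵥ D.v := by
      rw [hF]; exact eval_mulVec P⁻¹ y
    let p₀ : GL k ℂ := gmap (Polynomial.evalRingHom y) p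
    have e₃ : ∀ i, (fun j => (S i j).eval y) = (((evU y P)⁻¹ : GL (Fin N) ℂ) : Mt N) *ᵥ
        (T.liftM ℂ (((p₀⁻¹ : GL k ℂ) : Matrix k k ℂ) *ᵥ Pi.single i 1) *ᵥ D.v) := fun i => by
      refine (e₁ _).trans (congrArg _ ((comp_mulVec_cv ψ.toLinearMap _ _).trans ?_))
      rw [T.liftM_map, cv_self]
      congr 2
      have e₄ : ψ ∘ (Pi.single i 1 : k → ℂ[X]) = Pi.single i 1 := by
        ext j; by_cases h : j = i <;> simp [h]
      rw [← e₄]
      exact funext fun j => RingHom.map_mulVec (ψ : ℂ[X] →+* ℂ) _ _ j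
    rw [Fintype.sum_option] at hg
    simp only [Option.elim_none, Option.elim_some, e₂, e₃] at hg
    have h1 : T.liftM ℂ (((p₀⁻¹ : GL k ℂ) : Matrix k k ℂ) *ᵥ fun i => g (some i)) *ᵥ D.v =
        (-g none) • D.v := by
      have h2 := congrArg (fun w => (evU y P : Mt N) *ᵥ w) hg
      simp only [Matrix.mulVec_add, Matrix.mulVec_sum, Matrix.mulVec_smul, Matrix.mulVec_zero,
        Matrix.mulVec_mulVec D.v (evU y P : Mt N), Matrix.mulVec_mulVec _ (evU y P : Mt N),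
        Units.mul_inv, Matrix.one_mulVec] at h2
      rw [neg_smul, eq_neg_iff_add_eq_zero, add_comm, ← h2, pi_eq_sum_univ' fun i => g (some i)]
      simp only [Matrix.mulVec_sum, Matrix.mulVec_smul, map_sum, map_smul, Matrix.sum_mulVec,
        Matrix.smul_mulVec]
    have h2 := eq_zero_of_liftM T h1
    have h3 : (fun i => g (some i)) = 0 := by
      by_contra h
      have := congrArg (fun w => (p₀ : Matrix k k ℂ) *ᵥ w) h2
      simp only [Matrix.mulVec_mulVec, Units.mul_inv, Matrix.one_mulVec, Matrix.mulVec_zero] at this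
      exact h this
    rw [h2, map_zero, Matrix.zero_mulVec, eq_comm, smul_eq_zero, neg_eq_zero] at h1
    rintro (_ | i)
    · exact h1.resolve_right D.hv
    · exact congrFun h3 i
  have hb' : ∀ i (q : ℂ[X]), q.natDegree ≤ 1 → ∃ μ : ℂ[X], q • S i - μ • F ∈ varS F :=
    fun i q hq => by
      obtain ⟨μ, -, h, -⟩ := hsec i q (ord_tt_mul_iff.2 ((ord_iT q hq).mono (by
        have := ha i; omega)))
      exact ⟨μ, h⟩
  obtain ⟨i₁⟩ : Nonempty k := Fintype.card_pos_iff.1 (by omega)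
  have he := one_le_deg i₁ F e hdeg S (hind 1) (hb' i₁ _ (by simp))
  have he' : -((e - 1 : ℕ) : ℤ) = -e + 1 := by omega
  refine ⟨e, co (-e) c, he, hdeg, hb.2, (hcoe e F).trans hF₂, emb hk F e S hind hb'
    (fun i => ?_) ?_⟩
  · obtain ⟨μ, ν, -, h₁, h₂, -⟩ := hsec' i 1 (by
      rw [map_one, mul_one]; exact (ord_tt_zpow _).mono (by have := ha i; omega))
    rw [one_smul] at h₁ h₂
    exact ⟨μ, ν, h₁, by rw [hcoe, hcoe, h₂]⟩
  · have h1 : tt ^ a i₁ * iT (Polynomial.X ^ (-a i₁ - 1).toNat) = tt ^ (-1 : ℤ) := by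
      rw [map_pow, iT_X, ← zpow_natCast, ← zpow_add₀ tt_ne_zero]
      congr 1
      have := ha i₁; omega
    obtain ⟨μ, ν, ν', h₁, h₂, h₃⟩ := hsec' i₁ (Polynomial.X ^ (-a i₁ - 1).toNat) (by
      rw [h1]; simpa using ord_tt_zpow (-1))
    refine ⟨_, h₁, ν, ν', _, by rw [hcoe, hcoe, h₂], by rw [hcoe, hcoe, hcoe, he', h₃],
      fun c' h => ?_⟩
    have h2 : co 1 (tt ^ (-1 : ℤ)) = 1 := by simpa using co_tt_zpow (-1)
    rw [hcoe, hF₂, h1, h2, smul_comm c', ← Matrix.mulVec_smul _ c'] at h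
    have h3 := congrArg (fun w => (g0 κ : Mt N) *ᵥ w) (smul_right_injective _ hb.2 h)
    simp only [Matrix.mulVec_mulVec _ (g0 κ : Mt N), Units.mul_inv, Matrix.one_mulVec] at h3
    have h4 := congrArg (fun w => ((((g0 κ')⁻¹ : GL k ℂ) : Matrix k k ℂ) *ᵥ w) i₁)
      (eq_zero_of_liftM T h3)
    simp only [Matrix.mulVec_mulVec, Units.inv_mul, Matrix.one_mulVec, Matrix.mulVec_zero] at h4
    simp at h4

end LowData

theorem finrank_vs (s : Submodule ℂ (Mt N)) : Module.finrank ℂ (vs s) = Module.finrank ℂ s :=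
  LinearEquiv.finrank_map_eq _ _

theorem high_curve {G : Subgroup (GL (Fin N) ℂ)} (hG : GLClosed (G : Set (GL (Fin N) ℂ)))
    (x₀ : ℙ ℂ (Fin N → ℂ)) (D : LowData N) (hg : D.g ≤ lie G)
    (hgG : ∀ g ∈ G, (adRep (Fin N)).ρ ℂ g ∈ presA (vs D.g)) (hh : D.h = hS G x₀.rep)
    (hv : D.v = x₀.rep) (hdim : Module.finrank ℂ D.h + 3 ≤ Module.finrank ℂ D.g)
    (htr : trOn (subG G) (Matrix.toLin' ((repG G).dρ ℂ D.d)) = 0) : GoodCurve G x₀ D.g := by
  obtain ⟨T⟩ := exists_SQ (vs_mono D.h_le)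
  have hk := T.card_eq
  obtain ⟨C₁, hC₁, ρ, hρ, Hser⟩ := D.series ⊤ fun _ _ _ _ => trivial
  let C : Set ℂ := C₁ ∪ (Set.range (fun ij : _ × _ => T.B ij.1 ij.2) ∪
    (Set.range (fun ij : _ × _ => T.L ij.1 ij.2) ∪ Set.range D.v))
  have hC : C.Countable := (hC₁.union ((Set.finite_range _).union
    ((Set.finite_range _).union (Set.finite_range _)))).countable
  generalize hs : Fintype.card (Fin (Module.finrank ℂ (vs D.g) - Module.finrank ℂ (vs D.h))) = s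
    at hk
  rw [finrank_vs, finrank_vs] at hk
  have hm : 0 < ρ * s ^ 2 := Nat.mul_pos hρ (pow_pos (by omega) 2)
  obtain ⟨η, hη, hdec⟩ := exists_generic D.h D.h_lie D.Q D.a D.dg_mem (ρ * s ^ 2 : ℕ) C hC
  obtain ⟨κ', p, a, hfac⟩ := birkhoff (LowData.tanA T (ρ * s ^ 2) hη)
  have ha := LowData.amp T (hs ▸ Nat.le_mul_of_pos_left _ hρ) hη
    (fun i j => Or.inr (Or.inl ⟨(i, j), rfl⟩)) (fun i j => Or.inr (Or.inr (Or.inl ⟨(i, j), rfl⟩)))
    hdec κ' p a hfac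
  have hdg := (LowData.decomp_g T hη κ' p a hfac fun i => by have := ha i; omega).trans D.h_le hdec
  have hdet := LowData.hasVal_γ (stdRep (Fin N)) (SQ.top (Fin N))
    (fun ξ _ => pres_self.1 (pres_bot _)) (fun ξ _ => pres_self.1 (pres_top _)) (ρ * s ^ 2) hη 0
    (by rw [stdRep_dρ, D.tr_V ⊤ fun _ _ _ _ => trivial, trOn_bot]; simp)
  obtain ⟨P, κ, hP0, hPκ⟩ := exists_trivialization (D.γ (ρ * s ^ 2) η)
    (fun q hq => Hser _ η (dvd_mul_right _ _) hη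
      (hdg.mono (logSpan_anti Set.subset_union_left _)) q (mem_bc_top _) hq)
    (by simpa [SQ.π, SQ.top] using hdet)
  have hP : D.γ (ρ * s ^ 2) η * gT P = gO κ := Units.ext hPκ
  have hP0' : evU 0 P = 1 := Units.ext hP0
  have hhG : ∀ ξ ∈ D.h, (repG G).dρ ℂ ξ ∈ presA (subG G) := fun ξ hξ => hg (D.h_le hξ)
  have hPG : P ∈ pts G ℂ[X] := (pt_iff G P).2 (LowData.pres_triv _ hhG hη hP0' hP htr)
  have hκG : κ ∈ pts G ℂ⟦X⟧ := Pt.of_map iO iO_injective (by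
    have := (pts G KK).mul_mem ((pt_iff G _).2 (LowData.pres_γ _ hhG (ρ * s ^ 2) hη))
      (show gT P ∈ pts G KK from Pt.map hPG iT)
    rwa [hP] at this)
  have hκ0 : g0 κ ∈ G := Pt.mem hG (Pt.map hκG
    { PowerSeries.constantCoeff (R := ℂ) with commutes' := fun c => by simp })
  obtain ⟨e, c₀, he, hdeg, hc₀, hinf, h₁, h₂, h₃, h₄⟩ := LowData.embeds T (by omega) hη
    (fun i => Or.inr (Or.inr (Or.inr ⟨i, rfl⟩))) hdec κ' p a hfac ha hP _ rfl
  refine goodCurve_of_poly hG x₀ P⁻¹ ((pts G _).inv_mem hPG) 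
    (by rw [evU, gmap_inv, show gmap _ P = 1 from hP0', inv_one])
    _ (by rw [hv]) e he hdeg (G.inv_mem hκ0) hc₀ (hv ▸ hinf) h₁ h₂ h₃ h₄ fun K hK hPK => ?_
  exact LowData.g_le_lie hgG hη hm hP hPG (hh ▸ hK) (by simpa using (pts K _).inv_mem hPK)

end Kol68
end

-- merged part: Pool.Agent.Work.MP_c53807_ag.PosD
section
/-!
Existence of a positive integral element of the stabiliser.
-/

open scoped Matrix

namespace Kol68

variable {N : ℕ} {G : Subgroup (GL (Fin N) ℂ)} {v : Fin N → ℂ}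

theorem adjoin_le_presA {n : Type} [Fintype n] [DecidableEq n] {r : Submodule ℂ (n → ℂ)}
    {M : Matrix n n ℂ} (h : M ∈ presA r) : Algebra.adjoin ℂ {M} ≤ presA r :=
  Algebra.adjoin_le (by simpa using h)

theorem exists_replica' (ξ : Mt N) : ∃ (Q : GL (Fin N) ℂ) (δ : Fin N → ℂ), ∀ f : ℂ →+ ℂ,
    (ξ ∈ hS G v → dg Q (f ∘ δ) ∈ hS G v) ∧ ∀ S : Sub N, S.P.dρ ℂ ξ ∈ presA S.r →
      S.P.dρ ℂ (dg Q (f ∘ δ)) ∈ presA S.r ∧ S.χ (dg Q (f ∘ δ)) = f (S.χ ξ) := by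
  obtain ⟨Q, δ, h⟩ := exists_replica ξ
  refine ⟨Q, δ, fun f => ⟨fun hξ => ⟨?_, ?_⟩, fun S hS => ⟨?_, (h f _ S.P).2 _ hS⟩⟩⟩
  · exact adjoin_le_presA hξ.1 (h f _ (repG G)).1
  · exact adjoin_le_presA hξ.2 (h f _ (stdRep (Fin N))).1
  · exact adjoin_le_presA hS (h f _ S.P).1

/-- A `ℚ`-linear map `ℂ → ℚ` as an additive map `ℂ → ℂ`. -/
noncomputable def ratF (f : ℂ →ₗ[ℚ] ℚ) : ℂ →+ ℂ := (Rat.castHom ℂ).toAddMonoidHom.comp f.toAddMonoidHom

theorem ratF_apply (f : ℂ →ₗ[ℚ] ℚ) (x : ℂ) : ratF f x = (f x : ℂ) := rfl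

theorem exists_int_replica (ξ : Mt N) : ∃ (Q : GL (Fin N) ℂ) (a : Fin N → ℤ) (M : ℕ), 0 < M ∧
    (ξ ∈ hS G v → (dg Q fun i => (a i : ℂ)) ∈ hS G v) ∧ ∀ S : Sub N, S.P.dρ ℂ ξ ∈ presA S.r →
      S.P.dρ ℂ (dg Q fun i => (a i : ℂ)) ∈ presA S.r ∧
        ∀ q : ℚ, S.χ ξ = q → S.χ (dg Q fun i => (a i : ℂ)) = M * q := by
  obtain ⟨Q, δ, h⟩ := exists_replica' (G := G) (v := v) ξ
  obtain ⟨f₁, hf₁⟩ : ∃ f : ℂ →ₗ[ℚ] ℚ, f 1 ≠ 0 := by
    by_contra hc
    push Not at hc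
    exact one_ne_zero ((Module.forall_dual_apply_eq_zero_iff ℚ (1 : ℂ)).1 hc)
  obtain ⟨M, hM⟩ := IsLocalization.exist_integer_multiples_of_finite (nonZeroDivisors ℤ)
    (fun i => (f₁ 1)⁻¹ * f₁ (δ i))
  have hM0 : (M : ℤ) ≠ 0 := nonZeroDivisors.coe_ne_zero M
  choose a ha using hM
  let f : ℂ →ₗ[ℚ] ℚ := (((M : ℤ) * (M : ℤ) : ℤ) * (f₁ 1)⁻¹ : ℚ) • f₁
  have hδ : ratF f ∘ δ = fun i => (((M : ℤ) * a i : ℤ) : ℂ) := by
    ext i
    have := ha i
    simp only [eq_intCast, zsmul_eq_mul] at this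
    have h2 : f (δ i) = (((M : ℤ) * a i : ℤ) : ℚ) := by
      simp only [f, LinearMap.smul_apply, smul_eq_mul]; push_cast; rw [this]; ring
    rw [Function.comp_apply, ratF_apply, h2]; simp
  refine ⟨Q, fun i => (M : ℤ) * a i, (M : ℤ).natAbs * (M : ℤ).natAbs,
    Nat.mul_pos (Int.natAbs_pos.2 hM0) (Int.natAbs_pos.2 hM0), ?_, fun S hS => ?_⟩
  · rw [← hδ]; exact (h _).1
  · rw [← hδ]
    refine ⟨((h _).2 S hS).1, fun q hq => ?_⟩
    rw [((h _).2 S hS).2, hq, ratF_apply]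
    have h1 : f (q : ℂ) = (((M : ℤ) * (M : ℤ) : ℤ) : ℚ) * q := by
      have : (q : ℂ) = q • (1 : ℂ) := by simp
      rw [this, map_smul]
      simp only [f, LinearMap.smul_apply, smul_eq_mul]
      field_simp
    rw [h1]
    have h2 : (((M : ℤ).natAbs * (M : ℤ).natAbs : ℕ) : ℤ) = (M : ℤ) * (M : ℤ) := by
      rw [Nat.cast_mul, Int.natAbs_mul_self']
    have h3 : (((M : ℤ).natAbs * (M : ℤ).natAbs : ℕ) : ℂ) = (((M : ℤ) * (M : ℤ) : ℤ) : ℂ) := by
      rw [← h2, Int.cast_natCast]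
    rw [h3]; push_cast; ring

theorem Sub.χ_int (S : Sub N) (Q : GL (Fin N) ℂ) (a : Fin N → ℤ)
    (h : S.P.dρ ℂ (dg Q fun i => (a i : ℂ)) ∈ presA S.r) :
    ∃ c : ℤ, S.χ (dg Q fun i => (a i : ℂ)) = c := by
  have e : wtS S.P (fun i => (a i : ℂ)) = fun j => ((wtS S.P a j : ℤ) : ℂ) :=
    (map_wtS S.P (Int.castAddHom ℂ) a).symm
  rw [χ_apply]
  rw [dρ_dg, e] at h ⊢
  exact trOn_dg_int _ _ _ h

/-- A representation with its index type. -/
structure BRep (N : ℕ) where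
  n : Type
  [fin : Fintype n]
  [dec : DecidableEq n]
  P : NatRep (Fin N) n

attribute [instance] BRep.fin BRep.dec

/-- A subspace of a bundled representation. -/
abbrev BRep.sub (B : BRep N) (r : Submodule ℂ (B.n → ℂ)) : Sub N := ⟨B.n, B.P, r⟩

/-- `d` has trace zero on `G`-stable subspaces and positive trace on the other stable ones. -/
def PosOn (G : Subgroup (GL (Fin N) ℂ)) (v : Fin N → ℂ) (d : Mt N) (B : BRep N) : Prop :=
  ∀ r, (B.sub r).St (hS G v) → ((B.sub r).GSt G → (B.sub r).χ d = 0) ∧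
    (¬ (B.sub r).GSt G → ∃ c : ℕ, 0 < c ∧ (B.sub r).χ d = c)

theorem finite_chars {β : Type} [Fintype β] (B : β → BRep N) :
    {χ : Module.Dual ℂ (hS G v) | ∃ b r, ((B b).sub r).St (hS G v) ∧
      χ = ((B b).sub r).χ.domRestrict (hS G v)}.Finite := by
  let e := Module.finBasis ℂ (hS G v)
  have h1 : (Set.pi Set.univ fun i => ⋃ b, {c | ∃ r, (B b).P.dρ ℂ (e i : Mt N) ∈ presA r ∧
      c = trOn r (Matrix.toLin' ((B b).P.dρ ℂ (e i : Mt N)))}).Finite :=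
    Set.Finite.pi fun i => Set.finite_iUnion fun b => finite_trOn _
  refine Set.Finite.of_finite_image (f := fun χ i => χ (e i)) (h1.subset ?_)
    (fun x _ y _ h => e.ext (congrFun h))
  rintro _ ⟨_, ⟨b, r, hr, rfl⟩, rfl⟩ i _
  exact Set.mem_iUnion.2 ⟨b, r, hr _ (e i).2, rfl⟩

theorem exists_realize {F : Set (Module.Dual ℂ (hS G v))} (hF : F.Finite)
    (hF' : ∀ χ ∈ F, ∃ S : Sub N, S.St (hS G v) ∧ χ = S.χ.domRestrict (hS G v))
    (θ : Module.Dual ℂ (hS G v) →ₗ[ℚ] ℚ) : ∃ ξ : hS G v, ∀ χ ∈ F, χ ξ = θ χ := by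
  have : Fintype F := hF.fintype
  let E : hS G v →ₗ[ℂ] (F → ℂ) := LinearMap.pi fun χ => χ.1
  have key : (fun χ : F => (θ χ.1 : ℂ)) ∈ LinearMap.range E := by
    rw [← mem_bc_self, mem_bc_iff_dot]
    intro l hl
    refine (Module.forall_dual_apply_eq_zero_iff ℚ _).1 fun f => ?_
    have h1 : ∑ χ : F, f (l χ) • χ.1 = 0 := by
      ext ξ
      refine (Module.forall_dual_apply_eq_zero_iff ℚ _).1 fun f' => ?_
      obtain ⟨Q, δ, h⟩ := exists_replica' (G := G) (v := v) (ξ : Mt N)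
      have h2 := congrArg f (hl _ ⟨⟨_, (h (ratF f')).1 ξ.2⟩, rfl⟩)
      simp only [dotProduct, map_sum, map_zero] at h2
      simp only [LinearMap.coe_sum, Finset.sum_apply, LinearMap.smul_apply, map_sum, map_smul]
      rw [← h2]
      refine Finset.sum_congr rfl fun χ _ => ?_
      obtain ⟨S, hS', e⟩ := hF' χ.1 χ.2
      have h3 : E ⟨_, (h (ratF f')).1 ξ.2⟩ χ = (f' (χ.1 ξ) : ℂ) := by
        change χ.1 _ = _
        rw [e]
        exact ((h (ratF f')).2 S (hS' _ ξ.2)).2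
      rw [h3, mul_comm, ← Rat.smul_def, map_smul, smul_eq_mul, smul_eq_mul, mul_comm]
    have h2 := congrArg θ h1
    simp only [map_sum, map_smul, map_zero, smul_eq_mul] at h2
    simp only [dotProduct, map_sum, cv_self]
    rw [← h2]
    refine Finset.sum_congr rfl fun χ _ => ?_
    rw [mul_comm, ← Rat.smul_def, map_smul, smul_eq_mul, mul_comm]
  obtain ⟨ξ, hξ⟩ := key
  exact ⟨ξ, fun χ hχ => congrFun hξ ⟨χ, hχ⟩⟩

theorem exists_pos (hirr : (vanI (G : Set (GL (Fin N) ℂ))).IsPrime) (epi : Epi G v) {β : Type}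
    [Fintype β] (B : β → BRep N) : ∃ (Q : GL (Fin N) ℂ) (a : Fin N → ℤ),
      (dg Q fun i => (a i : ℂ)) ∈ hS G v ∧ ∀ b, PosOn G v (dg Q fun i => (a i : ℂ)) (B b) := by
  classical
  let Pp : Set (Module.Dual ℂ (hS G v)) := {χ | ∃ S : Sub N, (∃ b r, S = (B b).sub r) ∧
    S.St (hS G v) ∧ ¬ S.GSt G ∧ χ = S.χ.domRestrict (hS G v)}
  let Z : Set (Module.Dual ℂ (hS G v)) := {χ | ∃ S : Sub N, S.GSt G ∧
    χ = S.χ.domRestrict (hS G v)}
  have hfin := finite_chars (G := G) (v := v) B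
  have hP : Pp.Finite := hfin.subset (by
    rintro _ ⟨_, ⟨b, r, rfl⟩, h, -, rfl⟩; exact ⟨b, r, h, rfl⟩)
  have : Fintype Pp := hP.fintype
  obtain ⟨θ, hθ, hθ'⟩ := gordan (fun χ : Pp => χ.1) (Submodule.span ℚ Z) (by
    intro q hq hmem i₀
    obtain ⟨k, c, z, hz⟩ := Submodule.mem_span_set'.1 hmem
    choose S hS₀ hS₁ hS₂ hS₃ using fun χ : Pp => χ.2
    choose S' hS'₁ hS'₂ using fun j => (z j).2
    obtain ⟨M, hM⟩ := IsLocalization.exist_integer_multiples_of_finite (nonZeroDivisors ℤ)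
      (Sum.elim q c)
    have hM0 : (M : ℤ) ≠ 0 := nonZeroDivisors.coe_ne_zero M
    choose a ha using hM
    simp only [eq_intCast, zsmul_eq_mul] at ha
    by_contra hne
    have hpos : ∀ i, 0 ≤ (M : ℤ) * a (Sum.inl i) := fun i => by
      have h1 : (0 : ℚ) ≤ (((M : ℤ) * a (Sum.inl i) : ℤ) : ℚ) := by
        push_cast; rw [ha, ← mul_assoc]
        exact mul_nonneg (mul_self_nonneg _) (hq i)
      exact_mod_cast h1
    refine hS₂ i₀ (lemmaU hirr epi (Sum.elim S S') S' ?_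
      (fun j => (hS'₁ j).st.mono g1_le_lie)
      (Sum.elim (fun i => ((M : ℤ) * a (Sum.inl i)).toNat)
        (fun j => (-((M : ℤ) * a (Sum.inr j))).toNat))
      (fun j => ((M : ℤ) * a (Sum.inr j)).toNat) (fun ξ hξ => ?_) (Sum.inl i₀) ?_)
    · rintro (i | j)
      · exact hS₁ i
      · exact (hS'₁ j).st.mono inf_le_left
    · have h1 := congrArg (fun χ : Module.Dual ℂ (hS G v) => ((M : ℤ) * (M : ℤ) : ℂ) * χ ⟨ξ, hξ⟩) hz
      simp only [LinearMap.coe_sum, Finset.sum_apply, LinearMap.smul_apply, Finset.mul_sum] at h1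
      rw [Fintype.sum_sum_type]
      simp only [Sum.elim_inl, Sum.elim_inr]
      have e1 : ∀ i, ((((M : ℤ) * a (Sum.inl i)).toNat : ℕ) : ℂ) * (S i).χ ξ =
          ((M : ℤ) * (M : ℤ) : ℂ) * q i • i.1 ⟨ξ, hξ⟩ := fun i => by
        have h2 : ((((M : ℤ) * a (Sum.inl i)).toNat : ℕ) : ℂ) =
            (((M : ℤ) * a (Sum.inl i) : ℤ) : ℂ) := by
          rw [← Int.cast_natCast, Int.toNat_of_nonneg (hpos i)]
        have h3 : ((a (Sum.inl i) : ℤ) : ℂ) = ((M : ℤ) : ℂ) * (q i : ℂ) := by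
          exact_mod_cast congrArg (Rat.cast : ℚ → ℂ) (ha (Sum.inl i))
        rw [h2, hS₃ i, Rat.smul_def]; push_cast; rw [h3, LinearMap.domRestrict_apply]; ring
      have e2 : ∀ j, ((((M : ℤ) * a (Sum.inr j)).toNat : ℕ) : ℂ) * (S' j).χ ξ =
          ((M : ℤ) * (M : ℤ) : ℂ) * c j • (z j).1 ⟨ξ, hξ⟩ +
          (((-((M : ℤ) * a (Sum.inr j))).toNat : ℕ) : ℂ) * (S' j).χ ξ := fun j => by
        have h2 : ((((M : ℤ) * a (Sum.inr j)).toNat : ℕ) : ℂ) =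
            (((M : ℤ) * a (Sum.inr j) : ℤ) : ℂ) +
              (((-((M : ℤ) * a (Sum.inr j))).toNat : ℕ) : ℂ) := by
          have := Int.toNat_sub_toNat_neg ((M : ℤ) * a (Sum.inr j))
          rw [sub_eq_iff_eq_add] at this
          exact_mod_cast congrArg (Int.cast : ℤ → ℂ) this
        have h3 : ((a (Sum.inr j) : ℤ) : ℂ) = ((M : ℤ) : ℂ) * (c j : ℂ) := by
          exact_mod_cast congrArg (Rat.cast : ℚ → ℂ) (ha (Sum.inr j))
        rw [h2, hS'₂ j, Rat.smul_def]; push_cast; rw [h3, LinearMap.domRestrict_apply]; ring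
      simp only [e1, e2, Finset.sum_add_distrib, h1]
    · have h1 : (M : ℤ) * a (Sum.inl i₀) ≠ 0 := by
        refine mul_ne_zero hM0 fun h => hne ?_
        have h2 := ha (Sum.inl i₀)
        rw [h, Int.cast_zero, eq_comm, mul_eq_zero] at h2
        exact h2.resolve_left (by exact_mod_cast hM0)
      have := hpos i₀
      simp only [Sum.elim_inl]
      omega)
  obtain ⟨ξ, hξ⟩ := exists_realize hfin
    (by rintro _ ⟨b, r, h, rfl⟩; exact ⟨_, h, rfl⟩) θ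
  obtain ⟨Q, a, M, hM, hmem, hrep⟩ := exists_int_replica (G := G) (v := v) (ξ : Mt N)
  refine ⟨Q, a, hmem ξ.2, fun b r hr => ?_⟩
  have h1 := (hrep _ (hr _ ξ.2)).2 _ (hξ _ ⟨b, r, hr, rfl⟩)
  refine ⟨fun hG => ?_, fun hG => ?_⟩
  · rw [h1, hθ' _ (Submodule.subset_span ⟨_, hG, rfl⟩)]; simp
  · obtain ⟨c, hc⟩ := Sub.χ_int _ Q a (hrep _ (hr _ ξ.2)).1
    have h2 := hθ ⟨_, _, ⟨b, r, rfl⟩, hr, hG, rfl⟩
    have h3 : (c : ℚ) = M * θ (((B b).sub r).χ.domRestrict (hS G v)) := by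
      have := hc.symm.trans h1
      exact_mod_cast this
    have h4 : 0 < c := by
      have : (0 : ℚ) < c := by rw [h3]; exact mul_pos (by exact_mod_cast hM) h2
      exact_mod_cast this
    refine ⟨c.toNat, by omega, ?_⟩
    rw [hc, ← Int.cast_natCast, Int.toNat_of_nonneg h4.le]

end Kol68
end

-- merged part: Pool.Agent.Work.MP_c53807_ag.Build
section
/-!
The Lie algebra data attached to an epimorphic stabiliser.
-/

open scoped Matrix

namespace Kol68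

variable {N : ℕ} {G : Subgroup (GL (Fin N) ℂ)} {v : Fin N → ℂ}

/-- The standard representation, bundled. -/
abbrev stdB (N : ℕ) : BRep N := ⟨Fin N, stdRep (Fin N)⟩

/-- The adjoint representation, bundled. -/
abbrev adB (N : ℕ) : BRep N := ⟨Fin N × Fin N, adRep (Fin N)⟩

/-- The defining representation of a group, bundled. -/
noncomputable abbrev grpB (G : Subgroup (GL (Fin N) ℂ)) : BRep N := ⟨_, repG G⟩

theorem st_ad {s r : Submodule ℂ (Mt N)} (h : Stab s r) : ((adB N).sub (vs r)).St s :=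
  fun ξ hξ => ad_mem_presA_iff.2 (h ξ hξ)

theorem χ_ad {r : Submodule ℂ (Mt N)} {x : Mt N} (h : ∀ y ∈ r, adM x y ∈ r) :
    ((adB N).sub (vs r)).χ x = trOn r (adM x) := trOn_vs h

/-- The data attached to a positive element. -/
noncomputable def mkLow (hirr : (vanI (G : Set (GL (Fin N) ℂ))).IsPrime) (epi : Epi G v)
    (hv : v ≠ 0) (Q : GL (Fin N) ℂ) (a : Fin N → ℤ) (hd : (dg Q fun i => (a i : ℂ)) ∈ hS G v)
    (h₁ : PosOn G v (dg Q fun i => (a i : ℂ)) (stdB N))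
    (h₂ : PosOn G v (dg Q fun i => (a i : ℂ)) (adB N)) : LowData N where
  g := g1 G v
  h := hS G v
  v := v
  d := dg Q fun i => (a i : ℂ)
  Q := Q
  a := a
  hv := hv
  g_lie := stab_g1
  mem_h _ := ⟨fun h => ⟨hS_le_g1 h, (mem_hS.1 h).2⟩, fun h => mem_hS.2 ⟨g1_le_lie h.1, h.2⟩⟩
  d_mem := hd
  d_eq := rfl
  tr_ideal r _ hr := by
    rw [← χ_ad (hr _ (hS_le_g1 hd))]
    exact (h₂ (vs r) ((st_ad hr).mono hS_le_g1)).1 (gst_of_st hirr epi _ (st_ad hr))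
  tr_pos r _ hr := by
    by_cases hG : ((adB N).sub (vs r)).GSt G
    · exact Or.inl fun ξ hξ => ad_mem_presA_iff.1 (hG.st ξ (g1_le_lie hξ))
    · rw [← χ_ad (hr _ hd)]
      exact Or.inr ((h₂ _ (st_ad hr)).2 hG)
  tr_V W hW :=
    (h₁ W fun ξ hξ => hW ξ (hS_le_g1 hξ)).1 (gst_of_st hirr epi ((stdB N).sub W) hW)
  no_ideal r h₁ h₂ hr :=
    le_antisymm h₂ (g1_le_of_conj h₁ (gst_of_st hirr epi _ (st_ad hr)))

theorem PosOn.scale {d d' : Mt N} {B : BRep N} (h : PosOn G v d B) {M : ℕ} (hM : 0 < M)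
    (hd : ∀ r, (B.sub r).St (hS G v) → ∀ c : ℕ, (B.sub r).χ d = c → (B.sub r).χ d' = M * c) :
    PosOn G v d' B := fun r hr => by
  refine ⟨fun hG => ?_, fun hG => ?_⟩
  · simpa using hd r hr 0 (by simpa using (h r hr).1 hG)
  · obtain ⟨c, hc, e⟩ := (h r hr).2 hG
    exact ⟨M * c, Nat.mul_pos hM hc, by rw [hd r hr c e, Nat.cast_mul]⟩

theorem exists_good (hirr : (vanI (G : Set (GL (Fin N) ℂ))).IsPrime) (epi : Epi G v)
    (hv : v ≠ 0) (hne : hS G v ≠ g1 G v)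
    (hdim : Module.finrank ℂ (g1 G v) ≤ Module.finrank ℂ (hS G v) + 2) :
    ∃ D : LowData N, D.g = g1 G v ∧ D.h = hS G v ∧ D.v = v ∧ D.Good := by
  obtain ⟨Q, a, hd, hpos⟩ := exists_pos hirr epi (fun b : Bool => bif b then stdB N else adB N)
  let D := mkLow hirr epi hv Q a hd (hpos true) (hpos false)
  have hlt : Module.finrank ℂ (hS G v) < Module.finrank ℂ (g1 G v) :=
    Submodule.finrank_lt_finrank_of_lt (lt_of_le_of_ne hS_le_g1 hne)
  by_cases h1 : Module.finrank ℂ (g1 G v) = Module.finrank ℂ (hS G v) + 1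
  · exact ⟨D, rfl, rfl, rfl, D.low_one h1⟩
  have h2 : Module.finrank ℂ (g1 G v) = Module.finrank ℂ (hS G v) + 2 := by omega
  by_cases h3 : ∀ r, hS G v ≤ r → r ≤ g1 G v → Stab (hS G v) r → r = hS G v ∨ r = g1 G v
  swap
  · push Not at h3
    obtain ⟨r, r₁, r₂, r₃, r₄, r₅⟩ := h3
    exact ⟨D, rfl, rfl, rfl, D.low_two_red h2 (lt_of_le_of_ne r₁ r₄.symm) (lt_of_le_of_ne r₂ r₅) r₃⟩
  obtain ⟨z, hz, n, hn, hsc⟩ := D.regrade h2 h3
  have hzh : z ∈ hS G v := (Submodule.span_le (p := hS G v)).2 (by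
    rintro _ ⟨x, hx, y, hy, rfl⟩; exact stab_hS x hx y hy) hz
  have hχz : ∀ S : Sub N, S.St (hS G v) → S.χ z = 0 := fun S hS' =>
    (Submodule.span_le (p := LinearMap.ker S.χ)).2 (by
      rintro _ ⟨x, hx, y, hy, rfl⟩; exact Sub.χ_lie (hS' x hx) (hS' y hy)) hz
  have hξ : (2 : ℂ) • (D.d - z) ∈ hS G v := Submodule.smul_mem _ _ (Submodule.sub_mem _ hd hzh)
  obtain ⟨Q', a', M, hM, hmem, hrep⟩ := exists_int_replica (G := G) (v := v) ((2 : ℂ) • (D.d - z))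
  have hd' := hmem hξ
  have hsc' : ∀ B : BRep N, PosOn G v D.d B → PosOn G v (dg Q' fun i => (a' i : ℂ)) B :=
    fun B hB => hB.scale (Nat.mul_pos hM two_pos) fun r hr c hc => by
      rw [(hrep _ (hr _ hξ)).2 (2 * c) (by rw [map_smul, map_sub, hc, hχz _ hr]; simp)]
      push_cast; ring
  let D' := mkLow hirr epi hv Q' a' hd' (hsc' _ (hpos true)) (hsc' _ (hpos false))
  refine ⟨D', rfl, rfl, rfl, D'.low_two_irr h2 h3 (Nat.mul_pos hM hn) fun x hx => ?_⟩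
  change adM (dg Q' fun i => (a' i : ℂ)) x + _ ∈ hS G v
  by_cases hxh : x ∈ hS G v
  · exact Submodule.add_mem _ (stab_hS _ hd' _ hxh) (Submodule.smul_mem _ _ hxh)
  have k₁ : adM ((2 : ℂ) • (D.d - z)) x - (-(n : ℂ)) • x ∈ hS G v := by
    have := Submodule.smul_mem (hS G v) (2 : ℂ) (hsc x hx)
    rw [smul_add, smul_smul] at this
    rw [adM_smul_left, neg_smul, sub_neg_eq_add]
    convert this using 3
    ring
  have k₂ : ∀ y ∈ hS G v ⊔ ℂ ∙ x, adM ((2 : ℂ) • (D.d - z)) y ∈ hS G v ⊔ ℂ ∙ x := by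
    intro y hy
    obtain ⟨p, hp, _, hq, rfl⟩ := Submodule.mem_sup.1 hy
    obtain ⟨c, rfl⟩ := Submodule.mem_span_singleton.1 hq
    rw [map_add, map_smul, ← sub_add_cancel (adM _ x) ((-(n : ℂ)) • x)]
    exact Submodule.add_mem _ (Submodule.mem_sup_left (stab_hS _ hξ _ hp))
      (Submodule.smul_mem _ _ (Submodule.add_mem_sup k₁
        (Submodule.smul_mem _ _ (Submodule.mem_span_singleton_self x))))
  obtain ⟨c, hc⟩ := ((adB N).sub (vs (hS G v))).χ_int Q a (st_ad stab_hS _ hd)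
  have k₃ : trOn (hS G v) (adM ((2 : ℂ) • (D.d - z))) = ((2 * c : ℚ) : ℂ) := by
    rw [← χ_ad (stab_hS _ hξ), map_smul, map_sub, hχz _ (st_ad stab_hS)]
    erw [hc]; simp
  have k₄ := (hrep ((adB N).sub (vs (hS G v))) (st_ad stab_hS _ hξ)).2 _
    ((χ_ad (stab_hS _ hξ)).trans k₃)
  obtain ⟨k₅, k₆⟩ := hrep ((adB N).sub (vs (hS G v ⊔ ℂ ∙ x))) (ad_mem_presA_iff.2 k₂)
  have k₇ : ∀ y ∈ hS G v ⊔ ℂ ∙ x, adM (dg Q' fun i => (a' i : ℂ)) y ∈ hS G v ⊔ ℂ ∙ x :=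
    ad_mem_presA_iff.1 k₅
  have k₈ := k₆ (2 * c - n) (by
    rw [χ_ad k₂, trOn_step (stab_hS _ hξ) hxh k₁, k₃]; push_cast; ring)
  obtain ⟨p, hp, _, hq, e⟩ := Submodule.mem_sup.1
    (k₇ x (Submodule.mem_sup_right (Submodule.mem_span_singleton_self x)))
  obtain ⟨μ, rfl⟩ := Submodule.mem_span_singleton.1 hq
  rw [χ_ad (stab_hS _ hd')] at k₄
  rw [χ_ad k₇, trOn_step (k := μ) (stab_hS _ hd') hxh (by rwa [← e, add_sub_cancel_right]),
    k₄] at k₈
  have k₉ : μ = -((M * n : ℕ) : ℂ) := by push_cast at k₈ ⊢; linear_combination k₈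
  rwa [← e, k₉, neg_smul, neg_add_cancel_right]

end Kol68
end

-- merged part: Pool.Agent.Work.MP_c53807_ag.Conn
section
namespace Kol68

open TopologicalSpace Topology

/-- A Noetherian space with a transitive family of homeomorphisms, which is not a disjoint union of
two proper closed subsets, is irreducible. -/
theorem ConnAux.preirreducible {X : Type*} [TopologicalSpace X] [NoetherianSpace X] (x₀ : X)
    (htr : ∀ x y : X, ∃ f : X ≃ₜ X, f x = y)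
    (hc : ∀ B C : Set X, IsClosed B → IsClosed C → B ∪ C = Set.univ → B ∩ C = ∅ →
      B = Set.univ ∨ C = Set.univ) : IsPreirreducible (Set.univ : Set X) := by
  have hfin : (irreducibleComponents X).Finite := NoetherianSpace.finite_irreducibleComponents
  obtain ⟨Z, hZ⟩ : ∃ Z, Z ∈ irreducibleComponents X :=
    ⟨_, irreducibleComponent_mem_irreducibleComponents x₀⟩
  have hW : IsClosed (⋃₀ (irreducibleComponents X \ {Z})) := by
    rw [Set.sUnion_eq_biUnion]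
    exact hfin.sdiff.isClosed_biUnion fun W hW => isClosed_of_mem_irreducibleComponents W hW.1
  obtain ⟨x, hxZ, hx⟩ : ∃ x ∈ Z, x ∉ ⋃₀ (irreducibleComponents X \ {Z}) := by
    by_contra h
    push Not at h
    exact (mem_of_subset_sUnion_irreducibleComponents Z hZ _ hfin.sdiff Set.sdiff_subset h).2 rfl
  have hx' : ∀ W ∈ irreducibleComponents X, x ∈ W → W = Z := fun W hW hxW => by
    by_contra h
    exact hx ⟨W, ⟨hW, h⟩, hxW⟩
  have hdisj : Z ∩ ⋃₀ (irreducibleComponents X \ {Z}) = ∅ := by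
    rw [Set.eq_empty_iff_forall_notMem]
    rintro y ⟨hyZ, W, ⟨hW, hWZ⟩, hyW⟩
    obtain ⟨f, hf⟩ := htr x y
    have h1 := hx' _ (preimage_mem_irreducibleComponents hZ f.isOpenEmbedding
      ⟨y, hyZ, x, hf⟩) (by simpa [hf] using hyZ)
    have h2 := hx' _ (preimage_mem_irreducibleComponents hW f.isOpenEmbedding
      ⟨y, hyW, x, hf⟩) (by simpa [hf] using hyW)
    exact hWZ (f.surjective.preimage_injective (h2.trans h1.symm))
  rcases hc Z _ (isClosed_of_mem_irreducibleComponents Z hZ) hW (by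
    rw [← Set.sUnion_singleton Z, ← Set.sUnion_union, Set.sUnion_singleton,
      Set.union_sdiff_cancel (Set.singleton_subset_iff.2 hZ), sUnion_irreducibleComponents])
    hdisj with h | h
  · exact h ▸ hZ.1.2
  · exact absurd (h ▸ Set.mem_univ x) hx

theorem ConnAux.evalAt_mul {N : ℕ} (a g : GL (Fin N) ℂ) (p : MvPolynomial (Fin N × Fin N) ℂ) :
    evalAt (a * g) p = evalAt g (MvPolynomial.bind₁ (fun ij => ∑ k,
      MvPolynomial.C ((a : Matrix (Fin N) (Fin N) ℂ) ij.1 k) * MvPolynomial.X (k, ij.2)) p) := by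
  simp only [evalAt, MvPolynomial.eval, MvPolynomial.eval₂Hom_bind₁]
  congr 2
  funext ij
  simp [Matrix.mul_apply]

theorem irreducible_of_connected {N : ℕ} (G : Subgroup (GL (Fin N) ℂ))
    (hG : GLClosed (G : Set (GL (Fin N) ℂ))) (hc : GLConnected (G : Set (GL (Fin N) ℂ)))
    (p q : MvPolynomial (Fin N × Fin N) ℂ) (h : ∀ g ∈ G, evalAt g (p * q) = 0) :
    (∀ g ∈ G, evalAt g p = 0) ∨ (∀ g ∈ G, evalAt g q = 0) := by
  have _ := hG
  let pt : G → PrimeSpectrum (MvPolynomial (Fin N × Fin N) ℂ) := fun g =>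
    ⟨RingHom.ker (MvPolynomial.eval fun ij => ((g : GL (Fin N) ℂ) : Matrix (Fin N) (Fin N) ℂ) ij.1 ij.2),
      RingHom.ker_isPrime _⟩
  let τ : TopologicalSpace G := TopologicalSpace.induced pt inferInstance
  have hind : @IsInducing G _ τ _ pt := @IsInducing.mk G _ τ _ pt rfl
  have hN : @NoetherianSpace G τ := @IsInducing.noetherianSpace _ _ _ τ _ _ hind
  have hcl : ∀ B : Set G, IsClosed[τ] B ↔
      ∃ S : Set (MvPolynomial (Fin N × Fin N) ℂ), B = {g : G | ∀ p ∈ S, evalAt g p = 0} := by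
    intro B
    rw [isClosed_induced_iff]
    constructor
    · rintro ⟨t, ht, rfl⟩
      obtain ⟨S, rfl⟩ := (PrimeSpectrum.isClosed_iff_zeroLocus t).1 ht
      exact ⟨S, rfl⟩
    · rintro ⟨S, rfl⟩
      exact ⟨_, PrimeSpectrum.isClosed_zeroLocus S, rfl⟩
  have hcont : ∀ a : G, Continuous[τ, τ] fun g : G => a * g := by
    intro a
    rw [@continuous_iff_isClosed G G τ τ]
    intro B hB
    obtain ⟨S, rfl⟩ := (hcl B).1 hB
    refine (hcl _).2 ⟨(fun p => MvPolynomial.bind₁ (fun ij => ∑ k, MvPolynomial.C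
      (((a : GL (Fin N) ℂ) : Matrix (Fin N) (Fin N) ℂ) ij.1 k) * MvPolynomial.X (k, ij.2)) p) '' S, ?_⟩
    ext g
    simp only [Set.mem_preimage, Set.mem_ofPred_eq, Subgroup.coe_mul, ConnAux.evalAt_mul,
      Set.forall_mem_image]
  have key := @ConnAux.preirreducible G τ hN 1
    (fun x y => ⟨@Homeomorph.mk G G τ τ (Equiv.mulLeft (y * x⁻¹)) (hcont _) (hcont _), by
      change y * x⁻¹ * x = y
      simp⟩)
    (fun B C hB hC h1 h2 => by
      obtain ⟨S, rfl⟩ := (hcl B).1 hB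
      obtain ⟨T, rfl⟩ := (hcl C).1 hC
      rcases hc _ _ ⟨S, rfl⟩ ⟨T, rfl⟩
        (fun g hg => (h1.symm ▸ Set.mem_univ (⟨g, hg⟩ : G) : (⟨g, hg⟩ : G) ∈ _ ∪ _))
        (Set.eq_empty_iff_forall_notMem.2 fun g hg =>
          (Set.eq_empty_iff_forall_notMem.1 h2) ⟨g, hg.1.1⟩ ⟨hg.1.2, hg.2⟩) with h3 | h3
      · exact Or.inl (Set.eq_univ_of_forall fun g => h3 g.2)
      · exact Or.inr (Set.eq_univ_of_forall fun g => h3 g.2))
  rcases (@isPreirreducible_iff_isClosed_union_isClosed G τ _).1 key _ _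
    ((hcl _).2 ⟨{p}, rfl⟩) ((hcl _).2 ⟨{q}, rfl⟩) (fun g _ => by
      have := h g g.2
      simp only [evalAt, map_mul, mul_eq_zero] at this
      simpa [evalAt] using this) with h3 | h3
  · exact Or.inl fun g hg => h3 (Set.mem_univ (⟨g, hg⟩ : G)) p rfl
  · exact Or.inr fun g hg => h3 (Set.mem_univ (⟨g, hg⟩ : G)) q rfl

end Kol68
end

-- merged part: Pool.Agent.Work.MP_c53807_ag.Main
section
/-!
The main theorem.
-/

open scoped Matrix LinearAlgebra.Projectivization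

namespace Kol68

variable {N : ℕ} {G : Subgroup (GL (Fin N) ℂ)}

theorem isPrime_vanI (hG : GLClosed (G : Set (GL (Fin N) ℂ)))
    (hc : GLConnected (G : Set (GL (Fin N) ℂ))) : (vanI (G : Set (GL (Fin N) ℂ))).IsPrime := by
  refine ⟨fun h => ?_, fun {p q} h => irreducible_of_connected G hG hc p q h⟩
  have h1 : (1 : PM N) ∈ vanI (G : Set (GL (Fin N) ℂ)) := h ▸ Submodule.mem_top
  simpa using h1 1 G.one_mem

theorem exists_goodCurve (hG : GLClosed (G : Set (GL (Fin N) ℂ)))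
    (hirr : (vanI (G : Set (GL (Fin N) ℂ))).IsPrime) (x₀ : ℙ ℂ (Fin N → ℂ))
    (hx : ∃ g ∈ G, act g x₀ ≠ x₀) (epi : Epi G x₀.rep) : GoodCurve G x₀ (g1 G x₀.rep) := by
  have hne : hS G x₀.rep ≠ g1 G x₀.rep := fun h => by
    obtain ⟨g, hg, hx⟩ := hx
    exact hx ((act_eq_iff g x₀).2 (mem_presA_span.1 (gst_of_st hirr epi
      ((stdB N).sub (ℂ ∙ x₀.rep)) (fun ξ hξ => (h ▸ hξ : ξ ∈ hS G x₀.rep).2) g hg)))
  by_cases hdim : Module.finrank ℂ (g1 G x₀.rep) ≤ Module.finrank ℂ (hS G x₀.rep) + 2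
  · obtain ⟨D, h₁, h₂, h₃, h₄⟩ := exists_good hirr epi x₀.rep_nonzero hne hdim
    rw [← h₁]
    exact low_curve hG x₀ D (h₁ ▸ g1_le_lie) h₂ h₃ h₄
  · obtain ⟨Q, a, hd, hpos⟩ := exists_pos hirr epi
      (fun b : Option Bool => b.elim (grpB G) fun b => bif b then stdB N else adB N)
    exact high_curve hG x₀ (mkLow hirr epi x₀.rep_nonzero Q a hd (hpos (some true))
      (hpos (some false))) g1_le_lie (fun _ hg => ad_pres_g1 hg) rfl rfl (not_le.1 hdim)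
      ((hpos none (subG G) fun _ hξ => hξ.1).1 fun _ hg => tenS_stable G _ hg)

theorem main (hG : GLClosed (G : Set (GL (Fin N) ℂ)))
    (hc : GLConnected (G : Set (GL (Fin N) ℂ))) (x₀ : ℙ ℂ (Fin N → ℂ))
    (hx : ∃ g ∈ G, act g x₀ ≠ x₀) (Z : Set (ℙ ℂ (Fin N → ℂ))) (hZ : Subvariety Z)
    (hZX : Z ⊆ orbit G x₀) (hnd : ¬ Degenerate G x₀ Z) :
    ∃ C, SmoothRationalCurve C ∧ C ⊆ orbit G x₀ ∧ ¬ Degenerate G x₀ C := by
  have hirr := isPrime_vanI hG hc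
  have epi := epi_of_nondegenerate G hG hirr x₀ Z hZ hZX hnd
  obtain ⟨C, h₁, h₂, h₃, h₄⟩ := exists_goodCurve hG hirr x₀ hx epi
  refine ⟨C, h₁, h₂, ?_⟩
  rintro ⟨K, hK, hHK, hKG, g, hg, hC⟩
  have hst : stabG G x₀.rep ≤ K := fun y hy => hHK y hy.1 ((act_eq_iff y x₀).2 hy.2)
  obtain ⟨k, hk, e⟩ := hC x₀ h₃
  have hgK : g ∈ K := by
    have := K.mul_mem (hHK _ (G.mul_mem hg (hKG.le hk)) e.symm) (K.inv_mem hk)
    rwa [mul_inv_cancel_right] at this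
  have h5 := h₄ K hst hKG.le fun z hz => by
    obtain ⟨k', hk', e'⟩ := hC z hz
    exact ⟨g * k', K.mul_mem hgK hk', e'⟩
  refine hKG.not_ge fun y hy => Pt.mem hK ((pt_iff K y).2 (pres_self.2 ?_))
  exact gst_of_st hirr epi ((grpB K).sub (subG K)) (fun ξ hξ => h5 hξ) y hy

end Kol68
end
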