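import Pool.Agent.Work.MP_c53807_ag.End
import Pool.Agent.Work.MP_c53807_ag.Main
import Pool.Agent.Work.MP_c53807_ag.GLPC
import Pool.Agent.Work.MP_c53807_ag.LowBasic

-- merged part: Pool.Agent.Work.MP_c53807_ag.GGrp
section
/-!
Algebraic groups: closed subgroups, identity component, generation, orbit maps.
-/

open MvPolynomial Topology
open scoped Pointwise

namespace Kol68

variable {G : Type} [Group G] [TopologicalSpace G] [AG G]

theorem mor_mul_left (a : G) : Mor fun g : G => a * g := AG.mul_mor.right a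

theorem mor_mul_right (a : G) : Mor fun g : G => g * a := AG.mul_mor.left a

theorem Reg.mul {ρ : Type} {A : Set (ρ → ℂ)} {φ ψ : (ρ → ℂ) → G} (h : Reg A φ) (h' : Reg A ψ) :
    Reg A fun y => φ y * ψ y := AG.mul_mor ρ A φ ψ h h'

theorem Reg.inv {ρ : Type} {A : Set (ρ → ℂ)} {φ : (ρ → ℂ) → G} (h : Reg A φ) :
    Reg A fun y => (φ y)⁻¹ := AG.inv_mor ρ A φ h

theorem Par.mul {Y Y' : Set G} (h : Par Y) (h' : Par Y') : Par (Y * Y') := h.image₂ h' AG.mul_mor

theorem Par.inv {Y : Set G} (h : Par Y) : Par Y⁻¹ := by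
  rw [← Set.image_inv_eq_inv]; exact h.image AG.inv_mor

namespace GGrpAux

theorem cL (a : G) : Continuous fun g : G => a * g := (mor_mul_left a).continuous

theorem cR (a : G) : Continuous fun g : G => g * a := (mor_mul_right a).continuous

theorem cI : Continuous fun g : G => g⁻¹ := Mor.continuous AG.inv_mor

/-- Left translations of a group whose translations are continuous. -/
def hL {X : Type} [Group X] [TopologicalSpace X] (h : ∀ a : X, Continuous fun g : X => a * g)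
    (a : X) : X ≃ₜ X :=
  Homeomorph.mk (Equiv.mulLeft a) (h a) (h a⁻¹)

theorem hL_apply {X : Type} [Group X] [TopologicalSpace X]
    (h : ∀ a : X, Continuous fun g : X => a * g) (a g : X) : hL h a g = a * g := rfl

theorem mul_closure (H : Subgroup G) {a b : G} (ha : a ∈ closure (H : Set G))
    (hb : b ∈ closure (H : Set G)) : a * b ∈ closure (H : Set G) := by
  have h1 : ∀ s ∈ (H : Set G), s * b ∈ closure (H : Set G) := fun s hs =>
    closure_minimal (s := (H : Set G)) (t := (fun g : G => s * g) ⁻¹' closure (H : Set G))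
      (fun t ht => subset_closure (H.mul_mem hs ht)) (isClosed_closure.preimage (cL s)) hb
  exact closure_minimal (t := (fun g : G => g * b) ⁻¹' closure (H : Set G)) h1
    (isClosed_closure.preimage (cR b)) ha

theorem inv_closure (H : Subgroup G) {a : G} (ha : a ∈ closure (H : Set G)) :
    a⁻¹ ∈ closure (H : Set G) :=
  closure_minimal (s := (H : Set G)) (t := (fun g : G => g⁻¹) ⁻¹' closure (H : Set G))
    (fun _ ht => subset_closure (H.inv_mem ht)) (isClosed_closure.preimage cI) ha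

/-- A parametrised set which is dense in a subgroup generates the closure in two steps. -/
theorem closure_sub_mul {Y : Set G} (hY : Par Y) (H : Subgroup G)
    (e : closure Y = closure (H : Set G)) : closure (H : Set G) ⊆ Y * Y := by
  intro g hg
  obtain ⟨O, hO, ⟨y, hyO, hyY⟩, hsub⟩ := hY.exists_open
  have hirr := (isIrreducible_iff_closure.2 hY.isIrreducible).2
  have hy : y ∈ closure (H : Set G) := e ▸ subset_closure hyY
  have hO' : IsOpen ((fun x : G => x⁻¹ * g) ⁻¹' O) := hO.preimage ((cR g).comp cI)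
  rw [e] at hirr hsub
  obtain ⟨x, hxZ, hxO, hxO'⟩ := hirr O _ hO hO' ⟨y, hy, hyO⟩
    ⟨g * y⁻¹, mul_closure H hg (inv_closure H hy), by simpa using hyO⟩
  exact ⟨x, hsub ⟨hxO, hxZ⟩, x⁻¹ * g, hsub ⟨hxO', mul_closure H (inv_closure H hxZ) hg⟩, by simp⟩

/-- The identity component of a Noetherian group with continuous translations. -/
theorem idcomp {X : Type} [Group X] [TopologicalSpace X] [TopologicalSpace.NoetherianSpace X]
    (h : ∀ a : X, Continuous fun g : X => a * g) : ∃ K : Subgroup X, IsClosed (K : Set X) ∧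
      IsIrreducible (K : Set X) ∧ ∃ s : Finset X, ∀ x, ∃ t ∈ s, t⁻¹ * x ∈ K := by
  have hfin : (irreducibleComponents X).Finite :=
    TopologicalSpace.NoetherianSpace.finite_irreducibleComponents
  have hZ := irreducibleComponent_mem_irreducibleComponents (1 : X)
  have hZ1 : (1 : X) ∈ irreducibleComponent (1 : X) := mem_irreducibleComponent
  generalize irreducibleComponent (1 : X) = Z at hZ hZ1
  obtain ⟨x, hxZ, hx⟩ : ∃ x ∈ Z, x ∉ ⋃₀ (irreducibleComponents X \ {Z}) := by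
    by_contra h
    push Not at h
    exact (mem_of_subset_sUnion_irreducibleComponents Z hZ _ hfin.sdiff Set.sdiff_subset h).2 rfl
  have hx' : ∀ W ∈ irreducibleComponents X, x ∈ W → W = Z := fun W hW hxW => by
    by_contra h
    exact hx ⟨W, ⟨hW, h⟩, hxW⟩
  have hpre : ∀ a : X, ∀ W ∈ irreducibleComponents X,
      hL h a ⁻¹' W ∈ irreducibleComponents X := fun a W hW => by
    obtain ⟨w, hw⟩ := hW.1.1
    exact preimage_mem_irreducibleComponents hW (hL h a).isOpenEmbedding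
      ⟨w, hw, (hL h a).surjective w⟩
  have h1 : ∀ W ∈ irreducibleComponents X, (1 : X) ∈ W → W = Z := fun W hW h1W => by
    have e1 := hx' _ (hpre x⁻¹ W hW) (by simpa [hL_apply] using h1W)
    have e2 := hx' _ (hpre x⁻¹ Z hZ) (by simpa [hL_apply] using hZ1)
    exact (hL h x⁻¹).surjective.preimage_injective (e1.trans e2.symm)
  have h2 : ∀ W ∈ irreducibleComponents X, ∀ a ∈ W, ∀ b, a * b ∈ W ↔ b ∈ Z := fun W hW a ha b => by
    rw [← h1 _ (hpre a W hW) (by simpa [hL_apply] using ha)]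
    rfl
  let K : Subgroup X :=
    { carrier := Z
      one_mem' := hZ1
      mul_mem' := fun ha hb => (h2 Z hZ _ ha _).2 hb
      inv_mem' := fun {a} ha => (h2 Z hZ a ha _).1 (by simpa using hZ1) }
  refine ⟨K, isClosed_of_mem_irreducibleComponents Z hZ, hZ.1, ?_⟩
  have hne : ∀ W : irreducibleComponents X, ∃ t, t ∈ W.1 := fun W => W.2.1.1
  choose t ht using hne
  have := hfin.to_subtype
  refine ⟨(Set.finite_range t).toFinset, fun y => ?_⟩
  have hy := irreducibleComponent_mem_irreducibleComponents y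
  refine ⟨t ⟨_, hy⟩, by simp, (h2 _ hy _ (ht ⟨_, hy⟩) _).1 ?_⟩
  simpa using mem_irreducibleComponent

theorem gen_facts {𝒴 : Set (Set G)} (h : ∀ Y ∈ 𝒴, Par Y ∧ (1 : G) ∈ Y) (l : List (Set G))
    (hl : ∀ Y ∈ l, Y ∈ 𝒴 ∨ Y⁻¹ ∈ 𝒴) :
    Par l.prod ∧ (1 : G) ∈ l.prod ∧ l.prod ⊆ (Subgroup.closure (⋃₀ 𝒴) : Set G) := by
  induction l with
  | nil =>
    refine ⟨par_singleton 1, rfl, fun g hg => ?_⟩
    rw [Set.mem_one.1 hg]
    exact Subgroup.one_mem _
  | cons Y l ih =>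
    obtain ⟨a1, a2, a3⟩ := ih fun Y' hY' => hl Y' (List.mem_cons_of_mem _ hY')
    have hY : Par Y ∧ (1 : G) ∈ Y ∧ Y ⊆ (Subgroup.closure (⋃₀ 𝒴) : Set G) := by
      rcases hl Y List.mem_cons_self with hY | hY
      · exact ⟨(h Y hY).1, (h Y hY).2, fun g hg => Subgroup.subset_closure ⟨Y, hY, hg⟩⟩
      · refine ⟨inv_inv Y ▸ (h _ hY).1.inv, by simpa using (h _ hY).2, fun g hg => ?_⟩
        exact (Subgroup.inv_mem_iff _).1 (Subgroup.subset_closure ⟨_, hY, by simpa using hg⟩)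
    rw [List.prod_cons]
    refine ⟨hY.1.mul a1, ⟨1, hY.2.1, 1, a2, mul_one _⟩, ?_⟩
    rintro _ ⟨a, ha, b, hb, rfl⟩
    exact Subgroup.mul_mem _ (hY.2.2 ha) (a3 hb)

omit [TopologicalSpace G] [AG G] in
theorem gen_mem {𝒴 : Set (Set G)} {g : G} (hg : g ∈ Subgroup.closure (⋃₀ 𝒴)) :
    ∃ l : List (Set G), (∀ Y ∈ l, Y ∈ 𝒴 ∨ Y⁻¹ ∈ 𝒴) ∧ g ∈ l.prod := by
  induction hg using Subgroup.closure_induction'' with
  | one => exact ⟨[], by simp, rfl⟩
  | mem x hx =>
    obtain ⟨Y, hY, hx⟩ := hx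
    exact ⟨[Y], by simp [hY], by simpa using hx⟩
  | inv_mem x hx =>
    obtain ⟨Y, hY, hx⟩ := hx
    exact ⟨[Y⁻¹], by simp [hY], by simpa using hx⟩
  | mul x y _ _ hx hy =>
    obtain ⟨l, hl, hx⟩ := hx
    obtain ⟨l', hl', hy⟩ := hy
    refine ⟨l ++ l', fun Y hY => (List.mem_append.1 hY).elim (hl Y) (hl' Y), ?_⟩
    rw [List.prod_append]
    exact ⟨x, hx, y, hy, rfl⟩

end GGrpAux

open GGrpAux

theorem irreducibleSpace_of_connected (hc : ∀ B C : Set G, IsClosed B → IsClosed C →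
    B ∪ C = Set.univ → B ∩ C = ∅ → B = Set.univ ∨ C = Set.univ) : IrreducibleSpace G :=
  { isPreirreducible_univ := ConnAux.preirreducible (1 : G)
      (fun x y => ⟨hL cL (y * x⁻¹), by simp [hL_apply]⟩) hc
    toNonempty := ⟨1⟩ }

theorem isClosed_of_par {H : Subgroup G} (h : Par (H : Set G)) : IsClosed (H : Set G) := by
  refine isClosed_of_closure_subset ((closure_sub_mul h H rfl).trans ?_)
  rintro _ ⟨a, ha, b, hb, rfl⟩
  exact H.mul_mem ha hb

/-- The identity component. -/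
theorem exists_idcomp (H : Subgroup G) (hH : IsClosed (H : Set G)) : ∃ H₀ : Subgroup G,
    H₀ ≤ H ∧ IsClosed (H₀ : Set G) ∧ IsIrreducible (H₀ : Set G) ∧
      ∃ s : Finset G, (∀ t ∈ s, t ∈ H) ∧ ∀ h ∈ H, ∃ t ∈ s, t⁻¹ * h ∈ H₀ := by
  classical
  have : TopologicalSpace.NoetherianSpace H :=
    Topology.IsInducing.subtypeVal.noetherianSpace
  obtain ⟨K, h1, h2, s, h3⟩ := idcomp (X := H) fun a =>
    ((cL (a : G)).comp continuous_subtype_val).subtype_mk _
  refine ⟨K.map H.subtype, Subgroup.map_subtype_le K,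
    hH.isClosedEmbedding_subtypeVal.isClosedMap _ h1,
    h2.image _ continuous_subtype_val.continuousOn, s.image Subtype.val, fun t ht => ?_,
    fun g hg => ?_⟩
  · obtain ⟨u, -, rfl⟩ := Finset.mem_image.1 ht
    exact u.2
  · obtain ⟨t, ht, e⟩ := h3 ⟨g, hg⟩
    exact ⟨t, Finset.mem_image_of_mem _ ht, _, e, rfl⟩

/-- Bounded generation. -/
theorem exists_gen (𝒴 : Set (Set G)) (h : ∀ Y ∈ 𝒴, Par Y ∧ (1 : G) ∈ Y) :
    ∃ l : List (Set G), (∀ Y ∈ l, Y ∈ 𝒴 ∨ Y⁻¹ ∈ 𝒴) ∧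
      l.prod = (Subgroup.closure (⋃₀ 𝒴) : Set G) ∧ Par l.prod := by
  obtain ⟨_, ⟨l, hl, rfl⟩, hmax⟩ := exists_max_irr
    {Z : Set G | ∃ l : List (Set G), (∀ Y ∈ l, Y ∈ 𝒴 ∨ Y⁻¹ ∈ 𝒴) ∧ Z = closure l.prod}
    ⟨_, [], by simp, rfl⟩ (by
      rintro _ ⟨l, hl, rfl⟩
      exact ⟨isClosed_closure, isIrreducible_iff_closure.2 (gen_facts h l hl).1.isIrreducible⟩)
  obtain ⟨a1, a2, a3⟩ := gen_facts h l hl
  have hsub : (Subgroup.closure (⋃₀ 𝒴) : Set G) ⊆ closure l.prod := by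
    intro g hg
    obtain ⟨l', hl', hg⟩ := gen_mem hg
    have hll : ∀ Y ∈ l ++ l', Y ∈ 𝒴 ∨ Y⁻¹ ∈ 𝒴 := fun Y hY =>
      (List.mem_append.1 hY).elim (hl Y) (hl' Y)
    rw [← hmax _ ⟨l ++ l', hll, rfl⟩ (closure_mono fun x hx => by
      rw [List.prod_append]
      exact ⟨x, hx, 1, (gen_facts h l' hl').2.1, mul_one _⟩), List.prod_append]
    exact subset_closure ⟨1, a2, g, hg, one_mul _⟩
  have e : closure l.prod = closure (Subgroup.closure (⋃₀ 𝒴) : Set G) :=
    (closure_mono a3).antisymm (closure_minimal hsub isClosed_closure)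
  have hll : ∀ Y ∈ l ++ l, Y ∈ 𝒴 ∨ Y⁻¹ ∈ 𝒴 := fun Y hY =>
    (List.mem_append.1 hY).elim (hl Y) (hl Y)
  obtain ⟨b1, -, b3⟩ := gen_facts h _ hll
  refine ⟨l ++ l, hll, b3.antisymm ?_, b1⟩
  rw [List.prod_append]
  exact subset_closure.trans (closure_sub_mul a1 _ e)

theorem isOpenMap_orbit [IrreducibleSpace G] {X : Type} [TopologicalSpace X] [QP X]
    [MulAction G X] [MulAction.IsPretransitive G X] (hact : Mor₂ fun (g : G) (x : X) => g • x)
    (x₀ : X) : IsOpenMap fun g : G => g • x₀ := by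
  have hreg : Reg (cone (Set.univ : Set G)) fun y => taut G y • x₀ :=
    hact _ _ _ _ (reg_taut _) (reg_const _ x₀)
  obtain ⟨p, ⟨y₁, hy₁, hp⟩, H⟩ := hreg.generic_open (alc_cone isClosed_univ.isLocallyClosed)
    (airr_cone (IrreducibleSpace.isIrreducible_univ G))
  have him : (fun y => taut G y • x₀) '' cone (Set.univ : Set G) = Set.univ := by
    refine Set.eq_univ_of_forall fun x => ?_
    obtain ⟨g, rfl⟩ := MulAction.exists_smul_eq G x₀ x
    exact ⟨rp g, rp_mem_cone (Set.mem_univ g), by simp only [taut_rp]⟩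
  rw [him, closure_univ] at H
  intro U hU
  refine isOpen_iff_forall_mem_open.2 ?_
  rintro _ ⟨u, hu, rfl⟩
  obtain ⟨q, hq, hq'⟩ := (reg_taut (Set.univ : Set G)).exists_bas
    (hU.preimage (cL (taut G y₁ * u⁻¹)⁻¹)) hy₁ (by simpa using hu)
  obtain ⟨O, hO, e⟩ := H q
  rw [Set.inter_univ] at e
  refine ⟨(fun x : X => (taut G y₁ * u⁻¹) • x) ⁻¹' O, fun z hz => ?_,
    hO.preimage (hact.right _).continuous, ?_⟩
  · rw [Set.mem_preimage, ← e] at hz
    obtain ⟨y, ⟨hy, hpq⟩, hz⟩ := hz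
    refine ⟨_, hq' y ⟨hy, fun h0 => hpq (by rw [map_mul, h0, mul_zero])⟩, ?_⟩
    dsimp only at hz ⊢
    rw [mul_smul, hz, inv_smul_smul]
  · rw [Set.mem_preimage, ← e]
    refine ⟨y₁, ⟨hy₁, by rw [map_mul]; exact mul_ne_zero hp hq⟩, ?_⟩
    dsimp only
    rw [← mul_smul, inv_mul_cancel_right]

end Kol68
end

-- merged part: Pool.Agent.Work.MP_c53807_ag.GDesc
section
/-!
Descent of regularity along orbit maps.
-/

open MvPolynomial Topology

namespace Kol68

variable {τ : Type} {G V W U : Type} [Group G] [TopologicalSpace G] [AG G] [IrreducibleSpace G]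
  [TopologicalSpace V] [QP V] [TopologicalSpace W] [QP W] [TopologicalSpace U] [QP U]
  [MulAction G V] [MulAction.IsPretransitive G V]

theorem Fam.descend [Finite τ] (hact : Mor₂ fun (g : G) (v : V) => g • v) (v₀ : V)
    {B : Set (τ → ℂ)} {a : (τ → ℂ) → V → W} (h : Fam B fun b (g : G) => a b (g • v₀)) :
    Fam B a := by
  have : Nonempty G := ⟨1⟩
  have hT := reg_taut (Set.univ : Set G)
  obtain ⟨O, hO, ⟨v₁, hv₁, -⟩, hF⟩ := generic_descent (π := fun y => taut G y • v₀)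
    (B := aprod (cone (Set.univ : Set G)) B)
    (a := fun z v => a (z ∘ Sum.inr) (taut G (z ∘ Sum.inl) • v))
    (alc_cone isClosed_univ.isLocallyClosed) (airr_cone (IrreducibleSpace.isIrreducible_univ G))
    (hact.left v₀ _ _ _ hT)
    ((h _ _ (fun z => (z ∘ Sum.inl) ∘ Sum.inr)
      (fun z => taut G ((z ∘ Sum.inl) ∘ Sum.inl) * taut G (z ∘ Sum.inr))
      ((amor_comp _ _).precomp _) (fun _ hz => hz.1.2)
      ((hT.comp ((amor_comp _ _).precomp _) fun _ hz => hz.1.1).mul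
        (hT.comp (amor_comp _ _) fun _ hz => hz.2))).congr fun z _ => by simp only [mul_smul])
  intro ρ A β ψ hβ hm hψ
  refine Reg.of_local fun y₀ hy => ?_
  obtain ⟨s, hs⟩ := MulAction.exists_smul_eq G (ψ y₀) v₁
  have hs' : Reg A fun y => s • ψ y := hact.right s _ _ _ hψ
  obtain ⟨p, hp, hp'⟩ := hs'.exists_bas hO hy (hs ▸ hv₁)
  refine ⟨p, hp, (hF ρ (bas A p) (fun y => Sum.elim (rp s⁻¹) (β y)) (fun y => s • ψ y)
    ((amor_const _ _).elim (hβ.mono (bas_subset A p)))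
    (fun y hy => elim_mem_aprod.2 ⟨rp_mem_cone trivial, hm hy.1⟩) (hs'.mono (bas_subset A p))
    fun y hy => ⟨hp' y hy, ?_⟩).congr fun y _ => ?_⟩
  · obtain ⟨g, hg⟩ := MulAction.exists_smul_eq G v₀ (s • ψ y)
    exact ⟨rp g, rp_mem_cone trivial, by simp only [taut_rp, hg]⟩
  · simp only [Sum.elim_comp_inl, Sum.elim_comp_inr, taut_rp, inv_smul_smul]

theorem Mor.descend (hact : Mor₂ fun (g : G) (v : V) => g • v) (v₀ : V) {f : V → W}
    (h : Mor fun g : G => f (g • v₀)) : Mor f := fun ρ A φ hφ =>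
  Fam.descend (τ := Empty) hact v₀ (B := Set.univ) (a := fun _ v => f v)
    (fun ρ A _ ψ _ _ hψ => h ρ A ψ hψ) ρ A (fun _ => 0) φ (amor_const _ _)
    (Set.mapsTo_univ _ _) hφ

theorem FMor.descend (hact : Mor₂ fun (g : G) (v : V) => g • v) (v₀ : V) {f : V → ℂ}
    (h : FMor fun g : G => f (g • v₀)) : FMor f :=
  fmor_iff_mor.2 (Mor.descend hact v₀ (fmor_iff_mor.1 h))

theorem Mor₂.descend (hact : Mor₂ fun (g : G) (v : V) => g • v) (v₀ : V) {m : V → W → U}
    (h : Mor₂ fun (g : G) (w : W) => m (g • v₀) w) : Mor₂ m := by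
  intro ρ A φ ψ hφ hψ
  rcases isEmpty_or_nonempty W with hW | hW
  · exact fun y _ => hW.elim (ψ y)
  · exact mor₂_of_fam (m := fun w v => m v w) (Fam.descend hact v₀
      (a := fun b v => m v (taut W b)) fun ρ A β χ hβ hm hχ =>
        h ρ A χ _ hχ ((reg_taut (Set.univ : Set W)).comp hβ hm)) ρ A ψ φ hψ hφ

end Kol68
end

-- merged part: Pool.Agent.Work.MP_c53807_ag.GGL
section
/-!
The general linear group as an algebraic group.
-/

open MvPolynomial Topology
open scoped Matrix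

namespace Kol68

variable {n : ℕ} {ρ : Type}

/-- The general linear group with the Zariski topology. -/
def ZGL (n : ℕ) : Type := GL (Fin n) ℂ

noncomputable instance : Group (ZGL n) := inferInstanceAs (Group (GL (Fin n) ℂ))

/-- The underlying invertible matrix. -/
def ZGL.gl (g : ZGL n) : GL (Fin n) ℂ := g

/-- The underlying matrix. -/
def ZGL.mat (g : ZGL n) : Mt n := (g.gl : Mt n)

theorem ZGL.gl_mul (g h : ZGL n) : (g * h).gl = g.gl * h.gl := rfl

theorem ZGL.gl_inv (g : ZGL n) : g⁻¹.gl = g.gl⁻¹ := rfl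

theorem ZGL.gl_one : (1 : ZGL n).gl = 1 := rfl

theorem ZGL.mat_mul (g h : ZGL n) : (g * h).mat = g.mat * h.mat := rfl

theorem ZGL.mat_one : (1 : ZGL n).mat = 1 := rfl

theorem ZGL.ext {g h : ZGL n} (e : g.mat = h.mat) : g = h := Units.ext e

theorem ZGL.det_ne (g : ZGL n) : g.mat.det ≠ 0 :=
  ((Matrix.isUnit_iff_isUnit_det _).1 g.gl.isUnit).ne_zero

/-- An invertible matrix as an element of the group. -/
noncomputable def ZGL.mk (M : Mt n) (h : M.det ≠ 0) : ZGL n :=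
  Matrix.GeneralLinearGroup.mkOfDetNeZero M h

theorem ZGL.mat_mk (M : Mt n) (h : M.det ≠ 0) : (ZGL.mk M h).mat = M := rfl

/-- The vector `(1, g)`. -/
def ZGL.vec (g : ZGL n) : Option (Fin n × Fin n) → ℂ := fun o => o.elim 1 fun ij => g.mat ij.1 ij.2

theorem ZGL.vec_ne (g : ZGL n) : g.vec ≠ 0 := fun h => by simpa [ZGL.vec] using congrFun h none

/-- The point `[1 : g]`. -/
noncomputable def ZGL.toP (g : ZGL n) : PS (Option (Fin n × Fin n)) :=
  Projectivization.mk ℂ g.vec g.vec_ne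

noncomputable instance : TopologicalSpace (ZGL n) := TopologicalSpace.induced ZGL.toP zar

theorem ZGL.toP_rep (g : ZGL n) : ∃ c : ℂ, c ≠ 0 ∧ g.toP.rep = c • g.vec := mk_rep_eq _ _

theorem ZGL.toP_injective : Function.Injective (ZGL.toP : ZGL n → _) := by
  intro g h e
  obtain ⟨a, ha⟩ := (Projectivization.mk_eq_mk_iff' ℂ _ _ _ _).1 e
  have h1 : a = 1 := by simpa [ZGL.vec] using congrFun ha none
  rw [h1, one_smul] at ha
  exact ZGL.ext (Matrix.ext fun i j => (congrFun ha (some (i, j))).symm)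

/-- The matrix part of a vector. -/
def ZGL.mp {R : Type} (w : Option (Fin n × Fin n) → R) : Matrix (Fin n) (Fin n) R :=
  Matrix.of fun i j => w (some (i, j))

theorem ZGL.mp_smul (c : ℂ) (w : Option (Fin n × Fin n) → ℂ) : ZGL.mp (c • w) = c • ZGL.mp w := rfl

theorem ZGL.mem_range {x : PS (Option (Fin n × Fin n))} :
    x ∈ Set.range (ZGL.toP : ZGL n → _) ↔ x.rep none * (ZGL.mp x.rep).det ≠ 0 := by
  constructor
  · rintro ⟨g, rfl⟩
    obtain ⟨c, hc, e⟩ := g.toP_rep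
    rw [e, ZGL.mp_smul, Matrix.det_smul]
    exact mul_ne_zero (by simpa [ZGL.vec] using hc) (mul_ne_zero (pow_ne_zero _ hc) g.det_ne)
  · intro h
    obtain ⟨h1, h2⟩ := mul_ne_zero_iff.1 h
    refine ⟨ZGL.mk ((x.rep none)⁻¹ • ZGL.mp x.rep) ?_,
      (eq_mk_of_smul _ (c := (x.rep none)⁻¹) ?_).symm⟩
    · rw [Matrix.det_smul]
      exact mul_ne_zero (pow_ne_zero _ (inv_ne_zero h1)) h2
    · funext o
      rcases o with _ | ⟨i, j⟩
      · exact (inv_mul_cancel₀ h1).symm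
      · rfl

theorem ZGL.lc : IsLocallyClosed (Set.range (ZGL.toP : ZGL n → _)) := by
  refine IsOpen.isLocallyClosed (isClosed_compl_iff.1 (isClosed_ps_iff.2
    ⟨{X none * (ZGL.mp X).det}, fun x => ?_⟩))
  have key : ∀ w : Option (Fin n × Fin n) → ℂ,
      eval w (X none * (ZGL.mp X).det) = w none * (ZGL.mp w).det := fun w => by
    rw [map_mul, eval_X, RingHom.map_det]
    congr 2
    ext i j
    simp [ZGL.mp]
  simp only [Set.mem_compl_iff, ZGL.mem_range, not_not, Set.mem_singleton_iff, forall_eq, key]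
  refine ⟨fun h c => ?_, fun h => by simpa using h 1⟩
  rw [ZGL.mp_smul, Matrix.det_smul, Pi.smul_apply, smul_eq_mul]
  linear_combination c * c ^ Fintype.card (Fin n) * h

/-- The quasi-projective structure. -/
@[reducible] noncomputable def ZGL.qp (n : ℕ) : QP (ZGL n) where
  σ := Option (Fin n × Fin n)
  fin := inferInstance
  ι := ZGL.toP
  emb := ⟨⟨rfl⟩, ZGL.toP_injective⟩
  lc := ZGL.lc

theorem ZGL.preg_iff {A : Set (ρ → ℂ)} {φ : (ρ → ℂ) → ZGL n} :
    (PReg A fun y => (φ y).toP) ↔ ∀ i j, FReg A fun y => (φ y).mat i j := by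
  constructor
  · intro h i j
    refine (h.ratio (isHomogeneous_X ℂ (some (i, j))) (isHomogeneous_X ℂ none)
      fun y _ => ?_).congr fun y _ => ?_
    · obtain ⟨c, hc, e⟩ := (φ y).toP_rep
      simpa [e, ZGL.vec] using hc
    · obtain ⟨c, hc, e⟩ := (φ y).toP_rep
      simp [e, ZGL.vec, hc]
  · intro h
    refine preg_mk (v := fun y => (φ y).vec) ?_ (fun y _ => (φ y).vec_ne) fun _ _ => rfl
    rintro (_ | ⟨i, j⟩)
    exacts [freg_const A 1, h i j]

theorem ZGL.preg_mul {A : Set (ρ → ℂ)} {φ ψ : (ρ → ℂ) → ZGL n} (h : PReg A fun y => (φ y).toP)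
    (h' : PReg A fun y => (ψ y).toP) : PReg A fun y => (φ y * ψ y).toP := by
  rw [ZGL.preg_iff] at h h' ⊢
  intro i j
  simp only [ZGL.mat_mul, Matrix.mul_apply]
  exact FReg.sum _ fun k _ => (h i k).mul (h' k j)

theorem ZGL.mat_inv (g : ZGL n) : g⁻¹.mat = g.mat.det⁻¹ • g.mat.adjugate := by
  rw [ZGL.mat, ZGL.gl_inv, Matrix.coe_units_inv, Matrix.inv_def, Ring.inverse_eq_inv']
  rfl

theorem ZGL.preg_inv {A : Set (ρ → ℂ)} {φ : (ρ → ℂ) → ZGL n} (h : PReg A fun y => (φ y).toP) :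
    PReg A fun y => (φ y)⁻¹.toP := by
  rw [ZGL.preg_iff] at h ⊢
  intro i j
  simp only [ZGL.mat_inv, Matrix.smul_apply, smul_eq_mul, Matrix.adjugate_apply]
  refine ((FReg.det h).inv fun y _ => (φ y).det_ne).mul (FReg.det fun a b => ?_)
  simp only [Matrix.updateRow_apply]
  split_ifs
  exacts [freg_const A _, h a b]

noncomputable instance ZGL.ag : AG (ZGL n) where
  toQP := ZGL.qp n
  mul_mor := fun _ _ _ _ h h' => ZGL.preg_mul h h'
  inv_mor := fun _ _ _ h => ZGL.preg_inv h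

theorem reg_zgl_iff {A : Set (ρ → ℂ)} {φ : (ρ → ℂ) → ZGL n} :
    Reg A φ ↔ ∀ i j, FReg A fun y => (φ y).mat i j := ZGL.preg_iff

theorem ZGL.freg_ev {A : Set (ρ → ℂ)} {φ : (ρ → ℂ) → ZGL n} (h : Reg A φ) (p : PM n) :
    FReg A fun y => ev (φ y).mat p :=
  AMor.eval (Θ := fun y (ij : Fin n × Fin n) => (φ y).mat ij.1 ij.2)
    (fun ij => reg_zgl_iff.1 h ij.1 ij.2) p

theorem ZGL.isClosed_zero (p : PM n) : IsClosed {g : ZGL n | ev g.mat p = 0} :=
  FMor.isClosed_eq (u := fun g : ZGL n => ev g.mat p) (v := fun _ => 0)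
    (fun _ _ _ h => ZGL.freg_ev h p) fun _ A _ _ => freg_const A 0

theorem isClosed_zgl_iff {B : Set (ZGL n)} : IsClosed B ↔ GLClosed (N := n) B := by
  constructor
  · intro h
    obtain ⟨Z, hZ, rfl⟩ := isClosed_induced_iff.1 h
    obtain ⟨S, hS, rfl⟩ := isClosed_ps_iff_hom.1 hZ
    refine ⟨(aeval fun o : Option (Fin n × Fin n) => (o.elim 1 X : PM n)) '' S, ?_⟩
    refine Set.ext fun g : ZGL n => ?_
    have key : ∀ p : MvPolynomial (Option (Fin n × Fin n)) ℂ,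
        ev g.mat (aeval (fun o : Option (Fin n × Fin n) => (o.elim 1 X : PM n)) p) =
          eval g.vec p := fun p => by
      rw [← AlgHom.comp_apply, comp_aeval]
      change eval _ p = _
      congr 2
      funext o
      rcases o with _ | ⟨i, j⟩
      · simp [ZGL.vec]
      · simp [ZGL.vec, ev]
    obtain ⟨c, hc, e⟩ := g.toP_rep
    change (∀ p ∈ S, eval g.toP.rep p = 0) ↔ ∀ p ∈ _, ev g.mat p = 0
    rw [Set.forall_mem_image]
    refine forall₂_congr fun p hp => ?_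
    obtain ⟨d, hd⟩ := hS p hp
    rw [key, e, eval_smul_hom hd, mul_eq_zero, or_iff_right (pow_ne_zero _ hc)]
  · rintro ⟨S, e⟩
    have : B = ⋂ p ∈ S, {g : ZGL n | ev g.mat p = 0} := by
      refine Set.ext fun g : ZGL n => ?_
      rw [Set.mem_iInter₂, e]
      rfl
    rw [this]
    exact isClosed_biInter fun p _ => ZGL.isClosed_zero p

theorem isIrreducible_zgl_iff {B : Set (ZGL n)} :
    IsIrreducible B ↔ (vanI (N := n) B).IsPrime := by
  constructor
  · rintro ⟨⟨g, hg⟩, h⟩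
    refine ⟨(Ideal.ne_top_iff_one _).2 fun h1 => ?_, fun {p q} hpq => ?_⟩
    · simpa using mem_vanI.1 h1 g hg
    · refine (isPreirreducible_iff_isClosed_union_isClosed.1 h _ _ (ZGL.isClosed_zero p)
        (ZGL.isClosed_zero q) fun x hx => ?_).imp (fun a x hx => a hx) fun a x hx => a hx
      have := mem_vanI.1 hpq x hx
      rw [map_mul] at this
      exact mul_eq_zero.1 this
  · intro h
    refine ⟨?_, isPreirreducible_iff_isClosed_union_isClosed.2 fun Z₁ Z₂ h₁ h₂ hB => ?_⟩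
    · by_contra c
      exact (Ideal.ne_top_iff_one _).1 h.ne_top fun g hg => (c ⟨g, hg⟩).elim
    · obtain ⟨S₁, rfl⟩ := isClosed_zgl_iff.1 h₁
      obtain ⟨S₂, rfl⟩ := isClosed_zgl_iff.1 h₂
      refine or_iff_not_imp_left.2 fun c g hg q hq => ?_
      by_contra c'
      refine c fun g' hg' p hp => ?_
      refine ((h.mem_or_mem (x := p) (y := q) fun x hx => ?_).resolve_right
        fun a => c' (a g hg)) g' hg'
      rw [map_mul]
      exact mul_eq_zero.2 ((hB hx).imp (fun a => a p hp) fun a => a q hq)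

theorem fmor_natFun (φ : NatFun n) : FMor fun g : ZGL n => φ.f ℂ g.gl := by
  obtain ⟨k, p, hp⟩ := φ.univ
  intro ρ A ψ h
  refine ((ZGL.freg_ev h p).div ((FReg.det (reg_zgl_iff.1 h)).pow k)
    fun y _ => pow_ne_zero _ (ψ y).det_ne).congr fun y _ => ?_
  exact eq_div_of_mul_eq (pow_ne_zero _ (ψ y).det_ne) (hp ℂ (ψ y).gl)

theorem mor₂_act : Mor₂ fun (g : ZGL n) (x : PS (Fin n)) => act g.gl x := by
  intro ρ A φ ψ hφ hψ
  refine PReg.of_local fun y₀ hy => ?_
  obtain ⟨F, p, hp, hF⟩ := PReg.lift (φ := ψ) hψ hy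
  have ne : ∀ y ∈ bas A p, evv y F ≠ 0 := fun y hy => by
    obtain ⟨c, hc, e⟩ := hF y hy
    rw [e]
    exact smul_ne_zero hc (ψ y).rep_nonzero
  refine ⟨p, hp, preg_mk (v := fun y => (φ y).mat *ᵥ evv y F) (fun i => ?_)
    (fun y hy => mulVec_ne_zero (φ y).gl (ne y hy)) fun y hy => ?_⟩
  · simp only [Matrix.mulVec, dotProduct]
    exact FReg.sum _ fun j _ =>
      ((reg_zgl_iff.1 hφ i j).mono (bas_subset A p)).mul (freg_eval _ (F j))
  · obtain ⟨c, -, e⟩ := hF y hy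
    change act (φ y).gl (ψ y) = _
    conv_lhs => rw [eq_mk_of_smul (ne y hy) e]
    exact act_mk _ _ _

end Kol68
end

-- merged part: Pool.Agent.Work.MP_c53807_ag.GFun
section
/-!
The function field of an irreducible variety.
-/

open MvPolynomial Topology Filter

namespace Kol68

/-- Germs of complex functions form an algebra. -/
noncomputable scoped instance germAlgebra {α : Type} (l : Filter α) : Algebra ℂ (Germ l ℂ) :=
  Algebra.ofModule
    (fun c f g => Germ.inductionOn₂ f g fun f g =>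
      congrArg Germ.ofFun (smul_mul_assoc c f g))
    (fun c f g => Germ.inductionOn₂ f g fun f g =>
      congrArg Germ.ofFun (mul_smul_comm c f g))

/-- The germ of a function. -/
noncomputable def germHom {α : Type} (l : Filter α) : (α → ℂ) →ₐ[ℂ] Germ l ℂ :=
  AlgHom.mk' (Germ.coeRingHom l) fun _ _ => rfl

theorem germHom_apply {α : Type} (l : Filter α) (u : α → ℂ) : germHom l u = (u : Germ l ℂ) := rfl

theorem germ_algebraMap {α : Type} (l : Filter α) (c : ℂ) :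
    algebraMap ℂ (Germ l ℂ) c = (fun _ => c : α → ℂ) := ((germHom l).commutes c).symm

/-- Composition of germs. -/
noncomputable def germComp {α β : Type} {l : Filter α} {l' : Filter β} (g : β → α)
    (hg : Tendsto g l' l) : Germ l ℂ →ₐ[ℂ] Germ l' ℂ where
  toFun f := f.compTendsto g hg
  map_one' := rfl
  map_mul' f f' := Germ.inductionOn₂ f f' fun _ _ => rfl
  map_zero' := rfl
  map_add' f f' := Germ.inductionOn₂ f f' fun _ _ => rfl
  commutes' c := by rw [germ_algebraMap, germ_algebraMap]; rfl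

theorem germComp_coe {α β : Type} {l : Filter α} {l' : Filter β} (g : β → α)
    (hg : Tendsto g l' l) (u : α → ℂ) :
    germComp g hg (u : Germ l ℂ) = (fun x => u (g x) : β → ℂ) := rfl

variable {σ : Type} (X : Type) [TopologicalSpace X] [QP X] [IrreducibleSpace X]

/-- The filter of sets containing a nonempty open set. -/
def genF : Filter X where
  sets := {s | ∃ O : Set X, IsOpen O ∧ O.Nonempty ∧ O ⊆ s}
  univ_sets := ⟨Set.univ, isOpen_univ, Set.univ_nonempty, le_rfl⟩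
  sets_of_superset := fun ⟨O, h₁, h₂, h₃⟩ h => ⟨O, h₁, h₂, h₃.trans h⟩
  inter_sets := fun ⟨O, h₁, h₂, h₃⟩ ⟨O', h₁', h₂', h₃'⟩ =>
    ⟨O ∩ O', h₁.inter h₁', nonempty_preirreducible_inter h₁ h₁' h₂ h₂',
      Set.inter_subset_inter h₃ h₃'⟩

omit [QP X] in
theorem mem_genF {s : Set X} : s ∈ genF X ↔ ∃ O : Set X, IsOpen O ∧ O.Nonempty ∧ O ⊆ s := Iff.rfl

omit [QP X] in
theorem eventually_genF {p : X → Prop} :
    (∀ᶠ x in genF X, p x) ↔ ∃ O : Set X, IsOpen O ∧ O.Nonempty ∧ ∀ x ∈ O, p x := Iff.rfl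

omit [QP X] in
theorem open_mem_genF {O : Set X} (h : IsOpen O) (hne : O.Nonempty) : O ∈ genF X :=
  ⟨O, h, hne, le_rfl⟩

instance genF_neBot : (genF X).NeBot :=
  ⟨fun h => by
    obtain ⟨O, -, ⟨x, hx⟩, h'⟩ := (mem_genF X).1 (h ▸ mem_bot : (∅ : Set X) ∈ genF X)
    exact h' hx⟩

/-- Germs of rational functions. -/
noncomputable def rfS : Subalgebra ℂ (Germ (genF X) ℂ) where
  carrier := {f | ∃ (u : X → ℂ) (O : Set X), IsOpen O ∧ O.Nonempty ∧ FMorOn O u ∧ f = u}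
  mul_mem' := by
    rintro _ _ ⟨u, O, h₁, h₂, h₃, rfl⟩ ⟨u', O', h₁', h₂', h₃', rfl⟩
    exact ⟨u * u', O ∩ O', h₁.inter h₁', nonempty_preirreducible_inter h₁ h₁' h₂ h₂',
      fun ρ A φ hφ hm => (h₃ ρ A φ hφ fun _ hy => (hm hy).1).mul
        (h₃' ρ A φ hφ fun _ hy => (hm hy).2), rfl⟩
  add_mem' := by
    rintro _ _ ⟨u, O, h₁, h₂, h₃, rfl⟩ ⟨u', O', h₁', h₂', h₃', rfl⟩
    exact ⟨u + u', O ∩ O', h₁.inter h₁', nonempty_preirreducible_inter h₁ h₁' h₂ h₂',
      fun ρ A φ hφ hm => (h₃ ρ A φ hφ fun _ hy => (hm hy).1).add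
        (h₃' ρ A φ hφ fun _ hy => (hm hy).2), rfl⟩
  algebraMap_mem' c := ⟨fun _ => c, Set.univ, isOpen_univ, Set.univ_nonempty,
    fun _ A _ _ _ => freg_const A c, germ_algebraMap _ c⟩

/-- The function field. -/
def RF : Type := rfS X

theorem isField_rfS : IsField (rfS X) where
  exists_pair_ne := ⟨0, 1, zero_ne_one⟩
  mul_comm := mul_comm
  mul_inv_cancel := by
    rintro ⟨_, u, O, h₁, h₂, h₃, rfl⟩ h
    have hne : {y | y ∈ O ∧ u y ≠ 0}.Nonempty := by
      by_contra hc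
      refine h (Subtype.ext (Germ.coe_eq.2 ⟨O, h₁, h₂, fun y hy => ?_⟩))
      by_contra h0
      exact hc ⟨y, hy, h0⟩
    refine ⟨⟨(u⁻¹ : X → ℂ), u⁻¹, _, h₃.isOpen_ne h₁, hne, fun ρ A φ hφ hm =>
      (h₃ ρ A φ hφ fun _ hy => (hm hy).1).inv fun _ hy => (hm hy).2, rfl⟩, Subtype.ext ?_⟩
    exact Germ.coe_eq.2 ⟨_, h₃.isOpen_ne h₁, hne, fun y hy => mul_inv_cancel₀ hy.2⟩

noncomputable instance : Field (RF X) := (isField_rfS X).toField

noncomputable instance : Algebra ℂ (RF X) := inferInstanceAs (Algebra ℂ (rfS X))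

/-- The germ of a rational function. -/
noncomputable def RF.germ : RF X →ₐ[ℂ] Germ (genF X) ℂ := (rfS X).val

variable {X}

theorem RF.germ_injective : Function.Injective (RF.germ X) := Subtype.val_injective

/-- A regular function on a nonempty open set as a rational function. -/
def RF.mk {u : X → ℂ} {O : Set X} (h₁ : IsOpen O) (h₂ : O.Nonempty) (h₃ : FMorOn O u) : RF X :=
  ⟨u, u, O, h₁, h₂, h₃, rfl⟩

theorem RF.germ_mk {u : X → ℂ} {O : Set X} (h₁ : IsOpen O) (h₂ : O.Nonempty) (h₃ : FMorOn O u) :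
    RF.germ X (RF.mk h₁ h₂ h₃) = u := rfl

theorem RF.exists_rep₁ (b : RF X) : ∃ (u : X → ℂ) (O : Set X), IsOpen O ∧ O.Nonempty ∧
    FMorOn O u ∧ RF.germ X b = u := b.2

/-- Common representatives of finitely many rational functions. -/
theorem RF.exists_rep [Finite σ] (b : σ → RF X) : ∃ (u : X → σ → ℂ) (O : Set X), IsOpen O ∧
    O.Nonempty ∧ ∀ i, FMorOn O (fun x => u x i) ∧ RF.germ X (b i) = (fun x => u x i : X → ℂ) := by
  choose u O h₁ h₂ h₃ h₄ using fun i => RF.exists_rep₁ (b i)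
  refine ⟨fun x i => u i x, ⋂ i, O i, isOpen_iInter_of_finite h₁, ?_,
    fun i => ⟨(h₃ i).mono (Set.iInter_subset _ i), h₄ i⟩⟩
  exact Filter.nonempty_of_mem (iInter_mem.2 fun i => open_mem_genF X (h₁ i) (h₂ i))

theorem RF.eventually_ne {b : RF X} (hb : b ≠ 0) {u : X → ℂ} (h : RF.germ X b = u) :
    ∀ᶠ x in genF X, u x ≠ 0 := by
  obtain ⟨v, O, -, -, -, hv⟩ := RF.exists_rep₁ b⁻¹
  have h1 : ((u * v : X → ℂ) : Germ (genF X) ℂ) = (1 : X → ℂ) := by
    rw [Germ.coe_mul, ← h, ← hv, ← map_mul, mul_inv_cancel₀ hb, map_one]; rfl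
  filter_upwards [Germ.coe_eq.1 h1] with x hx
  exact left_ne_zero_of_mul_eq_one hx

section Pull

variable {Γ : Type} [Group Γ] [MulAction Γ X] (hact : ∀ g : Γ, Mor fun x : X => g • x)

include hact in
theorem tendsto_smul_genF (g : Γ) : Tendsto (fun x : X => g • x) (genF X) (genF X) := by
  rintro s ⟨O, h₁, ⟨x, hx⟩, h₃⟩
  exact ⟨_, h₁.preimage (hact g).continuous, ⟨g⁻¹ • x, by simpa using hx⟩, fun _ hy => h₃ hy⟩

/-- Pull-back of rational functions. -/
noncomputable def pull (g : Γ) : RF X →ₐ[ℂ] RF X :=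
  ((germComp _ (tendsto_smul_genF hact g)).comp (RF.germ X)).codRestrict (rfS X) fun f => by
    obtain ⟨u, O, h₁, ⟨x, hx⟩, h₃, h₄⟩ := RF.exists_rep₁ f
    exact ⟨fun x => u (g • x), _, h₁.preimage (hact g).continuous, ⟨g⁻¹ • x, by simpa using hx⟩,
      h₃.comp ((hact g).morOn _) fun _ hy => hy, by rw [AlgHom.comp_apply, h₄]; rfl⟩

theorem germ_pull (g : Γ) {f : RF X} {u : X → ℂ} (h : RF.germ X f = u) :
    RF.germ X (pull hact g f) = (fun x => u (g • x) : X → ℂ) :=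
  (congrArg (germComp _ (tendsto_smul_genF hact g)) h).trans rfl

theorem pull_mul (g h : Γ) (f : RF X) : pull hact (g * h) f = pull hact h (pull hact g f) := by
  obtain ⟨u, -, -, -, -, hu⟩ := RF.exists_rep₁ f
  refine RF.germ_injective ?_
  rw [germ_pull hact _ hu, germ_pull hact _ (germ_pull hact _ hu)]
  simp only [mul_smul]

theorem pull_congr {g h : Γ} (e : ∀ x : X, g • x = h • x) : pull hact g = pull hact h := by
  ext f
  obtain ⟨u, -, -, -, -, hu⟩ := RF.exists_rep₁ f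
  refine RF.germ_injective ?_
  rw [germ_pull hact _ hu, germ_pull hact _ hu]
  simp only [e]

theorem pull_one : pull hact 1 = AlgHom.id ℂ (RF X) := by
  ext f
  obtain ⟨u, -, -, -, -, hu⟩ := RF.exists_rep₁ f
  refine RF.germ_injective ?_
  rw [germ_pull hact _ hu, AlgHom.id_apply, hu]
  simp only [one_smul]

end Pull

/-- `F` represents the map `θ` at the generic point. -/
def IsRep (F : σ → RF X) (θ : X → PS σ) : Prop :=
  F ≠ 0 ∧ ∃ c : X → ℂ, ∀ i, RF.germ X (F i) = (fun x => c x * (θ x).rep i : X → ℂ)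

theorem IsRep.pull {Γ : Type} [Group Γ] [MulAction Γ X] (hact : ∀ g : Γ, Mor fun x : X => g • x)
    {F : σ → RF X} {θ : X → PS σ} (h : IsRep F θ) (g : Γ) :
    IsRep (fun i => pull hact g (F i)) fun x => θ (g • x) := by
  obtain ⟨h0, c, hc⟩ := h
  refine ⟨fun e => h0 (funext fun i => ?_), fun x => c (g • x), fun i => germ_pull hact g (hc i)⟩
  exact (map_eq_zero_iff _ (Kol68.pull hact g).toRingHom.injective).1 (congrFun e i)

theorem IsRep.unique {F F' : σ → RF X} {θ : X → PS σ} (h : IsRep F θ) (h' : IsRep F' θ) :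
    ∃ c : RF X, c ≠ 0 ∧ ∀ i, F i = c * F' i := by
  obtain ⟨h0, c, hc⟩ := h
  obtain ⟨h0', c', hc'⟩ := h'
  have key : ∀ i j, F i * F' j = F j * F' i := fun i j => RF.germ_injective <| by
    rw [map_mul, map_mul, hc, hc, hc', hc', ← Germ.coe_mul, ← Germ.coe_mul]
    congr 1
    ext x
    simp only [Pi.mul_apply]
    ring
  obtain ⟨j, hj⟩ := Function.ne_iff.1 h0'
  have hj' : F' j ≠ 0 := hj
  have h1 : ∀ i, F i = F j / F' j * F' i := fun i => by
    rw [div_mul_eq_mul_div, ← key, mul_div_cancel_right₀ _ hj']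
  refine ⟨F j / F' j, fun e => h0 (funext fun i => ?_), h1⟩
  rw [h1 i, e, zero_mul]; rfl

variable (X) in
theorem exists_isRep_ι : ∃ u : QP.σ X → RF X, IsRep u QP.ι := by
  obtain ⟨x₀⟩ : Nonempty X := inferInstance
  obtain ⟨j, hj⟩ := Function.ne_iff.1 (rp_ne_zero x₀)
  have hO : IsOpen {x : X | eval (rp x) (MvPolynomial.X j) ≠ 0} :=
    isOpen_form (isHomogeneous_X ℂ j)
  have hne : {x : X | eval (rp x) (MvPolynomial.X j) ≠ 0}.Nonempty := ⟨x₀, by simpa using hj⟩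
  refine ⟨fun i => RF.mk hO hne (fmorOn_ratio (isHomogeneous_X ℂ i) (isHomogeneous_X ℂ j)),
    fun e => ?_, fun x => (rp x j)⁻¹, fun i => ?_⟩
  · have h1 := congrArg (RF.germ X) (congrFun e j)
    rw [RF.germ_mk, Pi.zero_apply, map_zero] at h1
    obtain ⟨x, hx, hx'⟩ := ((Germ.coe_eq.1 h1).and (open_mem_genF X hO hne)).exists
    exact hx' (by simpa using hx)
  · rw [RF.germ_mk]
    congr 1
    ext x
    simp only [eval_X, rp]
    ring

end Kol68
end

-- merged part: Pool.Agent.Work.MP_c53807_ag.GJet1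
section
/-!
Jets: the algebraic part, and regular families in a finite-dimensional algebra.
-/

open MvPolynomial

namespace Kol68.Jet

section Alg

variable {σ R : Type} [CommRing R] [Algebra ℂ R] (val : R →ₐ[ℂ] ℂ)

/-- The ideal of elements with value zero. -/
abbrev mx : Ideal R := RingHom.ker val

/-- The algebra of jets. -/
abbrev E (n : ℕ) : Type := R ⧸ mx val ^ n

/-- The jet of an element. -/
noncomputable abbrev jet (n : ℕ) : R →ₐ[ℂ] E val n := Ideal.Quotient.mkₐ ℂ (mx val ^ n)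

theorem mem_mx {r : R} : r ∈ mx val ↔ val r = 0 := RingHom.mem_ker

theorem jet_eq {n : ℕ} {r s : R} : jet val n r = jet val n s ↔ r - s ∈ mx val ^ n :=
  Ideal.Quotient.eq

theorem jet_surj (n : ℕ) : Function.Surjective (jet val n) := Ideal.Quotient.mkₐ_surjective ℂ _

/-- Every element is a fraction of polynomials in `s` whose denominator has nonzero value. -/
def Frac (s : σ → R) : Prop :=
  ∀ r, ∃ a b : MvPolynomial σ ℂ, val (aeval s b) ≠ 0 ∧ r * aeval s b = aeval s a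

theorem krull [Finite σ] (s : σ → R)
    (h2 : Frac val s)
    (h3 : ∀ r, val r ≠ 0 → IsUnit r) {r : R} (h : ∀ n, r ∈ mx val ^ n) : r = 0 := by
  let θ : MvPolynomial σ ℂ →+* R := (aeval s : MvPolynomial σ ℂ →ₐ[ℂ] R).toRingHom
  let M : Submonoid (MvPolynomial σ ℂ) := (IsUnit.submonoid R).comap θ
  have hM : ∀ y : M, IsUnit (θ y) := fun y => y.2
  have hs : Function.Surjective (IsLocalization.lift (S := Localization M) hM) := by
    rw [IsLocalization.lift_surjective_iff]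
    intro v
    obtain ⟨a, b, hb, e⟩ := h2 v
    exact ⟨(a, ⟨b, h3 _ hb⟩), e⟩
  have : IsNoetherianRing R := isNoetherianRing_of_surjective _ _ _ hs
  have : Nontrivial R := val.toRingHom.domain_nontrivial
  have : IsLocalRing R := IsLocalRing.of_isUnit_or_isUnit_one_sub_self fun a => by
    by_cases ha : val a = 0
    · exact Or.inr (h3 _ (by simp [ha]))
    · exact Or.inl (h3 _ ha)
  have hk := Ideal.iInf_pow_eq_bot_of_isLocalRing (I := mx val) (RingHom.ker_ne_top _)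
  have : r ∈ (⨅ n : ℕ, mx val ^ n) := Ideal.mem_iInf.2 h
  rwa [hk, Ideal.mem_bot] at this

theorem jet_div (n : ℕ) {r a b : R} (hb : val b ≠ 0) (e : r * b = a) :
    jet val n r = jet val n a * ((val b)⁻¹ •
      ∑ k ∈ Finset.range n, (1 - (val b)⁻¹ • jet val n b) ^ k) := by
  have h1 : (1 - (val b)⁻¹ • jet val n b) ^ n = 0 := by
    have : 1 - (val b)⁻¹ • b ∈ mx val := by
      rw [mem_mx, map_sub, map_one, map_smul, smul_eq_mul, inv_mul_cancel₀ hb, sub_self]
    have h := Ideal.Quotient.eq_zero_iff_mem.2 (Ideal.pow_mem_pow this n)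
    have h' : jet val n ((1 - (val b)⁻¹ • b) ^ n) = 0 := h
    rwa [map_pow, map_sub, map_one, map_smul] at h'
  have h2 := mul_neg_geom_sum (1 - (val b)⁻¹ • jet val n b) n
  rw [h1, sub_zero, sub_sub_cancel] at h2
  rw [← e, map_mul, mul_assoc, mul_smul_comm, ← smul_mul_assoc, h2, mul_one]

theorem jet_aeval_surj (s : σ → R)
    (h2 : Frac val s) (n : ℕ) :
    Function.Surjective ((jet val n).comp (aeval s)) := by
  intro e
  obtain ⟨r, rfl⟩ := jet_surj val n e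
  obtain ⟨a, b, hb, e⟩ := h2 r
  refine ⟨a * ((val (aeval s b))⁻¹ •
    ∑ k ∈ Finset.range n, (1 - (val (aeval s b))⁻¹ • b) ^ k), ?_⟩
  rw [jet_div val n hb e]
  simp only [map_mul, map_smul, map_sum, map_pow, map_sub, map_one, AlgHom.comp_apply]

theorem finite_E [Finite σ] (s : σ → R)
    (h2 : Frac val s) (n : ℕ) :
    Module.Finite ℂ (E val n) := by
  have : Algebra.FiniteType ℂ (E val n) :=
    Algebra.FiniteType.of_surjective _ (jet_aeval_surj val s h2 n)
  have : Algebra.IsIntegral ℂ (E val n) := ⟨fun e => by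
    obtain ⟨r, rfl⟩ := jet_surj val n e
    have h : r - algebraMap ℂ R (val r) ∈ mx val := by simp
    have h0 : jet val n ((r - algebraMap ℂ R (val r)) ^ (n + 1)) = 0 :=
      Ideal.Quotient.eq_zero_iff_mem.2
        (Ideal.pow_le_pow_right (Nat.le_succ n) (Ideal.pow_mem_pow h (n + 1)))
    rw [map_pow, map_sub, AlgHom.commutes] at h0
    have h1 : IsIntegral ℂ (jet val n r - algebraMap ℂ _ (val r)) :=
      IsIntegral.of_pow (Nat.succ_pos n) (h0 ▸ isIntegral_zero)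
    simpa using h1.add (isIntegral_algebraMap (x := val r))⟩
  exact Algebra.IsIntegral.finite

/-- The action on jets. -/
noncomputable def jmap (n : ℕ) (f : R →ₐ[ℂ] R) (hf : ∀ r, val (f r) = val r) :
    E val n →ₐ[ℂ] E val n :=
  Ideal.quotientMapₐ _ f (le_trans (Ideal.pow_right_mono
    (fun r hr => by rw [Ideal.mem_comap, mem_mx, hf]; exact hr) n) (Ideal.le_comap_pow f n))

theorem jmap_jet (n : ℕ) (f : R →ₐ[ℂ] R) (hf : ∀ r, val (f r) = val r) (r : R) :
    jmap val n f hf (jet val n r) = jet val n (f r) := rfl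

end Alg

section Good

variable {ρ τ B : Type} [CommRing B] [Algebra ℂ B] {A : Set (ρ → ℂ)} {e e' : (ρ → ℂ) → B}

/-- Regular families. -/
def Good (A : Set (ρ → ℂ)) (e : (ρ → ℂ) → B) : Prop :=
  ∀ l : B →ₗ[ℂ] ℂ, FReg A fun y => l (e y)

theorem good_const (A : Set (ρ → ℂ)) (b : B) : Good A fun _ => b := fun _ => freg_const A _

theorem Good.congr (h : Good A e) (H : ∀ y ∈ A, e' y = e y) : Good A e' :=
  fun l => (h l).congr fun y hy => by rw [H y hy]

theorem Good.add (h : Good A e) (h' : Good A e') : Good A fun y => e y + e' y := fun l => by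
  simpa only [map_add] using (h l).add (h' l)

theorem Good.sub (h : Good A e) (h' : Good A e') : Good A fun y => e y - e' y := fun l => by
  simpa only [map_sub] using (h l).sub (h' l)

theorem Good.smul {f : (ρ → ℂ) → ℂ} (hf : FReg A f) (h : Good A e) :
    Good A fun y => f y • e y := fun l => by
  simpa only [map_smul, smul_eq_mul] using hf.mul (h l)

theorem Good.sum {ι : Type} (s : Finset ι) {F : ι → (ρ → ℂ) → B} (h : ∀ i ∈ s, Good A (F i)) :
    Good A fun y => ∑ i ∈ s, F i y := fun l => by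
  simpa only [map_sum] using FReg.sum s fun i hi => h i hi l

theorem Good.of_local (h : ∀ y₀ ∈ A, ∃ p, eval y₀ p ≠ 0 ∧ Good (bas A p) e) : Good A e :=
  fun l => FReg.of_local fun y₀ hy => (h y₀ hy).imp fun _ H => ⟨H.1, H.2 l⟩

theorem good_algebraMap {f : (ρ → ℂ) → ℂ} (hf : FReg A f) :
    Good A fun y => algebraMap ℂ B (f y) := by
  simpa only [Algebra.algebraMap_eq_smul_one] using Good.smul hf (good_const A (1 : B))

variable [Module.Finite ℂ B]

theorem Good.mul (h : Good A e) (h' : Good A e') : Good A fun y => e y * e' y := by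
  let b := Module.finBasis ℂ B
  have : Good A fun y => ∑ i, b.coord i (e y) • (b i * e' y) :=
    Good.sum _ fun i _ => Good.smul (h _) fun l => h' (l.comp (LinearMap.mulLeft ℂ (b i)))
  refine this.congr fun y _ => ?_
  conv_lhs => rw [← b.sum_repr (e y), Finset.sum_mul]
  simp only [smul_mul_assoc, Module.Basis.coord_apply]

theorem Good.pow (h : Good A e) (n : ℕ) : Good A fun y => e y ^ n := by
  induction n with
  | zero => simpa only [pow_zero] using good_const A 1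
  | succ n ih => simpa only [pow_succ] using ih.mul h

theorem good_aeval {w : (ρ → ℂ) → τ → B} (h : ∀ i, Good A fun y => w y i)
    (p : MvPolynomial τ ℂ) : Good A fun y => aeval (w y) p := by
  induction p using MvPolynomial.induction_on with
  | C a => simpa only [aeval_C] using good_const A _
  | add p q hp hq => simpa only [map_add] using hp.add hq
  | mul_X p i hp => simpa only [map_mul, aeval_X] using hp.mul (h i)

end Good

/-- The representation on jets of an action on a ring. -/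
theorem exists_rep {Γ B : Type} [Group Γ] [TopologicalSpace Γ] [QP Γ] [CommRing B] [Algebra ℂ B]
    [Module.Finite ℂ B] (P : Γ → B →ₐ[ℂ] B) (h1 : ∀ x, P 1 x = x)
    (hm : ∀ g h x, P (g * h) x = P h (P g x))
    (hg : ∀ (ρ : Type) (A : Set (ρ → ℂ)) (φ : (ρ → ℂ) → Γ), Reg A φ → ∀ x,
      Good A fun y => P (φ y) x) :
    ∃ (n : ℕ) (r : Γ →* ZGL n), Mor r ∧ ∀ g, r g = 1 ↔ ∀ x, P g x = x := by
  let b := Module.finBasis ℂ B
  let M : Γ →* Mt (Module.finrank ℂ B) :=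
    { toFun := fun g => (LinearMap.toMatrix b b (P g).toLinearMap).transpose
      map_one' := by
        have : (P 1).toLinearMap = LinearMap.id := LinearMap.ext h1
        rw [this, LinearMap.toMatrix_id, Matrix.transpose_one]
      map_mul' := fun g h => by
        have : (P (g * h)).toLinearMap = (P h).toLinearMap.comp (P g).toLinearMap :=
          LinearMap.ext (hm g h)
        rw [this, LinearMap.toMatrix_comp b b b, Matrix.transpose_mul] }
  let r : Γ →* ZGL (Module.finrank ℂ B) :=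
    MonoidHom.mk' (fun g => (M.toHomUnits g : GL (Fin _) ℂ)) fun g h => ZGL.ext (M.map_mul g h)
  have hr : ∀ g, (r g).mat = M g := fun g => rfl
  refine ⟨_, r, fun ρ A φ hφ => reg_zgl_iff.2 fun i j => ?_, fun g => ⟨fun h x => ?_, fun h => ?_⟩⟩
  · refine (hg ρ A φ hφ (b i) (b.coord j)).congr fun y _ => ?_
    rw [hr]
    exact LinearMap.toMatrix_apply b b _ j i
  · have h2 : M g = 1 := by rw [← hr, h, ZGL.mat_one]
    have h3 : LinearMap.toMatrix b b (P g).toLinearMap = LinearMap.toMatrix b b LinearMap.id := by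
      rw [LinearMap.toMatrix_id]
      exact Matrix.transpose_eq_one.1 h2
    exact LinearMap.congr_fun ((LinearMap.toMatrix b b).injective h3) x
  · refine ZGL.ext ?_
    have : (P g).toLinearMap = LinearMap.id := LinearMap.ext h
    rw [hr, ZGL.mat_one]
    change (LinearMap.toMatrix b b (P g).toLinearMap).transpose = 1
    rw [this, LinearMap.toMatrix_id, Matrix.transpose_one]

end Kol68.Jet
end

-- merged part: Pool.Agent.Work.MP_c53807_ag.GJet
section
/-!
The representation on jets at a fixed point.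
-/

open MvPolynomial Topology

namespace Kol68

namespace Jet

open Filter

variable {Y : Type} [TopologicalSpace Y] [QP Y] (y₀ : Y)

/-- The local ring at a point. -/
noncomputable def loc : Subalgebra ℂ (Germ (𝓝 y₀) ℂ) where
  carrier := {f | ∃ (u : Y → ℂ) (O : Set Y), IsOpen O ∧ y₀ ∈ O ∧ FMorOn O u ∧ f = u}
  mul_mem' := by
    rintro _ _ ⟨u, O, h₁, h₂, h₃, rfl⟩ ⟨u', O', h₁', h₂', h₃', rfl⟩
    exact ⟨u * u', O ∩ O', h₁.inter h₁', ⟨h₂, h₂'⟩,
      fun ρ A φ hφ hm => (h₃ ρ A φ hφ fun _ hy => (hm hy).1).mul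
        (h₃' ρ A φ hφ fun _ hy => (hm hy).2), rfl⟩
  add_mem' := by
    rintro _ _ ⟨u, O, h₁, h₂, h₃, rfl⟩ ⟨u', O', h₁', h₂', h₃', rfl⟩
    exact ⟨u + u', O ∩ O', h₁.inter h₁', ⟨h₂, h₂'⟩,
      fun ρ A φ hφ hm => (h₃ ρ A φ hφ fun _ hy => (hm hy).1).add
        (h₃' ρ A φ hφ fun _ hy => (hm hy).2), rfl⟩
  algebraMap_mem' c := ⟨fun _ => c, Set.univ, isOpen_univ, Set.mem_univ _,
    fun _ A _ _ _ => freg_const A c, germ_algebraMap _ c⟩

/-- The value at the point. -/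
noncomputable def vl : loc y₀ →ₐ[ℂ] ℂ :=
  AlgHom.comp ⟨Germ.valueRingHom, fun c => by rw [germ_algebraMap]; rfl⟩ (loc y₀).val

variable {y₀}

theorem vl_eq {r : loc y₀} {u : Y → ℂ} (h : (r : Germ (𝓝 y₀) ℂ) = u) : vl y₀ r = u y₀ :=
  (congrArg (Germ.valueRingHom (x := y₀) (E := ℂ)) h).trans rfl

theorem isUnit_of_vl (r : loc y₀) (h : vl y₀ r ≠ 0) : IsUnit r := by
  obtain ⟨u, O, h₁, h₂, h₃, e⟩ := r.2
  rw [vl_eq e] at h
  refine IsUnit.of_mul_eq_one (⟨(u⁻¹ : Y → ℂ), u⁻¹, _, h₃.isOpen_ne h₁, ⟨h₂, h⟩,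
    fun ρ A φ hφ hm => (h₃ ρ A φ hφ fun _ hy => (hm hy).1).inv fun _ hy => (hm hy).2, rfl⟩ :
      loc y₀) (Subtype.ext ?_)
  change (r : Germ (𝓝 y₀) ℂ) * ((u⁻¹ : Y → ℂ) : Germ (𝓝 y₀) ℂ) = ((1 : Y → ℂ) : Germ (𝓝 y₀) ℂ)
  rw [e, ← Germ.coe_mul]
  refine Germ.coe_eq.2 ?_
  filter_upwards [(h₃.isOpen_ne h₁).mem_nhds ⟨h₂, h⟩] with y hy
  exact mul_inv_cancel₀ hy.2

theorem coe_aeval {τ : Type} {s : τ → loc y₀} {f : Y → τ → ℂ}
    (h : ∀ i, (s i : Germ (𝓝 y₀) ℂ) = (fun x => f x i : Y → ℂ)) (p : MvPolynomial τ ℂ) :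
    ((aeval s p : loc y₀) : Germ (𝓝 y₀) ℂ) = (fun x => eval (f x) p : Y → ℂ) := by
  induction p using MvPolynomial.induction_on with
  | C a =>
    simp only [aeval_C, eval_C]
    exact germ_algebraMap _ a
  | add p q hp hq =>
    simp only [map_add, Subalgebra.coe_add, hp, hq]
    rfl
  | mul_X p i hp =>
    simp only [map_mul, aeval_X, eval_X, Subalgebra.coe_mul, hp, h i]
    rfl

/-- The affine coordinates. -/
noncomputable def wv (j : QP.σ Y) (x : Y) : QP.σ Y → ℂ := (rp x j)⁻¹ • rp x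

theorem open_j (j : QP.σ Y) : IsOpen {x : Y | rp x j ≠ 0} := by
  simpa only [eval_X] using isOpen_form (V := Y) (isHomogeneous_X ℂ j)

/-- The germs of the affine coordinates. -/
noncomputable def co {j : QP.σ Y} (hj : rp y₀ j ≠ 0) (i : QP.σ Y) : loc y₀ :=
  ⟨(fun x => wv j x i : Y → ℂ), _, _, open_j j, hj, by
    have := fmorOn_ratio (V := Y) (isHomogeneous_X ℂ i) (isHomogeneous_X ℂ j)
    simp only [eval_X] at this
    exact this.congr fun y _ => by simp [wv, div_eq_inv_mul], rfl⟩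

theorem frac_co {j : QP.σ Y} (hj : rp y₀ j ≠ 0) : Frac (vl y₀) (co hj) := by
  intro r
  obtain ⟨u, O, h₁, h₂, h₃, e⟩ := r.2
  obtain ⟨d, a, b, ha, hb, h0, H⟩ := h₃.exists_ratio h₂
  have ea := coe_aeval (s := co hj) (f := wv j) (fun _ => rfl) a
  have eb := coe_aeval (s := co hj) (f := wv j) (fun _ => rfl) b
  refine ⟨a, b, ?_, Subtype.ext ?_⟩
  · rw [vl_eq eb, wv, eval_smul_hom hb]
    exact mul_ne_zero (pow_ne_zero _ (inv_ne_zero hj)) h0
  · rw [Subalgebra.coe_mul, ea, eb, e, ← Germ.coe_mul]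
    refine Germ.coe_eq.2 ?_
    filter_upwards [h₁.mem_nhds h₂] with y hy
    simp only [Pi.mul_apply, wv, eval_smul_hom hb, eval_smul_hom ha, ← H y hy]
    ring

section Act

variable {Γ : Type} [Group Γ] [TopologicalSpace Γ] [QP Γ] [MulAction Γ Y]
  (hact : Mor₂ fun (g : Γ) (y : Y) => g • y) (hfix : ∀ g : Γ, g • y₀ = y₀)

include hact hfix in
theorem tendsto_act (g : Γ) : Tendsto (fun x : Y => g • x) (𝓝 y₀) (𝓝 y₀) := by
  have := (hact.right g).continuous.tendsto y₀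
  rwa [hfix] at this

/-- Pull-back of germs. -/
noncomputable def pl (g : Γ) : loc y₀ →ₐ[ℂ] loc y₀ :=
  ((germComp _ (tendsto_act hact hfix g)).comp (loc y₀).val).codRestrict (loc y₀) fun f => by
    obtain ⟨u, O, h₁, h₂, h₃, h₄⟩ := f.2
    exact ⟨fun x => u (g • x), _, h₁.preimage (hact.right g).continuous,
      by simpa [hfix] using h₂, h₃.comp ((hact.right g).morOn _) fun _ hy => hy,
      (congrArg (germComp _ (tendsto_act hact hfix g)) h₄).trans rfl⟩

theorem coe_pl (g : Γ) {f : loc y₀} {u : Y → ℂ} (h : (f : Germ (𝓝 y₀) ℂ) = u) :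
    (pl hact hfix g f : Germ (𝓝 y₀) ℂ) = (fun x => u (g • x) : Y → ℂ) :=
  (congrArg (germComp _ (tendsto_act hact hfix g)) h).trans rfl

theorem vl_pl (g : Γ) (f : loc y₀) : vl y₀ (pl hact hfix g f) = vl y₀ f := by
  obtain ⟨u, -, -, -, -, hu⟩ := f.2
  rw [vl_eq (coe_pl hact hfix g hu), vl_eq hu, hfix]

theorem pl_mul (g h : Γ) (f : loc y₀) :
    pl hact hfix (g * h) f = pl hact hfix h (pl hact hfix g f) := by
  obtain ⟨u, -, -, -, -, hu⟩ := f.2
  refine Subtype.ext ?_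
  rw [coe_pl hact hfix _ hu, coe_pl hact hfix _ (coe_pl hact hfix _ hu)]
  simp only [mul_smul]

theorem pl_triv {g : Γ} (e : ∀ x : Y, g • x = x) (f : loc y₀) : pl hact hfix g f = f := by
  obtain ⟨u, -, -, -, -, hu⟩ := f.2
  refine Subtype.ext ?_
  rw [coe_pl hact hfix _ hu, hu]
  simp only [e]

theorem triv_of_pl [IrreducibleSpace Y] {j : QP.σ Y} (hj : rp y₀ j ≠ 0) {g : Γ}
    (h : ∀ i, pl hact hfix g (co hj i) = co hj i) (x : Y) : g • x = x := by
  have h1 : ∀ i, ∀ᶠ x in 𝓝 y₀, wv j (g • x) i = wv j x i := fun i =>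
    Germ.coe_eq.1 ((coe_pl hact hfix g (f := co hj i) rfl).symm.trans (congrArg Subtype.val (h i)))
  have h2 : ∀ᶠ x in 𝓝 y₀, rp x j ≠ 0 := (open_j j).mem_nhds hj
  have h3 : ∀ᶠ x in 𝓝 y₀, g • x = x := by
    filter_upwards [eventually_all.2 h1, (tendsto_act hact hfix g).eventually h2] with x a b
    refine eq_of_rp_smul (c := rp (g • x) j * (rp x j)⁻¹) ?_
    have e : wv j (g • x) = wv j x := funext a
    rw [mul_smul, ← wv, ← e, wv, smul_smul, mul_inv_cancel₀ b, one_smul]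
  obtain ⟨O, hO, ho, hy⟩ := mem_nhds_iff.1 h3
  exact MorOn.eqOn isOpen_univ ((hact.right g).morOn _) (mor_id.morOn _) ho ⟨y₀, hy⟩
    (fun y _ hy => hO hy) x (Set.mem_univ x)

theorem good_co {j : QP.σ Y} (hj : rp y₀ j ≠ 0) (n : ℕ) {ρ : Type} {A : Set (ρ → ℂ)}
    {φ : (ρ → ℂ) → Γ} (hφ : Reg A φ) (i : QP.σ Y) :
    Good A fun y => jet (vl y₀) n (pl hact hfix (φ y) (co hj i)) := by
  have : Nonempty Y := ⟨y₀⟩
  have := finite_E (vl y₀) _ (frac_co hj) n
  refine Good.of_local fun a₀ ha₀ => ?_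
  have hw : ∀ x : Y, rp x j ≠ 0 → wv j x ∈ cone (Set.univ : Set Y) := fun x hx =>
    smul_mem_cone (Set.mem_univ x) (inv_ne_zero hx)
  have ht : ∀ x : Y, rp x j ≠ 0 → taut Y (wv j x) = x := fun x hx => taut_smul x (inv_ne_zero hx)
  have hR := hact _ (aprod A (cone (Set.univ : Set Y))) (fun z => φ (z ∘ Sum.inl))
    (fun z => taut Y (z ∘ Sum.inr)) (hφ.comp (amor_comp _ _) fun _ hz => hz.1)
    ((reg_taut Set.univ).comp (amor_comp _ _) fun _ hz => hz.2)
  obtain ⟨F, hF0, hF⟩ := hR (Sum.elim a₀ (wv j y₀)) ⟨ha₀, hw _ hj⟩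
  have key : ∀ y ∈ A, ∀ x : Y, rp x j ≠ 0 →
      ∃ c : ℂ, evv (Sum.elim y (wv j x)) F = c • rp (φ y • x) := fun y hy x hx => by
    obtain ⟨c, hc⟩ := hF (Sum.elim y (wv j x)) ⟨hy, hw _ hx⟩
    refine ⟨c, hc.trans ?_⟩
    simp only [Sum.elim_comp_inl, Sum.elim_comp_inr, ht x hx]
    rfl
  have hFj : eval (Sum.elim a₀ (wv j y₀)) (F j) ≠ 0 := by
    obtain ⟨c, hc⟩ := key a₀ ha₀ y₀ hj
    have hc0 : c ≠ 0 := by
      rintro rfl
      exact hF0 (by rw [hc, zero_smul])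
    have := congrFun hc j
    rw [evv_apply, hfix] at this
    rw [this]
    exact mul_ne_zero hc0 hj
  have hΘ : AMor A fun y => Sum.elim y (wv j y₀) := (amor_id A).elim (amor_const A _)
  obtain ⟨p, hp, hpn⟩ := hΘ.exists_bas ha₀ hFj
  refine ⟨p, hp, ?_⟩
  let s : (ρ → ℂ) → ρ ⊕ QP.σ Y → loc y₀ := fun y =>
    Sum.elim (fun k => algebraMap ℂ _ (y k)) (co hj)
  have hs : ∀ y (q : MvPolynomial (ρ ⊕ QP.σ Y) ℂ), ((aeval (s y) q : loc y₀) : Germ (𝓝 y₀) ℂ) =
      (fun x => eval (Sum.elim y (wv j x)) q : Y → ℂ) := fun y q => by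
    refine coe_aeval ?_ q
    rintro (k | k)
    · exact germ_algebraMap _ (y k)
    · rfl
  have hv : ∀ y, vl y₀ (aeval (s y) (F j)) = eval (Sum.elim y (wv j y₀)) (F j) :=
    fun y => vl_eq (hs y _)
  have hg : ∀ q : MvPolynomial (ρ ⊕ QP.σ Y) ℂ,
      Good (bas A p) fun y => jet (vl y₀) n (aeval (s y) q) := fun q => by
    have : Good (bas A p) fun y => aeval (fun k => jet (vl y₀) n (s y k)) q := by
      refine good_aeval ?_ q
      rintro (k | k)
      · exact (good_algebraMap (B := E (vl y₀) n) (freg_coord _ k)).congr fun y _ =>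
          (jet (vl y₀) n).commutes _
      · exact good_const _ (jet (vl y₀) n (co hj k))
    exact this.congr fun y _ => by rw [← comp_aeval]; rfl
  have hi : FReg (bas A p) fun y => (vl y₀ (aeval (s y) (F j)))⁻¹ := by
    simp only [hv]
    exact ((hΘ.eval (F j)).mono (bas_subset A p)).inv hpn
  refine ((hg (F i)).mul (Good.smul hi (Good.sum (Finset.range n) fun k _ =>
    ((good_const _ 1).sub (Good.smul hi (hg (F j)))).pow k))).congr fun y hy => ?_
  refine jet_div (vl y₀) n (by rw [hv]; exact hpn y hy) (Subtype.ext ?_)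
  rw [Subalgebra.coe_mul, hs, hs, coe_pl hact hfix (φ y) (f := co hj i) rfl, ← Germ.coe_mul]
  refine Germ.coe_eq.2 ?_
  have h2 : ∀ᶠ x in 𝓝 y₀, rp x j ≠ 0 := (open_j j).mem_nhds hj
  filter_upwards [h2, (tendsto_act hact hfix (φ y)).eventually h2] with x a b
  obtain ⟨c, hc⟩ := key y hy.1 x a
  have e1 := congrFun hc i
  have e2 := congrFun hc j
  simp only [evv_apply, Pi.smul_apply, smul_eq_mul] at e1 e2
  simp only [Pi.mul_apply, e1, e2]
  simp only [wv, Pi.smul_apply, smul_eq_mul]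
  field_simp

theorem isClosed_jet {j : QP.σ Y} (hj : rp y₀ j ≠ 0) (n : ℕ) :
    ∃ (d : ℕ) (r : Γ →* ZGL d), Mor r ∧
      ∀ g, r g = 1 ↔ ∀ f, pl hact hfix g f - f ∈ mx (vl y₀) ^ n := by
  have := finite_E (vl y₀) _ (frac_co hj) n
  obtain ⟨d, r, hr, H⟩ := exists_rep (Γ := Γ)
    (fun g => jmap (vl y₀) n (pl hact hfix g) (vl_pl hact hfix g))
    (fun x => by
      obtain ⟨f, rfl⟩ := jet_surj _ n x
      rw [jmap_jet, pl_triv hact hfix (one_smul Γ)])
    (fun g h x => by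
      obtain ⟨f, rfl⟩ := jet_surj _ n x
      rw [jmap_jet, jmap_jet, jmap_jet, pl_mul])
    (fun ρ A φ hφ x => by
      obtain ⟨q, rfl⟩ := jet_aeval_surj _ _ (frac_co hj) n x
      refine (good_aeval (good_co hact hfix hj n hφ) q).congr fun y _ => ?_
      rw [AlgHom.comp_apply, jmap_jet, ← AlgHom.comp_apply, ← AlgHom.comp_apply, comp_aeval]
      rfl)
  refine ⟨d, r, hr, fun g => (H g).trans ⟨fun h f => ?_, fun h x => ?_⟩⟩
  · exact (jet_eq _).1 (h (jet _ n f))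
  · obtain ⟨f, rfl⟩ := jet_surj _ n x
    exact (jet_eq _).2 (h f)

end Act

end Jet

theorem exists_jets {Γ Y : Type} [Group Γ] [TopologicalSpace Γ] [QP Γ] [TopologicalSpace Y] [QP Y]
    [IrreducibleSpace Y] [MulAction Γ Y] (hact : Mor₂ fun (g : Γ) (y : Y) => g • y) (y₀ : Y)
    (hfix : ∀ g : Γ, g • y₀ = y₀) :
    ∃ (n : ℕ) (r : Γ →* ZGL n), Mor r ∧ ∀ g, r g = 1 ↔ ∀ y : Y, g • y = y := by
  obtain ⟨j, hj⟩ := Function.ne_iff.1 (rp_ne_zero y₀)
  have hj' : rp y₀ j ≠ 0 := hj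
  choose d r hr H using Jet.isClosed_jet hact hfix hj'
  let N : ℕ → TopologicalSpace.Closeds Γ := fun n =>
    ⟨{g | r n g = 1}, (hr n).isClosed_eq (mor_const 1)⟩
  have anti : ∀ m n, m ≤ n → N n ≤ N m := fun m n h g hg =>
    (H m g).2 fun f => Ideal.pow_le_pow_right h ((H n g).1 hg f)
  obtain ⟨_, ⟨n, rfl⟩, hmin⟩ := (wellFounded_lt (α := TopologicalSpace.Closeds Γ)).has_min
    (Set.range N) ⟨_, 0, rfl⟩
  refine ⟨d n, r n, hr n, fun g => ⟨fun hg => ?_, fun hg => (H n g).2 fun f => ?_⟩⟩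
  · refine Jet.triv_of_pl hact hfix hj' fun i => sub_eq_zero.1 ?_
    refine Jet.krull _ _ (Jet.frac_co hj') Jet.isUnit_of_vl fun k => ?_
    have e : N (max k n) = N n :=
      (anti _ _ (le_max_right k n)).eq_of_not_lt (hmin _ ⟨_, rfl⟩)
    have hk : g ∈ N k := anti _ _ (le_max_left k n) (e ▸ hg)
    exact (H k g).1 hk _
  · rw [Jet.pl_triv hact hfix hg, sub_self]
    exact Ideal.zero_mem _

end Kol68
end

-- merged part: Pool.Agent.Work.MP_c53807_ag.GLU
section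
/-!
Normal subgroups are cut out by invariant functions in linear representations.
-/

open MvPolynomial Topology
open scoped Matrix Pointwise

namespace Kol68

namespace GLU

variable {N : ℕ} {m k : Type} [Fintype m] [DecidableEq m] [Fintype k] [DecidableEq k]

theorem finite_pow {S : Set ℂ} (hS : S.Finite) (d : ℕ) : (S ^ d).Finite := by
  induction d with
  | zero => rw [pow_zero]; exact Set.finite_one
  | succ d ih => rw [pow_succ]; exact ih.mul hS

theorem prod_mem_pow {S : Set ℂ} (t : Multiset ℂ) (h : ∀ x ∈ t, x ∈ S) :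
    t.prod ∈ S ^ Multiset.card t := by
  induction t using Multiset.induction_on with
  | empty => simp
  | cons a t ih =>
    rw [Multiset.prod_cons, Multiset.card_cons, pow_succ']
    exact Set.mul_mem_mul (h a (Multiset.mem_cons_self _ _))
      (ih fun x hx => h x (Multiset.mem_cons_of_mem hx))

theorem root_iff (M : Matrix m m ℂ) (μ : ℂ) :
    μ ∈ M.charpoly.roots ↔ ∃ z ≠ 0, M *ᵥ z = μ • z := by
  rw [Polynomial.mem_roots M.charpoly_monic.ne_zero, Polynomial.IsRoot.def, Matrix.eval_charpoly,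
    ← Matrix.exists_mulVec_eq_zero_iff]
  refine exists_congr fun z => and_congr Iff.rfl ?_
  rw [Matrix.sub_mulVec, sub_eq_zero, eq_comm]
  have : Matrix.scalar m μ *ᵥ z = μ • z := by
    ext i; simp [Matrix.mulVec_diagonal]
  rw [this]

variable {s : Submodule ℂ (m → ℂ)} (T : SQ ⊥ s k)

theorem mul_B {M : Matrix m m ℂ} (h : M ∈ presA s) : M * T.B = T.B * T.π M :=
  T.mul_B (R := ℂ) (pres_self.2 h)

theorem det_conj_mem (M A A' : Matrix m m ℂ) (h1 : A * A' = 1) (h2 : A' * A = 1)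
    (h : A * M * A' ∈ presA s) :
    (T.π (A * M * A')).det ∈ {μ | μ ∈ M.charpoly.roots} ^ Fintype.card k := by
  have hc : Multiset.card (T.π (A * M * A')).charpoly.roots = Fintype.card k := by
    rw [← (IsAlgClosed.splits _).natDegree_eq_card_roots, Matrix.charpoly_natDegree_eq_dim]
  rw [Matrix.det_eq_prod_roots_charpoly, ← hc]
  refine prod_mem_pow _ fun μ hμ => ?_
  obtain ⟨z, hz, e⟩ := (root_iff _ _).1 hμ
  refine (root_iff M μ).2 ⟨(A' * T.B) *ᵥ z, fun h0 => hz ?_, ?_⟩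
  · have := congrArg (fun y => (T.L * A) *ᵥ y) h0
    simp only [Matrix.mulVec_mulVec, Matrix.mulVec_zero] at this
    rwa [Matrix.mul_assoc, ← Matrix.mul_assoc A, h1, Matrix.one_mul, T.LB,
      Matrix.one_mulVec] at this
  · have e1 : M * (A' * T.B) = A' * T.B * T.π (A * M * A') := by
      rw [Matrix.mul_assoc A', ← mul_B T h, ← Matrix.mul_assoc A', ← Matrix.mul_assoc A',
        ← Matrix.mul_assoc A', h2, Matrix.one_mul, Matrix.mul_assoc]
    rw [Matrix.mulVec_mulVec, e1, ← Matrix.mulVec_mulVec, e, Matrix.mulVec_smul]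

variable (P : NatRep (Fin N) m)

/-- The determinant of a conjugate on a subspace. -/
noncomputable def conjFun (M : Matrix m m ℂ) : NatFun N where
  f R _ _ g := (T.π (P.ρ R g * cm R M * P.ρ R g⁻¹)).det
  nat R S _ _ _ _ φ g := by
    rw [← gmap_inv, ← P.nat, ← P.nat, ← cm_map φ]
    have : (P.ρ R g * cm R M * P.ρ R g⁻¹).map φ =
        (P.ρ R g).map φ * (cm R M).map φ * (P.ρ R g⁻¹).map φ := by
      rw [Matrix.map_mul, Matrix.map_mul]
    erw [← this, ← T.π_mapA]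
    rw [AlgHom.map_det, AlgHom.mapMatrix_apply]

theorem detFun_mul (l : Matrix k m ℂ) (g x : GL (Fin N) ℂ) (hx : P.ρ ℂ x ∈ presA s) :
    (detFun P T l).f ℂ (g * x) = (detFun P T l).f ℂ g * (T.π (P.ρ ℂ x)).det := by
  change (l * P.ρ ℂ (g * x) * T.B).det = (l * P.ρ ℂ g * T.B).det * _
  rw [← Matrix.det_mul, map_mul, ← Matrix.mul_assoc, Matrix.mul_assoc _ _ T.B, mul_B T hx,
    ← Matrix.mul_assoc]

theorem pres_of_const {G : Type} [Group G] [TopologicalSpace G] [QP G] [IrreducibleSpace G]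
    (R : G →* GL (Fin N) ℂ) (hR : ∀ φ : NatFun N, FMor fun g => φ.f ℂ (R g)) (K : Subgroup G)
    [hN : K.Normal] (hK : ∀ x ∈ K, P.ρ ℂ (R x) ∈ presA s)
    (h : ∀ f : G → ℂ, FMor f → (∀ g, ∀ k ∈ K, f (g * k) = f g) → ∀ g, f g = f 1) (g : G) :
    P.ρ ℂ (R g) ∈ presA s := by
  classical
  obtain ⟨T⟩ := exists_SQ (bot_le : ⊥ ≤ s)
  have hconj : ∀ x ∈ K, ∀ g, (T.π (P.ρ ℂ (R (g * x * g⁻¹)))).det = (T.π (P.ρ ℂ (R x))).det := by
    intro x hx g
    have e : ∀ g, (conjFun T P (P.ρ ℂ (R x))).f ℂ (R g) = (T.π (P.ρ ℂ (R (g * x * g⁻¹)))).det :=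
      fun g => by
        rw [map_mul, map_mul, map_mul, map_mul, map_inv]; rfl
    have := (hR (conjFun T P (P.ρ ℂ (R x)))).const_of_finite
      (finite_pow (P.ρ ℂ (R x)).charpoly.roots.finite_toSet _) (fun g =>
        det_conj_mem T _ _ _ (P.ρ_mul_inv _) (P.ρ_inv_mul _) (by
          have := hK _ (hN.conj_mem x hx g)
          rwa [map_mul, map_mul, map_mul, map_mul, map_inv] at this)) g 1
    rw [e, e] at this
    simpa using this
  have key : ∀ l l', (detFun P T l).f ℂ (R g) * (detFun P T l').f ℂ (R g)⁻¹ =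
      (detFun P T l).f ℂ (R 1) * (detFun P T l').f ℂ (R 1)⁻¹ := by
    intro l l'
    refine h _ (hR ((detFun P T l).mul (detInv P T l'))) (fun g x hx => ?_) g
    change (detFun P T l).f ℂ (R (g * x)) * (detFun P T l').f ℂ (R (g * x))⁻¹ =
      (detFun P T l).f ℂ (R g) * (detFun P T l').f ℂ (R g)⁻¹
    have e : (R (g * x))⁻¹ = (R g)⁻¹ * R (g * x⁻¹ * g⁻¹) := by
      simp [mul_assoc]
    have h1 : (T.π (P.ρ ℂ (R x))).det * (T.π (P.ρ ℂ (R x⁻¹))).det = 1 := by
      rw [← Matrix.det_mul, ← T.π_mul (pres_bot _) (pres_self.2 (hK _ (K.inv_mem hx))), map_inv,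
        P.ρ_mul_inv, T.π_one, Matrix.det_one]
    rw [e, map_mul R g x, detFun_mul T P l _ _ (hK x hx),
      detFun_mul T P l' _ _ (hK _ (hN.conj_mem _ (K.inv_mem hx) g)), hconj _ (K.inv_mem hx),
      mul_mul_mul_comm, h1, mul_one]
  intro b₀ hb₀
  rw [← mem_bc_self, mem_bc_iff_dot]
  intro l hl
  have hrow := row_lemma (F := ℂ) (P.ρ ℂ (R g) * T.B) (T.L * P.ρ ℂ (R g)⁻¹)
    (by rw [cm_self, Matrix.mul_assoc, ← Matrix.mul_assoc (P.ρ ℂ (R g)⁻¹), NatRep.ρ_inv_mul,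
      Matrix.one_mul, T.LB]; simp) l (fun t => ?_)
  · have h1 := eq_zero_of_mem_bc_bot (R := ℂ) (mem_bc_self.2 (T.dec b₀ hb₀))
    rw [sub_eq_zero] at h1
    rw [h1, Matrix.mulVec_mulVec, Matrix.mulVec_mulVec, ← Matrix.mulVec_mulVec,
      Matrix.dotProduct_mulVec, hrow, zero_dotProduct]
  · have h1 := key ((T.L * P.ρ ℂ (R g)⁻¹).updateRow t l) (T.L * P.ρ ℂ (R g))
    simp only [detFun, cm_self] at h1
    rw [Matrix.mul_assoc T.L, NatRep.ρ_mul_inv, Matrix.mul_one, T.LB, Matrix.det_one, mul_one,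
      map_one, map_one, Matrix.mul_one,
      Matrix.det_eq_zero_of_row_eq_zero (A := (T.L * P.ρ ℂ (R g)⁻¹).updateRow t l * T.B) t,
      zero_mul] at h1
    · rw [cm_self, ← Matrix.mul_assoc]
      exact h1
    · intro j
      have := hl _ (T.B_mem (Pi.single j 1))
      simpa [Matrix.mul_apply, dotProduct] using this

end GLU

theorem mem_map_of_const {G : Type} [Group G] [TopologicalSpace G] [QP G] [IrreducibleSpace G]
    {n : ℕ} (r : G →* ZGL n) (hr : Mor r) (K : Subgroup G) [K.Normal]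
    (hK : IsClosed (K.map r : Set (ZGL n)))
    (h : ∀ f : G → ℂ, FMor f → (∀ g, ∀ k ∈ K, f (g * k) = f g) → ∀ g, f g = f 1) (g : G) :
    r g ∈ K.map r := by
  let L : Subgroup (GL (Fin n) ℂ) := K.map r
  have hL : GLClosed (L : Set (GL (Fin n) ℂ)) := isClosed_zgl_iff.1 hK
  refine Pt.mem hL ((pt_iff L _).2 (pres_self.2 ?_))
  exact GLU.pres_of_const (repG L) (show G →* GL (Fin n) ℂ from r)
    (fun φ => (fmor_natFun φ).comp hr) K
    (fun x hx => tenS_stable L _ (Subgroup.mem_map_of_mem r hx)) h g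

end Kol68
end

-- merged part: Pool.Agent.Work.MP_c53807_ag.GM1
section
/-!
Constancy of regular functions and commutativity modulo the normal closure of the stabiliser.
-/

open MvPolynomial Topology MulAction
open scoped Pointwise commutatorElement

namespace Kol68

variable {G X : Type} [Group G] [TopologicalSpace G] [AG G] [TopologicalSpace X] [QP X]
  [MulAction G X]

/-- `Z` lies in no fibre of a proper closed subgroup containing the stabiliser. -/
def Nondeg (G : Type) {X : Type} [Group G] [TopologicalSpace G] [MulAction G X] (x₀ : X)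
    (Z : Set X) : Prop :=
  ∀ K : Subgroup G, IsClosed (K : Set G) → stabilizer G x₀ ≤ K → ∀ g : G,
    (∀ z ∈ Z, ∃ k ∈ K, z = (g * k) • x₀) → K = ⊤

theorem isClosed_stabilizer (hact : Mor₂ fun (g : G) (x : X) => g • x) (x₀ : X) :
    IsClosed (stabilizer G x₀ : Set G) :=
  (hact.left x₀).isClosed_eq (mor_const x₀)

theorem const_of_nondeg [IsPretransitive G X] (hact : Mor₂ fun (g : G) (x : X) => g • x) {x₀ : X}
    {Z : Set X} (hne : Z.Nonempty) (hZ : ∀ f : X → ℂ, FMor f → ∀ z ∈ Z, ∀ z' ∈ Z, f z = f z')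
    (hnd : Nondeg G x₀ Z) (f : X → ℂ) (hf : FMor f) (x y : X) : f x = f y := by
  let K : Subgroup G :=
    { carrier := {k | ∀ g : G, f ((g * k) • x₀) = f (g • x₀)}
      one_mem' := fun g => by rw [mul_one]
      mul_mem' := fun {a b} ha hb g => by rw [← mul_assoc, hb, ha]
      inv_mem' := fun {a} ha g => by rw [← ha (g * a⁻¹), inv_mul_cancel_right] }
  have hK : IsClosed (K : Set G) := by
    have : (K : Set G) = ⋂ g : G, {k | f ((g * k) • x₀) = f (g • x₀)} := by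
      ext k; simp [K]
    rw [this]
    exact isClosed_iInter fun g => (hf.comp ((hact.left x₀).comp (mor_mul_left g))).isClosed_eq
      fun _ A _ _ => freg_const A _
  obtain ⟨z₀, hz₀⟩ := hne
  obtain ⟨g₀, rfl⟩ := exists_smul_eq G x₀ z₀
  have h := hnd K hK (fun k hk g => by rw [mul_smul, mem_stabilizer_iff.1 hk]) g₀ fun z hz => by
    obtain ⟨g, rfl⟩ := exists_smul_eq G x₀ z
    refine ⟨g₀⁻¹ * g, fun g' => ?_, by rw [mul_inv_cancel_left]⟩
    have := hZ _ (hf.comp (hact.right (g' * g₀⁻¹))) _ hz _ hz₀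
    simpa only [smul_smul, mul_assoc, inv_mul_cancel, mul_one] using this
  have key : ∀ x, f x = f x₀ := fun x => by
    obtain ⟨g, rfl⟩ := exists_smul_eq G x₀ x
    have h1 : g ∈ K := h ▸ Subgroup.mem_top g
    simpa using h1 1
  rw [key x, key y]

theorem const_on_group [IrreducibleSpace G] [IsPretransitive G X]
    (hact : Mor₂ fun (g : G) (x : X) => g • x) (x₀ : X)
    (hX : ∀ f : X → ℂ, FMor f → ∀ x y, f x = f y) {H₀ : Subgroup G} {s : Finset G}
    (hs : ∀ h ∈ stabilizer G x₀, ∃ t ∈ s, t⁻¹ * h ∈ H₀) {K : Subgroup G} [K.Normal]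
    (hK : H₀ ≤ K) (f : G → ℂ) (hf : FMor f) (hinv : ∀ g, ∀ k ∈ K, f (g * k) = f g) (g : G) :
    f g = f 1 := by
  classical
  let tr : stabilizer G x₀ → G → ℂ := fun h g => f (g * h)
  have hfin : (Set.range tr).Finite := by
    refine (s.finite_toSet.image fun t g => f (g * t)).subset ?_
    rintro _ ⟨h, rfl⟩
    obtain ⟨t, ht, h'⟩ := hs h h.2
    refine ⟨t, ht, funext fun g => ?_⟩
    change f (g * t) = f (g * h)
    rw [← hinv (g * t) _ (hK h'), mul_assoc, mul_inv_cancel_left]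
  let T := hfin.toFinset
  have hT : ∀ φ, φ ∈ T ↔ ∃ h, tr h = φ := fun φ => hfin.mem_toFinset
  have hmap : ∀ h : stabilizer G x₀, ∀ φ ∈ T, (fun g => φ (g * h)) ∈ T := fun h φ hφ => by
    obtain ⟨y, rfl⟩ := (hT φ).1 hφ
    exact (hT _).2 ⟨h * y, funext fun g => by simp only [tr, Subgroup.coe_mul, mul_assoc]⟩
  have hP : ∀ (c : ℂ) (g : G) (h : stabilizer G x₀),
      ∏ φ ∈ T, (c - φ (g * h)) = ∏ φ ∈ T, (c - φ g) := fun c g h =>
    Finset.prod_nbij' (fun φ g => φ (g * h)) (fun φ g => φ (g * (h⁻¹ : stabilizer G x₀)))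
      (hmap h) (hmap h⁻¹) (fun φ _ => by ext g; simp) (fun φ _ => by ext g; simp) fun _ _ => rfl
  choose σ hσ using exists_smul_eq G x₀
  have key : ∀ (c : ℂ) (g : G), ∏ φ ∈ T, (c - φ g) = ∏ φ ∈ T, (c - φ 1) := fun c => by
    let ψ : X → ℂ := fun x => ∏ φ ∈ T, (c - φ (σ x))
    have h1 : ∀ g : G, ψ (g • x₀) = ∏ φ ∈ T, (c - φ g) := fun g => by
      have h2 : g⁻¹ * σ (g • x₀) ∈ stabilizer G x₀ := by
        rw [mem_stabilizer_iff, mul_smul, hσ, inv_smul_smul]
      rw [← hP c g ⟨_, h2⟩]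
      simp [ψ]
    have h2 : FMor ψ := FMor.descend hact x₀ fun ρ A θ hθ => by
      simp only [h1]
      refine FReg.prod T fun φ hφ => (freg_const A c).sub ?_
      obtain ⟨y, rfl⟩ := (hT φ).1 hφ
      exact (hf.comp (mor_mul_right (y : G))) ρ A θ hθ
    intro g
    rw [← h1, ← h1, hX ψ h2]
  refine hf.const_of_finite (T.finite_toSet.image fun φ => φ 1) (fun x => ?_) g 1
  have h1 := key (f x) x
  rw [Finset.prod_eq_zero ((hT _).2 ⟨1, rfl⟩) (by simp [tr]), eq_comm,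
    Finset.prod_eq_zero_iff] at h1
  obtain ⟨φ, hφ, e⟩ := h1
  exact ⟨φ, hφ, (sub_eq_zero.1 e).symm⟩

instance conjTop {G : Type} [h : TopologicalSpace G] : TopologicalSpace (ConjAct G) := h

instance conjQP {G : Type} [TopologicalSpace G] [h : QP G] : QP (ConjAct G) := h

theorem commutator_le [IrreducibleSpace G] {K : Subgroup G} [K.Normal] (hK : Par (K : Set G))
    (h : ∀ f : G → ℂ, FMor f → (∀ g, ∀ k ∈ K, f (g * k) = f g) → ∀ g, f g = f 1) :
    commutator G ≤ K := by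
  obtain ⟨n, r, hr, hker⟩ := exists_jets (Γ := ConjAct G) (Y := G)
    (fun ρ A φ ψ hφ hψ => (Reg.mul (G := G) hφ hψ).mul (Reg.inv (G := G) hφ)) 1
    fun g => smul_one g
  let r' : G →* ZGL n := r.comp ConjAct.toConjAct.toMonoidHom
  have hr' : Mor r' := hr
  have hc : IsClosed (K.map r' : Set (ZGL n)) := isClosed_of_par (by
    rw [Subgroup.coe_map]; exact hK.image hr')
  have key : ∀ g : G, ∃ k ∈ K, ∀ y, Commute (k⁻¹ * g) y := fun g => by
    obtain ⟨k, hk, e⟩ := mem_map_of_const r' hr' K hc h g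
    refine ⟨k, hk, fun y => ?_⟩
    have h1 : r' (k⁻¹ * g) = 1 := by rw [map_mul, map_inv, e, inv_mul_cancel]
    have h2 := (hker _).1 h1 y
    exact mul_inv_eq_iff_eq_mul.1 h2
  rw [commutator_def, Subgroup.commutator_le]
  intro a _ b _
  obtain ⟨k, hk, ha⟩ := key a
  have e : ⁅a, b⁆ = k * (b * k⁻¹ * b⁻¹) := by
    have h1 : a = k * (k⁻¹ * a) := by rw [mul_inv_cancel_left]
    generalize k⁻¹ * a = z at ha h1
    rw [h1, commutatorElement_def, mul_inv_rev, mul_assoc k z b, (ha b).eq]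
    group
  rw [e]
  exact K.mul_mem hk (Subgroup.Normal.conj_mem inferInstance _ (K.inv_mem hk) b)

end Kol68
end

-- merged part: Pool.Agent.Work.MP_c53807_ag.GTop
section
/-!
A simply connected homogeneous space has no compact abelian quotient.
-/

open Topology
open scoped Pointwise

namespace Kol68

namespace Top74

theorem bound_pow {G : Type} [Group G] (c : G → ℝ) (c1 : c 1 = 0)
    (add : ∀ g h, c (g * h) = c g + c h) {T : Set G} {M : ℝ} (hM : ∀ g ∈ T, |c g| ≤ M) (n : ℕ) :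
    ∀ g ∈ T ^ n, |c g| ≤ n * M := by
  induction n with
  | zero =>
    intro g hg
    rw [pow_zero, Set.mem_one] at hg
    simp [hg, c1]
  | succ n ih =>
    intro g hg
    rw [pow_succ] at hg
    obtain ⟨a, ha, b, hb, rfl⟩ := hg
    have h1 := ih a ha
    have h2 := hM b hb
    have h3 := abs_add_le (c a) (c b)
    simp only [add]
    push_cast
    linarith

theorem zero_of_bound {G : Type} [Group G] (c : G → ℝ) (c1 : c 1 = 0)
    (add : ∀ g h, c (g * h) = c g + c h) {M : ℝ} (hM : ∀ g, |c g| ≤ M) (g : G) : c g = 0 := by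
  have hp : ∀ k : ℕ, c (g ^ k) = k * c g := by
    intro k
    induction k with
    | zero => simp [c1]
    | succ k ih => rw [pow_succ, add, ih]; push_cast; ring
  by_contra h
  have h0 : 0 < |c g| := abs_pos.2 h
  obtain ⟨k, hk⟩ := exists_nat_gt (M / |c g|)
  rw [div_lt_iff₀ h0] at hk
  have := hM (g ^ k)
  rw [hp, abs_mul, Nat.abs_cast] at this
  linarith

theorem locPath {G X : Type} [Group G] [TopologicalSpace X] [MulAction G X]
    [ContinuousConstSMul G X] [MulAction.IsPretransitive G X] (x₁ : X)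
    (hl : ∀ U ∈ 𝓝 x₁, ∃ W ∈ 𝓝 x₁, W ⊆ U ∧ IsPathConnected W) :
    LocallyPathConnectedSpace X := by
  refine ⟨fun x => ⟨fun U => ⟨fun hU => ?_, ?_⟩⟩⟩
  · obtain ⟨g, rfl⟩ := MulAction.exists_smul_eq G x₁ x
    have cont : Continuous fun y : X => g • y := continuous_const_smul g
    obtain ⟨W, hW, hWU, hWp⟩ := hl _ (cont.continuousAt.preimage_mem_nhds hU)
    refine ⟨(fun y : X => g • y) '' W, ⟨(isOpenMap_smul g).image_mem_nhds hW, hWp.image cont⟩, ?_⟩
    rintro _ ⟨y, hy, rfl⟩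
    exact hWU hy
  · rintro ⟨W, ⟨hW, -⟩, hWU⟩
    exact Filter.mem_of_superset hW hWU

end Top74

theorem eq_top_of_simplyConnected {G X : Type} [Group G] [TopologicalSpace G]
    [IsTopologicalGroup G] [SigmaCompactSpace G] [TopologicalSpace X] [T2Space X]
    [LocallyCompactSpace X] [MulAction G X] [ContinuousSMul G X] [MulAction.IsPretransitive G X]
    [SimplyConnectedSpace X] (x₀ x₁ : X)
    (hl : ∀ U ∈ 𝓝 x₁, ∃ W ∈ 𝓝 x₁, W ⊆ U ∧ IsPathConnected W) (K : Subgroup G)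
    (hK : IsClosed (K : Set G)) (hc : commutator G ≤ K) (hs : MulAction.stabilizer G x₀ ≤ K)
    (hs' : K ≤ Subgroup.normalClosure (MulAction.stabilizer G x₀ : Set G))
    (C : Set X) (hC : IsCompact C) (n : ℕ)
    (hn : ∀ g : G, g ∈ ({g | g • x₀ ∈ C} ∪ {g | g⁻¹ • x₀ ∈ C} ∪ (K : Set G)) ^ n) : K = ⊤ := by
  have := Top74.locPath (G := G) x₁ hl
  have : K.Normal := ⟨fun k hk g => by
    have h1 : g * k * g⁻¹ * k⁻¹ ∈ K :=
      hc (Subgroup.commutator_mem_commutator (Subgroup.mem_top g) (Subgroup.mem_top k))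
    simpa using K.mul_mem h1 hk⟩
  let : CommGroup (G ⧸ K) :=
    { (inferInstance : Group (G ⧸ K)) with
      mul_comm := fun a b => by
        obtain ⟨a, rfl⟩ := QuotientGroup.mk_surjective a
        obtain ⟨b, rfl⟩ := QuotientGroup.mk_surjective b
        rw [← QuotientGroup.mk_mul, ← QuotientGroup.mk_mul, QuotientGroup.eq]
        have h1 : b⁻¹ * a⁻¹ * b⁻¹⁻¹ * a⁻¹⁻¹ ∈ K :=
          hc (Subgroup.commutator_mem_commutator (Subgroup.mem_top _) (Subgroup.mem_top _))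
        simpa [mul_assoc] using h1 }
  have surj : Function.Surjective fun g : G => g • x₀ := fun x => MulAction.exists_smul_eq G x₀ x
  have quo : IsQuotientMap fun g : G => g • x₀ :=
    (isOpenMap_smul_of_sigmaCompact x₀).isQuotientMap (by fun_prop) surj
  obtain ⟨q, hq⟩ : ∃ q : X → G ⧸ K, ∀ g : G, q (g • x₀) = (g : G ⧸ K) := by
    refine ⟨fun x => ((surj x).choose : G), fun g => ?_⟩
    have h1 : (surj (g • x₀)).choose • x₀ = g • x₀ := (surj (g • x₀)).choose_spec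
    rw [QuotientGroup.eq]
    apply hs
    rw [MulAction.mem_stabilizer_iff, mul_smul, inv_smul_eq_iff, h1]
  have qc : Continuous q := by
    rw [quo.continuous_iff]
    have : q ∘ (fun g : G => g • x₀) = QuotientGroup.mk := funext hq
    rw [this]
    exact QuotientGroup.continuous_mk
  have qs : ∀ (g : G) (x : X), q (g • x) = (g : G ⧸ K) * q x := by
    intro g x
    obtain ⟨h, rfl⟩ := surj x
    simp only [← mul_smul, hq, QuotientGroup.mk_mul]
  have : CompactSpace (G ⧸ K) := by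
    have c1 : IsCompact (q '' C ∪ (q '' C)⁻¹ ∪ {1}) :=
      ((hC.image qc).union (hC.image qc).inv).union isCompact_singleton
    have c2 : ∀ m : ℕ, IsCompact ((q '' C ∪ (q '' C)⁻¹ ∪ {1}) ^ m) := by
      intro m
      induction m with
      | zero => rw [pow_zero]; exact isCompact_singleton
      | succ m ih => rw [pow_succ]; exact ih.mul c1
    refine ⟨(c2 n).of_isClosed_subset isClosed_univ fun a _ => ?_⟩
    obtain ⟨g, rfl⟩ := QuotientGroup.mk_surjective a
    have h1 := Set.mem_image_of_mem (QuotientGroup.mk' K) (hn g)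
    rw [Set.image_pow] at h1
    refine Set.pow_subset_pow_left ?_ h1
    rintro _ ⟨h, (hh | hh) | hh, rfl⟩
    · exact Or.inl (Or.inl ⟨_, hh, hq h⟩)
    · exact Or.inl (Or.inr ⟨_, hh, hq h⁻¹⟩)
    · exact Or.inr ((QuotientGroup.eq_one_iff h).2 hh)
  by_contra hne
  obtain ⟨a, ha⟩ : ∃ a : G, a ∉ K := by
    by_contra h
    exact hne (eq_top_iff.2 fun a _ => by_contra fun h' => h ⟨a, h'⟩)
  obtain ⟨χ, χc, χa⟩ := exists_char (A := G ⧸ K) (a := (a : G ⧸ K))
    fun h => ha ((QuotientGroup.eq_one_iff a).1 h)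
  have q0 : q x₀ = 1 := by simpa using hq 1
  obtain ⟨f, ⟨f0, hf⟩, -⟩ := Circle.isCoveringMap_exp.existsUnique_continuousMap_lifts
    (⟨fun x => χ (q x), χc.comp qc⟩ : C(X, Circle)) x₀ 0 (by simp [q0])
  have hf' : ∀ x, Circle.exp (f x) = χ (q x) := fun x => congrFun hf x
  have key : ∀ (g : G) (x : X), f (g • x) = f (g • x₀) + f x := by
    intro g x
    have h1 := Circle.isCoveringMap_exp.const_of_comp (g := fun x : X => f (g • x) - f x)
      (by fun_prop) (fun y y' => by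
        simp only [Circle.exp_sub, hf', qs, map_mul, mul_div_cancel_right]) x x₀
    simp only [f0, sub_zero] at h1
    linarith
  have add : ∀ g h : G, f ((g * h) • x₀) = f (g • x₀) + f (h • x₀) := fun g h => by
    rw [mul_smul, key]
  have c1 : f ((1 : G) • x₀) = 0 := by rw [one_smul, f0]
  let c : G →* Multiplicative ℝ :=
    { toFun := fun g => Multiplicative.ofAdd (f (g • x₀))
      map_one' := by rw [c1]; rfl
      map_mul' := fun g h => by rw [add]; rfl }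
  have cK : ∀ k ∈ K, f (k • x₀) = 0 := by
    intro k hk
    have h1 : Subgroup.normalClosure (MulAction.stabilizer G x₀ : Set G) ≤ c.ker :=
      Subgroup.normalClosure_le_normal fun g hg => by
        have hg' : g • x₀ = x₀ := hg
        change Multiplicative.ofAdd (f (g • x₀)) = 1
        rw [hg', f0]; rfl
    exact h1 (hs' hk)
  obtain ⟨M, hM⟩ := hC.exists_bound_of_continuousOn f.continuous.continuousOn
  have bd := Top74.bound_pow (fun g : G => f (g • x₀)) c1 add (M := max M 0)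
    (T := {g | g • x₀ ∈ C} ∪ {g | g⁻¹ • x₀ ∈ C} ∪ (K : Set G)) (by
      rintro g ((hg | hg) | hg)
      · exact (hM _ hg).trans (le_max_left _ _)
      · have h1 := add g g⁻¹
        rw [mul_inv_cancel, c1] at h1
        have h2 : f (g • x₀) = -f (g⁻¹ • x₀) := by linarith
        simp only [h2, abs_neg]
        exact (hM _ hg).trans (le_max_left _ _)
      · simp only [cK g hg, abs_zero]
        exact le_max_right _ _) n
  have z := Top74.zero_of_bound (fun g : G => f (g • x₀)) c1 add (fun g => bd g (hn g)) a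
  apply χa
  rw [← hq, ← hf', z, Circle.exp_zero]

end Kol68
end

-- merged part: Pool.Agent.Work.MP_c53807_ag.GM2
section
/-!
The normal closure of the identity component of the stabiliser acts transitively.
-/

open MvPolynomial Topology MulAction
open scoped Pointwise

namespace Kol68

variable {G X : Type} [Group G] [TopologicalSpace G] [AG G] [TopologicalSpace X] [QP X]
  [MulAction G X]

theorem isClosed_sup {Γ H H₀ : Subgroup G} [Γ.Normal] (hΓ : IsClosed (Γ : Set G)) {s : Finset G}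
    (hs₁ : ∀ t ∈ s, t ∈ H) (hs : ∀ h ∈ H, ∃ t ∈ s, t⁻¹ * h ∈ H₀) (h₀ : H₀ ≤ Γ) :
    IsClosed ((Γ ⊔ H : Subgroup G) : Set G) := by
  have : ((Γ ⊔ H : Subgroup G) : Set G) = ⋃ t ∈ s, (fun g => t⁻¹ * g) ⁻¹' Γ := by
    ext g
    simp only [Set.mem_iUnion, Set.mem_preimage, SetLike.mem_coe]
    constructor
    · intro hg
      obtain ⟨a, ha, h, hh, rfl⟩ := Subgroup.mem_sup_of_normal_left.1 hg
      obtain ⟨t, ht, h'⟩ := hs h hh
      refine ⟨t, ht, ?_⟩
      have := Γ.mul_mem (Subgroup.Normal.conj_mem inferInstance a ha t⁻¹) (h₀ h')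
      simpa [mul_assoc] using this
    · rintro ⟨t, ht, h⟩
      simpa using (Γ ⊔ H).mul_mem (Subgroup.mem_sup_right (hs₁ t ht)) (Subgroup.mem_sup_left h)
  rw [this]
  exact s.finite_toSet.isClosed_biUnion fun t _ => hΓ.preimage (mor_mul_left _).continuous

omit [TopologicalSpace G] [AG G] [TopologicalSpace X] [QP X] in
theorem mem_of_smul_eq {x₀ : X} {K : Subgroup G} (hs : stabilizer G x₀ ≤ K) {g k : G} (hk : k ∈ K)
    (e : g • x₀ = k • x₀) : g ∈ K := by
  have h1 : k⁻¹ * g ∈ stabilizer G x₀ := by rw [mem_stabilizer_iff, mul_smul, e, inv_smul_smul]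
  simpa using K.mul_mem hk (hs h1)

theorem isClosed_orbit [IrreducibleSpace G] [IsPretransitive G X]
    (hact : Mor₂ fun (g : G) (x : X) => g • x) {x₀ : X} {K : Subgroup G}
    (hK : IsClosed (K : Set G)) (hs : stabilizer G x₀ ≤ K) :
    IsClosed {x : X | ∃ k ∈ K, x = k • x₀} := by
  rw [← isOpen_compl_iff]
  convert isOpenMap_orbit hact x₀ _ hK.isOpen_compl using 1
  ext x
  obtain ⟨g, rfl⟩ := exists_smul_eq G x₀ x
  constructor
  · exact fun h => ⟨g, fun hg => h ⟨g, hg, rfl⟩, rfl⟩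
  · rintro ⟨g', hg', e⟩ ⟨k, hk, e'⟩
    exact hg' (mem_of_smul_eq hs hk (e.trans e'))

theorem exists_normalClosure {H₀ : Subgroup G} (hc : IsClosed (H₀ : Set G))
    (hi : IsIrreducible (H₀ : Set G)) : ∃ l : List (Set G),
      (∀ Y ∈ l, ∃ g : G, Y = (fun h => g * h * g⁻¹) '' H₀) ∧
      l.prod = (Subgroup.normalClosure (H₀ : Set G) : Set G) ∧ Par l.prod := by
  obtain ⟨l, h₁, h₂, h₃⟩ := exists_gen {Y | ∃ g : G, Y = (fun h => g * h * g⁻¹) '' H₀} (by
    rintro _ ⟨g, rfl⟩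
    exact ⟨(par_of hc.isLocallyClosed hi).image ((mor_mul_right g⁻¹).comp (mor_mul_left g)),
      1, H₀.one_mem, by simp⟩)
  refine ⟨l, fun Y hY => ?_, ?_, h₃⟩
  · rcases h₁ Y hY with h | ⟨g, h⟩
    · exact h
    · refine ⟨g, ?_⟩
      rw [← inv_inv Y, h]
      ext y
      constructor
      · rintro ⟨a, ha, e⟩
        refine ⟨a⁻¹, H₀.inv_mem ha, ?_⟩
        rw [← inv_inv y, ← e]; simp [mul_assoc]
      · rintro ⟨a, ha, rfl⟩
        exact ⟨a⁻¹, H₀.inv_mem ha, by simp [mul_assoc]⟩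
  · rw [h₂, Subgroup.normalClosure]
    congr 2
    ext y
    rw [Group.mem_conjugatesOfSet_iff]
    constructor
    · rintro ⟨_, ⟨g, rfl⟩, a, ha, rfl⟩
      exact ⟨a, ha, isConj_iff.2 ⟨g, rfl⟩⟩
    · rintro ⟨a, ha, h⟩
      obtain ⟨g, rfl⟩ := isConj_iff.1 h
      exact ⟨_, ⟨g, rfl⟩, a, ha, rfl⟩

omit [TopologicalSpace G] [AG G] in
theorem list_prod_subset {W : Set G} (l : List (Set G)) (h : ∀ Y ∈ l, Y ⊆ W) :
    l.prod ⊆ W ^ l.length := by
  induction l with
  | nil => simp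
  | cons Y l ih =>
    rw [List.prod_cons, List.length_cons, pow_succ']
    exact Set.mul_subset_mul (h Y (by simp)) (ih fun Y' hY' => h Y' (by simp [hY']))

theorem exists_bound [IrreducibleSpace G] [IsPretransitive G X]
    (hact : Mor₂ fun (g : G) (x : X) => g • x) {x₀ : X} {Z : Set X} (hZc : IsClosed Z)
    (hZi : IsIrreducible Z) (hnd : Nondeg G x₀ Z) {K H₀ : Subgroup G} (hK : Par (K : Set G))
    (hcomm : commutator G ≤ K) {s : Finset G} (hs₁ : ∀ t ∈ s, t ∈ stabilizer G x₀)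
    (hs : ∀ h ∈ stabilizer G x₀, ∃ t ∈ s, t⁻¹ * h ∈ H₀) (h₀ : H₀ ≤ K) :
    ∃ (a : G) (n : ℕ), ∀ g : G, g ∈ ({g | g • x₀ ∈ (fun x => a • x) '' Z} ∪
      {g | g⁻¹ • x₀ ∈ (fun x => a • x) '' Z} ∪ ((K ⊔ stabilizer G x₀ : Subgroup G) : Set G)) ^ n := by
  have hS : IsClosed {g : G | g • x₀ ∈ Z} := hZc.preimage (hact.left x₀).continuous
  obtain ⟨𝒮, hfin, hcl, hirr, hU⟩ :=
    TopologicalSpace.NoetherianSpace.exists_finite_set_isClosed_irreducible hS
  obtain ⟨_, ⟨S, hS₁, rfl⟩, hZS⟩ := isIrreducible_iff_sUnion_isClosed.1 hZi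
    (hfin.image fun S => closure ((fun g : G => g • x₀) '' S)).toFinset
    (by
      intro T hT
      obtain ⟨S, -, rfl⟩ := (Set.Finite.mem_toFinset _).1 hT
      exact isClosed_closure)
    (by
      intro z hz
      obtain ⟨g, rfl⟩ := exists_smul_eq G x₀ z
      obtain ⟨S, hS, hg⟩ : g ∈ ⋃₀ 𝒮 := hU ▸ hz
      exact ⟨_, (Set.Finite.mem_toFinset _).2 ⟨S, hS, rfl⟩, subset_closure ⟨g, hg, rfl⟩⟩)
    |>.imp fun T hT => And.intro ((Set.Finite.mem_toFinset _).1 hT.1) hT.2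
  obtain ⟨b, hb⟩ := (hirr S hS₁).nonempty
  have hSZ : ∀ g ∈ S, g • x₀ ∈ Z := fun g hg => (hU ▸ ⟨S, hS₁, hg⟩ : g ∈ {g : G | g • x₀ ∈ Z})
  obtain ⟨l, h₁, h₂, h₃⟩ := exists_gen {(fun g => b⁻¹ * g) '' S, (K : Set G)} (by
    rintro _ (rfl | rfl)
    · exact ⟨(par_of (hcl S hS₁).isLocallyClosed (hirr S hS₁)).image (mor_mul_left _), b, hb,
        inv_mul_cancel b⟩
    · exact ⟨hK, K.one_mem⟩)
  set Γ := Subgroup.closure (⋃₀ {(fun g => b⁻¹ * g) '' S, (K : Set G)})
  have hKΓ : K ≤ Γ := fun k hk => Subgroup.subset_closure ⟨K, by simp, hk⟩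
  have : Γ.Normal := Subgroup.Normal.of_commutator_le G (hcomm.trans hKΓ)
  have hc := isClosed_sup (isClosed_of_par (h₂ ▸ h₃ : Par (Γ : Set G))) hs₁ hs (h₀.trans hKΓ)
  have htop := hnd _ hc le_sup_right b fun z hz => by
    have h1 := (isClosed_orbit hact hc le_sup_right).preimage (hact.right b⁻¹).continuous
    obtain ⟨k, hk, e⟩ := closure_minimal (s := (fun g : G => g • x₀) '' S) (by
      rintro _ ⟨g, hg, rfl⟩
      exact ⟨b⁻¹ * g, Subgroup.mem_sup_left (Subgroup.subset_closure ⟨_, Or.inl rfl, g, hg, rfl⟩),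
        (mul_smul _ _ _).symm⟩) h1 (hZS hz)
    exact ⟨k, hk, by rw [mul_smul, ← e, smul_inv_smul]⟩
  refine ⟨b⁻¹, l.length + 1, fun g => ?_⟩
  obtain ⟨c, hc, h, hh, rfl⟩ := Subgroup.mem_sup_of_normal_left.1 (htop ▸ Subgroup.mem_top g)
  rw [pow_succ]
  refine Set.mul_mem_mul (list_prod_subset l (fun Y hY => ?_) (h₂ ▸ hc))
    (Or.inr (Subgroup.mem_sup_right hh))
  rcases h₁ Y hY with (rfl | rfl) | h | h
  · rintro _ ⟨y, hy, rfl⟩
    exact Or.inl (Or.inl ⟨_, hSZ y hy, (mul_smul _ _ _).symm⟩)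
  · exact fun y hy => Or.inr (Subgroup.mem_sup_left hy)
  · intro y hy
    obtain ⟨y', hy', e⟩ : y⁻¹ ∈ (fun g => b⁻¹ * g) '' S := h ▸ Set.inv_mem_inv.2 hy
    exact Or.inl (Or.inr ⟨_, hSZ y' hy', by rw [← e]; exact (mul_smul _ _ _).symm⟩)
  · intro y hy
    have : y⁻¹ ∈ (K : Set G) := (show Y⁻¹ = K from h) ▸ Set.inv_mem_inv.2 hy
    exact Or.inr (Subgroup.mem_sup_left (K.inv_mem_iff.1 this))

theorem sup_eq_top [IrreducibleSpace G] [IrreducibleSpace X] [IsPretransitive G X]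
    [SimplyConnectedSpace (Euc X)] (hact : Mor₂ fun (g : G) (x : X) => g • x) {x₀ : X} {Z : Set X}
    (hZc : IsClosed (QP.ι '' Z)) (hZi : IsIrreducible Z) (hnd : Nondeg G x₀ Z) {H₀ : Subgroup G}
    (hH₀ : H₀ ≤ stabilizer G x₀) (hK : Par (Subgroup.normalClosure (H₀ : Set G) : Set G))
    (hcomm : commutator G ≤ Subgroup.normalClosure (H₀ : Set G)) {s : Finset G}
    (hs₁ : ∀ t ∈ s, t ∈ stabilizer G x₀) (hs : ∀ h ∈ stabilizer G x₀, ∃ t ∈ s, t⁻¹ * h ∈ H₀) :
    Subgroup.normalClosure (H₀ : Set G) ⊔ stabilizer G x₀ = ⊤ := by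
  have hZ : IsClosed Z := by
    rw [← Set.preimage_image_eq Z QP.emb.injective]
    exact hZc.preimage QP.emb.continuous
  obtain ⟨a, n, hn⟩ := exists_bound hact hZ hZi hnd hK hcomm hs₁ hs Subgroup.le_normalClosure
  obtain ⟨x₁, hl⟩ := exists_lpc X
  have : ContinuousSMul (Euc G) (Euc X) := ⟨hact.continuous_euc⟩
  have : IsPretransitive (Euc G) (Euc X) := ‹IsPretransitive G X›
  have hc := isClosed_euc (isClosed_sup (isClosed_of_par hK) hs₁ hs Subgroup.le_normalClosure)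
  exact eq_top_of_simplyConnected (G := Euc G) (X := Euc X) x₀ x₁ hl _ hc
    (hcomm.trans le_sup_left) le_sup_right
    (sup_le (Subgroup.normalClosure_mono hH₀) Subgroup.le_normalClosure) _
    ((isCompact_euc hZc).image (hact.right a).continuous_euc) n hn

end Kol68
end

-- merged part: Pool.Agent.Work.MP_c53807_ag.GLin
section
/-!
A connected linear algebraic group is the image of a torus under a regular map.
-/

open MvPolynomial Topology
open scoped Pointwise Polynomial Matrix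

namespace Kol68

namespace GLin

variable {n : ℕ}

/-- The value at `w` of the cocharacter with eigenbasis `Q` and weights `a`. -/
noncomputable def tw (Q : GL (Fin n) ℂ) (a : Fin n → ℤ) (w : ℂˣ) : GL (Fin n) ℂ :=
  Q * diagU (fun i => w ^ a i) * Q⁻¹

theorem tw_one (Q : GL (Fin n) ℂ) (a : Fin n → ℤ) : tw Q a 1 = 1 := by
  have : diagU (fun i => (1 : ℂˣ) ^ a i) = 1 := Units.ext (by simp)
  rw [tw, this, mul_one, mul_inv_cancel]

theorem ρ_tw {m : Type} [Fintype m] [DecidableEq m] (P : NatRep (Fin n) m) (Q : GL (Fin n) ℂ)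
    (a : Fin n → ℤ) (w : ℂˣ) :
    P.ρ ℂ (tw Q a w) = dg (P.ρU ℂ Q) fun j => (w : ℂ) ^ wtS P a j := by
  rw [tw, map_mul, map_mul, P.diag, dg_eq]
  congr 3
  ext j
  simp only [← zpow_mul]
  rw [← ofAdd_sum_zpow, Units.val_zpow_eq_zpow_val]
  congr 1
  simp [wtS, mul_comm]

theorem dρ_int {m : Type} [Fintype m] [DecidableEq m] (P : NatRep (Fin n) m) (Q : GL (Fin n) ℂ)
    (a : Fin n → ℤ) :
    P.dρ ℂ (dg Q fun i => (a i : ℂ)) = dg (P.ρU ℂ Q) fun j => ((wtS P a j : ℤ) : ℂ) := by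
  have e : wtS P (fun i => (a i : ℂ)) = fun j => ((wtS P a j : ℤ) : ℂ) :=
    (map_wtS P (Int.castAddHom ℂ) a).symm
  rw [dρ_dg, e]

theorem tw_mem {L : Subgroup (GL (Fin n) ℂ)} (hL : GLClosed (L : Set (GL (Fin n) ℂ)))
    {Q : GL (Fin n) ℂ} {a : Fin n → ℤ} (h : (dg Q fun i => (a i : ℂ)) ∈ lie L) (w : ℂˣ) :
    tw Q a w ∈ L := by
  refine Pt.mem hL ((pt_iff L _).2 (pres_self.2 ?_))
  have h1 : (repG L).dρ ℂ (dg Q fun i => (a i : ℂ)) ∈ presA (subG L) := h
  rw [dρ_int] at h1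
  have h2 := adjoin_le_presA h1 (SpecAux.comp_mem_adjoin _ _ fun c => (w : ℂ) ^ ⌊c.re⌋)
  rw [ρ_tw]
  convert h2 using 2
  ext j
  simp

theorem mem_lie_of_tw {K : Subgroup (GL (Fin n) ℂ)} {Q : GL (Fin n) ℂ} {a : Fin n → ℤ}
    (h : tw Q a (Units.mk0 2 two_ne_zero) ∈ K) : (dg Q fun i => (a i : ℂ)) ∈ lie K := by
  have h1 := tenS_stable K (eG K) h
  rw [ρ_tw] at h1
  have inj : Function.Injective fun k : ℤ => (2 : ℂ) ^ k := fun k l e => by
    have e' := congrArg norm e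
    simp only [norm_zpow, Complex.norm_ofNat] at e'
    exact zpow_right_injective₀ (by norm_num) (by norm_num) e'
  have h2 := adjoin_le_presA h1 (SpecAux.comp_mem_adjoin _ _
    fun c => ((Function.invFun (fun k : ℤ => (2 : ℂ) ^ k) c : ℤ) : ℂ))
  change (repG K).dρ ℂ _ ∈ presA (subG K)
  rw [dρ_int]
  convert h2 using 2
  ext j
  simp only [Function.comp_apply, Units.val_mk0]
  rw [Function.leftInverse_invFun inj]

theorem lie_le {L K : Subgroup (GL (Fin n) ℂ)}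
    (h₁ : ∀ ν ∈ lie L, IsNilpotent ν → ν ∈ lie K)
    (h₂ : ∀ (Q : GL (Fin n) ℂ) (a : Fin n → ℤ), (dg Q fun i => (a i : ℂ)) ∈ lie L →
      (dg Q fun i => (a i : ℂ)) ∈ lie K) : lie L ≤ lie K := by
  classical
  intro ξ hξ
  obtain ⟨Q, δ, ν, hν, hc, rfl⟩ := exists_jordan ξ
  have hrep : ∀ f : ℂ →+ ℂ, dg Q (f ∘ δ) ∈ lie L := fun f => by
    have hν' := (repG L).dρ_isNilpotent hν
    have hc' : Commute ((repG L).dρ ℂ ν) (dg ((repG L).ρU ℂ Q) (wtS (repG L) δ)) := by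
      have := (repG L).dρ_lie ν (dg Q δ)
      rw [hc.eq, sub_self, map_zero, dρ_dg, eq_comm, sub_eq_zero] at this
      exact this
    have h1 : (repG L).dρ ℂ (dg Q δ + ν) ∈ presA (subG L) := hξ
    change (repG L).dρ ℂ _ ∈ presA (subG L)
    rw [map_add, dρ_dg] at h1
    rw [dρ_dg, ← map_wtS]
    exact adjoin_le_presA h1 (SpecAux.comp_mem_adjoin' _ _ hν' hc' f)
  have hδ : dg Q δ ∈ lie L := hrep (AddMonoidHom.id ℂ)
  refine (lie K).add_mem ?_ (h₁ ν (by simpa using (lie L).sub_mem hξ hδ) hν)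
  have hrat : ∀ f : ℂ →ₗ[ℚ] ℚ, dg Q (ratF f ∘ δ) ∈ lie K := fun f => by
    obtain ⟨M, hM⟩ := IsLocalization.exist_integer_multiples_of_finite (nonZeroDivisors ℤ)
      (fun i => f (δ i))
    have hM0 : ((M : ℤ) : ℂ) ≠ 0 := by exact_mod_cast nonZeroDivisors.coe_ne_zero M
    choose a ha using hM
    have e : (fun i => (a i : ℂ)) = ((M : ℤ) : ℂ) • (ratF f ∘ δ) := by
      ext i
      have := ha i
      simp only [eq_intCast, zsmul_eq_mul] at this
      rw [Pi.smul_apply, Function.comp_apply, ratF_apply, smul_eq_mul]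
      exact_mod_cast congrArg (Rat.cast : ℚ → ℂ) this
    have h3 := h₂ Q a (by rw [e, dg, dgR_smul]; exact (lie L).smul_mem _ (hrep _))
    rw [e, dg, dgR_smul] at h3
    exact ((lie K).smul_mem_iff hM0).1 h3
  let B := Module.Basis.ofVectorSpace ℚ ℂ
  let s := Finset.univ.biUnion fun i => (B.repr (δ i)).support
  have e : δ = ∑ b ∈ s, B b • (ratF (B.coord b) ∘ δ) := by
    ext i
    rw [Finset.sum_apply]
    conv_lhs => rw [← B.linearCombination_repr (δ i), Finsupp.linearCombination_apply,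
      Finsupp.sum_of_support_subset _ (Finset.subset_biUnion_of_mem
        (fun i => (B.repr (δ i)).support) (Finset.mem_univ i)) _ (by simp)]
    refine Finset.sum_congr rfl fun b _ => ?_
    rw [Pi.smul_apply, Function.comp_apply, ratF_apply, smul_eq_mul, Rat.smul_def, mul_comm]
    rfl
  rw [e, ← SpecAux.dgA_apply, map_sum]
  refine Submodule.sum_mem _ fun b _ => ?_
  rw [map_smul]
  exact Submodule.smul_mem _ _ (hrat _)

theorem epi_zero {L : Subgroup (GL (Fin n) ℂ)}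
    (hirr : (vanI (L : Set (GL (Fin n) ℂ))).IsPrime) : Epi L 0 := by
  intro φ hφ g hg
  obtain ⟨c, hc⟩ := ConstC.const_on_prime L 0 φ hφ (vanI (L : Set (GL (Fin n) ℂ)))
    (fun p hp x hx => hp x ⟨hx, 0, by simp⟩)
    (fun h => by simpa [ev_det] using h 1 L.one_mem) L.one_mem
  have h1 := hc g fun p hp => hp g hg
  have h2 := hc 1 fun p hp => hp 1 L.one_mem
  rw [one_mul] at h1 h2
  rw [h1, h2]

theorem le_of_gen {L K : Subgroup (GL (Fin n) ℂ)} (hL : GLClosed (L : Set (GL (Fin n) ℂ)))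
    (hirr : (vanI (L : Set (GL (Fin n) ℂ))).IsPrime) (hK : GLClosed (K : Set (GL (Fin n) ℂ)))
    (h₁ : ∀ U : GL (Fin n) ℂ[X], evU 0 U = 1 → (∀ y, evU y U ∈ L) → ∀ y, evU y U ∈ K)
    (h₂ : ∀ (Q : GL (Fin n) ℂ) (a : Fin n → ℤ), (∀ w, tw Q a w ∈ L) → ∀ w, tw Q a w ∈ K) :
    L ≤ K := by
  have h : lie L ≤ lie K := lie_le (fun ν hν hn => by
    obtain ⟨U, hU⟩ := SL2Aux.exists_U hn
    exact SL2Aux.mem_lie_of_U hU (pts_of_eval (h₁ U (SL2Aux.evU_zero hU)
      (evU_mem hL (SL2Aux.U_mem hU hν)))))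
    fun Q a ha => mem_lie_of_tw (h₂ Q a (tw_mem hL ha) _)
  intro y hy
  refine Pt.mem hK ((pt_iff K y).2 (pres_self.2 ?_))
  exact gst_of_st hirr (epi_zero hirr) ⟨_, repG K, subG K⟩ (fun ξ hξ => h (g1_le_lie hξ)) y hy

/-- Images of tori under regular maps sending `1` to `1`. -/
def TPar (Y : Set (ZGL n)) : Prop :=
  ∃ (κ : Type) (_ : Finite κ) (l : (κ → ℂ) → ZGL n),
    Reg (torus κ) l ∧ l 1 = 1 ∧ l '' torus κ = Y

theorem TPar.par {Y : Set (ZGL n)} (h : TPar Y) : Par Y ∧ (1 : ZGL n) ∈ Y := by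
  obtain ⟨κ, _, l, h₁, h₂, rfl⟩ := h
  exact ⟨⟨κ, inferInstance, _, l, alc_torus, airr_torus, h₁, rfl⟩, 1, one_mem_torus, h₂⟩

theorem tpar_one : TPar (1 : Set (ZGL n)) :=
  ⟨Unit, inferInstance, fun _ => 1, reg_const _ _, rfl,
    Set.Nonempty.image_const ⟨1, one_mem_torus⟩ _⟩

theorem TPar.inv {Y : Set (ZGL n)} (h : TPar Y) : TPar Y⁻¹ := by
  obtain ⟨κ, _, l, h₁, h₂, rfl⟩ := h
  exact ⟨κ, inferInstance, fun w => (l w)⁻¹, h₁.inv, by simp [h₂], by
    rw [← Set.image_inv_eq_inv, Set.image_image]⟩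

theorem TPar.mul {Y Y' : Set (ZGL n)} (h : TPar Y) (h' : TPar Y') : TPar (Y * Y') := by
  obtain ⟨κ, _, l, h₁, h₂, rfl⟩ := h
  obtain ⟨κ', _, l', h₁', h₂', rfl⟩ := h'
  refine ⟨κ ⊕ κ', inferInstance, fun z => l (z ∘ Sum.inl) * l' (z ∘ Sum.inr),
    (h₁.comp (amor_comp (torus (κ ⊕ κ')) _) fun z hz i => hz _).mul
      (h₁'.comp (amor_comp (torus (κ ⊕ κ')) _) fun z hz i => hz _), ?_, ?_⟩
  · change l 1 * l' 1 = 1
    rw [h₂, h₂', mul_one]
  · ext g
    constructor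
    · rintro ⟨z, hz, rfl⟩
      exact ⟨_, ⟨_, fun i => hz _, rfl⟩, _, ⟨_, fun i => hz _, rfl⟩, rfl⟩
    · rintro ⟨_, ⟨w, hw, rfl⟩, _, ⟨w', hw', rfl⟩, rfl⟩
      refine ⟨Sum.elim w w', ?_, rfl⟩
      rintro (i | i)
      exacts [hw i, hw' i]

theorem freg_poly {ρ : Type} {A : Set (ρ → ℂ)} {f : (ρ → ℂ) → ℂ} (hf : FReg A f) (p : ℂ[X]) :
    FReg A fun y => p.eval (f y) := by
  simp only [Polynomial.eval_eq_sum_range]
  exact FReg.sum _ fun i _ => (freg_const A _).mul (hf.pow i)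

theorem tpar_evU (U : GL (Fin n) ℂ[X]) (h : evU 0 U = 1) (c : ℂ) :
    TPar ((fun w : Unit → ℂ => (evU (c * (w () - 1)) U : ZGL n)) '' torus Unit) :=
  ⟨Unit, inferInstance, _, reg_zgl_iff.2 fun i j => freg_poly
    ((freg_const _ c).mul ((freg_coord _ ()).sub (freg_const _ 1))) _, by
      change evU (c * (1 - 1)) U = 1
      rw [sub_self, mul_zero, h], rfl⟩

open Classical in
/-- A nonzero number as a unit. -/
noncomputable def un (c : ℂ) : ℂˣ := if h : c = 0 then 1 else Units.mk0 c h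

theorem coe_un {c : ℂ} (h : c ≠ 0) : (un c : ℂ) = c := by rw [un, dif_neg h]; rfl

theorem un_coe (w : ℂˣ) : un w = w := Units.ext (coe_un w.ne_zero)

theorem tpar_tw (Q : GL (Fin n) ℂ) (a : Fin n → ℤ) :
    TPar ((fun w : Unit → ℂ => (tw Q a (un (w ())) : ZGL n)) '' torus Unit) := by
  refine ⟨Unit, inferInstance, _, ?_, ?_, rfl⟩
  · have h : Reg (torus Unit) fun w : Unit → ℂ =>
        (show ZGL n from diagU fun i => un (w ()) ^ a i) := by
      refine reg_zgl_iff.2 fun i j => ?_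
      by_cases e : i = j
      · subst e
        refine ((freg_coord (torus Unit) ()).zpow (fun y hy => hy ()) (a i)).congr fun y hy => ?_
        change Matrix.diagonal _ i i = _
        rw [Matrix.diagonal_apply_eq, Units.val_zpow_eq_zpow_val, coe_un (hy ())]
      · exact (freg_const _ 0).congr fun y _ => Matrix.diagonal_apply_ne _ e
    exact ((reg_const _ (show ZGL n from Q)).mul h).mul (reg_const _ (show ZGL n from Q⁻¹))
  · change tw Q a (un (1 : ℂˣ)) = 1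
    rw [un_coe, tw_one]

end GLin

open GLin in
theorem exists_torus_param {n : ℕ} (L : Subgroup (ZGL n)) (hc : IsClosed (L : Set (ZGL n)))
    (hi : IsIrreducible (L : Set (ZGL n))) : ∃ (κ : Type) (_ : Finite κ) (l : (κ → ℂ) → ZGL n),
      Reg (torus κ) l ∧ l 1 = 1 ∧ l '' torus κ = L := by
  obtain ⟨l, h₁, h₂, h₃⟩ := exists_gen {Y : Set (ZGL n) | TPar Y ∧ Y ⊆ L} fun Y hY => hY.1.par
  have h₄ : TPar l.prod := List.prod_induction _ (fun _ _ => TPar.mul) tpar_one fun Y hY =>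
    (h₁ Y hY).elim (fun h => h.1) fun h => inv_inv Y ▸ h.1.inv
  have sub : ∀ Y : Set (ZGL n), TPar Y → Y ⊆ L →
      Y ⊆ Subgroup.closure (⋃₀ {Y : Set (ZGL n) | TPar Y ∧ Y ⊆ L}) := fun Y a b =>
    (Set.subset_sUnion_of_mem (S := {Y : Set (ZGL n) | TPar Y ∧ Y ⊆ L}) ⟨a, b⟩).trans
      Subgroup.subset_closure
  have h₅ : Subgroup.closure (⋃₀ {Y : Set (ZGL n) | TPar Y ∧ Y ⊆ L}) = L := by
    refine le_antisymm ((Subgroup.closure_le _).2 (Set.sUnion_subset fun Y hY => hY.2)) ?_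
    refine le_of_gen (L := L) (isClosed_zgl_iff.1 hc) (isIrreducible_zgl_iff.1 hi)
      (isClosed_zgl_iff.1 (isClosed_of_par (h₂ ▸ h₃))) (fun U h0 hU y => ?_) fun Q a ha w => ?_
    · refine sub _ (tpar_evU U h0 y) (by rintro _ ⟨w, -, rfl⟩; exact hU _)
        ⟨fun _ => 2, fun _ => two_ne_zero, ?_⟩
      change evU (y * (2 - 1)) U = evU y U
      norm_num
    · exact sub _ (tpar_tw Q a) (by rintro _ ⟨w, -, rfl⟩; exact ha _)
        ⟨fun _ => w, fun _ => w.ne_zero, congrArg (tw Q a) (un_coe w)⟩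
  rw [h₂, h₅] at h₄
  exact h₄

end Kol68
end

-- merged part: Pool.Agent.Work.MP_c53807_ag.GM3
section
/-!
Groups acting through regular families over tori.
-/

open MvPolynomial Topology MulAction
open scoped Pointwise

namespace Kol68

section

variable {Γ X : Type} [Group Γ] [TopologicalSpace X] [QP X] [MulAction Γ X] {Y Y' : Set Γ}

theorem tact_one : TAct X (1 : Set Γ) :=
  ⟨Empty, inferInstance, fun _ => 1, fun _ _ => rfl, fun x => one_smul _ x,
    fun g hg => ⟨1, one_mem_torus, fun x => by rw [Set.mem_one.1 hg]⟩,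
    fun _ _ _ _ _ _ h => h.congr fun _ _ => one_smul _ _⟩

theorem TAct.mul (h : TAct X Y) (h' : TAct X Y') : TAct X (Y * Y') := by
  obtain ⟨κ, _, γ, h₁, h₂, h₃, h₄⟩ := h
  obtain ⟨κ', _, γ', h₁', h₂', h₃', h₄'⟩ := h'
  refine ⟨κ ⊕ κ', inferInstance, fun w => γ (w ∘ Sum.inl) * γ' (w ∘ Sum.inr),
    fun w hw => Set.mul_mem_mul (h₁ _ fun _ => hw _) (h₁' _ fun _ => hw _), fun x => ?_, ?_,
    fun ρ A β ψ hβ hm hψ => ?_⟩
  · rw [mul_smul]; exact (congrArg _ (h₂' x)).trans (h₂ x)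
  · rintro _ ⟨g, hg, g', hg', rfl⟩
    obtain ⟨w, hw, e⟩ := h₃ g hg
    obtain ⟨w', hw', e'⟩ := h₃' g' hg'
    refine ⟨Sum.elim w w', by rintro (i | i); exacts [hw i, hw' i], fun x => ?_⟩
    rw [mul_smul, mul_smul, ← e', ← e]; rfl
  · exact (h₄ ρ A _ _ (hβ.precomp Sum.inl) (fun y hy _ => hm hy _)
      (h₄' ρ A _ _ (hβ.precomp Sum.inr) (fun y hy _ => hm hy _) hψ)).congr
      fun _ _ => mul_smul _ _ _

theorem TAct.conj (hact : ∀ g : Γ, Mor fun x : X => g • x) (h : TAct X Y) (g : Γ) :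
    TAct X ((fun h => g * h * g⁻¹) '' Y) := by
  obtain ⟨κ, _, γ, h₁, h₂, h₃, h₄⟩ := h
  refine ⟨κ, inferInstance, fun w => g * γ w * g⁻¹, fun w hw => ⟨_, h₁ w hw, rfl⟩,
    fun x => by rw [mul_smul, mul_smul, h₂, smul_inv_smul], ?_, fun ρ A β ψ hβ hm hψ => ?_⟩
  · rintro _ ⟨y, hy, rfl⟩
    obtain ⟨w, hw, e⟩ := h₃ y hy
    exact ⟨w, hw, fun x => by simp only [mul_smul, e]⟩
  · exact (hact g ρ A _ (h₄ ρ A _ _ hβ hm (hact g⁻¹ ρ A _ hψ))).congr
      fun _ _ => by simp only [mul_smul]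

theorem tact_prod (l : List (Set Γ)) (h : ∀ Y ∈ l, TAct X Y) : TAct X l.prod := by
  induction l with
  | nil => exact tact_one
  | cons Y l ih =>
    rw [List.prod_cons]
    exact (h Y (by simp)).mul (ih fun Y' hY' => h Y' (by simp [hY']))

theorem TAct.subtype {K : Subgroup Γ} (h : TAct X (K : Set Γ)) : TAct X (Set.univ : Set K) := by
  classical
  obtain ⟨κ, _, γ, h₁, h₂, h₃, h₄⟩ := h
  let γ' : (κ → ℂ) → K := fun w => if h : γ w ∈ K then ⟨γ w, h⟩ else 1
  have e : ∀ w ∈ torus κ, ∀ x : X, γ' w • x = γ w • x := fun w hw x => by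
    simp only [γ', dif_pos (show γ w ∈ K from h₁ w hw)]; rfl
  refine ⟨κ, inferInstance, γ', fun _ _ => trivial, fun x => by rw [e _ one_mem_torus, h₂],
    fun g _ => ?_, fun ρ A β ψ hβ hm hψ => (h₄ ρ A _ _ hβ hm hψ).congr fun y hy => e _ (hm hy) _⟩
  obtain ⟨w, hw, e'⟩ := h₃ g g.2
  exact ⟨w, hw, fun x => (e w hw x).trans (e' x)⟩

end

variable {G X : Type} [Group G] [TopologicalSpace G] [AG G] [TopologicalSpace X] [QP X]
  [MulAction G X]

theorem reg_sub_iff {H : Subgroup G} [Fact (IsClosed (H : Set G))] {ρ : Type} {A : Set (ρ → ℂ)}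
    {φ : (ρ → ℂ) → H} : Reg A φ ↔ Reg A fun y => (φ y : G) := Iff.rfl

theorem mor₂_section [IrreducibleSpace G] {G' : Type} [Group G'] [TopologicalSpace G'] [AG G']
    (hact : Mor₂ fun (g : G) (x : X) => g • x) (r : G →* G') (hr : Mor r) (σ : G' → G)
    (hσ : ∀ y, r (σ y) = y) (hσ' : ∀ (g : G) (x : X), σ (r g) • x = g • x) :
    Mor₂ fun (y : G') (x : X) => σ y • x := by
  let _ : MulAction G G' := MulAction.compHom G' r
  have hsm : ∀ (g : G) (y : G'), g • y = r g * y := fun _ _ => rfl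
  have : IsPretransitive G G' := ⟨fun a b => ⟨σ (b * a⁻¹), by rw [hsm, hσ]; simp⟩⟩
  exact Mor₂.descend (G := G) (fun ρ A φ ψ hφ hψ => Reg.mul (hr ρ A φ hφ) hψ) 1
    fun ρ A φ ψ hφ hψ => (hact ρ A φ ψ hφ hψ).congr fun _ _ => by simp only [hsm, mul_one, hσ']

theorem tact_of_fixed [IrreducibleSpace G] [IrreducibleSpace X]
    (hact : Mor₂ fun (g : G) (x : X) => g • x) (x₀ : X) (hfix : ∀ g : G, g • x₀ = x₀) :
    TAct X (Set.univ : Set G) := by
  classical
  obtain ⟨n, r, hr, hker⟩ := exists_jets hact x₀ hfix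
  have hP : Par (r.range : Set (ZGL n)) := by
    rw [MonoidHom.coe_range, ← Set.image_univ]
    exact (par_of isClosed_univ.isLocallyClosed (IrreducibleSpace.isIrreducible_univ G)).image hr
  have : Fact (IsClosed (r.range : Set (ZGL n))) := ⟨isClosed_of_par hP⟩
  obtain ⟨κ, _, l, hl₁, hl₂, hl₃⟩ := exists_torus_param r.range this.out hP.isIrreducible
  choose σ hσ using r.rangeRestrict_surjective
  have hσ' : ∀ (g : G) (x : X), σ (r.rangeRestrict g) • x = g • x := fun g x => by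
    have h1 : r (g⁻¹ * σ (r.rangeRestrict g)) = 1 := by
      rw [map_mul, map_inv, inv_mul_eq_one]
      exact (congrArg Subtype.val (hσ (r.rangeRestrict g))).symm
    have h2 := (hker _).1 h1 x
    rwa [mul_smul, inv_smul_eq_iff] at h2
  have hm := mor₂_section hact r.rangeRestrict
    (fun ρ A φ hφ => reg_sub_iff.2 (hr ρ A φ hφ)) σ hσ hσ'
  let l' : (κ → ℂ) → r.range := fun w => if h : l w ∈ r.range then ⟨l w, h⟩ else 1
  have e : ∀ w ∈ torus κ, (l' w : ZGL n) = l w := fun w hw => by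
    have : l w ∈ r.range := by
      change l w ∈ (r.range : Set (ZGL n)); rw [← hl₃]; exact ⟨w, hw, rfl⟩
    simp only [l', dif_pos this]
  have hl' : Reg (torus κ) l' := reg_sub_iff.2 (hl₁.congr e)
  refine ⟨κ, inferInstance, fun w => σ (l' w), fun _ _ => trivial, fun x => ?_, fun g _ => ?_,
    fun ρ A β ψ hβ hβ' hψ => hm ρ A _ _ (hl'.comp hβ hβ') hψ⟩
  · have : l' 1 = r.rangeRestrict 1 := Subtype.ext (by rw [e _ one_mem_torus, hl₂, map_one]; rfl)
    simp only [this, hσ', one_smul]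
  · obtain ⟨w, hw, e'⟩ : r g ∈ l '' torus κ := hl₃ ▸ ⟨g, rfl⟩
    have : l' w = r.rangeRestrict g := Subtype.ext (by rw [e _ hw, e']; rfl)
    exact ⟨w, hw, fun x => by simp only [this, hσ']⟩

theorem tact_of_le [IrreducibleSpace X] (hact : Mor₂ fun (g : G) (x : X) => g • x) {x₀ : X}
    {H : Subgroup G} (hc : IsClosed (H : Set G)) (hi : IsIrreducible (H : Set G))
    (hH : H ≤ stabilizer G x₀) : TAct X (H : Set G) := by
  have : Fact (IsClosed (H : Set G)) := ⟨hc⟩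
  have : IrreducibleSpace H := Subtype.irreducibleSpace hi
  obtain ⟨κ, _, γ, -, h₂, h₃, h₄⟩ := tact_of_fixed (G := H) (X := X)
    (fun ρ A φ ψ hφ hψ => hact ρ A (fun y => (φ y : G)) ψ hφ hψ) x₀ fun g => hH g.2
  exact ⟨κ, inferInstance, fun w => γ w, fun w _ => (γ w).2, h₂,
    fun g hg => h₃ ⟨g, hg⟩ trivial, h₄⟩

end Kol68
end

-- merged part: Pool.Agent.Work.MP_c53807_ag.GExt
section
/-!
Extension of generically equivariant maps; semi-invariants.
-/

open MvPolynomial Topology Filter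

namespace Kol68

variable {Γ X W : Type} [Group Γ] [TopologicalSpace X] [QP X] [IrreducibleSpace X]
  [TopologicalSpace W] [QP W] [MulAction Γ X] [MulAction.IsPretransitive Γ X]

theorem exists_ext (hact : ∀ g : Γ, Mor fun x : X => g • x) {O : Set X} (hO : IsOpen O)
    (hne : O.Nonempty) {e₀ : X → W} (he : MorOn O e₀)
    (hR : ∀ g : Γ, ∃ β : W ≃ W, Mor β ∧ Mor β.symm ∧ ∀ᶠ x in genF X, e₀ (g • x) = β (e₀ x)) :
    ∃ e : X → W, Mor e ∧ (∀ x ∈ O, e x = e₀ x) ∧ ∀ (g : Γ) (β : W → W), Mor β →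
      (∀ᶠ x in genF X, e₀ (g • x) = β (e₀ x)) → ∀ x, e (g • x) = β (e x) := by
  choose β hβ hβ' hgen using hR
  obtain ⟨x₀, hx₀⟩ := hne
  choose γ hγ using fun x : X => MulAction.exists_smul_eq Γ x x₀
  have opn : ∀ g : Γ, IsOpen {x : X | g • x ∈ O} := fun g => hO.preimage (hact g).continuous
  have mor : ∀ g : Γ, MorOn {x : X | g • x ∈ O} fun x => (β g).symm (e₀ (g • x)) := fun g =>
    ((hβ' g).morOn Set.univ).comp (he.comp ((hact g).morOn _) fun _ hy => hy) (Set.mapsTo_univ _ _)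
  have gen : ∀ g : Γ, ∀ᶠ x in genF X, (β g).symm (e₀ (g • x)) = e₀ x := fun g => by
    filter_upwards [hgen g] with x hx
    rw [hx, Equiv.symm_apply_apply]
  have rel : ∀ (g : Γ) (x : X), g • x ∈ O →
      (β (γ x)).symm (e₀ (γ x • x)) = (β g).symm (e₀ (g • x)) := by
    intro g x hx
    obtain ⟨U, hU, hUne, hU'⟩ := (eventually_genF X).1 ((gen (γ x)).and (gen g))
    exact MorOn.eqOn ((opn (γ x)).inter (opn g)) ((mor (γ x)).mono Set.inter_subset_left)
      ((mor g).mono Set.inter_subset_right) hU hUne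
      (fun y _ hy => (hU' y hy).1.trans (hU' y hy).2.symm) x ⟨by
        change γ x • x ∈ O
        rw [hγ]; exact hx₀, hx⟩
  have hm : Mor fun x => (β (γ x)).symm (e₀ (γ x • x)) := by
    refine mor_iff.2 (MorOn.of_local fun y _ => ⟨_, opn (γ y), ?_, ?_⟩)
    · change γ y • y ∈ O
      rw [hγ]; exact hx₀
    · exact ((mor (γ y)).mono Set.inter_subset_right).congr fun x hx => rel _ x hx.2
  have gen' : ∀ᶠ x in genF X, (β (γ x)).symm (e₀ (γ x • x)) = e₀ x := by
    filter_upwards [gen 1, open_mem_genF X hO ⟨x₀, hx₀⟩] with x h1 h2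
    rw [rel 1 x (by rwa [one_smul]), h1]
  refine ⟨_, hm, ?_, fun g b hb hg x => ?_⟩
  · obtain ⟨U, hU, hUne, hU'⟩ := (eventually_genF X).1 gen'
    exact MorOn.eqOn hO (hm.morOn O) he hU hUne fun y _ hy => hU' y hy
  · obtain ⟨U, hU, hUne, hU'⟩ := (eventually_genF X).1
      ((((tendsto_smul_genF hact g).eventually gen').and gen').and hg)
    exact MorOn.eqOn isOpen_univ ((hm.comp (hact g)).morOn _) ((hb.comp hm).morOn _) hU hUne
      (fun y _ hy => by
        obtain ⟨⟨h1, h2⟩, h3⟩ := hU' y hy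
        rw [h1, h2, h3]) x (Set.mem_univ x)

theorem const_of_semi (hact : ∀ g : Γ, Mor fun x : X => g • x)
    (hconst : ∀ f : X → ℂ, FMor f → ∀ x y, f x = f y) (a b : RF X) (ha : a ≠ 0)
    (h : ∀ g : Γ, ∃ c : ℂ, pull hact g a = c • b) : ∃ c : ℂ, a = algebraMap ℂ (RF X) c := by
  obtain ⟨c₁, hc₁⟩ := h 1
  rw [pull_one, AlgHom.id_apply] at hc₁
  have c0 : c₁ ≠ 0 := fun e => ha (by rw [hc₁, e, zero_smul])
  have h' : ∀ g : Γ, ∃ c : ℂ, c • pull hact g a = a := fun g => by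
    obtain ⟨c, hc⟩ := h g
    have c0' : c ≠ 0 := fun e => ha <|
      (map_eq_zero_iff _ (pull hact g).toRingHom.injective).1
        (show pull hact g a = 0 by rw [hc, e, zero_smul])
    exact ⟨c₁ / c, by rw [hc, smul_smul, div_mul_cancel₀ _ c0', ← hc₁]⟩
  choose χ hχ using h'
  obtain ⟨u, O, hO, ⟨x₀, hx₀⟩, hu, hau⟩ := RF.exists_rep₁ a
  choose γ hγ using fun x : X => MulAction.exists_smul_eq Γ x x₀
  have opn : ∀ g : Γ, IsOpen {x : X | g • x ∈ O} := fun g => hO.preimage (hact g).continuous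
  have mor : ∀ g : Γ, FMorOn {x : X | g • x ∈ O} fun x => χ g * u (g • x) := fun g ρ A φ hφ hm =>
    (freg_const A (χ g)).mul ((hu.comp ((hact g).morOn _) fun _ hy => hy) ρ A φ hφ hm)
  have gen : ∀ g : Γ, ∀ᶠ x in genF X, χ g * u (g • x) = u x := fun g => by
    have h1 := congrArg (RF.germ X) (hχ g)
    rw [map_smul, germ_pull hact g hau, hau] at h1
    exact Germ.coe_eq.1 h1
  have rel : ∀ (g : Γ) (x : X), g • x ∈ O → χ (γ x) * u (γ x • x) = χ g * u (g • x) := by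
    intro g x hx
    obtain ⟨U, hU, hUne, hU'⟩ := (eventually_genF X).1 ((gen (γ x)).and (gen g))
    exact FMorOn.eqOn ((opn (γ x)).inter (opn g)) ((mor (γ x)).mono Set.inter_subset_left)
      ((mor g).mono Set.inter_subset_right) hU hUne
      (fun y _ hy => (hU' y hy).1.trans (hU' y hy).2.symm) x ⟨by
        change γ x • x ∈ O
        rw [hγ]; exact hx₀, hx⟩
  have hm : FMor fun x => χ (γ x) * u (γ x • x) := by
    refine fmor_iff.2 (FMorOn.of_local fun y _ => ⟨_, opn (γ y), ?_, ?_⟩)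
    · change γ y • y ∈ O
      rw [hγ]; exact hx₀
    · exact ((mor (γ y)).mono Set.inter_subset_right).congr fun x hx => rel _ x hx.2
  refine ⟨χ (γ x₀) * u (γ x₀ • x₀), RF.germ_injective ?_⟩
  rw [hau, AlgHom.commutes, germ_algebraMap]
  refine Germ.coe_eq.2 ?_
  filter_upwards [gen 1, open_mem_genF X hO ⟨x₀, hx₀⟩] with x h1 h2
  rw [← h1, ← rel 1 x (by rwa [one_smul])]
  exact hconst _ hm x x₀

end Kol68
end

-- merged part: Pool.Agent.Work.MP_c53807_ag.GTU
section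
/-!
Vectors of polynomials without common zeros on the torus.
-/

open MvPolynomial

namespace Kol68

variable {K σ κ κ' : Type} [Field K] [Algebra ℂ K]

/-- No common zero on the torus. -/
def TU (F : σ → MvPolynomial κ K) : Prop :=
  ∃ α : κ →₀ ℕ, monomial α (1 : K) ∈ Ideal.span (Set.range F)

/-- Evaluation at a complex point. -/
noncomputable def evC (w : κ → ℂ) : MvPolynomial κ K →ₐ[K] K := aeval fun i => algebraMap ℂ K (w i)

/-- Evaluation of the second group of variables at a complex point. -/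
noncomputable def evR (w : κ' → ℂ) : MvPolynomial (κ ⊕ κ') K →ₐ[K] MvPolynomial κ K :=
  aeval (Sum.elim X fun i => C (algebraMap ℂ K (w i)))

/-- Evaluation of the first group of variables at a complex point. -/
noncomputable def evL (w : κ → ℂ) : MvPolynomial (κ ⊕ κ') K →ₐ[K] MvPolynomial κ' K :=
  aeval (Sum.elim (fun i => C (algebraMap ℂ K (w i))) X)

theorem evC_evR (w : κ → ℂ) (w' : κ' → ℂ) (p : MvPolynomial (κ ⊕ κ') K) :
    evC w (evR w' p) = evC (Sum.elim w w') p := by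
  have : (evC w).comp (evR w') = (evC (Sum.elim w w') : MvPolynomial (κ ⊕ κ') K →ₐ[K] K) := by
    ext i
    rcases i with i | i <;> simp [evC, evR]
  exact DFunLike.congr_fun this p

theorem evC_evL (w : κ → ℂ) (w' : κ' → ℂ) (p : MvPolynomial (κ ⊕ κ') K) :
    evC w' (evL w p) = evC (Sum.elim w w') p := by
  have : (evC w').comp (evL w) = (evC (Sum.elim w w') : MvPolynomial (κ ⊕ κ') K →ₐ[K] K) := by
    ext i
    rcases i with i | i <;> simp [evC, evL]
  exact DFunLike.congr_fun this p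

theorem evC_map (s : K →ₐ[ℂ] K) (w : κ → ℂ) (p : MvPolynomial κ K) :
    evC w (map (s : K →+* K) p) = s (evC w p) := by
  induction p using MvPolynomial.induction_on with
  | C a => simp [evC]
  | add p q hp hq => simp only [map_add, hp, hq]
  | mul_X p i hp =>
    simp only [map_mul, hp, map_X]
    simp [evC]

theorem evC_monomial (w : κ → ℂ) (α : κ →₀ ℕ) (c : K) :
    evC w (monomial α c) = (α.prod fun i k => w i ^ k) • c := by
  rw [evC, aeval_monomial, Algebra.smul_def, mul_comm, Finsupp.prod, Finsupp.prod, map_prod]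
  simp

theorem eq_zero_of_evC {p : MvPolynomial κ K} (h : ∀ w ∈ torus κ, evC w p = 0) : p = 0 := by
  have hinf : (algebraMap ℂ K '' {c : ℂ | c ≠ 0}).Infinite :=
    Set.Infinite.image (algebraMap ℂ K).injective.injOn
      (Set.Finite.infinite_compl (Set.finite_singleton (0 : ℂ)))
  refine funext_set (fun _ => algebraMap ℂ K '' {c : ℂ | c ≠ 0}) (fun _ => hinf) fun x hx => ?_
  choose w hw hw' using fun i => hx i (Set.mem_univ i)
  have e : x = fun i => algebraMap ℂ K (w i) := funext fun i => (hw' i).symm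
  have := h w hw
  rw [map_zero, e]
  exact this

theorem GTU_evC_monomial_ne {w : κ → ℂ} (hw : w ∈ torus κ) (α : κ →₀ ℕ) {c : K} (hc : c ≠ 0) :
    evC w (monomial α c) ≠ 0 := by
  rw [evC_monomial]
  exact smul_ne_zero (Finset.prod_ne_zero_iff.2 fun i _ => pow_ne_zero _ (hw i)) hc

theorem TU.ne_zero {F : σ → MvPolynomial κ K} (h : TU F) {w : κ → ℂ} (hw : w ∈ torus κ) :
    (fun i => evC w (F i)) ≠ 0 := by
  intro h0
  obtain ⟨α, hα⟩ := h
  have : Ideal.span (Set.range F) ≤ RingHom.ker (evC w : MvPolynomial κ K →ₐ[K] K) := by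
    rw [Ideal.span_le]
    rintro _ ⟨i, rfl⟩
    exact congrFun h0 i
  exact GTU_evC_monomial_ne hw α one_ne_zero (this hα)

/-- A nonzero scalar times a monomial. -/
def GTUMono (p : MvPolynomial κ K) : Prop := ∃ (β : κ →₀ ℕ) (c : K), c ≠ 0 ∧ p = monomial β c

theorem GTUMono.mul {p q : MvPolynomial κ K} (hp : GTUMono p) (hq : GTUMono q) :
    GTUMono (p * q) := by
  obtain ⟨β, c, hc, rfl⟩ := hp
  obtain ⟨β', c', hc', rfl⟩ := hq
  exact ⟨β + β', c * c', mul_ne_zero hc hc', monomial_mul⟩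

theorem GTUMono.one : GTUMono (1 : MvPolynomial κ K) := ⟨0, 1, one_ne_zero, rfl⟩

theorem GTUMono.pow {p : MvPolynomial κ K} (hp : GTUMono p) (n : ℕ) : GTUMono (p ^ n) := by
  induction n with
  | zero => simpa using GTUMono.one
  | succ n ih => rw [pow_succ]; exact ih.mul hp

theorem GTU_X (i : κ) : GTUMono (X i : MvPolynomial κ K) := ⟨Finsupp.single i 1, 1, one_ne_zero, rfl⟩

theorem GTU_C {c : K} (hc : c ≠ 0) : GTUMono (C c : MvPolynomial κ K) := ⟨0, c, hc, rfl⟩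

theorem GTU_hom {F : σ → MvPolynomial κ K} (h : TU F) (φ : MvPolynomial κ K →+* MvPolynomial κ' K)
    (hφ : ∀ i, GTUMono (φ (X i))) : TU fun i => φ (F i) := by
  obtain ⟨α, hα⟩ := h
  have h1 : GTUMono (φ (monomial α 1)) := by
    rw [monomial_eq, C_1, one_mul, Finsupp.prod, map_prod]
    refine Finset.prod_induction _ _ (fun _ _ => GTUMono.mul) GTUMono.one fun i _ => ?_
    rw [map_pow]
    exact (hφ i).pow _
  obtain ⟨β, c, hc, e⟩ := h1
  have h2 := Ideal.mem_map_of_mem φ hα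
  rw [Ideal.map_span, ← Set.range_comp, e] at h2
  refine ⟨β, ?_⟩
  have h3 : (monomial β (1 : K) : MvPolynomial κ' K) = C c⁻¹ * monomial β c := by
    rw [C_mul_monomial, inv_mul_cancel₀ hc]
  rw [h3]
  exact Ideal.mul_mem_left _ _ h2

/-- A polynomial lift of a family of vectors given up to scalars. -/
def IsLift (F : σ → MvPolynomial κ K) (v : (κ → ℂ) → σ → K) : Prop :=
  TU F ∧ ∀ w ∈ torus κ, ∃ c : K, c ≠ 0 ∧ ∀ i, evC w (F i) = c * v w i

theorem IsLift.congr {F : σ → MvPolynomial κ K} {v v' : (κ → ℂ) → σ → K} (h : IsLift F v)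
    (e : ∀ w ∈ torus κ, ∃ c : K, c ≠ 0 ∧ ∀ i, v w i = c * v' w i) : IsLift F v' := by
  refine ⟨h.1, fun w hw => ?_⟩
  obtain ⟨c, hc, h1⟩ := h.2 w hw
  obtain ⟨c', hc', h2⟩ := e w hw
  exact ⟨c * c', mul_ne_zero hc hc', fun i => by rw [h1, h2, mul_assoc]⟩

theorem GTU_elim_mem {w : κ → ℂ} {w' : κ' → ℂ} (hw : w ∈ torus κ) (hw' : w' ∈ torus κ') :
    Sum.elim w w' ∈ torus (κ ⊕ κ') := by
  rintro (i | i)
  · exact hw i
  · exact hw' i

theorem IsLift.evR {F : σ → MvPolynomial (κ ⊕ κ') K} {v : (κ ⊕ κ' → ℂ) → σ → K} (h : IsLift F v)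
    {w' : κ' → ℂ} (hw : w' ∈ torus κ') :
    IsLift (fun i => evR w' (F i)) fun w => v (Sum.elim w w') := by
  refine ⟨GTU_hom h.1 (Kol68.evR w' : MvPolynomial (κ ⊕ κ') K →ₐ[K] MvPolynomial κ K).toRingHom
    fun i => ?_, fun w hw0 => ?_⟩
  · rcases i with i | i
    · simpa [Kol68.evR] using GTU_X i
    · simpa [Kol68.evR] using GTU_C ((_root_.map_ne_zero (algebraMap ℂ K)).2 (hw i))
  · obtain ⟨c, hc, h1⟩ := h.2 _ (GTU_elim_mem hw0 hw)
    exact ⟨c, hc, fun i => by rw [evC_evR, h1]⟩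

theorem IsLift.evL {F : σ → MvPolynomial (κ ⊕ κ') K} {v : (κ ⊕ κ' → ℂ) → σ → K} (h : IsLift F v)
    {w : κ → ℂ} (hw : w ∈ torus κ) :
    IsLift (fun i => evL w (F i)) fun w' => v (Sum.elim w w') := by
  refine ⟨GTU_hom h.1 (Kol68.evL w : MvPolynomial (κ ⊕ κ') K →ₐ[K] MvPolynomial κ' K).toRingHom
    fun i => ?_, fun w' hw0 => ?_⟩
  · rcases i with i | i
    · simpa [Kol68.evL] using GTU_C ((_root_.map_ne_zero (algebraMap ℂ K)).2 (hw i))
    · simpa [Kol68.evL] using GTU_X i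
  · obtain ⟨c, hc, h1⟩ := h.2 _ (GTU_elim_mem hw hw0)
    exact ⟨c, hc, fun i => by rw [evC_evL, h1]⟩

theorem IsLift.map {F : σ → MvPolynomial κ K} {v : (κ → ℂ) → σ → K} (h : IsLift F v)
    (s : K →ₐ[ℂ] K) : IsLift (fun i => map (s : K →+* K) (F i)) fun w i => s (v w i) := by
  refine ⟨GTU_hom h.1 (MvPolynomial.map (s : K →+* K)) fun i => ?_, fun w hw => ?_⟩
  · rw [map_X]; exact GTU_X i
  · obtain ⟨c, hc, h1⟩ := h.2 w hw
    exact ⟨s c, (_root_.map_ne_zero s).2 hc, fun i => by rw [evC_map, h1, map_mul]⟩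

theorem IsLift.smul {F : σ → MvPolynomial κ K} {v : (κ → ℂ) → σ → K} (h : IsLift F v) {c : K}
    (hc : c ≠ 0) : IsLift (fun i => C c * F i) v := by
  obtain ⟨⟨α, hα⟩, h2⟩ := h
  refine ⟨⟨α, (Ideal.span_le.2 ?_ : Ideal.span (Set.range F) ≤ _) hα⟩, fun w hw => ?_⟩
  · rintro _ ⟨i, rfl⟩
    have e : F i = C c⁻¹ * (C c * F i) := by
      rw [← mul_assoc, ← C_mul, inv_mul_cancel₀ hc, C_1, one_mul]
    rw [e]
    exact Ideal.mul_mem_left _ _ (Ideal.subset_span ⟨i, rfl⟩)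
  · obtain ⟨c', hc', h1⟩ := h2 w hw
    refine ⟨c * c', mul_ne_zero hc hc', fun i => ?_⟩
    rw [map_mul, h1, mul_assoc]
    simp [evC]

/-- Uniqueness of lifts up to monomials. -/
theorem IsLift.unique [Finite σ] {F F' : σ → MvPolynomial κ K} {v : (κ → ℂ) → σ → K}
    (h : IsLift F v) (h' : IsLift F' v) : ∃ (c : K) (α β : κ →₀ ℕ), c ≠ 0 ∧
      ∀ i, monomial α 1 * F i = monomial β c * F' i := by
  classical
  have := Fintype.ofFinite σ
  have cross : ∀ i j, F i * F' j = F j * F' i := by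
    intro i j
    rw [← sub_eq_zero]
    refine eq_zero_of_evC fun w hw => ?_
    obtain ⟨c, -, h1⟩ := h.2 w hw
    obtain ⟨c', -, h2⟩ := h'.2 w hw
    simp only [map_sub, map_mul, h1, h2]
    ring
  obtain ⟨α, hα⟩ := h.1
  obtain ⟨α', hα'⟩ := h'.1
  obtain ⟨a, ha⟩ := Ideal.mem_span_range_iff_exists_fun.1 hα
  obtain ⟨a', ha'⟩ := Ideal.mem_span_range_iff_exists_fun.1 hα'
  have e1 : ∀ j, monomial α 1 * F' j = (∑ i, a i * F' i) * F j := by
    intro j
    rw [← ha, Finset.sum_mul, Finset.sum_mul]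
    exact Finset.sum_congr rfl fun i _ => by rw [mul_assoc, cross i j]; ring
  have e2 : ∀ j, monomial α' 1 * F j = (∑ i, a' i * F i) * F' j := by
    intro j
    rw [← ha', Finset.sum_mul, Finset.sum_mul]
    exact Finset.sum_congr rfl fun i _ => by rw [mul_assoc, mul_assoc, cross i j]; ring
  obtain ⟨j, hj⟩ : ∃ j, F j ≠ 0 := by
    by_contra hc
    push Not at hc
    simp only [hc, mul_zero, Finset.sum_const_zero] at ha
    exact one_ne_zero (monomial_eq_zero.1 ha.symm)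
  have e3 : (∑ i, a' i * F i) * (∑ i, a i * F' i) = monomial (α + α') 1 := by
    apply mul_right_cancel₀ hj
    rw [mul_assoc, ← e1, mul_left_comm, ← e2, ← mul_assoc, monomial_mul, one_mul]
  obtain ⟨β, c, -, hc, e4⟩ := dvd_monomial_one_iff_exists.1 ⟨_, e3.symm⟩
  exact ⟨c, α', β, hc.ne_zero, fun i => by rw [e2, e4]⟩

end Kol68
end

-- merged part: Pool.Agent.Work.MP_c53807_ag.GLift
section
/-!
Existence of lifts of regular families over a torus.
-/

open MvPolynomial Topology Filter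

namespace Kol68

namespace GLift

/-- Proportional vectors over a factorial ring are multiples of one vector. -/
theorem common {R σ ι : Type} [CommRing R] [IsDomain R] [UniqueFactorizationMonoid R] [Finite σ]
    (v : ι → σ → R) (hv : ∀ a b i j, v a i * v b j = v a j * v b i) {a₀ : ι} {i₀ : σ}
    (h0 : v a₀ i₀ ≠ 0) : ∃ (F : σ → R) (h : ι → R), ∀ a i, v a i = h a * F i := by
  classical
  obtain ⟨inst⟩ : Nonempty (NormalizedGCDMonoid R) := inferInstance
  have := Fintype.ofFinite σ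
  obtain ⟨F, h1, h2⟩ := Finset.extract_gcd (s := Finset.univ) (v a₀) ⟨i₀, Finset.mem_univ _⟩
  generalize Finset.univ.gcd (v a₀) = d at h1
  have e0 := h1 i₀ (Finset.mem_univ _)
  have hd : d ≠ 0 := fun e => h0 (by rw [e0, e, zero_mul])
  have hF : F i₀ ≠ 0 := fun e => h0 (by rw [e0, e, mul_zero])
  have key : ∀ a i, v a i * F i₀ = v a i₀ * F i := by
    intro a i
    have h3 := hv a a₀ i i₀
    rw [e0, h1 i (Finset.mem_univ _)] at h3
    apply mul_left_cancel₀ hd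
    linear_combination h3
  have dv : ∀ a, F i₀ ∣ v a i₀ := by
    intro a
    have h3 : F i₀ ∣ Finset.univ.gcd fun i => v a i₀ * F i :=
      Finset.dvd_gcd fun i _ => ⟨v a i, by rw [← key, mul_comm]⟩
    have h4 := h3.trans (Finset.gcd_mul_left' Finset.univ F (v a i₀)).dvd
    rwa [h2, mul_one] at h4
  choose h hh using dv
  refine ⟨F, h, fun a i => mul_right_cancel₀ hF ?_⟩
  rw [key, hh]
  ring

variable {X κ : Type} [TopologicalSpace X] [QP X] [IrreducibleSpace X]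

/-- Substitution of rational functions for the second group of variables. -/
noncomputable def th (κ : Type) {S : Type} (u : S → RF X) :
    MvPolynomial (κ ⊕ S) ℂ →ₐ[ℂ] MvPolynomial κ (RF X) :=
  aeval (Sum.elim MvPolynomial.X fun i => C (u i))

theorem germ_th {S : Type} {u : S → RF X} {n : X → S → ℂ}
    (hu : ∀ i, RF.germ X (u i) = (fun x => n x i : X → ℂ)) (w : κ → ℂ)
    (p : MvPolynomial (κ ⊕ S) ℂ) :
    RF.germ X (evC w (th κ u p)) = (fun x => eval (Sum.elim w (n x)) p : X → ℂ) := by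
  induction p using MvPolynomial.induction_on with
  | C a =>
    have e : th κ u (C a) = C (algebraMap ℂ (RF X) a) := by
      rw [th, aeval_C]; rfl
    rw [e, evC, aeval_C, Algebra.algebraMap_self, RingHom.id_apply, AlgHom.commutes,
      germ_algebraMap]
    simp only [eval_C]
  | add p q hp hq =>
    rw [map_add, map_add, map_add, hp, hq, ← Germ.coe_add]
    congr 1
    ext x
    simp only [Pi.add_apply, map_add]
  | mul_X p k hp =>
    have e : RF.germ X (evC w (th κ u (MvPolynomial.X k))) =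
        (fun x => Sum.elim w (n x) k : X → ℂ) := by
      rcases k with k | k
      · rw [th, aeval_X, Sum.elim_inl, evC, aeval_X, AlgHom.commutes, germ_algebraMap]
        rfl
      · rw [th, aeval_X, Sum.elim_inr, evC, aeval_C, Algebra.algebraMap_self, RingHom.id_apply,
          hu]
        rfl
    rw [map_mul, map_mul, map_mul, hp, e, ← Germ.coe_mul]
    congr 1
    ext x
    simp only [Pi.mul_apply, map_mul, eval_X]

theorem th_inr {S : Type} (u : S → RF X) (q : MvPolynomial S ℂ) :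
    th κ u (rename Sum.inr q) = C (aeval u q) := by
  induction q using MvPolynomial.induction_on with
  | C a =>
    rw [rename_C, th, aeval_C, aeval_C]; rfl
  | add p q hp hq => simp only [map_add, hp, hq]
  | mul_X p k hp =>
    rw [map_mul, map_mul, hp, rename_X, th, aeval_X, Sum.elim_inr, map_mul, map_mul, aeval_X]

end GLift

open GLift in
theorem exists_lift {X σ κ : Type} [TopologicalSpace X] [QP X] [IrreducibleSpace X] [Finite σ]
    [Finite κ] {Φ : (κ → ℂ) → X → PS σ} (h : Fam (torus κ) Φ) :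
    ∃ F : σ → MvPolynomial κ (RF X), TU F ∧
      ∀ w ∈ torus κ, IsRep (fun i => evC w (F i)) (Φ w) := by
  classical
  have := Fintype.ofFinite κ
  obtain ⟨x₀⟩ : Nonempty X := inferInstance
  obtain ⟨j, hj⟩ := Function.ne_iff.1 (rp_ne_zero x₀)
  obtain ⟨O, hOd⟩ : ∃ O : Set X, O = {x : X | eval (rp x) (MvPolynomial.X j) ≠ 0} := ⟨_, rfl⟩
  have hO : IsOpen O := hOd ▸ isOpen_form (isHomogeneous_X ℂ j)
  have hx₀ : x₀ ∈ O := by rw [hOd]; simpa using hj
  have hne : O.Nonempty := ⟨x₀, hx₀⟩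
  have hOj : ∀ x ∈ O, (rp x j)⁻¹ ≠ 0 := fun x hx => by rw [hOd] at hx; simpa using hx
  let n : X → QP.σ X → ℂ := fun x => (rp x j)⁻¹ • rp x
  have hn : ∀ i, FMorOn O fun x => n x i := fun i => by
    rw [hOd]
    refine (fmorOn_ratio (isHomogeneous_X ℂ i) (isHomogeneous_X ℂ j)).congr fun y _ => ?_
    simp only [n, eval_X, Pi.smul_apply, smul_eq_mul]
    ring
  let u : QP.σ X → RF X := fun i => RF.mk hO hne (hn i)
  have hu : ∀ i, RF.germ X (u i) = (fun x => n x i : X → ℂ) := fun i => rfl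
  obtain ⟨A, hA⟩ : ∃ A, A = aprod (torus κ) (cone (Set.univ : Set X)) := ⟨_, rfl⟩
  have hcone : ∀ x ∈ O, n x ∈ cone (Set.univ : Set X) := fun x hx =>
    smul_mem_cone (Set.mem_univ x) (hOj x hx)
  have hmem : ∀ w ∈ torus κ, ∀ x ∈ O, Sum.elim w (n x) ∈ A := fun w hw x hx =>
    hA ▸ elim_mem_aprod.2 ⟨hw, hcone x hx⟩
  have hreg : PReg A fun z => Φ (z ∘ Sum.inl) (taut X (z ∘ Sum.inr)) :=
    h _ A _ _ (amor_comp A Sum.inl) (fun z hz => (hA ▸ hz : z ∈ aprod _ _).1)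
      ((reg_taut Set.univ).comp (amor_comp A Sum.inr) fun z hz => (hA ▸ hz : z ∈ aprod _ _).2)
  obtain ⟨s, hs1, hs2⟩ := hreg.fg
  have van : ∀ p : MvPolynomial (κ ⊕ QP.σ X) ℂ, (∀ z ∈ A, eval z p = 0) → th κ u p = 0 := by
    intro p hp
    refine eq_zero_of_evC fun w hw => RF.germ_injective ?_
    rw [germ_th hu, map_zero]
    exact Germ.coe_eq.2 ⟨O, hO, hne, fun x hx => hp _ (hmem w hw x hx)⟩
  obtain ⟨q, hq0, hq⟩ := (alc_cone (Y := (Set.univ : Set X))
    isClosed_univ.isLocallyClosed).exists_bas (hcone x₀ hx₀)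
  have hk : aeval u q ≠ 0 := by
    intro e
    have h1 := germ_th (κ := κ) hu 1 (rename Sum.inr q)
    rw [th_inr, e, map_zero, map_zero, map_zero] at h1
    have h2 : FMorOn O fun x => eval (n x) q := fun ρ B φ hφ hm =>
      AMor.eval (Θ := fun y => n (φ y)) (fun i => hn i ρ B φ hφ hm) q
    obtain ⟨x, hx, hx'⟩ := ((Germ.coe_eq.1 h1).and
      (open_mem_genF X (h2.isOpen_ne hO) ⟨x₀, hx₀, hq0⟩)).exists
    refine hx'.2 ?_
    have hx2 : eval (Sum.elim 1 (n x)) (rename Sum.inr q) = 0 := hx.symm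
    rwa [eval_rename] at hx2
  let v : s → σ → MvPolynomial κ (RF X) := fun G i => th κ u (G.1 i)
  have hTU : TU fun p : s × σ => v p.1 p.2 := by
    let I : Ideal (MvPolynomial (κ ⊕ QP.σ X) ℂ) :=
      vanishingIdeal ℂ A ⊔ Ideal.span (Set.range fun p : s × σ => p.1.1 p.2)
    have h1 : (∏ k, MvPolynomial.X (Sum.inl k)) * rename Sum.inr q ∈ I.radical := by
      rw [← vanishingIdeal_zeroLocus_eq_radical (K := ℂ)]
      intro z hz
      by_contra hc
      rw [aeval_eq_eval, map_mul, map_prod, eval_rename] at hc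
      have a1 : z ∘ Sum.inl ∈ torus κ := fun k hk0 => left_ne_zero_of_mul hc
        (Finset.prod_eq_zero (Finset.mem_univ k) (by rw [eval_X]; exact hk0))
      have a2 : z ∘ Sum.inr ∈ cone (Set.univ : Set X) := by
        refine hq _ (fun p hp => ?_) (right_ne_zero_of_mul hc)
        have a3 : rename Sum.inr p ∈ vanishingIdeal ℂ A := fun y hy => by
          rw [aeval_eq_eval, eval_rename]
          exact hp _ (hA ▸ hy : y ∈ aprod _ _).2
        have a4 := hz _ (Ideal.mem_sup_left a3)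
        rwa [aeval_eq_eval, eval_rename] at a4
      obtain ⟨G, hG, hG'⟩ := hs2 z (hA ▸ ⟨a1, a2⟩)
      refine hG' (funext fun i => ?_)
      have a5 := hz _ (Ideal.mem_sup_right (Ideal.subset_span ⟨(⟨G, hG⟩, i), rfl⟩))
      rwa [aeval_eq_eval] at a5
    obtain ⟨m, hm⟩ := h1
    have h2 : I ≤ (Ideal.span (Set.range fun p : s × σ => v p.1 p.2)).comap (th κ u) := by
      refine sup_le (fun p hp => ?_) (Ideal.span_le.2 ?_)
      · rw [Ideal.mem_comap, van p fun z hz => by simpa [aeval_eq_eval] using hp z hz]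
        exact Ideal.zero_mem _
      · rintro _ ⟨p, rfl⟩
        exact Ideal.subset_span ⟨p, rfl⟩
    have h3 := Ideal.mul_mem_left _ (C ((aeval u q)⁻¹ ^ m)) (Ideal.mem_comap.1 (h2 hm))
    refine ⟨m • ∑ k, Finsupp.single k 1, ?_⟩
    convert h3 using 1
    have e1 : th κ u (∏ k, MvPolynomial.X (Sum.inl k)) =
        monomial (∑ k, Finsupp.single k 1) (1 : RF X) := by
      rw [map_prod, monomial_sum_one]
      exact Finset.prod_congr rfl fun k _ => by rw [th, aeval_X]; rfl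
    rw [map_pow (th κ u), map_mul, th_inr, e1, mul_pow, monomial_pow, one_pow, mul_left_comm,
      ← map_pow, ← map_mul, ← mul_pow, inv_mul_cancel₀ hk, one_pow, C_1, mul_one]
  have minor : ∀ a b i i', v a i * v b i' = v a i' * v b i := by
    intro a b i i'
    rw [← sub_eq_zero]
    simp only [v, ← map_mul, ← map_sub]
    refine van _ fun z hz => ?_
    obtain ⟨c, hc⟩ := hs1 _ a.2 z hz
    obtain ⟨c', hc'⟩ := hs1 _ b.2 z hz
    have e1 := congrFun hc i
    have e2 := congrFun hc i'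
    have e3 := congrFun hc' i
    have e4 := congrFun hc' i'
    simp only [evv_apply, Pi.smul_apply, smul_eq_mul] at e1 e2 e3 e4
    rw [map_sub, map_mul, map_mul, e1, e2, e3, e4]
    ring
  obtain ⟨p₀, hp₀⟩ := Function.ne_iff.1 (hTU.ne_zero one_mem_torus)
  obtain ⟨F, g, hF⟩ := common v minor (a₀ := p₀.1) (i₀ := p₀.2)
    (fun e => hp₀ (by simp only [e, map_zero]; rfl))
  have hTF : TU F := by
    obtain ⟨α, hα⟩ := hTU
    refine ⟨α, Ideal.span_le.2 ?_ hα⟩
    rintro _ ⟨p, rfl⟩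
    simp only [hF]
    exact Ideal.mul_mem_left _ _ (Ideal.subset_span ⟨p.2, rfl⟩)
  refine ⟨F, hTF, fun w hw => ⟨hTF.ne_zero hw, ?_⟩⟩
  obtain ⟨p, hp⟩ := Function.ne_iff.1 (hTU.ne_zero hw)
  have hg : evC w (g p.1) ≠ 0 := fun e => hp (by simp only [hF, map_mul, e, zero_mul]; rfl)
  obtain ⟨b, -, -, -, -, hb⟩ := RF.exists_rep₁ (evC w (g p.1))⁻¹
  have hc : ∀ x : X, ∃ c : ℂ, x ∈ O → evv (Sum.elim w (n x)) p.1.1 = c • (Φ w x).rep := by
    intro x
    by_cases hx : x ∈ O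
    · obtain ⟨c, hc⟩ := hs1 _ p.1.2 _ (hmem w hw x hx)
      have e1 : taut X (Sum.elim w (n x) ∘ Sum.inr) = x := taut_smul x (hOj x hx)
      rw [e1] at hc
      exact ⟨c, fun _ => hc⟩
    · exact ⟨0, fun hx' => absurd hx' hx⟩
  choose c hc using hc
  refine ⟨fun x => b x * c x, fun i => ?_⟩
  have e1 : evC w (F i) = (evC w (g p.1))⁻¹ * evC w (th κ u (p.1.1 i)) := by
    rw [show th κ u (p.1.1 i) = g p.1 * F i from hF p.1 i, map_mul, inv_mul_cancel_left₀ hg]
  show RF.germ X (evC w (F i)) = _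
  rw [e1, map_mul, hb, germ_th hu, ← Germ.coe_mul]
  refine Germ.coe_eq.2 ⟨O, hO, hne, fun x hx => ?_⟩
  have e2 := congrFun (hc x hx) i
  simp only [evv_apply, Pi.smul_apply, smul_eq_mul] at e2
  show b x * eval (Sum.elim w (n x)) (p.1.1 i) = b x * c x * (Φ w x).rep i
  rw [e2, mul_assoc]

end Kol68
end

-- merged part: Pool.Agent.Work.MP_c53807_ag.GOp
section
/-!
A finite-dimensional space of sections.
-/

open MvPolynomial

namespace Kol68

namespace GOp

variable {K Γ σ κ κ' : Type} [Field K] [Algebra ℂ K] [Group Γ]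

/-- The value of a monomial. -/
noncomputable def mon (α : κ →₀ ℕ) (w : κ → ℂ) : ℂ := α.prod fun i k => w i ^ k

theorem mon_ne (α : κ →₀ ℕ) {w : κ → ℂ} (hw : w ∈ torus κ) : mon α w ≠ 0 :=
  Finset.prod_ne_zero_iff.2 fun i _ => pow_ne_zero _ (hw i)

@[simp] theorem mon_one (α : κ →₀ ℕ) : mon α (1 : κ → ℂ) = 1 := by simp [mon, Finsupp.prod]

theorem mon_add (α β : κ →₀ ℕ) (w : κ → ℂ) : mon (α + β) w = mon α w * mon β w :=
  Finsupp.prod_add_index' (by simp) (fun _ _ _ => pow_add _ _ _)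

theorem eval_mon (α : κ →₀ ℕ) (w : κ → ℂ) (c : ℂ) : eval w (monomial α c) = c * mon α w :=
  eval_monomial

theorem evC_mon (α : κ →₀ ℕ) (w : κ → ℂ) (c : K) : evC w (monomial α c) = mon α w • c :=
  evC_monomial w α c

theorem evC_C (w : κ → ℂ) (c : K) : evC w (C c) = c := by simp [evC]

theorem one_mem : (1 : κ → ℂ) ∈ torus κ := fun _ => one_ne_zero

theorem elim_mem {w : κ → ℂ} {v : κ' → ℂ} (hw : w ∈ torus κ) (hv : v ∈ torus κ') :
    Sum.elim w v ∈ torus (κ ⊕ κ') := by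
  rintro (i | i)
  · exact hw i
  · exact hv i

theorem elim_one : Sum.elim (1 : κ → ℂ) (1 : κ' → ℂ) = 1 := by
  ext (i | i) <;> rfl

theorem normalise {F : σ → MvPolynomial κ K} {v : (κ → ℂ) → σ → K} (h : IsLift F v) :
    ∃ F' : σ → MvPolynomial κ K, IsLift F' v ∧ ∀ i, evC 1 (F' i) = v 1 i := by
  obtain ⟨c, hc, e⟩ := h.2 1 one_mem
  refine ⟨_, h.smul (inv_ne_zero hc), fun i => ?_⟩
  rw [map_mul, evC_C, e, inv_mul_cancel_left₀ hc]

theorem ev_of_eq {p q : MvPolynomial κ K} {α β : κ →₀ ℕ} {k : K}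
    (h : monomial α 1 * p = monomial β k * q) (w : κ → ℂ) :
    mon α w • evC w p = mon β w • (k * evC w q) := by
  have := congrArg (evC w) h
  simpa only [map_mul, evC_mon, smul_mul_assoc, one_mul] using this

theorem exists_ne {F : σ → MvPolynomial κ K} {v : (κ → ℂ) → σ → K} (h : IsLift F v)
    {w : κ → ℂ} (hw : w ∈ torus κ) : ∃ i, evC w (F i) ≠ 0 := by
  by_contra! hc
  exact h.1.ne_zero hw (funext hc)

theorem evR_eq (v : κ' → ℂ) (p : MvPolynomial (κ ⊕ κ') K) :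
    evR v p = map (evC v : MvPolynomial κ' K →ₐ[K] K).toRingHom (sumAlgEquiv K κ κ' p) := by
  induction p using MvPolynomial.induction_on with
  | C a => simp [evR, evC]
  | add p q hp hq => simp only [map_add, hp, hq]
  | mul_X p i hp =>
    rw [map_mul, map_mul, map_mul, hp]
    rcases i with i | i <;> simp [evR, evC]

/-- A point of the torus at which no coefficient vanishes unless it vanishes identically. -/
theorem generic (p : MvPolynomial (κ ⊕ κ') K) : ∃ v₀ ∈ torus κ', ∀ v : κ' → ℂ,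
    (evR v p).support ⊆ (evR v₀ p).support := by
  classical
  set q := sumAlgEquiv K κ κ' p with hq
  have h0 : ∏ m ∈ q.support, coeff m q ≠ 0 :=
    Finset.prod_ne_zero_iff.2 fun m hm => mem_support_iff.1 hm
  by_cases h : ∀ w ∈ torus κ', evC w (∏ m ∈ q.support, coeff m q) = 0
  · exact absurd (eq_zero_of_evC h) h0
  push Not at h
  obtain ⟨v₀, hv₀, h⟩ := h
  refine ⟨v₀, hv₀, fun v m hm => ?_⟩
  rw [mem_support_iff, evR_eq, coeff_map] at hm ⊢
  rw [map_prod, Finset.prod_ne_zero_iff] at h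
  refine h m (mem_support_iff.2 fun e => hm ?_)
  rw [← hq, e, map_zero]

omit [Algebra ℂ K] in
theorem shift_mem {p q : MvPolynomial κ K} {α β : κ →₀ ℕ} {a b : K} (hb : b ≠ 0)
    (h : monomial α a * p = monomial β b * q) {m : κ →₀ ℕ} (hm : m ∈ q.support) :
    ∃ n ∈ p.support, α + n = β + m := by
  classical
  have h1 : coeff (β + m) (monomial α a * p) ≠ 0 := by
    rw [h, coeff_monomial_mul]
    exact mul_ne_zero hb (mem_support_iff.1 hm)
  rw [coeff_monomial_mul'] at h1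
  split_ifs at h1 with hle
  · exact ⟨β + m - α, mem_support_iff.2 (right_ne_zero_of_mul h1), add_tsub_cancel_of_le hle⟩
  · exact absurd rfl h1

theorem shift_const {S : Finset (κ →₀ ℕ)} (hS : S.Nonempty) {a b : κ →₀ ℕ}
    (h : ∀ m ∈ S, ∃ m' ∈ S, a + m' = b + m) : a = b := by
  ext r
  obtain ⟨m, hm, hmax⟩ := S.exists_max_image (fun m => m r) hS
  obtain ⟨n, hn, hmin⟩ := S.exists_min_image (fun m => m r) hS
  obtain ⟨m', hm', e⟩ := h m hm
  obtain ⟨n', hn', e'⟩ := h n hn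
  have h1 := hmax m' hm'
  have h2 := hmin n' hn'
  have h3 := DFunLike.congr_fun e r
  have h4 := DFunLike.congr_fun e' r
  simp only [Finsupp.add_apply] at h3 h4
  omega

/-- The operators act on a normalised lift through the next lift, up to a monomial. -/
theorem claimB [Finite σ] {s : Γ → K →ₐ[ℂ] K} (s_mul : ∀ g h f, s (g * h) f = s h (s g f))
    {u : σ → K} {γ : (κ → ℂ) → Γ}
    {F₁ : σ → MvPolynomial κ K} {c : (κ → ℂ) → K}
    (hF₁ : IsLift F₁ fun w i => s (γ w) (u i)) (e₁ : ∀ i, evC 1 (F₁ i) = u i)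
    (hc : ∀ w ∈ torus κ, c w ≠ 0 ∧ ∀ i, evC w (F₁ i) = c w * s (γ w) (u i))
    {Ψ : (κ' → ℂ) → Γ} (hΨ : ∀ i, s (Ψ 1) (u i) = u i)
    {F : σ → MvPolynomial κ' K} (hF : IsLift F fun w i => s (Ψ w) (u i))
    (e : ∀ i, evC 1 (F i) = u i) {F' : σ → MvPolynomial (κ' ⊕ κ) K}
    (hF' : IsLift F' fun w i => s (Ψ (w ∘ Sum.inl) * γ (w ∘ Sum.inr)) (u i))
    (e' : ∀ i, evC 1 (F' i) = u i) :
    ∃ (α' β' : κ →₀ ℕ) (α₀ β₀ : κ' →₀ ℕ), ∀ v ∈ torus κ, ∀ w ∈ torus κ', ∀ i,
      (mon β₀ w * mon β' v) • (c v * s (γ v) (evC w (F i))) =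
        (mon α₀ w * mon α' v) • evC (Sum.elim w v) (F' i) := by
  have hL : IsLift (fun i => evL 1 (F' i)) fun v i => s (γ v) (u i) := by
    refine (hF'.evL one_mem).congr fun v _ => ⟨1, one_ne_zero, fun i => ?_⟩
    simp [s_mul, hΨ]
  obtain ⟨k', α', β', -, h'⟩ := hL.unique hF₁
  obtain ⟨i₀, hi₀⟩ := exists_ne hF₁ one_mem
  have hk' : k' = 1 := by
    have := ev_of_eq (h' i₀) 1
    rw [evC_evL, elim_one, e', e₁, mon_one, mon_one, one_smul, one_smul] at this
    rw [e₁] at hi₀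
    exact (mul_eq_right₀ hi₀).1 this.symm
  subst hk'
  have key : ∀ v ∈ torus κ, ∃ (k : K) (α β : κ' →₀ ℕ), k ≠ 0 ∧ ∀ i,
      monomial α 1 * evR v (F' i) =
        monomial β k * (C (c v) * map (s (γ v) : K →+* K) (F i)) := by
    intro v hv
    refine (hF'.evR hv).unique (((hF.map (s (γ v))).smul (hc v hv).1).congr
      fun w _ => ⟨1, one_ne_zero, fun i => ?_⟩)
    simp [s_mul]
  choose! k α β hk h using key
  obtain ⟨i₁, hi₁⟩ := exists_ne hF one_mem
  have hF0 : (F i₁).support.Nonempty := by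
    rw [support_nonempty]
    rintro h0
    simp [h0] at hi₁
  obtain ⟨v₀, hv₀, hgen⟩ := generic (F' i₁)
  have hsupp : ∀ v ∈ torus κ,
      (C (c v) * map (s (γ v) : K →+* K) (F i₁)).support = (F i₁).support := by
    intro v hv
    ext m
    simp [mem_support_iff, coeff_C_mul, coeff_map, (hc v hv).1]
  have hconst : ∀ v ∈ torus κ, α v + β v₀ = β v + α v₀ := by
    intro v hv
    refine shift_const hF0 fun m hm => ?_
    obtain ⟨n, hn, en⟩ := shift_mem (hk v hv) (h v hv i₁) (by rwa [hsupp v hv])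
    obtain ⟨m', hm', em⟩ := shift_mem one_ne_zero (h v₀ hv₀ i₁).symm (hgen v hn)
    refine ⟨m', by rwa [hsupp v₀ hv₀] at hm', ?_⟩
    rw [add_assoc, em, add_left_comm, en]
    abel
  refine ⟨α', β', α v₀, β v₀, fun v hv w hw i => ?_⟩
  have hkv : mon α' v • k v = algebraMap ℂ K (mon β' v) := by
    obtain ⟨j, hj⟩ := exists_ne hF₁ hv
    have h1 := ev_of_eq (h v hv j) 1
    have h2 := ev_of_eq (h' j) v
    rw [evC_evR, map_mul, evC_C, evC_map, e, ← (hc v hv).2, mon_one, mon_one, one_smul,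
      one_smul] at h1
    rw [evC_evL, h1, one_mul, ← smul_mul_assoc, Algebra.smul_def (mon β' v)] at h2
    exact mul_right_cancel₀ hj h2
  have h1 := ev_of_eq (h v hv i) w
  rw [evC_evR, map_mul, evC_C, evC_map] at h1
  have h2 : mon (α v) w * mon (β v₀) w = mon (β v) w * mon (α v₀) w := by
    rw [← mon_add, ← mon_add, hconst v hv]
  have h3 : algebraMap ℂ K (mon (α v) w) ≠ 0 := by simpa using mon_ne _ hw
  have h2' := congrArg (algebraMap ℂ K) h2
  simp only [Algebra.smul_def, map_mul] at h1 hkv h2' ⊢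
  refine mul_left_cancel₀ h3 ?_
  linear_combination (-(algebraMap ℂ K (mon (α v₀) w) * algebraMap ℂ K (mon α' v))) * h1
    - (algebraMap ℂ K (mon (α v₀) w) * algebraMap ℂ K (mon (β v) w) *
      (c v * s (γ v) (evC w (F i)))) * hkv
    + (algebraMap ℂ K (mon β' v) * (c v * s (γ v) (evC w (F i)))) * h2'

theorem claimB' {F : σ → K} {F' : σ → K} {a b : ℂ} (ha : a ≠ 0) (hb : b ≠ 0)
    (h : ∀ i, a • F i = b • F' i) : ∃ z : ℂ, z ≠ 0 ∧ ∀ i, F i = z • F' i :=
  ⟨a⁻¹ * b, mul_ne_zero (inv_ne_zero ha) hb, fun i => by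
    rw [mul_smul, ← h, inv_smul_smul₀ ha]⟩

theorem exists_poly (l : K →ₗ[ℂ] ℂ) (Q : MvPolynomial κ K) :
    ∃ P : MvPolynomial κ ℂ, ∀ v, eval v P = l (evC v Q) := by
  induction Q using MvPolynomial.induction_on' with
  | monomial m a => exact ⟨monomial m (l a), fun v => by
      rw [eval_mon, evC_mon, map_smul, smul_eq_mul, mul_comm]⟩
  | add p q hp hq =>
    obtain ⟨P, hP⟩ := hp
    obtain ⟨Q, hQ⟩ := hq
    exact ⟨P + Q, fun v => by simp only [map_add, hP, hQ]⟩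

theorem finite_span [Finite σ] (F : σ → MvPolynomial κ K) :
    Module.Finite ℂ (Submodule.span ℂ {x | ∃ w ∈ torus κ, ∃ i, x = evC w (F i)}) := by
  have hfin : (⋃ i, (fun m => coeff m (F i)) '' (F i).support).Finite :=
    Set.finite_iUnion fun i => (F i).support.finite_toSet.image _
  have := FiniteDimensional.span_of_finite ℂ hfin
  refine Submodule.finiteDimensional_of_le (S₂ := Submodule.span ℂ
    (⋃ i, (fun m => coeff m (F i)) '' (F i).support)) (Submodule.span_le.2 ?_)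
  rintro _ ⟨w, -, i, rfl⟩
  rw [(F i).as_sum, map_sum]
  refine Submodule.sum_mem _ fun m hm => ?_
  rw [evC_mon]
  exact Submodule.smul_mem _ _ (Submodule.subset_span (Set.mem_iUnion.2 ⟨i, m, hm, rfl⟩))

theorem exists_coord {N : ℕ} {b : Fin N → K} (hb : LinearIndependent ℂ b) :
    ∃ l : Fin N → K →ₗ[ℂ] ℂ, ∀ x ∈ Submodule.span ℂ (Set.range b), x = ∑ k, l k x • b k := by
  obtain ⟨g, hg⟩ := hb.repr.exists_extend
  refine ⟨fun k => (Finsupp.lapply k).comp g, fun x hx => ?_⟩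
  have h1 : g x = hb.repr ⟨x, hx⟩ := DFunLike.congr_fun hg ⟨x, hx⟩
  have h2 := hb.linearCombination_repr ⟨x, hx⟩
  rw [Finsupp.linearCombination_apply, Finsupp.sum_fintype _ _ (by simp)] at h2
  simpa [h1] using h2.symm

end GOp

open GOp in
theorem exists_operators {K Γ σ κ : Type} [Field K] [Algebra ℂ K] [Group Γ] [Finite σ] [Finite κ]
    (s : Γ → K →ₐ[ℂ] K) (s_mul : ∀ g h f, s (g * h) f = s h (s g f))
    (u : σ → K) (γ : (κ → ℂ) → Γ) (hγ₁ : s (γ 1) = AlgHom.id ℂ K)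
    (hγ : ∀ g, ∃ w ∈ torus κ, s (γ w) = s g)
    (h₁ : ∃ F : σ → MvPolynomial κ K, IsLift F fun w i => s (γ w) (u i))
    (h₂ : ∃ F : σ → MvPolynomial (κ ⊕ κ) K,
      IsLift F fun w i => s (γ (w ∘ Sum.inl) * γ (w ∘ Sum.inr)) (u i))
    (h₃ : ∃ F : σ → MvPolynomial ((κ ⊕ κ) ⊕ κ) K, IsLift F fun w i =>
      s (γ (w ∘ Sum.inl ∘ Sum.inl) * γ (w ∘ Sum.inl ∘ Sum.inr) * γ (w ∘ Sum.inr)) (u i))
    (hsemi : ∀ a b : K, a ≠ 0 → (∀ g, ∃ c : ℂ, s g a = c • b) → ∃ c : ℂ, a = algebraMap ℂ K c) :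
    ∃ (N : ℕ) (b : Fin N → K) (M : (κ → ℂ) → Matrix (Fin N) (Fin N) ℂ),
      LinearIndependent ℂ b ∧ (∀ i, u i ∈ Submodule.span ℂ (Set.range b)) ∧
      (∀ i j, FReg (torus κ) fun w => M w i j) ∧
      ∀ w ∈ torus κ, ∃ c : K, c ≠ 0 ∧ ∀ i, c * s (γ w) (b i) = ∑ j, M w i j • b j := by
  obtain ⟨F₁, hF₁, e₁⟩ := normalise h₁.choose_spec
  obtain ⟨F₂, hF₂, e₂⟩ := normalise h₂.choose_spec
  obtain ⟨F₃, hF₃, e₃⟩ := normalise h₃.choose_spec
  have o₁ : ∀ {A B : Type} (f : A → B), (1 : B → ℂ) ∘ f = 1 := fun _ => rfl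
  simp only [o₁, s_mul, hγ₁, AlgHom.id_apply] at e₁ e₂ e₃
  have hc := hF₁.2
  choose! c hc0 hc using hc
  have hc' : ∀ w ∈ torus κ, c w ≠ 0 ∧ ∀ i, evC w (F₁ i) = c w * s (γ w) (u i) :=
    fun w hw => ⟨hc0 w hw, hc w hw⟩
  obtain ⟨α', β', α₀, β₀, B₁⟩ := claimB s_mul hF₁ e₁ hc' (Ψ := γ) (by simp [hγ₁]) hF₁ e₁ hF₂ e₂
  obtain ⟨α'', β'', α₁, β₁, B₂⟩ := claimB s_mul hF₁ e₁ hc'
    (Ψ := fun w : κ ⊕ κ → ℂ => γ (w ∘ Sum.inl) * γ (w ∘ Sum.inr))
    (by simp [o₁, s_mul, hγ₁]) hF₂ e₂ hF₃ e₃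
  have C₁ := fun v hv w hw => claimB' (mul_ne_zero (mon_ne _ hw) (mon_ne _ hv))
    (mul_ne_zero (mon_ne _ hw) (mon_ne _ hv)) (B₁ v hv w hw)
  have C₂ := fun v hv w hw => claimB' (mul_ne_zero (mon_ne _ hw) (mon_ne _ hv))
    (mul_ne_zero (mon_ne _ hw) (mon_ne _ hv)) (B₂ v hv w hw)
  have hA : ∀ w ∈ torus κ, ∀ w' ∈ torus κ, ∃ w'' ∈ torus κ, ∃ a : ℂ, ∀ i,
      c w * s (γ w) (evC w' (F₁ i)) = a • evC w'' (F₁ i) := by
    intro w hw w' hw'
    obtain ⟨w'', hw'', e⟩ := hγ (γ w' * γ w)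
    set a := c w * s (γ w) (c w') / c w'' with ha
    have ha0 : a ≠ 0 :=
      div_ne_zero (mul_ne_zero (hc0 w hw) ((map_ne_zero _).2 (hc0 w' hw'))) (hc0 w'' hw'')
    have h1 : ∀ i, c w * s (γ w) (evC w' (F₁ i)) = a * evC w'' (F₁ i) := by
      intro i
      have := hc0 w'' hw''
      rw [(hc' w' hw').2, (hc' w'' hw'').2, e, s_mul, map_mul, ha]
      field_simp
    obtain ⟨k, α, β, -, hu⟩ := (hF₃.evL (elim_mem hw' hw)).unique ((hF₂.evL hw'').congr
      fun v _ => ⟨1, one_ne_zero, fun i => by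
        simp only [Sum.elim_comp_inl, Sum.elim_comp_inr, ← Function.comp_assoc, s_mul, e,
          one_mul]⟩)
    obtain ⟨a', ha'⟩ := hsemi a k ha0 fun g => by
      obtain ⟨v, hv, ev⟩ := hγ g
      obtain ⟨z₁, hz₁, q₁⟩ := C₁ w hw w' hw'
      obtain ⟨z₂, hz₂, q₂⟩ := C₂ v hv _ (elim_mem hw' hw)
      obtain ⟨z₃, hz₃, q₃⟩ := C₁ v hv w'' hw''
      obtain ⟨i, hi⟩ := exists_ne hF₂ (elim_mem hw'' hv)
      have r₁ := ev_of_eq (hu i) v
      rw [evC_evL, evC_evL] at r₁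
      have r₂ := congrArg (s (γ v)) ((q₁ i).symm.trans (h1 i))
      rw [map_smul, map_mul] at r₂
      refine ⟨z₁ * z₂ * mon β v * (z₃ * mon α v)⁻¹, ?_⟩
      rw [← ev]
      have n₃ : algebraMap ℂ K z₃ ≠ 0 := by simpa using hz₃
      have nα : algebraMap ℂ K (mon α v) ≠ 0 := by simpa using mon_ne α hv
      have q₂' := q₂ i
      have q₃' := q₃ i
      simp only [Algebra.smul_def, map_mul, map_inv₀] at r₁ r₂ q₂' q₃' ⊢
      field_simp
      refine mul_right_cancel₀ hi ?_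
      linear_combination (-(s (γ v) a * algebraMap ℂ K (mon α v))) * q₃'
        - (c v * algebraMap ℂ K (mon α v)) * r₂
        + (algebraMap ℂ K z₁ * algebraMap ℂ K (mon α v)) * q₂'
        + (algebraMap ℂ K z₁ * algebraMap ℂ K z₂) * r₁
    exact ⟨w'', hw'', a', fun i => by rw [h1, ha', Algebra.smul_def]⟩
  have := finite_span F₁
  obtain ⟨b, hb, hspan, hli⟩ := Submodule.exists_fun_fin_finrank_span_eq ℂ
    {x | ∃ w ∈ torus κ, ∃ i, x = evC w (F₁ i)}
  obtain ⟨l, hl⟩ := exists_coord hli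
  choose wb hwb ib hb using hb
  refine ⟨_, b, fun v j k => l k (c v * s (γ v) (b j)), hli, fun i => ?_, fun j k => ?_,
    fun w hw => ⟨c w, hc0 w hw, fun j => hl _ ?_⟩⟩
  · rw [hspan]
    exact Submodule.subset_span ⟨1, one_mem, i, (e₁ i).symm⟩
  · intro y₀ hy₀
    obtain ⟨P, hP⟩ := exists_poly (l k) (evL (wb j) (F₂ (ib j)))
    refine ⟨monomial α' (mon α₀ (wb j)) * P, monomial β' (mon β₀ (wb j)), ?_, fun y hy => ?_⟩
    · rw [eval_mon]
      exact mul_ne_zero (mon_ne _ (hwb j)) (mon_ne _ hy₀)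
    · have := congrArg (l k) (B₁ y hy _ (hwb j) (ib j))
      rw [map_smul, map_smul, ← hb j, smul_eq_mul, smul_eq_mul] at this
      rw [map_mul, eval_mon, eval_mon, hP, evC_evL]
      exact this
  · obtain ⟨w'', hw'', a, ha⟩ := hA w hw _ (hwb j)
    rw [hspan, hb j, ha]
    exact Submodule.smul_mem _ _ (Submodule.subset_span ⟨w'', hw'', _, rfl⟩)

end Kol68
end

-- merged part: Pool.Agent.Work.MP_c53807_ag.GOp2
section
/-!
The linear group acting on the space of sections.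
-/

open MvPolynomial

namespace Kol68

namespace GOp2

variable {K : Type} [Field K] [Algebra ℂ K] {N : ℕ}

/-- a complex matrix applied to a vector -/
def ap (A : Matrix (Fin N) (Fin N) ℂ) (v : Fin N → K) (i : Fin N) : K := ∑ j, A i j • v j

theorem ap_mul (A B : Matrix (Fin N) (Fin N) ℂ) (v : Fin N → K) :
    ap (A * B) v = ap A (ap B v) := by
  funext i
  simp only [ap, Matrix.mul_apply, Finset.sum_smul, Finset.smul_sum, mul_smul]
  exact Finset.sum_comm

theorem ap_one (v : Fin N → K) : ap 1 v = v := by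
  funext i
  simp [ap, Matrix.one_apply]

theorem ap_const (A : Matrix (Fin N) (Fin N) ℂ) (c : K) (v : Fin N → K) (i : Fin N) :
    ap A (fun j => c * v j) i = c * ap A v i := by
  simp [ap, Finset.mul_sum]

theorem ap_map (f : K →ₐ[ℂ] K) (A : Matrix (Fin N) (Fin N) ℂ) (v : Fin N → K) (i : Fin N) :
    f (ap A v i) = ap A (fun j => f (v j)) i := by
  simp [ap]

theorem ap_smul (z : ℂ) (A : Matrix (Fin N) (Fin N) ℂ) (v : Fin N → K) (i : Fin N) :
    ap (z • A) v i = algebraMap ℂ K z * ap A v i := by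
  simp only [ap, Matrix.smul_apply, smul_eq_mul, Algebra.smul_def, map_mul, Finset.mul_sum,
    mul_assoc]

theorem ap_inj {b : Fin N → K} (hb : LinearIndependent ℂ b) {A B : Matrix (Fin N) (Fin N) ℂ}
    (e : ∀ i, ap A b i = ap B b i) : A = B := by
  ext i j
  exact Fintype.linearIndependent_iffₛ.1 hb (A i) (B i) (e i) j

theorem det_ne {b : Fin N → K} (hb : LinearIndependent ℂ b) (f : K →ₐ[ℂ] K)
    {A : Matrix (Fin N) (Fin N) ℂ} {c : K} (hc : c ≠ 0) (e : ∀ i, c * f (b i) = ap A b i) :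
    A.det ≠ 0 := by
  intro h0
  obtain ⟨y, hy, hyA⟩ := Matrix.exists_vecMul_eq_zero_iff.2 h0
  have h1 : c * f (∑ i, y i • b i) = 0 := by
    rw [map_sum, Finset.mul_sum]
    simp only [map_smul, mul_smul_comm, e, ap, Finset.smul_sum, smul_smul]
    rw [Finset.sum_comm]
    refine Finset.sum_eq_zero fun j _ => ?_
    rw [← Finset.sum_smul]
    have : ∑ i, y i * A i j = 0 := congrFun hyA j
    rw [this, zero_smul]
  have h2 : ∑ i, y i • b i = 0 :=
    (map_eq_zero_iff f f.toRingHom.injective).1 ((mul_eq_zero.1 h1).resolve_left hc)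
  exact hy (funext (Fintype.linearIndependent_iff.1 hb y h2))

theorem scalar {b : Fin N → K} (hb : LinearIndependent ℂ b) {A B : Matrix (Fin N) (Fin N) ℂ}
    (hB : B.det ≠ 0) {a : K} (ha : a ≠ 0) (e : ∀ i, a * ap B b i = ap A b i) :
    ∃ z : ℂ, z ≠ 0 ∧ A = z • B := by
  rcases Nat.eq_zero_or_pos N with rfl | hN
  · exact ⟨1, one_ne_zero, Subsingleton.elim _ _⟩
  have h1 : ∀ i, a * b i = ap (B⁻¹ * A) b i := by
    intro i
    rw [ap_mul, ← funext e, ap_const, ← ap_mul, Matrix.nonsing_inv_mul _ (Ne.isUnit hB), ap_one]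
  have h2 : IsIntegral ℂ a := by
    refine isIntegral_of_smul_mem_submodule (Submodule.span ℂ (Set.range b)) ?_
      (Submodule.fg_span (Set.finite_range b)) a ?_
    · intro h0
      exact hb.ne_zero ⟨0, hN⟩ (Submodule.span_eq_bot.1 h0 _ ⟨_, rfl⟩)
    · intro x hx
      induction hx using Submodule.span_induction with
      | mem x hx =>
        obtain ⟨i, rfl⟩ := hx
        rw [smul_eq_mul, h1]
        exact Submodule.sum_mem _ fun j _ =>
          Submodule.smul_mem _ _ (Submodule.subset_span ⟨j, rfl⟩)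
      | zero => simp
      | add x y _ _ ih ih' => rw [smul_add]; exact Submodule.add_mem _ ih ih'
      | smul z x _ ih => rw [smul_comm]; exact Submodule.smul_mem _ _ ih
  obtain ⟨z, rfl⟩ := minpoly.mem_range_of_degree_eq_one ℂ a
    (IsAlgClosed.degree_eq_one_of_irreducible ℂ (minpoly.irreducible h2))
  refine ⟨z, fun h0 => ha (by simp [h0]), ap_inj hb fun i => ?_⟩
  rw [ap_smul]
  exact (e i).symm

end GOp2

open GOp2 in
theorem exists_group {K Γ κ : Type} [Field K] [Algebra ℂ K] [Group Γ] [Finite κ]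
    (s : Γ → K →ₐ[ℂ] K) (s_one : s 1 = AlgHom.id ℂ K) (s_mul : ∀ g h f, s (g * h) f = s h (s g f))
    (γ : (κ → ℂ) → Γ) (hγ : ∀ g, ∃ w ∈ torus κ, s (γ w) = s g) {N : ℕ} (b : Fin N → K)
    (M : (κ → ℂ) → Matrix (Fin N) (Fin N) ℂ) (hb : LinearIndependent ℂ b)
    (hM : ∀ i j, FReg (torus κ) fun w => M w i j)
    (h : ∀ w ∈ torus κ, ∃ c : K, c ≠ 0 ∧ ∀ i, c * s (γ w) (b i) = ∑ j, M w i j • b j) :
    ∃ L : Subgroup (ZGL N), Par (L : Set (ZGL N)) ∧
      (∀ A ∈ L, ∃ (g : Γ) (c : K), c ≠ 0 ∧ ∀ i, c * s g (b i) = ∑ j, A.mat i j • b j) ∧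
      ∀ g : Γ, ∃ A ∈ L, ∃ c : K, c ≠ 0 ∧ ∀ i, c * s g (b i) = ∑ j, A.mat i j • b j := by
  classical
  have sne : ∀ g {c : K}, c ≠ 0 → s g c ≠ 0 := fun g c hc =>
    (map_ne_zero_iff _ (s g).toRingHom.injective).2 hc
  let L : Subgroup (ZGL N) :=
    { carrier := {A | ∃ (g : Γ) (c : K), c ≠ 0 ∧ ∀ i, c * s g (b i) = ap A.mat b i}
      one_mem' := ⟨1, 1, one_ne_zero, fun i => by rw [ZGL.mat_one, ap_one, s_one]; simp⟩
      mul_mem' := by
        rintro A A' ⟨g, c, hc, e⟩ ⟨g', c', hc', e'⟩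
        refine ⟨g * g', c' * s g' c, mul_ne_zero hc' (sne g' hc), fun i => ?_⟩
        rw [ZGL.mat_mul, ap_mul, ← funext e', ap_const, ← ap_map, ← e, map_mul, s_mul, mul_assoc]
      inv_mem' := by
        rintro A ⟨g, c, hc, e⟩
        refine ⟨g⁻¹, (s g⁻¹ c)⁻¹, inv_ne_zero (sne _ hc), fun i => ?_⟩
        have e1 : (fun j => s g⁻¹ c * b j) = ap A.mat fun j => s g⁻¹ (b j) := by
          funext j
          rw [← ap_map, ← e, map_mul, ← s_mul, mul_inv_cancel, s_one]; rfl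
        have e2 := ap_const A⁻¹.mat (s g⁻¹ c) b i
        rw [e1, ← ap_mul, ← ZGL.mat_mul, inv_mul_cancel, ZGL.mat_one, ap_one] at e2
        rw [e2, inv_mul_cancel_left₀ (sne _ hc)] }
  have hdet : ∀ w ∈ torus κ, (M w).det ≠ 0 := by
    intro w hw
    obtain ⟨c, hc, e⟩ := h w hw
    exact det_ne hb _ hc e
  let φ : (Option κ → ℂ) → ZGL N := fun z =>
    if hz : (z none • M (z ∘ some)).det ≠ 0 then ZGL.mk _ hz else 1
  have hφ : ∀ z ∈ torus (Option κ), (φ z).mat = z none • M (z ∘ some) := by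
    intro z hz
    have : (z none • M (z ∘ some)).det ≠ 0 := by
      rw [Matrix.det_smul]
      exact mul_ne_zero (pow_ne_zero _ (hz none)) (hdet _ fun i => hz (some i))
    simp only [φ, dif_pos this, ZGL.mat_mk]
  refine ⟨L, ⟨Option κ, inferInstance, torus (Option κ), φ, alc_torus, airr_torus, ?_, ?_⟩,
    fun A hA => hA, fun g => ?_⟩
  · refine reg_zgl_iff.2 fun i j => ?_
    refine ((freg_coord (torus (Option κ)) none).mul ((hM i j).comp (amor_comp _ some)
      fun z hz i => hz (some i))).congr fun z hz => ?_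
    rw [hφ z hz]; rfl
  · ext A
    constructor
    · rintro ⟨g, c, hc, e⟩
      obtain ⟨w, hw, ew⟩ := hγ g
      obtain ⟨c', hc', e'⟩ := h w hw
      obtain ⟨z, hz, ez⟩ := scalar hb (A := A.mat) (hdet w hw) (div_ne_zero hc hc') fun i => by
        rw [← e, ← ew]
        have : ap (M w) b i = c' * s (γ w) (b i) := (e' i).symm
        rw [this]; field_simp
      have hm : (fun o : Option κ => o.elim z w) ∈ torus (Option κ) := by
        rintro (_ | i)
        exacts [hz, hw i]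
      exact ⟨_, hm, ZGL.ext (by rw [hφ _ hm, ez]; rfl)⟩
    · rintro ⟨z, hz, rfl⟩
      obtain ⟨c, hc, e⟩ := h (z ∘ some) fun i => hz (some i)
      refine ⟨γ (z ∘ some), algebraMap ℂ K (z none) * c,
        mul_ne_zero ((map_ne_zero _).2 (hz none)) hc, fun i => ?_⟩
      rw [hφ z hz, ap_smul, mul_assoc, e]; rfl
  · obtain ⟨w, hw, ew⟩ := hγ g
    obtain ⟨c, hc, e⟩ := h w hw
    exact ⟨ZGL.mk _ (hdet w hw), ⟨γ w, c, hc, e⟩, c, hc, ew ▸ e⟩

end Kol68
end

-- merged part: Pool.Agent.Work.MP_c53807_ag.GEmb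
section
/-!
Linearisation.
-/

open MvPolynomial Topology Filter
open scoped Matrix

namespace Kol68

namespace GEmb

section Proj

variable {σ : Type} {N : ℕ}

/-- The linear forms given by the rows of a matrix. -/
noncomputable def lin (B : Matrix σ (Fin N) ℂ) (i : σ) : MvPolynomial (Fin N) ℂ :=
  ∑ j, C (B i j) * X j

theorem lin_hom (B : Matrix σ (Fin N) ℂ) (i : σ) : (lin B i).IsHomogeneous 1 :=
  IsHomogeneous.sum _ _ _ fun j _ => (isHomogeneous_X ℂ j).C_mul _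

theorem evv_lin (B : Matrix σ (Fin N) ℂ) (w : Fin N → ℂ) : evv w (lin B) = B *ᵥ w := by
  funext i
  simp [lin, Matrix.mulVec, dotProduct]

/-- The domain of the linear projection given by a matrix. -/
def dom (B : Matrix σ (Fin N) ℂ) : Set (PS (Fin N)) := {y | B *ᵥ y.rep ≠ 0}

theorem isOpen_dom (B : Matrix σ (Fin N) ℂ) : IsOpen (dom B) := by
  have e : dom B = ⋃ i, {y : PS (Fin N) | eval (rp y) (lin B i) ≠ 0} := by
    ext y
    rw [Set.mem_iUnion]
    change B *ᵥ y.rep ≠ 0 ↔ ∃ i, evv y.rep (lin B) i ≠ 0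
    rw [evv_lin]
    exact Function.ne_iff
  rw [e]
  exact isOpen_iUnion fun i => isOpen_form (V := PS (Fin N)) (lin_hom B i)

open Classical in
/-- The linear projection given by a matrix. -/
noncomputable def pr (B : Matrix σ (Fin N) ℂ) (z : PS σ) (y : PS (Fin N)) : PS σ :=
  if h : B *ᵥ y.rep ≠ 0 then Projectivization.mk ℂ _ h else z

theorem pr_eq (B : Matrix σ (Fin N) ℂ) (z : PS σ) {y : PS (Fin N)} (h : B *ᵥ y.rep ≠ 0) :
    pr B z y = Projectivization.mk ℂ _ h := dif_pos h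

theorem morOn_pr [Finite σ] (B : Matrix σ (Fin N) ℂ) (z : PS σ) : MorOn (dom B) (pr B z) := by
  refine morOn_of_forms fun x hx => ⟨1, lin B, lin_hom B, ?_, fun y hy => ?_⟩
  · change evv x.rep (lin B) ≠ 0
    rw [evv_lin]
    exact hx
  · obtain ⟨c, hc, e⟩ := mk_rep_eq _ hy
    refine ⟨c⁻¹, ?_⟩
    change evv y.rep (lin B) = c⁻¹ • (pr B z y).rep
    rw [evv_lin, pr_eq B z hy, e, smul_smul, inv_mul_cancel₀ hc, one_smul]

end Proj

variable {Γ X : Type} [Group Γ] [TopologicalSpace X] [QP X] [IrreducibleSpace X] [MulAction Γ X]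

omit [IrreducibleSpace X] in
theorem fam_mul {κ₁ κ₂ κ : Type} {δ₁ : (κ₁ → ℂ) → Γ} {δ₂ : (κ₂ → ℂ) → Γ}
    (h₁ : Fam (torus κ₁) fun w (x : X) => δ₁ w • x) (h₂ : Fam (torus κ₂) fun w (x : X) => δ₂ w • x)
    (e₁ : κ₁ → κ) (e₂ : κ₂ → κ) :
    Fam (torus κ) fun w (x : X) => (δ₁ (w ∘ e₁) * δ₂ (w ∘ e₂)) • x := by
  intro ρ A β ψ hβ hm hψ
  simp only [mul_smul]
  exact h₁ ρ A _ _ (hβ.precomp e₁) (fun _ hy _ => hm hy _)
    (h₂ ρ A _ _ (hβ.precomp e₂) (fun _ hy _ => hm hy _) hψ)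

theorem lift (hact : ∀ g : Γ, Mor fun x : X => g • x) {κ : Type} [Finite κ]
    {u : QP.σ X → RF X} (hu : IsRep u QP.ι) {δ : (κ → ℂ) → Γ}
    (h : Fam (torus κ) fun w (x : X) => δ w • x) :
    ∃ F : QP.σ X → MvPolynomial κ (RF X), IsLift F fun w i => pull hact (δ w) (u i) := by
  have h' : Fam (torus κ) fun w (x : X) => (QP.ι (δ w • x) : PS (QP.σ X)) :=
    fun ρ A β ψ h1 h2 h3 => h ρ A β ψ h1 h2 h3
  obtain ⟨F, hF, hF'⟩ := exists_lift h'
  exact ⟨F, hF, fun w hw => (hF' w hw).unique (hu.pull hact (δ w))⟩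

theorem germ_comb {N : ℕ} {b : Fin N → RF X} {bt : X → Fin N → ℂ}
    (hb : ∀ i, RF.germ X (b i) = (fun x => bt x i : X → ℂ)) (a : Fin N → ℂ) :
    RF.germ X (∑ j, a j • b j) = (fun x => ∑ j, a j * bt x j : X → ℂ) := by
  have e : (fun x => ∑ j, a j * bt x j : X → ℂ) = ∑ j, a j • (fun x => bt x j : X → ℂ) := by
    funext x
    simp only [Finset.sum_apply, Pi.smul_apply, smul_eq_mul]
  rw [e, ← germHom_apply, map_sum, map_sum]
  exact Finset.sum_congr rfl fun j _ => by rw [map_smul, map_smul, hb, germHom_apply]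

/-- The rational map given by a family of rational functions whose span contains the
coordinates. -/
theorem exists_rational (hact : ∀ g : Γ, Mor fun x : X => g • x) {u : QP.σ X → RF X}
    (hu : IsRep u QP.ι) {N : ℕ} {b : Fin N → RF X}
    (hb : ∀ i, u i ∈ Submodule.span ℂ (Set.range b)) :
    ∃ (O : Set X) (e₀ : X → PS (Fin N)) (B : Matrix (QP.σ X) (Fin N) ℂ), IsOpen O ∧ O.Nonempty ∧
      MorOn O e₀ ∧ (∀ x ∈ O, ∃ c : ℂ, c ≠ 0 ∧ B *ᵥ (e₀ x).rep = c • rp x) ∧
      ∀ (g : Γ) (A : ZGL N) (c : RF X), c ≠ 0 →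
        (∀ i, c * pull hact g (b i) = ∑ j, A.mat i j • b j) →
        ∀ᶠ x in genF X, e₀ (g • x) = act A.gl (e₀ x) := by
  classical
  obtain ⟨bt, O₀, hO₀, hne₀, hbt⟩ := RF.exists_rep b
  choose B hB using fun i => (Submodule.mem_span_range_iff_exists_fun ℂ).1 (hb i)
  obtain ⟨h0, c, hc⟩ := hu
  obtain ⟨i₀, hi₀⟩ := Function.ne_iff.1 h0
  have h1 : ∀ᶠ x in genF X, ∀ i, ∑ j, B i j * bt x j = c x * rp x i := by
    refine eventually_all.2 fun i => Germ.coe_eq.1 ?_
    rw [← germ_comb (fun j => (hbt j).2), hB]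
    exact hc i
  have h2 : ∀ᶠ x in genF X, c x * rp x i₀ ≠ 0 := RF.eventually_ne hi₀ (hc i₀)
  obtain ⟨O, hO, ⟨x₀, hx₀⟩, hO'⟩ := (eventually_genF X).1
    ((h1.and h2).and (open_mem_genF X hO₀ hne₀))
  have k1 : ∀ x ∈ O, Matrix.of B *ᵥ bt x = c x • rp x := fun x hx =>
    funext fun i => (hO' x hx).1.1 i
  have k2 : ∀ x ∈ O, c x ≠ 0 := fun x hx => left_ne_zero_of_mul (hO' x hx).1.2
  have k3 : ∀ x ∈ O, bt x ≠ 0 := fun x hx e => by
    have := k1 x hx
    rw [e, Matrix.mulVec_zero] at this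
    exact smul_ne_zero (k2 x hx) (rp_ne_zero x) this.symm
  obtain ⟨e₀, he₀⟩ : ∃ e₀ : X → PS (Fin N), ∀ x (hx : x ∈ O),
      e₀ x = Projectivization.mk ℂ (bt x) (k3 x hx) :=
    ⟨fun x => if h : x ∈ O then Projectivization.mk ℂ (bt x) (k3 x h)
      else Projectivization.mk ℂ (bt x₀) (k3 x₀ hx₀), fun x hx => dif_pos hx⟩
  refine ⟨O, e₀, Matrix.of B, hO, ⟨x₀, hx₀⟩,
    morOn_mk (fun i => (hbt i).1.mono fun x hx => (hO' x hx).2) k3 he₀, fun x hx => ?_,
    fun g A d hd h => ?_⟩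
  · obtain ⟨t, ht, e⟩ := mk_rep_eq _ (k3 x hx)
    refine ⟨t * c x, mul_ne_zero ht (k2 x hx), ?_⟩
    rw [he₀ x hx, e, Matrix.mulVec_smul, k1 x hx, smul_smul]
  · obtain ⟨dt, -, -, -, -, hdt⟩ := RF.exists_rep₁ d
    have h3 : ∀ᶠ x in genF X, ∀ i, dt x * bt (g • x) i = ∑ j, A.mat i j * bt x j := by
      refine eventually_all.2 fun i => Germ.coe_eq.1 ?_
      rw [← germ_comb (fun j => (hbt j).2), ← h i, map_mul, hdt, germ_pull hact g (hbt i).2,
        ← Germ.coe_mul]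
      rfl
    have hm := open_mem_genF X hO ⟨x₀, hx₀⟩
    filter_upwards [h3, hm, (tendsto_smul_genF hact g).eventually hm] with x a1 a2 a3
    rw [he₀ _ a2, he₀ _ a3, act_mk, eq_comm, Projectivization.mk_eq_mk_iff']
    exact ⟨dt x, funext a1⟩

variable [MulAction.IsPretransitive Γ X]

/-- An equivariant morphism with a generic linear inverse is an embedding. -/
theorem exists_inverse (hact : ∀ g : Γ, Mor fun x : X => g • x) {N : ℕ} {e : X → PS (Fin N)}
    (he : Mor e) {O : Set X} (hO : IsOpen O) (hne : O.Nonempty) {B : Matrix (QP.σ X) (Fin N) ℂ}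
    (hB : ∀ x ∈ O, ∃ c : ℂ, c ≠ 0 ∧ B *ᵥ (e x).rep = c • rp x)
    (hg : ∀ g : Γ, ∃ A : ZGL N, ∀ x, e (g • x) = act A.gl (e x)) :
    ∃ ψ : PS (Fin N) → X, MorOn (Set.range e) ψ ∧ ∀ x, ψ (e x) = x := by
  obtain ⟨x₀, hx₀⟩ := hne
  have : Nonempty X := ⟨x₀⟩
  have k1 : ∀ x ∈ O, e x ∈ dom B := fun x hx => by
    obtain ⟨c, hc, h⟩ := hB x hx
    change B *ᵥ (e x).rep ≠ 0
    rw [h]
    exact smul_ne_zero hc (rp_ne_zero x)
  have key : ∀ x, e x ∈ dom B → pr B (QP.ι x₀) (e x) = QP.ι x := by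
    refine MorOn.eqOn (Y := e ⁻¹' dom B) ((isOpen_dom B).preimage he.continuous)
      ((morOn_pr B _).comp (he.morOn _) fun _ hy => hy) (mor_ι.morOn _) hO ⟨x₀, hx₀⟩
      fun y hy hy' => ?_
    obtain ⟨c, -, h⟩ := hB y hy'
    rw [pr_eq B _ hy]
    exact (eq_mk_of_smul _ h).symm
  have inj : Function.Injective e := by
    intro x x' h
    obtain ⟨g, hgx⟩ := MulAction.exists_smul_eq Γ x x₀
    obtain ⟨A, hA⟩ := hg g
    have h1 : e (g • x') = e (g • x) := by rw [hA, hA, h]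
    have h2 : e (g • x) ∈ dom B := k1 _ (hgx ▸ hx₀)
    have h3 := key (g • x') (h1 ▸ h2)
    rw [h1, key _ h2] at h3
    exact MulAction.injective g (QP.emb.injective h3)
  have hψ : ∀ x, Function.invFun e (e x) = x := Function.leftInverse_invFun inj
  refine ⟨Function.invFun e, MorOn.of_local ?_, hψ⟩
  rintro _ ⟨x, rfl⟩
  obtain ⟨g, hgx⟩ := MulAction.exists_smul_eq Γ x x₀
  obtain ⟨A, hA⟩ := hg g
  have hm : Mor fun y : PS (Fin N) => act A.gl y := mor₂_act.right A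
  refine ⟨_, (isOpen_dom B).preimage hm.continuous, ?_, ?_⟩
  · change act A.gl (e x) ∈ dom B
    rw [← hA, hgx]
    exact k1 _ hx₀
  · have h1 : MorOn (Set.range e ∩ (fun y : PS (Fin N) => act A.gl y) ⁻¹' dom B)
        fun y => (QP.ι (g • Function.invFun e y) : PS (QP.σ X)) := by
      refine ((morOn_pr B (QP.ι x₀)).comp (hm.morOn _) fun _ hy => hy.2).congr ?_
      rintro _ ⟨⟨z, rfl⟩, hz⟩
      have hz' : act A.gl (e z) ∈ dom B := hz
      rw [← hA] at hz'
      rw [hψ, ← hA, key _ hz']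
    have h2 : MorOn (Set.range e ∩ (fun y : PS (Fin N) => act A.gl y) ⁻¹' dom B)
        fun y => g • Function.invFun e y := fun ρ C φ hφ hφ' => h1 ρ C φ hφ hφ'
    exact (((hact g⁻¹).morOn Set.univ).comp h2 (Set.mapsTo_univ _ _)).congr fun y _ =>
      (inv_smul_smul g _).symm

end GEmb

open GEmb in
theorem exists_linearisation {Γ X : Type} [Group Γ] [TopologicalSpace X] [QP X]
    [IrreducibleSpace X] [MulAction Γ X] [MulAction.IsPretransitive Γ X]
    (hact : ∀ g : Γ, Mor fun x : X => g • x) (hT : TAct X (Set.univ : Set Γ))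
    (hconst : ∀ f : X → ℂ, FMor f → ∀ x y, f x = f y) :
    ∃ (N : ℕ) (L : Subgroup (ZGL N)) (e : X → PS (Fin N)) (ψ : PS (Fin N) → X),
      IsClosed (L : Set (ZGL N)) ∧ IsIrreducible (L : Set (ZGL N)) ∧ Mor e ∧
      MorOn (Set.range e) ψ ∧ (∀ x, ψ (e x) = x) ∧
      (∀ A ∈ L, ∃ g : Γ, ∀ x, e (g • x) = act A.gl (e x)) ∧
      ∀ g : Γ, ∃ A ∈ L, ∀ x, e (g • x) = act A.gl (e x) := by
  obtain ⟨κ, hκ, γ, -, hγ1, hγ2, hF⟩ := hT
  obtain ⟨u, hu⟩ := exists_isRep_ι X
  have hγ₁ : pull hact (γ 1) = AlgHom.id ℂ (RF X) := by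
    rw [← pull_one hact]
    exact pull_congr hact fun x => by rw [hγ1, one_smul]
  have hγ : ∀ g, ∃ w ∈ torus κ, pull hact (γ w) = pull hact g := fun g => by
    obtain ⟨w, hw, h⟩ := hγ2 g (Set.mem_univ g)
    exact ⟨w, hw, pull_congr hact h⟩
  have hF₂ := fam_mul hF hF (Sum.inl : κ → κ ⊕ κ) Sum.inr
  have hF₃ := fam_mul hF₂ hF (Sum.inl : κ ⊕ κ → (κ ⊕ κ) ⊕ κ) Sum.inr
  obtain ⟨N, b, M, hb, hub, hM, hrel⟩ := exists_operators (pull hact) (pull_mul hact) u γ hγ₁ hγ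
    (lift hact hu hF) (lift hact hu hF₂) (lift hact hu hF₃) (const_of_semi hact hconst)
  obtain ⟨L, hL, hL₁, hL₂⟩ := exists_group (pull hact) (pull_one hact) (pull_mul hact) γ hγ b M
    hb hM hrel
  obtain ⟨O, e₀, B, hO, hne, he₀, hB, heq⟩ := exists_rational hact hu hub
  have hm : ∀ A : ZGL N, Mor fun y : PS (Fin N) => act A.gl y := fun A => mor₂_act.right A
  obtain ⟨e, he, hee, hext⟩ := exists_ext hact hO hne he₀ fun g => by
    obtain ⟨A, -, c, hc, h⟩ := hL₂ g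
    refine ⟨⟨act A.gl, act A⁻¹.gl, fun y => ?_, fun y => ?_⟩, hm A, hm A⁻¹, heq g A c hc h⟩
    · rw [← act_mul, ZGL.gl_inv, inv_mul_cancel, act_one]
    · rw [← act_mul, ZGL.gl_inv, mul_inv_cancel, act_one]
  have h₂ : ∀ g : Γ, ∃ A ∈ L, ∀ x, e (g • x) = act A.gl (e x) := fun g => by
    obtain ⟨A, hA, c, hc, h⟩ := hL₂ g
    exact ⟨A, hA, hext g _ (hm A) (heq g A c hc h)⟩
  obtain ⟨ψ, hψ, hψ'⟩ := exists_inverse hact he hO hne (B := B)
    (fun x hx => by rw [hee x hx]; exact hB x hx) fun g => (h₂ g).imp fun _ h => h.2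
  refine ⟨N, L, e, ψ, isClosed_of_par hL, hL.isIrreducible, he, hψ, hψ', fun A hA => ?_, h₂⟩
  obtain ⟨g, c, hc, h⟩ := hL₁ A hA
  exact ⟨g, hext g _ (hm A) (heq g A c hc h)⟩

end Kol68
end

-- merged part: Pool.Agent.Work.MP_c53807_ag.GEpi
section
/-!
Epimorphicity from constancy of regular functions on the orbit.
-/

open scoped Matrix LinearAlgebra.Projectivization
open MvPolynomial

namespace Kol68

open ConstBAux in
/-- An invariant regular function is constant on the group. -/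
theorem GEpi.const_of_inv {N : ℕ} (G : Subgroup (GL (Fin N) ℂ))
    (hG : GLClosed (G : Set (GL (Fin N) ℂ))) (hirr : (vanI (G : Set (GL (Fin N) ℂ))).IsPrime)
    (x₀ : ℙ ℂ (Fin N → ℂ))
    (h : ∀ Ψ : ℙ ℂ (Fin N → ℂ) → ℂ, (∀ x ∈ orbit G x₀, ∃ (e : ℕ) (a b : MvPolynomial (Fin N) ℂ),
      a.IsHomogeneous e ∧ b.IsHomogeneous e ∧ eval x.rep b ≠ 0 ∧
        ∀ y ∈ orbit G x₀, eval y.rep b * Ψ y = eval y.rep a) → ∀ x ∈ orbit G x₀, Ψ x = Ψ x₀)
    (ψ : NatFun N) (hψ : ∀ g ∈ G, ∀ x ∈ stabG G x₀.rep, ψ.f ℂ (g * x) = ψ.f ℂ g) :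
    ∀ g ∈ G, ψ.f ℂ g = ψ.f ℂ 1 := by
  classical
  obtain ⟨s, hs, hs'⟩ := (Submodule.fg_span_iff_fg_span_finset_subset _).1 (fg_translates ψ G)
  obtain ⟨e, b, hb, ⟨g0, hg0, hb0⟩, hden⟩ := common_den hirr x₀.rep s fun φ hφ => by
    obtain ⟨y, hy, rfl⟩ := hs hφ
    obtain ⟨e, a, b, ha, hb, h1, h2⟩ := rational_of_invariant G hG hirr x₀.rep x₀.rep_nonzero
      (lt ψ y) (lt_inv hψ hy)
    exact ⟨e, b, hb, h1, a, ha, h2⟩
  have hall : ∀ y ∈ G, (fun g => ψ.f ℂ (y * g)) ∈ Den G x₀.rep e b := fun y hy =>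
    (Submodule.span_le.2 fun φ hφ => hden φ hφ :
      Submodule.span ℂ (s : Set (GL (Fin N) ℂ → ℂ)) ≤ Den G x₀.rep e b)
      (hs' ▸ Submodule.subset_span ⟨y, hy, rfl⟩)
  let Ψ : ℙ ℂ (Fin N → ℂ) → ℂ := fun x =>
    if h : x ∈ orbit G x₀ then ψ.f ℂ h.choose else 0
  have hΨ : ∀ g ∈ G, Ψ (act g x₀) = ψ.f ℂ g := by
    intro g hg
    have h : act g x₀ ∈ orbit G x₀ := ⟨g, hg, rfl⟩
    obtain ⟨h1, h2⟩ := h.choose_spec
    have h3 := hψ _ h1 (h.choose⁻¹ * g) ⟨G.mul_mem (G.inv_mem h1) hg,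
      (act_eq_iff _ _).1 ((act_eq_act_iff _ _ _).1 h2)⟩
    rw [mul_inv_cancel_left] at h3
    rw [h3]
    exact dif_pos h
  have hrep : ∀ g : GL (Fin N) ℂ, ∃ c : ℂ, c ≠ 0 ∧ (act g x₀).rep = c • ((g : Mt N) *ᵥ x₀.rep) :=
    fun g => exists_rep _ _
  have hc := h Ψ fun x hx => by
    obtain ⟨g, hg, rfl⟩ := hx
    have hy : g0 * g⁻¹ ∈ G := G.mul_mem hg0 (G.inv_mem hg)
    obtain ⟨a, ha, h1⟩ := hall _ (G.inv_mem hy)
    obtain ⟨a', ha', h2⟩ := exists_translate ((g0 * g⁻¹ : GL (Fin N) ℂ) : Mt N) ha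
    obtain ⟨b', hb', h3⟩ := exists_translate ((g0 * g⁻¹ : GL (Fin N) ℂ) : Mt N) hb
    refine ⟨e, a', b', ha', hb', ?_, fun z hz => ?_⟩
    · obtain ⟨c, hc, h4⟩ := hrep g
      rw [h4, eval_smul hb', h3, Matrix.mulVec_mulVec, ← Units.val_mul, inv_mul_cancel_right]
      exact mul_ne_zero (pow_ne_zero _ hc) hb0
    · obtain ⟨g', hg', rfl⟩ := hz
      obtain ⟨c, -, h4⟩ := hrep g'
      have h5 := h1 _ (G.mul_mem hy hg')
      simp only [inv_mul_cancel_left] at h5
      rw [hΨ g' hg', h4, eval_smul hb', eval_smul ha', h2, h3, Matrix.mulVec_mulVec,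
        ← Units.val_mul, ← h5]
      ring
  intro g hg
  rw [← hΨ g hg, ← hΨ 1 G.one_mem, hc _ ⟨g, hg, rfl⟩, act_one]

open ConstC in
theorem epi_of_const {N : ℕ} (G : Subgroup (GL (Fin N) ℂ))
    (hG : GLClosed (G : Set (GL (Fin N) ℂ))) (hirr : (vanI (G : Set (GL (Fin N) ℂ))).IsPrime)
    (x₀ : ℙ ℂ (Fin N → ℂ))
    (h : ∀ Ψ : ℙ ℂ (Fin N → ℂ) → ℂ, (∀ x ∈ orbit G x₀, ∃ (e : ℕ) (a b : MvPolynomial (Fin N) ℂ),
      a.IsHomogeneous e ∧ b.IsHomogeneous e ∧ eval x.rep b ≠ 0 ∧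
        ∀ y ∈ orbit G x₀, eval y.rep b * Ψ y = eval y.rep a) → ∀ x ∈ orbit G x₀, Ψ x = Ψ x₀) :
    Epi G x₀.rep := by
  classical
  intro φ hφ
  have hfin := finite_tr G x₀.rep φ hφ
  let T := hfin.toFinset
  have hT : ∀ f, f ∈ T ↔ ∃ z, tr G x₀.rep φ z = f := fun f => hfin.mem_toFinset
  let z : (G → ℂ) → GL (Fin N) ℂ := fun f =>
    if h : ∃ y, tr G x₀.rep φ y = f then (h.choose : GL (Fin N) ℂ) else 1
  have hz : ∀ f ∈ T, ∀ g : G, φ.f ℂ (g * z f) = f g := fun f hf g => by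
    have h := (hT f).1 hf
    have h1 : z f = (h.choose : GL (Fin N) ℂ) := dif_pos h
    rw [h1]
    exact congrFun h.choose_spec g
  have hval : ∀ (c : ℂ) (g : G), (prodFun φ T z c).f ℂ g = ∏ f ∈ T, (c - f g) := fun c g =>
    Finset.prod_congr rfl fun f hf => by rw [gmap_self, hz f hf]; rfl
  have hmap : ∀ (x : stabG G x₀.rep), ∀ f ∈ T,
      (fun g : G => f (g * ⟨x, stabG_le G _ x.2⟩)) ∈ T := fun x f hf => by
    obtain ⟨y, rfl⟩ := (hT f).1 hf
    refine (hT _).2 ⟨x * y, ?_⟩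
    funext g
    simp only [tr, Subgroup.coe_mul, mul_assoc]
  have hinv : ∀ c : ℂ, ∀ g ∈ G, ∀ x ∈ stabG G x₀.rep,
      (prodFun φ T z c).f ℂ (g * x) = (prodFun φ T z c).f ℂ g := fun c g hg x hx => by
    have e1 := hval c (⟨g, hg⟩ * ⟨x, stabG_le G _ hx⟩)
    have e2 := hval c ⟨g, hg⟩
    refine e1.trans (Eq.trans ?_ e2.symm)
    refine Finset.prod_nbij' (fun f g => f (g * ⟨x, stabG_le G _ hx⟩))
      (fun f g => f (g * ⟨x⁻¹, stabG_le G _ ((stabG G _).inv_mem hx)⟩))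
      (fun f hf => hmap ⟨x, hx⟩ f hf) (fun f hf => hmap ⟨x⁻¹, (stabG G _).inv_mem hx⟩ f hf)
      (fun f _ => ?_) (fun f _ => ?_) (fun f _ => rfl)
    · funext g; exact congrArg f (Subtype.ext (by simp))
    · funext g; exact congrArg f (Subtype.ext (by simp))
  refine const_of_finite G hirr φ T (fun f => f 1) fun g hg => ?_
  have h1 := GEpi.const_of_inv G hG hirr x₀ h _ (hinv (φ.f ℂ g)) g hg
  have e1 := hval (φ.f ℂ g) ⟨g, hg⟩
  have e2 := hval (φ.f ℂ g) 1
  refine e2.symm.trans (h1.symm.trans (e1.trans ?_))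
  refine Finset.prod_eq_zero ((hT _).2 ⟨1, rfl⟩) ?_
  simp [tr]

end Kol68
end

-- merged part: Pool.Agent.Work.MP_c53807_ag.GElim
section
/-!
Comparison with the definitions of the statement; images of the projective line are closed.
-/

open scoped LinearAlgebra.Projectivization Matrix
open MvPolynomial Topology

namespace Kol68

variable {L M N : ℕ}

namespace ElimAux

variable {τ σ : Type}

theorem eval_comp_eq [Fintype τ] [DecidableEq τ] (d : ℕ) (P : MvPolynomial τ ℂ) (w : τ → ℂ) :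
    eval w (homogeneousComponent d P) =
      ∑ m ∈ Finset.finsuppAntidiag (Finset.univ : Finset τ) d, coeff m P * ∏ i, w i ^ m i := by
  rw [homogeneousComponent_apply, map_sum]
  refine (Finset.sum_subset (fun m hm => ?_) fun m hm hm' => ?_).trans
    (Finset.sum_congr rfl fun m _ => ?_)
  · rw [Finset.mem_filter, Finsupp.degree_eq_sum] at hm
    exact Finset.mem_finsuppAntidiag.2 ⟨hm.2, Finset.subset_univ _⟩
  · have h1 : coeff m P = 0 := by
      by_contra h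
      refine hm' (Finset.mem_filter.2 ⟨mem_support_iff.2 h, ?_⟩)
      rw [Finsupp.degree_eq_sum]
      exact (Finset.mem_finsuppAntidiag.1 hm).1
    rw [h1, map_zero, map_zero]
  · rw [eval_monomial, Finsupp.prod_fintype _ _ fun i => pow_zero _]

/-- The minors of a vector of polynomials against a variable vector. -/
noncomputable def minor (F : σ → MvPolynomial τ ℂ) (i j : σ) :
    (σ → ℂ) →ₗ[ℂ] MvPolynomial τ ℂ where
  toFun w := w j • F i - w i • F j
  map_add' w w' := by simp only [Pi.add_apply, add_smul]; abel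
  map_smul' c w := by simp only [Pi.smul_apply, smul_eq_mul, mul_smul, RingHom.id_apply, smul_sub]

theorem eval_minor (F : σ → MvPolynomial τ ℂ) (i j : σ) (w : σ → ℂ) (x : τ → ℂ) :
    eval x (minor F i j w) = w j * eval x (F i) - w i * eval x (F j) := by
  simp [minor, smul_eval]

theorem isClosed_range_ps [Finite τ] [Finite σ] {φ : PS τ → PS σ} (h : Mor φ) :
    IsClosed (Set.range φ) := by
  classical
  have := Fintype.ofFinite τ
  have := Fintype.ofFinite σ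
  refine isClosed_ps_iff.2 ⟨{q | ∀ x, ∀ c : ℂ, eval (c • (φ x).rep) q = 0}, fun y =>
    ⟨by rintro ⟨x, rfl⟩ q hq c; exact hq x c, fun hy => by_contra fun hn => ?_⟩⟩
  let J : Ideal (MvPolynomial τ ℂ) :=
    { carrier := {b | ∃ T : (σ → ℂ) →ₗ[ℂ] MvPolynomial τ ℂ,
        (∀ (x : PS τ) (c : ℂ), eval (c • x.rep) (T (φ x).rep) = 0) ∧ T y.rep = b}
      add_mem' := by
        rintro b b' ⟨T, hT, rfl⟩ ⟨T', hT', rfl⟩
        exact ⟨T + T', fun x c => by rw [LinearMap.add_apply, map_add, hT, hT', add_zero], rfl⟩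
      zero_mem' := ⟨0, by simp, rfl⟩
      smul_mem' := by
        rintro r b ⟨T, hT, rfl⟩
        exact ⟨r • T, fun x c => by
          rw [LinearMap.smul_apply, smul_eq_mul, map_mul, hT, mul_zero], rfl⟩ }
  have hJ : idealOfVars τ ℂ ≤ J.radical := by
    rw [← vanishingIdeal_zeroLocus_eq_radical (K := ℂ), Ideal.span_le]
    rintro _ ⟨i, rfl⟩
    refine mem_vanishingIdeal_iff.2 fun w hw => ?_
    by_contra hwi
    have hw0 : w ≠ 0 := fun e => hwi (by simp [e])
    obtain ⟨c, hc, hrep⟩ := mk_rep_eq w hw0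
    obtain ⟨e, F, hF, h1, h2⟩ := (mor_iff.1 h).exists_forms
      (Set.mem_univ (Projectivization.mk ℂ w hw0))
    have h3 : ∀ i j, eval w (minor F i j y.rep) = 0 := fun i j =>
      hw _ ⟨minor F i j, fun x c' => by
        obtain ⟨c'', hc''⟩ := h2 x (Set.mem_univ _)
        have e1 : ∀ k, eval x.rep (F k) = c'' * (φ x).rep k := fun k => congrFun hc'' k
        rw [eval_minor, eval_smul_hom (hF i), eval_smul_hom (hF j), e1, e1]
        ring, rfl⟩
    obtain ⟨c'', hc''⟩ := h2 _ (Set.mem_univ (Projectivization.mk ℂ w hw0))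
    set x := Projectivization.mk ℂ w hw0 with hx
    have e0 : ∀ k, eval x.rep (F k) = c ^ e * eval w (F k) := fun k => by
      rw [hrep, eval_smul_hom (hF k)]
    have e1 : ∀ k, eval x.rep (F k) = c'' * (φ x).rep k := fun k => congrFun hc'' k
    have hc0 : c'' ≠ 0 := fun h0 => h1 (funext fun k => by
      have := e1 k
      rw [h0, zero_mul] at this
      exact this)
    obtain ⟨j, hj⟩ := Function.ne_iff.1 y.rep_nonzero
    have hj' : y.rep j ≠ 0 := hj
    refine hn ⟨x, eq_of_rep_smul (c := (φ x).rep j / y.rep j) (funext fun k => ?_)⟩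
    have h4 := congrArg (c ^ e * ·) (h3 k j)
    simp only [eval_minor, mul_zero] at h4
    have h5 : c'' * (y.rep j * (φ x).rep k - y.rep k * (φ x).rep j) = 0 := by
      have a1 := (e0 k).symm.trans (e1 k)
      have a2 := (e0 j).symm.trans (e1 j)
      linear_combination h4 - y.rep j * a1 + y.rep k * a2
    have h6 := (mul_eq_zero.1 h5).resolve_left hc0
    rw [Pi.smul_apply, smul_eq_mul]
    field_simp
    linear_combination h6
  obtain ⟨d, hd⟩ := Ideal.exists_pow_le_of_le_radical_of_fg hJ (idealOfVars_fg _ _)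
  let s := Finset.finsuppAntidiag (Finset.univ : Finset τ) d
  have hm : ∀ m : s, monomial m.1 (1 : ℂ) ∈ J := fun m => hd <|
    (monomial_mem_pow_idealOfVars_iff d m.1 one_ne_zero).2 (by
      rw [Finsupp.degree_eq_sum]; exact (Finset.mem_finsuppAntidiag.1 m.2).1.ge)
  choose T hT hTy using hm
  let H : Matrix s s (MvPolynomial σ ℂ) := fun m m' =>
    ∑ j, C (coeff m'.1 (T m (Pi.single j 1))) * X j
  have hH : ∀ w : σ → ℂ, eval w H.det =
      Matrix.det (Matrix.of fun m m' : s => coeff m'.1 (T m w)) := by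
    intro w
    rw [RingHom.map_det]
    congr 1
    ext m m'
    simp only [H, RingHom.mapMatrix_apply, Matrix.map_apply, map_sum, map_mul, eval_C, eval_X,
      Matrix.of_apply]
    conv_rhs => rw [pi_eq_sum_univ' w, map_sum, coeff_sum]
    refine Finset.sum_congr rfl fun j _ => ?_
    rw [map_smul, coeff_smul, smul_eq_mul, mul_comm]
  have h1 := hy H.det (fun x c => by
    rw [hH]
    refine Matrix.exists_mulVec_eq_zero_iff.1 ⟨fun m => ∏ i, x.rep i ^ m.1 i, fun h0 => ?_, ?_⟩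
    · obtain ⟨i, hi⟩ := Function.ne_iff.1 x.rep_nonzero
      have hmem : Finsupp.single i d ∈ s := Finset.mem_finsuppAntidiag.2
        ⟨by simp [Finsupp.single_apply], Finset.subset_univ _⟩
      have h2 := congrFun h0 ⟨_, hmem⟩
      simp only [Pi.zero_apply, Finset.prod_eq_zero_iff] at h2
      obtain ⟨k, -, hk⟩ := h2
      by_cases hik : i = k
      · subst hik
        exact hi (eq_zero_of_pow_eq_zero hk)
      · simp [hik] at hk
    · funext m
      have h2 := eval_homogeneousComponent (T m (c • (φ x).rep)) d x.rep 0 fun c' _ => by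
        rw [map_smul, smul_eval, hT, mul_zero, mul_zero]
      rw [eval_comp_eq, ← Finset.sum_coe_sort] at h2
      exact h2) 1
  rw [one_smul, hH] at h1
  have h2 : (Matrix.of fun m m' : s => coeff m'.1 (T m y.rep)) = 1 := by
    ext m m'
    rw [Matrix.of_apply, hTy, coeff_monomial, Matrix.one_apply]
    simp only [Subtype.ext_iff]
  rw [h2, Matrix.det_one] at h1
  exact one_ne_zero h1

theorem eval_bihom {κ κ' : Type} {F : MvPolynomial (κ ⊕ κ') ℂ} {d : ℕ × ℕ}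
    (hF : F.IsWeightedHomogeneous
      (Sum.elim (fun _ => ((1, 0) : ℕ × ℕ)) (fun _ => ((0, 1) : ℕ × ℕ))) d)
    (c c' : ℂ) (x : κ → ℂ) (y : κ' → ℂ) :
    eval (Sum.elim (c • x) (c' • y)) F = c ^ d.1 * c' ^ d.2 * eval (Sum.elim x y) F := by
  simp only [eval_eq, Finset.mul_sum]
  refine Finset.sum_congr rfl fun m hm => ?_
  have h1 := hF (mem_support_iff.1 hm)
  have h2 : ∀ (t : Finset (κ ⊕ κ')),
      ∏ i ∈ t, Sum.elim (c • x) (c' • y) i ^ m i =
        c ^ (∑ i ∈ t, m i • Sum.elim (fun _ => ((1, 0) : ℕ × ℕ))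
          (fun _ => ((0, 1) : ℕ × ℕ)) i).1 *
        c' ^ (∑ i ∈ t, m i • Sum.elim (fun _ => ((1, 0) : ℕ × ℕ))
          (fun _ => ((0, 1) : ℕ × ℕ)) i).2 * ∏ i ∈ t, Sum.elim x y i ^ m i := by
    intro t
    rw [Prod.fst_sum, Prod.snd_sum, ← Finset.prod_pow_eq_pow_sum, ← Finset.prod_pow_eq_pow_sum,
      ← Finset.prod_mul_distrib, ← Finset.prod_mul_distrib]
    refine Finset.prod_congr rfl ?_
    rintro (i | i) -
    · simp [mul_pow]
    · simp [mul_pow]
  rw [h2, ← h1, Finsupp.weight_apply, Finsupp.sum]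
  ring

end ElimAux

open ElimAux

theorem isClosed_range_line {σ : Type} [Finite σ] {φ : PS (Fin 2) → PS σ} (h : Mor φ) :
    IsClosed (Set.range φ) := isClosed_range_ps h

theorem morOn_iff_regularOn {A : Set (PS (Fin M))} {φ : PS (Fin M) → PS (Fin N)} :
    MorOn A φ ↔ RegularOn A φ := by
  constructor
  · intro h x hx
    obtain ⟨e, F, hF, h1, h2⟩ := h.exists_forms hx
    refine ⟨e, F, hF, h1, fun y hy h3 => ?_⟩
    obtain ⟨c, hc⟩ := h2 y hy
    exact eq_mk_of_smul h3 hc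
  · intro h
    refine morOn_of_forms fun x hx => ?_
    obtain ⟨e, F, hF, h1, h2⟩ := h x hx
    refine ⟨e, F, hF, h1, fun y hy => ?_⟩
    by_cases h3 : (fun i => eval y.rep (F i)) = 0
    · exact ⟨0, h3.trans (zero_smul _ _).symm⟩
    · obtain ⟨c, hc, h4⟩ := mk_rep_eq _ h3
      refine ⟨c⁻¹, ?_⟩
      have h5 : rp (φ y) = c • fun i => eval y.rep (F i) := by
        rw [← h4, ← h2 y hy h3]; rfl
      rw [h5, smul_smul, inv_mul_cancel₀ hc, one_smul]
      rfl

theorem RegularOn₂.preg {A : Set (PS (Fin L))} {B : Set (PS (Fin M))}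
    {φ : PS (Fin L) → PS (Fin M) → PS (Fin N)} (h : RegularOn₂ A B φ) {ρ : Type}
    {C : Set (ρ → ℂ)} {a : (ρ → ℂ) → PS (Fin L)} {b : (ρ → ℂ) → PS (Fin M)} (ha : PReg C a)
    (hb : PReg C b) (ha' : Set.MapsTo a C A) (hb' : Set.MapsTo b C B) :
    PReg C fun y => φ (a y) (b y) := by
  intro y₀ hy₀
  obtain ⟨Fa, ha0, ha1⟩ := ha y₀ hy₀
  obtain ⟨Fb, hb0, hb1⟩ := hb y₀ hy₀
  obtain ⟨d, F, hF, h1, h2⟩ := h _ (ha' hy₀) _ (hb' hy₀)
  have key : ∀ y (c c' : ℂ), evv y Fa = c • (a y).rep → evv y Fb = c' • (b y).rep →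
      evv y (fun i => aeval (Sum.elim Fa Fb) (F i)) =
        (c ^ d.1 * c' ^ d.2) • fun i => eval (Sum.elim (a y).rep (b y).rep) (F i) := by
    intro y c c' e1 e2
    funext i
    rw [Pi.smul_apply, smul_eq_mul, ← eval_bihom (hF i), ← e1, ← e2, evv_apply]
    change aeval y _ = aeval _ (F i)
    rw [← AlgHom.comp_apply, comp_aeval]
    congr 2
    funext k
    rcases k with k | k <;> rfl
  refine ⟨fun i => aeval (Sum.elim Fa Fb) (F i), ?_, fun y hy => ?_⟩
  · obtain ⟨c, hc⟩ := ha1 y₀ hy₀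
    obtain ⟨c', hc'⟩ := hb1 y₀ hy₀
    have c0 : c ≠ 0 := fun e => ha0 (by rw [hc, e, zero_smul])
    have c0' : c' ≠ 0 := fun e => hb0 (by rw [hc', e, zero_smul])
    rw [key y₀ c c' hc hc']
    exact smul_ne_zero (mul_ne_zero (pow_ne_zero _ c0) (pow_ne_zero _ c0')) h1
  · obtain ⟨c, hc⟩ := ha1 y hy
    obtain ⟨c', hc'⟩ := hb1 y hy
    rw [key y c c' hc hc']
    by_cases h3 : (fun i => eval (Sum.elim (a y).rep (b y).rep) (F i)) = 0
    · exact ⟨0, by rw [h3, smul_zero, zero_smul]⟩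
    · obtain ⟨c'', hc'', h4⟩ := mk_rep_eq _ h3
      refine ⟨c ^ d.1 * c' ^ d.2 * c''⁻¹, ?_⟩
      beta_reduce
      rw [h2 _ (ha' hy) _ (hb' hy) h3, h4, smul_smul, mul_assoc _ _ c'', inv_mul_cancel₀ hc'',
        mul_one]

theorem PLocClosed.isLocallyClosed {X : Set (PS (Fin N))} (h : PLocClosed X) :
    IsLocallyClosed X := by
  obtain ⟨A, B, hA, hB, rfl⟩ := h
  exact ⟨Bᶜ, A, (isClosed_iff_pClosed.2 hB).isOpen_compl, isClosed_iff_pClosed.2 hA,
    by rw [Set.sdiff_eq, Set.inter_comm]⟩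

theorem subvariety_iff {Z : Set (PS (Fin N))} : Subvariety Z ↔ IsClosed Z ∧ IsIrreducible Z := by
  rw [Subvariety, IsIrreducible, isPreirreducible_iff_isClosed_union_isClosed]
  simp only [isClosed_iff_pClosed]

end Kol68
end

-- merged part: Pool.Agent.Work.MP_c53807_ag.GM4
section
/-!
The curve in the abstract setting.
-/

open MvPolynomial Topology MulAction
open scoped Pointwise LinearAlgebra.Projectivization

namespace Kol68

variable {G X : Type} [Group G] [TopologicalSpace G] [AG G] [TopologicalSpace X] [QP X]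
  [MulAction G X]

theorem exists_linear [IrreducibleSpace G] [IrreducibleSpace X] [IsPretransitive G X]
    [SimplyConnectedSpace (Euc X)] (hact : Mor₂ fun (g : G) (x : X) => g • x) {x₀ : X} {Z : Set X}
    (hZc : IsClosed (QP.ι '' Z)) (hZi : IsIrreducible Z) (hnd : Nondeg G x₀ Z)
    (hX : ∀ f : X → ℂ, FMor f → ∀ x y, f x = f y) :
    ∃ (N : ℕ) (L : Subgroup (ZGL N)) (e : X → PS (Fin N)) (ψ : PS (Fin N) → X),
      IsClosed (L : Set (ZGL N)) ∧ IsIrreducible (L : Set (ZGL N)) ∧ Mor e ∧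
      MorOn (Set.range e) ψ ∧ (∀ x, ψ (e x) = x) ∧
      (∀ A ∈ L, ∃ g : G, ∀ x, e (g • x) = act A.gl (e x)) ∧
      ∀ x, ∃ g : G, g • x₀ = x ∧ ∃ A ∈ L, ∀ x, e (g • x) = act A.gl (e x) := by
  obtain ⟨H₀, h₁, h₂, h₃, s, hs₁, hs⟩ := exists_idcomp _ (isClosed_stabilizer hact x₀)
  obtain ⟨l, hl₁, hl₂, hl₃⟩ := exists_normalClosure h₂ h₃
  rw [hl₂] at hl₃
  have htop := sup_eq_top hact hZc hZi hnd h₁ hl₃ (commutator_le hl₃
    (const_on_group hact x₀ hX hs Subgroup.le_normalClosure)) hs₁ hs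
  set K := Subgroup.normalClosure (H₀ : Set G)
  have htr : ∀ x : X, ∃ k : K, k • x₀ = x := fun x => by
    obtain ⟨g, rfl⟩ := exists_smul_eq G x₀ x
    obtain ⟨a, ha, h, hh, rfl⟩ := Subgroup.mem_sup_of_normal_left.1 (htop ▸ Subgroup.mem_top g)
    exact ⟨⟨a, ha⟩, by rw [mul_smul, mem_stabilizer_iff.1 hh]; rfl⟩
  have : IsPretransitive K X := ⟨fun x y => by
    obtain ⟨a, rfl⟩ := htr x
    obtain ⟨b, rfl⟩ := htr y
    exact ⟨b * a⁻¹, by rw [mul_smul, inv_smul_smul]⟩⟩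
  have hT : TAct X (K : Set G) := hl₂ ▸ tact_prod l fun Y hY => by
    obtain ⟨g, rfl⟩ := hl₁ Y hY
    exact (tact_of_le hact h₂ h₃ h₁).conj hact.right g
  obtain ⟨N, L, e, ψ, c₁, c₂, c₃, c₄, c₅, c₆, c₇⟩ := exists_linearisation (Γ := K) (X := X)
    (fun g => hact.right (g : G)) hT.subtype hX
  refine ⟨N, L, e, ψ, c₁, c₂, c₃, c₄, c₅, fun A hA => ?_, fun x => ?_⟩
  · obtain ⟨g, h⟩ := c₆ A hA
    exact ⟨g, h⟩
  · obtain ⟨k, rfl⟩ := htr x
    exact ⟨k, rfl, c₇ k⟩

theorem exists_curve [IrreducibleSpace G] [IrreducibleSpace X] [IsPretransitive G X]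
    [SimplyConnectedSpace (Euc X)] [Nontrivial X] (hact : Mor₂ fun (g : G) (x : X) => g • x)
    {x₀ : X} {Z : Set X} (hZc : IsClosed (QP.ι '' Z)) (hZi : IsIrreducible Z)
    (hZ : ∀ f : X → ℂ, FMor f → ∀ z ∈ Z, ∀ z' ∈ Z, f z = f z') (hnd : Nondeg G x₀ Z) :
    ∃ (φ : PS (Fin 2) → X) (ψ : X → PS (Fin 2)), Mor φ ∧ MorOn (Set.range φ) ψ ∧
      (∀ p, ψ (φ p) = p) ∧ Nondeg G x₀ (Set.range φ) := by
  have hX := const_of_nondeg hact hZi.nonempty hZ hnd
  obtain ⟨N, L, e, ψ, c₁, c₂, c₃, c₄, c₅, c₆, c₇⟩ := exists_linear hact hZc hZi hnd hX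
  have hG := isClosed_zgl_iff.1 c₁
  have hirr := isIrreducible_zgl_iff.1 c₂
  have horb : orbit (N := N) L (e x₀) = Set.range e := by
    ext y
    constructor
    · rintro ⟨A, hA, rfl⟩
      obtain ⟨g, h⟩ := c₆ A hA
      exact ⟨_, h x₀⟩
    · rintro ⟨x, rfl⟩
      obtain ⟨g, rfl, A, hA, h⟩ := c₇ x
      exact ⟨A, hA, h x₀⟩
  have epi := epi_of_const (N := N) L hG hirr (e x₀) fun Ψ hΨ y hy => by
    rw [horb] at hΨ hy
    obtain ⟨x, rfl⟩ := hy
    exact hX _ (fmor_iff.2 ((fmorOn_of_ratio (V := PS (Fin N)) hΨ).comp (c₃.morOn _)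
      fun x _ => ⟨x, rfl⟩)) x x₀
  obtain ⟨C, ⟨-, φ, ψ', r₁, r₂, r₃, r₄, r₅⟩, h₂, h₃, h₄⟩ := exists_goodCurve (N := N) (G := L)
    hG hirr (e x₀) (by
      obtain ⟨x, hx⟩ := exists_ne x₀
      obtain ⟨g, rfl, A, hA, h⟩ := c₇ x
      exact ⟨A, hA, fun h' => hx (by rw [← c₅ (g • x₀), h x₀]; exact (congrArg ψ h').trans (c₅ x₀))⟩) epi
  rw [horb] at h₂
  have he : ∀ y ∈ C, e (ψ y) = y := fun y hy => by
    obtain ⟨x, rfl⟩ := h₂ hy
    rw [c₅]
  refine ⟨fun p => ψ (φ p), fun x => ψ' (e x),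
    mor_iff.2 (c₄.comp (morOn_iff_regularOn.2 r₁) fun p _ => h₂ (r₃ p)),
    (morOn_iff_regularOn.2 r₂).comp (c₃.morOn _) ?_, fun p => by simp only [he _ (r₃ p), r₄], ?_⟩
  · rintro _ ⟨p, rfl⟩
    rw [he _ (r₃ p)]; exact r₃ p
  intro K hK hHK g hC
  have hC' : ∀ y ∈ C, ∃ k ∈ K, ψ y = (g * k) • x₀ := fun y hy => hC _ ⟨ψ' y, by simp only [r₅ y hy]⟩
  have hg : g ∈ K := by
    obtain ⟨k, hk, h⟩ := hC' _ h₃
    rw [c₅] at h
    simpa using K.mul_mem (hHK (mem_stabilizer_iff.2 h.symm)) (K.inv_mem hk)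
  let K' : Subgroup (GL (Fin N) ℂ) :=
    { carrier := {A | A ∈ (L : Set (ZGL N)) ∧ ∃ k ∈ K, ∀ x, e (k • x) = act A (e x)}
      one_mem' := ⟨L.one_mem, 1, K.one_mem, fun x => by rw [one_smul, act_one]⟩
      mul_mem' := by
        rintro a b ⟨ha, k, hk, h⟩ ⟨hb, k', hk', h'⟩
        exact ⟨L.mul_mem ha hb, k * k', K.mul_mem hk hk', fun x => by
          rw [mul_smul, h, h', act_mul]⟩
      inv_mem' := by
        rintro a ⟨ha, k, hk, h⟩
        exact ⟨L.inv_mem ha, k⁻¹, K.inv_mem hk, fun x => by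
          rw [← smul_inv_smul k x, h, ← act_mul, inv_mul_cancel, act_one, inv_smul_smul]⟩ }
  have hK' : ∀ A ∈ L, A.gl ∈ K' ↔ ∃ k ∈ K, ψ (act A.gl (e x₀)) = k • x₀ := fun A hA => by
    constructor
    · rintro ⟨-, k, hk, h⟩
      exact ⟨k, hk, by rw [← h, c₅]⟩
    · rintro ⟨k, hk, h⟩
      obtain ⟨a, ha⟩ := c₆ A hA
      rw [← ha, c₅] at h
      exact ⟨hA, a, mem_of_smul_eq hHK hk h, ha⟩
  have hK'c : GLClosed (K' : Set (GL (Fin N) ℂ)) := by
    have h1 : MorOn (L : Set (ZGL N)) fun A => ψ (act A.gl (e x₀)) :=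
      c₄.comp ((mor₂_act.left (e x₀)).morOn _) fun A hA => horb ▸ ⟨A, hA, rfl⟩
    have h2 := h1.continuousOn.preimage_isClosed_of_isClosed c₁ (isClosed_orbit hact hK hHK)
    refine isClosed_zgl_iff.1 ?_
    convert h2 using 1
    ext A
    exact ⟨fun h => ⟨h.1, (hK' A h.1).1 h⟩, fun h => (hK' A h.1).2 h.2⟩
  have h5 := h₄ K' (fun A hA => (hK' A hA.1).2 ⟨1, K.one_mem, by
    rw [one_smul]
    exact (congrArg ψ ((act_eq_iff _ _).2 hA.2)).trans (c₅ x₀)⟩) (fun _ h => h.1) fun y hy => by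
      obtain ⟨x, rfl⟩ := h₂ hy
      obtain ⟨k, hk, h⟩ := hC' _ hy
      obtain ⟨a, rfl, A, hA, h'⟩ := c₇ x
      exact ⟨A, (hK' A hA).2 ⟨g * k, K.mul_mem hg hk, by rw [← h', h]⟩, h' x₀⟩
  rw [eq_top_iff]
  intro a _
  obtain ⟨b, hb, A, hA, h⟩ := c₇ (a • x₀)
  have h6 : A.gl ∈ K' := Pt.mem hK'c ((pt_iff K' A.gl).2 (pres_self.2
    (gst_of_st hirr epi ((grpB K').sub (subG K')) (fun ξ hξ => h5 hξ) A.gl hA)))
  obtain ⟨k, hk, h7⟩ := (hK' A hA).1 h6
  rw [← h, c₅, hb] at h7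
  exact mem_of_smul_eq hHK hk h7

end Kol68
end

-- merged part: Pool.Agent.Work.MP_c53807_ag.GMain
section
/-!
The main theorem for arbitrary connected algebraic groups.
-/

open MvPolynomial Topology MulAction
open scoped LinearAlgebra.Projectivization

namespace Kol68

variable {L M : ℕ}

/-- The algebraic group structure of the working framework. -/
@[reducible] noncomputable def AlgGroup.ag {G : Set (PS (Fin L))} [Group G] (hG : AlgGroup G) :
    AG G :=
  haveI : Fact (IsLocallyClosed G) := ⟨hG.1.isLocallyClosed⟩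
  { toQP := QP.sub G
    mul_mor := fun _ _ φ ψ hφ hψ => by
      obtain ⟨μ, h₁, h₂⟩ := hG.2.1
      exact (h₁.preg hφ hψ (fun y _ => (φ y).2) fun y _ => (ψ y).2).congr
        fun y _ => (h₂ (φ y) (ψ y)).symm
    inv_mor := fun ρ A φ hφ => by
      obtain ⟨ν, h₁, h₂⟩ := hG.2.2
      exact (morOn_iff_regularOn.2 h₁ ρ A _ hφ fun y _ => (φ y).2).congr
        fun y _ => (h₂ (φ y)).symm }

theorem nondeg_iff {G : Set (PS (Fin L))} [Group G] {X : Set (PS (Fin M))} [MulAction G X]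
    {x₀ : X} {Z : Set (PS (Fin M))} (hZX : Z ⊆ X) :
    ¬ DegenerateIn G x₀ Z ↔ Nondeg G x₀ (Subtype.val ⁻¹' Z) := by
  have key : ∀ K : Subgroup G, (∃ A, PClosed A ∧ ∀ g : G, g ∈ K ↔ (g : PS (Fin L)) ∈ A) ↔
      IsClosed (K : Set G) := fun K => by
    rw [isClosed_induced_iff]
    exact exists_congr fun A => and_congr isClosed_iff_pClosed.symm
      ⟨fun h => Set.ext fun g => (h g).symm, fun h g => (Set.ext_iff.1 h g).symm⟩
  constructor
  · intro h K hK hs g hz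
    by_contra hne
    refine h ⟨K, (key K).2 hK, hs, hne, g, fun z hz' => ?_⟩
    obtain ⟨k, hk, e⟩ := hz ⟨z, hZX hz'⟩ hz'
    exact ⟨k, hk, congrArg Subtype.val e⟩
  · rintro h ⟨K, hK, hs, hne, g, hz⟩
    refine hne (h K ((key K).1 hK) hs g fun z hz' => ?_)
    obtain ⟨k, hk, e⟩ := hz z hz'
    exact ⟨k, hk, Subtype.ext e⟩

theorem isIrreducible_line : IsIrreducible (Set.univ : Set (PS (Fin 2))) := by
  have h0 : (fun _ => 1 : Fin 2 → ℂ) ≠ 0 := fun h => one_ne_zero (congrFun h 0)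
  have : Nonempty (PS (Fin 2)) := ⟨Projectivization.mk ℂ _ h0⟩
  have hc : ∀ y : Fin 2 → ℂ, y ≠ 0 → y ∈ cone (Set.univ : Set (PS (Fin 2))) := fun y hy => by
    obtain ⟨c, hc, e⟩ := mk_rep_eq y hy
    exact ⟨Projectivization.mk ℂ y hy, trivial, c⁻¹, inv_ne_zero hc,
      (eq_inv_smul_iff₀ hc).2 e.symm⟩
  rw [← image_taut Set.univ]
  refine (reg_taut _).isIrreducible_image ⟨⟨_, hc _ h0⟩, fun p q h => ?_⟩
  have h1 : ∀ y : Fin 2 → ℂ, eval y p * eval y (q * X (0 : Fin 2)) = 0 := fun y => by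
    by_cases hy : y = 0
    · simp [hy]
    · rw [map_mul, ← mul_assoc, h y (hc y hy), zero_mul]
  rcases (airr_univ (ρ := Fin 2)).2 p (q * X (0 : Fin 2)) fun y _ => h1 y with h2 | h2
  · exact Or.inl fun y _ => h2 y trivial
  · rcases (airr_univ (ρ := Fin 2)).2 q (X 0) fun y _ => by simpa using h2 y trivial with h3 | h3
    · exact Or.inr fun y _ => h3 y trivial
    · simpa using h3 (fun _ => 1) trivial

theorem isIrreducible_preimage_val {Y : Type*} [TopologicalSpace Y] {X Z : Set Y}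
    (hZ : IsIrreducible Z) (hZX : Z ⊆ X) : IsIrreducible (Subtype.val ⁻¹' Z : Set X) := by
  obtain ⟨z, hz⟩ := hZ.1
  refine ⟨⟨⟨z, hZX hz⟩, hz⟩, fun U V hU hV ⟨u, hu, hu'⟩ ⟨v, hv, hv'⟩ => ?_⟩
  obtain ⟨U, hU', rfl⟩ := isOpen_induced_iff.1 hU
  obtain ⟨V, hV', rfl⟩ := isOpen_induced_iff.1 hV
  obtain ⟨w, hw, h₁, h₂⟩ := hZ.2 U V hU' hV' ⟨u, hu, hu'⟩ ⟨v, hv, hv'⟩
  exact ⟨⟨w, hZX hw⟩, hw, h₁, h₂⟩

theorem main_general (G : Set (PS (Fin L))) [Group G] (hG : AlgGroup G) (hc : PConnected G)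
    (X : Set (PS (Fin M))) [MulAction G X] (hX : AlgAction G X) [IsPretransitive G X]
    (hsc : @SimplyConnectedSpace X (TopologicalSpace.induced Subtype.val (euclid (Fin M))))
    [Nontrivial X] (x₀ : X) (Z : Set (PS (Fin M))) (hZ : Subvariety Z) (hZX : Z ⊆ X)
    (hnd : ¬ DegenerateIn G x₀ Z) :
    ∃ C, SmoothRationalCurve C ∧ C ⊆ X ∧ ¬ DegenerateIn G x₀ C := by
  classical
  let _ := hG.ag
  have : Fact (IsLocallyClosed X) := ⟨hX.1.isLocallyClosed⟩
  have hact : Mor₂ fun (g : G) (x : X) => g • x := fun _ _ φ ψ hφ hψ => by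
    obtain ⟨α, h₁, h₂⟩ := hX.2
    exact (h₁.preg hφ hψ (fun y _ => (φ y).2) fun y _ => (ψ y).2).congr
      fun y _ => (h₂ (φ y) (ψ y)).symm
  have : IrreducibleSpace G := irreducibleSpace_of_connected fun B C hB hC h₁ h₂ => by
    obtain ⟨B, hB', rfl⟩ := isClosed_induced_iff.1 hB
    obtain ⟨C, hC', rfl⟩ := isClosed_induced_iff.1 hC
    refine (hc B C (isClosed_iff_pClosed.1 hB') (isClosed_iff_pClosed.1 hC')
      (fun g hg => Set.eq_univ_iff_forall.1 h₁ ⟨g, hg⟩)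
      (Set.eq_empty_iff_forall_notMem.2 fun g hg =>
        Set.eq_empty_iff_forall_notMem.1 h₂ ⟨g, hg.1.1⟩ ⟨hg.1.2, hg.2⟩)).imp
      (fun h => Set.eq_univ_of_forall fun g => h g.2) fun h => Set.eq_univ_of_forall fun g => h g.2
  have : IrreducibleSpace X :=
    (surjective_smul G x₀).irreducibleSpace (hact.left x₀).continuous
  have : SimplyConnectedSpace (Euc X) := hsc
  have hZ' := subvariety_iff.1 hZ
  have himg : Subtype.val '' (Subtype.val ⁻¹' Z : Set X) = Z :=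
    Set.image_preimage_eq_of_subset (by simpa using hZX)
  obtain ⟨φ, ψ, h₁, h₂, h₃, h₄⟩ := exists_curve hact (Z := Subtype.val ⁻¹' Z)
    (himg.symm ▸ hZ'.1 : IsClosed (Subtype.val '' (Subtype.val ⁻¹' Z : Set X)))
    (isIrreducible_preimage_val hZ'.2 hZX)
    (fun f hf z hz z' hz' => by
      obtain ⟨c, hc⟩ := ConstBAux.const_of_local hZ (fun x => if h : x ∈ X then f ⟨x, h⟩ else 0)
        fun x hx => by
          obtain ⟨e, a, b, ha, hb, h₁, h₂⟩ :=
            (hf.fmorOn Set.univ).exists_ratio (x := ⟨x, hZX hx⟩) trivial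
          exact ⟨e, a, b, ha, hb, h₁, fun y hy => by
            rw [dif_pos (hZX hy), mul_comm]; exact h₂ ⟨y, hZX hy⟩ trivial⟩
      have h₁ := hc _ hz
      have h₂ := hc _ hz'
      rw [dif_pos z.2] at h₁
      rw [dif_pos z'.2] at h₂
      exact h₁.trans h₂.symm)
    ((nondeg_iff hZX).1 hnd)
  have hφ : Mor fun p => (φ p : PS (Fin M)) := h₁
  have hCX : (Set.range fun p => (φ p : PS (Fin M))) ⊆ X := by
    rintro _ ⟨p, rfl⟩; exact (φ p).2
  let j : PS (Fin M) → X := fun x => if h : x ∈ X then ⟨x, h⟩ else x₀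
  have hj : ∀ x : X, j x = x := fun x => dif_pos x.2
  have hj' : MorOn X j := fun ρ A θ hθ hm =>
    PReg.congr hθ fun y hy => congrArg Subtype.val (hj ⟨_, hm hy⟩)
  refine ⟨Set.range fun p => (φ p : PS (Fin M)), ⟨subvariety_iff.2 ⟨isClosed_range_line hφ, ?_⟩,
    fun p => φ p, fun x => ψ (j x), morOn_iff_regularOn.1 (hφ.morOn _),
    morOn_iff_regularOn.1 (h₂.comp (hj'.mono hCX) ?_), fun p => ⟨p, rfl⟩,
    fun p => by simp only [hj, h₃], ?_⟩, hCX, (nondeg_iff hCX).2 ?_⟩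
  · rw [← Set.image_univ]
    exact isIrreducible_line.image _ hφ.continuous.continuousOn
  · rintro _ ⟨p, rfl⟩
    exact ⟨p, (hj _).symm⟩
  · rintro _ ⟨p, rfl⟩
    simp only [hj, h₃]
  · convert h₄ using 1
    ext x
    exact ⟨fun ⟨p, e⟩ => ⟨p, Subtype.ext e⟩, fun ⟨p, e⟩ => ⟨p, congrArg Subtype.val e⟩⟩

end Kol68
end
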