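import Pool.Agent.Work.MP_c53807_ag.Main

/-!
Let `G ⊆ GL_N(ℂ)` be a connected linear algebraic group and `X = G · x₀ ≅ G / H` an orbit in
projective space that is not a point. If `X` contains a proper nondegenerate subvariety, then it
contains a nondegenerate subvariety isomorphic to the projective line.
-/

open scoped LinearAlgebra.Projectivization

namespace Pool.Agent.Work.MP_c53807_ag.RationalCurve

theorem result (N : ℕ) (G : Subgroup (GL (Fin N) ℂ))
    (hG : Kol68.GLClosed (G : Set (GL (Fin N) ℂ)))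
    (hc : Kol68.GLConnected (G : Set (GL (Fin N) ℂ))) (x₀ : ℙ ℂ (Fin N → ℂ))
    (hx : ∃ g ∈ G, Kol68.act g x₀ ≠ x₀) (Z : Set (ℙ ℂ (Fin N → ℂ))) (hZ : Kol68.Subvariety Z)
    (hZX : Z ⊆ Kol68.orbit G x₀) (hnd : ¬ Kol68.Degenerate G x₀ Z) :
    ∃ C : Set (ℙ ℂ (Fin N → ℂ)), Kol68.SmoothRationalCurve C ∧ C ⊆ Kol68.orbit G x₀ ∧
      ¬ Kol68.Degenerate G x₀ C :=
  Kol68.main hG hc x₀ hx Z hZ hZX hnd

end Pool.Agent.Work.MP_c53807_ag.RationalCurve
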